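import Pool.Agent.H960R3.DL3

/-!
# A non-Lindelöf T₁ space with discretely Lindelöf co-diagonal

The construction is a variant of the space of `Pool.Agent.H960R3.DL` (without the order).
-/

set_option autoImplicit false

open Set Topology Cardinal Filter

namespace Pool.Agent.H266CD

open Pool.Agent.H960R3.DL

variable {L : ℕ → Type} [∀ n, LinearOrder (L n)]

/-- The point set: vectors of some rank below `δ`, in two copies. -/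
def Q (δ : Ordinal.{0}) (G : Ordinal.{0} → ∀ n, L n) : Type :=
  {x : Vec L // ∃ ξ < δ, Lo G ξ x} × Bool

variable {δ : Ordinal.{0}} {G : Ordinal.{0} → ∀ n, L n}

/-- basic open sets -/
def Nb (s : Finset (Σ n, L n)) (t : Finset Ordinal.{0}) (F : Finset (Q δ G)) : Set (Q δ G) :=
  {q | InU s q.1.1 ∧ InW δ G t q.1.1 ∧ q ∉ F}

open Classical in
instance topQ (δ : Ordinal.{0}) (G : Ordinal.{0} → ∀ n, L n) : TopologicalSpace (Q δ G) where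
  IsOpen O := ∀ p ∈ O, ∃ (s : Finset (Σ n, L n)) (t : Finset Ordinal.{0}) (F : Finset (Q δ G)),
    p ∈ Nb s t F ∧ Nb s t F ⊆ O
  isOpen_univ := fun p _ => ⟨∅, ∅, ∅, by simp [Nb, InU, InW], subset_univ _⟩
  isOpen_inter := by
    intro O O' h h' p hp
    obtain ⟨s, t, F, h1, h2⟩ := h p hp.1
    obtain ⟨s', t', F', h1', h2'⟩ := h' p hp.2
    refine ⟨s ∪ s', t ∪ t', F ∪ F', ⟨?_, ?_, ?_⟩, ?_⟩
    · intro a ha
      rcases Finset.mem_union.1 ha with ha | ha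
      · exact h1.1 a ha
      · exact h1'.1 a ha
    · intro a ha
      rcases Finset.mem_union.1 ha with ha | ha
      · exact h1.2.1 a ha
      · exact h1'.2.1 a ha
    · rw [Finset.mem_union, not_or]
      exact ⟨h1.2.2, h1'.2.2⟩
    · rintro q ⟨hq1, hq2, hq3⟩
      rw [Finset.mem_union, not_or] at hq3
      exact ⟨h2 ⟨fun a ha => hq1 a (Finset.mem_union_left _ ha),
        fun a ha => hq2 a (Finset.mem_union_left _ ha), hq3.1⟩,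
        h2' ⟨fun a ha => hq1 a (Finset.mem_union_right _ ha),
        fun a ha => hq2 a (Finset.mem_union_right _ ha), hq3.2⟩⟩
  isOpen_sUnion := by
    intro S hS p hp
    obtain ⟨O, hO, hpO⟩ := hp
    obtain ⟨s, t, F, h1, h2⟩ := hS O hO p hpO
    exact ⟨s, t, F, h1, h2.trans (subset_sUnion_of_mem hO)⟩

theorem isOpen_iff' {O : Set (Q δ G)} : IsOpen O ↔
    ∀ p ∈ O, ∃ (s : Finset (Σ n, L n)) (t : Finset Ordinal.{0}) (F : Finset (Q δ G)),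
    p ∈ Nb s t F ∧ Nb s t F ⊆ O := Iff.rfl

theorem isOpen_Nb (s : Finset (Σ n, L n)) (t : Finset Ordinal.{0}) (F : Finset (Q δ G)) :
    IsOpen (Nb s t F) := fun _ hp => ⟨s, t, F, hp, Subset.rfl⟩

instance t1Q : T1Space (Q δ G) := by
  refine ⟨fun p => ⟨?_⟩⟩
  intro q hq
  refine ⟨∅, ∅, {p}, ⟨by simp [InU], by simp [InW], by simpa using hq⟩, ?_⟩
  rintro r ⟨-, -, hr⟩
  simpa using hr

theorem isOpen_U (n : ℕ) (a : L n) : IsOpen {p : Q δ G | p.1.1 n < (a : WithTop (L n))} := by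
  intro p hp
  refine ⟨{⟨n, a⟩}, ∅, ∅, ⟨?_, by simp [InW], by simp⟩, ?_⟩
  · intro c hc
    rw [Finset.mem_singleton] at hc
    subst hc
    exact hp
  · intro q hq
    exact hq.1 ⟨n, a⟩ (by simp)

theorem isClosed_Lo {ξ : Ordinal.{0}} (hξ : ξ < δ) : IsClosed {p : Q δ G | Lo G ξ p.1.1} := by
  refine ⟨?_⟩
  intro p hp
  refine ⟨∅, {ξ}, ∅, ⟨by simp [InU], ?_, by simp⟩, ?_⟩
  · intro c hc
    rw [Finset.mem_singleton] at hc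
    subst hc
    exact ⟨hξ, hp⟩
  · intro q hq
    exact (hq.2.1 ξ (by simp)).2

theorem prod_basic {O : Set (Q δ G × Q δ G)} (hO : IsOpen O) {z : Q δ G × Q δ G} (hz : z ∈ O) :
    ∃ (s : Finset (Σ n, L n)) (t : Finset Ordinal.{0}) (F : Finset (Q δ G))
      (s' : Finset (Σ n, L n)) (t' : Finset Ordinal.{0}) (F' : Finset (Q δ G)),
      z.1 ∈ Nb s t F ∧ z.2 ∈ Nb s' t' F' ∧
        ∀ w : Q δ G × Q δ G, w.1 ∈ Nb s t F → w.2 ∈ Nb s' t' F' → w ∈ O := by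
  obtain ⟨u, v, hu, hv, h1, h2, h3⟩ := isOpen_prod_iff.1 hO z.1 z.2 hz
  obtain ⟨s, t, F, h4, h5⟩ := hu z.1 h1
  obtain ⟨s', t', F', h4', h5'⟩ := hv z.2 h2
  exact ⟨s, t, F, s', t', F', h4, h4', fun w hw hw' => h3 ⟨h5 hw, h5' hw'⟩⟩

/-- the test point -/
noncomputable def tp (G : Ordinal.{0} → ∀ n, L n) (ξ : Ordinal.{0}) (hξ : ξ < δ) (A : Set ℕ)
    (hA : A.Infinite) (b : Bool) : Q δ G :=
  (⟨xA G ξ A, ξ, hξ, lo_xA G ξ hA⟩, b)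

/-- If the basic neighbourhood `(s,t,F)` contains a test point of `A`, and the support of `s` is
the support of a neighbourhood of a test point of `A'`, then ... -/
theorem inU_of {ξ : Ordinal.{0}} {s s' : Finset (Σ n, L n)} {A A' : Set ℕ} {x : Vec L}
    (hx : ∀ n ∈ A, x n ≤ (G ξ n : WithTop (L n)))
    (h : InU s (xA G ξ A)) (h' : InU s' (xA G ξ A'))
    (hd : s'.image Sigma.fst = s.image Sigma.fst) : InU s' x := by
  classical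
  intro c hc
  have h1 : c.1 ∈ s.image Sigma.fst := by
    rw [← hd]
    exact Finset.mem_image_of_mem _ hc
  obtain ⟨c', hc', he⟩ := Finset.mem_image.1 h1
  have h2 : c'.1 ∈ A := by
    by_contra h5
    have h6 := h c' hc'
    simp [xA, h5] at h6
  have h3 := h' c hc
  have h4 : c.1 ∈ A' := by
    by_contra h5
    simp [xA, h5] at h3
  simp only [xA, h4, if_true] at h3
  exact (hx c.1 (he ▸ h2)).trans_lt h3

theorem lt_of_inW (hG : ∀ ξ < δ, ∀ η < ξ, ∀ᶠ n in atTop, G η n < G ξ n) {ξ : Ordinal.{0}}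
    {t : Finset Ordinal.{0}} {A : Set ℕ} (hA : A.Infinite)
    (h : InW δ G t (xA G ξ A)) {ζ : Ordinal.{0}} (hζ : ζ ∈ t) : ζ < ξ := by
  obtain ⟨h1, h2⟩ := h ζ hζ
  by_contra h3
  rw [not_lt] at h3
  exact h2 (Lo.mono hG h3 h1 (lo_xA G ξ hA))

/-- `Lo ξ` minus a point has the Lindelöf property. -/
theorem cov_single (hG : ∀ ξ < δ, ∀ η < ξ, ∀ᶠ n in atTop, G η n < G ξ n) (f : Q δ G)
    (𝒪 : Set (Set (Q δ G))) (hO : ∀ O ∈ 𝒪, IsOpen O) (ξ : Ordinal.{0}) (hξ : ξ < δ)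
    (hc : {p : Q δ G | Lo G ξ p.1.1 ∧ p ≠ f} ⊆ ⋃₀ 𝒪) :
    Cov 𝒪 {p : Q δ G | Lo G ξ p.1.1 ∧ p ≠ f} := by
  classical
  induction ξ using WellFoundedLT.induction with
  | ind ξ ih =>
  have h0 : ∀ A : Set ℕ, A.Infinite → ∃ (O : Set (Q δ G)) (s : Finset (Σ n, L n))
      (t : Finset Ordinal.{0}) (F : Finset (Q δ G)), O ∈ 𝒪 ∧ InU s (xA G ξ A) ∧
        InW δ G t (xA G ξ A) ∧ Nb s t F ⊆ O := by
    intro A hA
    have hne : tp G ξ hξ A hA (!f.2) ≠ f := by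
      intro h
      have h1 : (!f.2) = f.2 := congrArg Prod.snd h
      revert h1
      cases f.2 <;> simp
    obtain ⟨O, hO1, hpO⟩ := hc (show tp G ξ hξ A hA (!f.2) ∈ {p : Q δ G | Lo G ξ p.1.1 ∧ p ≠ f}
      from ⟨lo_xA G ξ hA, hne⟩)
    obtain ⟨s, t, F, h1, h2⟩ := hO O hO1 _ hpO
    exact ⟨O, s, t, F, hO1, h1.1, h1.2.1, h2⟩
  choose! Oa sa ta Fa hOa hsa hta hqa using h0
  let dom : Set ℕ → Finset ℕ := fun A => (sa A).image Sigma.fst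
  let D : Set (Finset ℕ) := {d | ∃ A : Set ℕ, A.Infinite ∧ dom A = d}
  have hD : ∀ d ∈ D, ∃ A : Set ℕ, A.Infinite ∧ dom A = d := fun d hd => hd
  choose! Ad hAd hAd' using hD
  have hsub : {p : Q δ G | Lo G ξ p.1.1 ∧ p ≠ f} ⊆ ⋃ d ∈ D, (Oa (Ad d) ∪
      ((⋃ ζ ∈ (ta (Ad d) : Set Ordinal.{0}), {p : Q δ G | Lo G ζ p.1.1 ∧ p ≠ f}) ∪
        ((Fa (Ad d) : Set (Q δ G)) ∩ {p : Q δ G | Lo G ξ p.1.1 ∧ p ≠ f}))) := by
    intro p hp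
    let A : Set ℕ := {n | p.1.1 n ≤ (G ξ n : WithTop (L n))}
    have hA : A.Infinite := Nat.frequently_atTop_iff_infinite.1 hp.1
    have hd : dom A ∈ D := ⟨A, hA, rfl⟩
    refine mem_iUnion₂.2 ⟨dom A, hd, ?_⟩
    have hB := hAd _ hd
    have hB' := hAd' _ hd
    have hU : InU (sa (Ad (dom A))) p.1.1 :=
      inU_of (A := A) (fun n hn => hn) (hsa A hA) (hsa _ hB) hB'
    by_cases hW : InW δ G (ta (Ad (dom A))) p.1.1
    · by_cases hF : p ∈ Fa (Ad (dom A))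
      · exact Or.inr (Or.inr ⟨hF, hp⟩)
      · exact Or.inl (hqa _ hB ⟨hU, hW, hF⟩)
    · refine Or.inr (Or.inl ?_)
      rw [InW] at hW
      push Not at hW
      obtain ⟨ζ, hζ, h⟩ := hW
      exact mem_iUnion₂.2 ⟨ζ, hζ, h (hta _ hB ζ hζ).1, hp.2⟩
  refine Cov.mono ?_ hsub
  refine Cov.biUnion (to_countable D) fun d hd => ?_
  have hB := hAd _ hd
  refine Cov.union (Cov.of_mem (hOa _ hB)) (Cov.union ?_ ?_)
  · refine Cov.biUnion (Finset.countable_toSet _) fun ζ hζ => ?_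
    have hlt : ζ < ξ := lt_of_inW hG hB (hta _ hB) hζ
    exact ih ζ hlt (hlt.trans hξ)
      (Subset.trans (show {p : Q δ G | Lo G ζ p.1.1 ∧ p ≠ f} ⊆ {p : Q δ G | Lo G ξ p.1.1 ∧ p ≠ f}
        from fun p hp => ⟨Lo.mono hG hlt.le hξ hp.1, hp.2⟩) hc)
  · have hfin : ((Fa (Ad d) : Set (Q δ G)) ∩ {p : Q δ G | Lo G ξ p.1.1 ∧ p ≠ f}).Finite :=
      (Finset.finite_toSet _).inter_of_left _
    rw [← biUnion_of_singleton ((Fa (Ad d) : Set (Q δ G)) ∩ {p : Q δ G | Lo G ξ p.1.1 ∧ p ≠ f})]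
    refine Cov.biUnion hfin.countable fun q hq => ?_
    obtain ⟨O, hO1, hqO⟩ := hc hq.2
    exact (Cov.of_mem hO1).mono (singleton_subset_iff.2 hqO)

/-- the off-diagonal part of `Lo η × Lo ξ` -/
def Sq (G : Ordinal.{0} → ∀ n, L n) (δ η ξ : Ordinal.{0}) : Set (Q δ G × Q δ G) :=
  {z | Lo G η z.1.1.1 ∧ Lo G ξ z.2.1.1 ∧ z.1 ≠ z.2}

theorem cov_slice1 (hG : ∀ ξ < δ, ∀ η < ξ, ∀ᶠ n in atTop, G η n < G ξ n) (f : Q δ G)
    (𝒪 : Set (Set (Q δ G × Q δ G))) (hO : ∀ O ∈ 𝒪, IsOpen O) (ξ : Ordinal.{0}) (hξ : ξ < δ)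
    (hc : {z : Q δ G × Q δ G | z.1 = f ∧ Lo G ξ z.2.1.1 ∧ z.1 ≠ z.2} ⊆ ⋃₀ 𝒪) :
    Cov 𝒪 {z : Q δ G × Q δ G | z.1 = f ∧ Lo G ξ z.2.1.1 ∧ z.1 ≠ z.2} := by
  obtain ⟨V, hV1, hV2, hV3⟩ := cov_single hG f
    ((fun O : Set (Q δ G × Q δ G) => {y | (f, y) ∈ O}) '' 𝒪)
    (by
      rintro _ ⟨O, hO1, rfl⟩
      exact (hO O hO1).preimage (by fun_prop : Continuous fun y : Q δ G => (f, y))) ξ hξ
    (by
      rintro y ⟨hy1, hy2⟩
      obtain ⟨O, hO1, hyO⟩ := hc (show (f, y) ∈ {z : Q δ G × Q δ G | z.1 = f ∧ Lo G ξ z.2.1.1 ∧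
        z.1 ≠ z.2} from ⟨rfl, hy1, hy2.symm⟩)
      exact ⟨_, ⟨O, hO1, rfl⟩, hyO⟩)
  have hV4 : ∀ v ∈ V, ∃ O ∈ 𝒪, {y | (f, y) ∈ O} = v := fun v hv => hV1 hv
  choose! c hc1 hc2 using hV4
  refine ⟨c '' V, by rintro _ ⟨v, hv, rfl⟩; exact hc1 v hv, hV2.image c, ?_⟩
  rintro ⟨x, y⟩ ⟨rfl, h1, h2⟩
  obtain ⟨v, hv, hyv⟩ := hV3 (show y ∈ {p : Q δ G | Lo G ξ p.1.1 ∧ p ≠ x} from ⟨h1, h2.symm⟩)
  refine ⟨c v, ⟨v, hv, rfl⟩, ?_⟩
  rw [← hc2 v hv] at hyv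
  exact hyv

theorem cov_slice2 (hG : ∀ ξ < δ, ∀ η < ξ, ∀ᶠ n in atTop, G η n < G ξ n) (f : Q δ G)
    (𝒪 : Set (Set (Q δ G × Q δ G))) (hO : ∀ O ∈ 𝒪, IsOpen O) (ξ : Ordinal.{0}) (hξ : ξ < δ)
    (hc : {z : Q δ G × Q δ G | z.2 = f ∧ Lo G ξ z.1.1.1 ∧ z.1 ≠ z.2} ⊆ ⋃₀ 𝒪) :
    Cov 𝒪 {z : Q δ G × Q δ G | z.2 = f ∧ Lo G ξ z.1.1.1 ∧ z.1 ≠ z.2} := by
  obtain ⟨V, hV1, hV2, hV3⟩ := cov_single hG f
    ((fun O : Set (Q δ G × Q δ G) => {y | (y, f) ∈ O}) '' 𝒪)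
    (by
      rintro _ ⟨O, hO1, rfl⟩
      exact (hO O hO1).preimage (by fun_prop : Continuous fun y : Q δ G => (y, f))) ξ hξ
    (by
      rintro y ⟨hy1, hy2⟩
      obtain ⟨O, hO1, hyO⟩ := hc (show (y, f) ∈ {z : Q δ G × Q δ G | z.2 = f ∧ Lo G ξ z.1.1.1 ∧
        z.1 ≠ z.2} from ⟨rfl, hy1, hy2⟩)
      exact ⟨_, ⟨O, hO1, rfl⟩, hyO⟩)
  have hV4 : ∀ v ∈ V, ∃ O ∈ 𝒪, {y | (y, f) ∈ O} = v := fun v hv => hV1 hv
  choose! c hc1 hc2 using hV4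
  refine ⟨c '' V, by rintro _ ⟨v, hv, rfl⟩; exact hc1 v hv, hV2.image c, ?_⟩
  rintro ⟨x, y⟩ ⟨h0, h1, h2⟩
  obtain rfl : y = f := h0
  obtain ⟨v, hv, hyv⟩ := hV3 (show x ∈ {p : Q δ G | Lo G ξ p.1.1 ∧ p ≠ y} from ⟨h1, h2⟩)
  refine ⟨c v, ⟨v, hv, rfl⟩, ?_⟩
  rw [← hc2 v hv] at hyv
  exact hyv

/-- The off-diagonal part of `Lo η × Lo ξ` has the Lindelöf property. -/
theorem cov_double (hG : ∀ ξ < δ, ∀ η < ξ, ∀ᶠ n in atTop, G η n < G ξ n)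
    (𝒪 : Set (Set (Q δ G × Q δ G))) (hO : ∀ O ∈ 𝒪, IsOpen O) (η : Ordinal.{0}) :
    ∀ ξ : Ordinal.{0}, η < δ → ξ < δ → Sq G δ η ξ ⊆ ⋃₀ 𝒪 → Cov 𝒪 (Sq G δ η ξ) := by
  classical
  induction η using WellFoundedLT.induction with
  | ind η ih1 =>
  intro ξ
  induction ξ using WellFoundedLT.induction with
  | ind ξ ih2 =>
  intro hη hξ hc
  have h0 : ∀ AB : Set ℕ × Set ℕ, AB.1.Infinite ∧ AB.2.Infinite →
      ∃ (O : Set (Q δ G × Q δ G)) (s : Finset (Σ n, L n))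
      (t : Finset Ordinal.{0}) (F : Finset (Q δ G)) (s' : Finset (Σ n, L n))
      (t' : Finset Ordinal.{0}) (F' : Finset (Q δ G)), O ∈ 𝒪 ∧ InU s (xA G η AB.1) ∧
        InW δ G t (xA G η AB.1) ∧ InU s' (xA G ξ AB.2) ∧ InW δ G t' (xA G ξ AB.2) ∧
        ∀ w : Q δ G × Q δ G, w.1 ∈ Nb s t F → w.2 ∈ Nb s' t' F' → w ∈ O := by
    rintro ⟨A, B⟩ ⟨hA, hB⟩
    have hne : tp G η hη A hA false ≠ tp G ξ hξ B hB true := by
      intro h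
      have h1 : false = true := congrArg Prod.snd h
      exact Bool.false_ne_true h1
    obtain ⟨O, hO1, hpO⟩ := hc (show (tp G η hη A hA false, tp G ξ hξ B hB true) ∈ Sq G δ η ξ
      from ⟨lo_xA G η hA, lo_xA G ξ hB, hne⟩)
    obtain ⟨s, t, F, s', t', F', h1, h2, h3⟩ := prod_basic (hO O hO1) hpO
    exact ⟨O, s, t, F, s', t', F', hO1, h1.1, h1.2.1, h2.1, h2.2.1, h3⟩
  choose! Oa sa ta Fa sb tb Fb hOa hsa hta hsb htb hqa using h0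
  let dom : Set ℕ × Set ℕ → Finset ℕ × Finset ℕ := fun A =>
    ((sa A).image Sigma.fst, (sb A).image Sigma.fst)
  let D : Set (Finset ℕ × Finset ℕ) := {d | ∃ A : Set ℕ × Set ℕ,
    (A.1.Infinite ∧ A.2.Infinite) ∧ dom A = d}
  have hD : ∀ d ∈ D, ∃ A : Set ℕ × Set ℕ, (A.1.Infinite ∧ A.2.Infinite) ∧ dom A = d :=
    fun d hd => hd
  choose! Ad hAd hAd' using hD
  have hsub : Sq G δ η ξ ⊆ ⋃ d ∈ D, (Oa (Ad d) ∪
      (((⋃ ζ ∈ (ta (Ad d) : Set Ordinal.{0}), Sq G δ ζ ξ) ∪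
        (⋃ ζ ∈ (tb (Ad d) : Set Ordinal.{0}), Sq G δ η ζ)) ∪
      ((⋃ f ∈ {f : Q δ G | f ∈ Fa (Ad d) ∧ Lo G η f.1.1},
          {z : Q δ G × Q δ G | z.1 = f ∧ Lo G ξ z.2.1.1 ∧ z.1 ≠ z.2}) ∪
        (⋃ f ∈ {f : Q δ G | f ∈ Fb (Ad d) ∧ Lo G ξ f.1.1},
          {z : Q δ G × Q δ G | z.2 = f ∧ Lo G η z.1.1.1 ∧ z.1 ≠ z.2})))) := by
    intro z hz
    let A : Set ℕ := {n | z.1.1.1 n ≤ (G η n : WithTop (L n))}
    let B : Set ℕ := {n | z.2.1.1 n ≤ (G ξ n : WithTop (L n))}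
    have hA : A.Infinite := Nat.frequently_atTop_iff_infinite.1 hz.1
    have hB : B.Infinite := Nat.frequently_atTop_iff_infinite.1 hz.2.1
    have hd : dom (A, B) ∈ D := ⟨(A, B), ⟨hA, hB⟩, rfl⟩
    refine mem_iUnion₂.2 ⟨dom (A, B), hd, ?_⟩
    have hI := hAd _ hd
    have hI' := hAd' _ hd
    have hU : InU (sa (Ad (dom (A, B)))) z.1.1.1 :=
      inU_of (A := A) (fun n hn => hn) (hsa (A, B) ⟨hA, hB⟩) (hsa _ hI) (congrArg Prod.fst hI')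
    have hU' : InU (sb (Ad (dom (A, B)))) z.2.1.1 :=
      inU_of (A := B) (fun n hn => hn) (hsb (A, B) ⟨hA, hB⟩) (hsb _ hI) (congrArg Prod.snd hI')
    by_cases hW : InW δ G (ta (Ad (dom (A, B)))) z.1.1.1
    · by_cases hW' : InW δ G (tb (Ad (dom (A, B)))) z.2.1.1
      · by_cases hF : z.1 ∈ Fa (Ad (dom (A, B)))
        · exact Or.inr (Or.inr (Or.inl (mem_iUnion₂.2
            ⟨z.1, ⟨hF, hz.1⟩, rfl, hz.2.1, hz.2.2⟩)))
        · by_cases hF' : z.2 ∈ Fb (Ad (dom (A, B)))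
          · exact Or.inr (Or.inr (Or.inr (mem_iUnion₂.2
              ⟨z.2, ⟨hF', hz.2.1⟩, rfl, hz.1, hz.2.2⟩)))
          · exact Or.inl (hqa _ hI z ⟨hU, hW, hF⟩ ⟨hU', hW', hF'⟩)
      · refine Or.inr (Or.inl (Or.inr ?_))
        rw [InW] at hW'
        push Not at hW'
        obtain ⟨ζ, hζ, h⟩ := hW'
        exact mem_iUnion₂.2 ⟨ζ, hζ, hz.1, h (htb _ hI ζ hζ).1, hz.2.2⟩
    · refine Or.inr (Or.inl (Or.inl ?_))
      rw [InW] at hW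
      push Not at hW
      obtain ⟨ζ, hζ, h⟩ := hW
      exact mem_iUnion₂.2 ⟨ζ, hζ, h (hta _ hI ζ hζ).1, hz.2.1, hz.2.2⟩
  refine Cov.mono ?_ hsub
  refine Cov.biUnion (to_countable D) fun d hd => ?_
  have hI := hAd _ hd
  refine Cov.union (Cov.of_mem (hOa _ hI)) (Cov.union (Cov.union ?_ ?_) (Cov.union ?_ ?_))
  · refine Cov.biUnion (Finset.countable_toSet _) fun ζ hζ => ?_
    have hlt : ζ < η := lt_of_inW hG hI.1 (hta _ hI) hζ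
    exact ih1 ζ hlt ξ (hlt.trans hη) hξ
      (Subset.trans (show Sq G δ ζ ξ ⊆ Sq G δ η ξ
        from fun p hp => ⟨Lo.mono hG hlt.le hη hp.1, hp.2⟩) hc)
  · refine Cov.biUnion (Finset.countable_toSet _) fun ζ hζ => ?_
    have hlt : ζ < ξ := lt_of_inW hG hI.2 (htb _ hI) hζ
    exact ih2 ζ hlt hη (hlt.trans hξ)
      (Subset.trans (show Sq G δ η ζ ⊆ Sq G δ η ξ
        from fun p hp => ⟨hp.1, Lo.mono hG hlt.le hξ hp.2.1, hp.2.2⟩) hc)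
  · have hfin : {f : Q δ G | f ∈ Fa (Ad d) ∧ Lo G η f.1.1}.Finite :=
      (Finset.finite_toSet (Fa (Ad d))).subset fun f hf => hf.1
    refine Cov.biUnion hfin.countable fun f hf => ?_
    refine cov_slice1 hG f 𝒪 hO ξ hξ (Subset.trans ?_ hc)
    rintro z ⟨rfl, h2, h3⟩
    exact ⟨hf.2, h2, h3⟩
  · have hfin : {f : Q δ G | f ∈ Fb (Ad d) ∧ Lo G ξ f.1.1}.Finite :=
      (Finset.finite_toSet (Fb (Ad d))).subset fun f hf => hf.1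
    refine Cov.biUnion hfin.countable fun f hf => ?_
    refine cov_slice2 hG f 𝒪 hO η hη (Subset.trans ?_ hc)
    rintro z ⟨rfl, h2, h3⟩
    exact ⟨h2, hf.2, h3⟩

theorem isLindelof_Sq (hG : ∀ ξ < δ, ∀ η < ξ, ∀ᶠ n in atTop, G η n < G ξ n)
    {ξ : Ordinal.{0}} (hξ : ξ < δ) : IsLindelof (Sq G δ ξ ξ) := by
  refine isLindelof_of_countable_subcover ?_
  intro ι U hUo hUc
  obtain ⟨V, hV1, hV2, hV3⟩ := cov_double hG (range U)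
    (by rintro _ ⟨i, rfl⟩; exact hUo i) ξ ξ hξ hξ (by rwa [sUnion_range])
  have hV4 : ∀ v : V, ∃ i, U i = v.1 := fun v => hV1 v.2
  choose c hc using hV4
  have := hV2.to_subtype
  refine ⟨range c, countable_range c, fun p hp => ?_⟩
  obtain ⟨v, hv, hpv⟩ := hV3 hp
  refine mem_iUnion₂.2 ⟨c ⟨v, hv⟩, ⟨_, rfl⟩, ?_⟩
  rw [hc ⟨v, hv⟩]
  exact hpv

end Pool.Agent.H266CD
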