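import Pool.Agent.H266CD

/-!
# Discrete subsets of the square have bounded rank
-/

set_option autoImplicit false

open Set Topology Cardinal Filter

namespace Pool.Agent.H266CD

open Pool.Agent.H960R3.DL

variable {L : ℕ → Type} [∀ n, LinearOrder (L n)]
variable {δ : Ordinal.{0}} {G : Ordinal.{0} → ∀ n, L n}

open Classical in
/-- the rank -/
noncomputable def rk (p : Q δ G) : Ordinal.{0} := sInf {ξ | ξ < δ ∧ Lo G ξ p.1.1}

theorem rk_spec (p : Q δ G) : rk p < δ ∧ Lo G (rk p) p.1.1 := by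
  obtain ⟨ξ, h1, h2⟩ := p.1.2
  exact csInf_mem (s := {ξ | ξ < δ ∧ Lo G ξ p.1.1}) ⟨ξ, h1, h2⟩

theorem rk_le {p : Q δ G} {ξ : Ordinal.{0}} (h1 : ξ < δ) (h2 : Lo G ξ p.1.1) : rk p ≤ ξ :=
  csInf_le' ⟨h1, h2⟩

/-- If `q` has at least the rank of `p`, it satisfies the rank constraints satisfied by `p`. -/
theorem inW_mono (hG : ∀ ξ < δ, ∀ η < ξ, ∀ᶠ n in atTop, G η n < G ξ n) {t : Finset Ordinal.{0}}
    {p q : Q δ G} (h : InW δ G t p.1.1) (hr : rk p ≤ rk q) : InW δ G t q.1.1 := by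
  intro ζ hζ
  obtain ⟨h1, h2⟩ := h ζ hζ
  refine ⟨h1, fun h3 => h2 ?_⟩
  exact Lo.mono hG (hr.trans (rk_le h1 h3)) h1 (rk_spec p).2

theorem exists_min {ι : Type*} (C : Set ι) (r : ι → Ordinal.{0}) (hne : C.Nonempty) :
    ∃ i ∈ C, ∀ j ∈ C, r i ≤ r j := by
  obtain ⟨i, hi, h⟩ := csInf_mem (hne.image r)
  refine ⟨i, hi, fun j hj => ?_⟩
  rw [h]
  exact csInf_le' ⟨j, hj, rfl⟩

theorem finite_single (hG : ∀ ξ < δ, ∀ η < ξ, ∀ᶠ n in atTop, G η n < G ξ n)
    {ι : Type*} (C : Set ι) (p : ι → Q δ G) (s : Finset (Σ n, L n)) (t : ι → Finset Ordinal.{0})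
    (F : ι → Finset (Q δ G)) (h1 : ∀ i ∈ C, p i ∈ Nb s (t i) (F i))
    (h2 : ∀ i ∈ C, ∀ j ∈ C, p j ∈ Nb s (t i) (F i) → j = i) : C.Finite := by
  classical
  by_cases hne : C.Nonempty
  · obtain ⟨i, hi, hmin⟩ := exists_min C (fun i => rk (p i)) hne
    have hinj : InjOn p C := by
      intro a ha b hb hab
      exact h2 b hb a ha (hab ▸ h1 b hb)
    have hsub : C ⊆ {i} ∪ (C ∩ p ⁻¹' (F i : Set (Q δ G))) := by
      intro j hj
      by_cases hF : p j ∈ F i
      · exact Or.inr ⟨hj, hF⟩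
      · left
        exact h2 i hi j hj ⟨(h1 j hj).1, inW_mono hG (h1 i hi).2.1 (hmin j hj), hF⟩
    refine Finite.subset ((finite_singleton i).union ?_) hsub
    have hinj' : InjOn p (C ∩ p ⁻¹' (F i : Set (Q δ G))) := hinj.mono inter_subset_left
    refine Finite.of_finite_image (Finite.subset (Finset.finite_toSet (F i)) ?_) hinj'
    rintro _ ⟨j, ⟨-, hj⟩, rfl⟩
    exact hj
  · rw [not_nonempty_iff_eq_empty] at hne
    rw [hne]
    exact finite_empty

/-- A family of pairs of points isolated by neighbourhoods with common finite supports is finite. -/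
theorem finite_double (hG : ∀ ξ < δ, ∀ η < ξ, ∀ᶠ n in atTop, G η n < G ξ n)
    {ι : Type*} (p q : ι → Q δ G) (s s' : Finset (Σ n, L n)) (t t' : ι → Finset Ordinal.{0})
    (F F' : ι → Finset (Q δ G)) (β : Ordinal.{0}) :
    ∀ C : Set ι, (∀ i ∈ C, rk (q i) < β) →
    (∀ i ∈ C, p i ∈ Nb s (t i) (F i) ∧ q i ∈ Nb s' (t' i) (F' i)) →
    (∀ i ∈ C, ∀ j ∈ C, p j ∈ Nb s (t i) (F i) → q j ∈ Nb s' (t' i) (F' i) → j = i) →
    C.Finite := by
  classical
  induction β using WellFoundedLT.induction with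
  | ind β ih =>
  intro C hβ h1 h2
  by_cases hne : C.Nonempty
  · obtain ⟨i, hi, hmin⟩ := exists_min C (fun i => rk (p i)) hne
    have hline1 : ∀ f : Q δ G, (C ∩ p ⁻¹' {f}).Finite := by
      intro f
      refine finite_single hG _ q s' t' F' (fun j hj => (h1 j hj.1).2) ?_
      intro a ha b hb hab
      refine h2 a ha.1 b hb.1 ?_ hab
      have e1 : p b = p a := hb.2.trans ha.2.symm
      rw [e1]
      exact (h1 a ha.1).1
    have hline2 : ∀ f : Q δ G, (C ∩ q ⁻¹' {f}).Finite := by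
      intro f
      refine finite_single hG _ p s t F (fun j hj => (h1 j hj.1).1) ?_
      intro a ha b hb hab
      refine h2 a ha.1 b hb.1 hab ?_
      have e1 : q b = q a := hb.2.trans ha.2.symm
      rw [e1]
      exact (h1 a ha.1).2
    have hlow : (C ∩ {j | rk (q j) < rk (q i)}).Finite :=
      ih (rk (q i)) (hβ i hi) _ (fun j hj => hj.2) (fun j hj => h1 j hj.1)
        (fun a ha b hb => h2 a ha.1 b hb.1)
    have hsub : C ⊆ (C ∩ {j | rk (q j) < rk (q i)}) ∪ ({i} ∪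
        ((⋃ f ∈ (F i : Set (Q δ G)), C ∩ p ⁻¹' {f}) ∪
          (⋃ f ∈ (F' i : Set (Q δ G)), C ∩ q ⁻¹' {f}))) := by
      intro j hj
      by_cases hr : rk (q j) < rk (q i)
      · exact Or.inl ⟨hj, hr⟩
      · rw [not_lt] at hr
        by_cases hF : p j ∈ F i
        · exact Or.inr (Or.inr (Or.inl (mem_iUnion₂.2 ⟨p j, hF, hj, rfl⟩)))
        · by_cases hF' : q j ∈ F' i
          · exact Or.inr (Or.inr (Or.inr (mem_iUnion₂.2 ⟨q j, hF', hj, rfl⟩)))
          · refine Or.inr (Or.inl ?_)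
            exact h2 i hi j hj ⟨(h1 j hj).1.1, inW_mono hG (h1 i hi).1.2.1 (hmin j hj), hF⟩
              ⟨(h1 j hj).2.1, inW_mono hG (h1 i hi).2.2.1 hr, hF'⟩
    refine Finite.subset (hlow.union ((finite_singleton i).union (Finite.union ?_ ?_))) hsub
    · exact (Finset.finite_toSet (F i)).biUnion fun f _ => hline1 f
    · exact (Finset.finite_toSet (F' i)).biUnion fun f _ => hline2 f
  · rw [not_nonempty_iff_eq_empty] at hne
    rw [hne]
    exact finite_empty

theorem bounded_of_discrete (hL : Big L)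
    (hG : ∀ ξ < δ, ∀ η < ξ, ∀ᶠ n in atTop, G η n < G ξ n)
    (hU : ∀ h : ∀ n, L n, ∃ ξ < δ, ∃ᶠ n in atTop, h n ≤ G ξ n)
    (D : Set (Q δ G × Q δ G)) (hD : DiscreteTopology D) :
    ∃ ξ < δ, ∀ z ∈ D, Lo G ξ z.1.1.1 ∧ Lo G ξ z.2.1.1 := by
  classical
  have hne : ∀ n, Nonempty (L n) := fun n => ⟨(hL n ∅ (Or.inl (by simp))).choose⟩
  have h1 : ∀ d : D, ∃ (s : Finset (Σ n, L n)) (t : Finset Ordinal.{0}) (F : Finset (Q δ G))
      (s' : Finset (Σ n, L n)) (t' : Finset Ordinal.{0}) (F' : Finset (Q δ G)),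
      d.1.1 ∈ Nb s t F ∧ d.1.2 ∈ Nb s' t' F' ∧
      ∀ z : D, z.1.1 ∈ Nb s t F → z.1.2 ∈ Nb s' t' F' → z = d := by
    intro d
    have h2 : IsOpen ({d} : Set D) := isOpen_discrete _
    obtain ⟨U, hU1, hU2⟩ := isOpen_induced_iff.1 h2
    have h3 : d.1 ∈ U := by
      have : d ∈ (Subtype.val ⁻¹' U : Set D) := by rw [hU2]; rfl
      exact this
    obtain ⟨s, t, F, s', t', F', h4, h5, h6⟩ := prod_basic hU1 h3
    refine ⟨s, t, F, s', t', F', h4, h5, fun z hz hz' => ?_⟩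
    have h7 : z ∈ (Subtype.val ⁻¹' U : Set D) := h6 z.1 hz hz'
    rw [hU2] at h7
    exact h7
  choose s t F s' t' F' hp hq hiso using h1
  -- every class is finite
  let c : D → Finset (Σ n, L n) × Finset (Σ n, L n) := fun d => (s d, s' d)
  have hfin : ∀ b, (c ⁻¹' {b}).Finite := by
    rintro ⟨b1, b2⟩
    have e1 : ∀ d ∈ c ⁻¹' {(b1, b2)}, s d = b1 := fun d hd => congrArg Prod.fst hd
    have e2 : ∀ d ∈ c ⁻¹' {(b1, b2)}, s' d = b2 := fun d hd => congrArg Prod.snd hd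
    refine finite_double hG (fun d : D => d.1.1) (fun d : D => d.1.2) b1 b2 t t' F F' δ _
      (fun d _ => (rk_spec _).1) ?_ ?_
    · intro d hd
      have := hp d
      have h' := hq d
      rw [e1 d hd] at this
      rw [e2 d hd] at h'
      exact ⟨this, h'⟩
    · intro a ha b hb h4 h5
      refine hiso a b ?_ ?_
      · rw [e1 a ha]; exact h4
      · rw [e2 a ha]; exact h5
  -- cardinality
  have hinf : Infinite (Σ n, L n) := by
    have hmax : NoMaxOrder (L 0) := ⟨fun a => by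
      obtain ⟨b, hb⟩ := hL 0 {a} (Or.inl (by
        rw [mk_singleton]
        exact one_lt_aleph0.le.trans aleph0_le_continuum))
      exact ⟨b, hb a rfl⟩⟩
    have := hne 0
    have : Infinite (L 0) := NoMaxOrder.infinite
    exact Infinite.of_injective (fun a : L 0 => (⟨0, a⟩ : Σ n, L n)) sigma_mk_injective
  have hSm : Sm L D := by
    have hcard : #D ≤ #(Σ n, L n) := by
      have h2 : #D ≤ #(Finset (Σ n, L n) × Finset (Σ n, L n)) * ℵ₀ := by
        refine mk_le_mk_mul_of_mk_preimage_le c fun b => ?_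
        exact (hfin b).lt_aleph0.le
      refine h2.trans ?_
      rw [mk_prod, lift_id, mk_finset_of_infinite]
      rw [mul_eq_self (aleph0_le_mk _)]
      exact (mul_le_mul_right (aleph0_le_mk _) _).trans (mul_eq_self (aleph0_le_mk _)).le
    obtain ⟨e⟩ := hcard
    exact sm_of_inj hL e e.injective
  obtain ⟨ρ1, hρ1, h1⟩ := small_bdd hG hU hSm (fun d : D => rk d.1.1) (fun d => (rk_spec _).1)
  obtain ⟨ρ2, hρ2, h2⟩ := small_bdd hG hU hSm (fun d : D => rk d.1.2) (fun d => (rk_spec _).1)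
  refine ⟨max ρ1 ρ2, max_lt hρ1 hρ2, fun z hz => ⟨?_, ?_⟩⟩
  · exact Lo.mono hG ((h1 ⟨z, hz⟩).trans (le_max_left _ _)) (max_lt hρ1 hρ2) (rk_spec _).2
  · exact Lo.mono hG ((h2 ⟨z, hz⟩).trans (le_max_right _ _)) (max_lt hρ1 hρ2) (rk_spec _).2

theorem exists_codiagonal : ∃ (X : Type) (_ : TopologicalSpace X), T1Space X ∧
    (∀ D : Set {z : X × X // z.1 ≠ z.2}, DiscreteTopology D → IsLindelof (closure D)) ∧
    ¬ IsLindelof (univ : Set X) := by
  classical
  obtain ⟨L, i1, i2, hL⟩ := exists_L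
  obtain ⟨δ, G, hG, hU⟩ := exists_G hL
  refine ⟨Q δ G, inferInstance, inferInstance, ?_, ?_⟩
  · intro D hD
    have hD' : DiscreteTopology (Subtype.val '' D : Set (Q δ G × Q δ G)) := by
      have h1 : IsEmbedding (fun d : D => ((d.1).1 : Q δ G × Q δ G)) :=
        IsEmbedding.subtypeVal.comp IsEmbedding.subtypeVal
      have h2 : range (fun d : D => ((d.1).1 : Q δ G × Q δ G)) = Subtype.val '' D := by
        ext z
        constructor
        · rintro ⟨d, rfl⟩
          exact ⟨d.1, d.2, rfl⟩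
        · rintro ⟨d, hd, rfl⟩
          exact ⟨⟨d, hd⟩, rfl⟩
      rw [← h2]
      exact (h1.toHomeomorph.symm.isEmbedding).discreteTopology
    obtain ⟨ξ, hξ, hb⟩ := bounded_of_discrete hL hG hU _ hD'
    have hK : IsLindelof {z : {z : Q δ G × Q δ G // z.1 ≠ z.2} | Lo G ξ z.1.1.1.1 ∧
        Lo G ξ z.1.2.1.1} := by
      rw [Subtype.isLindelof_iff]
      have h3 : (Subtype.val '' {z : {z : Q δ G × Q δ G // z.1 ≠ z.2} | Lo G ξ z.1.1.1.1 ∧
        Lo G ξ z.1.2.1.1} : Set (Q δ G × Q δ G)) = Sq G δ ξ ξ := by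
        ext z
        constructor
        · rintro ⟨d, hd, rfl⟩
          exact ⟨hd.1, hd.2, d.2⟩
        · rintro ⟨h4, h5, h6⟩
          exact ⟨⟨z, h6⟩, ⟨h4, h5⟩, rfl⟩
      rw [h3]
      exact isLindelof_Sq hG hξ
    refine hK.of_isClosed_subset isClosed_closure (closure_minimal ?_ ?_)
    · intro z hz
      exact hb z.1 ⟨z, hz, rfl⟩
    · have h4 : IsClosed {p : Q δ G | Lo G ξ p.1.1} := isClosed_Lo hξ
      have h5 : Continuous fun z : {z : Q δ G × Q δ G // z.1 ≠ z.2} => z.1.1 := by fun_prop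
      have h6 : Continuous fun z : {z : Q δ G × Q δ G // z.1 ≠ z.2} => z.1.2 := by fun_prop
      exact (h4.preimage h5).inter (h4.preimage h6)
  · intro hLin
    obtain ⟨r, hr1, hr2⟩ := hLin.elim_countable_subcover
      (fun a : (Σ n, L n) => {p : Q δ G | p.1.1 a.1 < (a.2 : WithTop (L a.1))})
      (fun a => isOpen_U a.1 a.2) (by
        intro p _
        obtain ⟨ξ, hξ, hlo⟩ := p.1.2
        obtain ⟨n, hn⟩ := hlo.exists
        obtain ⟨b, hb⟩ := hL n {G ξ n} (Or.inl (by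
          rw [mk_singleton]
          exact one_lt_aleph0.le.trans aleph0_le_continuum))
        exact mem_iUnion.2 ⟨⟨n, b⟩, hn.trans_lt (WithTop.coe_lt_coe.2 (hb _ rfl))⟩)
    have h1 : ∀ n, ∃ b : L n, ∀ a : L n, (⟨n, a⟩ : Σ n, L n) ∈ r → a < b := by
      intro n
      have hcount : ((Sigma.mk n) ⁻¹' r : Set (L n)).Countable :=
        hr1.preimage sigma_mk_injective
      exact hL n _ (Or.inl (hcount.le_aleph0.trans aleph0_le_continuum))
    choose h hh using h1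
    obtain ⟨ξ, hξ, hf⟩ := hU h
    let A : Set ℕ := {n | h n ≤ G ξ n}
    have hA : A.Infinite := Nat.frequently_atTop_iff_infinite.1 hf
    obtain ⟨a, ha, hq⟩ := mem_iUnion₂.1 (hr2 (mem_univ (tp G ξ hξ A hA true)))
    have h3 : xA G ξ A a.1 < (a.2 : WithTop (L a.1)) := hq
    have h4 : a.2 < h a.1 := hh _ _ ha
    have h5 : (h a.1 : WithTop (L a.1)) ≤ xA G ξ A a.1 := by
      by_cases hn : a.1 ∈ A
      · simp only [xA, hn, if_true]
        exact WithTop.coe_le_coe.2 hn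
      · simp [xA, hn]
    exact absurd (h5.trans_lt (h3.trans (WithTop.coe_lt_coe.2 h4))) (lt_irrefl _)

end Pool.Agent.H266CD
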