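import Pool.Agent.H242R3.ES.Full
import Pool.Agent.H841.ES.K8a
import Pool.Agent.H266K8b

set_option autoImplicit false
open scoped Classical
open Pool.Agent.H242R3.ES Pool.Agent.H242R3.ES.Full Pool.Agent.H454R3.ES

namespace Pool.Agent.H266MU

theorem hTR1 : TR1 := Pool.Agent.H666R3.ES.t Pool.Agent.H780R3.ES.t

theorem hTR2 : TR2 := Pool.Agent.H115R3.ES.TR2.t Pool.Agent.H780R3.ES.t hTR1 genV

theorem hMain : ∀ D, 3 ≤ D → MainG D :=
  main_of Pool.Agent.H603R3.ESG1.t Pool.Agent.H856R3.ESG2.t Pool.Agent.H242R3.ES.G3H78.t g5 g7 genV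
      Pool.Agent.H146R3.ES.P1G.t p7 (main3 Pool.Agent.H841.ESK8a.t Pool.Agent.H266K8b.t) stepV
      Pool.Agent.H318R3.ES.projV
      Pool.Agent.H780R3.ES.N14.t Pool.Agent.H885R3.ESN15.taskN15 Pool.Agent.H722R5.ES.N16.t

theorem strong (d : ℕ) (hd : 2 ≤ d) (V W : Finset (Fin (d + 1) → ℝ))
    (hV : (interior (convexHull ℝ (V : Set (Fin (d + 1) → ℝ)))).Nonempty)
    (hW : (interior (convexHull ℝ (W : Set (Fin (d + 1) → ℝ)))).Nonempty)
    (hTV : Tang V) (hTW : Tang W) (f : (Fin (d + 1) → ℝ) → (Fin (d + 1) → ℝ))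
    (hbij : Set.BijOn f (EP V) (EP W))
    (hf : ∀ S ⊆ EP V, (IsExposed ℝ (convexHull ℝ (V : Set (Fin (d + 1) → ℝ))) (convexHull ℝ S) ↔
      IsExposed ℝ (convexHull ℝ (W : Set (Fin (d + 1) → ℝ))) (convexHull ℝ (f '' S)))) :
    ∃ T : LV (d + 1) →ₗ[ℝ] LV (d + 1), (∀ x y, B (T x) (T y) = B x y) ∧
      ∀ a ∈ EP V, ∃ c : ℝ, 0 < c ∧ T (hom a) = c • hom (f a) := by
  have hF1 : TaskF1 := Pool.Agent.H780R3.ES.t
  have hfin : Finite (EP V) := (hTR1 (d + 1) (by omega) V hV).1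
  have : Fintype (EP V) := Fintype.ofFinite _
  obtain ⟨v1, -⟩ := hTR2 (d + 1) (by omega) V hV hTV
  obtain ⟨w1, -⟩ := hTR2 (d + 1) (by omega) W hW hTW
  let e : EP V ≃ EP W := hbij.equiv f
  have he : ∀ i : EP V, ((e i : EP W) : Fin (d + 1) → ℝ) = f i := fun i => rfl
  have hfaces : ∀ S, Face (nv (Equiv.refl (EP V))) S ↔ Face (nv e) S := by
    intro S
    rcases S.eq_empty_or_nonempty with rfl | hS
    · exact ⟨fun _ => face_empty w1 e, fun _ => face_empty v1 _⟩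
    · rw [face_nv v1, face_nv w1]
      have hT : (Subtype.val '' S : Set (Fin (d + 1) → ℝ)) ⊆ EP V := by
        rintro _ ⟨i, -, rfl⟩
        exact i.2
      have hTn : (Subtype.val '' S : Set (Fin (d + 1) → ℝ)).Nonempty := hS.image _
      have h1 := hF1 (d + 1) V _ hT hTn
      have hfT : f '' (Subtype.val '' S) ⊆ EP W := by
        rintro _ ⟨_, ⟨i, -, rfl⟩, rfl⟩
        exact hbij.mapsTo i.2
      have h2 := hF1 (d + 1) W _ hfT (hTn.image f)
      have h3 := hf _ hT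
      have e1 : (Equiv.refl (EP V)) '' S = {i : EP V | (i : Fin (d + 1) → ℝ) ∈ Subtype.val '' S} := by
        ext i
        constructor
        · rintro ⟨j, hj, rfl⟩
          exact ⟨j, hj, rfl⟩
        · rintro ⟨j, hj, hij⟩
          exact ⟨j, hj, Subtype.ext hij⟩
      have e2 : e '' S = {i : EP W | (i : Fin (d + 1) → ℝ) ∈ f '' (Subtype.val '' S)} := by
        ext i
        constructor
        · rintro ⟨j, hj, rfl⟩
          exact ⟨j, ⟨j, hj, rfl⟩, rfl⟩
        · rintro ⟨_, ⟨j, hj, rfl⟩, hij⟩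
          exact ⟨j, hj, Subtype.ext hij⟩
      rw [e1, e2, ← h1, ← h2]
      exact h3
  obtain ⟨T, hT1, hT2⟩ := hMain (d + 1) (by omega) (EP V) (nv (Equiv.refl (EP V))) (nv e)
    (gq (by omega) hV hTV hTR1 hTR2 _) (gq (by omega) hW hTW hTR1 hTR2 _) hfaces
  refine ⟨T, hT1, fun a ha => ?_⟩
  have h1 := hT2 ⟨a, ha⟩
  have hva := nrm_pos (v1 a ha)
  have hwa := nrm_pos (w1 (f a) (hbij.mapsTo ha))
  refine ⟨nrm a * (nrm (f a))⁻¹, mul_pos hva (inv_pos.2 hwa), ?_⟩
  have h2 : T ((nrm a)⁻¹ • hom a) = (nrm (f a))⁻¹ • hom (f a) := h1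
  rw [map_smul] at h2
  have h3 : T (hom a) = nrm a • ((nrm a)⁻¹ • T (hom a)) := by
    rw [smul_smul, mul_inv_cancel₀ hva.ne', one_smul]
  rw [h3, h2, smul_smul]

/-- a full-dimensional polytope has an edge -/
theorem exists_edge (D : ℕ) (hD : 2 ≤ D) (V : Finset (Fin D → ℝ))
    (hV : (interior (convexHull ℝ (V : Set (Fin D → ℝ)))).Nonempty) :
    ∃ a ∈ EP V, ∃ b ∈ EP V, a ≠ b ∧
      IsExposed ℝ (convexHull ℝ (V : Set (Fin D → ℝ))) (segment ℝ a b) := by
  obtain ⟨hfin, hv, hs⟩ := hTR1 D hD V hV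
  have : Fintype (EP V) := Fintype.ofFinite _
  have hne : Nonempty (EP V) := by
    by_contra h
    rw [not_nonempty_iff] at h
    have h1 : Set.range (fun i : EP V => hom (i : Fin D → ℝ)) = ∅ := Set.range_eq_empty _
    rw [h1, Submodule.span_empty] at hs
    have h2 : (fun _ => 1 : LV D) ∈ (⊥ : Submodule ℝ (LV D)) := by rw [hs]; trivial
    rw [Submodule.mem_bot] at h2
    have := congrFun h2 none
    simp at this
  obtain ⟨v⟩ := hne
  by_contra hcon
  push Not at hcon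
  have key : ∀ i : EP V, ∃ y : ℝ, hom (i : Fin D → ℝ) = y • hom (v : Fin D → ℝ) := by
    intro i
    obtain ⟨y, a, -, ha, hi⟩ := genV (EP V) (LV D) (fun i : EP V => hom (i : Fin D → ℝ)) hv v Set.univ
      ⟨0, fun _ => by simp, fun _ => by simp⟩ (Set.mem_univ _) i (Set.mem_univ _)
    refine ⟨y, ?_⟩
    have h0 : ∀ k, a k = 0 := by
      intro k
      by_contra hk
      obtain ⟨-, hkv, hF⟩ := ha k hk
      have h1 := Pool.Agent.H780R3.ES.t D V ({(v : Fin D → ℝ), (k : Fin D → ℝ)} : Set (Fin D → ℝ))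
        (by
          rintro x (rfl | rfl)
          · exact v.2
          · exact k.2) ⟨_, Or.inl rfl⟩
      have h2 : {i : EP V | (i : Fin D → ℝ) ∈ ({(v : Fin D → ℝ), (k : Fin D → ℝ)} : Set (Fin D → ℝ))}
          = {v, k} := by
        ext i
        simp only [Set.mem_setOf_eq, Set.mem_insert_iff, Set.mem_singleton_iff]
        rw [Subtype.ext_iff, Subtype.ext_iff]
      rw [h2] at h1
      have h3 := h1.2 hF
      rw [convexHull_pair] at h3
      exact hcon v v.2 k k.2 (fun h => hkv (Subtype.ext h.symm)) h3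
    rw [hi]
    simp [h0]
  have h1 : (⊤ : Submodule ℝ (LV D)) ≤ Submodule.span ℝ {hom (v : Fin D → ℝ)} := by
    rw [← hs, Submodule.span_le]
    rintro _ ⟨i, rfl⟩
    obtain ⟨y, hy⟩ := key i
    show hom (i : Fin D → ℝ) ∈ _
    rw [hy]
    exact Submodule.smul_mem _ _ (Submodule.mem_span_singleton_self _)
  have h2 := Submodule.finrank_mono h1
  have h3 : Module.finrank ℝ (Submodule.span ℝ {hom (v : Fin D → ℝ)}) ≤ 1 := by
    refine (finrank_span_le_card (R := ℝ) ({hom (v : Fin D → ℝ)} : Set (LV D))).trans ?_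
    simp
  rw [finrank_top] at h2
  have h4 : Module.finrank ℝ (LV D) = D + 1 := by simp [LV]
  omega

end Pool.Agent.H266MU
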