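import Pool.Statements.S00249
import Pool.Agent.H737R3.Points

set_option autoImplicit false
open Pool Pool.MP_70675a_ag

namespace Pool.Agent.S00249

/-- Over an algebraically closed field of char 0, for n≥1, any nonempty finite set W of points in P^n and r≥1, every nonzero degree-d form vanishing to order rn at all points of W has d ≥ r·α(W) + r(n−1). -/
theorem result :
    ∀ (k : Type) [Field k] [IsAlgClosed k] [CharZero k] (n : ℕ), 1 ≤ n →
    ∀ (W : Finset (Projectivization k (Fin (n+1) → k))), W.Nonempty →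
    ∀ (r : ℕ), 1 ≤ r →
    ∀ (d : ℕ) (f : MvPolynomial (Fin (n+1)) k), f ≠ 0 → f.IsHomogeneous d →
      (∀ P ∈ W, f ∈ (Ideal.span {g : MvPolynomial (Fin (n+1)) k |
          g.IsHomogeneous 1 ∧ MvPolynomial.eval P.rep g = 0}) ^ (r * n)) →
      ∃ (e : ℕ) (g : MvPolynomial (Fin (n+1)) k), g ≠ 0 ∧ g.IsHomogeneous e ∧
        (∀ P ∈ W, g ∈ Ideal.span {h : MvPolynomial (Fin (n+1)) k |
          h.IsHomogeneous 1 ∧ MvPolynomial.eval P.rep h = 0}) ∧
        r * e + r * (n - 1) ≤ d := by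
  intro k _ _ _ n hn W hW r hr d f hf0 hf hfW
  obtain ⟨q, hq⟩ := hW
  have key := Pool.Agent.H737R3.demailly_w hn W (fun _ => 1) ⟨q, hq, le_refl _⟩ 1 (r * n) le_rfl
  obtain ⟨g, hg, hg0, hgh⟩ := Pool.Agent.H737R3.alpha_wIdeal_spec hn W (fun _ => 1 * 1)
  have hfm : f ∈ Pool.Agent.H737R3.wIdeal W (fun _ => r * n * 1) := by
    rw [Pool.Agent.H737R3.mem_wIdeal]
    intro P hP
    rw [Pool.Agent.H737R3.ptIdeal_eq, mul_one]
    exact hfW P hP
  have hle := Pool.Agent.H737R3.alpha_wIdeal_le hfm hf0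
  rw [hf.totalDegree hf0] at hle
  refine ⟨_, g, hg0, hgh, ?_, ?_⟩
  · intro P hP
    rw [Pool.Agent.H737R3.mem_wIdeal] at hg
    have := hg P hP
    rw [Pool.Agent.H737R3.ptIdeal_eq, mul_one, pow_one] at this
    exact this
  · set α := Pool.Agent.H737R3.alpha (Pool.Agent.H737R3.wIdeal W (fun _ => 1 * 1)) with hα
    obtain ⟨N, rfl⟩ : ∃ N, n = N + 1 := ⟨n - 1, by omega⟩
    have h1 : r * (N + 1) * (α + (N + 1) - 1) ≤ d * (1 + (N + 1) - 1) :=
      le_trans key (Nat.mul_le_mul_right _ hle)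
    have h2 : α + (N + 1) - 1 = α + N := by omega
    have h3 : 1 + (N + 1) - 1 = N + 1 := by omega
    rw [h2, h3] at h1
    have h4 : (N + 1) * (r * (α + N)) ≤ (N + 1) * d := by
      calc (N + 1) * (r * (α + N)) = r * (N + 1) * (α + N) := by ring
        _ ≤ d * (N + 1) := h1
        _ = (N + 1) * d := by ring
    have h5 := Nat.le_of_mul_le_mul_left h4 (Nat.succ_pos N)
    rw [Nat.add_sub_cancel]
    calc r * α + r * N = r * (α + N) := by ring
      _ ≤ d := h5

end Pool.Agent.S00249
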