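import Pool.Statements.S00329
import Pool.Agent.Q22.GO.FIN
import Pool.Agent.Q22.GO.CH
import Pool.Agent.Q22.GO.BALL
import Pool.Agent.Q22.GO.CONN
import Pool.Agent.Q22.GO.THIN
import Pool.Agent.Q22.GO.LOGX
import Pool.Agent.Q22.GO.GEN
import Pool.Agent.Q22.GO.PRIME
import Pool.Agent.Q22.GO.ALG1
import Pool.Agent.Q22.GO.ALG2
import Pool.Agent.Q22.GO.COV
import Pool.Agent.Q22.GO.RS1
import Pool.Agent.Q22.GO.RS2
import Pool.Agent.Q22.GO.RO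
import Pool.Agent.Q22.GO.RC
import Pool.Agent.Q22.GO.RR
import Pool.Agent.Q22.GO.CMY
import Pool.Agent.Q22.GO.CMW
import Pool.Agent.Q22.GO.LCY
import Pool.Agent.Q22.GO.LOGL
import Pool.Agent.Q22.GO.SHEET
import Pool.Agent.Q22.GO.EL
import Pool.Agent.Q22.GO.CVX
import Pool.Agent.Q22.GO.GC
import Pool.Agent.Q22.GO.FRL
import Pool.Agent.Q22.GO.FR
import Pool.Agent.Q22.GO.FRH
import Pool.Agent.Q22.GO.TUG
import Pool.Agent.Q22.GO.TUP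
import Pool.Agent.Q22.GO.ORD
import Pool.Agent.Q22.GO.BDD
import Pool.Agent.Q22.GO.LIOU
import Pool.Agent.Q22.GO.LOGC
import Pool.Agent.Q22.GO.BAS
import Pool.Agent.Q22.GO.BF
import Pool.Agent.Q22.GO.END
import Pool.Agent.Q22.GO.RAT
import Pool.Agent.Q22.GO.IDL
import Pool.Agent.Q22.GO.ND
import Pool.Agent.Q22.GO.EP
import Pool.Agent.Q22.GO.BZ1
import Pool.Agent.Q22.GO.BZ
import Pool.Agent.Q22.GO.UNIT

set_option autoImplicit false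
open Pool Pool.MP_9bd952_ag

namespace Pool.Agent.S00329

section
open Pool.Agent.Q22.GO

theorem thin : S_THIN := t_THIN t_BALL t_CONN
theorem rr : S_RR := t_RR t_BALL t_CONN t_RO t_RC
theorem cov : S_COV := t_COV (t_PRIME thin) t_ALG1 t_ALG2
theorem sheet : S_SHEET := t_SHEET t_CMY
theorem fr : S_FR := t_FR cov t_RS1 t_RS2 thin (t_FRL t_CVX t_GC sheet) (t_LOGL rr t_CMW)
  (t_LOGX t_BALL thin)
theorem bf : S_BF := t_BF t_BAS t_TUP (t_LOGC t_BDD t_LIOU)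
theorem nd : S_ND := t_ND t_ORD t_IDL t_END t_RAT t_TUP t_BDD t_LIOU
theorem unit : S_UNIT := t_UNIT cov t_RS1 t_RS2 (t_GEN thin) thin (t_LCY rr t_CMY) (t_EL sheet)
  t_TUG t_TUP bf nd t_EP (t_BZ t_BZ1)

end

/-- For every connected smooth closed algebraic submanifold X of some C^n there is B such that every such Y homeomorphic to X has at most B non-constant holomorphic maps into C minus {0,1}. -/
theorem result :
  ∀ (n : ℕ) (X : Set (Fin n → ℂ)),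
    (∃ S : Set (MvPolynomial (Fin n) ℂ), X = {x | ∀ P ∈ S, MvPolynomial.eval x P = 0}) →
    (∀ p ∈ X, ∃ U : Set (Fin n → ℂ), IsOpen U ∧ p ∈ U ∧
      ∃ (k : ℕ) (F : (Fin n → ℂ) → (Fin k → ℂ)), DifferentiableOn ℂ F U ∧
        (∀ x ∈ U, Function.Surjective ⇑(fderiv ℂ F x)) ∧ X ∩ U = U ∩ F ⁻¹' {0}) →
    IsConnected X →
    ∃ B : ℕ, ∀ (m : ℕ) (Y : Set (Fin m → ℂ)),
      (∃ S : Set (MvPolynomial (Fin m) ℂ), Y = {y | ∀ P ∈ S, MvPolynomial.eval y P = 0}) →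
      (∀ p ∈ Y, ∃ U : Set (Fin m → ℂ), IsOpen U ∧ p ∈ U ∧
        ∃ (k : ℕ) (F : (Fin m → ℂ) → (Fin k → ℂ)), DifferentiableOn ℂ F U ∧
          (∀ x ∈ U, Function.Surjective ⇑(fderiv ℂ F x)) ∧ Y ∩ U = U ∩ F ⁻¹' {0}) →
      IsConnected Y →
      Nonempty (↥X ≃ₜ ↥Y) →
      {g : ↥Y → ℂ | (∀ y, g y ≠ 0 ∧ g y ≠ 1) ∧ (∃ a b, g a ≠ g b) ∧
        ∀ p : ↥Y, ∃ U : Set (Fin m → ℂ), IsOpen U ∧ (p : Fin m → ℂ) ∈ U ∧
          ∃ h : (Fin m → ℂ) → ℂ, DifferentiableOn ℂ h U ∧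
            ∀ y : ↥Y, (y : Fin m → ℂ) ∈ U → h y = g y}.encard ≤ (B : ℕ∞) := by
  exact Pool.Agent.Q22.GO.t_FIN Pool.Agent.Q22.GO.t_CH fr Pool.Agent.Q22.GO.t_FRH unit

end Pool.Agent.S00329
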