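import Pool.Statements.S00348
import Pool.Agent.Q49.PN.Fill2

set_option autoImplicit false
open Pool Pool.MP_a30cf1_ag

namespace Pool.Agent.S00348

open Q49.PN in
/-- a network with smaller widths fills only if the larger one does -/
theorem fill_mono {d d' : Fin (7 + 1) → ℕ} (h : d' ≤ d) (h0 : d' 0 = d 0)
    (h7 : d' (Fin.last 7) = d (Fin.last 7)) (hF : Fill d') : Fill d := by
  intro P hP c hc
  refine hF P (fun W => ?_) c (fun p hp => by rw [h0, h7]; exact hc p hp)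
  have h1 := hP fun k a b => if b < d' k.castSucc then W k a b else 0
  convert h1 using 4 with p
  have key : ∀ (l : List (Fin 7)) (x : ℕ → MvPolynomial ℕ ℂ),
      l.foldl (fun (h : ℕ → MvPolynomial ℕ ℂ) (k : Fin 7) (a : ℕ) =>
        ∑ b ∈ Finset.range (d' k.castSucc),
          MvPolynomial.C (W k a b) * h b ^ (if (k : ℕ) = 0 then 1 else 2)) x =
      l.foldl (fun (h : ℕ → MvPolynomial ℕ ℂ) (k : Fin 7) (a : ℕ) =>
        ∑ b ∈ Finset.range (d k.castSucc),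
          MvPolynomial.C (if b < d' k.castSucc then W k a b else 0) *
            h b ^ (if (k : ℕ) = 0 then 1 else 2)) x := by
    intro l
    induction l with
    | nil => intro x; rfl
    | cons k l ih =>
      intro x
      rw [List.foldl_cons, List.foldl_cons, ih]
      congr 1
      funext a
      have hsub : Finset.range (d' k.castSucc) ⊆ Finset.range (d k.castSucc) :=
        Finset.range_subset_range.2 (h _)
      rw [← Finset.sum_subset hsub]
      · refine Finset.sum_congr rfl fun b hb => ?_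
        rw [if_pos (Finset.mem_range.1 hb)]
      · intro b _ hb
        rw [if_neg (fun hlt => hb (Finset.mem_range.2 hlt)), map_zero, zero_mul]
  exact congrArg (MvPolynomial.coeff p.2) (congrFun (key _ _) p.1)

open Q49.PN in
theorem minimal (d' : Fin (7 + 1) → ℕ) (h0 : d' 0 = dd 0) (h7 : d' (Fin.last 7) = dd (Fin.last 7))
    (hle : d' ≤ dd) (hF : Fill d') : d' = dd := by
  have e0 : d' 0 = 2 := h0
  have e7 : d' 7 = 1 := h7
  have l1 : d' 1 ≤ 3 := hle 1
  have l2 : d' 2 ≤ 4 := hle 2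
  have l3 : d' 3 ≤ 5 := hle 3
  have l4 : d' 4 ≤ 4 := hle 4
  have l5 : d' 5 ≤ 6 := hle 5
  have l6 : d' 6 ≤ 4 := hle 6
  have step : ∀ u : Fin (7 + 1) → ℕ, ¬ Fill u → u 0 = 2 → u 7 = 1 → ¬ d' ≤ u := by
    intro u hu hu0 hu7 hdu
    exact hu (fill_mono hdu (by rw [e0, hu0]) (e7.trans hu7.symm) hF)
  have hall : ∀ u : Fin (7 + 1) → ℕ, (d' 0 ≤ u 0 ∧ d' 1 ≤ u 1 ∧ d' 2 ≤ u 2 ∧ d' 3 ≤ u 3 ∧
      d' 4 ≤ u 4 ∧ d' 5 ≤ u 5 ∧ d' 6 ≤ u 6 ∧ d' 7 ≤ u 7) → d' ≤ u := by
    rintro u ⟨a0, a1, a2, a3, a4, a5, a6, a7⟩ i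
    fin_cases i <;> assumption
  have s1 := step _ nf1 rfl rfl
  have s2 := step _ nf2 rfl rfl
  have s3 := step _ nf3 rfl rfl
  have s4 := step _ nf4 rfl rfl
  have s5 := step _ nf5 rfl rfl
  have s6 := step _ nf6 rfl rfl
  have t1 : d' 1 = 3 := by
    by_contra hne
    have : d' 1 ≤ 2 := by omega
    exact s1 (hall _ ⟨e0.le, this, l2, l3, l4, l5, l6, e7.le⟩)
  have t2 : d' 2 = 4 := by
    by_contra hne
    have : d' 2 ≤ 3 := by omega
    exact s2 (hall _ ⟨e0.le, l1, this, l3, l4, l5, l6, e7.le⟩)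
  have t3 : d' 3 = 5 := by
    by_contra hne
    have : d' 3 ≤ 4 := by omega
    exact s3 (hall _ ⟨e0.le, l1, l2, this, l4, l5, l6, e7.le⟩)
  have t4 : d' 4 = 4 := by
    by_contra hne
    have : d' 4 ≤ 3 := by omega
    exact s4 (hall _ ⟨e0.le, l1, l2, l3, this, l5, l6, e7.le⟩)
  have t5 : d' 5 = 6 := by
    by_contra hne
    have : d' 5 ≤ 5 := by omega
    exact s5 (hall _ ⟨e0.le, l1, l2, l3, l4, this, l6, e7.le⟩)
  have t6 : d' 6 = 4 := by
    by_contra hne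
    have : d' 6 ≤ 3 := by omega
    exact s6 (hall _ ⟨e0.le, l1, l2, l3, l4, l5, this, e7.le⟩)
  funext i
  fin_cases i
  · exact e0
  · exact t1
  · exact t2
  · exact t3
  · exact t4
  · exact t5
  · exact t6
  · exact e7

/-- The negation of the preceding statement: For L ≥ 1 and r ≥ 2, any coordinatewise-minimal positive width vector (with d_0, d_L fixed) whose depth-L polynomial network with x^r activation has Zariski-dense output set in the ambient space is unimodal. -/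
theorem result :
    ¬ (∀ (L r : ℕ), 1 ≤ L → 2 ≤ r →
  ∀ Filling : (Fin (L+1) → ℕ) → Prop,
  (∀ e : Fin (L+1) → ℕ, Filling e ↔
    ∀ P : MvPolynomial (ℕ × (ℕ →₀ ℕ)) ℂ,
      (∀ W : Fin L → ℕ → ℕ → ℂ,
        MvPolynomial.eval (fun p : ℕ × (ℕ →₀ ℕ) => MvPolynomial.coeff p.2
          ((List.finRange L).foldl
            (fun (h : ℕ → MvPolynomial ℕ ℂ) (k : Fin L) (a : ℕ) =>
              ∑ b ∈ Finset.range (e k.castSucc),
                MvPolynomial.C (W k a b) * h b ^ (if (k : ℕ) = 0 then 1 else r))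
            (fun b : ℕ => (MvPolynomial.X b : MvPolynomial ℕ ℂ)) p.1)) P = 0) →
      ∀ c : ℕ × (ℕ →₀ ℕ) → ℂ,
        (∀ p : ℕ × (ℕ →₀ ℕ), c p ≠ 0 →
          p.1 < e (Fin.last L) ∧ (∑ b ∈ p.2.support, p.2 b) = r ^ (L - 1) ∧
            ∀ b ∈ p.2.support, b < e 0) →
        MvPolynomial.eval c P = 0) →
  ∀ d : Fin (L+1) → ℕ, (∀ i, 1 ≤ d i) → Filling d →
  (∀ d' : Fin (L+1) → ℕ, (∀ i, 1 ≤ d' i) → d' 0 = d 0 →
      d' (Fin.last L) = d (Fin.last L) → d' ≤ d → Filling d' → d' = d) →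
  ∃ i : Fin (L+1), (∀ j k : Fin (L+1), j ≤ k → k ≤ i → d j ≤ d k) ∧
    (∀ j k : Fin (L+1), i ≤ j → j ≤ k → d k ≤ d j)) := by
  intro h
  obtain ⟨i, h1, h2⟩ := h 7 2 (by norm_num) le_rfl Q49.PN.Fill (fun e => Iff.rfl) Q49.PN.dd
    (by intro i; fin_cases i <;> decide) Q49.PN.fill_dd
    (fun d' _ h0 h7 hle hF => minimal d' h0 h7 hle hF)
  by_cases hi : (4 : Fin 8) ≤ i
  · have h3 : (5 : ℕ) ≤ 4 := h1 3 4 (by decide) hi
    omega
  · have h3 : (6 : ℕ) ≤ 4 := h2 4 5 (le_of_not_ge hi) (by decide)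
    omega

end Pool.Agent.S00348
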