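import Pool.Statements.S00360
import Pool.Agent.Q37.Grade.Main

set_option autoImplicit false
open Pool Pool.MP_a907e8_ag

namespace Pool.Agent.S00360

/-- The negation of the preceding statement: For every Noetherian local ring A and nonzero finitely generated A-module M with a finite projective resolution, the maximal length of an A-regular sequence in ann M plus the Krull dimension of A/ann M equals the Krull dimension of A. -/
theorem result :
    ¬ (∀ (A : Type) [CommRing A] [IsLocalRing A] [IsNoetherianRing A]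
      (M : Type) [AddCommGroup M] [Module A M] [Module.Finite A M] [Nontrivial M],
      (∃ P : CategoryTheory.ProjectiveResolution (ModuleCat.of A M), ∃ n : ℕ,
          ∀ i : ℕ, n ≤ i → CategoryTheory.Limits.IsZero (P.complex.X i)) →
      ∀ g : ℕ,
        (∃ rs : List A, rs.length = g ∧ (∀ r ∈ rs, r ∈ Module.annihilator A M) ∧
            RingTheory.Sequence.IsWeaklyRegular A rs) →
        (¬ ∃ rs : List A, rs.length = g + 1 ∧ (∀ r ∈ rs, r ∈ Module.annihilator A M) ∧
            RingTheory.Sequence.IsWeaklyRegular A rs) →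
        (g : WithBot ℕ∞) + ringKrullDim (A ⧸ Module.annihilator A M) = ringKrullDim A) := by
  intro h
  obtain ⟨T, iT, iL, iN, iD, α, β, γ, hB⟩ := Pool.Agent.H291R3.PSB.taskBase
  obtain ⟨hα, hβ, hγ⟩ := H51R3.PS.mem_max hB
  have hloc : IsLocalRing (Pool.Agent.H607R3.PS.RR T α β γ) :=
    Pool.Agent.H607R3.PS.taskLoc T α β γ hα hβ hγ
  have hloc2 : IsLocalRing (Pool.Agent.H607R3.PS.RP T α β γ) := Pool.Agent.H607R3.PS.local_RP
  have hnt : Nontrivial (Pool.Agent.H607R3.PS.RP T α β γ ⧸ Pool.Agent.H607R3.PS.cP T α β γ) :=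
    Ideal.Quotient.nontrivial_iff.mpr (Pool.Agent.H607R3.PS.cP_ne_top hα hβ hγ)
  have hpair := Pool.Agent.H607R3.PS.weaklyRegular_pair
    (Pool.Agent.H607R3.PS.taskRegP T α β γ hB.reg)
  have h1 := h (Pool.Agent.H607R3.PS.RP T α β γ)
    (Pool.Agent.H607R3.PS.RP T α β γ ⧸ Pool.Agent.H607R3.PS.cP T α β γ)
    (Pool.Agent.H607R3.PS.finRes_RP Pool.Agent.H607R3.PS.taskRes
      Pool.Agent.H607R3.PS.taskRegP hγ hB.reg) 2
    ⟨_, rfl, by
      intro r hr
      rw [Ideal.annihilator_quotient]
      simp only [List.mem_cons, List.not_mem_nil, or_false] at hr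
      rcases hr with rfl | rfl
      · exact Pool.Agent.H607R3.PS.mem_F
      · exact Pool.Agent.H607R3.PS.mem_G, hpair⟩
    (by
      rintro ⟨rs, hlen, hmem, hreg⟩
      refine Q37.Grade.grade_le hB.prime2 hB.notMem ⟨rs, hlen, ?_, hreg⟩
      intro r hr
      have h2 := hmem r hr
      rwa [Ideal.annihilator_quotient] at h2)
  rw [Ideal.annihilator_quotient] at h1
  have h2 := Q37.Grade.dim_quot_le hB
  have h3 := Q37.Grade.dim_ge hB
  have h4 : (4 : WithBot ℕ∞) ≤ 3 := by
    calc (4 : WithBot ℕ∞) ≤ _ := h3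
      _ = _ := h1.symm
      _ ≤ ((2 : ℕ) : WithBot ℕ∞) + 1 := add_le_add le_rfl h2
      _ = 3 := by norm_num
  exact absurd (by exact_mod_cast h4 : (4 : ℕ) ≤ 3) (by decide)

end Pool.Agent.S00360
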