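import Pool.Statements.S00527
import Pool.Agent.Q37.Lech.Main
-- import your own Pool.Agent.* helpers here

set_option autoImplicit false
open Pool Pool.MP_eae75b_ag

namespace Pool.Agent.S00527

/-- For k infinite, R=k[[x_0..x_d]], I m-primary: for general linear forms l_j, the sum over i<d of s(d+1,d+1-i)·e(I R/(l_1..l_i)) is at most (d+1)!·length(R/I), s unsigned Stirling of first kind. -/
theorem result :
  ∀ (k : Type) [Field k] [Infinite k] (d : ℕ) (I : Ideal (MvPowerSeries (Fin (d+1)) k)),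
    I.radical = Ideal.span (Set.range (MvPowerSeries.X : Fin (d+1) → MvPowerSeries (Fin (d+1)) k)) →
    ∃ P : MvPolynomial (Fin d × Fin (d+1)) k, P ≠ 0 ∧
      ∀ c : Fin d → Fin (d+1) → k, MvPolynomial.eval (fun p => c p.1 p.2) P ≠ 0 →
        ∀ e : Fin d → ℝ,
          (∀ i : Fin d, Filter.Tendsto
            (fun n : ℕ => ((Nat.factorial (d+1-i.val) : ℝ) *
              ((Module.length (MvPowerSeries (Fin (d+1)) k)
                (MvPowerSeries (Fin (d+1)) k ⧸
                  (I ^ n ⊔ Ideal.span {f : MvPowerSeries (Fin (d+1)) k |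
                    ∃ j : Fin d, j.val < i.val ∧
                      f = ∑ t : Fin (d+1), c j t • (MvPowerSeries.X t : MvPowerSeries (Fin (d+1)) k)}))).toNat : ℝ))
              / (n : ℝ) ^ (d+1-i.val))
            Filter.atTop (nhds (e i))) →
          ∑ i : Fin d, ((ascPochhammer ℕ (d+1)).coeff (d+1-i.val) : ℝ) * e i
            ≤ (Nat.factorial (d+1) : ℝ) *
              ((Module.length (MvPowerSeries (Fin (d+1)) k)
                (MvPowerSeries (Fin (d+1)) k ⧸ I)).toNat : ℝ) := by
  intro k _ _ d I hrad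
  classical
  -- the maximal ideal and a power inside `I`
  obtain ⟨J, hJx⟩ : ∃ J : Ideal (MvPowerSeries (Fin (d+1)) k), J =
    Ideal.span (Set.range (MvPowerSeries.X : Fin (d+1) → MvPowerSeries (Fin (d+1)) k)) := ⟨_, rfl⟩
  have hJ : ∀ f : MvPowerSeries (Fin (d+1)) k, ∃ c : k,
      f - algebraMap k (MvPowerSeries (Fin (d+1)) k) c ∈ J := by
    intro f
    rw [hJx]
    exact Pool.Agent.Q37.Lech.res_field f
  obtain ⟨q0, hq0⟩ : ∃ q0, J ^ q0 ≤ I := by
    apply Ideal.exists_pow_le_of_le_radical_of_fg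
    · rw [hrad, hJx]
    · rw [hJx]
      exact Submodule.fg_span (Set.finite_range _)
  obtain ⟨q, hq, hJI⟩ : ∃ q, 2 ≤ q ∧ J ^ q ≤ I :=
    ⟨q0 + 2, by omega, (Ideal.pow_le_pow_right (by omega)).trans hq0⟩
  have hfin : Module.Finite k (MvPowerSeries (Fin (d+1)) k ⧸ I) :=
    Pool.Agent.Q37.Lech.finite_quot q MvPowerSeries.X I J hJx hJ hJI
  obtain ⟨P0, hP0, hP⟩ := Pool.Agent.Q37.Lech.generic (k := k) q (by omega)
    (MvPowerSeries.X : Fin (d+1) → MvPowerSeries (Fin (d+1)) k) I J
    (fun t => by rw [hJx]; exact Ideal.subset_span ⟨t, rfl⟩) hJI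
  -- a good matrix
  obtain ⟨z0, hz0⟩ : ∃ z : Fin (d+1) × Fin (d+1) → k, MvPolynomial.eval z P0 ≠ 0 := by
    by_contra hcon
    push Not at hcon
    exact hP0 (MvPolynomial.funext fun z => by rw [hcon z, map_zero])
  -- substitute the last row
  set ψ : Fin (d+1) × Fin (d+1) → MvPolynomial (Fin d × Fin (d+1)) k := fun z =>
    if h : z.1.val < d then MvPolynomial.X (⟨z.1.val, h⟩, z.2)
    else MvPolynomial.C (z0 (Fin.last d, z.2)) with hψ
  have heval : ∀ c : Fin d → Fin (d+1) → k,
      MvPolynomial.eval (fun p : Fin d × Fin (d+1) => c p.1 p.2) (MvPolynomial.aeval ψ P0)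
      = MvPolynomial.eval (fun z : Fin (d+1) × Fin (d+1) =>
          (fun (r t : Fin (d+1)) => if h : r.val < d then c ⟨r.val, h⟩ t
            else z0 (Fin.last d, t)) z.1 z.2) P0 := by
    intro c
    rw [MvPolynomial.aeval_def, ← MvPolynomial.coe_eval₂Hom, ← RingHom.comp_apply]
    congr 1
    apply MvPolynomial.ringHom_ext
    · intro r
      simp [MvPolynomial.algebraMap_eq]
    · intro z
      simp only [RingHom.comp_apply, MvPolynomial.coe_eval₂Hom, MvPolynomial.eval₂_X,
        MvPolynomial.eval_X, hψ]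
      split_ifs <;> simp
  refine ⟨MvPolynomial.aeval ψ P0, ?_, ?_⟩
  · intro h0
    have h1 := heval (fun r t => z0 (⟨r.val, by have := r.2; omega⟩, t))
    rw [h0, map_zero] at h1
    apply hz0
    rw [h1]
    congr 1
    congr 1
    funext z
    obtain ⟨r, t⟩ := z
    by_cases h : r.val < d
    · simp [h]
    · have : r = Fin.last d := by
        apply Fin.ext
        have := r.2
        simp only [Fin.val_last]
        omega
      subst this
      simp
  · intro c hc e he
    obtain ⟨g, hg⟩ : ∃ g : Fin (d+1) → Fin (d+1) → k, g = fun (r t : Fin (d+1)) =>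
      if h : r.val < d then c ⟨r.val, h⟩ t else z0 (Fin.last d, t) := ⟨_, rfl⟩
    have hc2 : MvPolynomial.eval (fun z : Fin (d+1) × Fin (d+1) => g z.1 z.2) P0 ≠ 0 := by
      rw [heval] at hc
      rw [hg]
      exact hc
    obtain ⟨hdet, hmax⟩ := hP g hc2
    obtain ⟨A, hA⟩ : ∃ A : Fin d → ℕ → Ideal (MvPowerSeries (Fin (d+1)) k), A = fun i n =>
      I ^ n ⊔ Ideal.span {f : MvPowerSeries (Fin (d+1)) k |
                    ∃ j : Fin d, j.val < i.val ∧
                      f = ∑ t : Fin (d+1), c j t •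
                        (MvPowerSeries.X t : MvPowerSeries (Fin (d+1)) k)} := ⟨_, rfl⟩
    have hAi : ∀ i n, A i n = I ^ n ⊔ Ideal.span {f : MvPowerSeries (Fin (d+1)) k |
                    ∃ j : Fin d, j.val < i.val ∧
                      f = ∑ t : Fin (d+1), c j t •
                        (MvPowerSeries.X t : MvPowerSeries (Fin (d+1)) k)} := fun i n => by rw [hA]
    have he' : ∀ i : Fin d, Filter.Tendsto
            (fun n : ℕ => ((Nat.factorial (d+1-i.val) : ℝ) *
              ((Module.length (MvPowerSeries (Fin (d+1)) k)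
                (MvPowerSeries (Fin (d+1)) k ⧸ A i n)).toNat : ℝ))
              / (n : ℝ) ^ (d+1-i.val))
            Filter.atTop (nhds (e i)) := by
      subst hA
      exact he
    have hA1 : ∀ i n, I ^ n ≤ A i n := fun i n => by rw [hAi]; exact le_sup_left
    have hA2 : ∀ i n (r : Fin (d+1)), r.val < i.val → Pool.Agent.Q37.Lech.yy
        (MvPowerSeries.X : Fin (d+1) → MvPowerSeries (Fin (d+1)) k) g r ∈ A i n := by
      intro i n r hr
      rw [hAi]
      refine Ideal.mem_sup_right (Ideal.subset_span ?_)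
      have hrd : r.val < d := by have := i.2; omega
      refine ⟨⟨r.val, hrd⟩, hr, ?_⟩
      unfold Pool.Agent.Q37.Lech.yy
      refine Finset.sum_congr rfl fun t _ => ?_
      simp [hg, hrd]
    exact Pool.Agent.Q37.Lech.main_ineq (k := k) d q hq
      (MvPowerSeries.X : Fin (d+1) → MvPowerSeries (Fin (d+1)) k) I J hJx hJ hJI g hdet hmax
      A hA1 hA2 e he'

end Pool.Agent.S00527
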