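import Pool.Statements.S00532
import Pool.Agent.H9C.HR.Ring
import Pool.Agent.H9C.HR.Extended

set_option autoImplicit false
open Pool Pool.MP_ed7674_ag

namespace Pool.Agent.S00532

/-- The negation of the preceding statement: For every commutative ring A and every d, any stably free module P over A[x1,...,xd] (P plus a free module of rank n is free of rank m) is isomorphic to A[x1,...,xd] tensored over A with some A-module Q. -/
theorem result :
    ¬ (∀ (A : Type) [CommRing A] (d : ℕ) (P : Type) [AddCommGroup P]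
      [Module (MvPolynomial (Fin d) A) P],
      (∃ n m : ℕ, Nonempty ((P × (Fin n → MvPolynomial (Fin d) A)) ≃ₗ[MvPolynomial (Fin d) A]
        (Fin m → MvPolynomial (Fin d) A))) →
      ∃ (Q : Type) (_ : AddCommGroup Q) (_ : Module A Q),
        Nonempty (P ≃ₗ[MvPolynomial (Fin d) A] TensorProduct A (MvPolynomial (Fin d) A) Q)) := by
  intro H
  obtain ⟨A, hA, hloc, r, s, hrs, hnot⟩ := Pool.Agent.H9C.HR.exists_local_ring
  letI := hA
  haveI := hloc
  let e : MvPolynomial (Fin 1) A ≃+* Polynomial A :=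
    (MvPolynomial.uniqueAlgEquiv A (Fin 1)).toRingEquiv
  have hrs' : ∑ i, e.symm (r i) * e.symm (s i) = 1 := by
    rw [← map_one e.symm, ← hrs, map_sum]
    simp only [map_mul]
  have hn := hnot (MvPolynomial (Fin 1) A) e
  obtain ⟨Q, hQ1, hQ2, ⟨f⟩⟩ := H A 1
    (LinearMap.ker (Pool.Agent.H9C.HR.rowForm fun i => e.symm (r i)))
    ⟨1, 3, ⟨Pool.Agent.H9C.HR.kerEquiv (fun i => e.symm (r i)) (fun i => e.symm (s i)) hrs'⟩⟩
  exact hn (Pool.Agent.H9C.HR.free_of_extended _ _ hrs' Q f)

end Pool.Agent.S00532
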