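import Pool.Statements.S00640
import Pool.Agent.H9C.HR.Ring

set_option autoImplicit false
open Pool Pool.MP_062089_al

namespace Pool.Agent.S00640

/-- The negation of the preceding statement: For every commutative ring A, if every module M with M ⊕ Aⁿ ≅ Aᵐ for some n, m is free over A, then every module N with N ⊕ A[X]ⁿ ≅ A[X]ᵐ is free over A[X]. -/
theorem result :
    ¬ (∀ (A : Type) [CommRing A],
      (∀ (M : Type) [AddCommGroup M] [Module A M],
        (∃ n m : ℕ, Nonempty ((M × (Fin n → A)) ≃ₗ[A] (Fin m → A))) →
          Module.Free A M) →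
      ∀ (M : Type) [AddCommGroup M] [Module (Polynomial A) M],
        (∃ n m : ℕ, Nonempty ((M × (Fin n → Polynomial A)) ≃ₗ[Polynomial A]
            (Fin m → Polynomial A))) →
          Module.Free (Polynomial A) M) := by
  intro H
  obtain ⟨A, hA, hloc, r, s, hrs, hnot⟩ := Pool.Agent.H9C.HR.exists_local_ring
  letI := hA
  haveI := hloc
  have h := H A (by
    intro M _ _ hM
    obtain ⟨n, m, ⟨e⟩⟩ := hM
    have hp : Module.Projective A M := Module.Projective.of_split
      (e.toLinearMap.comp (LinearMap.inl A M (Fin n → A)))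
      ((LinearMap.fst A M (Fin n → A)).comp e.symm.toLinearMap) (by ext x; simp)
    have hf : Module.Finite A M := Module.Finite.of_surjective
      ((LinearMap.fst A M (Fin n → A)).comp e.symm.toLinearMap)
      (fun x => ⟨e (x, 0), by simp⟩)
    exact Module.free_of_flat_of_isLocalRing)
    (LinearMap.ker (Pool.Agent.H9C.HR.rowForm r))
    ⟨1, 3, ⟨Pool.Agent.H9C.HR.kerEquiv r s hrs⟩⟩
  exact hnot (Polynomial A) (RingEquiv.refl _) h

end Pool.Agent.S00640
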