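import Pool.Statements.S00777
import Pool.Agent.Q33.RF.Rep

set_option autoImplicit false
open Pool Pool.MP_1358e2_al

namespace Pool.Agent.S00777

/-- There exist n and r ∈ F(Fin n) such that ⟨Fin n ∣ r⟩ is residually finite (each g≠1 avoids some finite-index normal subgroup) and some g≠1 lies in every term of the derived series (i.e., not residually solvable). -/
theorem result :
    ∃ (n : ℕ) (r : FreeGroup (Fin n)),
      (∀ g : PresentedGroup ({r} : Set (FreeGroup (Fin n))), g ≠ 1 →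
        ∃ N : Subgroup (PresentedGroup ({r} : Set (FreeGroup (Fin n)))),
          N.Normal ∧ N.FiniteIndex ∧ g ∉ N) ∧
      ∃ g : PresentedGroup ({r} : Set (FreeGroup (Fin n))), g ≠ 1 ∧
        ∀ k : ℕ, g ∈ derivedSeries (PresentedGroup ({r} : Set (FreeGroup (Fin n)))) k := by
  refine ⟨3, Q33.RF.rel, fun g hg => ?_, Q33.RF.ph Q33.RF.ga, Q33.RF.a_ne, Q33.RF.a_mem⟩
  obtain ⟨P, i1, i2, Φ, hΦ⟩ := Q33.RF.resFin g hg
  refine ⟨Φ.ker, inferInstance, ?_, fun h => hΦ h⟩
  exact Subgroup.finiteIndex_ker Φ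

end Pool.Agent.S00777
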