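import Pool.Statements.S00830
import Pool.Agent.Q199.SL.Ex

set_option autoImplicit false
open Pool Pool.MP_196888_al

namespace Pool.Agent.S00830

/-- The negation of the preceding statement: For every group G, every m ≥ 2 and every lattice isomorphism φ from the subgroups of G^m to the subgroups of a group H such that H is the internal direct product of the images of the coordinate subgroups, the image of the first coordinate subgroup is isomorphic to G. -/
theorem result :
    ¬ (∀ (G : Type) [Group G] (n : ℕ) (H : Type) [Group H]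
      (φ : Subgroup (Fin (n + 2) → G) ≃o Subgroup H),
      (∀ i : Fin (n + 2),
          (φ (MonoidHom.mulSingle (fun _ : Fin (n + 2) => G) i).range).Normal) →
      (⨆ i : Fin (n + 2), φ (MonoidHom.mulSingle (fun _ : Fin (n + 2) => G) i).range) = ⊤ →
      iSupIndep (fun i : Fin (n + 2) =>
          φ (MonoidHom.mulSingle (fun _ : Fin (n + 2) => G) i).range) →
      Nonempty (↥(φ (MonoidHom.mulSingle (fun _ : Fin (n + 2) => G) 0).range) ≃* G)) := by
  intro hall
  open Pool.Agent.Q199.SL in
  have hr := fun i : Fin (0 + 2) => iso_range (s := 3) (s' := 9) i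
  have h := hall (Pool.Agent.Q199.SL.G 3) 0 (Fin (0 + 2) → Pool.Agent.Q199.SL.G 9)
    (Pool.Agent.Q199.SL.iso 3 9 (Fin (0 + 2))) ?_ ?_ ?_
  · obtain ⟨e⟩ := h
    rw [hr 0] at e
    apply Pool.Agent.Q199.SL.not_iso
    have e0 : Pool.Agent.Q199.SL.G 9 ≃*
        (MonoidHom.mulSingle (fun _ : Fin (0 + 2) => Pool.Agent.Q199.SL.G 9) 0).range :=
      MonoidHom.ofInjective (by
        intro u v huv
        have h3 := congrFun huv 0
        simpa using h3)
    exact ⟨e0.trans e⟩
  · intro i
    rw [hr i]
    refine ⟨?_⟩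
    intro x hx y
    rw [Pool.Agent.Q199.SL.mem_range] at hx ⊢
    intro j hj
    simp [hx j hj]
  · simp only [hr]
    rw [eq_top_iff]
    intro x _
    have h0 : (fun j => if j = 0 then x j else 1 : Fin (0 + 2) → Pool.Agent.Q199.SL.G 9) ∈
        ⨆ i : Fin (0 + 2), (MonoidHom.mulSingle (fun _ : Fin (0 + 2) => Pool.Agent.Q199.SL.G 9) i).range := by
      refine (le_iSup (fun i : Fin (0 + 2) =>
        (MonoidHom.mulSingle (fun _ : Fin (0 + 2) => Pool.Agent.Q199.SL.G 9) i).range) 0) ?_
      rw [Pool.Agent.Q199.SL.mem_range]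
      intro j hj
      simp [hj]
    have h1 : (fun j => if j = 1 then x j else 1 : Fin (0 + 2) → Pool.Agent.Q199.SL.G 9) ∈
        ⨆ i : Fin (0 + 2), (MonoidHom.mulSingle (fun _ : Fin (0 + 2) => Pool.Agent.Q199.SL.G 9) i).range := by
      refine (le_iSup (fun i : Fin (0 + 2) =>
        (MonoidHom.mulSingle (fun _ : Fin (0 + 2) => Pool.Agent.Q199.SL.G 9) i).range) 1) ?_
      rw [Pool.Agent.Q199.SL.mem_range]
      intro j hj
      simp [hj]
    have hx := Subgroup.mul_mem _ h0 h1
    have : ((fun j => if j = 0 then x j else 1 : Fin (0 + 2) → Pool.Agent.Q199.SL.G 9) *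
        (fun j => if j = 1 then x j else 1 : Fin (0 + 2) → Pool.Agent.Q199.SL.G 9)) = x := by
      funext j
      fin_cases j <;> simp
    rwa [this] at hx
  · simp only [hr]
    intro i
    rw [Subgroup.disjoint_def]
    intro x hx hx'
    rw [Pool.Agent.Q199.SL.mem_range] at hx
    have hle : (⨆ j, ⨆ (_ : j ≠ i),
        (MonoidHom.mulSingle (fun _ : Fin (0 + 2) => Pool.Agent.Q199.SL.G 9) j).range) ≤
        (Pi.evalMonoidHom (fun _ : Fin (0 + 2) => Pool.Agent.Q199.SL.G 9) i).ker := by
      refine iSup_le fun j => iSup_le fun hj => ?_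
      intro y hy
      rw [Pool.Agent.Q199.SL.mem_range] at hy
      rw [MonoidHom.mem_ker]
      exact hy i (Ne.symm hj)
    have h2 := hle hx'
    rw [MonoidHom.mem_ker] at h2
    funext j
    by_cases hj : j = i
    · subst hj; exact h2
    · exact hx j hj

end Pool.Agent.S00830
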