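import Pool.Statements.S00878
-- import your own Pool.Agent.* helpers here
import Pool.Agent.Helper904.GS.Final

set_option autoImplicit false
open scoped Pointwise
open Pool Pool.MP_1dd661_al

namespace Pool.Agent.S00878

section
variable (Q : Type) [Group Q]

/-- The compact group of functions from `Q` to the group of order two. -/
abbrev GG : Type := Q → Multiplicative (ZMod 2)

/-- The shift of coordinates, as an automorphism. -/
def sh (h : Q) : MulAut (GG Q) where
  toFun f := fun x => f (x * h)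
  invFun f := fun x => f (x * h⁻¹)
  left_inv f := by funext x; simp
  right_inv f := by funext x; simp
  map_mul' f g := rfl

/-- The shift homomorphism. -/
def shift : Q →* MulAut (GG Q) where
  toFun := sh Q
  map_one' := by
    ext f x
    simp [sh]
  map_mul' h k := by
    ext f x
    simp [sh, mul_assoc]

theorem shift_apply (h : Q) (f : GG Q) (x : Q) : shift Q h f x = f (x * h) := rfl

theorem continuous_shift (h : Q) : Continuous (⇑(shift Q h)) :=
  continuous_pi fun x => continuous_apply (x * h)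

/-- Functions trivial on `F`. -/
def triv (F : Set Q) : Subgroup (GG Q) where
  carrier := {f | ∀ x ∈ F, f x = 1}
  mul_mem' := by
    intro a b ha hb x hx
    rw [Pi.mul_apply, ha x hx, hb x hx, one_mul]
  one_mem' := fun x _ => rfl
  inv_mem' := by
    intro a ha x hx
    rw [Pi.inv_apply, ha x hx, inv_one]

theorem mem_triv (F : Set Q) (f : GG Q) : f ∈ triv Q F ↔ ∀ x ∈ F, f x = 1 := Iff.rfl

theorem isOpen_triv {F : Set Q} (hF : F.Finite) : IsOpen (triv Q F : Set (GG Q)) := by
  have : (triv Q F : Set (GG Q)) = ⋂ x ∈ F, {f : GG Q | f x = 1} := by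
    ext f; simp [mem_triv]
  rw [this]
  refine hF.isOpen_biInter fun x _ => ?_
  exact IsOpen.preimage (f := fun f : GG Q => f x) (continuous_apply x) (isOpen_discrete {(1 : Multiplicative (ZMod 2))})

theorem isClosed_triv (F : Set Q) : IsClosed (triv Q F : Set (GG Q)) := by
  have : (triv Q F : Set (GG Q)) = ⋂ x ∈ F, {f : GG Q | f x = 1} := by
    ext f; simp [mem_triv]
  rw [this]
  refine isClosed_biInter fun x _ => ?_
  exact IsClosed.preimage (f := fun f : GG Q => f x) (continuous_apply x) (isClosed_discrete {(1 : Multiplicative (ZMod 2))})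

variable {Q}

/-- If a torsion automorphism has `U` in tidy-above form, then `U` is invariant. -/
theorem inv_of_tidy (tor : ∀ g : Q, ∃ n, 0 < n ∧ g ^ n = 1) (h : Q) (U : Subgroup (GG Q))
    (hU : (U : Set (GG Q)) =
              (⋂ n : ℕ, Set.image (⇑((shift Q h) ^ n)) (U : Set (GG Q))) *
                (⋂ n : ℕ, Set.image (⇑((shift Q h)⁻¹ ^ n)) (U : Set (GG Q)))) :
    (U : Set (GG Q)) ⊆ Set.image (⇑(shift Q h)) (U : Set (GG Q)) := by
  obtain ⟨N, hN, hpow⟩ := tor h
  have hpow' : (shift Q h) ^ N = 1 := by rw [← map_pow, hpow, map_one]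
  intro u hu
  rw [hU] at hu
  obtain ⟨a, ha, b, hb, rfl⟩ := hu
  simp only [Set.mem_iInter] at ha hb
  obtain ⟨a', ha', haa⟩ := ha 1
  -- inverse power
  obtain ⟨b', hb', hbb⟩ := hb (N - 1)
  refine ⟨a' * b', U.mul_mem ha' hb', ?_⟩
  have e1 : (shift Q h) ^ 1 = shift Q h := pow_one _
  have e2 : (shift Q h)⁻¹ ^ (N - 1) = shift Q h := by
    rw [inv_pow]
    rw [inv_eq_iff_mul_eq_one, ← pow_succ, Nat.sub_add_cancel hN, hpow']
  rw [e1] at haa
  rw [e2] at hbb
  rw [map_mul, haa, hbb]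

theorem exists_disjoint [Infinite Q] {F : Set Q} (hF : F.Finite) :
    ∃ h : Q, ∀ x ∈ F, x * h ∉ F := by
  have hfin : (F⁻¹ * F).Finite := hF.inv.mul hF
  obtain ⟨h, hh⟩ := hfin.exists_notMem
  refine ⟨h, fun x hx hxh => hh ?_⟩
  exact ⟨x⁻¹, Set.inv_mem_inv.2 hx, x * h, hxh, by simp⟩

/-- An open invariant subgroup is everything. -/
theorem eq_univ_of_inv [Infinite Q] (U : Subgroup (GG Q)) (hU : IsOpen (U : Set (GG Q)))
    (hinv : ∀ h : Q, ∀ f ∈ U, shift Q h f ∈ U) : U = ⊤ := by
  classical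
  have h1 : (U : Set (GG Q)) ∈ nhds (1 : GG Q) := hU.mem_nhds U.one_mem
  rw [nhds_pi, Filter.mem_pi] at h1
  obtain ⟨F, hF, t, ht, hsub⟩ := h1
  have hFU : ∀ f : GG Q, (∀ x ∈ F, f x = 1) → f ∈ U := by
    intro f hf
    apply hsub
    intro x hx
    rw [hf x hx]
    exact mem_of_mem_nhds (ht x)
  obtain ⟨h, hh⟩ := exists_disjoint hF
  rw [eq_top_iff]
  intro f _
  -- split `f`
  let f1 : GG Q := fun x => if x ∈ F then 1 else f x
  let f2 : GG Q := fun x => if x ∈ F then f x else 1
  have hf : f = f1 * f2 := by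
    funext x
    by_cases hx : x ∈ F
    · simp [f1, f2, hx]
    · simp [f1, f2, hx]
  have m1 : f1 ∈ U := hFU f1 (fun x hx => by simp [f1, hx])
  have m2 : f2 ∈ U := by
    have h3 : shift Q h f2 ∈ U := by
      refine hFU _ (fun x hx => ?_)
      rw [shift_apply]
      simp [f2, hh x hx]
    have h4 := hinv h⁻¹ _ h3
    have h5 : shift Q h⁻¹ (shift Q h f2) = f2 := by
      funext x
      simp [shift_apply]
    rwa [h5] at h4
  rw [hf]
  exact U.mul_mem m1 m2

/-- Every finite set of coordinates is contained in a finite set invariant under a torsion shift. -/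
theorem exists_inv_finite (tor : ∀ g : Q, ∃ n, 0 < n ∧ g ^ n = 1) (h x : Q) :
    ∃ F : Set Q, F.Finite ∧ x ∈ F ∧ (∀ y ∈ F, y * h ∈ F) ∧ (∀ y ∈ F, y * h⁻¹ ∈ F) := by
  obtain ⟨N, hN, hpow⟩ := tor h
  refine ⟨{y | ∃ k : ℤ, y = x * h ^ k}, ?_, ⟨0, by simp⟩, ?_, ?_⟩
  · have hfo : IsOfFinOrder h := isOfFinOrder_iff_pow_eq_one.2 ⟨N, hN, hpow⟩
    have h1 : (Subgroup.zpowers h : Set Q).Finite := hfo.finite_zpowers
    refine (h1.image (fun z => x * z)).subset ?_
    rintro y ⟨k, rfl⟩
    exact ⟨h ^ k, ⟨k, rfl⟩, rfl⟩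
  · rintro y ⟨k, rfl⟩
    exact ⟨k + 1, by rw [mul_assoc, zpow_add_one]⟩
  · rintro y ⟨k, rfl⟩
    exact ⟨k - 1, by rw [mul_assoc, zpow_sub_one]⟩

theorem image_eq_of_inv (a : MulAut (GG Q)) (U : Subgroup (GG Q))
    (h1 : ∀ f ∈ U, a f ∈ U) (h2 : ∀ f ∈ U, a⁻¹ f ∈ U) :
    Set.image (⇑a) (U : Set (GG Q)) = (U : Set (GG Q)) := by
  ext f
  constructor
  · rintro ⟨g, hg, rfl⟩
    exact h1 g hg
  · intro hf
    exact ⟨a⁻¹ f, h2 f hf, by simp⟩

theorem pow_inv_of_inv (a : MulAut (GG Q)) (U : Subgroup (GG Q))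
    (h1 : ∀ f ∈ U, a f ∈ U) (n : ℕ) : ∀ f ∈ U, (a ^ n) f ∈ U := by
  induction n with
  | zero => intro f hf; simpa using hf
  | succ n ih =>
    intro f hf
    rw [pow_succ']
    exact h1 _ (ih f hf)

theorem image_pow_eq (a : MulAut (GG Q)) (U : Subgroup (GG Q))
    (h1 : ∀ f ∈ U, a f ∈ U) (h2 : ∀ f ∈ U, a⁻¹ f ∈ U) (n : ℕ) :
    Set.image (⇑(a ^ n)) (U : Set (GG Q)) = (U : Set (GG Q)) := by
  refine image_eq_of_inv _ U (pow_inv_of_inv a U h1 n) ?_
  have := pow_inv_of_inv a⁻¹ U h2 n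
  rw [inv_pow] at this
  exact this

theorem tidy_of_inv (a : MulAut (GG Q)) (U : Subgroup (GG Q)) (hcl : IsClosed (U : Set (GG Q)))
    (h1 : ∀ f ∈ U, a f ∈ U) (h2 : ∀ f ∈ U, a⁻¹ f ∈ U) :
    ((U : Set (GG Q)) =
              (⋂ n : ℕ, Set.image (⇑(a ^ n)) (U : Set (GG Q))) *
                (⋂ n : ℕ, Set.image (⇑(a⁻¹ ^ n)) (U : Set (GG Q))) ∧
            IsClosed (⋃ m : ℕ, Set.image (⇑(a ^ m))
                (⋂ n : ℕ, Set.image (⇑(a ^ n)) (U : Set (GG Q))))) := by
  have e1 : ∀ n : ℕ, Set.image (⇑(a ^ n)) (U : Set (GG Q)) = (U : Set (GG Q)) :=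
    image_pow_eq a U h1 h2
  have e2 : ∀ n : ℕ, Set.image (⇑(a⁻¹ ^ n)) (U : Set (GG Q)) = (U : Set (GG Q)) :=
    image_pow_eq a⁻¹ U h2 (by simpa using h1)
  simp only [e1, e2, Set.iInter_const, Set.iUnion_const]
  refine ⟨?_, hcl⟩
  exact (coe_mul_coe U).symm

/-- The main argument. -/
theorem main [Infinite Q] (tor : ∀ g : Q, ∃ n, 0 < n ∧ g ^ n = 1) (fg : Group.FG Q) :
    ¬ (∀ (G : Type) [Group G] [TopologicalSpace G] [IsTopologicalGroup G]
      [LocallyCompactSpace G] [TotallyDisconnectedSpace G]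
      (H : Subgroup (MulAut G)) (tidy : MulAut G → Subgroup G → Prop),
      (∀ (a : MulAut G) (U : Subgroup G), tidy a U ↔
          ((U : Set G) =
              (⋂ n : ℕ, Set.image (⇑(a ^ n)) (U : Set G)) *
                (⋂ n : ℕ, Set.image (⇑(a⁻¹ ^ n)) (U : Set G)) ∧
            IsClosed (⋃ m : ℕ, Set.image (⇑(a ^ m))
                (⋂ n : ℕ, Set.image (⇑(a ^ n)) (U : Set G))))) →
      (∀ a ∈ H, Continuous (⇑a)) →
      H.FG →
      (∃ U : Subgroup G, IsCompact (U : Set G) ∧ IsOpen (U : Set G) ∧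
          ∀ a ∈ H, tidy a U) →
      ∃ l : List (MulAut G), l.Nodup ∧ (∀ a ∈ l, a ∈ H) ∧
        (⋂ (U : Subgroup G)
            (_ : IsCompact (U : Set G) ∧ IsOpen (U : Set G) ∧ ∀ a ∈ H, tidy a U),
            (U : Set G)) =
          (l.map (fun a => ⋂ (U : Subgroup G)
              (_ : IsCompact (U : Set G) ∧ IsOpen (U : Set G) ∧ tidy a U),
              (U : Set G))).prod) := by
  intro hall
  obtain ⟨l, -, hlH, hl⟩ := hall (GG Q) (shift Q).range
    (fun a U => ((U : Set (GG Q)) =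
              (⋂ n : ℕ, Set.image (⇑(a ^ n)) (U : Set (GG Q))) *
                (⋂ n : ℕ, Set.image (⇑(a⁻¹ ^ n)) (U : Set (GG Q))) ∧
            IsClosed (⋃ m : ℕ, Set.image (⇑(a ^ m))
                (⋂ n : ℕ, Set.image (⇑(a ^ n)) (U : Set (GG Q))))))
    (fun a U => Iff.rfl)
    (by
      rintro a ⟨h, rfl⟩
      exact continuous_shift Q h)
    (by
      have : Group.FG Q := fg
      have h2 : Group.FG (shift Q).range := inferInstance
      exact (Group.fg_iff_subgroup_fg _).1 h2)
    (by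
      refine ⟨⊤, ?_, ?_, ?_⟩
      · simpa using isCompact_univ
      · simp
      · intro a _
        exact tidy_of_inv a ⊤ (by simp) (fun f _ => trivial) (fun f _ => trivial))
  -- the right-hand side is trivial
  have hone : (l.map (fun (a : MulAut (GG Q)) => ⋂ (U : Subgroup (GG Q))
              (_ : IsCompact (U : Set (GG Q)) ∧ IsOpen (U : Set (GG Q)) ∧
                ((U : Set (GG Q)) =
              (⋂ n : ℕ, Set.image (⇑(a ^ n)) (U : Set (GG Q))) *
                (⋂ n : ℕ, Set.image (⇑(a⁻¹ ^ n)) (U : Set (GG Q))) ∧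
            IsClosed (⋃ m : ℕ, Set.image (⇑(a ^ m))
                (⋂ n : ℕ, Set.image (⇑(a ^ n)) (U : Set (GG Q)))))),
              (U : Set (GG Q)))).prod = 1 := by
    refine List.prod_eq_one ?_
    intro S hS
    rw [List.mem_map] at hS
    obtain ⟨a, ha, rfl⟩ := hS
    obtain ⟨h, rfl⟩ := hlH a ha
    rw [← Set.singleton_one]
    refine Set.Subset.antisymm ?_ ?_
    · intro f hf
      simp only [Set.mem_iInter] at hf
      by_contra hne
      have hne' : ∃ x, f x ≠ 1 := by
        by_contra hcon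
        push Not at hcon
        exact hne (funext hcon)
      obtain ⟨x, hx⟩ := hne'
      obtain ⟨F, hF, hxF, hF1, hF2⟩ := exists_inv_finite tor h x
      have hmem : f ∈ triv Q F := by
        refine hf (triv Q F) ⟨(isClosed_triv Q F).isCompact, isOpen_triv Q hF, ?_⟩
        refine tidy_of_inv _ _ (isClosed_triv Q F) ?_ ?_
        · intro g hg y hy
          exact hg _ (hF1 y hy)
        · intro g hg y hy
          rw [← map_inv]
          exact hg _ (hF2 y hy)
      exact hx (hmem x hxF)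
    · rintro f rfl
      simp only [Set.mem_iInter]
      intro U _
      exact U.one_mem
  rw [hone] at hl
  -- the left-hand side is everything
  have hmem : (fun _ => Multiplicative.ofAdd (1 : ZMod 2) : GG Q) ∈ (1 : Set (GG Q)) := by
    rw [← hl]
    simp only [Set.mem_iInter]
    rintro U ⟨-, hUo, hU⟩
    have htop : U = ⊤ := by
      refine eq_univ_of_inv U hUo ?_
      intro h f hf
      have h1 := inv_of_tidy tor h⁻¹ U (hU (shift Q h⁻¹) ⟨h⁻¹, rfl⟩).1
      obtain ⟨g, hg, hgf⟩ := h1 hf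
      have : shift Q h f = g := by
        rw [← hgf]
        funext x
        show g (x * h * h⁻¹) = g x
        rw [mul_inv_cancel_right]
      rw [this]
      exact hg
    rw [htop]
    trivial
  rw [Set.mem_one] at hmem
  have h3 : Multiplicative.ofAdd (1 : ZMod 2) = (1 : Multiplicative (ZMod 2)) := congrFun hmem 1
  exact absurd h3 (by decide)

end

/-- The negation of the preceding statement: For a t.d.l.c. group G and a finitely generated flat group H of topological automorphisms, there are finitely many distinct elements of H whose nubs multiply, as sets, to the nub of H. -/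
theorem result :
    ¬ (∀ (G : Type) [Group G] [TopologicalSpace G] [IsTopologicalGroup G]
      [LocallyCompactSpace G] [TotallyDisconnectedSpace G]
      (H : Subgroup (MulAut G)) (tidy : MulAut G → Subgroup G → Prop),
      (∀ (a : MulAut G) (U : Subgroup G), tidy a U ↔
          ((U : Set G) =
              (⋂ n : ℕ, Set.image (⇑(a ^ n)) (U : Set G)) *
                (⋂ n : ℕ, Set.image (⇑(a⁻¹ ^ n)) (U : Set G)) ∧
            IsClosed (⋃ m : ℕ, Set.image (⇑(a ^ m))
                (⋂ n : ℕ, Set.image (⇑(a ^ n)) (U : Set G))))) →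
      (∀ a ∈ H, Continuous (⇑a)) →
      H.FG →
      (∃ U : Subgroup G, IsCompact (U : Set G) ∧ IsOpen (U : Set G) ∧
          ∀ a ∈ H, tidy a U) →
      ∃ l : List (MulAut G), l.Nodup ∧ (∀ a ∈ l, a ∈ H) ∧
        (⋂ (U : Subgroup G)
            (_ : IsCompact (U : Set G) ∧ IsOpen (U : Set G) ∧ ∀ a ∈ H, tidy a U),
            (U : Set G)) =
          (l.map (fun a => ⋂ (U : Subgroup G)
              (_ : IsCompact (U : Set G) ∧ IsOpen (U : Set G) ∧ tidy a U),
              (U : Set G))).prod) := by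
  obtain ⟨Q, hQ, σ, F, hEx⟩ := Pool.Agent.Helper904.GS.exists_group
  have := hEx.inf
  exact main (Q := Q) hEx.tor hEx.fg

end Pool.Agent.S00878
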