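import Pool.Statements.S01554
-- import your own Pool.Agent.* helpers here

set_option autoImplicit false
open Pool Pool.MP_58cc81_al

namespace Pool.Agent.S01554

noncomputable section

/-- Finitely supported binary sequences, with the discrete topology. -/
def A : Type := ℕ →₀ ZMod 2

instance : AddCommGroup A := inferInstanceAs (AddCommGroup (ℕ →₀ ZMod 2))
instance : TopologicalSpace A := ⊥
instance : DiscreteTopology A := ⟨rfl⟩

/-- Coordinates. -/
def co (x : A) (i : ℕ) : ZMod 2 := (show ℕ →₀ ZMod 2 from x) i

theorem co_add (x y : A) (i : ℕ) : co (x + y) i = co x i + co y i := Finsupp.add_apply _ _ _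
theorem co_neg (x : A) (i : ℕ) : co (-x) i = - co x i := Finsupp.neg_apply _ _
theorem co_zero (i : ℕ) : co (0 : A) i = 0 := rfl
theorem co_ext {x y : A} (h : ∀ i, co x i = co y i) : x = y := Finsupp.ext h

/-- The compact part of the centre. -/
abbrev Z : Type := ℕ × ℕ → ZMod 2

/-- The bilinear cocycle. -/
def β (x y : A) : Z := fun p => co x p.1 * co y p.2

theorem β_add_left (x y z : A) : β (x + y) z = β x z + β y z := by
  funext p; simp [β, co_add, add_mul]
theorem β_add_right (x y z : A) : β x (y + z) = β x y + β x z := by
  funext p; simp [β, co_add, mul_add]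
theorem β_neg_left (x y : A) : β (-x) y = - β x y := by
  funext p; simp [β, co_neg]
theorem β_neg_right (x y : A) : β x (-y) = - β x y := by
  funext p; simp [β, co_neg]
theorem β_zero_left (x : A) : β 0 x = 0 := by
  funext p; simp [β, co_zero]
theorem β_zero_right (x : A) : β x 0 = 0 := by
  funext p; simp [β, co_zero]

/-- The underlying space of the group. -/
def G : Type := A × Z × Circle

instance : TopologicalSpace G := inferInstanceAs (TopologicalSpace (A × Z × Circle))

instance : Mul G := ⟨fun g h => (g.1 + h.1, g.2.1 + h.2.1 + β g.1 h.1, g.2.2 * h.2.2)⟩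
instance : One G := ⟨((0 : A), (0 : Z), (1 : Circle))⟩
instance : Inv G := ⟨fun g => (-g.1, -g.2.1 + β g.1 g.1, g.2.2⁻¹)⟩

theorem mul_fst (g h : G) : (g * h).1 = g.1 + h.1 := rfl
theorem mul_snd (g h : G) : (g * h).2.1 = g.2.1 + h.2.1 + β g.1 h.1 := rfl
theorem mul_trd (g h : G) : (g * h).2.2 = g.2.2 * h.2.2 := rfl
theorem one_fst : (1 : G).1 = 0 := rfl
theorem one_snd : (1 : G).2.1 = 0 := rfl
theorem one_trd : (1 : G).2.2 = 1 := rfl
theorem inv_fst (g : G) : (g⁻¹).1 = -g.1 := rfl
theorem inv_snd (g : G) : (g⁻¹).2.1 = -g.2.1 + β g.1 g.1 := rfl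
theorem inv_trd (g : G) : (g⁻¹).2.2 = g.2.2⁻¹ := rfl

theorem G_ext {g h : G} (h1 : g.1 = h.1) (h2 : g.2.1 = h.2.1) (h3 : g.2.2 = h.2.2) : g = h :=
  Prod.ext h1 (Prod.ext h2 h3)

instance : Group G :=
  Group.ofLeftAxioms
    (fun a b c => by
      refine G_ext ?_ ?_ ?_
      · simp only [mul_fst, add_assoc]
      · simp only [mul_fst, mul_snd, β_add_left, β_add_right]; abel
      · simp only [mul_trd, mul_assoc])
    (fun a => by
      refine G_ext ?_ ?_ ?_
      · simp only [mul_fst, one_fst, zero_add]
      · simp only [mul_snd, one_fst, one_snd, β_zero_left]; abel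
      · simp only [mul_trd, one_trd, one_mul])
    (fun a => by
      refine G_ext ?_ ?_ ?_
      · simp only [mul_fst, one_fst, inv_fst, neg_add_cancel]
      · simp only [mul_snd, one_snd, inv_fst, inv_snd, β_neg_left]; abel
      · simp only [mul_trd, one_trd, inv_trd, inv_mul_cancel])

theorem continuous_co (i : ℕ) : Continuous (fun x : A => co x i) := continuous_of_discreteTopology

theorem continuous_β {X : Type} [TopologicalSpace X] {f g : X → A} (hf : Continuous f)
    (hg : Continuous g) : Continuous (fun x => β (f x) (g x)) := by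
  refine continuous_pi fun p => ?_
  exact ((continuous_co p.1).comp hf).mul ((continuous_co p.2).comp hg)

theorem cfst : Continuous (fun g : G => g.1) := continuous_fst (X := A) (Y := Z × Circle)
theorem csnd : Continuous (fun g : G => g.2.1) :=
  (continuous_fst (X := Z) (Y := Circle)).comp (continuous_snd (X := A) (Y := Z × Circle))
theorem ctrd : Continuous (fun g : G => g.2.2) :=
  (continuous_snd (X := Z) (Y := Circle)).comp (continuous_snd (X := A) (Y := Z × Circle))

instance : IsTopologicalGroup G where
  continuous_mul := by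
    have h1 : Continuous (fun p : G × G => p.1.1) := cfst.comp continuous_fst
    have h2 : Continuous (fun p : G × G => p.2.1) := cfst.comp continuous_snd
    have h3 : Continuous (fun p : G × G => p.1.2.1) := csnd.comp continuous_fst
    have h4 : Continuous (fun p : G × G => p.2.2.1) := csnd.comp continuous_snd
    have h5 : Continuous (fun p : G × G => p.1.2.2) := ctrd.comp continuous_fst
    have h6 : Continuous (fun p : G × G => p.2.2.2) := ctrd.comp continuous_snd
    exact (h1.add h2).prodMk (((h3.add h4).add (continuous_β h1 h2)).prodMk (h5.mul h6))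
  continuous_inv := by
    exact cfst.neg.prodMk ((csnd.neg.add (continuous_β cfst cfst)).prodMk ctrd.inv)

instance : LocallyCompactSpace G := inferInstanceAs (LocallyCompactSpace (A × Z × Circle))
instance : T2Space G := inferInstanceAs (T2Space (A × Z × Circle))

/-- Elements with trivial first coordinate are central. -/
theorem central {y : G} (hy : y.1 = 0) (g : G) : g * y * g⁻¹ = y := by
  have : g * y = y * g := by
    refine G_ext ?_ ?_ ?_
    · simp only [mul_fst, hy, add_comm]
    · simp only [mul_snd, hy, β_zero_left, β_zero_right]; abel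
    · simp only [mul_trd, mul_comm]
  rw [this, mul_inv_cancel_right]

theorem β_symm_of_comm {g h : G} (hc : g * h = h * g) : β g.1 h.1 = β h.1 g.1 := by
  have h1 : (g * h).2.1 = (h * g).2.1 := by rw [hc]
  simp only [mul_snd] at h1
  have h2 : g.2.1 + h.2.1 + β g.1 h.1 = g.2.1 + h.2.1 + β h.1 g.1 := by
    rw [h1]; abel
  exact add_left_cancel h2

theorem zmod2 : ∀ a b c d : ZMod 2, a * d = c * b → a ≠ 0 → c ≠ 0 → b = d := by decide

/-- Commuting elements have dependent first coordinates. -/
theorem comm_cases {g h : G} (hc : g * h = h * g) : g.1 = 0 ∨ h.1 = 0 ∨ g.1 = h.1 := by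
  by_cases hg : g.1 = 0
  · exact Or.inl hg
  by_cases hh : h.1 = 0
  · exact Or.inr (Or.inl hh)
  refine Or.inr (Or.inr ?_)
  have hs := β_symm_of_comm hc
  have hs' : ∀ i j, co g.1 i * co h.1 j = co h.1 i * co g.1 j := fun i j => congrFun hs (i, j)
  have hg' : ∃ i, co g.1 i ≠ 0 := by
    by_contra hcon
    push Not at hcon
    exact hg (co_ext fun i => by rw [hcon i, co_zero])
  obtain ⟨i, hi⟩ := hg'
  have hh' : ∃ i, co h.1 i ≠ 0 := by
    by_contra hcon
    push Not at hcon
    exact hh (co_ext fun i => by rw [hcon i, co_zero])
  obtain ⟨k, hk⟩ := hh'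
  have hhi : co h.1 i ≠ 0 := by
    intro h0
    have := hs' i k
    rw [h0, zero_mul] at this
    exact mul_ne_zero hi hk this
  refine co_ext fun j => ?_
  exact zmod2 (co g.1 i) (co g.1 j) (co h.1 i) (co h.1 j) (hs' i j) hi hhi

theorem isCompact_slab {F : Set A} (hF : F.Finite) : IsCompact {g : G | g.1 ∈ F} := by
  have h1 : IsCompact (F ×ˢ (Set.univ : Set (Z × Circle))) := hF.isCompact.prod isCompact_univ
  have h2 : {g : G | g.1 ∈ F} = (F ×ˢ (Set.univ : Set (Z × Circle)) : Set (A × Z × Circle)) := by
    ext g
    constructor
    · intro hg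
      exact ⟨hg, trivial⟩
    · intro hg
      exact hg.1
  rw [h2]
  exact h1

theorem compact_closure_of {S : Set G} {F : Set A} (hF : F.Finite) (h : ∀ g ∈ S, g.1 ∈ F) :
    IsCompact (closure S) :=
  (isCompact_slab hF).closure_of_subset h

/-- The subgroup of elements whose first coordinate is supported in a finite set. -/
def sup (T : Finset ℕ) : Subgroup G where
  carrier := {g : G | ∀ i, i ∉ T → co g.1 i = 0}
  mul_mem' := by
    intro a b ha hb i hi
    show co (a.1 + b.1) i = 0
    rw [co_add, ha i hi, hb i hi, add_zero]
  one_mem' := fun i _ => co_zero i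
  inv_mem' := by
    intro a ha i hi
    show co (-a.1) i = 0
    rw [co_neg, ha i hi, neg_zero]

theorem finite_supported (T : Finset ℕ) : {x : A | ∀ i, i ∉ T → co x i = 0}.Finite := by
  have hinj : Set.InjOn (fun (x : A) (i : T) => co x i) {x : A | ∀ i, i ∉ T → co x i = 0} := by
    intro x hx y hy hxy
    refine co_ext fun i => ?_
    by_cases hi : i ∈ T
    · exact congrFun hxy ⟨i, hi⟩
    · rw [hx i hi, hy i hi]
  exact Set.Finite.of_finite_image (Set.toFinite _) hinj

/-- The negation of the preceding statement: A Hausdorff locally compact group with small invariant neighbourhoods, whose abelian subgroups have compact closure and whose relatively compact subsets generate relatively compact subgroups, is totally disconnected or compact. -/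
theorem result :
    ¬ (∀ (G : Type) [Group G] [TopologicalSpace G] [IsTopologicalGroup G]
      [LocallyCompactSpace G] [T2Space G],
      (∀ U ∈ nhds (1 : G), ∃ V ∈ nhds (1 : G), V ⊆ U ∧
          ∀ g x : G, x ∈ V → g * x * g⁻¹ ∈ V) →
      (∀ H : Subgroup G, (∀ a ∈ H, ∀ b ∈ H, a * b = b * a) →
          IsCompact (closure (H : Set G))) →
      (∀ K : Set G, IsCompact (closure K) →
          IsCompact (closure ((Subgroup.closure K : Subgroup G) : Set G))) →
      TotallyDisconnectedSpace G ∨ CompactSpace G) := by
  intro H
  have h := H G ?_ ?_ ?_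
  · rcases h with h | h
    · -- not totally disconnected
      let f : ℝ → G := fun t => ((0 : A), (0 : Z), Circle.exp t)
      have hf : Continuous f := by
        have h1 : Continuous (fun _ : ℝ => (0 : A)) := continuous_const
        have h2 : Continuous (fun _ : ℝ => (0 : Z)) := continuous_const
        exact h1.prodMk (h2.prodMk Circle.exp.continuous)
      have hpre : IsPreconnected (Set.range f) := isPreconnected_range hf
      have hsub := hpre.subsingleton
      have heq : f 0 = f Real.pi := hsub ⟨0, rfl⟩ ⟨Real.pi, rfl⟩
      have h3 : Circle.exp 0 = Circle.exp Real.pi := congrArg (fun g : G => g.2.2) heq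
      have h4 := congrArg (fun z : Circle => (z : ℂ)) h3
      simp [Circle.coe_exp] at h4
      norm_num at h4
    · -- not compact
      have hA : CompactSpace A := by
        have hs : Function.Surjective (fun g : G => g.1) := fun a => ⟨(a, (0 : Z), (1 : Circle)), rfl⟩
        exact hs.compactSpace cfst
      have hfin : Finite A := finite_of_compact_of_discrete
      have hinj : Function.Injective (fun n : ℕ => (show A from Finsupp.single n (1 : ZMod 2))) := by
        intro m n hmn
        exact (Finsupp.single_left_injective (one_ne_zero)) hmn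
      exact not_injective_infinite_finite _ hinj
  · -- small invariant neighbourhoods
    intro U hU
    refine ⟨U ∩ {g : G | g.1 = 0}, ?_, Set.inter_subset_left, ?_⟩
    · refine Filter.inter_mem hU ?_
      have ho : IsOpen {g : G | g.1 = 0} := (isOpen_discrete {(0 : A)}).preimage cfst
      exact ho.mem_nhds rfl
    · rintro g x ⟨hxU, hx⟩
      rw [central hx g]
      exact ⟨hxU, hx⟩
  · -- abelian subgroups
    intro K hK
    by_cases h0 : ∀ a ∈ K, a.1 = 0
    · exact compact_closure_of (F := {0}) (Set.finite_singleton _) h0
    · push Not at h0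
      obtain ⟨a, ha, ha0⟩ := h0
      refine compact_closure_of (F := {0, a.1}) (Set.toFinite _) ?_
      intro b hb
      rcases comm_cases (hK a ha b hb) with h1 | h1 | h1
      · exact absurd h1 ha0
      · simp [h1]
      · simp [← h1]
  · -- topologically locally finite
    intro K hK
    have himg : IsCompact ((fun g : G => g.1) '' closure K) := hK.image cfst
    have hfin : ((fun g : G => g.1) '' closure K).Finite := himg.finite_of_discrete
    let T : Finset ℕ := hfin.toFinset.biUnion (fun x : A => (show ℕ →₀ ZMod 2 from x).support)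
    have hle : Subgroup.closure K ≤ sup T := by
      rw [Subgroup.closure_le]
      intro g hg i hi
      by_contra hne
      apply hi
      refine Finset.mem_biUnion.2 ⟨g.1, ?_, ?_⟩
      · rw [Set.Finite.mem_toFinset]
        exact ⟨g, subset_closure hg, rfl⟩
      · exact Finsupp.mem_support_iff.2 hne
    exact compact_closure_of (finite_supported T) (fun g hg => hle hg)

end

end Pool.Agent.S01554
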