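import Pool.Statements.S01640
import Pool.Agent.Q20.RankT.Fields

set_option autoImplicit false
open Pool Pool.MP_5f0000_al

namespace Pool.Agent.S01640

/-- The negation of the preceding statement: Every group with Kazhdan's property (T) has only finitely many normal subgroups whose quotient is a finite simple group with a split BN-pair of rank 1, i.e. a finite simple group of Lie type of rank 1. -/
theorem result :
    ¬ (∀ (G : Type) [Group G],
      (∀ (H : Type) [NormedAddCommGroup H] [InnerProductSpace ℂ H] [CompleteSpace H]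
          (ρ : G →* unitary (H →L[ℂ] H)),
          (∀ (S : Finset G) (ε : ℝ), 0 < ε →
              ∃ v : H, ‖v‖ = 1 ∧ ∀ s ∈ S, ‖(ρ s : H →L[ℂ] H) v - v‖ < ε) →
          ∃ v : H, v ≠ 0 ∧ ∀ g : G, (ρ g : H →L[ℂ] H) v = v) →
      Set.Finite {N : Subgroup G | ∃ (Q : Type) (_ : Group Q), ∃ f : G →* Q,
          Function.Surjective f ∧ f.ker = N ∧ Finite Q ∧ IsSimpleGroup Q ∧
          ∃ (X : Type) (φ : Q →* Equiv.Perm X), Finite X ∧ 3 ≤ Nat.card X ∧
            (∀ a b c d : X, a ≠ b → c ≠ d → ∃ g : Q, φ g a = c ∧ φ g b = d) ∧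
            ∃ (x : X) (U : Subgroup Q),
              (∀ u ∈ U, φ u x = x) ∧
              (∀ u ∈ U, ∀ h : Q, φ h x = x → h * u * h⁻¹ ∈ U) ∧
              ∀ y z : X, y ≠ x → z ≠ x → ∃! u : Q, u ∈ U ∧ φ u y = z}) := by
  intro hall
  have hfin := hall Q20.RankT.Gam Q20.RankT.Gam_T
  have hbdd := (hfin.image Subgroup.index).bddAbove
  obtain ⟨b, hb⟩ := hbdd
  have h1 := hb (a := (Q20.RankT.pr (b + 1)).ker.index) ⟨_, by
    refine ⟨(Q20.RankT.JJ (b + 1)).SU, inferInstance, Q20.RankT.pr (b + 1),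
      Q20.RankT.pr_surj (b + 1), rfl, inferInstance,
      Q20.RankT.Inv.simple (Q20.RankT.noCube (b + 1)), (Q20.RankT.JJ (b + 1)).Pt,
      MulAction.toPermHom _ _, inferInstance, Q20.RankT.Inv.three_pts, ?_,
      Q20.RankT.Inv.p₀ _, (Q20.RankT.JJ (b + 1)).St (Q20.RankT.Inv.x₀ _), ?_, ?_, ?_⟩
    · intro a b c d hab hcd
      exact Q20.RankT.Inv.two_trans hab hcd
    · intro u hu
      exact Q20.RankT.Inv.U_fix hu
    · intro u hu k hk
      exact Q20.RankT.Inv.U_normal hu hk
    · intro y z hy hz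
      exact Q20.RankT.Inv.U_regular hy hz, rfl⟩
  have h2 := Q20.RankT.card_ker (b + 1)
  omega

end Pool.Agent.S01640
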