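import Pool.Statements.S02012
-- import your own Pool.Agent.* helpers here
import Pool.Agent.Q21.Swap

set_option autoImplicit false
open Pool Pool.MP_79f901_al

namespace Pool.Agent.S02012

/-- The vertex set of the binary tree, in the form used by the statement. -/
abbrev V : Type := {l : List ℕ // ∀ i (h : i < l.length), l.get ⟨i, h⟩ < (fun _ : ℕ => 2) i}

theorem V_mem (v : V) : ∀ x ∈ v.1, x < 2 := by
  intro x hx
  obtain ⟨n, hn⟩ := List.get_of_mem hx
  have := v.2 n.1 n.2
  rw [← hn]
  exact this

/-- Identification with lists of Booleans. -/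
def e : V ≃ List Bool where
  toFun v := v.1.map (fun n => n == 1)
  invFun l := ⟨l.map (fun b => if b then 1 else 0), fun i h => by
    rw [List.get_eq_getElem, List.getElem_map]
    show (if _ then 1 else 0) < 2
    split_ifs <;> omega⟩
  left_inv v := by
    apply Subtype.ext
    show List.map _ (List.map _ v.1) = v.1
    rw [List.map_map]
    conv_rhs => rw [← List.map_id v.1]
    apply List.map_congr_left
    intro x hx
    have := V_mem v x hx
    interval_cases x <;> simp
  right_inv l := by
    show List.map _ (List.map _ l) = l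
    rw [List.map_map]
    conv_rhs => rw [← List.map_id l]
    apply List.map_congr_left
    intro x _
    cases x <;> simp

theorem e_length (v : V) : (e v).length = v.1.length := by
  show (List.map _ v.1).length = _
  rw [List.length_map]

theorem e_prefix (v w : V) : v.1 <+: w.1 ↔ e v <+: e w := by
  constructor
  · intro h
    exact h.map _
  · intro h
    have h1 : (e.symm (e v)).1 <+: (e.symm (e w)).1 := List.IsPrefix.map (fun b : Bool => if b then (1 : ℕ) else 0) h
    rwa [e.symm_apply_apply, e.symm_apply_apply] at h1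

/-- Transport of permutations. -/
def E : Equiv.Perm (List Bool) ≃* Equiv.Perm V := e.symm.permCongrHom

theorem E_apply (g : Equiv.Perm (List Bool)) (v : V) : E g v = e.symm (g (e v)) := rfl

theorem e_E (g : Equiv.Perm (List Bool)) (v : V) : e (E g v) = g (e v) := by
  rw [E_apply, e.apply_symm_apply]

/-- The negation of the preceding statement: For every branch group L acting on a spherically homogeneous rooted tree, every automorphism of L is conjugation by a unique tree automorphism, so Aut L equals the normalizer of L in Aut T. -/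
theorem result :
    ¬ (∀ (m : ℕ → ℕ), (∀ n, 2 ≤ m n) →
    ∀ L : Subgroup (Equiv.Perm {l : List ℕ // ∀ i (h : i < l.length), l.get ⟨i, h⟩ < m i}),
    (∀ g ∈ L, ∀ v w : {l : List ℕ // ∀ i (h : i < l.length), l.get ⟨i, h⟩ < m i},
        (List.IsPrefix v.1 w.1 ↔ List.IsPrefix (g v).1 (g w).1)) →
    (∀ v w : {l : List ℕ // ∀ i (h : i < l.length), l.get ⟨i, h⟩ < m i},
        v.1.length = w.1.length → ∃ g ∈ L, g v = w) →
    (∀ n : ℕ, ((Subgroup.closure
        {g : Equiv.Perm {l : List ℕ // ∀ i (h : i < l.length), l.get ⟨i, h⟩ < m i} |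
          g ∈ L ∧ ∃ u : {l : List ℕ // ∀ i (h : i < l.length), l.get ⟨i, h⟩ < m i},
            u.1.length = n ∧
            ∀ v : {l : List ℕ // ∀ i (h : i < l.length), l.get ⟨i, h⟩ < m i},
              ¬ List.IsPrefix u.1 v.1 → g v = v}).subgroupOf L).index ≠ 0) →
    ∀ φ : L ≃* L,
      ∃! σ : Equiv.Perm {l : List ℕ // ∀ i (h : i < l.length), l.get ⟨i, h⟩ < m i},
        (∀ v w : {l : List ℕ // ∀ i (h : i < l.length), l.get ⟨i, h⟩ < m i},
          (List.IsPrefix v.1 w.1 ↔ List.IsPrefix (σ v).1 (σ w).1)) ∧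
        ∀ g : L, ((φ g : L) : Equiv.Perm {l : List ℕ // ∀ i (h : i < l.length), l.get ⟨i, h⟩ < m i})
          = σ * (g : Equiv.Perm {l : List ℕ // ∀ i (h : i < l.length), l.get ⟨i, h⟩ < m i}) * σ⁻¹) := by
  intro H
  have h := H (fun _ => 2) (fun _ => le_refl 2) (Q21.Swap.L.map E.toMonoidHom) ?_ ?_ ?_
    (((E.subgroupMap Q21.Swap.L).symm.trans Q21.Swap.φ).trans (E.subgroupMap Q21.Swap.L))
  · obtain ⟨σ, ⟨hσ1, hσ2⟩, -⟩ := h
    refine Q21.Swap.no_conj (E.symm σ) ?_ ?_
    · intro v w
      have := hσ1 (e.symm v) (e.symm w)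
      rw [e_prefix, e_prefix, e.apply_symm_apply, e.apply_symm_apply] at this
      exact this
    · intro g
      have h1 := hσ2 (E.subgroupMap Q21.Swap.L g)
      have h2 : E ((Q21.Swap.φ g : Q21.Swap.L) : Equiv.Perm (List Bool)) =
          σ * E (g : Equiv.Perm (List Bool)) * σ⁻¹ := by
        have h3 : ((E.subgroupMap Q21.Swap.L (Q21.Swap.φ ((E.subgroupMap Q21.Swap.L).symm
            (E.subgroupMap Q21.Swap.L g))) : Q21.Swap.L.map E.toMonoidHom) : Equiv.Perm V) =
          σ * E (g : Equiv.Perm (List Bool)) * σ⁻¹ := h1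
        rw [MulEquiv.symm_apply_apply] at h3
        exact h3
      apply E.injective
      rw [h2, map_mul, map_mul, map_inv, E.apply_symm_apply]
  · rintro _ ⟨g, hg, rfl⟩ v w
    rw [e_prefix, e_prefix]
    show _ ↔ e (E g v) <+: e (E g w)
    rw [e_E, e_E]
    exact hg.1 _ _
  · intro v w hvw
    obtain ⟨g, hg, hgv⟩ := Q21.Swap.transitive (e v) (e w) (by rw [e_length, e_length, hvw])
    refine ⟨E g, ⟨g, hg, rfl⟩, ?_⟩
    rw [E_apply, hgv, e.symm_apply_apply]
  · intro n
    have hset : {g : Equiv.Perm V |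
          g ∈ Q21.Swap.L.map E.toMonoidHom ∧ ∃ u : V, u.1.length = n ∧
            ∀ v : V, ¬ List.IsPrefix u.1 v.1 → g v = v} = E.toMonoidHom '' Q21.Swap.ristSet n := by
      ext g
      constructor
      · rintro ⟨⟨g', hg', rfl⟩, u, hu, hv⟩
        refine ⟨g', ⟨hg', e u, by rw [e_length, hu], fun v hv' => ?_⟩, rfl⟩
        have h1 := hv (e.symm v) (by rwa [e_prefix, e.apply_symm_apply])
        have h2 : E g' (e.symm v) = e.symm v := h1
        rw [E_apply, e.apply_symm_apply] at h2
        exact e.symm.injective h2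
      · rintro ⟨g', ⟨hg', u, hu, hv⟩, rfl⟩
        refine ⟨⟨g', hg', rfl⟩, e.symm u, ?_, fun v hv' => ?_⟩
        · rw [← e_length, e.apply_symm_apply, hu]
        · show E g' v = v
          rw [E_apply, hv (e v) (by rwa [e_prefix, e.apply_symm_apply] at hv'), e.symm_apply_apply]
    show ((Subgroup.closure {g : Equiv.Perm V |
          g ∈ Q21.Swap.L.map E.toMonoidHom ∧ ∃ u : V, u.1.length = n ∧
            ∀ v : V, ¬ List.IsPrefix u.1 v.1 → g v = v}).subgroupOf
              (Q21.Swap.L.map E.toMonoidHom)).index ≠ 0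
    rw [hset, ← MonoidHom.map_closure]
    have h1 := Q21.Swap.index_ne_zero n
    have h2 : ((Subgroup.closure (Q21.Swap.ristSet n)).map E.toMonoidHom).relIndex
        (Q21.Swap.L.map E.toMonoidHom) = (Subgroup.closure (Q21.Swap.ristSet n)).relIndex Q21.Swap.L :=
      Subgroup.relIndex_map_map_of_injective _ _ E.injective
    show ((Subgroup.closure (Q21.Swap.ristSet n)).map E.toMonoidHom).relIndex
        (Q21.Swap.L.map E.toMonoidHom) ≠ 0
    rw [h2]
    exact h1

end Pool.Agent.S02012
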