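import Pool.Statements.S02070
import Pool.Agent.Q1.GLResidue
import Pool.Agent.Q1.GLTwo

set_option autoImplicit false
open Pool Pool.MP_7ed69f_al

namespace Pool.Agent.S02070

open Q1.GLResidue

/-- The quotient of the `p`-adic integers by the square of the maximal ideal. -/
abbrev Ap (p : ℕ) [Fact p.Prime] : Type :=
  ℤ_[p] ⧸ IsLocalRing.maximalIdeal ℤ_[p] ^ 2

/-- The residue map. -/
noncomputable def res (p : ℕ) [Fact p.Prime] : Res (Ap p) (ZMod p) where
  pi := Ideal.Quotient.lift _ PadicInt.toZMod (by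
    intro a ha
    have h1 : a ∈ IsLocalRing.maximalIdeal ℤ_[p] := Ideal.pow_le_self (by norm_num) ha
    rwa [← PadicInt.ker_toZMod, RingHom.mem_ker] at h1)
  surj := by
    apply Ideal.Quotient.lift_surjective_of_surjective
    exact ZMod.ringHom_surjective _
  u := Ideal.Quotient.mk _ (p : ℤ_[p])
  ker := by
    intro a
    obtain ⟨x, rfl⟩ := Ideal.Quotient.mk_surjective a
    rw [Ideal.Quotient.lift_mk]
    constructor
    · intro h
      rw [← RingHom.mem_ker, PadicInt.ker_toZMod, PadicInt.maximalIdeal_eq_span_p,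
        Ideal.mem_span_singleton] at h
      obtain ⟨y, rfl⟩ := h
      exact ⟨Ideal.Quotient.mk _ y, by rw [← map_mul]⟩
    · rintro ⟨b, hb⟩
      obtain ⟨y, rfl⟩ := Ideal.Quotient.mk_surjective b
      rw [← map_mul, Ideal.Quotient.eq] at hb
      have h1 := Ideal.pow_le_self (I := IsLocalRing.maximalIdeal ℤ_[p]) (n := 2) (by norm_num) hb
      have h2 : (p : ℤ_[p]) * y ∈ IsLocalRing.maximalIdeal ℤ_[p] := by
        rw [PadicInt.maximalIdeal_eq_span_p]
        exact Ideal.mul_mem_right _ _ (Ideal.mem_span_singleton_self _)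
      have h3 := Ideal.add_mem _ h1 h2
      rw [sub_add_cancel] at h3
      rwa [← PadicInt.ker_toZMod, RingHom.mem_ker] at h3
  sq := by
    rw [← map_mul, Ideal.Quotient.eq_zero_iff_mem, ← pow_two]
    apply Ideal.pow_mem_pow
    rw [PadicInt.maximalIdeal_eq_span_p]
    exact Ideal.mem_span_singleton_self _

lemma res_u_ne (p : ℕ) [Fact p.Prime] : (res p).u ≠ 0 := by
  intro h
  have h1 : (p : ℤ_[p]) ∈ IsLocalRing.maximalIdeal ℤ_[p] ^ 2 := Ideal.Quotient.eq_zero_iff_mem.1 h
  rw [PadicInt.maximalIdeal_eq_span_p, Ideal.span_singleton_pow, Ideal.mem_span_singleton] at h1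
  obtain ⟨y, hy⟩ := h1
  have hp : (p : ℤ_[p]) ≠ 0 := by exact_mod_cast (Fact.out : p.Prime).ne_zero
  have h2 : (p : ℤ_[p]) * (1 - p * y) = 0 := by linear_combination hy
  have h3 : (p : ℤ_[p]) * y = 1 := by
    rcases mul_eq_zero.1 h2 with h | h
    · exact absurd h hp
    · linear_combination -h
  have h4 : IsUnit (p : ℤ_[p]) := IsUnit.of_mul_eq_one _ h3
  exact PadicInt.prime_p.not_isUnit h4

lemma finite_residue (p : ℕ) [Fact p.Prime] :
    Finite (IsLocalRing.ResidueField ℤ_[p]) :=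
  Finite.of_equiv _ (PadicInt.residueField (p := p)).symm.toEquiv

lemma card_residue (p : ℕ) [Fact p.Prime] :
    Nat.card (IsLocalRing.ResidueField ℤ_[p]) = p := by
  rw [Nat.card_congr (PadicInt.residueField (p := p)).toEquiv, Nat.card_zmod]

lemma finite_Ap (p : ℕ) [Fact p.Prime] : Finite (Ap p) := by
  have : Finite (ℤ_[p] ⧸ IsLocalRing.maximalIdeal ℤ_[p]) := finite_residue p
  exact Ideal.finite_quotient_pow (IsNoetherian.noetherian _) 2

/-- the generic polynomial -/
noncomputable def gen : Polynomial ℤ :=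
  Polynomial.X ^ 3 * (Polynomial.X + 1) * (Polynomial.X ^ 2 + Polynomial.X + 1)

lemma eval_gen (x : ℤ) : gen.eval x = x ^ 3 * (x + 1) * (x ^ 2 + x + 1) := by
  simp [gen]

/-- The negation of the preceding statement: For all N,r ≥ 2 there is a finite set of integer polynomials of degree ≤ C(N,2)·r whose values at q are exactly the dimensions of irreducible complex reps of GL_N(o/p^r) nontrivial on the level-(r−1) kernel, for every compact DVR o. -/
theorem result :
    ¬ (∀ N r : ℕ, 2 ≤ N → 2 ≤ r →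
    ∃ P : Finset (Polynomial ℤ), (∀ d ∈ P, d.natDegree ≤ N.choose 2 * r) ∧
    ∀ (R : Type) [CommRing R] [IsDomain R] [IsDiscreteValuationRing R]
      [Finite (IsLocalRing.ResidueField R)]
      [IsAdicComplete (IsLocalRing.maximalIdeal R) R],
    {z : ℤ | ∃ (V : Type) (_ : AddCommGroup V) (_ : Module ℂ V)
        (ρ : Representation ℂ
          (Matrix.GeneralLinearGroup (Fin N) (R ⧸ IsLocalRing.maximalIdeal R ^ r)) V),
        FiniteDimensional ℂ V ∧ Nontrivial V ∧
        (∀ W : Submodule ℂ V, (∀ g v, v ∈ W → ρ g v ∈ W) → W = ⊥ ∨ W = ⊤) ∧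
        (∃ g : Matrix.GeneralLinearGroup (Fin N) (R ⧸ IsLocalRing.maximalIdeal R ^ r),
          (∀ i j, ∃ a ∈ IsLocalRing.maximalIdeal R ^ (r - 1),
            g.val i j
              - (1 : Matrix (Fin N) (Fin N) (R ⧸ IsLocalRing.maximalIdeal R ^ r)) i j
              = Ideal.Quotient.mk (IsLocalRing.maximalIdeal R ^ r) a) ∧ ρ g ≠ 1) ∧
        (Module.finrank ℂ V : ℤ) = z}
    = (fun d : Polynomial ℤ => d.eval (Nat.card (IsLocalRing.ResidueField R) : ℤ)) ''
        (P : Set (Polynomial ℤ))) := by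
  intro hall
  obtain ⟨P, -, hP⟩ := hall 3 2 (by norm_num) (by norm_num)
  -- the generic dimension occurs for all odd primes
  have hodd : ∀ p : ℕ, p.Prime → 3 ≤ p → ∃ d ∈ P, d.eval (p : ℤ) = gen.eval (p : ℤ) := by
    intro p hp hp3
    have hfact : Fact p.Prime := ⟨hp⟩
    have hfin := finite_residue p
    have hfinA := finite_Ap p
    have h2 : (2 : ZMod p) ≠ 0 := by
      intro h
      have h' : ((2 : ℕ) : ZMod p) = 0 := by exact_mod_cast h
      rw [ZMod.natCast_eq_zero_iff] at h'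
      have := Nat.le_of_dvd (by norm_num) h'
      omega
    obtain ⟨V, i1, i2, ρ, hfd, hnt, hirr, ⟨x, hx⟩, hdim⟩ :=
      exists_generic (res p) h2 (res_u_ne p) p (Nat.card_zmod p)
    have hmem := hP ℤ_[p]
    have hz : (gen.eval (p : ℤ)) ∈ (fun d : Polynomial ℤ =>
        d.eval (Nat.card (IsLocalRing.ResidueField ℤ_[p]) : ℤ)) '' (P : Set (Polynomial ℤ)) := by
      rw [← hmem]
      refine ⟨V, i1, i2, ρ, hfd, hnt, hirr, ⟨kap (res p) x, ?_, hx⟩, ?_⟩
      · intro i j
        obtain ⟨y, hy⟩ := Ideal.Quotient.mk_surjective (x i j)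
        refine ⟨(p : ℤ_[p]) * y, ?_, ?_⟩
        · rw [show (2 - 1 : ℕ) = 1 from rfl, pow_one, PadicInt.maximalIdeal_eq_span_p]
          exact Ideal.mul_mem_right _ _ (Ideal.mem_span_singleton_self _)
        · change (1 + (res p).u • x) i j - _ = _
          rw [Matrix.add_apply, Matrix.smul_apply, add_sub_cancel_left, smul_eq_mul, map_mul, hy]
          rfl
      · rw [hdim, eval_gen]
        push_cast
        ring
    obtain ⟨d, hd, he⟩ := hz
    refine ⟨d, hd, ?_⟩
    simp only [card_residue] at he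
    exact he
  -- pigeonhole
  have hgen : gen ∈ P := by
    by_contra hnot
    have hfinite : ∀ d ∈ P, {x : ℤ | d.eval x = gen.eval x}.Finite := by
      intro d hd
      by_contra hinf
      have := Polynomial.eq_of_infinite_eval_eq d gen hinf
      exact hnot (this ▸ hd)
    have hU : (⋃ d ∈ P, {x : ℤ | d.eval x = gen.eval x}).Finite :=
      Set.Finite.biUnion P.finite_toSet hfinite
    have hsub : (fun p : ℕ => (p : ℤ)) '' {p : ℕ | p.Prime ∧ 3 ≤ p} ⊆
        ⋃ d ∈ P, {x : ℤ | d.eval x = gen.eval x} := by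
      rintro _ ⟨p, ⟨hp, hp3⟩, rfl⟩
      obtain ⟨d, hd, he⟩ := hodd p hp hp3
      simp only [Set.mem_iUnion]
      exact ⟨d, hd, he⟩
    have hfin2 := hU.subset hsub
    have hfin3 : {p : ℕ | p.Prime ∧ 3 ≤ p}.Finite :=
      Set.Finite.of_finite_image hfin2 (Nat.cast_injective.injOn)
    obtain ⟨n, hn⟩ := hfin3.bddAbove
    obtain ⟨p, hp, hpp⟩ := Nat.exists_infinite_primes (n + 3)
    have := hn (show p ∈ {p : ℕ | p.Prime ∧ 3 ≤ p} from ⟨hpp, by omega⟩)
    omega
  -- contradiction at `2`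
  have hfin := finite_residue 2
  have hfinA := finite_Ap 2
  have hmem := hP ℤ_[2]
  have hz : (168 : ℤ) ∈ (fun d : Polynomial ℤ =>
      d.eval (Nat.card (IsLocalRing.ResidueField ℤ_[2]) : ℤ)) '' (P : Set (Polynomial ℤ)) := by
    refine ⟨gen, hgen, ?_⟩
    simp only [card_residue]
    rw [eval_gen]
    norm_num
  rw [← hmem] at hz
  obtain ⟨V, i1, i2, ρ, hfd, hnt, hirr, -, hdim⟩ := hz
  have hle := Q1.GLTwo.finrank_le ρ (res 2) hirr
  omega

end Pool.Agent.S02070
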