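import Pool.Statements.S02286
-- import your own Pool.Agent.* helpers here

set_option autoImplicit false
open Pool Pool.MP_91b10e_al

namespace Pool.Agent.S02286

/-- The group: the full product of countably many copies of the symmetric group on three letters. -/
abbrev Gp : Type := ℕ → Equiv.Perm (Fin 3)

/-- Evaluation of a word with constants is a homomorphism in the word. -/
noncomputable def ev (x : Gp) : Monoid.Coprod Gp (Multiplicative ℤ) →* Gp :=
  Monoid.Coprod.lift (MonoidHom.id Gp) (zpowersHom Gp x)

/-- The transposition placed at one coordinate. -/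
def tau : Equiv.Perm (Fin 3) := Equiv.swap 0 1

/-- The three cycle. -/
def cyc : Equiv.Perm (Fin 3) := Equiv.swap 0 1 * Equiv.swap 1 2

def g (i : ℕ) : Gp := Function.update 1 i tau
def h (i : ℕ) : Gp := Function.update 1 i cyc

lemma tau_cyc : tau * cyc * tau⁻¹ * cyc⁻¹ ≠ 1 := by decide

/-- The word giving the commutator of a constant with the variable. -/
noncomputable def cw (a : Gp) : Monoid.Coprod Gp (Multiplicative ℤ) :=
  Monoid.Coprod.inl a * Monoid.Coprod.inr (Multiplicative.ofAdd 1) *
    Monoid.Coprod.inl a⁻¹ * Monoid.Coprod.inr (Multiplicative.ofAdd (-1))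

lemma ev_cw (a x : Gp) : ev x (cw a) = a * x * a⁻¹ * x⁻¹ := by
  simp [ev, cw, zpowersHom]

lemma ev_continuous :
    letI : TopologicalSpace (Equiv.Perm (Fin 3)) := ⊥
    ∀ w : Monoid.Coprod Gp (Multiplicative ℤ), Continuous (fun x : Gp => ev x w) := by
  let _ : TopologicalSpace (Equiv.Perm (Fin 3)) := ⊥
  have : DiscreteTopology (Equiv.Perm (Fin 3)) := ⟨rfl⟩
  have : IsTopologicalGroup (Equiv.Perm (Fin 3)) := by
    refine { continuous_mul := continuous_of_discreteTopology, continuous_inv := continuous_of_discreteTopology }
  intro w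
  induction w using Monoid.Coprod.induction_on with
  | inl m =>
      have : (fun x : Gp => ev x (Monoid.Coprod.inl m)) = fun _ => m := by
        funext x; simp [ev]
      rw [this]; exact continuous_const
  | inr n =>
      have : (fun x : Gp => ev x (Monoid.Coprod.inr n)) = fun x => x ^ (Multiplicative.toAdd n) := by
        funext x; simp [ev, zpowersHom]
      rw [this]; exact continuous_zpow _
  | mul a b ha hb =>
      have : (fun x : Gp => ev x (a * b)) = fun x => ev x a * ev x b := by
        funext x; simp
      rw [this]; exact ha.mul hb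

/-- The family of basic open sets. -/
def basicOpens : Set (Set Gp) :=
  {U : Set Gp | ∃ w : Monoid.Coprod Gp (Multiplicative ℤ),
    U = {x : Gp | Monoid.Coprod.lift (MonoidHom.id Gp) (zpowersHom Gp x) w ≠ 1}}

lemma zariski_compact :
    @IsCompact Gp (TopologicalSpace.generateFrom basicOpens) Set.univ := by
  let _ : TopologicalSpace (Equiv.Perm (Fin 3)) := ⊥
  have : DiscreteTopology (Equiv.Perm (Fin 3)) := ⟨rfl⟩
  have : CompactSpace (Equiv.Perm (Fin 3)) := Finite.compactSpace
  have h1 : IsCompact (Set.univ : Set Gp) := isCompact_univ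
  have h2 : @Continuous Gp Gp inferInstance (TopologicalSpace.generateFrom basicOpens) id := by
    refine continuous_generateFrom_iff.2 ?_
    rintro U ⟨w, rfl⟩
    have h3 := ev_continuous w
    have h4 : IsOpen {y : Gp | y ≠ 1} := isOpen_ne
    exact h4.preimage h3
  have h5 := @IsCompact.image Gp Gp inferInstance (TopologicalSpace.generateFrom basicOpens)
    Set.univ id h1 h2
  simpa using h5

/-- The negation of the preceding statement: For every group G, if the Zariski topology (closed subbasis: solution sets of one-variable equations with constants from G) is compact, then it is Noetherian. -/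
theorem result :
    ¬ (∀ (G : Type) [Group G],
      @IsCompact G
        (TopologicalSpace.generateFrom
          {U : Set G | ∃ w : Monoid.Coprod G (Multiplicative ℤ),
            U = {x : G | Monoid.Coprod.lift (MonoidHom.id G) (zpowersHom G x) w ≠ 1}})
        Set.univ →
      @TopologicalSpace.NoetherianSpace G
        (TopologicalSpace.generateFrom
          {U : Set G | ∃ w : Monoid.Coprod G (Multiplicative ℤ),
            U = {x : G | Monoid.Coprod.lift (MonoidHom.id G) (zpowersHom G x) w ≠ 1}})) := by
  intro H
  have key := H Gp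
  clear H
  set Z : TopologicalSpace Gp := TopologicalSpace.generateFrom
          {U : Set Gp | ∃ w : Monoid.Coprod Gp (Multiplicative ℤ),
            U = {x : Gp | Monoid.Coprod.lift (MonoidHom.id Gp) (zpowersHom Gp x) w ≠ 1}} with hZ
  have hcomp : @IsCompact Gp Z Set.univ := zariski_compact
  have hN := key hcomp
  -- the union of an ascending chain of open sets that is not compact
  let O : ℕ → Set Gp := fun n => {x : Gp | ∃ i < n, ev x (cw (g i)) ≠ 1}
  have hO : ∀ n, @IsOpen Gp Z (O n) := by
    intro n
    have : O n = ⋃ i ∈ Finset.range n, {x : Gp | ev x (cw (g i)) ≠ 1} := by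
      ext x; simp [O]
    rw [this]
    refine @isOpen_biUnion Gp _ Z _ _ ?_
    intro i _
    exact TopologicalSpace.isOpen_generateFrom_of_mem ⟨cw (g i), rfl⟩
  have hmono : Monotone O := by
    intro m n hmn x hx
    obtain ⟨i, hi, hx⟩ := hx
    exact ⟨i, lt_of_lt_of_le hi hmn, hx⟩
  have hc : @IsCompact Gp Z (⋃ n, O n) := @TopologicalSpace.NoetherianSpace.isCompact Gp Z hN _
  obtain ⟨n, hn⟩ := @IsCompact.elim_directed_cover Gp Z _ ℕ _ hc O hO subset_rfl
    (hmono.directed_le)
  have hmem : h n ∈ O (n + 1) := by
    refine ⟨n, Nat.lt_succ_self n, ?_⟩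
    rw [ev_cw]
    intro hh
    have := congrFun hh n
    simp [g, h] at this
    exact tau_cyc this
  have hmem2 : h n ∈ O n := hn (Set.mem_iUnion.2 ⟨n + 1, hmem⟩)
  obtain ⟨i, hi, hx⟩ := hmem2
  apply hx
  rw [ev_cw]
  funext k
  by_cases hk : k = n
  · subst hk
    have : k ≠ i := by omega
    simp [g, h, Function.update_of_ne this]
  · simp [g, h, Function.update_of_ne hk]

end Pool.Agent.S02286
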