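import Pool.Statements.S02494
import Pool.Agent.Q34.UrD

set_option autoImplicit false
open Pool Pool.MP_9ea0f9_al

namespace Pool.Agent.S02494

/-- The negation of the preceding statement: Every von Neumann regular ring whose surjective ring-homomorphic images are all directly finite (xy=1 implies yx=1) is unit-regular: each a has a unit u with a u a = a. -/
theorem result :
    ¬ (∀ (R : Type) [Ring R],
      (∀ a : R, ∃ x : R, a * x * a = a) →
      (∀ (S : Type) [Ring S] (f : R →+* S), Function.Surjective f →
        ∀ x y : S, x * y = 1 → y * x = 1) →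
      ∀ a : R, ∃ u : Rˣ, a * (u : R) * a = a) := by
  intro h
  have : Fact (Nat.Prime 2) := ⟨Nat.prime_two⟩
  let d := Q34.UR.dat (ZMod 2)
  obtain ⟨u, hu⟩ := h d.RR d.RR_regular
    (fun S _ f hf x y hxy => d.RR_images S f hf x y hxy)
    (d.el 0 (d.DD 0 d.t) (Q34.UR.Dat.Mem.dd d 0 d.t))
  exact d.RR_not u hu

end Pool.Agent.S02494
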