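import Pool.Statements.S02523
-- import your own Pool.Agent.* helpers here
import Pool.Agent.Q32.LR2.Fin

set_option autoImplicit false
open Pool Pool.MP_a112e0_al

namespace Pool.Agent.S02523

/-- In every group having a free subgroup of finite index, each finitely generated subgroup H lies in some finite-index subgroup K that admits a homomorphism onto H fixing H pointwise (a retraction). -/
theorem result :
    ∀ (G : Type) [Group G],
      (∃ F : Subgroup G, F.FiniteIndex ∧ IsFreeGroup F) →
      ∀ H : Subgroup G, H.FG →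
        ∃ K : Subgroup G, K.FiniteIndex ∧ H ≤ K ∧
          ∃ ρ : K →* G, (∀ k : K, ρ k ∈ H) ∧
            ∀ h : G, ∀ hk : h ∈ K, h ∈ H → ρ ⟨h, hk⟩ = h := by
  intro G _ hF H hH
  obtain ⟨F, hF1, hF2⟩ := hF
  obtain ⟨K, hK, hHK, ρ, hρ⟩ := Q32.LR2.final G F hF1 hF2 H hH
  refine ⟨K, hK, hHK, H.subtype.comp ρ, fun k => (ρ k).2, fun h hk hh => ?_⟩
  have h1 := hρ ⟨h, hh⟩
  exact congrArg Subtype.val h1

end Pool.Agent.S02523
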