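import Pool.Statements.S02538
import Pool.Agent.Q11.GapAlgebra

set_option autoImplicit false
open Pool Pool.MP_a19302_al

namespace Pool.Agent.S02538

/-- The negation of the preceding statement: Every finitely generated associative algebra over a field with polynomially bounded growth (finite GK dimension) has a nilpotent two-sided ideal containing every nilpotent two-sided ideal. -/
theorem result :
    ¬ (∀ (k : Type) [Field k] (A : Type) [Ring A] [Algebra k A],
      Algebra.FiniteType k A →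
      (∃ V : Submodule k A, FiniteDimensional k V ∧ (1 : A) ∈ V ∧
          Algebra.adjoin k (V : Set A) = ⊤ ∧
          ∃ C d : ℕ, ∀ n : ℕ, Module.finrank k ↥(V ^ n) ≤ C * (n + 1) ^ d) →
      ∃ N : TwoSidedIdeal A,
        (∃ m : ℕ, ∀ f : Fin m → A, (∀ i, f i ∈ N) → (List.ofFn f).prod = 0) ∧
        ∀ I : TwoSidedIdeal A,
          (∃ m : ℕ, ∀ f : Fin m → A, (∀ i, f i ∈ I) → (List.ofFn f).prod = 0) → I ≤ N) := by
  classical
  intro H
  let S : Set (Module.End ℚ (Q11.GapAlgebra.M ℚ)) :=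
    {Q11.GapAlgebra.opX ℚ, Q11.GapAlgebra.opY ℚ}
  let X : Algebra.adjoin ℚ S :=
    ⟨Q11.GapAlgebra.opX ℚ, Algebra.subset_adjoin (Set.mem_insert _ _)⟩
  let Y : Algebra.adjoin ℚ S :=
    ⟨Q11.GapAlgebra.opY ℚ, Algebra.subset_adjoin (Set.mem_insert_of_mem _ rfl)⟩
  have hpre : ({X, Y} : Set (Algebra.adjoin ℚ S)) = Subtype.val ⁻¹' S := by
    ext z
    simp only [Set.mem_insert_iff, Set.mem_singleton_iff, Set.mem_preimage, S, X, Y,
      Subtype.ext_iff]
  have htop : Algebra.adjoin ℚ ({X, Y} : Set (Algebra.adjoin ℚ S)) = ⊤ := by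
    rw [hpre]
    exact Algebra.adjoin_adjoin_coe_preimage
  have h1 : ∀ a b : ℕ, a ≠ b → Y * X ^ a * Y * X ^ b * Y = 0 := by
    intro a b hab
    apply Subtype.ext
    exact Q11.GapAlgebra.rel1 ℚ a b hab
  have h2 : ∀ i : ℕ, (Y * X ^ i) ^ (i + 1) * Y = 0 := by
    intro i
    apply Subtype.ext
    exact Q11.GapAlgebra.rel2 ℚ i
  have h3 : ∀ i : ℕ, (Y * X ^ i) ^ i * Y ≠ 0 := by
    intro i h
    exact Q11.GapAlgebra.nonvanish ℚ i (congrArg Subtype.val h)
  refine Q11.GapAlgebra.no_greatest htop h1 h2 h3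
    (H ℚ (Algebra.adjoin ℚ S) ⟨⟨{X, Y}, by push_cast; exact htop⟩⟩
      ⟨Submodule.span ℚ ({1, X, Y} : Set (Algebra.adjoin ℚ S)), ?_, ?_, ?_, 2, 4, ?_⟩)
  · exact Module.Finite.span_of_finite ℚ (by simp)
  · exact Submodule.subset_span (by simp)
  · rw [eq_top_iff, ← htop]
    apply Algebra.adjoin_mono
    intro z hz
    apply Submodule.subset_span
    exact Or.inr hz
  · exact Q11.GapAlgebra.growth h1

end Pool.Agent.S02538
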