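import Pool.Statements.S03052
import Pool.Agent.Q12.Heis

set_option autoImplicit false
open Pool Pool.MP_cacfbf_al

namespace Pool.Agent.S03052

open Q12.Heis

attribute [local instance 100] LieRing.ofAssociativeRing

local instance fact3 : Fact (Nat.Prime 3) := ⟨by norm_num⟩

abbrev F3 := ZMod 3
abbrev U := UniversalEnvelopingAlgebra F3 H
noncomputable abbrev io : H →ₗ⁅F3⁆ U := UniversalEnvelopingAlgebra.ι F3
abbrev rel : U → U → Prop := fun a b => ∃ x : H, a = io x ^ 3 ∧ b = io (pm x)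
abbrev A := RingQuot rel

theorem central (x y z : H) : io ⁅x, y⁆ * io z = io z * io ⁅x, y⁆ := by
  have h : ⁅⁅x, y⁆, z⁆ = 0 := by
    apply H.ext'; intro i; fin_cases i <;> simp [lie_def]
  have h2 := LieHom.map_lie io ⁅x, y⁆ z
  rw [h, map_zero, LieRing.of_associative_ring_bracket] at h2
  exact (sub_eq_zero.mp h2.symm)

theorem charU (a : U) : (3 : ℕ) • a = 0 := by
  have : ((3 : ℕ) : F3) • a = (3 : ℕ) • a := by
    rw [Nat.cast_smul_eq_nsmul]
  rw [← this]
  have h0 : ((3 : ℕ) : F3) = 0 := by decide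
  rw [h0, zero_smul]

/-- In characteristic three, if the commutator of `a` and `b` commutes with both of them,
then cubing is additive on them. -/
theorem cube_add {R : Type*} [Ring R] (h3 : ∀ a : R, (3 : ℕ) • a = 0) (a b c : R)
    (hc : a * b - b * a = c) (hca : c * a = a * c) (hcb : c * b = b * c) :
    (a + b) ^ 3 - a ^ 3 - b ^ 3 = 0 := by
  have hab : b * a = a * b - c := by rw [← hc]; noncomm_ring
  have e1 : a * b * a = a * a * b - a * c := by
    rw [mul_assoc, hab, mul_sub]; noncomm_ring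
  have e2 : b * a * a = a * a * b - (2 : ℕ) • (a * c) := by
    rw [hab, sub_mul, hca, e1]; noncomm_ring
  have e3 : b * a * b = a * b * b - b * c := by
    rw [hab, sub_mul, hcb]
  have e4 : b * b * a = a * b * b - (2 : ℕ) • (b * c) := by
    rw [mul_assoc, hab, mul_sub, ← mul_assoc, e3]; noncomm_ring
  have expand : (a + b) ^ 3 - a ^ 3 - b ^ 3
      = a * a * b + a * b * a + b * a * a + (a * b * b + b * a * b + b * b * a) := by
    noncomm_ring
  rw [expand, e1, e2, e3, e4]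
  have f1 := h3 (a * a * b)
  have f2 := h3 (a * c)
  have f3 := h3 (a * b * b)
  have f4 := h3 (b * c)
  calc _ = (3 : ℕ) • (a * a * b) - (3 : ℕ) • (a * c) + ((3 : ℕ) • (a * b * b) - (3 : ℕ) • (b * c)) := by
        noncomm_ring
    _ = 0 := by rw [f1, f2, f3, f4]; simp

theorem jac (x y : H) :
    io (pm (x + y)) - io (pm x) - io (pm y) = (io x + io y) ^ 3 - io x ^ 3 - io y ^ 3 := by
  rw [pm_add, map_add]
  have h := cube_add charU (io x) (io y) (io ⁅x, y⁆)
    (by rw [LieHom.map_lie, LieRing.of_associative_ring_bracket]) (central x y x) (central x y y)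
  rw [h]; abel

noncomputable abbrev pr : U →ₐ[F3] A := RingQuot.mkAlgHom F3 rel

def ex : H := ![1, 0, 0]
def ey : H := ![0, 1, 0]
def ez : H := ![0, 0, 1]

@[simp] theorem ex0 : ex 0 = 1 := rfl
@[simp] theorem ex1 : ex 1 = 0 := rfl
@[simp] theorem ex2 : ex 2 = 0 := rfl
@[simp] theorem ey0 : ey 0 = 0 := rfl
@[simp] theorem ey1 : ey 1 = 1 := rfl
@[simp] theorem ey2 : ey 2 = 0 := rfl
@[simp] theorem ez0 : ez 0 = 0 := rfl
@[simp] theorem ez1 : ez 1 = 0 := rfl
@[simp] theorem ez2 : ez 2 = 1 := rfl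

noncomputable def X : A := pr (io ex)
noncomputable def Y : A := pr (io ey)
noncomputable def Z : A := pr (io ez)

theorem lie_xy : ⁅ex, ey⁆ = ez := by
  apply H.ext'; intro i; fin_cases i <;> simp [lie_def]
theorem lie_zx : ⁅ez, ex⁆ = 0 := by
  apply H.ext'; intro i; fin_cases i <;> simp [lie_def]
theorem lie_zy : ⁅ez, ey⁆ = 0 := by
  apply H.ext'; intro i; fin_cases i <;> simp [lie_def]

theorem XY : X * Y = Y * X + Z := by
  have h2 := LieHom.map_lie io ex ey
  rw [lie_xy, LieRing.of_associative_ring_bracket] at h2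
  have := congrArg pr h2
  simp only [map_sub, map_mul] at this
  unfold X Y Z
  rw [this]; abel

theorem ZX : Z * X = X * Z := by
  have h2 := LieHom.map_lie io ez ex
  rw [lie_zx, map_zero, LieRing.of_associative_ring_bracket] at h2
  have := congrArg pr h2
  simp only [map_sub, map_mul, map_zero] at this
  unfold X Z
  exact (sub_eq_zero.mp this.symm)

theorem ZY : Z * Y = Y * Z := by
  have h2 := LieHom.map_lie io ez ey
  rw [lie_zy, map_zero, LieRing.of_associative_ring_bracket] at h2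
  have := congrArg pr h2
  simp only [map_sub, map_mul, map_zero] at this
  unfold Y Z
  exact (sub_eq_zero.mp this.symm)

theorem cube (v : H) : pr (io v) ^ 3 = pr (io (pm v)) := by
  rw [← map_pow]
  exact RingQuot.mkAlgHom_rel F3 ⟨v, rfl, rfl⟩

theorem X3 : X ^ 3 = 0 := by
  unfold X; rw [cube]
  have : pm ex = 0 := by apply H.ext'; intro i; fin_cases i <;> simp
  rw [this]; simp

theorem Y3 : Y ^ 3 = 0 := by
  unfold Y; rw [cube]
  have : pm ey = 0 := by apply H.ext'; intro i; fin_cases i <;> simp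
  rw [this]; simp

theorem Z3 : Z ^ 3 = Z := by
  have : pm ez = ez := by apply H.ext'; intro i; fin_cases i <;> simp
  unfold Z; rw [cube, this]

theorem charA (a : A) : (3 : ℕ) • a = 0 := by
  have : ((3 : ℕ) : F3) • a = (3 : ℕ) • a := by
    rw [Nat.cast_smul_eq_nsmul]
  rw [← this]
  have h0 : ((3 : ℕ) : F3) = 0 := by decide
  rw [h0, zero_smul]

noncomputable def E : A := - (Z ^ 2 * X ^ 2 * Y ^ 2)

theorem XE : X * E = 0 := by
  have : X * E = - (Z ^ 2 * X ^ 3 * Y ^ 2) := by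
    unfold E
    have h : X * Z ^ 2 = Z ^ 2 * X := by
      rw [pow_two, ← mul_assoc, ← ZX, mul_assoc, ← ZX, ← mul_assoc]
    calc X * -(Z ^ 2 * X ^ 2 * Y ^ 2) = - ((X * Z ^ 2) * X ^ 2 * Y ^ 2) := by noncomm_ring
      _ = - (Z ^ 2 * X ^ 3 * Y ^ 2) := by rw [h]; noncomm_ring
  rw [this, X3]; simp

theorem EY : E * Y = 0 := by
  have : E * Y = - (Z ^ 2 * X ^ 2 * Y ^ 3) := by
    unfold E; noncomm_ring
  rw [this, Y3]; simp

theorem ZE : Z * E = E * Z := by
  unfold E
  have hX : X ^ 2 * Z = Z * X ^ 2 := by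
    rw [pow_two, mul_assoc, ← ZX, ← mul_assoc, ← ZX, mul_assoc]
  have hY : Y ^ 2 * Z = Z * Y ^ 2 := by
    rw [pow_two, mul_assoc, ← ZY, ← mul_assoc, ← ZY, mul_assoc]
  calc Z * -(Z ^ 2 * X ^ 2 * Y ^ 2) = - (Z ^ 2 * (Z * X ^ 2) * Y ^ 2) := by noncomm_ring
    _ = - (Z ^ 2 * X ^ 2 * (Z * Y ^ 2)) := by rw [← hX]; noncomm_ring
    _ = -(Z ^ 2 * X ^ 2 * Y ^ 2) * Z := by rw [← hY]; noncomm_ring

theorem ZZE : Z * Z * E = E := by
  unfold E
  calc Z * Z * -(Z ^ 2 * X ^ 2 * Y ^ 2) = - (Z * Z ^ 3 * X ^ 2 * Y ^ 2) := by noncomm_ring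
    _ = -(Z ^ 2 * X ^ 2 * Y ^ 2) := by rw [Z3]; noncomm_ring

theorem Y2E : E * Y ^ 2 = 0 := by
  rw [pow_two, ← mul_assoc, EY, zero_mul]

theorem YX : Y * X = X * Y - Z := by rw [XY]; noncomm_ring

/-- `E` is an idempotent. -/
theorem EE : E * E = E := by
  have hXZ : X * Z = Z * X := ZX.symm
  have hYZ : Y * Z = Z * Y := ZY.symm
  -- `Y ^ 2 * X ^ 2 = X ^ 2 * Y ^ 2 - 4 Z X Y + 2 Z ^ 2`
  have a1 : Y * (X * X) = X * X * Y - (2 : ℕ) • (X * Z) := by
    calc Y * (X * X) = (Y * X) * X := by noncomm_ring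
      _ = (X * Y - Z) * X := by rw [YX]
      _ = X * (Y * X) - Z * X := by noncomm_ring
      _ = X * (X * Y - Z) - X * Z := by rw [YX, ZX]
      _ = X * X * Y - (2 : ℕ) • (X * Z) := by noncomm_ring
  have a2 : E * X = - (Z ^ 2 * X ^ 2 * (Y ^ 2 * X)) := by unfold E; noncomm_ring
  have a3 : Y ^ 2 * X = X * Y ^ 2 - (2 : ℕ) • (Z * Y) := by
    calc Y ^ 2 * X = Y * (Y * X) := by noncomm_ring
      _ = Y * (X * Y - Z) := by rw [YX]
      _ = (Y * X) * Y - Y * Z := by noncomm_ring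
      _ = (X * Y - Z) * Y - Z * Y := by rw [YX, hYZ]
      _ = X * Y ^ 2 - (2 : ℕ) • (Z * Y) := by noncomm_ring
  have a4 : E * X = (2 : ℕ) • (Z ^ 2 * X ^ 2 * Z * Y) := by
    rw [a2, a3]
    calc -(Z ^ 2 * X ^ 2 * (X * Y ^ 2 - 2 • (Z * Y)))
        = - (Z ^ 2 * X ^ 3 * Y ^ 2) + (2 : ℕ) • (Z ^ 2 * X ^ 2 * Z * Y) := by noncomm_ring
      _ = _ := by rw [X3]; simp
  have a5 : E * X * X = (2 : ℕ) • (Z ^ 2 * X ^ 2 * Z * (Y * X)) := by
    rw [a4]; noncomm_ring
  have hX2Z : X ^ 2 * Z = Z * X ^ 2 := by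
    rw [pow_two, mul_assoc, ← ZX, ← mul_assoc, ← ZX, mul_assoc]
  have a6 : E * X * X = - ((2 : ℕ) • (Z ^ 2 * X ^ 2 * (Z * Z))) := by
    rw [a5, YX]
    have b1 : Z ^ 2 * X ^ 2 * Z * (X * Y) = 0 := by
      calc Z ^ 2 * X ^ 2 * Z * (X * Y) = Z ^ 2 * X ^ 2 * (Z * X) * Y := by noncomm_ring
        _ = Z ^ 2 * X ^ 3 * Z * Y := by rw [ZX]; noncomm_ring
        _ = 0 := by rw [X3]; simp
    calc (2 : ℕ) • (Z ^ 2 * X ^ 2 * Z * (X * Y - Z))
        = (2 : ℕ) • (Z ^ 2 * X ^ 2 * Z * (X * Y)) - (2 : ℕ) • (Z ^ 2 * X ^ 2 * (Z * Z)) := by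
          noncomm_ring
      _ = _ := by rw [b1]; simp
  have hZ2 : Z * Z * (Z * Z) = Z * Z := by
    calc Z * Z * (Z * Z) = Z * Z ^ 3 := by noncomm_ring
      _ = Z * Z := by rw [Z3]
  have a7 : E * E = E * E := rfl
  have c1 : E * Z ^ 2 = E := by
    calc E * Z ^ 2 = (E * Z) * Z := by noncomm_ring
      _ = Z * (E * Z) := by rw [← ZE]; rw [mul_assoc, ZE]
      _ = Z * Z * E := by rw [← ZE]; noncomm_ring
      _ = E := ZZE
  calc E * E = - ((E * Z ^ 2) * X * X * Y ^ 2) := by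
        conv_lhs => rw [show E * E = E * (- (Z ^ 2 * X ^ 2 * Y ^ 2)) from rfl]
        noncomm_ring
    _ = - ((E * X * X) * Y ^ 2) := by rw [c1]
    _ = (2 : ℕ) • (Z ^ 2 * X ^ 2 * (Z * Z) * Y ^ 2) := by rw [a6]; noncomm_ring
    _ = (2 : ℕ) • (Z ^ 2 * X ^ 2 * Y ^ 2) := by
        have : Z ^ 2 * X ^ 2 * (Z * Z) = Z ^ 2 * X ^ 2 := by
          calc Z ^ 2 * X ^ 2 * (Z * Z) = Z ^ 2 * (X ^ 2 * Z) * Z := by noncomm_ring
            _ = Z ^ 2 * (Z * X ^ 2) * Z := by rw [hX2Z]
            _ = Z ^ 2 * Z * (X ^ 2 * Z) := by noncomm_ring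
            _ = Z ^ 2 * Z * (Z * X ^ 2) := by rw [hX2Z]
            _ = (Z * Z * (Z * Z)) * X ^ 2 := by noncomm_ring
            _ = (Z * Z) * X ^ 2 := by rw [hZ2]
            _ = Z ^ 2 * X ^ 2 := by noncomm_ring
        rw [this]
    _ = E := by
        unfold E
        have := charA (Z ^ 2 * X ^ 2 * Y ^ 2)
        calc (2 : ℕ) • (Z ^ 2 * X ^ 2 * Y ^ 2) = (3 : ℕ) • (Z ^ 2 * X ^ 2 * Y ^ 2) - Z ^ 2 * X ^ 2 * Y ^ 2 := by
              noncomm_ring
          _ = _ := by rw [this]; simp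

theorem EXYE : E * X * Y * E = Z * E := by
  calc E * X * Y * E = E * (X * Y) * E := by noncomm_ring
    _ = (E * Y) * X * E + E * Z * E := by rw [XY]; noncomm_ring
    _ = Z * E := by rw [EY, ← ZE, mul_assoc Z, EE]; simp


/-! ### Matrix units -/

noncomputable def m11 : A := E
noncomputable def m21 : A := Y * E
noncomputable def m12 : A := Z * E * X
noncomputable def m22 : A := Z * Y * E * X

theorem p1111 : m11 * m11 = m11 := EE
theorem p1112 : m11 * m12 = m12 := by
  unfold m11 m12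
  calc E * (Z * E * X) = (E * Z) * E * X := by noncomm_ring
    _ = Z * (E * E) * X := by rw [← ZE]; noncomm_ring
    _ = _ := by rw [EE]
theorem p1121 : m11 * m21 = 0 := by
  unfold m11 m21; rw [← mul_assoc, EY, zero_mul]
theorem p1122 : m11 * m22 = 0 := by
  unfold m11 m22
  calc E * (Z * Y * E * X) = (E * Z) * Y * E * X := by noncomm_ring
    _ = Z * (E * Y) * E * X := by rw [← ZE]; noncomm_ring
    _ = 0 := by rw [EY]; simp
theorem p1211 : m12 * m11 = 0 := by
  unfold m11 m12; rw [mul_assoc, XE, mul_zero]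
theorem p1212 : m12 * m12 = 0 := by
  unfold m12
  calc Z * E * X * (Z * E * X) = Z * E * (X * Z) * E * X := by noncomm_ring
    _ = Z * E * Z * (X * E) * X := by rw [← ZX]; noncomm_ring
    _ = 0 := by rw [XE]; simp
theorem p1221 : m12 * m21 = m11 := by
  unfold m12 m21 m11
  calc Z * E * X * (Y * E) = Z * (E * X * Y * E) := by noncomm_ring
    _ = Z * (Z * E) := by rw [EXYE]
    _ = E := by rw [← mul_assoc, ZZE]
theorem p1222 : m12 * m22 = m12 := by
  unfold m12 m22
  calc Z * E * X * (Z * Y * E * X) = Z * E * (X * Z) * Y * E * X := by noncomm_ring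
    _ = Z * (E * Z) * X * Y * E * X := by rw [← ZX]; noncomm_ring
    _ = Z * Z * (E * X * Y * E) * X := by rw [← ZE]; noncomm_ring
    _ = Z * (Z * Z * E) * X := by rw [EXYE]; noncomm_ring
    _ = Z * E * X := by rw [ZZE]
theorem p2111 : m21 * m11 = m21 := by
  unfold m21 m11; rw [mul_assoc, EE]
theorem p2112 : m21 * m12 = m22 := by
  unfold m21 m12 m22
  calc Y * E * (Z * E * X) = Y * (E * Z) * E * X := by noncomm_ring
    _ = (Y * Z) * (E * E) * X := by rw [← ZE]; noncomm_ring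
    _ = Z * Y * E * X := by rw [← ZY, EE]
theorem p2121 : m21 * m21 = 0 := by
  unfold m21
  calc Y * E * (Y * E) = Y * (E * Y) * E := by noncomm_ring
    _ = 0 := by rw [EY]; simp
theorem p2122 : m21 * m22 = 0 := by
  unfold m21 m22
  calc Y * E * (Z * Y * E * X) = Y * (E * Z) * Y * E * X := by noncomm_ring
    _ = Y * Z * (E * Y) * E * X := by rw [← ZE]; noncomm_ring
    _ = 0 := by rw [EY]; simp
theorem p2211 : m22 * m11 = 0 := by
  unfold m22 m11; rw [mul_assoc, XE, mul_zero]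
theorem p2212 : m22 * m12 = 0 := by
  unfold m22 m12
  calc Z * Y * E * X * (Z * E * X) = Z * Y * E * (X * Z) * E * X := by noncomm_ring
    _ = Z * Y * E * Z * (X * E) * X := by rw [← ZX]; noncomm_ring
    _ = 0 := by rw [XE]; simp
theorem p2221 : m22 * m21 = m21 := by
  unfold m22 m21
  calc Z * Y * E * X * (Y * E) = Z * Y * (E * X * Y * E) := by noncomm_ring
    _ = (Z * Y) * (Z * E) := by rw [EXYE]
    _ = Y * (Z * Z * E) := by rw [ZY]; noncomm_ring
    _ = Y * E := by rw [ZZE]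
theorem p2222 : m22 * m22 = m22 := by
  unfold m22
  calc Z * Y * E * X * (Z * Y * E * X) = Z * Y * E * (X * Z) * Y * E * X := by noncomm_ring
    _ = Z * Y * (E * Z) * X * Y * E * X := by rw [← ZX]; noncomm_ring
    _ = Z * Y * Z * (E * X * Y * E) * X := by rw [← ZE]; noncomm_ring
    _ = Z * Y * (Z * Z * E) * X := by rw [EXYE]; noncomm_ring
    _ = Z * Y * E * X := by rw [ZZE]

/-- The embedding of the algebra of two by two matrices. -/
noncomputable def emb : Matrix (Fin 2) (Fin 2) F3 →ₙₐ[F3] A where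
  toFun m := m 0 0 • m11 + m 0 1 • m12 + m 1 0 • m21 + m 1 1 • m22
  map_smul' c m := by
    simp [smul_add, smul_smul]
  map_zero' := by simp
  map_add' m n := by
    simp only [Matrix.add_apply, add_smul]; abel
  map_mul' m n := by
    simp only [Matrix.mul_apply, Fin.sum_univ_two, mul_add, add_mul, smul_mul_smul_comm,
      p1111, p1112, p1121, p1122, p1211, p1212, p1221, p1222,
      p2111, p2112, p2121, p2122, p2211, p2212, p2221, p2222, smul_zero, add_smul, add_zero,
      zero_add]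
    abel

/-! ### The representation by three by three matrices -/

def MX : Matrix (Fin 3) (Fin 3) F3 := !![0, 1, 0; 0, 0, 2; 0, 0, 0]
def MY : Matrix (Fin 3) (Fin 3) F3 := !![0, 0, 0; 1, 0, 0; 0, 1, 0]

theorem MXY : MX * MY - MY * MX = 1 := by decide

def repH (v : H) : Matrix (Fin 3) (Fin 3) F3 := v 0 • MX + v 1 • MY + v 2 • 1

theorem repH_cube : ∀ v : H, repH v ^ 3 = repH (pm v) := by decide

noncomputable def repL : H →ₗ⁅F3⁆ Matrix (Fin 3) (Fin 3) F3 where
  toFun := repH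
  map_add' x y := by simp only [repH, add_app, add_smul]; abel
  map_smul' c x := by simp only [repH, smul_app, smul_add, smul_smul, RingHom.id_apply]
  map_lie' := by
    intro x y
    rw [LieRing.of_associative_ring_bracket]
    have h : (repH x * repH y - repH y * repH x)
        = (x 0 * y 1 - x 1 * y 0) • (MX * MY - MY * MX) := by
      simp only [repH, mul_add, add_mul, smul_mul_smul_comm, mul_one, one_mul, sub_smul, smul_sub,
        mul_comm (y _) (x _)]
      abel
    rw [h, MXY]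
    simp [repH, lie_def]

noncomputable def rep : A →ₐ[F3] Matrix (Fin 3) (Fin 3) F3 :=
  RingQuot.liftAlgHom F3 ⟨UniversalEnvelopingAlgebra.lift F3 repL, by
    rintro a b ⟨x, rfl, rfl⟩
    rw [map_pow, UniversalEnvelopingAlgebra.lift_ι_apply, UniversalEnvelopingAlgebra.lift_ι_apply]
    exact repH_cube x⟩

theorem rep_pr (v : H) : rep (pr (io v)) = repH v := by
  unfold rep pr
  rw [RingQuot.liftAlgHom_mkAlgHom_apply, UniversalEnvelopingAlgebra.lift_ι_apply]
  rfl

theorem rep_X : rep X = MX := by unfold X; rw [rep_pr]; decide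
theorem rep_Y : rep Y = MY := by unfold Y; rw [rep_pr]; decide
theorem rep_Z : rep Z = 1 := by unfold Z; rw [rep_pr]; decide

theorem rep_m11 : rep m11 = !![1, 0, 0; 0, 0, 0; 0, 0, 0] := by
  unfold m11 E
  simp only [map_neg, map_mul, map_pow, rep_X, rep_Y, rep_Z]
  decide

theorem rep_m22 : rep m22 = !![0, 0, 0; 0, 1, 0; 0, 0, 0] := by
  unfold m22 E
  simp only [map_neg, map_mul, map_pow, rep_X, rep_Y, rep_Z]
  decide

/-! ### Identities of the image -/

theorem emb_pow (m : Matrix (Fin 2) (Fin 2) F3) (k : ℕ) : emb m ^ (k + 1) = emb (m ^ (k + 1)) := by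
  induction k with
  | zero => simp
  | succ k ih => rw [pow_succ, ih, ← map_mul, ← pow_succ]

set_option maxRecDepth 100000 in
theorem mat_id' : ∀ a b c d : F3, (!![a, b; c, d] : Matrix (Fin 2) (Fin 2) F3) ^ 12
    - !![a, b; c, d] ^ 10 - !![a, b; c, d] ^ 4 + !![a, b; c, d] ^ 2 = 0 := by decide

theorem mat_id (m : Matrix (Fin 2) (Fin 2) F3) : m ^ 12 - m ^ 10 - m ^ 4 + m ^ 2 = 0 := by
  have h := mat_id' (m 0 0) (m 0 1) (m 1 0) (m 1 1)
  rwa [← Matrix.eta_fin_two m] at h

theorem emb_id (m : Matrix (Fin 2) (Fin 2) F3) :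
    emb m ^ 12 - emb m ^ 10 - emb m ^ 4 + emb m ^ 2 = 0 := by
  rw [emb_pow, emb_pow, emb_pow, emb_pow, ← map_sub, ← map_sub, ← map_add, mat_id, map_zero]

noncomputable def phi : FreeAlgebra F3 (Fin 1) :=
  FreeAlgebra.ι F3 0 ^ 12 - FreeAlgebra.ι F3 0 ^ 10 - FreeAlgebra.ι F3 0 ^ 4
    + FreeAlgebra.ι F3 0 ^ 2

theorem phi_ne : phi ≠ 0 := by
  intro h
  have h2 := congrArg (FreeAlgebra.lift F3 (fun _ : Fin 1 => (Polynomial.X : Polynomial F3))) h
  simp only [phi, map_sub, map_add, map_pow, FreeAlgebra.lift_ι_apply, map_zero] at h2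
  have h3 := congrArg (fun q => Polynomial.coeff q 12) h2
  simp [Polynomial.coeff_X_pow] at h3

/-- The standard polynomial of degree four as an alternating map. -/
noncomputable def alt4 (B : Type) [Ring B] [Algebra F3 B] : B [⋀^Fin 4]→ₗ[F3] B :=
  MultilinearMap.alternatization (MultilinearMap.mkPiAlgebraFin F3 4 B)

theorem alt4_apply (B : Type) [Ring B] [Algebra F3 B] (r : Fin 4 → B) :
    alt4 B r = ∑ σ : Equiv.Perm (Fin 4),
      ((Equiv.Perm.sign σ : ℤˣ) : ℤ) • (List.ofFn fun i => r (σ i)).prod := by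
  simp only [alt4, MultilinearMap.alternatization_apply, MultilinearMap.domDomCongr_apply,
    MultilinearMap.mkPiAlgebraFin_apply, Units.smul_def]

def e4 : Fin 4 → Fin 2 × Fin 2 := ![(0, 0), (0, 1), (1, 0), (1, 1)]

theorem e4_bij : Function.Bijective e4 := by decide

set_option maxRecDepth 100000 in
theorem std4_base : ∑ σ : Equiv.Perm (Fin 4), ((Equiv.Perm.sign σ : ℤˣ) : ℤ) •
    ((Matrix.single (e4 (σ 0)).1 (e4 (σ 0)).2 1 : Matrix (Fin 2) (Fin 2) F3) *
      Matrix.single (e4 (σ 1)).1 (e4 (σ 1)).2 1 * Matrix.single (e4 (σ 2)).1 (e4 (σ 2)).2 1 *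
      Matrix.single (e4 (σ 3)).1 (e4 (σ 3)).2 1) = 0 := by
  decide

theorem prod4 (w : Fin 4 → Matrix (Fin 2) (Fin 2) F3) :
    (List.ofFn fun i => emb (w i)).prod = emb (w 0 * w 1 * w 2 * w 3) := by
  rw [map_mul, map_mul, map_mul]
  simp [List.ofFn_succ, mul_assoc]

/-- The embedding as a linear map. -/
noncomputable def embL : Matrix (Fin 2) (Fin 2) F3 →ₗ[F3] A where
  toFun := emb
  map_add' := map_add emb
  map_smul' := map_smul emb

theorem alt4_emb_zero : (alt4 A).compLinearMap embL = 0 := by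
  apply Module.Basis.ext_alternating (Matrix.stdBasis F3 (Fin 2) (Fin 2))
  intro v hv
  have hbij : Function.Bijective v := by
    rw [Fintype.bijective_iff_injective_and_card]
    exact ⟨hv, by simp⟩
  let τ : Equiv.Perm (Fin 4) :=
    (Equiv.ofBijective v hbij).trans (Equiv.ofBijective e4 e4_bij).symm
  have hτ : ∀ i, v i = e4 (τ i) := by
    intro i
    simp [τ]
    have := (Equiv.ofBijective e4 e4_bij).apply_symm_apply (v i)
    rw [Equiv.ofBijective_apply] at this
    exact this.symm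
  have key : (alt4 A).compLinearMap embL
      (fun i => Matrix.stdBasis F3 (Fin 2) (Fin 2) (e4 i)) = 0 := by
    rw [AlternatingMap.compLinearMap_apply, alt4_apply]
    have h : ∀ σ : Equiv.Perm (Fin 4),
        (List.ofFn fun i => (embL (Matrix.stdBasis F3 (Fin 2) (Fin 2) (e4 (σ i))))).prod
        = emb (Matrix.single (e4 (σ 0)).1 (e4 (σ 0)).2 1 *
      Matrix.single (e4 (σ 1)).1 (e4 (σ 1)).2 1 * Matrix.single (e4 (σ 2)).1 (e4 (σ 2)).2 1 *
      Matrix.single (e4 (σ 3)).1 (e4 (σ 3)).2 1) := by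
      intro σ
      have := prod4 (fun i => Matrix.single (e4 (σ i)).1 (e4 (σ i)).2 1)
      rw [← this]
      congr 2
      funext i
      rw [← Matrix.stdBasis_eq_single]
      rfl
    simp only [h]
    have h2 : ∀ (z : ℤ) (x : Matrix (Fin 2) (Fin 2) F3), z • emb x = emb (z • x) := by
      intro z x
      exact (map_zsmul embL z x).symm
    simp only [h2, ← map_sum]
    rw [std4_base, map_zero]
  have h3 := AlternatingMap.map_perm ((alt4 A).compLinearMap embL)
    (fun i => Matrix.stdBasis F3 (Fin 2) (Fin 2) (e4 i)) τ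
  rw [key, smul_zero] at h3
  simp only [AlternatingMap.zero_apply]
  rw [← h3]
  congr 1
  funext i
  simp [hτ]

theorem S4_zero (r : Fin 4 → A) (hr : ∀ i, r i ∈ NonUnitalAlgHom.range emb) :
    ∑ σ : Equiv.Perm (Fin 4),
      ((Equiv.Perm.sign σ : ℤˣ) : ℤ) • (List.ofFn fun i => r (σ i)).prod = 0 := by
  choose m hm using fun i => NonUnitalAlgHom.mem_range (φ := emb).mp (hr i)
  have h := DFunLike.congr_fun alt4_emb_zero m
  rw [AlternatingMap.compLinearMap_apply, alt4_apply, AlternatingMap.zero_apply] at h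
  have hm' : r = fun i => embL (m i) := by
    funext i; exact (hm i).symm
  rw [hm']
  exact h

theorem emb_single (i j : Fin 2) : emb (Matrix.single i j 1) =
    (![![m11, m12], ![m21, m22]] i j) := by
  fin_cases i <;> fin_cases j <;> simp [emb, Matrix.single]

noncomputable def D : A := m11 - m22

theorem rep_D_pow (t : ℕ) : rep D ^ t ≠ 0 := by
  have h : rep D = Matrix.diagonal ![1, -1, 0] := by
    unfold D
    rw [map_sub, rep_m11, rep_m22]
    decide
  rw [h, Matrix.diagonal_pow]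
  intro h0
  have := congrFun (congrFun h0 0) 0
  simp at this

theorem S2_val : ∑ σ : Equiv.Perm (Fin 2),
    ((Equiv.Perm.sign σ : ℤˣ) : ℤ) • (List.ofFn fun i => (![m12, m21] : Fin 2 → A) (σ i)).prod
      = D := by
  rw [show (Finset.univ : Finset (Equiv.Perm (Fin 2))) = {1, Equiv.swap 0 1} from by decide]
  rw [Finset.sum_pair (by decide)]
  simp [List.ofFn_succ, p1221, p2112, D, sub_eq_add_neg]

/-- The negation of the preceding statement: For every prime p, field F of char p, Lie p-algebra L and PI non-unital subalgebra R of u(L): if n is the least positive integer such that some power of the standard polynomial S_2n vanishes on R, then n is a power of p. -/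
theorem result :
    ¬ (∀ (p : ℕ), p.Prime → ∀ (F : Type) [Field F] [CharP F p] (L : Type) [LieRing L] [LieAlgebra F L]
    (f : L → L),
    (∀ (a : F) (x : L), f (a • x) = a ^ p • f x) →
    (∀ x y : L, (LieAlgebra.ad F L x ^ p) y = ⁅f x, y⁆) →
    (∀ x y : L,
      UniversalEnvelopingAlgebra.ι F (f (x + y)) - UniversalEnvelopingAlgebra.ι F (f x)
        - UniversalEnvelopingAlgebra.ι F (f y)
      = (UniversalEnvelopingAlgebra.ι F x + UniversalEnvelopingAlgebra.ι F y) ^ p
        - UniversalEnvelopingAlgebra.ι F x ^ p - UniversalEnvelopingAlgebra.ι F y ^ p) →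
    ∀ R : NonUnitalSubalgebra F (RingQuot (fun a b : UniversalEnvelopingAlgebra F L =>
        ∃ x : L, a = UniversalEnvelopingAlgebra.ι F x ^ p ∧ b = UniversalEnvelopingAlgebra.ι F (f x))),
    (∃ m : ℕ, ∃ φ : FreeAlgebra F (Fin m), φ ≠ 0 ∧
      ∀ r : Fin m → RingQuot (fun a b : UniversalEnvelopingAlgebra F L =>
        ∃ x : L, a = UniversalEnvelopingAlgebra.ι F x ^ p ∧ b = UniversalEnvelopingAlgebra.ι F (f x)),
        (∀ i, r i ∈ R) → FreeAlgebra.lift F r φ = 0) →
    ∀ n : ℕ, 1 ≤ n →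
      (∃ t : ℕ, 1 ≤ t ∧
        ∀ r : Fin (2 * n) → RingQuot (fun a b : UniversalEnvelopingAlgebra F L =>
          ∃ x : L, a = UniversalEnvelopingAlgebra.ι F x ^ p ∧ b = UniversalEnvelopingAlgebra.ι F (f x)),
          (∀ i, r i ∈ R) →
          (∑ σ : Equiv.Perm (Fin (2 * n)),
            ((Equiv.Perm.sign σ : ℤˣ) : ℤ) • (List.ofFn fun i => r (σ i)).prod) ^ t = 0) →
      (∀ m : ℕ, 1 ≤ m → m < n →
        ¬ ∃ t : ℕ, 1 ≤ t ∧
          ∀ r : Fin (2 * m) → RingQuot (fun a b : UniversalEnvelopingAlgebra F L =>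
            ∃ x : L, a = UniversalEnvelopingAlgebra.ι F x ^ p ∧ b = UniversalEnvelopingAlgebra.ι F (f x)),
            (∀ i, r i ∈ R) →
            (∑ σ : Equiv.Perm (Fin (2 * m)),
              ((Equiv.Perm.sign σ : ℤˣ) : ℤ) • (List.ofFn fun i => r (σ i)).prod) ^ t = 0) →
      ∃ k : ℕ, n = p ^ k) := by
  intro H0
  obtain ⟨k, hk⟩ := H0 3 (by norm_num) F3 H pm pm_smul ad_cube jac (NonUnitalAlgHom.range emb)
    ⟨1, phi, phi_ne, by
      intro r hr
      obtain ⟨m, hm⟩ := NonUnitalAlgHom.mem_range (φ := emb).mp (hr 0)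
      simp only [phi, map_sub, map_add, map_pow, FreeAlgebra.lift_ι_apply]
      rw [← hm]
      exact emb_id m⟩
    2 (by norm_num)
    ⟨1, le_refl _, fun r hr => by rw [pow_one]; exact S4_zero r hr⟩
    (by
      intro m h1 h2
      have hm : m = 1 := by omega
      subst hm
      rintro ⟨t, _, ht⟩
      have h3 := ht ![m12, m21] (by
        intro i
        fin_cases i
        · exact NonUnitalAlgHom.mem_range (φ := emb).mpr ⟨Matrix.single 0 1 1, emb_single 0 1⟩
        · exact NonUnitalAlgHom.mem_range (φ := emb).mpr ⟨Matrix.single 1 0 1, emb_single 1 0⟩)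
      have h4 : D ^ t = 0 := by
        rw [← S2_val]; exact h3
      apply rep_D_pow t
      rw [← map_pow, h4, map_zero])
  have h5 : 3 ^ k ≠ 2 := by
    rcases k with _ | k
    · norm_num
    · rw [pow_succ]; omega
  exact h5 hk.symm

end Pool.Agent.S03052
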