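import Pool.Statements.S03595
import Pool.Agent.Q86.TigC
import Pool.Agent.Q86.TigD

set_option autoImplicit false
open Pool Pool.MP_f8d790_al

namespace Pool.Agent.S03595

/-- An infinite compact Hausdorff group G has every choice of conjugates of its elements topologically generating G if and only if G has a closed, connected, abelian normal subgroup with totally disconnected (profinite) quotient. -/
theorem result :
    ∀ (G : Type) [Group G] [TopologicalSpace G] [IsTopologicalGroup G] [CompactSpace G]
      [T2Space G] [Infinite G],
      (∀ f : G → G,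
          (Subgroup.closure (Set.range (fun x : G => f x * x * (f x)⁻¹))).topologicalClosure = ⊤) ↔
        ∃ N : Subgroup G, N.Normal ∧ IsClosed (N : Set G) ∧ IsConnected (N : Set G) ∧
          (∀ a ∈ N, ∀ b ∈ N, a * b = b * a) ∧ TotallyDisconnectedSpace (G ⧸ N) := by
  intro G _ _ _ _ _ _
  constructor
  · intro hT
    refine ⟨Subgroup.connectedComponentOfOne G, ⟨fun n hn g => ?_⟩, isClosed_connectedComponent,
      isConnected_connectedComponent, ?_, Pool.Agent.Q86.Tig.totDisc⟩
    · exact Pool.Agent.Q86.Tig.conj_mem_G0 hn g
    · intro a ha b hb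
      exact Pool.Agent.Q86.Tig.comm_of_tig' hT a b ha hb
  · rintro ⟨N, hN, hcl, -, hab, htd⟩ f
    exact Pool.Agent.Q86.Tig.tig_of_ext N hN hab hcl htd f

end Pool.Agent.S03595
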