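import Pool.Statements.S03851
import Pool.Agent.Q81.Fhc1

set_option autoImplicit false
open Pool Pool.MP_115f17_an

namespace Pool.Agent.S03851

/-- Some bounded operator on a real or complex Banach space has a frequently hypercyclic vector x and a nonempty open U such that no subset of the visit set of x in U has a natural density that exists and is positive. -/
theorem result :
    ∃ (𝕜 : Type) (_ : RCLike 𝕜) (X : Type) (_ : NormedAddCommGroup X)
      (_ : NormedSpace 𝕜 X) (_ : CompleteSpace X) (T : X →L[𝕜] X) (x : X),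
      (∀ U : Set X, IsOpen U → U.Nonempty →
        ∃ δ : ℝ, 0 < δ ∧ ∀ᶠ n : ℕ in Filter.atTop,
          δ * (n : ℝ) ≤ (({k : ℕ | k < n ∧ (⇑T)^[k] x ∈ U}.ncard : ℕ) : ℝ)) ∧
      ∃ U : Set X, IsOpen U ∧ U.Nonempty ∧
        ∀ A : Set ℕ, A ⊆ {k : ℕ | (⇑T)^[k] x ∈ U} →
          ¬ ∃ d : ℝ, 0 < d ∧
            Filter.Tendsto
              (fun n : ℕ => (({k : ℕ | k < n ∧ k ∈ A}.ncard : ℕ) : ℝ) / (n : ℝ))
              Filter.atTop (nhds d) := by
  obtain ⟨x, hx0, hx⟩ := Q81.Fhc.exists_vec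
  refine ⟨ℝ, inferInstance, H342R3.FS.X ℝ 1, inferInstance, inferInstance, inferInstance,
    Q81.Fhc.T, x, ?_, ?_⟩
  · intro U hU hne
    obtain ⟨δ, hδ, N₀, h⟩ := hx U hU hne
    refine ⟨δ, hδ, ?_⟩
    rw [Filter.eventually_atTop]
    refine ⟨N₀, fun n hn => ?_⟩
    have h1 := h n hn
    have h2 : ({k : ℕ | k < n ∧ (⇑Q81.Fhc.T)^[k] x ∈ U}.ncard : ℕ) =
        Nat.card {m : ℕ // m < n ∧ m ∈ {k | (⇑Q81.Fhc.T)^[k] x ∈ U}} := rfl
    rw [h2]
    exact h1
  · refine ⟨{y | y 0 ≠ 0}, ?_, ?_, ?_⟩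
    · have hc : Continuous (fun y : H342R3.FS.X ℝ 1 => y 0) := by
        have : LipschitzWith 1 (fun y : H342R3.FS.X ℝ 1 => y 0) := by
          apply LipschitzWith.of_dist_le_mul
          intro a b
          rw [dist_eq_norm, dist_eq_norm]
          have := lp.norm_apply_le_norm (p := 1) (by simp) (a - b) 0
          simpa using this
        exact this.continuous
      exact isOpen_ne_fun hc continuous_const
    · refine ⟨lp.single 1 0 1, ?_⟩
      show (lp.single 1 0 (1 : ℝ) : H342R3.FS.X ℝ 1) 0 ≠ 0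
      rw [H342R3.FS.single_apply']
      simp
    · rintro A hA ⟨d, hd, hlim⟩
      set c : ℕ → ℝ := fun n => (({k : ℕ | k < n ∧ k ∈ A}.ncard : ℕ) : ℝ) with hc
      have hAgap : ∀ k ∈ A, k ∉ Q81.Fhc.gap := by
        intro k hk hg
        have h1 := hA hk
        have h2 : ((⇑Q81.Fhc.T)^[k] x) 0 ≠ 0 := h1
        apply h2
        rw [Q81.Fhc.it_apply, zero_add, hx0 k hg, mul_zero]
      have hcc : ∀ k : ℕ, c (2 * 4 ^ k) = c (4 ^ k) := by
        intro k
        have : {j : ℕ | j < 2 * 4 ^ k ∧ j ∈ A} = {j : ℕ | j < 4 ^ k ∧ j ∈ A} := by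
          ext j
          constructor
          · rintro ⟨h1, h2⟩
            refine ⟨?_, h2⟩
            by_contra h3
            exact hAgap j h2 ⟨k, not_lt.1 h3, h1⟩
          · rintro ⟨h1, h2⟩
            exact ⟨by omega, h2⟩
        simp only [hc, this]
      have h4 : Filter.Tendsto (fun k : ℕ => 4 ^ k) Filter.atTop Filter.atTop :=
        tendsto_pow_atTop_atTop_of_one_lt (by norm_num)
      have h5 : Filter.Tendsto (fun k : ℕ => 2 * 4 ^ k) Filter.atTop Filter.atTop :=
        h4.const_mul_atTop' (by norm_num)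
      have l1 := hlim.comp h4
      have l2 := hlim.comp h5
      have l3 : Filter.Tendsto (fun k : ℕ => (1 / 2 : ℝ) * (c (4 ^ k) / ((4 ^ k : ℕ) : ℝ)))
          Filter.atTop (nhds ((1 / 2) * d)) := l1.const_mul _
      have l4 : ((fun n : ℕ => c n / (n : ℝ)) ∘ fun k : ℕ => 2 * 4 ^ k) =
          fun k : ℕ => (1 / 2 : ℝ) * (c (4 ^ k) / ((4 ^ k : ℕ) : ℝ)) := by
        funext k
        simp only [Function.comp]
        rw [hcc k]
        have : (4 : ℝ) ^ k ≠ 0 := by positivity
        push_cast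
        field_simp
      rw [l4] at l2
      have := tendsto_nhds_unique l2 l3
      linarith

end Pool.Agent.S03851
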