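import Pool.Statements.S04009
import Pool.Agent.H535R3.JY
import Pool.Agent.Q67.PL.Compare

set_option autoImplicit false
open Filter Topology
open Pool Pool.MP_1f2107_an

namespace Pool.Agent.S04009

/-- For every ω>0, integer r≥1 and real A, no solution of φ' = −sin φ + ω(r−2) + A cos(ωt) has rotation number φ(t)/(ωt) → r; i.e. the phase-lock area L_r misses the line B = ω(r−2). -/
theorem result :
    ∀ ω : ℝ, 0 < ω → ∀ r : ℕ, 1 ≤ r → ∀ A : ℝ, ∀ φ : ℝ → ℝ,
      (∀ t : ℝ, HasDerivAt φ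
        (-Real.sin (φ t) + ω * ((r : ℝ) - 2) + A * Real.cos (ω * t)) t) →
      ¬ Tendsto (fun t : ℝ => φ t / (ω * t)) atTop (𝓝 (r : ℝ)) := by
  intro ω hω r hr A φ hφ hρ
  rcases le_or_gt r 2 with h2 | h2
  · refine Q67.PL.not_pos hω (B := ω * ((r : ℝ) - 2)) ?_ (by positivity) hφ hρ
    have h3 : (r : ℝ) ≤ 2 := by exact_mod_cast h2
    exact mul_nonpos_of_nonneg_of_nonpos hω.le (by linarith)
  · obtain ⟨n, rfl⟩ : ∃ n, r = n + 2 := ⟨r - 2, by omega⟩
    have hn : 1 ≤ n := by omega
    have h3 := H535R3.axis_main ω hω n hn A (fun τ => φ (τ / ω)) (by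
      intro τ
      have h4 : HasDerivAt (fun τ : ℝ => τ / ω) (1 / ω) τ := (hasDerivAt_id τ).div_const ω
      have h5 := (hφ (τ / ω)).comp τ h4
      refine h5.congr_deriv ?_
      have e1 : ω * (τ / ω) = τ := by field_simp
      rw [e1]
      push_cast
      ring) ((n + 2 : ℕ) : ℝ) (by
      have h4 : Tendsto (fun τ : ℝ => τ / ω) atTop atTop := tendsto_id.atTop_div_const hω
      refine (hρ.comp h4).congr ?_
      intro τ
      simp only [Function.comp]
      rw [mul_div_cancel₀ _ hω.ne'])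
    push_cast at h3
    linarith

end Pool.Agent.S04009
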