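import Pool.Statements.S04241
import Pool.Agent.Q80.UnivInt4

set_option autoImplicit false
open Pool Pool.MP_2fa38d_an

namespace Pool.Agent.S04241

/-- For every sequence of distinct points a_n tending to infinity with multiplicities p_n, contained in the zero set of a nonzero F in the class and universal interpolating, some nonzero f in the class vanishes on it with ∣f^(p_n)(a_n)∣/p_n! ≥ ε exp(-c ρ(a_n)). -/
theorem result :
  ∀ (ρ : ℂ → ℝ), ρ = (fun z : ℂ => |z.im| + Real.log (1 + ‖z‖ ^ 2)) →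
  ∀ (E : (ℂ → ℂ) → Prop),
    E = (fun f : ℂ → ℂ => Differentiable ℂ f ∧
      ∃ A > (0:ℝ), ∃ B > (0:ℝ), ∀ z : ℂ, ‖f z‖ ≤ A * Real.exp (B * ρ z)) →
  ∀ (a : ℕ → ℂ) (p : ℕ → ℕ),
    Function.Injective a →
    Filter.Tendsto (fun n => ‖a n‖) Filter.atTop Filter.atTop →
    (∀ n, 1 ≤ p n) →
    (∃ F : ℂ → ℂ, E F ∧ (∃ z, F z ≠ 0) ∧
      ∀ n, ∀ k < p n, iteratedDeriv k F (a n) = 0) →
    (∀ lam : ℕ → ℕ → ℂ,
      (∃ A > (0:ℝ), ∃ B > (0:ℝ), ∀ n, ∀ κ < p n,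
        ‖lam n κ‖ ≤ A * Real.exp (B * ρ (a n))) →
      ∃ g : ℂ → ℂ, E g ∧ ∀ n, ∀ κ < p n,
        iteratedDeriv κ g (a n) / (κ.factorial : ℂ) = lam n κ) →
    ∃ f : ℂ → ℂ, E f ∧ (∃ z, f z ≠ 0) ∧
      (∀ n, ∀ k < p n, iteratedDeriv k f (a n) = 0) ∧
      ∃ ε > (0:ℝ), ∃ c > (0:ℝ), ∀ n,
        ε * Real.exp (-(c * ρ (a n))) ≤
          ‖iteratedDeriv (p n) f (a n)‖ / ((p n).factorial : ℝ) := by
  intro ρ hρ E hE a p ha _ hp hF hU
  have hρ' : ρ = Pool.Agent.W778.UI.rho := by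
    rw [hρ]; rfl
  subst hρ'
  subst hE
  obtain ⟨F, ⟨hFd, A, hA, B, hB, hFb⟩, ⟨z0, hz0⟩, hF0⟩ := hF
  have hF0' : ∀ n, F (a n) = 0 := fun n => by
    have := hF0 n 0 (hp n)
    simpa using this
  obtain ⟨f, ⟨A', B', hA', hB', hf⟩, hf0, ε, hε, c, hc, hfc⟩ :=
    Pool.Agent.Q80.UnivInt.main a p ha hp F A B hA hB ⟨hFd, hFb⟩ z0 hz0 hF0'
      (fun lam hlam => by
        obtain ⟨g, ⟨hgd, A', hA', B', hB', hgb⟩, hg⟩ := hU lam
          ⟨1, one_pos, 1, one_pos, fun n κ hκ => (hlam n κ hκ).trans (by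
            rw [one_mul, one_mul]
            exact Real.one_le_exp (Pool.Agent.W778.UI.rho_nonneg _))⟩
        exact ⟨A', B', g, ⟨hgd, hgb⟩, hg⟩)
  refine ⟨f, ⟨hf.1, A', hA', B', hB', hf.2⟩, ?_, hf0, ε, hε, c, hc, hfc⟩
  by_contra hcon
  push Not at hcon
  have hz : f = fun _ => (0:ℂ) := funext hcon
  have h1 := hfc 0
  rw [hz] at h1
  simp only [iteratedDeriv_const, Pi.zero_apply, ite_self, norm_zero, zero_div] at h1
  have h2 : 0 < ε * Real.exp (-(c * Pool.Agent.W778.UI.rho (a 0))) := by positivity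
  linarith
end Pool.Agent.S04241
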