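import Pool.Statements.S04252
-- import your own Pool.Agent.* helpers here

set_option autoImplicit false
open Filter Topology
open Pool Pool.MP_309e42_an

namespace Pool.Agent.S04252

/-- Taylor coefficients of `sin √z / √z`. -/
noncomputable def c (n : ℕ) : ℂ := (-1) ^ n / ((2 * n + 1).factorial : ℂ)

theorem c_ne (n : ℕ) : c n ≠ 0 := by
  unfold c
  exact div_ne_zero (pow_ne_zero _ (by norm_num)) (by exact_mod_cast (Nat.factorial_pos _).ne')

theorem c_norm (n : ℕ) : ‖c n‖ = 1 / ((2 * n + 1).factorial : ℝ) := by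
  unfold c
  rw [norm_div, norm_pow, norm_neg, norm_one, one_pow]
  simp

theorem rad : (FormalMultilinearSeries.ofScalars ℂ c).radius = ⊤ := by
  refine FormalMultilinearSeries.ofScalars_radius_eq_top_of_tendsto ℂ c
    (Eventually.of_forall c_ne) ?_
  have h1 : (fun n : ℕ => ‖c n.succ‖ / ‖c n‖) = fun n : ℕ =>
      1 / (((2 * n + 3 : ℕ) : ℝ) * ((2 * n + 2 : ℕ) : ℝ)) := by
    funext n
    rw [c_norm, c_norm]
    have h2 : (2 * n.succ + 1).factorial = (2 * n + 3) * ((2 * n + 2) * (2 * n + 1).factorial) := by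
      rw [show 2 * n.succ + 1 = (2 * n + 2) + 1 by rw [Nat.succ_eq_add_one]; ring,
        Nat.factorial_succ, Nat.factorial_succ]
    have h3 : ((2 * n + 1).factorial : ℝ) ≠ 0 := by exact_mod_cast (Nat.factorial_pos _).ne'
    rw [h2]
    push_cast
    field_simp
  rw [h1]
  have h4 : Tendsto (fun n : ℕ => ((n : ℝ))) atTop atTop := tendsto_natCast_atTop_atTop
  have h5 : Tendsto (fun n : ℕ => ((2 * n + 3 : ℕ) : ℝ) * ((2 * n + 2 : ℕ) : ℝ)) atTop atTop := by
    refine tendsto_atTop_mono (fun n => ?_) h4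
    push_cast
    nlinarith [(Nat.cast_nonneg n : (0:ℝ) ≤ n)]
  refine h5.inv_tendsto_atTop.congr fun n => ?_
  rw [Pi.inv_apply, one_div]

/-- The function `sin √z / √z`. -/
noncomputable def F : ℂ → ℂ := (FormalMultilinearSeries.ofScalars ℂ c).sum

theorem F_series : HasFPowerSeriesOnBall F (FormalMultilinearSeries.ofScalars ℂ c) 0 ⊤ := by
  have h := (FormalMultilinearSeries.ofScalars ℂ c).hasFPowerSeriesOnBall (by rw [rad]; simp)
  rwa [rad] at h

theorem F_diff : Differentiable ℂ F := by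
  have h := F_series.differentiableOn
  rw [Metric.eball_top] at h
  exact differentiableOn_univ.1 h

theorem F_coeff (n : ℕ) : iteratedDeriv n F 0 ≠ 0 := by
  have h1 : AnalyticAt ℂ F 0 := F_series.analyticAt
  have h2 := h1.hasFPowerSeriesAt.eq_formalMultilinearSeries F_series.hasFPowerSeriesAt
  have h3 := FormalMultilinearSeries.ofScalars_series_injective ℂ ℂ h2
  intro h4
  have h5 := congrFun h3 n
  simp only [h4, zero_div] at h5
  exact c_ne n h5.symm

theorem F_hasSum (z : ℂ) : HasSum (fun n => c n * z ^ n) (F z) := by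
  have h := F_series.hasSum (y := z) (by simp)
  simpa [FormalMultilinearSeries.ofScalars_apply_eq, mul_comm] using h

theorem F_sq (w : ℂ) : F (w ^ 2) * w = Complex.sin w := by
  have h1 := (F_hasSum (w ^ 2)).mul_right w
  have h2 := Complex.hasSum_sin w
  have h3 : (fun n : ℕ => c n * (w ^ 2) ^ n * w) =
      fun n : ℕ => (-1) ^ n * w ^ (2 * n + 1) / ((2 * n + 1).factorial : ℂ) := by
    funext n
    unfold c
    rw [← pow_mul, pow_succ]
    ring
  rw [h3] at h1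
  exact h1.unique h2

theorem sin_bound (w : ℂ) : ‖Complex.sin w‖ ≤ Real.exp ‖w‖ := by
  have h1 : Complex.sin w = (Complex.exp (-w * Complex.I) - Complex.exp (w * Complex.I)) *
    Complex.I / 2 := rfl
  have h2 : ∀ u : ℂ, ‖u‖ = ‖w‖ → ‖Complex.exp u‖ ≤ Real.exp ‖w‖ := by
    intro u hu
    rw [Complex.norm_exp, ← hu]
    exact Real.exp_le_exp.2 (Complex.re_le_norm u)
  have h3 := h2 (-w * Complex.I) (by simp)
  have h4 := h2 (w * Complex.I) (by simp)
  have h5 := norm_sub_le (Complex.exp (-w * Complex.I)) (Complex.exp (w * Complex.I))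
  rw [h1, norm_div, norm_mul, Complex.norm_I, mul_one]
  have h6 : ‖(2 : ℂ)‖ = 2 := by simp
  rw [h6]
  linarith

theorem F_bound {z : ℂ} (hz : 1 ≤ ‖z‖) : ‖F z‖ ≤ Real.exp (√‖z‖) := by
  obtain ⟨w, hw⟩ := IsAlgClosed.exists_pow_nat_eq z (n := 2) two_pos
  have h1 : ‖w‖ ^ 2 = ‖z‖ := by rw [← norm_pow, hw]
  have h2 : ‖w‖ = √‖z‖ := by rw [← h1, Real.sqrt_sq (norm_nonneg w)]
  have h3 : 1 ≤ ‖w‖ := by
    rw [h2]
    exact Real.one_le_sqrt.2 hz
  have h4 := F_sq w
  rw [hw] at h4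
  have h5 : ‖F z‖ * ‖w‖ ≤ Real.exp ‖w‖ := by
    rw [← norm_mul, h4]
    exact sin_bound w
  rw [← h2]
  have h6 := norm_nonneg (F z)
  nlinarith

theorem F_real {t : ℝ} (ht : t ≠ 0) : F ((t : ℂ) ^ 2) = ((Real.sin t / t : ℝ) : ℂ) := by
  have h1 := F_sq (t : ℂ)
  have h2 : (t : ℂ) ≠ 0 := by exact_mod_cast ht
  push_cast
  rw [eq_div_iff h2, h1]

/-- The negation of the preceding statement: Every non-constant entire f of finite order ρ whose exponent set (nonzero Taylor coefficients) has maximal Pólya density Δ with ρΔ<1 has no finite asymptotic value along any curve tending to infinity. -/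
theorem result :
    ¬ (∀ f : ℂ → ℂ, Differentiable ℂ f → (∃ z w : ℂ, f z ≠ f w) →
    ∀ ρ Δ : ℝ,
      (∀ ε : ℝ, 0 < ε → ∀ᶠ r : ℝ in atTop, ∀ z : ℂ, ‖z‖ = r →
          ‖f z‖ ≤ Real.exp (r ^ (ρ + ε))) →
      Tendsto (fun ξ : ℝ => Filter.limsup (fun t : ℝ =>
          (((Nat.card {n : ℕ // iteratedDeriv n f 0 ≠ 0 ∧ (n : ℝ) ≤ t} : ℕ) : ℝ) -
            ((Nat.card {n : ℕ // iteratedDeriv n f 0 ≠ 0 ∧ (n : ℝ) ≤ ξ * t} : ℕ) : ℝ)) /
            ((1 - ξ) * t)) atTop)
        (𝓝[<] (1 : ℝ)) (𝓝 Δ) →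
      ρ * Δ < 1 →
      ¬ ∃ a : ℂ, ∃ γ : ℝ → ℂ, Continuous γ ∧
          Tendsto (fun t : ℝ => ‖γ t‖) atTop atTop ∧
          Tendsto (fun t : ℝ => f (γ t)) atTop (𝓝 a)) := by
  intro H
  refine H F F_diff ⟨0, (Real.pi : ℂ) ^ 2, ?_⟩ (1/2) 1 ?_ ?_ (by norm_num)
    ⟨0, fun t => (t : ℂ) ^ 2, by fun_prop, ?_, ?_⟩
  · have h1 : F 0 = 1 := by
      have h := F_hasSum 0
      have h2 : HasSum (fun n : ℕ => c n * (0 : ℂ) ^ n) (c 0 * 0 ^ 0) :=
        hasSum_single 0 fun n hn => by rw [zero_pow hn, mul_zero]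
      rw [h.unique h2]
      simp [c]
    rw [h1, F_real Real.pi_ne_zero, Real.sin_pi, zero_div, Complex.ofReal_zero]
    exact one_ne_zero
  · intro ε hε
    filter_upwards [eventually_ge_atTop 1] with r hr z hz
    refine (F_bound (by rw [hz]; exact hr)).trans (Real.exp_le_exp.2 ?_)
    rw [hz, Real.sqrt_eq_rpow]
    exact Real.rpow_le_rpow_of_exponent_le hr (by linarith)
  · have hcard : ∀ t : ℝ, 0 ≤ t →
        (Nat.card {n : ℕ // iteratedDeriv n F 0 ≠ 0 ∧ (n : ℝ) ≤ t} : ℝ) = ⌊t⌋₊ + 1 := by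
      intro t ht
      have h1 : {n : ℕ | iteratedDeriv n F 0 ≠ 0 ∧ (n : ℝ) ≤ t} = ↑(Finset.range (⌊t⌋₊ + 1)) := by
        ext n
        simp only [Set.mem_ofPred_eq, Finset.coe_range, Set.mem_Iio, Nat.lt_succ_iff]
        rw [Nat.le_floor_iff ht]
        exact ⟨fun h => h.2, fun h => ⟨F_coeff n, h⟩⟩
      have h2 : Nat.card {n : ℕ // iteratedDeriv n F 0 ≠ 0 ∧ (n : ℝ) ≤ t} = ⌊t⌋₊ + 1 := by
        have h3 : Nat.card {n : ℕ // iteratedDeriv n F 0 ≠ 0 ∧ (n : ℝ) ≤ t} =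
            Set.ncard {n : ℕ | iteratedDeriv n F 0 ≠ 0 ∧ (n : ℝ) ≤ t} := rfl
        rw [h3, h1, Set.ncard_coe_finset, Finset.card_range]
      rw [h2]
      push_cast
      ring
    refine Tendsto.congr' ?_ tendsto_const_nhds
    have h0 : ∀ᶠ ξ : ℝ in 𝓝[<] (1 : ℝ), 0 < ξ ∧ ξ < 1 := by
      filter_upwards [Ioo_mem_nhdsLT (show (0:ℝ) < 1 by norm_num)] with ξ hξ using hξ
    filter_upwards [h0] with ξ hξ
    symm
    refine Tendsto.limsup_eq ?_
    have h1 : Tendsto (fun t : ℝ => (⌊(1:ℝ) * t⌋₊ : ℝ) / t) atTop (𝓝 1) :=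
      tendsto_nat_floor_mul_div_atTop zero_le_one
    have h2 : Tendsto (fun t : ℝ => (⌊ξ * t⌋₊ : ℝ) / t) atTop (𝓝 ξ) :=
      tendsto_nat_floor_mul_div_atTop hξ.1.le
    have h3 := (h1.sub h2).div_const (1 - ξ)
    have h4 : 1 - ξ ≠ 0 := by linarith [hξ.2]
    rw [div_self h4] at h3
    refine h3.congr' ?_
    filter_upwards [eventually_gt_atTop 0] with t ht
    rw [hcard t ht.le, hcard (ξ * t) (by have := hξ.1; positivity), one_mul]
    field_simp
    ring
  · have h1 : Tendsto (fun t : ℝ => t ^ 2) atTop atTop := tendsto_pow_atTop two_ne_zero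
    refine h1.congr fun t => ?_
    simp
  · have h1 : Tendsto (fun t : ℝ => Real.sin t / t) atTop (𝓝 0) := by
      refine squeeze_zero_norm' (a := fun t : ℝ => t⁻¹) ?_ tendsto_inv_atTop_zero
      filter_upwards [eventually_gt_atTop 0] with t ht
      rw [norm_div, Real.norm_eq_abs, Real.norm_of_nonneg ht.le, div_eq_mul_inv]
      have h3 : 0 < t⁻¹ := inv_pos.2 ht
      nlinarith [Real.abs_sin_le_one t]
    have h2 : Tendsto (fun t : ℝ => ((Real.sin t / t : ℝ) : ℂ)) atTop (𝓝 ((0 : ℝ) : ℂ)) :=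
      (Complex.continuous_ofReal.tendsto 0).comp h1
    rw [Complex.ofReal_zero] at h2
    refine h2.congr' ?_
    filter_upwards [eventually_gt_atTop 0] with t ht
    exact (F_real ht.ne').symm

end Pool.Agent.S04252
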