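import Pool.Statements.S04283
import Pool.Agent.Q84.BL5

set_option autoImplicit false
open MeasureTheory
open Pool Pool.MP_32c791_an

namespace Pool.Agent.S04283

/-- For every dimension d and every lattice M·Z^{2d} in R^{2d}, if the Gabor system of g in L^2(R^d) over that lattice is a Riesz basis, then ∣x∣g is not in L^2 or g is not in H^1, i.e. ∣ξ∣ĝ is not in L^2. -/
theorem result :
  ∀ (d : ℕ), 0 < d →
  ∀ (M : Matrix (Fin d ⊕ Fin d) (Fin d ⊕ Fin d) ℝ), M.det ≠ 0 →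
  ∀ (g : (Fin d → ℝ) → ℂ), MemLp g 2 volume →
  ((∀ h : (Fin d → ℝ) → ℂ, MemLp h 2 volume →
      (∀ k : Fin d ⊕ Fin d → ℤ,
        ∫ x, (starRingEnd ℂ) (h x) *
          (Complex.exp (2 * (Real.pi : ℂ) * Complex.I *
              ((∑ j, Matrix.mulVec M (fun i => ((k i : ℤ) : ℝ)) (Sum.inr j) * x j : ℝ) : ℂ)) *
            g (x - fun j => Matrix.mulVec M (fun i => ((k i : ℤ) : ℝ)) (Sum.inl j))) = 0) →
      h =ᵐ[volume] 0) ∧
    ∃ A B : ℝ, 0 < A ∧ 0 < B ∧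
      ∀ (s : Finset (Fin d ⊕ Fin d → ℤ)) (c : (Fin d ⊕ Fin d → ℤ) → ℂ),
        A * ∑ k ∈ s, ‖c k‖ ^ 2 ≤
          ∫ x, ‖∑ k ∈ s, c k *
            (Complex.exp (2 * (Real.pi : ℂ) * Complex.I *
                ((∑ j, Matrix.mulVec M (fun i => ((k i : ℤ) : ℝ)) (Sum.inr j) * x j : ℝ) : ℂ)) *
              g (x - fun j => Matrix.mulVec M (fun i => ((k i : ℤ) : ℝ)) (Sum.inl j)))‖ ^ 2 ∧
        ∫ x, ‖∑ k ∈ s, c k *
            (Complex.exp (2 * (Real.pi : ℂ) * Complex.I *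
                ((∑ j, Matrix.mulVec M (fun i => ((k i : ℤ) : ℝ)) (Sum.inr j) * x j : ℝ) : ℂ)) *
              g (x - fun j => Matrix.mulVec M (fun i => ((k i : ℤ) : ℝ)) (Sum.inl j)))‖ ^ 2
          ≤ B * ∑ k ∈ s, ‖c k‖ ^ 2) →
  ¬ (Integrable (fun x : Fin d → ℝ => (∑ j, x j ^ 2) * ‖g x‖ ^ 2) volume ∧
     ∀ j : Fin d, ∃ h : (Fin d → ℝ) → ℂ, MemLp h 2 volume ∧
       ∀ φ : (Fin d → ℝ) → ℂ, ContDiff ℝ ((⊤ : ℕ∞) : WithTop ℕ∞) φ → HasCompactSupport φ →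
         ∫ x, g x * fderiv ℝ φ x (Pi.single j (1 : ℝ) : Fin d → ℝ) = - ∫ x, h x * φ x) := by
  rintro d hd M - g hg ⟨hcomp, A, B, hA, hB, hAB⟩ ⟨hX, hP⟩
  exact Pool.Agent.Q84.BLT.main hd M g hg hcomp A B hA hB hAB hX hP

end Pool.Agent.S04283
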