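import Pool.Statements.S04319
import Pool.Agent.Q185.NP.Fin
import Pool.Agent.Q257.NP.A1
import Pool.Agent.Q98.NP.Phi
import Pool.Agent.Q210.NP.SG
import Pool.Agent.Q210.NP.X
import Pool.Agent.Q247.NP.BR
import Pool.Agent.Q247.NP.TY
import Pool.Agent.Q247.NP.LC
import Pool.Agent.Q114.NP.A3
import Pool.Agent.Q114.NP.A4
import Pool.Agent.Q182.NP.C1
import Pool.Agent.Q257.NP.C2
import Pool.Agent.Q257.NP.C3
import Pool.Agent.Q210.NP.C4

set_option autoImplicit false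
open Pool Pool.MP_35c333_an

namespace Pool.Agent.S04319

/-- For G/Γ with G a nilpotent Lie group, Γ discrete cocompact, and translation by g with every power minimal: for integer polynomials p_i with p_i(0)=0, k≥1, 0≤j<k, and nonempty open U, some n≥1 has x in U with g^{p_i(kn+j)}x in U for all i. -/
theorem result :
  ∀ (E : Type) [NormedAddCommGroup E] [NormedSpace ℝ E] [FiniteDimensional ℝ E]
    (G : Type) [Group G] [TopologicalSpace G] [ChartedSpace E G]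
    [LieGroup (modelWithCornersSelf ℝ E) ((⊤ : ℕ∞) : WithTop ℕ∞) G] [Group.IsNilpotent G]
    (Γ : Subgroup G), DiscreteTopology Γ → CompactSpace (G ⧸ Γ) →
    ∀ g : G, (∀ m : ℕ, 0 < m → ∀ x : G ⧸ Γ,
        Dense (Set.range (fun n : ℤ => (g ^ m) ^ n • x))) →
    ∀ (d : ℕ) (p : Fin d → Polynomial ℤ), (∀ i, (p i).eval 0 = 0) →
    ∀ k : ℕ, 0 < k → ∀ j : ℕ, j < k →
    ∀ U : Set (G ⧸ Γ), IsOpen U → U.Nonempty →
    ∃ n : ℕ, 0 < n ∧ ∃ x ∈ U, ∀ i, g ^ ((p i).eval ((k : ℤ) * (n : ℤ) + (j : ℤ))) • x ∈ U := by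
  intro E _ _ _ G _ _ _ _ _ Γ hΓ hcpt g hm d p hp k hk j _ U hU hUne
  have hA := Pool.Agent.Q257.NP.a1
  have hP := Pool.Agent.Q247.NP.pow
  have hB := Pool.Agent.Q247.NP.br
  have hT := Pool.Agent.Q247.NP.ty
  have hE := Pool.Agent.Q247.NP.exx (Pool.Agent.Q247.NP.lc hT) hB
  have hA3 := Pool.Agent.Q114.NP.a3 hA hT hB
  have hA4 := Pool.Agent.Q114.NP.a4 hA hP hT hB
  have hD := Pool.Agent.Q98.NP.dm Pool.Agent.Q98.NP.clo
  have hSG := Pool.Agent.Q210.NP.sg (Pool.Agent.Q98.NP.phi Pool.Agent.Q98.NP.clo hD)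
    Pool.Agent.Q185.NP.pg
  have hC1 := Pool.Agent.Q182.NP.c1
  exact Pool.Agent.Q185.NP.frozen hA hP hE hA3 hA4 hD hSG Pool.Agent.Q210.NP.expo
    (Pool.Agent.Q257.NP.c2 hC1) (Pool.Agent.Q257.NP.c3 hC1) Pool.Agent.Q210.NP.c4
    E G Γ hΓ hcpt g hm d p hp k hk j U hU hUne

end Pool.Agent.S04319
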