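import Pool.Statements.S04470
import Pool.Agent.Q75.HM.Main
import Pool.Agent.Q75.HM.GR
import Pool.Agent.Q75.HM.PL
import Pool.Agent.Q75.HM.CO
import Pool.Agent.Q75.HM.CC
import Pool.Agent.Q75.HM.UZ
import Pool.Agent.Q162.HM.QT
import Pool.Agent.Q162.HM.QBL
import Pool.Agent.Q164.HM.SM
import Pool.Agent.Q164.HM.NU
import Pool.Agent.Q241.HMA.HN
import Pool.Agent.Q241.HMA.MP
import Pool.Agent.Q241.HMA.BA
import Pool.Agent.Q151.HM.HAR
import Pool.Agent.Q151.HM.GO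
import Pool.Agent.Q96.HM.SYC
import Pool.Agent.Q96.HM.PA
import Pool.Agent.Q96.HM.WD
import Pool.Agent.Q96.HM.FK
import Pool.Agent.Q176.HM.E1
import Pool.Agent.Q176.HM.WI
import Pool.Agent.Q181.HM.K1
import Pool.Agent.Q238.HM.La
import Pool.Agent.Q238.HM.K2
import Pool.Agent.Q137.HM.LB
import Pool.Agent.Q184.HM.SY
import Pool.Agent.Q210.HM.PU
import Pool.Agent.Q121.HM.BB
import Pool.Agent.Q94.HM.DI
import Pool.Agent.Q285.HM.Oz
import Pool.Agent.Q223.HM.QB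
import Pool.Agent.Q166.HM.CM
import Pool.Agent.Q166.HM.TI
import Pool.Agent.Q154.HM.LO
import Pool.Agent.Q154.HM.UL

set_option autoImplicit false
open Pool Pool.MP_41df0b_an

namespace Pool.Agent.S04470

/-- The negation of the preceding statement: Two axially symmetric domains containing 0 are equal whenever, for every t>0, the harmonic measure at 0 of the line Re z=t in the cross-section component containing 0 (via Perron's method) coincides. -/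
theorem result :
    ¬ (∀ (adm : Set ℂ → Prop),
      (∀ G : Set ℂ, adm G ↔
        (IsOpen G ∧ IsConnected G ∧ (0 : ℂ) ∈ G ∧
          ∀ z ∈ G, segment ℝ z ((starRingEnd ℂ) z) ⊆ G)) →
    ∀ (C : Set ℂ → ℝ → Set ℂ),
      (∀ (G : Set ℂ) (t : ℝ), C G t = connectedComponentIn {z : ℂ | z ∈ G ∧ z.re < t} 0) →
    ∀ (ω : Set ℂ → ℝ → ℝ),
      (∀ (G : Set ℂ) (t : ℝ), ω G t = sInf {x : ℝ | ∃ u : ℂ → ℝ,
          LowerSemicontinuousOn u (C G t) ∧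
          (∀ z ∈ C G t, 0 ≤ u z ∧ u z ≤ 1) ∧
          (∀ a : ℂ, ∀ r : ℝ, 0 < r → Metric.closedBall a r ⊆ C G t →
              (∫ θ in (0 : ℝ)..(2 * Real.pi), u (circleMap a r θ)) ≤ 2 * Real.pi * u a) ∧
          (∀ ζ ∈ frontier (C G t) ∩ {z : ℂ | z.re = t}, ∀ ε : ℝ, 0 < ε →
              ∀ᶠ z in nhdsWithin ζ (C G t), 1 - ε < u z) ∧
          u 0 = x}) →
    ∀ D₁ D₂ : Set ℂ, adm D₁ → adm D₂ →
      (∀ t : ℝ, 0 < t → ω D₁ t = ω D₂ t) → D₁ = D₂) := by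
  have hQB := Pool.Agent.Q223.HM.t_QB
  have hQT := Pool.Agent.Q162.HM.t_QT
  have hSM := Pool.Agent.Q164.HM.t_SM hQB
  have hHAR := Pool.Agent.Q151.HM.t_HAR hQB Pool.Agent.Q241.HMA.hn
  have hSYC := Pool.Agent.Q96.HM.t_SYC
  have hE1 := Pool.Agent.Q176.HM.t_E1 hQB (Pool.Agent.Q162.HM.t_QBL hQB) hSYC
    Pool.Agent.Q96.HM.t_PA
  have hWD := Pool.Agent.Q96.HM.t_WD
  have hFK := Pool.Agent.Q96.HM.t_FK hQB hQT hSM hHAR hE1 hWD Pool.Agent.Q176.HM.t_WI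
  have hLO := Pool.Agent.Q154.HM.t_LO hQB
  have hCO := Pool.Agent.Q75.HM.t_CO hQB hWD (Pool.Agent.Q166.HM.t_CM hQB)
    (Pool.Agent.Q166.HM.t_TI hQB)
  have hUL := Pool.Agent.Q154.HM.t_UL
  have hK1 := Pool.Agent.Q181.HM.t_K1 hQB hUL
  have hK2 := Pool.Agent.Q238.HM.k2 hQB hUL
  have hUZ := Pool.Agent.Q75.HM.t_UZ
  have hCC := Pool.Agent.Q75.HM.t_CC
  have hGR := Pool.Agent.Q75.HM.t_GR hFK hLO hCO hWD hQB
  have hSY := Pool.Agent.Q184.HM.t_SY hWD hSYC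
  have hPL := Pool.Agent.Q75.HM.t_PL hCC hWD hQB hSY Pool.Agent.Q241.HMA.mp hUZ
  have hPU := Pool.Agent.Q210.HM.t_PU hWD hQB hSY hUZ
  exact Pool.Agent.Q75.HM.final hCC Pool.Agent.Q285.HM.oz hPL hPU
    (Pool.Agent.Q75.HM.two_domains hWD hK1 hK2 Pool.Agent.Q238.HM.la Pool.Agent.Q137.HM.t_LB
      Pool.Agent.Q151.HM.t_GO Pool.Agent.Q164.HM.t_NU (Pool.Agent.Q241.HMA.ba hQB hWD)
      (Pool.Agent.Q121.HM.t_BB hQB hQT hWD) hGR Pool.Agent.Q94.HM.t_DI)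

end Pool.Agent.S04470
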