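import Pool.Statements.S04554
import Pool.Agent.Q70.IetUE2

set_option autoImplicit false
open Pool Pool.MP_483d01_an

namespace Pool.Agent.S04554

/-- the permutation (positions of the four intervals in the image: 1, 3, 0, 2) -/
def perm : Equiv.Perm (Fin 4) := ⟨![1, 3, 0, 2], ![2, 0, 3, 1], by decide, by decide⟩

/-- the exchange of four intervals -/
noncomputable def G (v : Fin 4 → ℝ) (x : ℝ) : ℝ := x + ∑ j : Fin 4,
  (Set.Ico (∑ i ∈ (Finset.univ : Finset (Fin 4)).filter (fun i : Fin 4 => i < j), v i)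
    ((∑ i ∈ (Finset.univ : Finset (Fin 4)).filter (fun i : Fin 4 => i < j), v i) + v j)).indicator
    (fun _ : ℝ => (∑ i ∈ (Finset.univ : Finset (Fin 4)).filter (fun i : Fin 4 => perm i < perm j), v i) -
      ∑ i ∈ (Finset.univ : Finset (Fin 4)).filter (fun i : Fin 4 => i < j), v i) x

theorem G_eq (v : Fin 4 → ℝ) (x : ℝ) : G v x = x +
    ((Set.Ico 0 (v 0)).indicator (fun _ => v 2) x
    + (Set.Ico (v 0) (v 0 + v 1)).indicator (fun _ => v 2 + v 3) x
    + (Set.Ico (v 0 + v 1) (v 0 + v 1 + v 2)).indicator (fun _ => -(v 0 + v 1)) x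
    + (Set.Ico (v 0 + v 1 + v 2) (v 0 + v 1 + v 2 + v 3)).indicator (fun _ => -v 1) x) := by
  have p0 : perm 0 = 1 := rfl
  have p1 : perm 1 = 3 := rfl
  have p2 : perm 2 = 0 := rfl
  have p3 : perm 3 = 2 := rfl
  have f0 : (Finset.univ : Finset (Fin 4)).filter (fun i : Fin 4 => i < 0) = ∅ := by decide
  have f1 : (Finset.univ : Finset (Fin 4)).filter (fun i : Fin 4 => i < 1) = {0} := by decide
  have f2 : (Finset.univ : Finset (Fin 4)).filter (fun i : Fin 4 => i < 2) = {0, 1} := by decide
  have f3 : (Finset.univ : Finset (Fin 4)).filter (fun i : Fin 4 => i < 3) = {0, 1, 2} := by decide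
  have g0 : (Finset.univ : Finset (Fin 4)).filter (fun i : Fin 4 => perm i < 1) = {2} := by decide
  have g1 : (Finset.univ : Finset (Fin 4)).filter (fun i : Fin 4 => perm i < 3) = {0, 2, 3} := by
    decide
  have g2 : (Finset.univ : Finset (Fin 4)).filter (fun i : Fin 4 => perm i < 0) = ∅ := by decide
  have g3 : (Finset.univ : Finset (Fin 4)).filter (fun i : Fin 4 => perm i < 2) = {0, 2} := by
    decide
  have s01 : ∑ i ∈ ({0, 1} : Finset (Fin 4)), v i = v 0 + v 1 := by
    rw [Finset.sum_pair (by decide)]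
  have s02 : ∑ i ∈ ({0, 2} : Finset (Fin 4)), v i = v 0 + v 2 := by
    rw [Finset.sum_pair (by decide)]
  have s012 : ∑ i ∈ ({0, 1, 2} : Finset (Fin 4)), v i = v 0 + v 1 + v 2 := by
    rw [Finset.sum_insert (by decide), Finset.sum_pair (by decide)]; ring
  have s023 : ∑ i ∈ ({0, 2, 3} : Finset (Fin 4)), v i = v 0 + v 2 + v 3 := by
    rw [Finset.sum_insert (by decide), Finset.sum_pair (by decide)]; ring
  unfold G
  rw [Fin.sum_univ_four, p0, p1, p2, p3, f0, f1, f2, f3, g0, g1, g2, g3, Finset.sum_empty,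
    Finset.sum_singleton, Finset.sum_singleton, s01, s02, s012, s023]
  congr 1
  simp only [zero_add, sub_zero]
  congr 1
  · congr 1
    · congr 1
      · congr 1
        ext; ring
    · congr 1
      ext; ring
  · congr 1
    ext; ring

theorem G_meas (v : Fin 4 → ℝ) : Measurable (G v) := by
  have : G v = fun x => x +
    ((Set.Ico 0 (v 0)).indicator (fun _ => v 2) x
    + (Set.Ico (v 0) (v 0 + v 1)).indicator (fun _ => v 2 + v 3) x
    + (Set.Ico (v 0 + v 1) (v 0 + v 1 + v 2)).indicator (fun _ => -(v 0 + v 1)) x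
    + (Set.Ico (v 0 + v 1 + v 2) (v 0 + v 1 + v 2 + v 3)).indicator (fun _ => -v 1) x) := by
    ext x; exact G_eq v x
  rw [this]
  refine measurable_id.add (((Measurable.add ?_ ?_).add ?_).add ?_)
  · exact measurable_const.indicator measurableSet_Ico
  · exact measurable_const.indicator measurableSet_Ico
  · exact measurable_const.indicator measurableSet_Ico
  · exact measurable_const.indicator measurableSet_Ico

theorem G0 (v : Fin 4 → ℝ) (h : ∀ i, 0 < v i) (x : ℝ) (hx : x ∈ Set.Ico 0 (v 0)) :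
    G v x = x + v 2 := by
  have h0 := h 0
  have h1 := h 1
  have h2 := h 2
  have h3 := h 3
  rw [G_eq, Set.indicator_of_mem hx, Set.indicator_of_notMem, Set.indicator_of_notMem,
    Set.indicator_of_notMem]
  · ring
  all_goals
    intro hy
    linarith [hx.1, hx.2, hy.1, hy.2]

theorem G1 (v : Fin 4 → ℝ) (h : ∀ i, 0 < v i) (x : ℝ) (hx : x ∈ Set.Ico (v 0) (v 0 + v 1)) :
    G v x = x + (v 2 + v 3) := by
  have h0 := h 0
  have h1 := h 1
  have h2 := h 2
  have h3 := h 3
  rw [G_eq, Set.indicator_of_mem hx, Set.indicator_of_notMem, Set.indicator_of_notMem,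
    Set.indicator_of_notMem]
  · ring
  all_goals
    intro hy
    linarith [hx.1, hx.2, hy.1, hy.2]

theorem G2 (v : Fin 4 → ℝ) (h : ∀ i, 0 < v i) (x : ℝ)
    (hx : x ∈ Set.Ico (v 0 + v 1) (v 0 + v 1 + v 2)) : G v x = x + -(v 0 + v 1) := by
  have h0 := h 0
  have h1 := h 1
  have h2 := h 2
  have h3 := h 3
  rw [G_eq, Set.indicator_of_mem hx, Set.indicator_of_notMem, Set.indicator_of_notMem,
    Set.indicator_of_notMem]
  · ring
  all_goals
    intro hy
    linarith [hx.1, hx.2, hy.1, hy.2]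

theorem G3 (v : Fin 4 → ℝ) (h : ∀ i, 0 < v i) (x : ℝ)
    (hx : x ∈ Set.Ico (v 0 + v 1 + v 2) (v 0 + v 1 + v 2 + v 3)) : G v x = x + -v 1 := by
  have h0 := h 0
  have h1 := h 1
  have h2 := h 2
  have h3 := h 3
  rw [G_eq, Set.indicator_of_mem hx, Set.indicator_of_notMem, Set.indicator_of_notMem,
    Set.indicator_of_notMem]
  · ring
  all_goals
    intro hy
    linarith [hx.1, hx.2, hy.1, hy.2]

/-- being uniquely ergodic -/
def UE (v : Fin 4 → ℝ) : Prop := ∃! μ : MeasureTheory.Measure ℝ,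
  MeasureTheory.IsProbabilityMeasure μ ∧
  μ ((Set.Ico (0 : ℝ) (∑ i : Fin 4, v i))ᶜ) = 0 ∧
  MeasureTheory.Measure.map (G v) μ = μ

theorem sum4 (v : Fin 4 → ℝ) : ∑ i : Fin 4, v i = v 0 + v 1 + v 2 + v 3 := Fin.sum_univ_four v

/-- the lengths `(α, 1-α, α, 1-α)` are uniquely ergodic -/
theorem ue_zero {α : ℝ} (hα : Irrational α) (h0 : 0 < α) (h1 : α < 1 / 2) :
    UE ![α, 1 - α, α, 1 - α] := by
  set v : Fin 4 → ℝ := ![α, 1 - α, α, 1 - α] with hv
  have v0 : v 0 = α := rfl
  have v1 : v 1 = 1 - α := rfl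
  have v2 : v 2 = α := rfl
  have v3 : v 3 = 1 - α := rfl
  have hpos : ∀ i, 0 < v i := by
    intro i
    fin_cases i
    · exact h0
    · change 0 < 1 - α; linarith
    · exact h0
    · change 0 < 1 - α; linarith
  have hsum : ∑ i : Fin 4, v i = 2 := by rw [sum4, v0, v1, v2, v3]; ring
  have hS : Q70.IsSwap α (G v) := by
    refine ⟨G_meas v, ?_, ?_, ?_, ?_⟩
    · intro x hx
      rw [G0 v hpos x (by rw [v0]; exact hx), v2]
    · intro x hx
      rw [G1 v hpos x (by rw [v0, v1]; exact ⟨hx.1, by linarith [hx.2]⟩), v2, v3]; ring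
    · intro x hx
      rw [G2 v hpos x (by rw [v0, v1, v2]; exact ⟨by linarith [hx.1], by linarith [hx.2]⟩), v0, v1]
      ring
    · intro x hx
      rw [G3 v hpos x (by rw [v0, v1, v2, v3]; exact ⟨by linarith [hx.1], by linarith [hx.2]⟩), v1]
      ring
  have hvol : (MeasureTheory.volume : MeasureTheory.Measure ℝ) (Set.Ico 0 2) = 2 := by
    rw [Real.volume_Ico]; norm_num
  unfold UE
  rw [hsum]
  refine ⟨(2:ENNReal)⁻¹ • (MeasureTheory.volume : MeasureTheory.Measure ℝ).restrict (Set.Ico 0 2),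
    ⟨⟨?_⟩, ?_, ?_⟩, ?_⟩
  · rw [MeasureTheory.Measure.smul_apply, MeasureTheory.Measure.restrict_apply_univ, hvol,
      smul_eq_mul]
    exact ENNReal.inv_mul_cancel (by norm_num) (by norm_num)
  · rw [MeasureTheory.Measure.smul_apply,
      MeasureTheory.Measure.restrict_apply measurableSet_Ico.compl]
    simp
  · rw [MeasureTheory.Measure.map_smul, Q70.swap_leb hS h0 h1]
  · rintro μ ⟨hprob, hsupp, hinv⟩
    have key := Q70.swap_unique hα hsupp hS h0 h1 hinv
    have h2 : (1:ENNReal) = μ (Set.Ico 0 1) * 2 := by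
      have := congrArg (fun m : MeasureTheory.Measure ℝ => m Set.univ) key
      simp only [MeasureTheory.Measure.smul_apply, MeasureTheory.Measure.restrict_apply_univ, hvol,
        smul_eq_mul, MeasureTheory.measure_univ] at this
      exact this
    have h3 : μ (Set.Ico 0 1) = 2⁻¹ := by
      rw [ENNReal.eq_inv_of_mul_eq_one_left h2.symm]
    rw [h3] at key
    exact key

/-- the perturbed lengths are not uniquely ergodic -/
theorem not_ue {α t : ℝ} (h0 : 0 < α) (h1 : α < 1 / 2) (ht0 : 0 < t) (ht1 : t < 1 - α) :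
    ¬ UE ![α, 1 - α, α + t, 1 - α - t] := by
  set v : Fin 4 → ℝ := ![α, 1 - α, α + t, 1 - α - t] with hv
  have v0 : v 0 = α := rfl
  have v1 : v 1 = 1 - α := rfl
  have v2 : v 2 = α + t := rfl
  have v3 : v 3 = 1 - α - t := rfl
  have hpos : ∀ i, 0 < v i := by
    intro i
    fin_cases i
    · exact h0
    · change 0 < 1 - α; linarith
    · change 0 < α + t; linarith
    · change 0 < 1 - α - t; linarith
  have hsum : ∑ i : Fin 4, v i = 2 := by rw [sum4, v0, v1, v2, v3]; ring
  -- the periodic orbits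
  have hper : ∀ p ∈ Set.Ico α (α + t), G v p = p + 1 ∧ G v (p + 1) = p := by
    intro p hp
    constructor
    · rw [G1 v hpos p (by rw [v0, v1]; exact ⟨hp.1, by linarith [hp.2]⟩), v2, v3]; ring
    · rw [G2 v hpos (p + 1) (by
        rw [v0, v1, v2]; exact ⟨by linarith [hp.1], by linarith [hp.2]⟩), v0, v1]
      ring
  have hinvt : ∀ p ∈ Set.Ico α (α + t),
      MeasureTheory.IsProbabilityMeasure ((2:ENNReal)⁻¹ •
        (MeasureTheory.Measure.dirac p + MeasureTheory.Measure.dirac (p + 1))) ∧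
      ((2:ENNReal)⁻¹ • (MeasureTheory.Measure.dirac p + MeasureTheory.Measure.dirac (p + 1)) :
        MeasureTheory.Measure ℝ) ((Set.Ico (0 : ℝ) (∑ i : Fin 4, v i))ᶜ) = 0 ∧
      MeasureTheory.Measure.map (G v) ((2:ENNReal)⁻¹ •
        (MeasureTheory.Measure.dirac p + MeasureTheory.Measure.dirac (p + 1))) =
        (2:ENNReal)⁻¹ • (MeasureTheory.Measure.dirac p + MeasureTheory.Measure.dirac (p + 1)) := by
    intro p hp
    refine ⟨⟨?_⟩, ?_, ?_⟩
    · rw [MeasureTheory.Measure.smul_apply, MeasureTheory.Measure.add_apply,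
        MeasureTheory.measure_univ, MeasureTheory.measure_univ, smul_eq_mul, one_add_one_eq_two]
      exact ENNReal.inv_mul_cancel (by norm_num) (by norm_num)
    · rw [hsum, MeasureTheory.Measure.smul_apply, MeasureTheory.Measure.add_apply,
        MeasureTheory.Measure.dirac_apply' _ measurableSet_Ico.compl,
        MeasureTheory.Measure.dirac_apply' _ measurableSet_Ico.compl,
        Set.indicator_of_notMem, Set.indicator_of_notMem]
      · simp
      · intro h
        exact h ⟨by linarith [hp.1], by linarith [hp.2]⟩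
      · intro h
        exact h ⟨by linarith [hp.1], by linarith [hp.2]⟩
    · rw [MeasureTheory.Measure.map_smul, MeasureTheory.Measure.map_add _ _ (G_meas v),
        MeasureTheory.Measure.map_dirac' (G_meas v), MeasureTheory.Measure.map_dirac' (G_meas v),
        (hper p hp).1, (hper p hp).2, add_comm]
  rintro ⟨μ, _, huniq⟩
  have e1 := huniq _ (hinvt α ⟨le_refl _, by linarith⟩)
  have e2 := huniq _ (hinvt (α + t / 2) ⟨by linarith, by linarith⟩)
  have e3 := e1.trans e2.symm
  have e4 := congrArg (fun m : MeasureTheory.Measure ℝ => m {α}) e3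
  simp only [MeasureTheory.Measure.smul_apply, MeasureTheory.Measure.add_apply,
    MeasureTheory.Measure.dirac_apply' _ (MeasurableSet.singleton α), smul_eq_mul] at e4
  rw [Set.indicator_of_mem (by simp), Set.indicator_of_notMem, Set.indicator_of_notMem,
    Set.indicator_of_notMem] at e4
  · simp at e4
  · simp only [Set.mem_singleton_iff]; intro h; linarith
  · simp only [Set.mem_singleton_iff]; intro h; linarith
  · simp only [Set.mem_singleton_iff]; intro h; linarith

/-- The negation of the preceding statement: For any permutation and any positive length vector a whose interval exchange has a unique invariant probability measure, and any direction b, there is ε>0 such that for almost every t in (−ε,ε) the lengths a+tb are again uniquely ergodic. -/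
theorem result :
    ¬ (∀ (d : ℕ) (π : Equiv.Perm (Fin d)) (UE : (Fin d → ℝ) → Prop),
    (∀ v : Fin d → ℝ, UE v ↔ ∃! μ : MeasureTheory.Measure ℝ,
        MeasureTheory.IsProbabilityMeasure μ ∧
        μ ((Set.Ico (0 : ℝ) (∑ i : Fin d, v i))ᶜ) = 0 ∧
        MeasureTheory.Measure.map (fun x : ℝ => x + ∑ j : Fin d,
          (Set.Ico (∑ i ∈ (Finset.univ : Finset (Fin d)).filter (fun i : Fin d => i < j), v i)
             ((∑ i ∈ (Finset.univ : Finset (Fin d)).filter (fun i : Fin d => i < j), v i) + v j)).indicator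
            (fun _ : ℝ => (∑ i ∈ (Finset.univ : Finset (Fin d)).filter (fun i : Fin d => π i < π j), v i) -
                      ∑ i ∈ (Finset.univ : Finset (Fin d)).filter (fun i : Fin d => i < j), v i) x) μ = μ) →
    ∀ a b : Fin d → ℝ, (∀ i, 0 < a i) → UE a →
      ∃ ε : ℝ, 0 < ε ∧
        ∀ᵐ t : ℝ ∂(MeasureTheory.volume.restrict (Set.Ioo (-ε) ε)), UE (a + t • b)) := by
  intro H
  obtain ⟨α, hα, h0, h1⟩ := exists_irrational_btwn (show (0:ℝ) < 1 / 2 by norm_num)
  obtain ⟨ε, hε, hae⟩ := H 4 perm UE (fun v => Iff.rfl) ![α, 1 - α, α, 1 - α] ![0, 0, 1, -1]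
    (by
      intro i
      fin_cases i
      · exact h0
      · change 0 < 1 - α; linarith
      · exact h0
      · change 0 < 1 - α; linarith) (ue_zero hα h0 h1)
  rw [MeasureTheory.ae_restrict_iff' measurableSet_Ioo, MeasureTheory.ae_iff] at hae
  set δ := min ε (1 - α) with hδ
  have hδ0 : 0 < δ := lt_min hε (by linarith)
  have hsub : Set.Ioo 0 δ ⊆ {t : ℝ | ¬ (t ∈ Set.Ioo (-ε) ε →
      UE (![α, 1 - α, α, 1 - α] + t • ![0, 0, 1, -1]))} := by
    intro t ht
    rw [Set.mem_ofPred_eq]
    intro hcon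
    have ht1 : t < ε := lt_of_lt_of_le ht.2 (min_le_left _ _)
    have ht2 : t < 1 - α := lt_of_lt_of_le ht.2 (min_le_right _ _)
    have := hcon ⟨by linarith [ht.1], ht1⟩
    have heq : (![α, 1 - α, α, 1 - α] + t • ![0, 0, 1, -1] : Fin 4 → ℝ) =
        ![α, 1 - α, α + t, 1 - α - t] := by
      ext i
      fin_cases i <;> simp
      ring
    rw [heq] at this
    exact not_ue h0 h1 ht.1 ht2 this
  have h2 := MeasureTheory.measure_mono (μ := MeasureTheory.volume) hsub
  rw [hae, Real.volume_Ioo] at h2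
  simp only [sub_zero, nonpos_iff_eq_zero, ENNReal.ofReal_eq_zero] at h2
  linarith

end Pool.Agent.S04554
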