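import Pool.Statements.S04575
import Pool.Agent.Q41.BE.Ext
import Pool.Agent.Q41.BE.Sys
import Pool.Agent.Q41.BE.Final

set_option autoImplicit false
open Pool Pool.MP_49bdf6_an

namespace Pool.Agent.S04575

/-- Over ℝ or ℂ, in every separable Banach space, every strictly bounded minimal sequence extends, by adding countably many vectors, to a minimal, strictly bounded sequence whose closed linear span is the whole space. -/
theorem result :
    ∀ (𝕜 : Type) [RCLike 𝕜] (E : Type) [NormedAddCommGroup E] [NormedSpace 𝕜 E]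
      [CompleteSpace E] [TopologicalSpace.SeparableSpace E] (x : ℕ → E),
      (∃ (C D : ℝ) (f : ℕ → (E →L[𝕜] 𝕜)),
        (∀ i j : ℕ, (i = j → f i (x j) = 1) ∧ (i ≠ j → f i (x j) = 0)) ∧
        (∀ n : ℕ, ‖x n‖ ≤ C ∧ ‖f n‖ ≤ D)) →
      ∃ (ι : Type) (_ : Countable ι) (y : ι → E) (C D : ℝ) (g : ℕ ⊕ ι → (E →L[𝕜] 𝕜)),
        (∀ i j : ℕ ⊕ ι, (i = j → g i (Sum.elim x y j) = 1) ∧
            (i ≠ j → g i (Sum.elim x y j) = 0)) ∧
        (∀ i : ℕ ⊕ ι, ‖Sum.elim x y i‖ ≤ C ∧ ‖g i‖ ≤ D) ∧
        (Submodule.span 𝕜 (Set.range (Sum.elim x y))).topologicalClosure = ⊤ := by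
  classical
  intro 𝕜 _ E _ _ _ _ x hx
  obtain ⟨C, D, φ, hφ, hbd⟩ := hx
  have hoff : ∀ i j, i ≠ j → φ i (x j) = 0 := fun i j h => (hφ i j).2 h
  have hon : ∀ i, φ i (x i) = 1 := fun i => (hφ i i).1 rfl
  let F : Submodule 𝕜 E := Q41.BE.closedSpan 𝕜 x
  have hmem : ∀ n, x n ∈ F := fun n => Q41.BE.mem_closedSpan x n
  have hM : ∀ n, ‖φ n‖ ≤ max D 1 := fun n => (hbd n).2.trans (le_max_left _ _)
  have hlim : ∀ a ∈ F, Filter.Tendsto (fun n => φ n a) Filter.atTop (nhds 0) := by
    intro a ha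
    have h1 := Q41.BE.tendsto_zero F _ (Q41.BE.dense_closedSpan x)
      (fun n => (φ n).comp F.subtypeL) (fun i j hij => hoff i j hij) (M := max D 1)
      (fun n => ((φ n).opNorm_comp_le F.subtypeL).trans (by
        have h1 : ‖F.subtypeL‖ ≤ 1 := F.norm_subtypeL_le
        have h2 := hM n
        have h3 := norm_nonneg (φ n)
        nlinarith [norm_nonneg F.subtypeL])) ⟨a, ha⟩
    exact h1
  have hD : Q41.BE.Data F φ x (max D 1) C :=
    { closed := Submodule.isClosed_topologicalClosure _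
      mem := hmem
      off := hoff
      on := hon
      one_le := le_max_right _ _
      bound := hM
      xbound := fun n => (hbd n).1
      lim := hlim }
  obtain ⟨s, G, hmono, hsys, hG, hdense⟩ := Q41.BE.exists_seq hD
  -- the union
  let U : Set (E × StrongDual 𝕜 E) := {p | ∃ j, p ∈ s j}
  have hcount : Countable U := by
    have h1 : U = ⋃ j, (s j : Set (E × StrongDual 𝕜 E)) := by
      ext p
      rw [Set.mem_iUnion]
      rfl
    have h2 : U.Countable := by
      rw [h1]
      exact Set.countable_iUnion fun j => (s j).countable_toSet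
    exact h2.to_subtype
  have hU2 : ∀ p ∈ U, ∀ q ∈ U, ∃ j, p ∈ s j ∧ q ∈ s j := by
    rintro p ⟨i, hi⟩ q ⟨j, hj⟩
    exact ⟨max i j, hmono (le_max_left i j) hi, hmono (le_max_right i j) hj⟩
  let Z' : Submodule 𝕜 E := ⨆ j, Q41.BE.Y (s j)
  have hYmono : Monotone fun j => Q41.BE.Y (s j) := fun i j hij => Q41.BE.Y_mono (hmono hij)
  have hZ' : ∀ w ∈ Z', ∃ j, w ∈ Q41.BE.Y (s j) := fun w hw =>
    (Submodule.mem_iSup_of_directed _ hYmono.directed_le).1 hw
  have hdisj : Disjoint F Z' := by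
    rw [Submodule.disjoint_def]
    intro w hwF hw
    obtain ⟨j, hj⟩ := hZ' w hw
    exact Submodule.disjoint_def.1 (hsys j).disjoint w hwF hj
  have hext : ∀ n, ∃ f : StrongDual 𝕜 E, ‖f‖ ≤ 63 * max D 1 ∧ (∀ a ∈ F, f a = φ n a) ∧
      ∀ z ∈ Z', f z = 0 := by
    intro n
    refine Q41.BE.exists_ext' F Z' hdisj (φ n) (by
      have := le_max_right D 1
      linarith) ?_
    intro a ha z hz
    obtain ⟨j, hj⟩ := hZ' z hz
    obtain ⟨f, hfC, hfF, hfu⟩ := (hsys j).ext n
    have hfz : f z = 0 := by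
      have h1 : Q41.BE.Y (s j) ≤ LinearMap.ker (f : E →ₗ[𝕜] 𝕜) := by
        rw [Q41.BE.Y, Submodule.span_le]
        rintro _ ⟨p, hp, rfl⟩
        exact hfu p hp
      exact h1 hj
    have h2 : φ n a = f (a + z) := by rw [map_add, hfz, add_zero, hfF a ha]
    rw [h2]
    exact (f.le_opNorm _).trans (mul_le_mul_of_nonneg_right hfC (norm_nonneg _))
  choose f hfC hfF hfZ using hext
  have hpZ : ∀ p : U, p.1.1 ∈ Z' := by
    rintro ⟨p, j, hj⟩
    exact le_iSup (fun j => Q41.BE.Y (s j)) j (Q41.BE.mem_Y hj)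
  refine ⟨U, hcount, fun p => p.1.1, max C G, max (63 * max D 1) G,
    Sum.elim f (fun p => p.1.2), ?_, ?_, ?_⟩
  · rintro (i | p) (j | q)
    · refine ⟨fun h => ?_, fun h => ?_⟩
      · have h' : i = j := Sum.inl_injective h
        subst h'
        change f i (x i) = 1
        rw [hfF i _ (hmem i)]
        exact hon i
      · have h' : i ≠ j := fun e => h (congrArg _ e)
        change f i (x j) = 0
        rw [hfF i _ (hmem j)]
        exact hoff i j h'
    · refine ⟨fun h => absurd h (by simp), fun _ => ?_⟩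
      exact hfZ i _ (hpZ q)
    · refine ⟨fun h => absurd h (by simp), fun _ => ?_⟩
      obtain ⟨p, k, hk⟩ := p
      exact (hsys k).van p hk _ (hmem j)
    · refine ⟨fun h => ?_, fun h => ?_⟩
      · have h' : p = q := Sum.inr_injective h
        subst h'
        obtain ⟨p, k, hk⟩ := p
        exact (hsys k).one p hk
      · have h' : p ≠ q := fun e => h (congrArg _ e)
        obtain ⟨k, hpk, hqk⟩ := hU2 p.1 p.2 q.1 q.2
        exact (hsys k).zero p.1 hpk q.1 hqk fun e => h' (Subtype.ext e)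
  · rintro (i | p)
    · exact ⟨(hbd i).1.trans (le_max_left _ _), (hfC i).trans (le_max_left _ _)⟩
    · obtain ⟨p, k, hk⟩ := p
      exact ⟨(hG k p hk).1.trans (le_max_right _ _), (hG k p hk).2.trans (le_max_right _ _)⟩
  · set T := (Submodule.span 𝕜 (Set.range (Sum.elim x fun p : U => p.1.1))).topologicalClosure
      with hT
    have hcl : IsClosed (T : Set E) := Submodule.isClosed_topologicalClosure _
    have hF : F ≤ T := by
      apply Submodule.topologicalClosure_mono
      apply Submodule.span_mono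
      rintro _ ⟨n, rfl⟩
      exact ⟨Sum.inl n, rfl⟩
    have hZT : Z' ≤ T := by
      refine le_trans ?_ (Submodule.le_topologicalClosure _)
      apply iSup_le
      intro j
      apply Submodule.span_mono
      rintro _ ⟨p, hp, rfl⟩
      exact ⟨Sum.inr ⟨p, j, hp⟩, rfl⟩
    have hrange : Set.range (TopologicalSpace.denseSeq E) ⊆ (T : Set E) := by
      rintro _ ⟨k, rfl⟩
      exact sup_le hF hZT (hdense k)
    rw [Submodule.eq_top_iff']
    intro w
    have h1 := (TopologicalSpace.denseRange_denseSeq E) w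
    exact hcl.closure_subset_iff.2 hrange h1

end Pool.Agent.S04575
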