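import Pool.Statements.S04624

set_option autoImplicit false
open MeasureTheory
open Pool Pool.MP_4d58d7_an

namespace Pool.Agent.S04624

/-- The three sketching matrices: `W 0 = 0` and `W (± 1)`. -/
noncomputable def W (c σ : ℝ) : Fin 2 → Fin 2 → ℝ :=
  ![![c * (201 / 200), c * (1 / 200)], ![c * σ * (1 / 200), c * σ * (201 / 200)]]

/-- The law of the sketching matrix. -/
noncomputable def law : Measure (Fin 2 → Fin 2 → ℝ) :=
  ENNReal.ofReal (201 / 20201) • Measure.dirac (W 0 0) +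
    (ENNReal.ofReal (10000 / 20201) • Measure.dirac (W 1 1) +
      ENNReal.ofReal (10000 / 20201) • Measure.dirac (W 1 (-1)))

theorem law_apply (s : Set (Fin 2 → Fin 2 → ℝ)) : law s =
    ENNReal.ofReal (201 / 20201) * s.indicator 1 (W 0 0) +
    (ENNReal.ofReal (10000 / 20201) * s.indicator 1 (W 1 1) +
      ENNReal.ofReal (10000 / 20201) * s.indicator 1 (W 1 (-1))) := by
  rw [law, Measure.add_apply, Measure.add_apply, Measure.smul_apply, Measure.smul_apply,
    Measure.smul_apply, Measure.dirac_apply, Measure.dirac_apply, Measure.dirac_apply]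
  rfl

instance : IsProbabilityMeasure law := by
  constructor
  rw [law_apply]
  simp only [Set.indicator_univ, Pi.one_apply, mul_one]
  rw [← ENNReal.ofReal_add (by norm_num) (by norm_num),
    ← ENNReal.ofReal_add (by norm_num) (by norm_num)]
  norm_num

theorem integral_law (f : (Fin 2 → Fin 2 → ℝ) → ℝ) : ∫ ω, f ω ∂law =
    201 / 20201 * f (W 0 0) + (10000 / 20201 * f (W 1 1) + 10000 / 20201 * f (W 1 (-1))) := by
  have hi : ∀ a : Fin 2 → Fin 2 → ℝ, ∀ c : ℝ,
      Integrable f (ENNReal.ofReal c • Measure.dirac a) := fun a c =>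
    (integrable_dirac (by simp)).smul_measure ENNReal.ofReal_ne_top
  rw [law, integral_add_measure (hi _ _) ((hi _ _).add_measure (hi _ _)),
    integral_add_measure (hi _ _) (hi _ _), integral_smul_measure, integral_smul_measure,
    integral_smul_measure, integral_dirac, integral_dirac, integral_dirac,
    ENNReal.toReal_ofReal (by norm_num), ENNReal.toReal_ofReal (by norm_num)]
  simp only [smul_eq_mul]

theorem quad (c σ : ℝ) (x : Fin 2 → ℝ) : (∑ j, (∑ i, W c σ i j * x i) ^ 2) =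
    c ^ 2 * ((201 / 200 * x 0 + σ * (1 / 200) * x 1) ^ 2 +
      (1 / 200 * x 0 + σ * (201 / 200) * x 1) ^ 2) := by
  simp [Fin.sum_univ_two, W]
  ring

theorem isotropic (x : Fin 2 → ℝ) :
    ∫ ω, (∑ j, (∑ i, ω i j * x i) ^ 2) ∂law = ∑ i, x i ^ 2 := by
  rw [integral_law fun ω => ∑ j, (∑ i, ω i j * x i) ^ 2]
  rw [quad, quad, quad, Fin.sum_univ_two]
  ring

theorem injective_pm {σ : ℝ} (hσ : σ = 1 ∨ σ = -1) {ε : ℝ} (hε : 0 < ε) (x : Fin 2 → ℝ) :
    (1 - ε) * ∑ i, x i ^ 2 ≤ ∑ j, (∑ i, W 1 σ i j * x i) ^ 2 := by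
  rw [quad, Fin.sum_univ_two]
  have h0 : 0 ≤ x 0 ^ 2 + x 1 ^ 2 := by positivity
  have h1 : (1 - ε) * (x 0 ^ 2 + x 1 ^ 2) ≤ x 0 ^ 2 + x 1 ^ 2 := by nlinarith
  refine h1.trans ?_
  rcases hσ with rfl | rfl
  · nlinarith [sq_nonneg (x 0 + x 1)]
  · nlinarith [sq_nonneg (x 0 - x 1)]

theorem injective_law {ε : ℝ} (hε : 0 < ε) (V : Submodule ℝ (Fin 2 → ℝ)) :
    ENNReal.ofReal (99 / 100) ≤
      law {ω | ∀ x ∈ V, (1 - ε) * ∑ i, x i ^ 2 ≤ ∑ j, (∑ i, ω i j * x i) ^ 2} := by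
  rw [law_apply]
  have h1 : W 1 1 ∈ {ω : Fin 2 → Fin 2 → ℝ |
      ∀ x ∈ V, (1 - ε) * ∑ i, x i ^ 2 ≤ ∑ j, (∑ i, ω i j * x i) ^ 2} :=
    fun x _ => injective_pm (Or.inl rfl) hε x
  have h2 : W 1 (-1) ∈ {ω : Fin 2 → Fin 2 → ℝ |
      ∀ x ∈ V, (1 - ε) * ∑ i, x i ^ 2 ≤ ∑ j, (∑ i, ω i j * x i) ^ 2} :=
    fun x _ => injective_pm (Or.inr rfl) hε x
  rw [Set.indicator_of_mem h1, Set.indicator_of_mem h2, Pi.one_apply, Pi.one_apply, mul_one]
  refine le_trans ?_ (self_le_add_left _ _)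
  rw [← ENNReal.ofReal_add (by norm_num) (by norm_num)]
  exact ENNReal.ofReal_le_ofReal (by norm_num)

/-- The least squares problem. -/
def A : Matrix (Fin 2) (Fin 1) ℝ := !![1; 0]

/-- The right-hand side. -/
def B : Matrix (Fin 2) (Fin 1) ℝ := !![1; 1]

theorem rank_A : A.rank = 1 := by
  have h1 : (Matrix.transpose A * A).rank = A.rank := Matrix.rank_transpose_mul_self A
  rw [← h1]
  have h2 : Matrix.transpose A * A = 1 := by
    ext i j
    fin_cases i; fin_cases j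
    simp [A, Matrix.mul_apply, Fin.sum_univ_two]
  rw [h2, Matrix.rank_one, Fintype.card_fin]

/-- The candidate pseudoinverse. -/
noncomputable def G (c : ℝ) : Matrix (Fin 1) (Fin 2) ℝ :=
  !![c * (201 / 200) * (20000 / 20201), c * (1 / 200) * (20000 / 20201)]

theorem sketch_A (c σ : ℝ) : Matrix.transpose (Matrix.of (W c σ)) * A =
    !![c * (201 / 200); c * (1 / 200)] := by
  ext i j
  fin_cases i <;> fin_cases j <;>
    simp [A, W, Matrix.mul_apply, Fin.sum_univ_two]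

theorem sketch_B (c σ : ℝ) : Matrix.transpose (Matrix.of (W c σ)) * B =
    !![c * (201 / 200) + c * σ * (1 / 200); c * (1 / 200) + c * σ * (201 / 200)] := by
  ext i j
  fin_cases i <;> fin_cases j <;>
    simp [B, W, Matrix.mul_apply, Fin.sum_univ_two]

theorem bad {C ε : ℝ} (hC : C * ε ≤ 1 / 100000) {c σ : ℝ}
    (hc : (c = 0 ∧ σ = 0) ∨ (c = 1 ∧ (σ = 1 ∨ σ = -1))) :
    W c σ ∉ {ω : Fin 2 → Fin 2 → ℝ | ∀ G : Matrix (Fin 1) (Fin 2) ℝ,
          (Matrix.transpose (Matrix.of ω) * A) * G * (Matrix.transpose (Matrix.of ω) * A)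
              = Matrix.transpose (Matrix.of ω) * A →
          G * (Matrix.transpose (Matrix.of ω) * A) * G = G →
          Matrix.transpose ((Matrix.transpose (Matrix.of ω) * A) * G)
              = (Matrix.transpose (Matrix.of ω) * A) * G →
          Matrix.transpose (G * (Matrix.transpose (Matrix.of ω) * A))
              = G * (Matrix.transpose (Matrix.of ω) * A) →
          ∀ X : Matrix (Fin 1) (Fin 1) ℝ,
            Real.sqrt (∑ i, ∑ j, ((A * (G * Matrix.transpose (Matrix.of ω) * B) - B) i j) ^ 2) ≤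
              (1 + C * ε) * Real.sqrt (∑ i, ∑ j, ((A * X - B) i j) ^ 2)} := by
  intro h
  rw [Set.mem_ofPred_eq] at h
  have h1 := h (G c) (by
    rw [sketch_A]
    ext i j
    rcases hc with ⟨rfl, -⟩ | ⟨rfl, -⟩ <;> fin_cases i <;> fin_cases j <;>
      simp [G, Matrix.mul_apply, Fin.sum_univ_two] <;> norm_num) (by
    rw [sketch_A]
    ext i j
    rcases hc with ⟨rfl, -⟩ | ⟨rfl, -⟩ <;> fin_cases i <;> fin_cases j <;>
      simp [G, Matrix.mul_apply, Fin.sum_univ_two] <;> norm_num) (by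
    rw [sketch_A]
    ext i j
    rcases hc with ⟨rfl, -⟩ | ⟨rfl, -⟩ <;> fin_cases i <;> fin_cases j <;>
      simp [G, Matrix.mul_apply] <;> norm_num) (by
    rw [sketch_A]
    ext i j
    fin_cases i; fin_cases j
    simp [G, Matrix.mul_apply]) 1
  rw [Matrix.mul_assoc (G c), sketch_B, Matrix.mul_one] at h1
  have h2 : (∑ i, ∑ j, ((A - B) i j) ^ 2) = 1 := by
    simp [A, B, Fin.sum_univ_two]
  rw [h2, Real.sqrt_one, mul_one] at h1
  have h3 : (∑ i, ∑ j, ((A * (G c * !![c * (201 / 200) + c * σ * (1 / 200);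
      c * (1 / 200) + c * σ * (201 / 200)]) - B) i j) ^ 2) =
      (c ^ 2 + c ^ 2 * σ * (201 / 20201) - 1) ^ 2 + 1 := by
    simp [A, B, G, Fin.sum_univ_two]
    ring
  rw [h3] at h1
  have h4 : (1 + 1 / 30000 : ℝ) ≤ Real.sqrt ((c ^ 2 + c ^ 2 * σ * (201 / 20201) - 1) ^ 2 + 1) := by
    apply Real.le_sqrt_of_sq_le
    rcases hc with ⟨rfl, rfl⟩ | ⟨rfl, rfl | rfl⟩ <;> norm_num
  linarith

/-- The negation of the preceding statement: There are constants C and c₀>0 such that, for any isotropic n×k random matrix Ω that is a dimension-d OSI with injectivity 1−ε and failure 0.01, sketch-and-solve has error at most (1+Cε)·OPT with probability at least c₀. -/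
theorem result :
    ¬ (∃ C : ℝ, ∃ c₀ : ℝ, 0 < c₀ ∧
    ∀ (n d p k : ℕ), 0 < n → 0 < d → 0 < p → 0 < k →
    ∀ ε : ℝ, 0 < ε → ε < 1 →
    ∀ (A : Matrix (Fin n) (Fin d) ℝ), A.rank = d →
    ∀ (B : Matrix (Fin n) (Fin p) ℝ),
    ∀ (μ : Measure (Fin n → Fin k → ℝ)) [IsProbabilityMeasure μ],
      (∀ x : Fin n → ℝ, ∫ ω, (∑ j, (∑ i, ω i j * x i) ^ 2) ∂μ = ∑ i, x i ^ 2) →
      (∀ V : Submodule ℝ (Fin n → ℝ), Module.finrank ℝ V = d →
         ENNReal.ofReal (99 / 100) ≤
           μ {ω | ∀ x ∈ V, (1 - ε) * ∑ i, x i ^ 2 ≤ ∑ j, (∑ i, ω i j * x i) ^ 2}) →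
      ENNReal.ofReal c₀ ≤ μ {ω | ∀ G : Matrix (Fin d) (Fin k) ℝ,
          (Matrix.transpose (Matrix.of ω) * A) * G * (Matrix.transpose (Matrix.of ω) * A)
              = Matrix.transpose (Matrix.of ω) * A →
          G * (Matrix.transpose (Matrix.of ω) * A) * G = G →
          Matrix.transpose ((Matrix.transpose (Matrix.of ω) * A) * G)
              = (Matrix.transpose (Matrix.of ω) * A) * G →
          Matrix.transpose (G * (Matrix.transpose (Matrix.of ω) * A))
              = G * (Matrix.transpose (Matrix.of ω) * A) →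
          ∀ X : Matrix (Fin d) (Fin p) ℝ,
            Real.sqrt (∑ i, ∑ j, ((A * (G * Matrix.transpose (Matrix.of ω) * B) - B) i j) ^ 2) ≤
              (1 + C * ε) * Real.sqrt (∑ i, ∑ j, ((A * X - B) i j) ^ 2)}) := by
  rintro ⟨C, c₀, hc₀, h⟩
  have hden : 0 < 100000 * (|C| + 1) := by positivity
  have hε : 0 < 1 / (100000 * (|C| + 1)) := by positivity
  have hε1 : 1 / (100000 * (|C| + 1)) < 1 := by
    rw [div_lt_one hden]
    nlinarith [abs_nonneg C]
  have hCε : C * (1 / (100000 * (|C| + 1))) ≤ 1 / 100000 := by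
    rw [mul_one_div, div_le_div_iff₀ hden (by norm_num)]
    nlinarith [le_abs_self C]
  have h1 := h 2 1 1 2 (by norm_num) (by norm_num) (by norm_num) (by norm_num)
    (1 / (100000 * (|C| + 1))) hε hε1 A rank_A B law isotropic
    (fun V _ => injective_law hε V)
  rw [law_apply, Set.indicator_of_notMem (bad hCε (Or.inl ⟨rfl, rfl⟩)),
    Set.indicator_of_notMem (bad hCε (Or.inr ⟨rfl, Or.inl rfl⟩)),
    Set.indicator_of_notMem (bad hCε (Or.inr ⟨rfl, Or.inr rfl⟩))] at h1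
  simp only [mul_zero, add_zero, nonpos_iff_eq_zero, ENNReal.ofReal_eq_zero] at h1
  linarith

end Pool.Agent.S04624
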