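import Pool.Statements.S04862
import Pool.Agent.Q81.Crit7

set_option autoImplicit false
open Pool Pool.MP_63a02b_an

namespace Pool.Agent.S04862

open Q81.Crit in
instance : TopologicalSpace.SeparableSpace L1 := by
  have h := (Set.countable_range dd).isSeparable.span (R := ℂ)
  have h2 : TopologicalSpace.IsSeparable (Set.univ : Set L1) := by
    rw [← dense_dd.closure_eq]
    exact h.closure
  exact TopologicalSpace.isSeparable_univ_iff.1 h2

/-- The negation of the preceding statement: Every operator on a real or complex separable F-space that is chaotic, topologically mixing and frequently hypercyclic admits a dense set X0 and a self-map S of X0 with the series of T^n x and S^n x unconditionally convergent and TSx = x on X0. -/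
theorem result :
    ¬ (∀ (𝕂 : Type) [RCLike 𝕂] (X : Type) [AddCommGroup X] [Module 𝕂 X] [UniformSpace X]
      [IsUniformAddGroup X] [CompleteSpace X] [TopologicalSpace.MetrizableSpace X]
      [TopologicalSpace.SeparableSpace X] [ContinuousSMul 𝕂 X] (T : X →L[𝕂] X),
      ((∃ x : X, Dense (Set.range (fun n : ℕ => (T ^ n) x))) ∧
        Dense {x : X | ∃ n : ℕ, 0 < n ∧ (T ^ n) x = x}) →
      (∀ U V : Set X, IsOpen U → IsOpen V → U.Nonempty → V.Nonempty →
        ∃ N : ℕ, ∀ n : ℕ, N ≤ n → ((⇑(T ^ n)) ⁻¹' V ∩ U).Nonempty) →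
      (∃ x : X, ∀ U : Set X, IsOpen U → U.Nonempty →
        ∃ δ : ℝ, 0 < δ ∧ ∃ N₀ : ℕ, ∀ N : ℕ, N₀ ≤ N →
          δ * (N : ℝ) ≤ (Nat.card {n : ℕ // n < N ∧ (T ^ n) x ∈ U} : ℝ)) →
      ∃ X₀ : Set X, Dense X₀ ∧ ∃ S : X → X, (∀ x ∈ X₀, S x ∈ X₀) ∧
        ∀ x ∈ X₀, Summable (fun n : ℕ => (T ^ n) x) ∧
          Summable (fun n : ℕ => S^[n] x) ∧ T (S x) = x) := by
  intro h
  have h1 := h ℂ Q81.Crit.L1 Q81.Crit.TT
    ⟨Q81.Crit.atoms.hypercyclic, Q81.Crit.atoms.dense_periodic⟩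
    Q81.Crit.atoms.mixing Q81.Crit.atoms.fhc
  obtain ⟨X₀, hX₀, S, -, hS⟩ := h1
  have h2 : ∀ x ∈ X₀, x = 0 := by
    intro x hx
    by_contra hne
    exact Q81.Crit.not_summable hne (hS x hx).1
  have h3 : ∃ x ∈ X₀, x ∈ Metric.ball (Q81.Crit.ee 0) 1 := by
    obtain ⟨x, hx1, hx2⟩ := hX₀.inter_open_nonempty _ Metric.isOpen_ball
      ⟨Q81.Crit.ee 0, Metric.mem_ball_self one_pos⟩
    exact ⟨x, hx2, hx1⟩
  obtain ⟨x, hx, hxb⟩ := h3
  rw [h2 x hx, Metric.mem_ball, dist_zero_left, Q81.Crit.norm_ee] at hxb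
  exact lt_irrefl _ hxb

end Pool.Agent.S04862
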