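import Pool.Statements.S05106

set_option autoImplicit false
open Pool Pool.MP_7987d1_an

namespace Pool.Agent.S05106

/-- the phase of the front along the line, as a function of the point -/
theorem hasFDerivAt_phase (a b : ℝ) (x : EuclideanSpace ℝ (Fin 1)) :
    HasFDerivAt (fun y : EuclideanSpace ℝ (Fin 1) => a * y 0 + b)
      (a • (EuclideanSpace.proj (0 : Fin 1) : EuclideanSpace ℝ (Fin 1) →L[ℝ] ℝ)) x := by
  have h := ((EuclideanSpace.proj (0 : Fin 1) : EuclideanSpace ℝ (Fin 1) →L[ℝ] ℝ).hasFDerivAt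
    (x := x)).const_mul a
  exact h.add_const b

theorem fderiv_front (a b : ℝ) :
    fderiv ℝ (fun y : EuclideanSpace ℝ (Fin 1) => Real.sigmoid (a * y 0 + b)) =
      fun x => (Real.sigmoid (a * x 0 + b) * (1 - Real.sigmoid (a * x 0 + b)) * a) •
        (EuclideanSpace.proj (0 : Fin 1) : EuclideanSpace ℝ (Fin 1) →L[ℝ] ℝ) := by
  funext x
  have h := (Real.hasDerivAt_sigmoid (a * x 0 + b)).comp_hasFDerivAt x (hasFDerivAt_phase a b x)
  rw [show (fun y : EuclideanSpace ℝ (Fin 1) => Real.sigmoid (a * y 0 + b)) =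
    Real.sigmoid ∘ (fun y : EuclideanSpace ℝ (Fin 1) => a * y 0 + b) from rfl, h.fderiv]
  rw [smul_smul]

theorem fderiv2_front (a b : ℝ) (x : EuclideanSpace ℝ (Fin 1)) :
    fderiv ℝ (fderiv ℝ (fun y : EuclideanSpace ℝ (Fin 1) => Real.sigmoid (a * y 0 + b))) x
      (EuclideanSpace.single 0 (1 : ℝ)) (EuclideanSpace.single 0 (1 : ℝ)) =
      a ^ 2 * (Real.sigmoid (a * x 0 + b) * (1 - Real.sigmoid (a * x 0 + b)) *
        (1 - 2 * Real.sigmoid (a * x 0 + b))) := by
  rw [fderiv_front]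
  have h := (Real.hasDerivAt_sigmoid (a * x 0 + b)).comp_hasFDerivAt x (hasFDerivAt_phase a b x)
  have h1 : HasFDerivAt (fun y : EuclideanSpace ℝ (Fin 1) =>
      Real.sigmoid (a * y 0 + b) * (1 - Real.sigmoid (a * y 0 + b)) * a)
      ((a ^ 2 * (Real.sigmoid (a * x 0 + b) * (1 - Real.sigmoid (a * x 0 + b)) *
        (1 - 2 * Real.sigmoid (a * x 0 + b)))) •
        (EuclideanSpace.proj (0 : Fin 1) : EuclideanSpace ℝ (Fin 1) →L[ℝ] ℝ)) x := by
    have h2 := (h.mul (h.const_sub 1)).mul_const a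
    refine h2.congr_fderiv ?_
    ext v
    simp only [Function.comp, smul_apply, add_apply, neg_apply, smul_eq_mul]
    ring
  have h3 := h1.smul_const (EuclideanSpace.proj (0 : Fin 1) : EuclideanSpace ℝ (Fin 1) →L[ℝ] ℝ)
  rw [h3.fderiv]
  simp

/-- The negation of the preceding statement: For 1≤n≤8, every C² solution of Δu−u_t=u³−u for t<0 with ∣u∣≤1, ∂u/∂x_n>0 and u_t≥0 has the form u(x,t)=g(ν·x) for a unit vector ν, i.e. is one-dimensional and time-independent. -/
theorem result :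
    ¬ (∀ m : ℕ, m + 1 ≤ 8 → ∀ u : EuclideanSpace ℝ (Fin (m + 1)) × ℝ → ℝ,
    ContDiffOn ℝ 2 u {p | p.2 < 0} →
    (∀ x : EuclideanSpace ℝ (Fin (m + 1)), ∀ t : ℝ, t < 0 →
      |u (x, t)| ≤ 1 ∧
      (∑ i : Fin (m + 1), iteratedFDeriv ℝ 2 (fun y => u (y, t)) x
          (fun _ => EuclideanSpace.single i (1 : ℝ)))
        - deriv (fun s => u (x, s)) t = u (x, t) ^ 3 - u (x, t) ∧
      0 < fderiv ℝ (fun y => u (y, t)) x (EuclideanSpace.single (Fin.last m) (1 : ℝ)) ∧
      0 ≤ deriv (fun s => u (x, s)) t) →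
    ∃ ν : EuclideanSpace ℝ (Fin (m + 1)), ‖ν‖ = 1 ∧
      ∃ g : ℝ → ℝ, ∀ x : EuclideanSpace ℝ (Fin (m + 1)), ∀ t : ℝ, t < 0 →
        u (x, t) = g (inner ℝ ν x)) := by
  intro H
  set a : ℝ := 1 / Real.sqrt 2 with ha
  have hs : Real.sqrt 2 ^ 2 = 2 := Real.sq_sqrt (by norm_num)
  have ha2 : a ^ 2 = 1 / 2 := by rw [ha, div_pow, hs]; norm_num
  have hapos : 0 < a := by positivity
  have hsig : ∀ z : ℝ, 0 < Real.sigmoid z * (1 - Real.sigmoid z) := fun z =>
    mul_pos (Real.sigmoid_pos z) (by linarith [Real.sigmoid_lt_one z])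
  have hdt : ∀ (x : EuclideanSpace ℝ (Fin 1)) (t : ℝ),
      deriv (fun s => Real.sigmoid (a * x 0 + 3 / 2 * s)) t =
      Real.sigmoid (a * x 0 + 3 / 2 * t) * (1 - Real.sigmoid (a * x 0 + 3 / 2 * t)) * (3 / 2) := by
    intro x t
    have h1 : HasDerivAt (fun s : ℝ => a * x 0 + 3 / 2 * s) (3 / 2) t := by
      simpa using ((hasDerivAt_id t).const_mul (3 / 2 : ℝ)).const_add (a * x 0)
    exact ((Real.hasDerivAt_sigmoid (a * x 0 + 3 / 2 * t)).comp t h1).deriv
  obtain ⟨ν, hν, g, hg⟩ := H 0 (by norm_num)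
    (fun p : EuclideanSpace ℝ (Fin 1) × ℝ => Real.sigmoid (a * p.1 0 + 3 / 2 * p.2))
    (by
      apply ContDiff.contDiffOn
      have h1 : ContDiff ℝ 2 (fun p : EuclideanSpace ℝ (Fin 1) × ℝ => a * p.1 0 + 3 / 2 * p.2) := by
        fun_prop
      exact (_root_.contDiff_sigmoid.of_le le_top).comp h1)
    (by
      intro x t ht
      refine ⟨?_, ?_, ?_, ?_⟩
      · rw [abs_le]
        constructor
        · linarith [Real.sigmoid_pos (a * x 0 + 3 / 2 * t)]
        · exact Real.sigmoid_le_one _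
      · have h0 : (∑ i : Fin (0 + 1), iteratedFDeriv ℝ 2
            (fun y : EuclideanSpace ℝ (Fin (0 + 1)) => Real.sigmoid (a * y 0 + 3 / 2 * t)) x
            (fun _ => EuclideanSpace.single i (1 : ℝ))) =
            fderiv ℝ (fderiv ℝ (fun y : EuclideanSpace ℝ (Fin 1) =>
              Real.sigmoid (a * y 0 + 3 / 2 * t))) x
            (EuclideanSpace.single 0 (1 : ℝ)) (EuclideanSpace.single 0 (1 : ℝ)) := by
          erw [Fin.sum_univ_one, iteratedFDeriv_two_apply]
        have h1 := hdt x t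
        have h2 := fderiv2_front a (3 / 2 * t) x
        simp only [] at h0 h1 h2 ⊢
        rw [h0, h2, ha2]
        erw [h1]
        ring
      · have h0 : fderiv ℝ (fun y : EuclideanSpace ℝ (Fin 1) =>
            Real.sigmoid (a * y 0 + 3 / 2 * t)) x (EuclideanSpace.single 0 (1 : ℝ)) =
            Real.sigmoid (a * x 0 + 3 / 2 * t) * (1 - Real.sigmoid (a * x 0 + 3 / 2 * t)) * a := by
          rw [fderiv_front]
          simp
        have h1 : 0 < fderiv ℝ (fun y : EuclideanSpace ℝ (Fin 1) =>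
            Real.sigmoid (a * y 0 + 3 / 2 * t)) x (EuclideanSpace.single 0 (1 : ℝ)) := by
          rw [h0]
          exact mul_pos (hsig _) hapos
        exact h1
      · simp only [hdt x t]
        have := hsig (a * x 0 + 3 / 2 * t)
        positivity)
  have h1 := hg 0 (-1) (by norm_num)
  have h2 := hg 0 (-2) (by norm_num)
  have h3 : Real.sigmoid (a * (0 : EuclideanSpace ℝ (Fin 1)) 0 + 3 / 2 * (-1)) =
      Real.sigmoid (a * (0 : EuclideanSpace ℝ (Fin 1)) 0 + 3 / 2 * (-2)) := by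
    simp only at h1 h2
    rw [h1, h2]
  have h4 := Real.sigmoid_injective h3
  linarith

end Pool.Agent.S05106
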