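import Pool.Statements.S05156
-- import your own Pool.Agent.* helpers here

set_option autoImplicit false
open Pool Pool.MP_7d5b5f_an

namespace Pool.Agent.S05156

/-- The negation of the preceding statement: For each p>1 there is C, independent of dimension d and coordinate k, so the discrete Riesz transform with kernel Γ((d+1)/2)π^{-(d+1)/2} x_k/∣x∣^{d+1} on ℤ^d is bounded on ℓ^p with norm at most C (tested on finitely supported f). -/
theorem result :
    ¬ (∀ p : ℝ, 1 < p → ∃ C : ℝ, 0 < C ∧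
      ∀ (d : ℕ) (k : Fin d) (S T : Finset (Fin d → ℤ)) (f : (Fin d → ℤ) → ℝ),
        ∑ n ∈ T, |∑ m ∈ S,
            ((Real.Gamma (((d : ℝ) + 1) / 2) / Real.pi ^ (((d : ℝ) + 1) / 2)) *
              (((n k - m k : ℤ) : ℝ) /
                (Real.sqrt (∑ i, (((n i - m i : ℤ) : ℝ)) ^ 2)) ^ (d + 1))) * f m| ^ p
          ≤ C ^ p * ∑ m ∈ S, |f m| ^ p) := by
  intro H
  obtain ⟨C, hC, h⟩ := H 2 (by norm_num)
  -- the normalising constants tend to infinity along odd dimensions
  have hlim : Filter.Tendsto (fun n : ℕ => Real.pi ^ n / (n.factorial : ℝ)) Filter.atTop (nhds 0) :=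
    FloorSemiring.tendsto_pow_div_factorial_atTop Real.pi
  have hpos : (0 : ℝ) < 1 / (Real.pi * (C + 1)) := by
    have := Real.pi_pos
    positivity
  obtain ⟨n, hn⟩ := (hlim.eventually (gt_mem_nhds hpos)).exists
  -- dimension d = 2n+1, coordinate k = 0
  have key := h (2 * n + 1) (0 : Fin (2 * n + 1)) {0} {Pi.single 0 1} (fun _ => 1)
  simp only [Finset.sum_singleton] at key
  have hs : (∑ i : Fin (2 * n + 1), ((((Pi.single (0 : Fin (2 * n + 1)) (1 : ℤ) : Fin (2 * n + 1) → ℤ) i
      - (0 : Fin (2 * n + 1) → ℤ) i : ℤ) : ℝ)) ^ 2) = 1 := by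
    rw [Finset.sum_eq_single (0 : Fin (2 * n + 1))]
    · simp
    · intro b _ hb
      simp [hb]
    · simp
  rw [hs] at key
  have e1 : (((2 * n + 1 : ℕ) : ℝ) + 1) / 2 = (n : ℝ) + 1 := by
    push_cast; ring
  rw [e1, Real.Gamma_nat_eq_factorial] at key
  have e2 : Real.pi ^ ((n : ℝ) + 1) = Real.pi ^ (n + 1) := by
    rw [← Nat.cast_succ, Real.rpow_natCast]
  rw [e2] at key
  simp only [Pi.single_eq_same, Pi.zero_apply, sub_zero, Int.cast_one, Real.sqrt_one, one_pow,
    div_one, mul_one, abs_one, Real.one_rpow] at key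
  have hfac : (0 : ℝ) < (n.factorial : ℝ) := by exact_mod_cast n.factorial_pos
  have hpi := Real.pi_pos
  have hc : C < (n.factorial : ℝ) / Real.pi ^ (n + 1) := by
    have h1 : Real.pi ^ n * (Real.pi * (C + 1)) < (n.factorial : ℝ) := by
      have := (div_lt_div_iff₀ hfac (by positivity)).1 hn
      linarith
    rw [lt_div_iff₀ (by positivity), pow_succ]
    have h2 : 0 < Real.pi ^ n * Real.pi := by positivity
    nlinarith
  have h0 : (0 : ℝ) ≤ (n.factorial : ℝ) / Real.pi ^ (n + 1) := by positivity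
  rw [abs_of_nonneg h0] at key
  have h3 : C ^ (2 : ℝ) < ((n.factorial : ℝ) / Real.pi ^ (n + 1)) ^ (2 : ℝ) :=
    Real.rpow_lt_rpow hC.le hc (by norm_num)
  linarith

end Pool.Agent.S05156
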