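import Pool.Statements.S05242
-- import your own Pool.Agent.* helpers here

set_option autoImplicit false
open Pool Pool.MP_830bfa_an

namespace Pool.Agent.S05242

/-!
The map `F(x, y, z) = (r cos y, r sin y, arsinh (x e^{-z}))`, `r = 1 + √(x² + e^{2z})`, of `ℝ³` is
`2π`-periodic in `y`, and all eigenvalues of its Jacobian matrices have modulus at least `1/4`.
-/

/-- `S = √(x² + e^{2z})`. -/
noncomputable def SS (v : Fin 3 → ℝ) : ℝ := √(v 0 ^ 2 + Real.exp (2 * v 2))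

/-- The counterexample. -/
noncomputable def F (v : Fin 3 → ℝ) : Fin 3 → ℝ :=
  ![(1 + SS v) * Real.cos (v 1), (1 + SS v) * Real.sin (v 1), Real.arsinh (v 0 * Real.exp (-v 2))]

/-- Its Jacobian matrix. -/
noncomputable def JM (v : Fin 3 → ℝ) : Matrix (Fin 3) (Fin 3) ℝ :=
  !![v 0 / SS v * Real.cos (v 1), -((1 + SS v) * Real.sin (v 1)),
      Real.exp (2 * v 2) / SS v * Real.cos (v 1);
    v 0 / SS v * Real.sin (v 1), (1 + SS v) * Real.cos (v 1),
      Real.exp (2 * v 2) / SS v * Real.sin (v 1);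
    1 / SS v, 0, -(v 0 / SS v)]

lemma arg_pos (v : Fin 3 → ℝ) : 0 < v 0 ^ 2 + Real.exp (2 * v 2) := by positivity

lemma SS_pos (v : Fin 3 → ℝ) : 0 < SS v := Real.sqrt_pos.2 (arg_pos v)

lemma SS_sq (v : Fin 3 → ℝ) : SS v ^ 2 = v 0 ^ 2 + Real.exp (2 * v 2) :=
  Real.sq_sqrt (arg_pos v).le

lemma contDiff_SS : ContDiff ℝ 1 SS := by
  unfold SS
  refine ContDiff.sqrt ?_ fun v => (arg_pos v).ne'
  fun_prop

lemma contDiff_F : ContDiff ℝ 1 F := by
  rw [contDiff_pi]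
  intro i
  have h := contDiff_SS
  fin_cases i
  · show ContDiff ℝ 1 fun v => (1 + SS v) * Real.cos (v 1)
    fun_prop
  · show ContDiff ℝ 1 fun v => (1 + SS v) * Real.sin (v 1)
    fun_prop
  · show ContDiff ℝ 1 fun v : Fin 3 → ℝ => Real.arsinh (v 0 * Real.exp (-v 2))
    exact Real.contDiff_arsinh.comp (by fun_prop)

/-- Shorthand for the coordinate functionals. -/
noncomputable abbrev pr (i : Fin 3) : (Fin 3 → ℝ) →L[ℝ] ℝ := ContinuousLinearMap.proj i

lemma hasFDerivAt_pr (i : Fin 3) (v : Fin 3 → ℝ) :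
    HasFDerivAt (fun w : Fin 3 → ℝ => w i) (pr i) v := (pr i).hasFDerivAt

/-- The derivative of `SS`. -/
noncomputable def LS (v : Fin 3 → ℝ) : (Fin 3 → ℝ) →L[ℝ] ℝ :=
  (v 0 / SS v) • pr 0 + (Real.exp (2 * v 2) / SS v) • pr 2

lemma hasFDerivAt_SS (v : Fin 3 → ℝ) : HasFDerivAt SS (LS v) v := by
  have h1 : HasFDerivAt (fun w : Fin 3 → ℝ => w 0 ^ 2) ((2 * v 0) • pr 0) v := by
    refine ((hasFDerivAt_pr 0 v).pow 2).congr_fderiv ?_
    ext w
    simp
  have h2 : HasFDerivAt (fun w : Fin 3 → ℝ => Real.exp (2 * w 2))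
      ((2 * Real.exp (2 * v 2)) • pr 2) v := by
    refine (((hasFDerivAt_pr 2 v).const_mul 2).exp).congr_fderiv ?_
    ext w
    simp
    ring
  have h3 : HasFDerivAt (fun w : Fin 3 → ℝ => w 0 ^ 2 + Real.exp (2 * w 2))
      ((2 * v 0) • pr 0 + (2 * Real.exp (2 * v 2)) • pr 2) v := h1.add h2
  have h4 := h3.sqrt (arg_pos v).ne'
  refine HasFDerivAt.congr_fderiv (f := SS) h4 ?_
  have hS := SS_pos v
  show (1 / (2 * SS v)) • _ = _
  unfold LS
  ext w
  simp only [smul_add, _root_.add_apply, _root_.smul_apply,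
    ContinuousLinearMap.proj_apply, smul_eq_mul]
  field_simp

/-- First row of the derivative. -/
noncomputable def L0 (v : Fin 3 → ℝ) : (Fin 3 → ℝ) →L[ℝ] ℝ :=
  (-((1 + SS v) * Real.sin (v 1))) • pr 1 + Real.cos (v 1) • LS v

/-- Second row of the derivative. -/
noncomputable def L1 (v : Fin 3 → ℝ) : (Fin 3 → ℝ) →L[ℝ] ℝ :=
  ((1 + SS v) * Real.cos (v 1)) • pr 1 + Real.sin (v 1) • LS v

/-- Third row of the derivative. -/
noncomputable def L2 (v : Fin 3 → ℝ) : (Fin 3 → ℝ) →L[ℝ] ℝ :=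
  (1 / SS v) • pr 0 + (-(v 0 / SS v)) • pr 2

lemma hasFDerivAt_L0 (v : Fin 3 → ℝ) :
    HasFDerivAt (fun w : Fin 3 → ℝ => (1 + SS w) * Real.cos (w 1)) (L0 v) v := by
  have h := ((hasFDerivAt_SS v).const_add 1).mul (hasFDerivAt_pr 1 v).cos
  refine HasFDerivAt.congr_fderiv h ?_
  unfold L0
  ext w
  simp only [_root_.add_apply, _root_.smul_apply,
    ContinuousLinearMap.proj_apply, smul_eq_mul]
  ring

lemma hasFDerivAt_L1 (v : Fin 3 → ℝ) :
    HasFDerivAt (fun w : Fin 3 → ℝ => (1 + SS w) * Real.sin (w 1)) (L1 v) v := by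
  have h := ((hasFDerivAt_SS v).const_add 1).mul (hasFDerivAt_pr 1 v).sin
  refine HasFDerivAt.congr_fderiv h ?_
  unfold L1
  ext w
  simp only [_root_.add_apply, _root_.smul_apply,
    ContinuousLinearMap.proj_apply, smul_eq_mul]
  ring

lemma hasFDerivAt_L2 (v : Fin 3 → ℝ) :
    HasFDerivAt (fun w : Fin 3 → ℝ => Real.arsinh (w 0 * Real.exp (-w 2))) (L2 v) v := by
  have h2 : HasFDerivAt (fun w : Fin 3 → ℝ => Real.exp (-w 2)) ((-Real.exp (-v 2)) • pr 2) v := by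
    refine ((hasFDerivAt_pr 2 v).neg.exp).congr_fderiv ?_
    ext w
    simp
  have h := ((hasFDerivAt_pr 0 v).mul h2).arsinh
  refine HasFDerivAt.congr_fderiv h ?_
  have hS := SS_pos v
  have he : 0 < Real.exp (-v 2) := Real.exp_pos _
  have h3 : √(1 + (v 0 * Real.exp (-v 2)) ^ 2) = SS v * Real.exp (-v 2) := by
    have h4 : Real.exp (2 * v 2) * Real.exp (-v 2) ^ 2 = 1 := by
      rw [← Real.exp_nat_mul, ← Real.exp_add]
      have : 2 * v 2 + ((2 : ℕ) : ℝ) * -v 2 = 0 := by push_cast; ring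
      rw [this, Real.exp_zero]
    have h5 : 1 + (v 0 * Real.exp (-v 2)) ^ 2 = (SS v * Real.exp (-v 2)) ^ 2 := by
      rw [mul_pow (SS v), SS_sq, add_mul, h4]; ring
    rw [h5, Real.sqrt_sq (by positivity)]
  show (√(1 + (v 0 * Real.exp (-v 2)) ^ 2))⁻¹ • _ = _
  rw [h3]
  unfold L2
  ext w
  simp only [smul_add, _root_.add_apply, _root_.smul_apply,
    ContinuousLinearMap.proj_apply, smul_eq_mul]
  field_simp
  ring

lemma hasFDerivAt_F (v : Fin 3 → ℝ) :
    HasFDerivAt F (ContinuousLinearMap.pi ![L0 v, L1 v, L2 v]) v := by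
  refine hasFDerivAt_pi.2 (fun i => ?_)
  fin_cases i
  · exact hasFDerivAt_L0 v
  · exact hasFDerivAt_L1 v
  · exact hasFDerivAt_L2 v

lemma toMatrix_F (v : Fin 3 → ℝ) :
    LinearMap.toMatrix' ((fderiv ℝ F v : (Fin 3 → ℝ) →L[ℝ] (Fin 3 → ℝ)) :
      (Fin 3 → ℝ) →ₗ[ℝ] (Fin 3 → ℝ)) = JM v := by
  rw [(hasFDerivAt_F v).fderiv]
  ext i j
  rw [LinearMap.toMatrix'_apply]
  fin_cases i <;> fin_cases j <;> simp [JM, L0, L1, L2, LS] <;> ring

lemma det_JM (v : Fin 3 → ℝ) : (JM v).det = -(1 + SS v) := by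
  have hS := SS_pos v
  have h1 := SS_sq v
  have h2 := Real.sin_sq_add_cos_sq (v 1)
  rw [Matrix.det_fin_three]
  simp only [JM, Matrix.of_apply, Matrix.cons_val', Matrix.cons_val_zero, Matrix.cons_val_one,
    Matrix.cons_val]
  have h3 : v 0 / SS v * (v 0 / SS v) + Real.exp (2 * v 2) / SS v * (1 / SS v) = 1 := by
    field_simp
    linarith
  linear_combination (-(1 + SS v)) * (Real.sin (v 1) ^ 2 + Real.cos (v 1) ^ 2) * h3 -
    (1 + SS v) * h2

/-- The characteristic equation. -/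
lemma char_eq (v : Fin 3 → ℝ) {z : ℂ} (hz : Polynomial.aeval z (JM v).charpoly = 0) :
    z ^ 3 - ((Real.cos (v 1) * (v 0 / SS v + (1 + SS v)) - v 0 / SS v : ℝ) : ℂ) * z ^ 2 +
      (((1 + SS v) * (v 0 / SS v) - Real.cos (v 1) * (1 + (1 + SS v) * (v 0 / SS v)) : ℝ) : ℂ) * z +
      ((1 + SS v : ℝ) : ℂ) = 0 := by
  have hS := SS_pos v
  have h1 := SS_sq v
  have h2 := Real.sin_sq_add_cos_sq (v 1)
  have h3 : v 0 / SS v * (v 0 / SS v) + Real.exp (2 * v 2) / SS v * (1 / SS v) = 1 := by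
    field_simp
    linarith
  have h2' := congrArg (fun x : ℝ => (x : ℂ)) h2
  have h3' := congrArg (fun x : ℝ => (x : ℂ)) h3
  have hm : Polynomial.aeval z (JM v).charpoly =
      (Matrix.scalar (Fin 3) z - (JM v).map (algebraMap ℝ ℂ)).det := by
    rw [← Matrix.eval_charpoly, Matrix.charpoly_map, Polynomial.eval_map, Polynomial.aeval_def]
  rw [hm, Matrix.det_fin_three] at hz
  simp only [JM, Matrix.sub_apply, Matrix.scalar_apply, Matrix.map_apply, Matrix.of_apply,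
    Matrix.cons_val', Matrix.cons_val_zero, Matrix.cons_val_one, Matrix.cons_val,
    Complex.coe_algebraMap, Matrix.diagonal_apply_eq] at hz
  have d01 : Matrix.diagonal (fun _ : Fin 3 => z) 0 1 = 0 := by simp
  have d02 : Matrix.diagonal (fun _ : Fin 3 => z) 0 2 = 0 := by simp
  have d10 : Matrix.diagonal (fun _ : Fin 3 => z) 1 0 = 0 := by simp
  have d12 : Matrix.diagonal (fun _ : Fin 3 => z) 1 2 = 0 := by simp
  have d20 : Matrix.diagonal (fun _ : Fin 3 => z) 2 0 = 0 := by simp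
  have d21 : Matrix.diagonal (fun _ : Fin 3 => z) 2 1 = 0 := by simp
  simp only [d01, d02, d10, d12, d20, d21] at hz
  clear hm h1 h2 h3 d01 d02 d10 d12 d20 d21
  generalize v 0 / SS v = p at *
  generalize Real.exp (2 * v 2) / SS v = q at *
  generalize 1 / SS v = i at *
  generalize SS v = S at *
  generalize Real.cos (v 1) = c at *
  generalize Real.sin (v 1) = s at *
  push_cast at h2' h3' hz ⊢
  linear_combination hz - ((1 + (S : ℂ)) * p * z + (1 + S)) * h2' +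
    (c * z - (1 + S) * (s ^ 2 + c ^ 2)) * h3'

lemma eig_bound (v : Fin 3 → ℝ) {z : ℂ} (hz : Polynomial.aeval z (JM v).charpoly = 0) :
    1 / 4 ≤ ‖z‖ := by
  have hS := SS_pos v
  have h1 := SS_sq v
  have h0 := char_eq v hz
  set p := v 0 / SS v with hp
  have hp1 : |p| ≤ 1 := by
    rw [hp, abs_div, abs_of_pos hS, div_le_one hS]
    refine abs_le_of_sq_le_sq ?_ hS.le
    rw [h1]
    have := Real.exp_pos (2 * v 2)
    linarith
  have hc : |Real.cos (v 1)| ≤ 1 := Real.abs_cos_le_one _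
  generalize Real.cos (v 1) = c at *
  generalize SS v = S at *
  clear hp h1 hz
  set T : ℝ := c * (p + (1 + S)) - p with hT
  set Q : ℝ := (1 + S) * p - c * (1 + (1 + S) * p) with hQ
  have hTb : |T| ≤ 3 + S := by
    have e1 : |c * (p + (1 + S))| ≤ 1 * (1 + (1 + S)) := by
      rw [abs_mul]
      refine mul_le_mul hc ?_ (abs_nonneg _) zero_le_one
      refine (abs_add_le _ _).trans (add_le_add hp1 ?_)
      rw [abs_of_pos (by linarith)]
    have e2 : |T| ≤ |c * (p + (1 + S))| + |p| := abs_sub _ _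
    linarith
  have hQb : |Q| ≤ 2 * (1 + S) + 1 := by
    have e0 : |(1 + S) * p| ≤ 1 + S := by
      rw [abs_mul, abs_of_pos (show 0 < 1 + S by linarith)]
      nlinarith
    have e1 : |c * (1 + (1 + S) * p)| ≤ 1 * (1 + (1 + S)) := by
      rw [abs_mul]
      refine mul_le_mul hc ?_ (abs_nonneg _) zero_le_one
      refine (abs_add_le _ _).trans (add_le_add (by norm_num) e0)
    have e2 : |Q| ≤ |(1 + S) * p| + |c * (1 + (1 + S) * p)| := abs_sub _ _
    linarith
  by_contra hlt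
  push Not at hlt
  have h2 : ((1 + S : ℝ) : ℂ) = -(z ^ 3) + (T : ℂ) * z ^ 2 - (Q : ℂ) * z := by
    linear_combination h0
  have h3 := congrArg norm h2
  rw [Complex.norm_real, Real.norm_of_nonneg (by linarith)] at h3
  have h4 : ‖-(z ^ 3) + (T : ℂ) * z ^ 2 - (Q : ℂ) * z‖ ≤
      ‖z‖ ^ 3 + |T| * ‖z‖ ^ 2 + |Q| * ‖z‖ := by
    refine (norm_sub_le _ _).trans (add_le_add ((norm_add_le _ _).trans (add_le_add ?_ ?_)) ?_)
    · rw [norm_neg, norm_pow]
    · rw [norm_mul, norm_pow, Complex.norm_real, Real.norm_eq_abs]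
    · rw [norm_mul, Complex.norm_real, Real.norm_eq_abs]
  have hz0 : 0 ≤ ‖z‖ := norm_nonneg z
  generalize ‖z‖ = t at *
  have e3 : t ^ 2 ≤ 1 / 16 := by nlinarith
  have e4 : t ^ 3 ≤ 1 / 64 := by
    have : t ^ 3 = t * t ^ 2 := by ring
    rw [this]
    nlinarith
  have e5 : |T| * t ^ 2 ≤ (3 + S) * (1 / 16) :=
    mul_le_mul hTb e3 (by positivity) (by linarith)
  have e6 : |Q| * t ≤ (2 * (1 + S) + 1) * (1 / 4) :=
    mul_le_mul hQb hlt.le hz0 (by linarith)
  linarith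

/-- The negation of the preceding statement: For every n ≥ 2, a C¹ map f from ℝⁿ to ℝⁿ whose Jacobian is everywhere invertible, with every complex eigenvalue of every Jacobian of modulus at least some fixed ε > 0, is injective. -/
theorem result :
    ¬ (∀ n : ℕ, 2 ≤ n → ∀ f : (Fin n → ℝ) → (Fin n → ℝ), ContDiff ℝ 1 f →
      (∀ x : Fin n → ℝ,
        (LinearMap.toMatrix' ((fderiv ℝ f x : (Fin n → ℝ) →L[ℝ] (Fin n → ℝ)) :
          (Fin n → ℝ) →ₗ[ℝ] (Fin n → ℝ))).det ≠ 0) →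
      (∃ ε : ℝ, 0 < ε ∧ ∀ x : Fin n → ℝ, ∀ z : ℂ,
        Polynomial.aeval z
          (LinearMap.toMatrix' ((fderiv ℝ f x : (Fin n → ℝ) →L[ℝ] (Fin n → ℝ)) :
            (Fin n → ℝ) →ₗ[ℝ] (Fin n → ℝ))).charpoly = 0 → ε ≤ ‖z‖) →
      Function.Injective f) := by
  intro h
  have hinj := h 3 (by norm_num) F contDiff_F (fun v => by
    rw [toMatrix_F, det_JM]
    have := SS_pos v
    intro h0
    linarith) ⟨1 / 4, by norm_num, fun v z hz => by
      rw [toMatrix_F] at hz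
      exact eig_bound v hz⟩
  have heq : F ![0, 0, 0] = F ![0, 2 * Real.pi, 0] := by
    unfold F SS
    simp
  have h1 := congrFun (hinj heq) 1
  simp at h1

end Pool.Agent.S05242
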