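import Pool.Statements.S05400
import Pool.Agent.Q99.NP.Main

set_option autoImplicit false
open Pool Pool.MP_917bd5_an

namespace Pool.Agent.S05400

/-- The negation of the preceding statement: In every real Banach space that is locally uniformly convex, for every nonempty closed set G, the set of points having exactly one nearest point in G is not meagre (is of second category). -/
theorem result :
    ¬ (∀ (E : Type) [NormedAddCommGroup E] [NormedSpace ℝ E] [CompleteSpace E],
      (∀ x : E, ‖x‖ = 1 → ∀ ε : ℝ, 0 < ε → ∃ δ : ℝ, 0 < δ ∧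
          ∀ y : E, ‖y‖ = 1 → ε ≤ ‖x - y‖ → ‖x + y‖ ≤ 2 - 2 * δ) →
      ∀ G : Set E, IsClosed G → G.Nonempty →
        ¬ IsMeagre {x : E | ∃! y : E, y ∈ G ∧ dist x y = Metric.infDist x G}) := by
  intro h
  exact h Q99.NP.E Q99.NP.luc {g : Q99.NP.E | Q99.NP.F g = 0}
    (isClosed_eq Q99.NP.F.continuous continuous_const) ⟨0, map_zero _⟩ Q99.NP.meagre

end Pool.Agent.S05400
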