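import Pool.Statements.S05466
import Pool.Agent.Q74.GasHelper

set_option autoImplicit false
open MeasureTheory Filter Topology
open Pool Pool.MP_95eb0c_an

namespace Pool.Agent.S05466

/-- The negation of the preceding statement: For ideal gas γ>1, any sequence of bounded weak solutions of 1D Lagrangian gas dynamics on t>0 with uniform bounds τ,p bounded away from 0 and ∣v∣≤V, converging weak-* in L^∞, has velocity and pressure converging in L¹ on every compact subset. -/
theorem result :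
    ¬ (∀ (γ : ℝ), 1 < γ →
  ∀ (τe ve pe : ℕ → ℝ × ℝ → ℝ) (τ v p : ℝ × ℝ → ℝ) (τm τM pm pM V : ℝ),
  0 < τm → τm ≤ τM → 0 < pm → pm ≤ pM →
  (∀ n, AEStronglyMeasurable (τe n) (volume.restrict {z : ℝ × ℝ | 0 < z.2}) ∧
        AEStronglyMeasurable (ve n) (volume.restrict {z : ℝ × ℝ | 0 < z.2}) ∧
        AEStronglyMeasurable (pe n) (volume.restrict {z : ℝ × ℝ | 0 < z.2})) →
  (∀ n, ∀ᵐ z ∂(volume.restrict {z : ℝ × ℝ | 0 < z.2}),
        τm ≤ τe n z ∧ τe n z ≤ τM ∧ pm ≤ pe n z ∧ pe n z ≤ pM ∧ |ve n z| ≤ V) →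
  (∀ n, ∀ φ : ℝ × ℝ → ℝ, ContDiff ℝ ((⊤ : ℕ∞) : WithTop ℕ∞) φ → HasCompactSupport φ →
      tsupport φ ⊆ {z : ℝ × ℝ | 0 < z.2} →
      (∫ z in {z : ℝ × ℝ | 0 < z.2},
          (τe n z * fderiv ℝ φ z (0, 1) - ve n z * fderiv ℝ φ z (1, 0))) = 0 ∧
      (∫ z in {z : ℝ × ℝ | 0 < z.2},
          (ve n z * fderiv ℝ φ z (0, 1) + pe n z * fderiv ℝ φ z (1, 0))) = 0 ∧
      (∫ z in {z : ℝ × ℝ | 0 < z.2},
          ((ve n z ^ 2 / 2 + pe n z * τe n z / (γ - 1)) * fderiv ℝ φ z (0, 1)
            + pe n z * ve n z * fderiv ℝ φ z (1, 0))) = 0) →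
  AEStronglyMeasurable τ (volume.restrict {z : ℝ × ℝ | 0 < z.2}) →
  AEStronglyMeasurable v (volume.restrict {z : ℝ × ℝ | 0 < z.2}) →
  AEStronglyMeasurable p (volume.restrict {z : ℝ × ℝ | 0 < z.2}) →
  (∃ C : ℝ, ∀ᵐ z ∂(volume.restrict {z : ℝ × ℝ | 0 < z.2}),
      |τ z| ≤ C ∧ |v z| ≤ C ∧ |p z| ≤ C) →
  (∀ g : ℝ × ℝ → ℝ, Integrable g (volume.restrict {z : ℝ × ℝ | 0 < z.2}) →
      Tendsto (fun n => ∫ z in {z : ℝ × ℝ | 0 < z.2}, τe n z * g z) atTop
        (𝓝 (∫ z in {z : ℝ × ℝ | 0 < z.2}, τ z * g z)) ∧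
      Tendsto (fun n => ∫ z in {z : ℝ × ℝ | 0 < z.2}, ve n z * g z) atTop
        (𝓝 (∫ z in {z : ℝ × ℝ | 0 < z.2}, v z * g z)) ∧
      Tendsto (fun n => ∫ z in {z : ℝ × ℝ | 0 < z.2}, pe n z * g z) atTop
        (𝓝 (∫ z in {z : ℝ × ℝ | 0 < z.2}, p z * g z))) →
  ∀ K : Set (ℝ × ℝ), IsCompact K → K ⊆ {z : ℝ × ℝ | 0 < z.2} →
    Tendsto (fun n => ∫ z in K, |ve n z - v z|) atTop (𝓝 0) ∧
    Tendsto (fun n => ∫ z in K, |pe n z - p z|) atTop (𝓝 0)) := by
  intro H
  let U : Set (ℝ × ℝ) := {z : ℝ × ℝ | 0 < z.2}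
  have hUm : MeasurableSet U := measurableSet_lt measurable_const measurable_snd
  let h : ℕ → ℝ × ℝ → ℝ := fun n z => Q74.Gas.sq n (z.1 - z.2)
  have hm : ∀ n, Measurable (h n) := fun n =>
    (Q74.Gas.sq_measurable n).comp (measurable_fst.sub measurable_snd)
  have h01 : ∀ n z, h n z = 0 ∨ h n z = 1 := fun n z => Q74.Gas.sq_or n _
  -- test function integrals
  have hker : ∀ φ : ℝ × ℝ → ℝ, ContDiff ℝ ((⊤ : ℕ∞) : WithTop ℕ∞) φ → HasCompactSupport φ →
      tsupport φ ⊆ U → ∀ n (a1 b1 k : ℝ),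
      (∫ z in U, ((a1 + k * h n z) * fderiv ℝ φ z (0, 1) +
        (b1 + k * h n z) * fderiv ℝ φ z (1, 0))) = 0 := by
    intro φ hφ hc hs n a1 b1 k
    have hcd : ∀ v : ℝ × ℝ, Continuous (fun z => fderiv ℝ φ z v) := fun v =>
      (hφ.continuous_fderiv (by simp)).clm_apply continuous_const
    have hcs : ∀ v : ℝ × ℝ, HasCompactSupport (fun z => fderiv ℝ φ z v) := fun v =>
      (hc.fderiv (𝕜 := ℝ)).comp_left (g := fun L : (ℝ × ℝ) →L[ℝ] ℝ => L v) (by simp)
    have hi : ∀ v : ℝ × ℝ, Integrable (fun z => fderiv ℝ φ z v) := fun v =>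
      (hcd v).integrable_of_hasCompactSupport (hcs v)
    have hih : ∀ v : ℝ × ℝ, Integrable (fun z => h n z * fderiv ℝ φ z v) := fun v =>
      (hi v).bdd_mul (hm n).aestronglyMeasurable (c := 1) (Eventually.of_forall fun z => by
        rcases h01 n z with e | e <;> rw [e] <;> simp)
    have hset : (∫ z in U, ((a1 + k * h n z) * fderiv ℝ φ z (0, 1) +
        (b1 + k * h n z) * fderiv ℝ φ z (1, 0))) =
        ∫ z, ((a1 + k * h n z) * fderiv ℝ φ z (0, 1) +
        (b1 + k * h n z) * fderiv ℝ φ z (1, 0)) := by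
      apply setIntegral_eq_integral_of_forall_compl_eq_zero
      intro z hz
      have hz' : z ∉ tsupport φ := fun h => hz (hs h)
      have h0 : fderiv ℝ φ z = 0 := by
        have h1 : φ =ᶠ[𝓝 z] fun _ => 0 := notMem_tsupport_iff_eventuallyEq.mp hz'
        rw [h1.fderiv_eq]; simp
      rw [h0]; simp
    rw [hset]
    have e1 : ∫ z, fderiv ℝ φ z (0, 1) = 0 := by
      have := Q74.Gas.dir_integral hφ hc 0 (H := fun _ => 1) measurable_const (by simp)
      simpa using this
    have e2 : ∫ z, fderiv ℝ φ z (1, 1) = 0 := by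
      have := Q74.Gas.dir_integral hφ hc 1 (H := fun _ => 1) measurable_const (by simp)
      simpa using this
    have e3 : ∫ z, h n z * fderiv ℝ φ z (1, 1) = 0 := by
      have := Q74.Gas.dir_integral hφ hc 1 (H := Q74.Gas.sq n) (Q74.Gas.sq_measurable n)
        (fun y => by rcases Q74.Gas.sq_or n y with e | e <;> rw [e] <;> simp)
      simpa [h] using this
    have e4 : ∀ z, fderiv ℝ φ z (1, 1) = fderiv ℝ φ z (1, 0) + fderiv ℝ φ z (0, 1) := by
      intro z
      rw [← map_add]; simp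
    have e5 : (fun z => ((a1 + k * h n z) * fderiv ℝ φ z (0, 1) +
        (b1 + k * h n z) * fderiv ℝ φ z (1, 0))) =
        fun z => ((a1 - b1) * fderiv ℝ φ z (0, 1) + b1 * fderiv ℝ φ z (1, 1)) +
          k * (h n z * fderiv ℝ φ z (1, 1)) := by
      funext z; rw [e4]; ring
    have i1 : Integrable (fun z => (a1 - b1) * fderiv ℝ φ z (0, 1)) := (hi _).const_mul _
    have i2 : Integrable (fun z => b1 * fderiv ℝ φ z (1, 1)) := (hi _).const_mul _
    have i3 : Integrable (fun z => k * (h n z * fderiv ℝ φ z (1, 1))) := (hih _).const_mul _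
    have i12 : Integrable (fun z => (a1 - b1) * fderiv ℝ φ z (0, 1) +
        b1 * fderiv ℝ φ z (1, 1)) := i1.add i2
    rw [e5, integral_add i12 i3, integral_add i1 i2, integral_const_mul,
      integral_const_mul, integral_const_mul, e1, e2, e3]
    simp
  have hweak : ∀ g : ℝ × ℝ → ℝ, Integrable g (volume.restrict U) → ∀ a k : ℝ,
      Tendsto (fun n => ∫ z in U, (a + k * h n z) * g z) atTop
        (𝓝 (∫ z in U, (a + k * (1 / 2)) * g z)) := by
    intro g hg a k
    have hg' : Integrable (U.indicator g) := (integrable_indicator_iff hUm).mpr hg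
    have h1 := Q74.Gas.osc hg'
    have h2 : ∀ n, ∫ z, Q74.Gas.sq n (z.1 - z.2) * U.indicator g z = ∫ z in U, h n z * g z := by
      intro n
      rw [← integral_indicator hUm]
      congr 1
      funext z
      by_cases hz : z ∈ U
      · simp [Set.indicator_of_mem hz, h]
      · simp [Set.indicator_of_notMem hz]
    simp only [h2] at h1
    rw [integral_indicator hUm] at h1
    have hih : ∀ n, Integrable (fun z => h n z * g z) (volume.restrict U) := fun n =>
      hg.bdd_mul (hm n).aestronglyMeasurable (c := 1) (Eventually.of_forall fun z => by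
        rcases h01 n z with e | e <;> rw [e] <;> simp)
    have h3 := (h1.const_mul k).const_add (a * ∫ z in U, g z)
    have h5 : ∀ n, (∫ z in U, (a + k * h n z) * g z) =
        (a * ∫ z in U, g z) + k * ∫ z in U, h n z * g z := by
      intro n
      rw [← integral_const_mul, ← integral_const_mul,
        ← integral_add (hg.const_mul a) ((hih n).const_mul k)]
      congr 1
      funext z; ring
    simp only [h5]
    convert h3 using 2
    rw [integral_const_mul]
    ring
  have hres := H 3 (by norm_num) (fun n z => 3 + (-1) * h n z) (fun n z => 0 + 1 * h n z)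
    (fun n z => 1 / 3 + 1 * h n z) (fun _ => 3 + (-1) * (1 / 2)) (fun _ => 0 + 1 * (1 / 2))
    (fun _ => 1 / 3 + 1 * (1 / 2)) 2 3 (1 / 3) (4 / 3) 1 (by norm_num) (by norm_num) (by norm_num)
    (by norm_num)
    (fun n => ⟨((hm n).const_mul _ |>.const_add _).aestronglyMeasurable,
      ((hm n).const_mul _ |>.const_add _).aestronglyMeasurable,
      ((hm n).const_mul _ |>.const_add _).aestronglyMeasurable⟩)
    (fun n => Eventually.of_forall fun z => by
      rcases h01 n z with e | e <;> simp only [e] <;> norm_num)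
    (fun n φ hφ hc hs => by
      refine ⟨?_, ?_, ?_⟩
      · refine Eq.trans ?_ (hker φ hφ hc hs n 3 0 (-1))
        refine congrArg (fun f : ℝ × ℝ → ℝ => ∫ z in U, f z) ?_
        funext z; ring
      · exact hker φ hφ hc hs n 0 (1 / 3) 1
      · refine Eq.trans ?_ (hker φ hφ hc hs n (1 / 2) 0 (4 / 3))
        refine congrArg (fun f : ℝ × ℝ → ℝ => ∫ z in U, f z) ?_
        funext z
        rcases h01 n z with e | e <;> simp only [e] <;> ring)
    aestronglyMeasurable_const aestronglyMeasurable_const aestronglyMeasurable_const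
    ⟨3, Eventually.of_forall fun z => by norm_num [abs_le]⟩
    (fun g hg => ⟨hweak g hg 3 (-1), hweak g hg 0 1, hweak g hg (1 / 3) 1⟩)
    (Set.Icc ((0 : ℝ), (1 : ℝ)) (1, 2)) isCompact_Icc (fun z hz => by
      have : (1 : ℝ) ≤ z.2 := hz.1.2
      show 0 < z.2
      linarith)
  have h1 := hres.1
  have h2 : ∀ n, ∫ z in Set.Icc ((0 : ℝ), (1 : ℝ)) (1, 2), |(0 + 1 * h n z) - (0 + 1 * (1 / 2))| =
      1 / 2 := by
    intro n
    have h3 : ∀ z, |(0 + 1 * h n z) - (0 + 1 * (1 / 2))| = 1 / 2 := by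
      intro z
      rcases h01 n z with e | e <;> rw [e] <;> norm_num [abs_of_nonneg]
    simp only [h3]
    rw [setIntegral_const]
    have : (volume : Measure (ℝ × ℝ)).real (Set.Icc ((0 : ℝ), (1 : ℝ)) (1, 2)) = 1 := by
      rw [← Set.Icc_prod_Icc, Measure.real, Measure.volume_eq_prod, Measure.prod_prod]
      simp
      norm_num
    rw [this]; simp
  simp only [h2] at h1
  have := tendsto_nhds_unique h1 tendsto_const_nhds
  norm_num at this


end Pool.Agent.S05466
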