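import Pool.Statements.S05648
import Pool.Agent.Q61.HS4

set_option autoImplicit false
open MeasureTheory Filter Topology
open Pool Pool.MP_a271d0_an

namespace Pool.Agent.S05648

open Q61 in
/-- the unit ball centred at `e₀` -/
theorem aux (u : E3 → ℝ) (G : E3 → E3) (φ : ℕ → E3 → ℝ) (c0 : E3) (hc0 : ‖c0‖ = 1)
    (hu : MemLp u 2 volume) (hG : MemLp G 2 volume)
    (hφ : ∀ n, ContDiff ℝ ((⊤ : ℕ∞) : WithTop ℕ∞) (φ n) ∧
              HasCompactSupport (φ n) ∧ tsupport (φ n) ⊆ Metric.ball c0 1)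
    (h1 : Tendsto (fun n => eLpNorm (fun x => φ n x - u x) 2 volume) atTop (𝓝 0))
    (h2 : Tendsto (fun n => eLpNorm (fun x => gradient (φ n) x - G x) 2 volume) atTop (𝓝 0))
    (hpos : ∀ᵐ x ∂(volume : Measure E3), x ∈ Metric.ball c0 1 → 0 < u x)
    (hw : Weak (Metric.ball c0 1) u G) : False := by
  have hm : TendstoInMeasure volume φ atTop u := by
    refine tendstoInMeasure_of_tendsto_eLpNorm (p := 2) (by norm_num)
      (fun n => (hφ n).1.continuous.aestronglyMeasurable) hu.1 ?_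
    exact h1
  obtain ⟨ns, hns, hae⟩ := hm.exists_seq_tendsto_ae
  have H : H10 (Metric.ball c0 1) u G (fun n => φ (ns n)) :=
    { hu := hu
      hG := hG
      sm := fun n => (hφ (ns n)).1.of_le (by exact_mod_cast le_top)
      cs := fun n => (hφ (ns n)).2.1
      sp := fun n => (hφ (ns n)).2.2
      lim := h1.comp hns.tendsto_atTop
      limG := h2.comp hns.tendsto_atTop
      ae := hae }
  have h0 : (0 : E3) ∉ Metric.ball c0 1 := by
    rw [Metric.mem_ball, dist_eq_norm, zero_sub, norm_neg, hc0]; exact lt_irrefl _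
  have hstar : ∀ c : ℝ, 1 ≤ c → ∀ x : E3, c • x ∈ Metric.ball c0 1 → x ∈ Metric.ball c0 1 := by
    intro c hc x hx
    rw [Metric.mem_ball, dist_eq_norm] at hx ⊢
    have e1 := norm_sub_sq_real (c • x) c0
    have e2 := norm_sub_sq_real x c0
    rw [norm_smul, Real.norm_of_nonneg (by linarith : 0 ≤ c), real_inner_smul_left, hc0] at e1
    rw [hc0] at e2
    have h3 : ‖c • x - c0‖ ^ 2 < 1 := by
      have := norm_nonneg (c • x - c0)
      nlinarith
    have h4 : c * (c * ‖x‖ ^ 2 - 2 * inner ℝ x c0) < 0 := by nlinarith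
    have h5 : c * ‖x‖ ^ 2 - 2 * inner ℝ x c0 < 0 := by
      by_contra hh
      push Not at hh
      have := mul_nonneg (by linarith : 0 ≤ c) hh
      linarith
    have h6 : ‖x - c0‖ ^ 2 < 1 := by
      have : 0 ≤ (c - 1) * ‖x‖ ^ 2 := mul_nonneg (by linarith) (sq_nonneg _)
      nlinarith
    have := norm_nonneg (x - c0)
    nlinarith
  have hmain := H.main h0 hw (fun n => (hφ (ns n)).1) hstar
  have hint : Integrable (fun x => u x ^ 3 * u x) (volume : Measure E3) :=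
    pairR_integrable H.mem3 H.hu
  have hnn : 0 ≤ fun x => u x ^ 3 * u x := fun x => by
    have : u x ^ 3 * u x = (u x ^ 2) ^ 2 := by ring
    simp only [this, Pi.zero_apply]; positivity
  have hz := (integral_eq_zero_iff_of_nonneg hnn hint).1 hmain
  have hfin : ∀ᵐ x ∂(volume : Measure E3), x ∉ Metric.ball c0 1 := by
    filter_upwards [hz, hpos] with x h3 h4 h5
    have h6 := h4 h5
    have h7 : u x ^ 3 * u x = 0 := h3
    have : 0 < u x ^ 3 * u x := by positivity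
    linarith
  rw [ae_iff] at hfin
  simp only [not_not] at hfin
  have hp := Metric.measure_ball_pos (volume : Measure E3) c0 (by norm_num : (0:ℝ) < 1)
  have he : {a | a ∈ Metric.ball c0 1} = Metric.ball c0 1 := rfl
  rw [he] at hfin
  exact hp.ne' hfin

/-- The negation of the preceding statement: For every N≥3, smooth bounded domain Ω in R^N with 0 on its boundary, s in (0,2) and 2*(s)-1<p<(N+2)/(N-2), there is an H^1_0 function u>0 on Ω weakly solving Δu - u^p + u^(2*(s)-1)/∣x∣^s = 0. -/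
theorem result :
    ¬ (∀ (N : ℕ), 3 ≤ N →
  ∀ (Ω : Set (EuclideanSpace ℝ (Fin N))),
    IsOpen Ω → IsConnected Ω → Bornology.IsBounded Ω →
    (∃ ρ : EuclideanSpace ℝ (Fin N) → ℝ,
        ContDiff ℝ ((⊤ : ℕ∞) : WithTop ℕ∞) ρ ∧ Ω = {x | ρ x < 0} ∧
        ∀ x ∈ frontier Ω, fderiv ℝ ρ x ≠ 0) →
    (0 : EuclideanSpace ℝ (Fin N)) ∈ frontier Ω →
  ∀ s : ℝ, 0 < s → s < 2 →
  ∀ p : ℝ, 2 * ((N : ℝ) - s) / ((N : ℝ) - 2) - 1 < p →
    p < ((N : ℝ) + 2) / ((N : ℝ) - 2) →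
  ∃ u : EuclideanSpace ℝ (Fin N) → ℝ,
  ∃ G : EuclideanSpace ℝ (Fin N) → EuclideanSpace ℝ (Fin N),
    MemLp u 2 volume ∧ MemLp G 2 volume ∧
    (∃ φ : ℕ → EuclideanSpace ℝ (Fin N) → ℝ,
        (∀ n, ContDiff ℝ ((⊤ : ℕ∞) : WithTop ℕ∞) (φ n) ∧
              HasCompactSupport (φ n) ∧ tsupport (φ n) ⊆ Ω) ∧
        Tendsto (fun n => eLpNorm (fun x => φ n x - u x) 2 volume) atTop (𝓝 0) ∧
        Tendsto (fun n => eLpNorm (fun x => gradient (φ n) x - G x) 2 volume)
          atTop (𝓝 0)) ∧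
    (∀ᵐ x ∂(volume : Measure (EuclideanSpace ℝ (Fin N))), x ∈ Ω → 0 < u x) ∧
    ∀ ψ : EuclideanSpace ℝ (Fin N) → ℝ,
      ContDiff ℝ ((⊤ : ℕ∞) : WithTop ℕ∞) ψ → HasCompactSupport ψ → tsupport ψ ⊆ Ω →
        Integrable (fun x => inner ℝ (G x) (gradient ψ x)) volume ∧
        Integrable (fun x => u x ^ p * ψ x) volume ∧
        Integrable (fun x => u x ^ (2 * ((N : ℝ) - s) / ((N : ℝ) - 2) - 1) * ψ x / ‖x‖ ^ s)
          volume ∧
        ∫ x, (inner ℝ (G x) (gradient ψ x) + u x ^ p * ψ x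
              - u x ^ (2 * ((N : ℝ) - s) / ((N : ℝ) - 2) - 1) * ψ x / ‖x‖ ^ s) = 0) := by
  intro H
  set c0 : EuclideanSpace ℝ (Fin 3) := EuclideanSpace.single 0 1 with hc0d
  have hc0 : ‖c0‖ = 1 := by simp [hc0d]
  have hΩ : Metric.ball c0 1 = {x : EuclideanSpace ℝ (Fin 3) | ‖x - c0‖ ^ 2 - 1 < 0} := by
    ext x
    rw [Metric.mem_ball, dist_eq_norm, Set.mem_ofPred_eq]
    have := norm_nonneg (x - c0)
    constructor
    · intro h; nlinarith
    · intro h; nlinarith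
  have hfr : frontier (Metric.ball c0 1) = Metric.sphere c0 1 := frontier_ball c0 (by norm_num)
  have hsm : ContDiff ℝ ((⊤ : ℕ∞) : WithTop ℕ∞)
      (fun x : EuclideanSpace ℝ (Fin 3) => ‖x - c0‖ ^ 2 - 1) :=
    ((contDiff_id.sub contDiff_const).norm_sq ℝ).sub contDiff_const
  obtain ⟨u, G, hu, hG, ⟨φ, hφ, h1, h2⟩, hpos, hw⟩ := H 3 le_rfl (Metric.ball c0 1)
    Metric.isOpen_ball ((convex_ball c0 1).isConnected ⟨c0, Metric.mem_ball_self (by norm_num)⟩)
    Metric.isBounded_ball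
    ⟨fun x => ‖x - c0‖ ^ 2 - 1, hsm, hΩ, by
      intro x hx hd
      rw [hfr, mem_sphere_iff_norm] at hx
      have hx0 : HasFDerivAt (fun x : EuclideanSpace ℝ (Fin 3) => ‖x - c0‖ ^ 2 - 1)
          (2 • (innerSL ℝ (x - c0)).comp (ContinuousLinearMap.id ℝ _)) x :=
        (((hasFDerivAt_id x).sub_const c0).norm_sq).sub_const 1
      rw [hx0.fderiv] at hd
      have h3 := DFunLike.congr_fun hd (x - c0)
      simp at h3
      rw [← inner_sub_left, real_inner_self_eq_norm_sq, hx] at h3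
      norm_num at h3⟩
    (by rw [hfr, mem_sphere_iff_norm, zero_sub, norm_neg, hc0])
    (3 / 2) (by norm_num) (by norm_num) 3 (by norm_num) (by norm_num)
  refine aux u G φ c0 hc0 hu hG hφ h1 h2 hpos ?_
  intro ψ hψ hψc hψs
  have h3 := (hw ψ hψ hψc hψs).2.2.2
  rw [← h3]
  congr 1
  funext x
  have e1 : (2 * (((3:ℕ):ℝ) - 3 / 2) / (((3:ℕ):ℝ) - 2) - 1) = 2 := by norm_num
  have e2 : u x ^ (3:ℝ) = u x ^ 3 := by
    rw [← Real.rpow_natCast]; norm_num
  have e3 : u x ^ (2:ℝ) = u x ^ 2 := by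
    rw [← Real.rpow_natCast]; norm_num
  rw [e1, e2, e3]

end Pool.Agent.S05648
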