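import Pool.Statements.S05682
import Pool.Agent.Q90.MsSofic

set_option autoImplicit false
open Filter Topology
open Pool Pool.MP_a51306_an

namespace Pool.Agent.S05682

/-- The negation of the preceding statement: For every countable group: if every asymptotically multiplicative sequence of unitary-matrix maps (operator norm) is close to true representations, then the same holds with the normalized Hilbert–Schmidt norm. -/
theorem result :
    ¬ (∀ (G : Type) [Group G] [Countable G],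
      (∀ (k : ℕ → ℕ) (φ : ∀ n : ℕ, G → Matrix.unitaryGroup (Fin (k n)) ℂ),
        (∀ g h : G, Tendsto (fun n : ℕ =>
            ‖Matrix.toEuclideanCLM (𝕜 := ℂ)
              ((φ n (g * h)).val - (φ n g).val * (φ n h).val)‖) atTop (𝓝 0)) →
        ∃ ρ : ∀ n : ℕ, G →* Matrix.unitaryGroup (Fin (k n)) ℂ,
          ∀ g : G, Tendsto (fun n : ℕ =>
            ‖Matrix.toEuclideanCLM (𝕜 := ℂ) ((φ n g).val - (ρ n g).val)‖) atTop (𝓝 0)) →
      (∀ (k : ℕ → ℕ) (φ : ∀ n : ℕ, G → Matrix.unitaryGroup (Fin (k n)) ℂ),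
        (∀ g h : G, Tendsto (fun n : ℕ =>
            (Matrix.trace (Matrix.conjTranspose
                ((φ n (g * h)).val - (φ n g).val * (φ n h).val) *
              ((φ n (g * h)).val - (φ n g).val * (φ n h).val))).re / (k n : ℝ))
            atTop (𝓝 0)) →
        ∃ ρ : ∀ n : ℕ, G →* Matrix.unitaryGroup (Fin (k n)) ℂ,
          ∀ g : G, Tendsto (fun n : ℕ =>
            (Matrix.trace (Matrix.conjTranspose ((φ n g).val - (ρ n g).val) *
              ((φ n g).val - (ρ n g).val))).re / (k n : ℝ)) atTop (𝓝 0))) := by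
  intro H
  have : Fact (Nat.Prime 37) := ⟨by norm_num⟩
  have hK : 36 ≤ Fintype.card (ZMod 37) := by rw [ZMod.card]; norm_num
  have : Countable (Q90.MS.GT (ZMod 37)) := Q90.MS.countable_G
  obtain ⟨ρ, hρ⟩ := H (Q90.MS.GT (ZMod 37)) (fun _ φ hφ => Q90.MS.mat_stable hK φ hφ)
    (fun N => Fintype.card (Q90.MS.Zn (ZMod 37) N)) (fun N g => Q90.MS.PU (Q90.MS.apx N g))
    (fun g h => Q90.MS.apx_asym g h)
  have h1 := hρ (Q90.MS.uG 0 1)
  have h2 : (1 : ℝ) ≤ 0 := by
    refine ge_of_tendsto h1 ?_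
    filter_upwards [eventually_gt_atTop 0] with N hN
    rw [Q90.MS.hom_kill hK (ρ N) 0 1]
    have e : ((1 : Matrix.unitaryGroup (Fin (Fintype.card (Q90.MS.Zn (ZMod 37) N))) ℂ)).val =
        Q90.MS.PM 1 := Q90.MS.PM_one.symm
    rw [e, Q90.MS.PU_val, Q90.MS.trace_PM]
    have hne : Nonempty (Q90.MS.Zn (ZMod 37) N) := ⟨(⟨0, hN⟩, 0)⟩
    have hpos : (0 : ℝ) < (Fintype.card (Q90.MS.Zn (ZMod 37) N) : ℝ) := by
      exact_mod_cast Fintype.card_pos
    rw [le_div_iff₀ hpos, one_mul]
    exact_mod_cast Q90.MS.moved (K := ZMod 37) N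
  norm_num at h2

end Pool.Agent.S05682
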