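import Pool.Statements.S05718
import Pool.Agent.Q86.ToepG

set_option autoImplicit false
open MeasureTheory Filter Topology
open Pool Pool.MP_a70d84_an

namespace Pool.Agent.S05718

open Pool.Agent.Q86.Toep in
/-- The generators. -/
theorem gen_mem {a : Pool.Agent.Helper917.Hardy.Circ → ℂ} (h : Bd a) :
    (fun n => P n * toep h * P n) ∈
      {G : ℕ → (lp (fun _ : ℕ => ℂ) 2 →L[ℂ] lp (fun _ : ℕ => ℂ) 2) |
        ∃ a : Lp ℂ ⊤ (volume : Measure (AddCircle (1 : ℝ))),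
        ∃ T : lp (fun _ : ℕ => ℂ) 2 →L[ℂ] lp (fun _ : ℕ => ℂ) 2,
          (∀ j k : ℕ, (T (lp.single 2 k (1 : ℂ) : lp (fun _ : ℕ => ℂ) 2)) j
              = fourierCoeff (⇑a : AddCircle (1 : ℝ) → ℂ) ((j : ℤ) - (k : ℤ))) ∧
          ∀ n, G n = P n * T * P n} := by
  obtain ⟨b, hb⟩ := exists_Lp h
  refine ⟨b, toep h, fun j k => ?_, fun n => rfl⟩
  rw [hb]
  exact toep_entry h j k

open Pool.Agent.Q86.Toep in
theorem not_tendsto : ¬ Tendsto (fun n => ‖S bd_g n‖) atTop (𝓝 0) := by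
  intro h
  rw [Metric.tendsto_atTop] at h
  obtain ⟨m, hm⟩ := h (1 / 2) (by norm_num)
  obtain ⟨n, hn, f, hf0, hf, hest⟩ := g_low m
  have h1 := lower bd_g an_g norm_g_le hf hest
  have h2 := hm n hn
  rw [dist_zero_right, norm_norm] at h2
  have h3 : ‖f‖ ≤ ‖S bd_g n f‖ + ‖S bd_g n f - f‖ := by
    calc ‖f‖ = ‖S bd_g n f - (S bd_g n f - f)‖ := by congr 1; abel
      _ ≤ _ := norm_sub_le _ _
  have h4 := (S bd_g n).le_opNorm f
  have h5 : 0 < ‖f‖ := norm_pos_iff.2 hf0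
  have h6 : ‖S bd_g n‖ * ‖f‖ < 1 / 2 * ‖f‖ := mul_lt_mul_of_pos_right h2 h5
  linarith

/-- The negation of the preceding statement: On ℓ²(ℕ), a finite-section sequence has the form P_nKP_n+W_nK'W_n+C_n (K,K' compact, ‖C_n‖→0) iff it lies in the closed algebra generated by P_nT(a)P_n, a∈L^∞, and both s-lim A_n and s-lim W_nA_nW_n are compact. -/
theorem result :
    ¬ (∀ (P W : ℕ → (lp (fun _ : ℕ => ℂ) 2 →L[ℂ] lp (fun _ : ℕ => ℂ) 2)),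
    (∀ (n : ℕ) (x : lp (fun _ : ℕ => ℂ) 2) (j : ℕ), (P n x) j = if j ≤ n then x j else 0) →
    (∀ (n : ℕ) (x : lp (fun _ : ℕ => ℂ) 2) (j : ℕ), (W n x) j = if j ≤ n then x (n - j) else 0) →
    ∀ A : ℕ → (lp (fun _ : ℕ => ℂ) 2 →L[ℂ] lp (fun _ : ℕ => ℂ) 2),
      (∃ K K' : lp (fun _ : ℕ => ℂ) 2 →L[ℂ] lp (fun _ : ℕ => ℂ) 2,
        IsCompactOperator K ∧ IsCompactOperator K' ∧
        ∃ C : ℕ → (lp (fun _ : ℕ => ℂ) 2 →L[ℂ] lp (fun _ : ℕ => ℂ) 2),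
          (∀ n, C n = P n * C n * P n) ∧
          Tendsto (fun n => ‖C n‖) atTop (𝓝 0) ∧
          ∀ n, A n = P n * K * P n + W n * K' * W n + C n)
      ↔
      ((∀ ε : ℝ, 0 < ε →
          ∃ B ∈ NonUnitalAlgebra.adjoin ℂ
            {G : ℕ → (lp (fun _ : ℕ => ℂ) 2 →L[ℂ] lp (fun _ : ℕ => ℂ) 2) |
              ∃ a : Lp ℂ ⊤ (volume : Measure (AddCircle (1 : ℝ))),
              ∃ T : lp (fun _ : ℕ => ℂ) 2 →L[ℂ] lp (fun _ : ℕ => ℂ) 2,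
                (∀ j k : ℕ, (T (lp.single 2 k (1 : ℂ) : lp (fun _ : ℕ => ℂ) 2)) j
                    = fourierCoeff (⇑a : AddCircle (1 : ℝ) → ℂ) ((j : ℤ) - (k : ℤ))) ∧
                ∀ n, G n = P n * T * P n},
            ∀ n, ‖A n - B n‖ ≤ ε) ∧
       (∃ K : lp (fun _ : ℕ => ℂ) 2 →L[ℂ] lp (fun _ : ℕ => ℂ) 2,
          IsCompactOperator K ∧ ∀ x, Tendsto (fun n => A n x) atTop (𝓝 (K x))) ∧
       (∃ K : lp (fun _ : ℕ => ℂ) 2 →L[ℂ] lp (fun _ : ℕ => ℂ) 2,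
          IsCompactOperator K ∧
          ∀ x, Tendsto (fun n => (W n * A n * W n) x) atTop (𝓝 (K x))))) := by
  intro H
  have h1 := (H Q86.Toep.P Q86.Toep.W Q86.Toep.P_apply Q86.Toep.W_apply
    (Q86.Toep.S Q86.Toep.bd_g)).2 ⟨?_, ⟨0, isCompactOperator_zero, ?_⟩,
      ⟨0, isCompactOperator_zero, ?_⟩⟩
  · exact Q86.Toep.not_in_J (Q86.Toep.tendsto_S Q86.Toep.bd_g Q86.Toep.an_g Q86.Toep.norm_g_le)
      (Q86.Toep.tendsto_WSW Q86.Toep.bd_g Q86.Toep.an_g Q86.Toep.norm_g_le) not_tendsto h1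
  · intro ε hε
    refine ⟨Q86.Toep.S Q86.Toep.bd_g, ?_, fun n => by rw [sub_self, norm_zero]; exact hε.le⟩
    have hR := NonUnitalAlgebra.subset_adjoin ℂ
      (gen_mem (Q86.Toep.Bd.mul Q86.Toep.bd_g.conj Q86.Toep.bd_g))
    have hT := NonUnitalAlgebra.subset_adjoin ℂ (gen_mem Q86.Toep.bd_g)
    have hT' := NonUnitalAlgebra.subset_adjoin ℂ (gen_mem Q86.Toep.bd_g.conj)
    have hA1 := sub_mem hR (mul_mem hT hT')
    have hA2 := sub_mem hR (mul_mem hT' hT)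
    exact mul_mem hA1 hA2
  · exact Q86.Toep.tendsto_S Q86.Toep.bd_g Q86.Toep.an_g Q86.Toep.norm_g_le
  · exact Q86.Toep.tendsto_WSW Q86.Toep.bd_g Q86.Toep.an_g Q86.Toep.norm_g_le

end Pool.Agent.S05718
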