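import Pool.Statements.S06166
import Pool.Agent.Q4.Apo.Fin

set_option autoImplicit false
open Pool Pool.MP_cc6c48_an

namespace Pool.Agent.S06166

/-- The negation of the preceding statement: For every Apollonian packing P and every Möbius group preserving P whose limit set is the closure of P, the orbit of any circle separating the limit set is either closed or dense in the space of circles meeting the limit set. -/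
theorem result :
    ¬ (∀ (P : Set (Set (OnePoint ℂ))),
  (∃ C₁ C₂ C₃ C₄ : Set (OnePoint ℂ),
    (∃ g : Matrix.GeneralLinearGroup (Fin 2) ℂ, C₁ = (fun w : OnePoint ℂ => g • w) '' (insert (OnePoint.infty : OnePoint ℂ) (Set.range (fun x : ℝ => OnePoint.some (x : ℂ))))) ∧
    (∃ g : Matrix.GeneralLinearGroup (Fin 2) ℂ, C₂ = (fun w : OnePoint ℂ => g • w) '' (insert (OnePoint.infty : OnePoint ℂ) (Set.range (fun x : ℝ => OnePoint.some (x : ℂ))))) ∧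
    (∃ g : Matrix.GeneralLinearGroup (Fin 2) ℂ, C₃ = (fun w : OnePoint ℂ => g • w) '' (insert (OnePoint.infty : OnePoint ℂ) (Set.range (fun x : ℝ => OnePoint.some (x : ℂ))))) ∧
    (∃ g : Matrix.GeneralLinearGroup (Fin 2) ℂ, C₄ = (fun w : OnePoint ℂ => g • w) '' (insert (OnePoint.infty : OnePoint ℂ) (Set.range (fun x : ℝ => OnePoint.some (x : ℂ))))) ∧
    (∃! p, p ∈ C₁ ∩ C₂) ∧ (∃! p, p ∈ C₁ ∩ C₃) ∧ (∃! p, p ∈ C₁ ∩ C₄) ∧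
    (∃! p, p ∈ C₂ ∩ C₃) ∧ (∃! p, p ∈ C₂ ∩ C₄) ∧ (∃! p, p ∈ C₃ ∩ C₄) ∧
    C₁ ∩ C₂ ∩ C₃ = ∅ ∧ C₁ ∩ C₂ ∩ C₄ = ∅ ∧ C₁ ∩ C₃ ∩ C₄ = ∅ ∧ C₂ ∩ C₃ ∩ C₄ = ∅ ∧
    P = ⋂₀ {F : Set (Set (OnePoint ℂ)) | C₁ ∈ F ∧ C₂ ∈ F ∧ C₃ ∈ F ∧ C₄ ∈ F ∧
      ∀ S ∈ F, ∀ T ∈ F, ∀ U ∈ F, ∀ V : Set (OnePoint ℂ),
        (∃ g : Matrix.GeneralLinearGroup (Fin 2) ℂ, V = (fun w : OnePoint ℂ => g • w) '' (insert (OnePoint.infty : OnePoint ℂ) (Set.range (fun x : ℝ => OnePoint.some (x : ℂ))))) →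
        (∃! p, p ∈ S ∩ T) → (∃! p, p ∈ T ∩ U) → (∃! p, p ∈ S ∩ U) → S ∩ T ∩ U = ∅ →
        (∃! p, p ∈ V ∩ S) → (∃! p, p ∈ V ∩ T) → (∃! p, p ∈ V ∩ U) → V ∈ F}) →
  ∀ Γ : Subgroup (Matrix.GeneralLinearGroup (Fin 2) ℂ),
  (∀ g ∈ Γ, ∀ S : Set (OnePoint ℂ), S ∈ P ↔ (fun w : OnePoint ℂ => g • w) '' S ∈ P) →
  (∀ z : OnePoint ℂ, derivedSet {w : OnePoint ℂ | ∃ g ∈ Γ, w = g • z} = closure (⋃₀ P)) →
  ∀ C : Set (OnePoint ℂ),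
  (∃ g : Matrix.GeneralLinearGroup (Fin 2) ℂ,
    C = (fun w : OnePoint ℂ => g • w) '' (insert (OnePoint.infty : OnePoint ℂ) (Set.range (fun x : ℝ => OnePoint.some (x : ℂ)))) ∧
    ((fun w : OnePoint ℂ => g • w) '' (OnePoint.some '' {z : ℂ | 0 < z.im}) ∩ closure (⋃₀ P)).Nonempty ∧
    ((fun w : OnePoint ℂ => g • w) '' (OnePoint.some '' {z : ℂ | z.im < 0}) ∩ closure (⋃₀ P)).Nonempty) →
  (IsClosed {h : Matrix.GeneralLinearGroup (Fin 2) ℂ | ∃ γ ∈ Γ,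
      (fun w : OnePoint ℂ => h • w) '' (insert (OnePoint.infty : OnePoint ℂ) (Set.range (fun x : ℝ => OnePoint.some (x : ℂ)))) = (fun w : OnePoint ℂ => γ • w) '' C} ∨
   ∀ h : Matrix.GeneralLinearGroup (Fin 2) ℂ,
     ((fun w : OnePoint ℂ => h • w) '' (insert (OnePoint.infty : OnePoint ℂ) (Set.range (fun x : ℝ => OnePoint.some (x : ℂ)))) ∩ closure (⋃₀ P)).Nonempty →
     h ∈ closure {h' : Matrix.GeneralLinearGroup (Fin 2) ℂ | ∃ γ ∈ Γ,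
       (fun w : OnePoint ℂ => h' • w) '' (insert (OnePoint.infty : OnePoint ℂ) (Set.range (fun x : ℝ => OnePoint.some (x : ℂ)))) = (fun w : OnePoint ℂ => γ • w) '' C})) := by
  intro hmain
  -- the quadruple
  have hcirc : ∀ v : Q4.Apo.ZV, (∃ p ∈ Q4.Apo.G, v = p.2 Q4.Apo.e1) →
      ∃ g : Matrix.GeneralLinearGroup (Fin 2) ℂ, Q4.Apo.circ v = (fun w : OnePoint ℂ => g • w) '' (insert (OnePoint.infty : OnePoint ℂ) (Set.range (fun x : ℝ => OnePoint.some (x : ℂ)))) := by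
    rintro v ⟨p, hp, rfl⟩
    exact Q4.Apo.IsCirc_orb hp
  have hc2 : ∃ p ∈ Q4.Apo.G, Q4.Apo.e2 = p.2 Q4.Apo.e1 := ⟨_, Q4.Apo.r_mem, Q4.Apo.r_e1.symm⟩
  have hc3 : ∃ p ∈ Q4.Apo.G, Q4.Apo.e3 = p.2 Q4.Apo.e1 :=
    ⟨Q4.Apo.s * Q4.Apo.r, Q4.Apo.G.mul_mem Q4.Apo.s_mem Q4.Apo.r_mem, by
      rw [Q4.Apo.mul2, Q4.Apo.r_e1, Q4.Apo.s_e2]⟩
  have hc4 : ∃ p ∈ Q4.Apo.G, Q4.Apo.e4 = p.2 Q4.Apo.e1 :=
    ⟨_, Q4.Apo.G.mul_mem (Q4.Apo.G.mul_mem Q4.Apo.t_mem Q4.Apo.s_mem) Q4.Apo.r_mem,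
      Q4.Apo.e4_orb⟩
  have h := hmain Q4.Apo.PP ⟨Q4.Apo.circ Q4.Apo.e1, Q4.Apo.circ Q4.Apo.e2, Q4.Apo.circ Q4.Apo.e3,
    Q4.Apo.circ Q4.Apo.e4, hcirc _ ⟨1, Q4.Apo.G.one_mem, rfl⟩, hcirc _ hc2, hcirc _ hc3,
    hcirc _ hc4, Q4.Apo.Tg_comm.mp Q4.Apo.T21, Q4.Apo.Tg_comm.mp Q4.Apo.T31,
    Q4.Apo.Tg_comm.mp Q4.Apo.T41, Q4.Apo.Tg_comm.mp Q4.Apo.T32, Q4.Apo.Tg_comm.mp Q4.Apo.T42,
    Q4.Apo.Tg_comm.mp Q4.Apo.T43, Q4.Apo.trip123, Q4.Apo.trip124, Q4.Apo.trip134,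
    Q4.Apo.trip234, rfl⟩ Q4.Apo.Gam (fun g hg S => Q4.Apo.Gam_PP hg S)
    (fun z => Set.Subset.antisymm (fun x hx => Q4.Apo.der_sub z hx)
      (fun x hx => Q4.Apo.der_sup hx z)) Q4.Apo.Cs ⟨Q4.Apo.ht 1, Q4.Apo.Cs_eq, ?_, ?_⟩
  · rcases h with h | h
    · exact Q4.Apo.not_closed h
    · exact Q4.Apo.not_dense h
  · exact Q4.Apo.sep_up
  · exact Q4.Apo.sep_low

end Pool.Agent.S06166
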