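import Pool.Statements.S06190
import Pool.Agent.Q89.JC.Fin

set_option autoImplicit false
open scoped CStarMatrix
open Pool Pool.MP_cdaa24_an

namespace Pool.Agent.S06190

/-- The negation of the preceding statement: For all C*-algebras A, B and Hilbert spaces H, every jointly completely bounded bilinear map A×B→B(H) splits as φ₁(a,b)+φ₂(b,a), with φ₁ multiplicatively (Haagerup) bounded on A×B and φ₂ multiplicatively bounded on B×A. -/
theorem result :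
    ¬ (∀ (A B H : Type) [NonUnitalCStarAlgebra A] [PartialOrder A] [StarOrderedRing A]
      [NonUnitalCStarAlgebra B] [PartialOrder B] [StarOrderedRing B]
      [NormedAddCommGroup H] [InnerProductSpace ℂ H] [CompleteSpace H]
      (φ : A →ₗ[ℂ] B →ₗ[ℂ] (H →L[ℂ] H)),
      (∃ C : ℝ, ∀ (n m : ℕ) (a : CStarMatrix (Fin n) (Fin n) A)
          (b : CStarMatrix (Fin m) (Fin m) B) (x : Fin n × Fin m → H),
          ∑ p : Fin n × Fin m, ‖∑ q : Fin n × Fin m, φ (a p.1 q.1) (b p.2 q.2) (x q)‖ ^ 2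
            ≤ (C * ‖a‖ * ‖b‖) ^ 2 * ∑ q : Fin n × Fin m, ‖x q‖ ^ 2) →
      ∃ (φ₁ : A →ₗ[ℂ] B →ₗ[ℂ] (H →L[ℂ] H)) (φ₂ : B →ₗ[ℂ] A →ₗ[ℂ] (H →L[ℂ] H)),
        (∃ C : ℝ, ∀ (n : ℕ) (a : CStarMatrix (Fin n) (Fin n) A)
            (b : CStarMatrix (Fin n) (Fin n) B) (x : Fin n → H),
            ∑ i : Fin n, ‖∑ j : Fin n, ∑ k : Fin n, φ₁ (a i k) (b k j) (x j)‖ ^ 2
              ≤ (C * ‖a‖ * ‖b‖) ^ 2 * ∑ j : Fin n, ‖x j‖ ^ 2) ∧
        (∃ C : ℝ, ∀ (n : ℕ) (b : CStarMatrix (Fin n) (Fin n) B)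
            (a : CStarMatrix (Fin n) (Fin n) A) (x : Fin n → H),
            ∑ i : Fin n, ‖∑ j : Fin n, ∑ k : Fin n, φ₂ (b i k) (a k j) (x j)‖ ^ 2
              ≤ (C * ‖b‖ * ‖a‖) ^ 2 * ∑ j : Fin n, ‖x j‖ ^ 2) ∧
        ∀ (a : A) (b : B), φ a b = φ₁ a b + φ₂ b a) := by
  intro h
  letI : PartialOrder Q89.JC.AA := CStarAlgebra.spectralOrder Q89.JC.AA
  haveI : StarOrderedRing Q89.JC.AA := CStarAlgebra.spectralOrderedRing Q89.JC.AA
  have he : ∀ k, Orthonormal ℂ (fun s : ZMod (Q89.JC.PP k) => Q89.JC.bas s.val) :=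
    fun k => Q89.JC.bas.orthonormal.comp _ (ZMod.val_injective _)
  have he0 : ‖Q89.JC.bas 0‖ = 1 := Q89.JC.bas.orthonormal.1 0
  obtain ⟨φ₁, φ₂, ⟨C₁, h1⟩, ⟨C₂, h2⟩, h3⟩ := h Q89.JC.AA Q89.JC.AA Q89.JC.HH
    (Q89.JC.tot (fun k (i : ZMod (Q89.JC.PP k)) => Q89.JC.evt (k, i.val))
      (fun k (i : ZMod (Q89.JC.PP k)) => Q89.JC.evt (k, i.val)) Q89.JC.PP_ne he he0)
    ⟨2, fun n m a b x => Q89.JC.tot_jcb _ _ Q89.JC.PP_ne he he0 a b x⟩
  refine Q89.JC.no_dec _ _ Q89.JC.PP_ne (fun k => (Nat.le_add_right _ 2).trans (Q89.JC.PP_ge k))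
    he he0 Q89.JC.OP_ind Q89.JC.OP_ind ?_ ?_ ?_ φ₁ φ₂ C₁ C₂ h1 h2 h3
  · intro k i j
    rw [Q89.JC.evt_ind]
    by_cases hij : i = j
    · subst hij
      simp
    · rw [if_neg hij, if_neg]
      intro hh
      exact hij (ZMod.val_injective _ (Prod.mk.inj hh).2)
  · intro k l hkl i j
    rw [Q89.JC.evt_ind, if_neg]
    intro hh
    exact hkl (Prod.mk.inj hh).1
  · intro k i j
    rw [Q89.JC.evt_ind]
    by_cases hij : i = j
    · subst hij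
      simp
    · rw [if_neg hij, if_neg]
      intro hh
      exact hij (ZMod.val_injective _ (Prod.mk.inj hh).2)

end Pool.Agent.S06190
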