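import Pool.Statements.S06280
import Pool.Agent.Q72.Germ.Main

set_option autoImplicit false
open Pool Pool.MP_d4c9a2_an

namespace Pool.Agent.S06280

/-- The negation of the preceding statement: For every holomorphic germ f of ℂⁿ fixing 0 that is non-invertible and dominant, the orders of vanishing c(f^k) of its iterates at 0 eventually satisfy a linear recursion with integer coefficients. -/
theorem result :
    ¬ (∀ (n : ℕ) (f : (Fin n → ℂ) → (Fin n → ℂ)),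
      AnalyticAt ℂ f 0 → f 0 = 0 →
      (fderiv ℂ f 0).det = 0 →
      (∀ ε : ℝ, 0 < ε → ∃ z : Fin n → ℂ, ‖z‖ < ε ∧ (fderiv ℂ f z).det ≠ 0) →
      ∃ (d : ℕ) (a : Fin d → ℤ) (K : ℕ), ∀ k : ℕ, K ≤ k →
        ((sInf {m : ℕ | iteratedFDeriv ℂ m (f^[k + d]) 0 ≠ 0} : ℕ) : ℤ) =
          ∑ i : Fin d, a i *
            ((sInf {m : ℕ | iteratedFDeriv ℂ m (f^[k + (i : ℕ)]) 0 ≠ 0} : ℕ) : ℤ)) := by
  intro h
  obtain ⟨d, a, K, hK⟩ := h 6 (Q72.Germ.mono Q72.Germ.AA) (Q72.Germ.analyticAt_mono _ _)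
    Q72.Germ.mono_AA_zero
    (by
      rw [Q72.Germ.fderiv_zero]
      show LinearMap.det ((0 : (Fin 6 → ℂ) →L[ℂ] (Fin 6 → ℂ)) : (Fin 6 → ℂ) →ₗ[ℂ] (Fin 6 → ℂ)) = 0
      have : ((0 : (Fin 6 → ℂ) →L[ℂ] (Fin 6 → ℂ)) : (Fin 6 → ℂ) →ₗ[ℂ] (Fin 6 → ℂ)) = 0 := rfl
      rw [this, LinearMap.det_zero]
      simp)
    (by
      intro ε hε
      refine ⟨fun _ => ((ε / 2 : ℝ) : ℂ), ?_, Q72.Germ.det_ne_zero ?_⟩
      · rw [pi_norm_lt_iff hε]
        intro i
        rw [Complex.norm_real, Real.norm_of_nonneg (by positivity)]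
        linarith
      · exact_mod_cast (by positivity : (ε / 2 : ℝ) ≠ 0))
  apply Q72.Germ.no_recursion (d := d) (K := K) a
  intro k hk
  have h1 := hK k hk
  rw [Q72.Germ.order_iterate] at h1
  rw [h1]
  apply Finset.sum_congr rfl
  intro i _
  rw [Q72.Germ.order_iterate]

end Pool.Agent.S06280
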