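import Pool.Statements.S06444
import Pool.Agent.Q87.OneONL
import Pool.Agent.Q87.GirthA

set_option autoImplicit false
open MeasureTheory
open scoped ENNReal
open Pool Pool.MP_e081a1_an

namespace Pool.Agent.S06444

/-- The negation of the preceding statement: For every p in [1,∞) other than 2, every bounded geometry metric space with the p-operator norm localization property (ℓ^p-valued L^p, all nonzero locally finite Borel measures) has Yu's property A. -/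
theorem result :
    ¬ (∀ (p : ℝ≥0∞) [Fact (1 ≤ p)], p ≠ ⊤ → p ≠ 2 →
    ∀ (X : Type) [MetricSpace X] [MeasurableSpace X] [BorelSpace X],
      (∀ R : ℝ, 0 < R → ∃ N : ℕ, ∀ x : X,
          (Metric.ball x R).Finite ∧ (Metric.ball x R).ncard ≤ N) →
      (∃ c : ℝ, 0 < c ∧ c ≤ 1 ∧ ∃ f : ℕ → ℕ, Monotone f ∧
        ∀ (ν : Measure X) [IsLocallyFiniteMeasure ν], ν ≠ 0 → ∀ r : ℕ,
          ∀ T : Lp (lp (fun _ : ℕ => ℝ) p) p ν →L[ℝ] Lp (lp (fun _ : ℕ => ℝ) p) p ν,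
            (∀ x y : X, (r : ℝ) < dist x y →
              ∃ U V : Set X, IsOpen U ∧ IsOpen V ∧ x ∈ U ∧ y ∈ V ∧
                ∀ g : Lp (lp (fun _ : ℕ => ℝ) p) p ν,
                  (∀ᵐ z ∂ν, z ∉ U → ⇑g z = 0) → ∀ᵐ z ∂ν, z ∈ V → ⇑(T g) z = 0) →
            ∃ ξ : Lp (lp (fun _ : ℕ => ℝ) p) p ν, ξ ≠ 0 ∧
              (∃ S : Set X, (∀ a ∈ S, ∀ b ∈ S, dist a b ≤ (f r : ℝ)) ∧
                ∀ᵐ z ∂ν, z ∉ S → ⇑ξ z = 0) ∧
              c * ‖T‖ * ‖ξ‖ ≤ ‖T ξ‖) →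
      (∀ R : ℝ, 0 < R → ∀ ε : ℝ, 0 < ε →
        ∃ S : ℝ, ∃ A : X → Set (X × ℕ),
          (∀ x, (A x).Finite) ∧ (∀ x, (x, 0) ∈ A x) ∧
          (∀ x, ∀ w ∈ A x, dist w.1 x ≤ S) ∧
          ∀ x y, dist x y < R →
            ((symmDiff (A x) (A y)).ncard : ℝ) < ε * ((A x ∩ A y).ncard : ℝ))) := by
  intro h
  letI : MeasurableSpace Q87.Girth.X := borel Q87.Girth.X
  haveI : BorelSpace Q87.Girth.X := ⟨rfl⟩
  haveI : Fact ((1 : ℝ≥0∞) ≤ 1) := ⟨le_rfl⟩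
  refine Q87.Girth.not_propertyA (h 1 ENNReal.one_ne_top (by norm_num) Q87.Girth.X
    (fun R _ => Q87.Girth.bounded_geometry R) ?_)
  refine ⟨1/2, by norm_num, by norm_num, fun _ => 0, monotone_const, ?_⟩
  intro ν _ hν r T _
  have hnt : Nontrivial (lp (fun _ : ℕ => ℝ) 1) := by
    refine ⟨⟨lp.single 1 0 (1 : ℝ), 0, fun h0 => ?_⟩⟩
    have h1 := congrArg (fun v : lp (fun _ : ℕ => ℝ) 1 => v 0) h0
    simp at h1
  have hfin : ∀ x : Q87.Girth.X, ν {x} ≠ ⊤ := fun x => (isCompact_singleton.measure_lt_top).ne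
  obtain ⟨ξ, h1, ⟨S, h2, h3⟩, h4⟩ := Q87.OneONL.onl ν hfin hν T
  refine ⟨ξ, h1, ⟨S, fun a ha b hb => ?_, h3⟩, h4⟩
  simpa using h2 a ha b hb


end Pool.Agent.S06444
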