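import Pool.Statements.S06521
import Pool.Agent.Q101.TQG

set_option autoImplicit false
open Pool Pool.MP_e7ec4f_an
open Q101.Blocks Q101.TQG

namespace Pool.Agent.S06521

/-- There is a real or complex quasi-Banach space with a bounded biorthogonal basis that is nearly unconditional (coordinates at least a can be projected boundedly) but not truncation quasi-greedy. -/
theorem result :
    ∃ (𝕂 : Type) (_ : RCLike 𝕂) (X : Type) (_ : AddCommGroup X) (_ : Module 𝕂 X)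
      (q : X → ℝ) (κ : ℝ) (x : ℕ → X) (xs : ℕ → X →ₗ[𝕂] 𝕂),
      (∀ f : X, 0 ≤ q f) ∧
      (∀ f : X, q f = 0 → f = 0) ∧
      (∀ (c : 𝕂) (f : X), q (c • f) = ‖c‖ * q f) ∧
      (∀ f g : X, q (f + g) ≤ κ * (q f + q g)) ∧
      (∀ u : ℕ → X, (∀ ε : ℝ, 0 < ε → ∃ N : ℕ, ∀ m ≥ N, ∀ n ≥ N, q (u m - u n) < ε) →
        ∃ f : X, ∀ ε : ℝ, 0 < ε → ∃ N : ℕ, ∀ n ≥ N, q (u n - f) < ε) ∧
      (∃ B : ℝ, ∀ n : ℕ, q (x n) ≤ B) ∧
      (∃ M : ℝ, ∀ (n : ℕ) (f : X), ‖xs n f‖ ≤ M * q f) ∧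
      (∀ m n : ℕ, xs m (x n) = if m = n then 1 else 0) ∧
      (∀ f : X, ∀ ε : ℝ, 0 < ε → ∃ g ∈ Submodule.span 𝕂 (Set.range x), q (f - g) < ε) ∧
      (∀ a : ℝ, 0 < a → a ≤ 1 → ∃ C : ℝ, ∀ f : X, (∀ n : ℕ, ‖xs n f‖ ≤ 1) →
        ∀ A : Finset ℕ, (∀ n ∈ A, a ≤ ‖xs n f‖) →
          q (∑ n ∈ A, xs n f • x n) ≤ C * q f) ∧
      ¬ (∃ C : ℝ, ∀ f : X, ∀ A : Finset ℕ, A.Nonempty →
          (∀ n ∈ A, ∀ k : ℕ, k ∉ A → ‖xs k f‖ ≤ ‖xs n f‖) →
          ∀ t : ℝ, (∀ n ∈ A, t ≤ ‖xs n f‖) →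
            t * q (∑ n ∈ A, (xs n f / ((‖xs n f‖ : ℝ) : 𝕂)) • x n) ≤ C * q f) := by
  classical
  -- parameters
  let M : ℕ → ℕ := fun j => j + 1
  let H : ℕ → ℝ := fun j => ∑ i : Fin (M j), 1 / ((i : ℕ) + 1 : ℝ)
  let N : ℕ → ℕ := fun j => ⌊(M j : ℝ) * H j ^ 2⌋₊
  let β : ℕ → ℝ := fun j => 1 / (√(M j : ℝ) * H j)
  have hM : ∀ j, 0 < M j := fun j => Nat.succ_pos j
  have hMr : ∀ j, (0 : ℝ) < M j := fun j => by exact_mod_cast hM j
  have hMs : ∀ j, 0 < √(M j : ℝ) := fun j => Real.sqrt_pos.2 (hMr j)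
  have hH1 : ∀ j, 1 ≤ H j := by
    intro j
    have : (fun i : Fin (M j) => 1 / ((i : ℕ) + 1 : ℝ)) ⟨0, hM j⟩ ≤ H j :=
      Finset.single_le_sum (f := fun i : Fin (M j) => 1 / ((i : ℕ) + 1 : ℝ))
        (fun i _ => by positivity) (Finset.mem_univ _)
    simpa using this
  have hHM : ∀ j, H j ≤ M j := by
    intro j
    calc H j ≤ ∑ i : Fin (M j), (1 : ℝ) := by
          apply Finset.sum_le_sum
          intro i _
          rw [div_le_one (by positivity)]
          have : (0 : ℝ) ≤ (i : ℕ) := by positivity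
          linarith
      _ = M j := by simp
  have hHpos : ∀ j, 0 < H j := fun j => by linarith [hH1 j]
  have hN : ∀ j, (N j : ℝ) * β j ^ 2 ≤ 1 := by
    intro j
    have h1 : (N j : ℝ) ≤ (M j : ℝ) * H j ^ 2 := Nat.floor_le (by positivity)
    have h2 : β j ^ 2 = 1 / ((M j : ℝ) * H j ^ 2) := by
      change (1 / (√(M j : ℝ) * H j)) ^ 2 = _
      rw [div_pow, mul_pow, Real.sq_sqrt (hMr j).le, one_pow]
    rw [h2, mul_one_div, div_le_one (by have := hMr j; have := hHpos j; positivity)]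
    exact h1
  have hN2 : ∀ j, (M j : ℝ) * (H j ^ 2 - 1) ≤ N j := by
    intro j
    have h1 : (M j : ℝ) * H j ^ 2 < N j + 1 := Nat.lt_floor_add_one _
    have h2 : (1 : ℝ) ≤ M j := by exact_mod_cast hM j
    nlinarith
  have hHtop : ∀ K : ℝ, ∃ j, K ≤ H j := by
    intro K
    have h := Real.tendsto_sum_range_one_div_nat_succ_atTop
    obtain ⟨n, hn⟩ := (Filter.tendsto_atTop.1 h K).exists
    refine ⟨n, ?_⟩
    have h1 : H n = ∑ i ∈ Finset.range (n + 1), 1 / ((i : ℝ) + 1) :=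
      Fin.sum_univ_eq_sum_range (fun i : ℕ => 1 / ((i : ℝ) + 1)) (n + 1)
    rw [h1, Finset.sum_range_succ]
    have : (0 : ℝ) ≤ 1 / ((n : ℝ) + 1) := by positivity
    linarith
  let ι : ℕ → Type := fun j => Fin (M j) ⊕ Fin (N j)
  have : ∀ j, Nonempty (ι j) := fun j => ⟨Sum.inl ⟨0, hM j⟩⟩
  let d : ∀ j, NormOn (ι j) := fun j => bn (M j) (N j) (β j)
  obtain ⟨e⟩ := nonempty_enum ι
  have : Fact ((1 : ENNReal) ≤ 1) := ⟨le_rfl⟩
  refine ⟨ℝ, inferInstance, Sp d 1, inferInstance, inferInstance, fun f => ‖f‖, 1,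
    fun n => bv d 1 (e n), fun n => cf d 1 (e n), fun f => norm_nonneg f,
    fun f hf => norm_eq_zero.1 hf, fun c f => norm_smul c f,
    fun f g => by rw [one_mul]; exact norm_add_le f g, ?_, ?_, ?_, ?_, ?_, ?_, ?_⟩
  · -- completeness
    intro u hu
    have hc : CauchySeq u := by
      rw [Metric.cauchySeq_iff]
      intro ε hε
      obtain ⟨n₀, h⟩ := hu ε hε
      exact ⟨n₀, fun m hm n hn => by rw [dist_eq_norm]; exact h m hm n hn⟩
    obtain ⟨f, hf⟩ := cauchySeq_tendsto_of_complete hc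
    refine ⟨f, fun ε hε => ?_⟩
    obtain ⟨n₀, h⟩ := Metric.tendsto_atTop.1 hf ε hε
    exact ⟨n₀, fun n hn => by simpa [dist_eq_norm] using h n hn⟩
  · exact ⟨2, fun n => by
      change ‖bv d 1 (e n)‖ ≤ 2
      rw [norm_bv]; exact basis_le _ _ _ (hN _) _⟩
  · refine ⟨2, fun n f => ?_⟩
    exact abs_cf_le d 1 (by norm_num)
      (fun j i u => coord_le (M j) (N j) (β j) (H j) (hM j) rfl (hH1 j) (hHM j) rfl u i) _ f
  · intro m n
    rw [cf_bv]
    simp only [EmbeddingLike.apply_eq_iff_eq]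
  · intro f ε hε
    obtain ⟨g, hg, hg'⟩ := dense_span d 1 ENNReal.one_ne_top f hε
    refine ⟨g, ?_, hg'⟩
    have hr : Set.range (fun n => bv d 1 (e n)) = Set.range (bv d 1) := by
      rw [← e.surjective.range_comp (bv d 1)]; rfl
    rw [hr]
    exact hg
  · -- nearly unconditional
    intro a ha _
    refine ⟨√(1 + 2 * (4 / a ^ 2 + 2 + 8 / a) + 8 / a ^ 2), fun f hf A hA => ?_⟩
    have hsum : ∑ n ∈ A, cf d 1 (e n) f • bv d 1 (e n) =
        ∑ s ∈ A.map e.toEmbedding, cf d 1 s f • bv d 1 s := by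
      rw [Finset.sum_map]; rfl
    rw [hsum]
    apply norm_le_of_block_le d 1 (Real.sqrt_nonneg _)
    intro j
    rw [co_sum d 1 (A.map e.toEmbedding) (fun s => cf d 1 s f) j]
    apply near (M j) (N j) (β j) (H j) a (hM j) ha rfl (hHpos j) rfl (hN j)
    · intro x
      have h0 : ‖cf d 1 (e (e.symm ⟨j, x⟩)) f‖ ≤ 1 := hf (e.symm ⟨j, x⟩)
      rw [Equiv.apply_symm_apply] at h0
      exact h0
    · intro x
      by_cases hx : (⟨j, x⟩ : Σ j, ι j) ∈ A.map e.toEmbedding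
      · right
        rw [if_pos hx]
        refine ⟨rfl, ?_⟩
        obtain ⟨n, hn, hn'⟩ := Finset.mem_map.1 hx
        have h0 : a ≤ ‖cf d 1 (e n) f‖ := hA n hn
        have h2 : e n = ⟨j, x⟩ := hn'
        rw [h2] at h0
        exact h0
      · left
        rw [if_neg hx]
  · -- not truncation quasi-greedy
    rintro ⟨C, hC⟩
    obtain ⟨j, hj⟩ := hHtop (max 4 (8 * C ^ 2 + 1))
    have hj4 : 4 ≤ H j := (le_max_left _ _).trans hj
    have hjC : 8 * C ^ 2 + 1 ≤ H j := (le_max_right _ _).trans hj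
    let f : Sp d 1 := blk d 1 j (tv (M j) (N j))
    let A' : Finset (Σ j, ι j) := Finset.univ.map (Function.Embedding.sigmaMk (β := ι) j)
    let A : Finset ℕ := A'.map e.symm.toEmbedding
    have hmem : ∀ n, n ∈ A ↔ (e n).1 = j := by
      intro n
      constructor
      · intro h
        obtain ⟨s, hs, hs'⟩ := Finset.mem_map.1 h
        obtain ⟨x, _, hx⟩ := Finset.mem_map.1 hs
        have h1 : e n = s := by
          have : e.symm s = n := hs'
          rw [← this, Equiv.apply_symm_apply]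
        rw [h1, ← hx]
        rfl
      · intro h
        apply Finset.mem_map.2
        refine ⟨e n, ?_, by simp⟩
        apply Finset.mem_map.2
        rcases hh : e n with ⟨k, x⟩
        rw [hh] at h
        change k = j at h
        subst h
        exact ⟨x, Finset.mem_univ _, rfl⟩
    have hin : ∀ n ∈ A, ∃ x : ι j, e n = ⟨j, x⟩ := by
      intro n hn
      have h := (hmem n).1 hn
      rcases hh : e n with ⟨k, x⟩
      rw [hh] at h
      change k = j at h
      subst h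
      exact ⟨x, rfl⟩
    have hout : ∀ n, n ∉ A → cf d 1 (e n) f = 0 := by
      intro n hn
      have h : (e n).1 ≠ j := fun h => hn ((hmem n).2 h)
      rcases hh : e n with ⟨k, x⟩
      rw [hh] at h
      exact cf_blk_ne d 1 h x _
    have hval : ∀ n ∈ A, 1 / √(M j : ℝ) ≤ ‖cf d 1 (e n) f‖ := by
      intro n hn
      obtain ⟨x, hx⟩ := hin n hn
      rw [hx, cf_blk_same]
      exact le_tv (M j) (N j) (hM j) x
    have key := hC f A ⟨e.symm ⟨j, Sum.inl ⟨0, hM j⟩⟩, by rw [hmem]; simp⟩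
      (fun n hn k hk => by
        change ‖cf d 1 (e k) f‖ ≤ ‖cf d 1 (e n) f‖
        rw [hout k hk]; simp) (1 / √(M j : ℝ)) hval
    have hsv : ∑ n ∈ A, (cf d 1 (e n) f / ((‖cf d 1 (e n) f‖ : ℝ) : ℝ)) • bv d 1 (e n) =
        blk d 1 j (sv (M j) (N j)) := by
      apply ext_cf
      intro s
      rw [map_sum]
      simp only [map_smul, smul_eq_mul, cf_bv]
      obtain ⟨k, x⟩ := s
      by_cases hk : k = j
      · subst hk
        rw [cf_blk_same, Finset.sum_eq_single (e.symm ⟨k, x⟩)]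
        · rw [Equiv.apply_symm_apply, if_pos rfl, mul_one, cf_blk_same]
          exact tv_div (M k) (N k) (hM k) x
        · intro b _ hb
          rw [if_neg, mul_zero]
          intro h
          exact hb (by rw [h, Equiv.symm_apply_apply])
        · intro h
          exfalso
          apply h
          rw [hmem, Equiv.apply_symm_apply]
      · rw [cf_blk_ne d 1 hk, Finset.sum_eq_zero]
        intro n hn
        rw [if_neg, mul_zero]
        intro h
        apply hk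
        rw [← (hmem n).1 hn, ← h]
    have hnf : ‖f‖ = √(H j) := by
      change ‖blk d 1 j (tv (M j) (N j))‖ = _
      rw [norm_blk]
      exact bn_tv (M j) (N j) (β j) (H j) (hM j) rfl (hHpos j) rfl
    have hns : √(N j : ℝ) / 2 ≤ ‖blk d 1 j (sv (M j) (N j))‖ := by
      rw [norm_blk]
      exact bn_sv (M j) (N j) (β j) (H j) (hM j) hj4 rfl
    have key2 : 1 / √(M j : ℝ) * ‖blk d 1 j (sv (M j) (N j))‖ ≤ C * ‖f‖ := by
      rw [← hsv]; exact key
    rw [hnf] at key2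
    have key3 : √(N j : ℝ) ≤ 2 * √(M j : ℝ) * (C * √(H j)) := by
      have h1 : ‖blk d 1 j (sv (M j) (N j))‖ ≤ √(M j : ℝ) * (C * √(H j)) := by
        rw [one_div, inv_mul_le_iff₀ (hMs j)] at key2
        exact key2
      linarith
    have key4 : (N j : ℝ) ≤ 4 * M j * (C ^ 2 * H j) := by
      have h := pow_le_pow_left₀ (Real.sqrt_nonneg _) key3 2
      rw [Real.sq_sqrt (by positivity), mul_pow, mul_pow, mul_pow, Real.sq_sqrt (hMr j).le,
        Real.sq_sqrt (hHpos j).le] at h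
      linarith
    have h5 := hN2 j
    have h6 : (M j : ℝ) * (H j ^ 2 - 1) ≤ M j * (4 * (C ^ 2 * H j)) := by linarith
    have h7 := le_of_mul_le_mul_left h6 (hMr j)
    nlinarith

end Pool.Agent.S06521
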