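import Pool.Statements.S07114
-- import your own Pool.Agent.* helpers here

set_option autoImplicit false
open Filter Topology
open Pool Pool.MP_0b90e2_co

namespace Pool.Agent.S07114

/-- The edges of the complete graph on `Fin n`. -/
abbrev Edge (n : ℕ) := {e : Sym2 (Fin n) // ¬ e.IsDiag}

/-- Colour cross edges (between `{x < m}` and `{x ≥ m}`) arbitrarily, inside edges by `0`. -/
noncomputable def col (m : ℕ) (f : Fin m × Fin m → Fin 25) (e : Edge (m + m)) : Fin 25 :=
  if h : (e.1.inf).val < m ∧ m ≤ (e.1.sup).val then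
    f (⟨(e.1.inf).val, h.1⟩, ⟨(e.1.sup).val - m, by have := (e.1.sup).isLt; omega⟩)
  else 0

lemma col_inj (m : ℕ) : Function.Injective (col m) := by
  intro f g h
  funext p
  obtain ⟨x, y⟩ := p
  have hne : (Fin.castAdd m x : Fin (m + m)) ≠ Fin.natAdd m y := by
    intro h'
    have := congrArg Fin.val h'
    simp only [Fin.val_castAdd, Fin.val_natAdd] at this
    have := x.isLt
    omega
  have hlt : (Fin.castAdd m x : Fin (m + m)) < Fin.natAdd m y := by
    rw [Fin.lt_def]
    simp only [Fin.val_castAdd, Fin.val_natAdd]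
    have := x.isLt
    omega
  let e : Edge (m + m) := ⟨s(Fin.castAdd m x, Fin.natAdd m y), by
    simpa [Sym2.mk_isDiag_iff] using hne⟩
  have hinf : e.1.inf = Fin.castAdd m x := by
    show (s(Fin.castAdd m x, Fin.natAdd m y) : Sym2 (Fin (m + m))).inf = _
    rw [Sym2.inf_mk]
    exact inf_eq_left.2 hlt.le
  have hsup : e.1.sup = Fin.natAdd m y := by
    show (s(Fin.castAdd m x, Fin.natAdd m y) : Sym2 (Fin (m + m))).sup = _
    rw [Sym2.sup_mk]
    exact sup_eq_right.2 hlt.le
  have key : ∀ f : Fin m × Fin m → Fin 25, col m f e = f (x, y) := by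
    intro f
    unfold col
    have hc : (e.1.inf).val < m ∧ m ≤ (e.1.sup).val := by
      rw [hinf, hsup]
      simp
    rw [dif_pos hc]
    congr 1
    apply Prod.ext
    · apply Fin.ext
      simp [hinf]
    · apply Fin.ext
      simp [hsup]
  have := congrFun h e
  rw [key f, key g] at this
  exact this

lemma col_good (m : ℕ) (f : Fin m × Fin m → Fin 25) (S : Finset (Fin (m + m)))
    (hS : S.card = 4) :
    ((Finset.univ.filter (fun e : Edge (m + m) => e.1 ∈ S.sym2)).image (col m f)).card < 6 := by
  classical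
  set A := S.filter (fun x => x.val < m) with hA
  set B := S.filter (fun x => ¬ x.val < m) with hB
  have hAB : A.card + B.card = 4 := by
    rw [hA, hB, Finset.card_filter_add_card_filter_not, hS]
  let g : Fin (m + m) × Fin (m + m) → Fin 25 := fun p =>
    if h : p.1 ≠ p.2 then col m f ⟨s(p.1, p.2), by simpa [Sym2.mk_isDiag_iff] using h⟩ else 0
  have hsub : (Finset.univ.filter (fun e : Edge (m + m) => e.1 ∈ S.sym2)).image (col m f) ⊆
      insert 0 ((A ×ˢ B).image g) := by
    intro c hc
    rw [Finset.mem_image] at hc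
    obtain ⟨e, he, rfl⟩ := hc
    rw [Finset.mem_filter] at he
    by_cases h : (e.1.inf).val < m ∧ m ≤ (e.1.sup).val
    · rw [Finset.mem_insert]
      right
      rw [Finset.mem_image]
      refine ⟨(e.1.inf, e.1.sup), ?_, ?_⟩
      · obtain ⟨⟨a, b⟩, hd⟩ := e
        have h1 := he.2
        rw [Finset.mem_product]
        have hmem : a ∈ S ∧ b ∈ S := by simpa using h1
        simp only [hA, hB, Finset.mem_filter]
        refine ⟨⟨?_, h.1⟩, ⟨?_, not_lt.2 h.2⟩⟩
        · show (s(a, b) : Sym2 _).inf ∈ S
          rcases le_total a b with hab | hab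
          · simp [Sym2.inf_mk, hab, hmem.1]
          · simp [Sym2.inf_mk, hab, hmem.2]
        · show (s(a, b) : Sym2 _).sup ∈ S
          rcases le_total a b with hab | hab
          · simp [Sym2.sup_mk, hab, hmem.2]
          · simp [Sym2.sup_mk, hab, hmem.1]
      · have hne : e.1.inf ≠ e.1.sup := by
          intro h'
          have := congrArg Fin.val h'
          omega
        have hes : (s(e.1.inf, e.1.sup) : Sym2 (Fin (m + m))) = e.1 := by
          obtain ⟨⟨a, b⟩, hd⟩ := e
          show s((s(a, b) : Sym2 _).inf, (s(a, b) : Sym2 _).sup) = s(a, b)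
          rcases le_total a b with hab | hab
          · simp [Sym2.inf_mk, Sym2.sup_mk, hab]
          · simp [Sym2.inf_mk, Sym2.sup_mk, hab, Sym2.eq_swap]
        show g (e.1.inf, e.1.sup) = _
        simp only [g]
        rw [dif_pos hne]
        congr 1
        exact Subtype.ext hes
    · rw [Finset.mem_insert]
      left
      unfold col
      rw [dif_neg h]
  have h1 : ((Finset.univ.filter (fun e : Edge (m + m) => e.1 ∈ S.sym2)).image (col m f)).card ≤
      A.card * B.card + 1 := by
    refine (Finset.card_le_card hsub).trans ((Finset.card_insert_le _ _).trans ?_)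
    have := Finset.card_image_le (s := A ×ˢ B) (f := g)
    rw [Finset.card_product] at this
    omega
  have h2 : A.card * B.card ≤ 4 := by
    have h3 : A.card ≤ 4 := by omega
    have h4 : B.card = 4 - A.card := by omega
    rw [h4]
    interval_cases A.card <;> omega
  omega

lemma card_ge (m : ℕ) :
    (25 : ℕ) ^ (m * m) ≤ Nat.card {c : Edge (m + m) → Fin 25 //
              ∀ S : Finset (Fin (m + m)), S.card = 4 →
                ((Finset.univ.filter
                    (fun e : Edge (m + m) => e.1 ∈ S.sym2)).image c).card < 6} := by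
  classical
  let F : (Fin m × Fin m → Fin 25) → {c : Edge (m + m) → Fin 25 //
              ∀ S : Finset (Fin (m + m)), S.card = 4 →
                ((Finset.univ.filter
                    (fun e : Edge (m + m) => e.1 ∈ S.sym2)).image c).card < 6} :=
    fun f => ⟨col m f, fun S hS => col_good m f S hS⟩
  have hF : Function.Injective F := by
    intro f g h
    exact col_inj m (congrArg Subtype.val h)
  have := Nat.card_le_card_of_injective F hF
  have h2 : Nat.card (Fin m × Fin m → Fin 25) = 25 ^ (m * m) := by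
    rw [Nat.card_eq_fintype_card]
    simp
  rw [h2] at this
  exact this

lemma ratio_big (m : ℕ) (hm : 20 ≤ m) :
    (2 : ℝ) * (53130 * 5 ^ ((m + m).choose 2)) ≤ 25 ^ (m * m) := by
  have hch : (m + m).choose 2 = m * (2 * m - 1) := by
    rw [Nat.choose_two_right]
    have : (m + m) * (m + m - 1) = 2 * (m * (2 * m - 1)) := by
      have : m + m - 1 = 2 * m - 1 := by omega
      rw [this]
      ring
    rw [this]
    simp
  have h8 : (25 : ℝ) ^ (m * m) = 5 ^ (m * (2 * m - 1)) * 5 ^ m := by
    have : (25 : ℝ) = 5 ^ 2 := by norm_num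
    rw [this, ← pow_mul, ← pow_add]
    congr 1
    have : 2 * m - 1 + 1 = 2 * m := by omega
    calc 2 * (m * m) = m * (2 * m - 1 + 1) := by rw [this]; ring
      _ = _ := by ring
  rw [hch, h8]
  have h10 : (5 : ℝ) ^ 20 ≤ 5 ^ m := pow_le_pow_right₀ (by norm_num) hm
  have h11 : (106260 : ℝ) ≤ 5 ^ m := le_trans (by norm_num) h10
  have hp : (0 : ℝ) < 5 ^ (m * (2 * m - 1)) := by positivity
  nlinarith

/-- The negation of the preceding statement: For all k≥3, 3≤s≤C(k,2), r≥s: the number of r-colorings of the edges of K_n in which every k-vertex set spans fewer than s colors, divided by C(r,s-1)·(s-1)^{C(n,2)}, tends to 1 as n→∞. -/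
theorem result :
    ¬ (∀ k s r : ℕ, 3 ≤ k → 3 ≤ s → s ≤ k.choose 2 → s ≤ r →
      Tendsto
        (fun n : ℕ =>
          (Nat.card {c : {e : Sym2 (Fin n) // ¬ e.IsDiag} → Fin r //
              ∀ S : Finset (Fin n), S.card = k →
                ((Finset.univ.filter
                    (fun e : {e : Sym2 (Fin n) // ¬ e.IsDiag} => e.1 ∈ S.sym2)).image c).card < s} : ℝ)
            / ((r.choose (s - 1) : ℝ) * ((s : ℝ) - 1) ^ (n.choose 2)))
        atTop (𝓝 1)) := by
  intro H
  have h := H 4 6 25 (by norm_num) (by norm_num) (by decide) (by norm_num)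
  have h2 : Tendsto (fun m : ℕ => m + m) atTop atTop :=
    tendsto_atTop_mono (fun m => Nat.le_add_left m m) tendsto_id
  have h3 := h.comp h2
  have h4 := (h3.eventually (gt_mem_nhds (show (1 : ℝ) < 2 by norm_num)))
  obtain ⟨N, hN⟩ := eventually_atTop.1 h4
  have h5 := hN (N + 20) (by omega)
  have hm : 20 ≤ N + 20 := by omega
  generalize N + 20 = m at h5 hm
  have hcard := card_ge m
  have hc : Nat.choose 25 (6 - 1) = 53130 := by decide
  have hcard' : (25 : ℝ) ^ (m * m) ≤ (Nat.card {c : Edge (m + m) → Fin 25 //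
              ∀ S : Finset (Fin (m + m)), S.card = 4 →
                ((Finset.univ.filter
                    (fun e : Edge (m + m) => e.1 ∈ S.sym2)).image c).card < 6} : ℝ) := by
    exact_mod_cast hcard
  have hden : (0 : ℝ) < ((Nat.choose 25 (6 - 1) : ℕ) : ℝ) * (((6 : ℕ) : ℝ) - 1) ^ ((m + m).choose 2) := by
    rw [hc]
    have : (0 : ℝ) < ((6 : ℕ) : ℝ) - 1 := by norm_num
    positivity
  have h6 : (Nat.card {c : Edge (m + m) → Fin 25 //
              ∀ S : Finset (Fin (m + m)), S.card = 4 →
                ((Finset.univ.filter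
                    (fun e : Edge (m + m) => e.1 ∈ S.sym2)).image c).card < 6} : ℝ) <
      2 * (((Nat.choose 25 (6 - 1) : ℕ) : ℝ) * (((6 : ℕ) : ℝ) - 1) ^ ((m + m).choose 2)) := by
    have := (div_lt_iff₀ hden).1 h5
    exact this
  have h7 : (((6 : ℕ) : ℝ) - 1) = 5 := by norm_num
  have h8 : ((Nat.choose 25 (6 - 1) : ℕ) : ℝ) = 53130 := by rw [hc]; norm_num
  rw [h7, h8] at h6
  have h9 := ratio_big m hm
  exact absurd (lt_of_le_of_lt hcard' h6) (not_lt.2 h9)

end Pool.Agent.S07114
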