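import Pool.Statements.S07316
import Pool.Agent.Q119.SU.Main

set_option autoImplicit false
open Pool Pool.MP_150b74_co

namespace Pool.Agent.S07316

/-- The negation of the preceding statement: For r≥3, q≥2, ε>0 there is D such that for every ρ in [0,1]^q with sum below q−ε, some C gives, for all k≥1, an n with ln n ≤ C·k^D where every q-colouring of r-sets of [n] has an S of size ≥k and colour j with min colour-j degree in S ≥ ρ_j·C(∣S∣−1,r−1). -/
theorem result :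
    ¬ (∀ r q : ℕ, 3 ≤ r → 2 ≤ q → ∀ ε : ℝ, 0 < ε →
      ∃ D : ℝ, ∀ ρ : Fin q → ℝ, (∀ i, 0 ≤ ρ i ∧ ρ i ≤ 1) → ∑ i, ρ i < (q : ℝ) - ε →
        ∃ C : ℝ, ∀ k : ℕ, 1 ≤ k → ∃ n : ℕ, Real.log (n : ℝ) ≤ C * (k : ℝ) ^ D ∧
          ∀ φ : Finset (Fin n) → Fin q, ∃ S : Finset (Fin n), k ≤ S.card ∧ ∃ j : Fin q,
            ∀ v ∈ S, ρ j * (((S.card - 1).choose (r - 1) : ℕ) : ℝ) ≤
              (((S.powersetCard r).filter (fun e => v ∈ e ∧ φ e = j)).card : ℝ)) := by
  intro h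
  obtain ⟨D, hD⟩ := h 4 2 (by norm_num) le_rfl (1 / 100) (by norm_num)
  obtain ⟨C, hC⟩ := hD ![1, 35 / 36] (by
    intro i
    fin_cases i
    · simp
    · simp only [Fin.mk_one, Matrix.cons_val_one]
      norm_num) (by
    rw [Fin.sum_univ_two]
    simp only [Matrix.cons_val_zero, Matrix.cons_val_one]
    norm_num)
  -- polynomial upper bound
  set d : ℕ := ⌈|D|⌉₊ with hd
  set A : ℝ := |C| / Real.log 2 + 1 with hA
  have hlog2 : 0 < Real.log 2 := Real.log_pos (by norm_num)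
  have hA1 : 1 ≤ A := by
    have : 0 ≤ |C| / Real.log 2 := by positivity
    linarith
  obtain ⟨s, hs3, hs⟩ := Q119.SU.growth (A ^ 2) (d * 2)
  obtain ⟨m, hm, red, hred1, hred2⟩ := Q119.SU.exists_red hs3
  obtain ⟨n, hlog, hn⟩ := hC (4 * s - 1) (by omega)
  obtain ⟨S, hS, j, hSj⟩ := hn (Q119.SU.phi red n)
  have hnm : 2 ^ m < n := by
    by_contra hle
    exact Q119.SU.bad_coloring hs3 (not_lt.1 hle) red hred1 hred2 S hS j hSj
  have h1 : (m : ℝ) * Real.log 2 ≤ Real.log n := by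
    have h2 : Real.log ((2 : ℝ) ^ m) ≤ Real.log n := by
      apply Real.log_le_log (by positivity)
      exact_mod_cast hnm.le
    rwa [Real.log_pow] at h2
  set k : ℝ := ((4 * s - 1 : ℕ) : ℝ) with hk
  have hk1 : 1 ≤ k := by
    rw [hk]
    exact_mod_cast (by omega : 1 ≤ 4 * s - 1)
  have hk4 : k ≤ 4 * s := by
    rw [hk]
    exact_mod_cast (by omega : 4 * s - 1 ≤ 4 * s)
  have hkD : k ^ D ≤ k ^ d := by
    rw [← Real.rpow_natCast k d]
    apply Real.rpow_le_rpow_of_exponent_le hk1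
    exact (le_abs_self D).trans (Nat.le_ceil _)
  have hkd1 : 1 ≤ k ^ d := one_le_pow₀ hk1
  have h3 : (m : ℝ) ≤ |C| / Real.log 2 * k ^ d := by
    rw [div_mul_eq_mul_div, le_div_iff₀ hlog2]
    calc (m : ℝ) * Real.log 2 ≤ C * k ^ D := h1.trans hlog
      _ ≤ |C| * k ^ D := mul_le_mul_of_nonneg_right (le_abs_self C) (by positivity)
      _ ≤ |C| * k ^ d := mul_le_mul_of_nonneg_left hkD (abs_nonneg C)
  have h4 : (m : ℝ) + 1 ≤ A * k ^ d := by
    rw [hA, add_mul, one_mul]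
    linarith
  have h5 : (2 : ℝ) ^ s < ((m : ℝ) + 1) ^ 2 := by exact_mod_cast hm
  have h6 : ((m : ℝ) + 1) ^ 2 ≤ (A * k ^ d) ^ 2 := pow_le_pow_left₀ (by positivity) h4 2
  have h7 : (A * k ^ d) ^ 2 ≤ A ^ 2 * (4 * s : ℝ) ^ (d * 2) := by
    rw [mul_pow, ← pow_mul]
    apply mul_le_mul_of_nonneg_left _ (by positivity)
    exact pow_le_pow_left₀ (by linarith) hk4 _
  linarith

end Pool.Agent.S07316
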