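import Pool.Statements.S07574
-- import your own Pool.Agent.* helpers here

set_option autoImplicit false
open Pool Pool.MP_1f8616_co

namespace Pool.Agent.S07574

/-- the disjoint union of chains of all finite sizes -/
abbrev Combs : Type := Σ n : ℕ, Fin (n + 1)

theorem fst_eq_of_le {x y : Combs} (h : x ≤ y) : x.1 = y.1 := by
  obtain ⟨i, a⟩ := x
  obtain ⟨j, b⟩ := y
  rcases h with ⟨_, _, _, h⟩
  rfl

theorem chain_finite (C : Set Combs) (hC : IsChain (· ≤ ·) C) : C.Finite := by
  rcases C.eq_empty_or_nonempty with h | ⟨x, hx⟩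
  · rw [h]; exact Set.finite_empty
  · have hsub : C ⊆ Set.range (fun a : Fin (x.1 + 1) => (⟨x.1, a⟩ : Combs)) := by
      intro y hy
      have hxy : y.1 = x.1 := by
        rcases hC.total hx hy with h | h
        · exact (fst_eq_of_le h).symm
        · exact fst_eq_of_le h
      obtain ⟨j, b⟩ := y
      simp only at hxy
      subst hxy
      exact ⟨b, rfl⟩
    exact (Set.finite_range _).subset hsub

/-- The negation of the preceding statement: Every countable poset with no saturated chain (or its reverse) that is an ω-indexed linear sum of infinite co-wellfounded chains has, for each k≥2, k disjoint chains and a partition into antichains where each antichain A meets at least min(∣A∣,k) chains. -/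
theorem result :
    ¬ (∀ (α : Type) [PartialOrder α] [Countable α],
    (¬ ∃ C : Set α, IsChain (· ≤ ·) C ∧
        (∀ x, x ∉ C → ∀ y ∈ C, ∀ z ∈ C, y < x → x < z → ¬ IsChain (· ≤ ·) (insert x C)) ∧
        ∃ f : α → ℕ,
          ((∀ x ∈ C, ∀ y ∈ C, x ≤ y → f x ≤ f y) ∧
            ∀ i : ℕ, Set.Infinite {x | x ∈ C ∧ f x = i} ∧
              ¬ ∃ s : ℕ → α, StrictMono s ∧ ∀ n, s n ∈ C ∧ f (s n) = i) ∨
          ((∀ x ∈ C, ∀ y ∈ C, x ≤ y → f y ≤ f x) ∧
            ∀ i : ℕ, Set.Infinite {x | x ∈ C ∧ f x = i} ∧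
              ¬ ∃ s : ℕ → α, StrictAnti s ∧ ∀ n, s n ∈ C ∧ f (s n) = i)) →
    ∀ k : ℕ, 2 ≤ k →
      ∃ C : Fin k → Set α, (∀ j, IsChain (· ≤ ·) (C j)) ∧
        Pairwise (fun i j => Disjoint (C i) (C j)) ∧
        ∃ g : α → ℕ, ∀ i : ℕ, IsAntichain (· ≤ ·) {x | g x = i} ∧
          min (Set.encard {x | g x = i}) (k : ℕ∞) ≤
            Set.encard {j : Fin k | (C j ∩ {x | g x = i}).Nonempty}) := by
  intro H
  obtain ⟨C, hC, -, g, hg⟩ := H Combs (by
    rintro ⟨C, hC, -, f, hf⟩
    have hfin := chain_finite C hC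
    rcases hf with ⟨-, hf⟩ | ⟨-, hf⟩
    · exact (hf 0).1 (hfin.subset fun x hx => hx.1)
    · exact (hf 0).1 (hfin.subset fun x hx => hx.1)) 2 le_rfl
  have hfin : (⋃ j, C j).Finite := Set.finite_iUnion fun j => chain_finite (C j) (hC j)
  have himg : ∀ x : Combs, g x ∈ g '' (⋃ j, C j) := by
    intro x
    obtain ⟨-, h2⟩ := hg (g x)
    have h3 : {j : Fin 2 | (C j ∩ {y | g y = g x}).Nonempty}.Nonempty := by
      rw [Set.nonempty_iff_ne_empty]
      intro he
      rw [he, Set.encard_empty] at h2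
      have h4 : min (Set.encard {y | g y = g x}) ((2 : ℕ) : ℕ∞) = 0 := le_antisymm h2 zero_le
      rcases min_eq_iff.1 h4 with ⟨h5, -⟩ | ⟨h5, -⟩
      · rw [Set.encard_eq_zero] at h5
        have : x ∈ {y | g y = g x} := rfl
        rw [h5] at this
        exact this
      · simp at h5
    obtain ⟨j, y, hy1, hy2⟩ := h3
    exact ⟨y, Set.mem_iUnion.2 ⟨j, hy1⟩, hy2⟩
  have himgfin : (g '' (⋃ j, C j)).Finite := hfin.image g
  set N := himgfin.toFinset.card with hN
  have hinj : Function.Injective (fun a : Fin (N + 1) => g (⟨N, a⟩ : Combs)) := by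
    intro a b hab
    simp only at hab
    by_contra hne
    have hanti := (hg (g (⟨N, a⟩ : Combs))).1
    have ha : (⟨N, a⟩ : Combs) ∈ {x : Combs | g x = g (⟨N, a⟩ : Combs)} := rfl
    have hb : (⟨N, b⟩ : Combs) ∈ {x : Combs | g x = g (⟨N, a⟩ : Combs)} := hab.symm
    have hneab : (⟨N, a⟩ : Combs) ≠ ⟨N, b⟩ := by
      intro h
      apply hne
      simpa using h
    rcases le_total a b with h | h
    · exact hanti ha hb hneab (Sigma.le_def.2 ⟨rfl, h⟩)
    · exact hanti hb ha hneab.symm (Sigma.le_def.2 ⟨rfl, h⟩)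
  have hcard := Finset.card_le_card_of_injOn (s := (Finset.univ : Finset (Fin (N + 1))))
    (t := himgfin.toFinset) (fun a => g (⟨N, a⟩ : Combs))
    (by intro a _; simp only [Set.Finite.coe_toFinset]; exact himg _)
    (hinj.injOn)
  rw [Finset.card_univ, Fintype.card_fin] at hcard
  omega

end Pool.Agent.S07574
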