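import Pool.Statements.S07942
import Pool.Agent.Q129.OddWalk

set_option autoImplicit false
open Pool Pool.MP_30ed83_co

namespace Pool.Agent.S07942

/-- The negation of the preceding statement: For every finite graph F with an edge and every r, some finite graph G has chromatic number above r and clique number equal to F's, and every induced subgraph of G with no induced copy of F has chromatic number at most that of F. -/
theorem result :
    ¬ (∀ (n : ℕ) (F : SimpleGraph (Fin n)), F ≠ ⊥ →
      ∀ r : ℕ, ∃ (m : ℕ) (G : SimpleGraph (Fin m)),
        (r : ℕ∞) < G.chromaticNumber ∧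
        G.cliqueNum = F.cliqueNum ∧
        ∀ s : Set (Fin m), ¬ F.IsIndContained (G.induce s) →
          (G.induce s).chromaticNumber ≤ F.chromaticNumber) := by
  intro h
  obtain ⟨m, G, h1, -, h3⟩ := h 4 Q129.OddWalk.claw Q129.OddWalk.claw_ne_bot 2
  obtain ⟨s, hs1, hs2⟩ := Q129.OddWalk.exists_clawfree G (fun hc => by
    rw [← SimpleGraph.chromaticNumber_le_iff_colorable] at hc
    exact absurd h1 (not_lt.2 (by exact_mod_cast hc)))
  have h4 := h3 s hs1
  apply hs2
  rw [← SimpleGraph.chromaticNumber_le_iff_colorable]
  exact h4.trans (SimpleGraph.chromaticNumber_le_iff_colorable.2 Q129.OddWalk.claw_colorable)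

end Pool.Agent.S07942
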