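import Pool.Statements.S07963
import Pool.Agent.Q133.Unused

set_option autoImplicit false
open Pool Pool.MP_31cced_co

namespace Pool.Agent.S07963

/-- For every finite simple graph G on n vertices with clique number ω and every integer λ ≥ n, the number of proper (λ−1)-colourings divided by the number of proper λ-colourings is at most (1−ω/λ)(1−1/λ)^(n−ω). -/
theorem result :
    ∀ (V : Type) [Fintype V] (G : SimpleGraph V) (lam : ℕ),
      Fintype.card V ≤ lam →
      (Nat.card (G.Coloring (Fin (lam - 1))) : ℝ) / (Nat.card (G.Coloring (Fin lam)) : ℝ)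
        ≤ (1 - ((sSup {k : ℕ | ∃ s : Finset V, G.IsNClique k s} : ℕ) : ℝ) / (lam : ℝ))
          * (1 - 1 / (lam : ℝ)) ^ (Fintype.card V - sSup {k : ℕ | ∃ s : Finset V, G.IsNClique k s}) := by
  classical
  intro V _ G lam hV
  rw [Pool.Agent.Q133.Unused.card_coloring, Pool.Agent.Q133.Unused.card_coloring]
  -- the clique number
  have hmem : sSup {k : ℕ | ∃ s : Finset V, G.IsNClique k s} ∈
      {k : ℕ | ∃ s : Finset V, G.IsNClique k s} := by
    apply Nat.sSup_mem
    · exact ⟨0, ∅, by rw [SimpleGraph.isNClique_iff]; simp⟩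
    · refine ⟨Fintype.card V, ?_⟩
      rintro k ⟨s, hs⟩
      rw [← hs.card_eq]
      exact Finset.card_le_univ s
  obtain ⟨K, hK⟩ := hmem
  set ω := sSup {k : ℕ | ∃ s : Finset V, G.IsNClique k s} with hω
  have hKc : K.card = ω := hK.card_eq
  have hωn : ω ≤ Fintype.card V := by rw [← hKc]; exact Finset.card_le_univ K
  rcases Nat.eq_zero_or_pos lam with h0 | hpos
  · -- no colours: there is no vertex
    subst h0
    have hV0 : Fintype.card V = 0 := by omega
    have hω0 : ω = 0 := by omega
    rw [hω0, hV0]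
    simp only [Nat.cast_zero, div_zero, sub_zero, Nat.sub_zero, pow_zero, mul_one]
    have : (0 : ℕ) - 1 = 0 := rfl
    rw [this]
    exact div_self_le_one _
  · obtain ⟨m, rfl⟩ : ∃ m, lam = m + 1 := ⟨lam - 1, by omega⟩
    have hm : m + 1 - 1 = m := rfl
    rw [hm]
    have hα : Fintype.card (Fin (m + 1)) = m + 1 := Fintype.card_fin _
    have hmain := Pool.Agent.Q133.Unused.final (α := Fin (m + 1)) G m hα (by rw [hα]; exact hV)
      K hK.isClique
    rw [hKc] at hmain
    set P : ℝ := ((Pool.Agent.Q133.Unused.PC G (Fin (m + 1))).card : ℝ) with hP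
    set Q : ℝ := ((Pool.Agent.Q133.Unused.PC G (Fin m)).card : ℝ) with hQ
    push_cast
    set l : ℝ := (m : ℝ) + 1 with hl
    have hl0 : 0 < l := by rw [hl]; positivity
    have hl1 : 1 ≤ l := by rw [hl]; linarith [(Nat.cast_nonneg m : (0 : ℝ) ≤ m)]
    have hP0 : 0 ≤ P := by rw [hP]; positivity
    have hωl : (ω : ℝ) ≤ l := by
      have : ω ≤ m + 1 := hωn.trans hV
      rw [hl]; exact_mod_cast this
    have hfac : 0 ≤ 1 - 1 / l := by rw [sub_nonneg, div_le_one hl0]; exact hl1
    have hfac2 : 0 ≤ 1 - (ω : ℝ) / l := by rw [sub_nonneg, div_le_one hl0]; exact hωl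
    rcases eq_or_lt_of_le hP0 with hz | hz
    · rw [← hz, div_zero]
      exact mul_nonneg hfac2 (pow_nonneg hfac _)
    · rw [div_le_iff₀ hz]
      have h1 : l * Q ≤ l * ((1 - (ω : ℝ) / l) * (1 - 1 / l) ^ (Fintype.card V - ω) * P) := by
        refine hmain.trans (le_of_eq ?_)
        field_simp
      exact le_of_mul_le_mul_left h1 hl0

end Pool.Agent.S07963
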