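import Pool.Statements.S08071
import Pool.Agent.Q25.PLP.Top

set_option autoImplicit false
open Pool Pool.MP_359af5_co

namespace Pool.Agent.S08071

/-- For every finite set of p points in 3-space, with l the number of lines through two distinct points and π the number of planes through three non-collinear points, 3·p·π ≤ 2·l². -/
theorem result :
    ∀ S : Finset (EuclideanSpace ℝ (Fin 3)),
      3 * S.card *
          {P : AffineSubspace ℝ (EuclideanSpace ℝ (Fin 3)) |
            ∃ x ∈ S, ∃ y ∈ S, ∃ z ∈ S,
              ¬ Collinear ℝ ({x, y, z} : Set (EuclideanSpace ℝ (Fin 3))) ∧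
              P = affineSpan ℝ ({x, y, z} : Set (EuclideanSpace ℝ (Fin 3)))}.ncard
        ≤ 2 *
          ({L : AffineSubspace ℝ (EuclideanSpace ℝ (Fin 3)) |
            ∃ x ∈ S, ∃ y ∈ S, x ≠ y ∧
              L = affineSpan ℝ ({x, y} : Set (EuclideanSpace ℝ (Fin 3)))}.ncard) ^ 2 := by
  exact Pool.Agent.Q25.PLP.euc_nat Pool.Agent.Q25.PLP.fin_true Pool.Agent.Q25.PLP.r3_true

end Pool.Agent.S08071
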