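import Pool.Statements.S08250
import Pool.Agent.Q53.Frozen.Final

set_option autoImplicit false
open Pool Pool.MP_3d2668_co

namespace Pool.Agent.S08250

/-- The negation of the preceding statement: There is a finite nonempty graph that is 3-colourable, has no induced 5-vertex path, and has a proper 4-colouring in which every vertex has neighbours of all three colours other than its own. -/
theorem result :
    ¬ (∃ (V : Type) (_ : Fintype V) (_ : Nonempty V) (G : SimpleGraph V),
      G.Colorable 3 ∧
      IsEmpty (SimpleGraph.pathGraph 5 ↪g G) ∧
      ∃ c : G.Coloring (Fin 4), ∀ v : V, ∀ i : Fin 4, i ≠ c v →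
        ∃ w : V, G.Adj v w ∧ c w = i) := by
  rintro ⟨V, hF, hN, G, h3, h5, c, hc⟩
  exact Q53.Frozen.no_frozen V G h3 h5 c hc

end Pool.Agent.S08250
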