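import Pool.Statements.S08268

set_option autoImplicit false
open Pool Pool.MP_3df3be_co

namespace Pool.Agent.S08268

/-- In a Latin square, a subsquare on rows `R`, columns `C`, symbols `S`: a cell in a row of `R`
holds a symbol of `S` exactly when its column is in `C`. -/
theorem row_iff {n m : ℕ} (L : Fin n → Fin n → Fin n)
    (hr : ∀ i : Fin n, Function.Bijective (L i))
    (R C S : Finset (Fin n)) (hC : C.card = m) (hS : S.card = m)
    (h : ∀ r ∈ R, ∀ c ∈ C, L r c ∈ S) (r : Fin n) (hrR : r ∈ R) (c : Fin n) :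
    L r c ∈ S ↔ c ∈ C := by
  constructor
  · intro hc
    have himg : C.image (L r) = S := by
      apply Finset.eq_of_subset_of_card_le
      · intro x hx
        rw [Finset.mem_image] at hx
        obtain ⟨y, hy, rfl⟩ := hx
        exact h r hrR y hy
      · rw [Finset.card_image_of_injective _ (hr r).1, hC, hS]
    rw [← himg, Finset.mem_image] at hc
    obtain ⟨y, hy, hyc⟩ := hc
    rw [← (hr r).1 hyc]
    exact hy
  · exact h r hrR c

/-- The transposed array. -/
theorem col_iff {n m : ℕ} (L : Fin n → Fin n → Fin n)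
    (hc : ∀ j : Fin n, Function.Bijective (fun i : Fin n => L i j))
    (R C S : Finset (Fin n)) (hR : R.card = m) (hS : S.card = m)
    (h : ∀ r ∈ R, ∀ c ∈ C, L r c ∈ S) (c : Fin n) (hcC : c ∈ C) (r : Fin n) :
    L r c ∈ S ↔ r ∈ R :=
  row_iff (fun c r => L r c) hc C R S hR hS (fun c hc r hr => h r hr c hc) c hcC r

/-- `Q L R C S`: the set `S` of symbols occurs exactly in the two diagonal blocks
`R × C` and `Rᶜ × Cᶜ`. -/
def Q (L : Fin 8 → Fin 8 → Fin 8) (R C S : Finset (Fin 8)) : Prop :=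
  R.card = 4 ∧ C.card = 4 ∧ S.card = 4 ∧ ∀ r c, L r c ∈ S ↔ (r ∈ R ↔ c ∈ C)

theorem Q.rowCompl {L : Fin 8 → Fin 8 → Fin 8} {R C S : Finset (Fin 8)} (h : Q L R C S) :
    Q L Rᶜ C Sᶜ := by
  obtain ⟨h1, h2, h3, h4⟩ := h
  refine ⟨by rw [Finset.card_compl, h1]; rfl, h2, by rw [Finset.card_compl, h3]; rfl, ?_⟩
  intro r c
  rw [Finset.mem_compl, Finset.mem_compl, h4]
  tauto

theorem Q.colCompl {L : Fin 8 → Fin 8 → Fin 8} {R C S : Finset (Fin 8)} (h : Q L R C S) :
    Q L R Cᶜ Sᶜ := by
  obtain ⟨h1, h2, h3, h4⟩ := h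
  refine ⟨h1, by rw [Finset.card_compl, h2]; rfl, by rw [Finset.card_compl, h3]; rfl, ?_⟩
  intro r c
  rw [Finset.mem_compl, Finset.mem_compl, h4]
  tauto

theorem Q.transpose {L : Fin 8 → Fin 8 → Fin 8} {R C S : Finset (Fin 8)} (h : Q L R C S) :
    Q (fun c r => L r c) C R S := by
  obtain ⟨h1, h2, h3, h4⟩ := h
  refine ⟨h2, h1, h3, ?_⟩
  intro c r
  rw [h4]
  tauto

/-- A subsquare of order four of a Latin square of order eight satisfies `Q`. -/
theorem Q_of_subsquare (L : Fin 8 → Fin 8 → Fin 8)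
    (hr : ∀ i, Function.Bijective (L i))
    (hc : ∀ j, Function.Bijective (fun i => L i j))
    (R C S : Finset (Fin 8)) (hR : R.card = 4) (hC : C.card = 4) (hS : S.card = 4)
    (h : ∀ r ∈ R, ∀ c ∈ C, L r c ∈ S) : Q L R C S := by
  refine ⟨hR, hC, hS, ?_⟩
  intro r c
  by_cases hrR : r ∈ R
  · rw [row_iff L hr R C S hC hS h r hrR c]
    tauto
  · -- the columns of row `r` holding symbols of `S`
    have hcard : (Finset.univ.filter (fun c => L r c ∈ S)).card = 4 := by
      rw [← hS]
      apply Finset.card_bij (fun c _ => L r c)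
      · intro a ha
        exact (Finset.mem_filter.mp ha).2
      · intro a _ b _ hab
        exact (hr r).1 hab
      · intro b hb
        obtain ⟨a, ha⟩ := (hr r).2 b
        exact ⟨a, by rw [Finset.mem_filter]; exact ⟨Finset.mem_univ _, by rw [ha]; exact hb⟩, ha⟩
    have hsub : Finset.univ.filter (fun c => L r c ∈ S) ⊆ Cᶜ := by
      intro c' hc'
      rw [Finset.mem_compl]
      intro hcC
      exact hrR ((col_iff L hc R C S hR hS h c' hcC r).mp (Finset.mem_filter.mp hc').2)
    have heq : Finset.univ.filter (fun c => L r c ∈ S) = Cᶜ := by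
      apply Finset.eq_of_subset_of_card_le hsub
      rw [hcard, Finset.card_compl, hC]
      simp
    have : L r c ∈ S ↔ c ∈ Cᶜ := by
      rw [← heq, Finset.mem_filter]
      simp
    rw [this, Finset.mem_compl]
    tauto

/-- The rows of a subsquare of order three lie on one side of `R`. -/
theorem rows_side (L : Fin 8 → Fin 8 → Fin 8)
    (hr : ∀ i, Function.Bijective (L i))
    (R C S : Finset (Fin 8)) (hQ : Q L R C S)
    (R' C' S' : Finset (Fin 8)) (hC' : C'.card = 3) (hS' : S'.card = 3)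
    (h' : ∀ r ∈ R', ∀ c ∈ C', L r c ∈ S') : R' ⊆ R ∨ R' ⊆ Rᶜ := by
  by_contra hcon
  rw [not_or] at hcon
  obtain ⟨h1, h2⟩ := hcon
  rw [Finset.not_subset] at h1 h2
  obtain ⟨a, ha, haR⟩ := h1
  obtain ⟨b, hb, hbR⟩ := h2
  rw [Finset.mem_compl, not_not] at hbR
  have key : ∀ r ∈ R', (C'.filter (fun c => L r c ∈ S)).card = (S'.filter (fun s => s ∈ S)).card := by
    intro r hrr
    apply Finset.card_bij (fun c _ => L r c)
    · intro c hc
      rw [Finset.mem_filter] at hc ⊢
      exact ⟨h' r hrr c hc.1, hc.2⟩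
    · intro x _ y _ hxy
      exact (hr r).1 hxy
    · intro s hs
      rw [Finset.mem_filter] at hs
      obtain ⟨c, hc⟩ := (hr r).2 s
      refine ⟨c, ?_, hc⟩
      rw [Finset.mem_filter, hc]
      refine ⟨?_, hs.2⟩
      rw [← row_iff L hr R' C' S' hC' hS' h' r hrr c, hc]
      exact hs.1
  have ka := key a ha
  have kb := key b hb
  have ea : C'.filter (fun c => L a c ∈ S) = C'.filter (fun c => ¬ c ∈ C) := by
    apply Finset.filter_congr
    intro c _
    rw [hQ.2.2.2]
    tauto
  have eb : C'.filter (fun c => L b c ∈ S) = C'.filter (fun c => c ∈ C) := by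
    apply Finset.filter_congr
    intro c _
    rw [hQ.2.2.2]
    tauto
  rw [ea] at ka
  rw [eb] at kb
  have := Finset.card_filter_add_card_filter_not (s := C') (fun c => c ∈ C)
  omega

/-- The final step: a subsquare of order three does not fit in one of order four. -/
theorem no_fit (L : Fin 8 → Fin 8 → Fin 8)
    (hr : ∀ i, Function.Bijective (L i))
    (hc : ∀ j, Function.Bijective (fun i => L i j))
    (R C S : Finset (Fin 8)) (hQ : Q L R C S)
    (R' C' S' : Finset (Fin 8)) (hR' : R'.card = 3) (hC' : C'.card = 3) (hS' : S'.card = 3)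
    (h' : ∀ r ∈ R', ∀ c ∈ C', L r c ∈ S') (hRR : R' ⊆ R) (hCC : C' ⊆ C) : False := by
  obtain ⟨h1, h2, h3, h4⟩ := hQ
  have hex : ∃ r ∈ R, r ∉ R' := by
    by_contra hcon
    push Not at hcon
    have := Finset.card_le_card (show R ⊆ R' from hcon)
    omega
  obtain ⟨r, hrR, hrR'⟩ := hex
  have hne : R'.Nonempty := by
    rw [← Finset.card_pos]; omega
  obtain ⟨r', hr'⟩ := hne
  have hSS : S' ⊆ S := by
    intro s hs
    obtain ⟨c, hcs⟩ := (hr r').2 s
    have hcC' : c ∈ C' := by
      rw [← row_iff L hr R' C' S' hC' hS' h' r' hr' c, hcs]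
      exact hs
    rw [← hcs, h4]
    exact ⟨fun _ => hCC hcC', fun _ => hRR hr'⟩
  have hsub : C'.image (L r) ⊆ S \ S' := by
    intro s hs
    rw [Finset.mem_image] at hs
    obtain ⟨c, hcC', rfl⟩ := hs
    rw [Finset.mem_sdiff]
    refine ⟨(h4 r c).mpr ⟨fun _ => hCC hcC', fun _ => hrR⟩, ?_⟩
    intro hmem
    exact hrR' ((col_iff L hc R' C' S' hR' hS' h' c hcC' r).mp hmem)
  have hcard := Finset.card_le_card hsub
  rw [Finset.card_image_of_injective _ (hr r).1, Finset.card_sdiff_of_subset hSS, h3, hS', hC'] at hcard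
  omega

/-- The negation of the preceding statement: For every n there is a latin square of order n such that, for each m with 1 ≤ m and 2m ≤ n, some m rows and m columns meet in an m×m subarray using only m symbols, i.e. a latin subsquare of order m. -/
theorem result :
    ¬ (∀ n : ℕ, ∃ L : Fin n → Fin n → Fin n,
      (∀ i : Fin n, Function.Bijective (L i)) ∧
      (∀ j : Fin n, Function.Bijective (fun i : Fin n => L i j)) ∧
      ∀ m : ℕ, 1 ≤ m → 2 * m ≤ n →
        ∃ R C S : Finset (Fin n),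
          R.card = m ∧ C.card = m ∧ S.card = m ∧
          ∀ r ∈ R, ∀ c ∈ C, L r c ∈ S) := by
  intro H
  obtain ⟨L, hr, hc, hm⟩ := H 8
  obtain ⟨R, C, S, hR, hC, hS, h⟩ := hm 4 (by norm_num) (by norm_num)
  obtain ⟨R', C', S', hR', hC', hS', h'⟩ := hm 3 (by norm_num) (by norm_num)
  have hQ := Q_of_subsquare L hr hc R C S hR hC hS h
  have s1 := rows_side L hr R C S hQ R' C' S' hC' hS' h'
  have s2 := rows_side (fun c r => L r c) hc C R S hQ.transpose C' R' S' hR' hS'
    (fun c hc r hr => h' r hr c hc)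
  rcases s1 with s1 | s1 <;> rcases s2 with s2 | s2
  · exact no_fit L hr hc R C S hQ R' C' S' hR' hC' hS' h' s1 s2
  · exact no_fit L hr hc R Cᶜ Sᶜ hQ.colCompl R' C' S' hR' hC' hS' h' s1 s2
  · exact no_fit L hr hc Rᶜ C Sᶜ hQ.rowCompl R' C' S' hR' hC' hS' h' s1 s2
  · exact no_fit L hr hc Rᶜ Cᶜ Sᶜᶜ hQ.rowCompl.colCompl R' C' S' hR' hC' hS' h' s1 s2

end Pool.Agent.S08268
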