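import Pool.Statements.S08598
-- import your own Pool.Agent.* helpers here

set_option autoImplicit false
open Pool Pool.MP_4a9f27_co

namespace Pool.Agent.S08598

/-- the second coordinate of a product of distinct elements of `S` -/
lemma snd_prod {p : ℕ} (S : Finset (Multiplicative (ZMod p × ℤ)))
    (h0 : ∀ x ∈ S, 0 ≤ (Multiplicative.toAdd x).2) (l : List (Multiplicative (ZMod p × ℤ)))
    (hl : l.Nodup) (hS : ∀ x ∈ l, x ∈ S) :
    0 ≤ (Multiplicative.toAdd l.prod).2 ∧
      (Multiplicative.toAdd l.prod).2 ≤ ∑ x ∈ S, (Multiplicative.toAdd x).2 := by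
  classical
  have h1 : (Multiplicative.toAdd l.prod).2 = ∑ x ∈ l.toFinset, (Multiplicative.toAdd x).2 := by
    rw [List.sum_toFinset _ hl]
    clear hl hS
    induction l with
    | nil => simp
    | cons a l ih =>
      rw [List.prod_cons, toAdd_mul, Prod.snd_add, ih, List.map_cons, List.sum_cons]
  have hsub : l.toFinset ⊆ S := fun x hx => hS x (List.mem_toFinset.1 hx)
  rw [h1]
  exact ⟨Finset.sum_nonneg fun x hx => h0 x (hsub hx),
    Finset.sum_le_sum_of_subset_of_nonneg hsub fun x hx _ => h0 x hx⟩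

lemma finite_subgroup_snd {p : ℕ} (H : Subgroup (Multiplicative (ZMod p × ℤ)))
    (hH : (H : Set (Multiplicative (ZMod p × ℤ))).Finite) (x : Multiplicative (ZMod p × ℤ))
    (hx : x ∈ H) : (Multiplicative.toAdd x).2 = 0 := by
  have : Finite H := hH
  have h1 : IsOfFinOrder (⟨x, hx⟩ : H) := isOfFinOrder_of_finite _
  have h2 : IsOfFinOrder x := (Submonoid.isOfFinOrder_coe (x := (⟨x, hx⟩ : H.toSubmonoid))).2 h1
  obtain ⟨n, hn, hxn⟩ := isOfFinOrder_iff_pow_eq_one.1 h2
  have h3 : (Multiplicative.toAdd (x ^ n)).2 = 0 := by rw [hxn]; rfl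
  rw [toAdd_pow, Prod.smul_snd, nsmul_eq_mul] at h3
  rcases mul_eq_zero.1 h3 with h | h
  · exact absurd (by exact_mod_cast h) hn.ne'
  · exact h

/-- The negation of the preceding statement: There is c>0 such that for every group G and finite S in G, some finite subgroup H has #(products of distinct elements of S in any order, including 1) at least ∣H∣ + c·∣H∣·∣S minus H∣². -/
theorem result :
    ¬ (∃ c : ℝ, 0 < c ∧ ∀ (G : Type) [Group G] (S : Finset G),
      ∃ H : Subgroup G, (H : Set G).Finite ∧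
        ((Set.ncard {g : G | ∃ l : List G, l.Nodup ∧ (∀ x ∈ l, x ∈ S) ∧ l.prod = g} : ℕ) : ℝ)
          ≥ (Nat.card H : ℝ) + c * (Nat.card H : ℝ)
              * ((Set.ncard ((S : Set G) \ (H : Set G)) : ℕ) : ℝ) ^ 2) := by
  classical
  rintro ⟨c, hc, hmain⟩
  obtain ⟨K, hK⟩ : ∃ K : ℕ, 1 < c * K := by
    obtain ⟨K, hK⟩ := exists_nat_gt (1 / c)
    exact ⟨K, by rwa [div_lt_iff₀ hc, mul_comm] at hK⟩
  have hK0 : 0 < K := by
    rcases Nat.eq_zero_or_pos K with h | h
    · rw [h] at hK; norm_num at hK
    · exact h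
  obtain ⟨N, hN⟩ : ∃ N : ℕ, (K : ℝ) + 1 < c * N := by
    obtain ⟨N, hN⟩ := exists_nat_gt (((K : ℝ) + 1) / c)
    exact ⟨N, by rwa [div_lt_iff₀ hc, mul_comm] at hN⟩
  obtain ⟨p, hpN, hp⟩ := Nat.exists_infinite_primes (max N K)
  have hpN' : N ≤ p := (le_max_left _ _).trans hpN
  have hpK : K ≤ p := (le_max_right _ _).trans hpN
  have : Fact p.Prime := ⟨hp⟩
  have hp0 : (0:ℝ) < p := by exact_mod_cast hp.pos
  have hpc : (K : ℝ) + 1 < c * p := by
    have : (N : ℝ) ≤ p := by exact_mod_cast hpN'
    nlinarith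
  obtain ⟨C, -, hC⟩ := Finset.exists_subset_card_eq (s := (Finset.univ : Finset (ZMod p))) (n := K)
    (by rw [Finset.card_univ, ZMod.card]; exact hpK)
  set S1 : Finset (Multiplicative (ZMod p × ℤ)) :=
    Finset.univ.image fun a : ZMod p => Multiplicative.ofAdd (a, (0:ℤ)) with hS1
  set S2 : Finset (Multiplicative (ZMod p × ℤ)) :=
    C.image fun a : ZMod p => Multiplicative.ofAdd (a, (1:ℤ)) with hS2
  have hinj1 : Function.Injective fun a : ZMod p => Multiplicative.ofAdd (a, (0:ℤ)) := by
    intro a b hab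
    have := congrArg (fun x => (Multiplicative.toAdd x).1) hab
    simpa using this
  have hinj2 : Function.Injective fun a : ZMod p => Multiplicative.ofAdd (a, (1:ℤ)) := by
    intro a b hab
    have := congrArg (fun x => (Multiplicative.toAdd x).1) hab
    simpa using this
  have hc1 : S1.card = p := by
    rw [hS1, Finset.card_image_of_injective _ hinj1, Finset.card_univ, ZMod.card]
  have hc2 : S2.card = K := by
    rw [hS2, Finset.card_image_of_injective _ hinj2, hC]
  have hs1 : ∀ x ∈ S1, (Multiplicative.toAdd x).2 = 0 := by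
    intro x hx
    obtain ⟨a, -, rfl⟩ := Finset.mem_image.1 hx
    rfl
  have hs2 : ∀ x ∈ S2, (Multiplicative.toAdd x).2 = 1 := by
    intro x hx
    obtain ⟨a, -, rfl⟩ := Finset.mem_image.1 hx
    rfl
  have hdisj : Disjoint S1 S2 := by
    rw [Finset.disjoint_left]
    intro x h1 h2
    have := hs1 x h1
    rw [hs2 x h2] at this
    exact one_ne_zero this
  obtain ⟨H, hHfin, hH⟩ := hmain _ (S1 ∪ S2)
  have hsum : ∑ x ∈ S1 ∪ S2, (Multiplicative.toAdd x).2 = K := by
    rw [Finset.sum_union hdisj, Finset.sum_congr rfl hs1, Finset.sum_congr rfl hs2]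
    simp [hc2]
  -- upper bound for the number of products
  have hup : Set.ncard {g : Multiplicative (ZMod p × ℤ) | ∃ l : List (Multiplicative (ZMod p × ℤ)),
      l.Nodup ∧ (∀ x ∈ l, x ∈ S1 ∪ S2) ∧ l.prod = g} ≤ p * (K + 1) := by
    have hsub : {g : Multiplicative (ZMod p × ℤ) | ∃ l : List (Multiplicative (ZMod p × ℤ)),
      l.Nodup ∧ (∀ x ∈ l, x ∈ S1 ∪ S2) ∧ l.prod = g} ⊆
        (((Finset.univ : Finset (ZMod p)) ×ˢ Finset.Icc (0:ℤ) K).image Multiplicative.ofAdd :
          Finset (Multiplicative (ZMod p × ℤ))) := by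
      rintro g ⟨l, hl, hS, rfl⟩
      have := snd_prod (S1 ∪ S2) (by
        intro x hx
        rcases Finset.mem_union.1 hx with h | h
        · rw [hs1 x h]
        · rw [hs2 x h]; norm_num) l hl hS
      rw [hsum] at this
      rw [Finset.mem_coe, Finset.mem_image]
      exact ⟨Multiplicative.toAdd l.prod, Finset.mem_product.2 ⟨Finset.mem_univ _,
        Finset.mem_Icc.2 this⟩, rfl⟩
    calc _ ≤ Set.ncard ((((Finset.univ : Finset (ZMod p)) ×ˢ Finset.Icc (0:ℤ) K).image
          Multiplicative.ofAdd : Finset (Multiplicative (ZMod p × ℤ))) : Set _) :=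
          Set.ncard_le_ncard hsub (Finset.finite_toSet _)
      _ ≤ _ := by
          rw [Set.ncard_coe_finset]
          refine Finset.card_image_le.trans ?_
          rw [Finset.card_product, Finset.card_univ, ZMod.card, Int.card_Icc]
          simp
  have hup' : ((Set.ncard {g : Multiplicative (ZMod p × ℤ) |
      ∃ l : List (Multiplicative (ZMod p × ℤ)),
      l.Nodup ∧ (∀ x ∈ l, x ∈ S1 ∪ S2) ∧ l.prod = g} : ℕ) : ℝ) ≤ p * (K + 1) := by
    exact_mod_cast hup
  have hsnd := finite_subgroup_snd H hHfin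
  have hfinS : ((S1 ∪ S2 : Finset (Multiplicative (ZMod p × ℤ))) :
      Set (Multiplicative (ZMod p × ℤ))).Finite := Finset.finite_toSet _
  by_cases hcase : ∃ x ∈ H, (Multiplicative.toAdd x).1 ≠ 0
  · -- `H` contains all of `S1`
    obtain ⟨x, hxH, hx1⟩ := hcase
    have hall : ∀ a : ZMod p, Multiplicative.ofAdd (a, (0:ℤ)) ∈ H := by
      intro a
      have h1 : x ^ (a / (Multiplicative.toAdd x).1).val ∈ H := H.pow_mem hxH _
      have h2 : x ^ (a / (Multiplicative.toAdd x).1).val = Multiplicative.ofAdd (a, (0:ℤ)) := by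
        apply Multiplicative.toAdd.injective
        rw [toAdd_pow]
        apply Prod.ext
        · rw [Prod.smul_fst, nsmul_eq_mul, ZMod.natCast_zmod_val, div_mul_cancel₀ _ hx1]
          rfl
        · rw [Prod.smul_snd, hsnd x hxH, smul_zero]
          rfl
      rwa [h2] at h1
    have hHS1 : (H : Set (Multiplicative (ZMod p × ℤ))) = (S1 : Set _) := by
      ext y
      constructor
      · intro hy
        rw [Finset.mem_coe, hS1, Finset.mem_image]
        refine ⟨(Multiplicative.toAdd y).1, Finset.mem_univ _, ?_⟩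
        apply Multiplicative.toAdd.injective
        exact Prod.ext rfl (hsnd y hy).symm
      · intro hy
        rw [Finset.mem_coe, hS1, Finset.mem_image] at hy
        obtain ⟨a, -, rfl⟩ := hy
        exact hall a
    have hcard : Nat.card H = p := by
      have : Nat.card H = Set.ncard (H : Set (Multiplicative (ZMod p × ℤ))) := rfl
      rw [this, hHS1, Set.ncard_coe_finset, hc1]
    have hdiff : Set.ncard (((S1 ∪ S2 : Finset (Multiplicative (ZMod p × ℤ))) : Set _) \
        (H : Set (Multiplicative (ZMod p × ℤ)))) = K := by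
      rw [hHS1, ← Finset.coe_sdiff, Set.ncard_coe_finset, Finset.union_sdiff_cancel_left hdisj, hc2]
    rw [hcard, hdiff] at hH
    have hKr : (0:ℝ) < K := by exact_mod_cast hK0
    have h5 : (K : ℝ) < c * K * K := by nlinarith
    have h6 : (p : ℝ) * K < p * (c * K * K) := mul_lt_mul_of_pos_left h5 hp0
    nlinarith
  · push Not at hcase
    have hHbot : ∀ x ∈ H, x = 1 := by
      intro x hx
      apply Multiplicative.toAdd.injective
      exact Prod.ext (hcase x hx) (hsnd x hx)
    have hge1 : (1:ℝ) ≤ Nat.card H := by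
      have : Finite H := hHfin
      have h7 : 0 < Nat.card H := Nat.card_pos
      exact_mod_cast h7
    have hdiff : p ≤ Set.ncard (((S1 ∪ S2 : Finset (Multiplicative (ZMod p × ℤ))) : Set _) \
        (H : Set (Multiplicative (ZMod p × ℤ)))) := by
      have hsub : (((S1.erase 1) ∪ S2 : Finset (Multiplicative (ZMod p × ℤ))) : Set _) ⊆
          ((S1 ∪ S2 : Finset (Multiplicative (ZMod p × ℤ))) : Set _) \
            (H : Set (Multiplicative (ZMod p × ℤ))) := by
        intro x hx
        rw [Finset.mem_coe, Finset.mem_union] at hx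
        refine ⟨?_, ?_⟩
        · rw [Finset.mem_coe, Finset.mem_union]
          rcases hx with h | h
          · exact Or.inl (Finset.mem_of_mem_erase h)
          · exact Or.inr h
        · intro hxH
          have hx1 := hHbot x hxH
          rcases hx with h | h
          · exact Finset.ne_of_mem_erase h hx1
          · have := hs2 x h
            rw [hx1] at this
            exact zero_ne_one this
      have h8 := Set.ncard_le_ncard hsub (hfinS.subset Set.sdiff_subset)
      rw [Set.ncard_coe_finset, Finset.card_union_of_disjoint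
        (hdisj.mono_left (Finset.erase_subset _ _)), hc2] at h8
      have h9 : p - 1 ≤ (S1.erase 1).card := by
        have h13 := Finset.pred_card_le_card_erase (s := S1)
          (a := (1 : Multiplicative (ZMod p × ℤ)))
        omega
      have := hp.one_lt
      omega
    have hdiff' : (p : ℝ) ≤ (Set.ncard (((S1 ∪ S2 : Finset (Multiplicative (ZMod p × ℤ))) :
        Set _) \ (H : Set (Multiplicative (ZMod p × ℤ)))) : ℕ) := by exact_mod_cast hdiff
    set D : ℝ := ((Set.ncard (((S1 ∪ S2 : Finset (Multiplicative (ZMod p × ℤ))) :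
        Set _) \ (H : Set (Multiplicative (ZMod p × ℤ)))) : ℕ) : ℝ) with hD
    have h10 : (p:ℝ) ^ 2 ≤ D ^ 2 := by nlinarith
    have h11 : c * (p:ℝ) ^ 2 ≤ c * (Nat.card H : ℝ) * D ^ 2 := by
      have h14 : c * (p:ℝ) ^ 2 ≤ c * D ^ 2 := mul_le_mul_of_nonneg_left h10 hc.le
      have h15 : 0 ≤ (c * D ^ 2) * ((Nat.card H : ℝ) - 1) :=
        mul_nonneg (by positivity) (by linarith)
      nlinarith
    have h12 : (p:ℝ) * (K + 1) < c * p ^ 2 := by nlinarith
    linarith

end Pool.Agent.S08598
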