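import Pool.Statements.S08686

set_option autoImplicit false
open Pool Pool.MP_4e7ec3_co

namespace Pool.Agent.S08686

/-- the index map on `ℕ`: blocks of six consecutive indices, each block is mapped into its interior -/
def st (i : ℕ) : ℕ := 6 * (i / 6) + (if i % 6 < 3 then 4 else 1)

lemma st_div (i : ℕ) : st i / 6 = i / 6 := by
  unfold st; split_ifs <;> omega

lemma st_mod (i : ℕ) : st i % 6 = 4 ∨ st i % 6 = 1 := by
  unfold st; split_ifs <;> omega

/-- The negation of the preceding statement: There is a constant k such that for every finite F in [0,1] containing 0 and 1, every ε>0, and every T:F→F moving each point by more than ε, some p₀ in F reaches a point at distance at least 1/3 in at most k/ε steps, each step going to T(p) or a neighbour of T(p) in F. -/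
theorem result :
    ¬ (∃ k : ℝ, ∀ (F : Finset ℝ) (ε : ℝ) (T : ℝ → ℝ),
      (∀ p ∈ F, 0 ≤ p ∧ p ≤ 1) → (0 : ℝ) ∈ F → (1 : ℝ) ∈ F → 0 < ε →
      (∀ p ∈ F, T p ∈ F ∧ ε < |p - T p|) →
      ∃ p₀ ∈ F, ∃ n : ℕ, (n : ℝ) ≤ k / ε ∧
        ∃ x : ℕ → ℝ, x 0 = p₀ ∧
          (∀ i < n,
            x (i + 1) = T (x i) ∨
            (x (i + 1) ∈ F ∧ x (i + 1) < T (x i) ∧
              ∀ r ∈ F, r < T (x i) → r ≤ x (i + 1)) ∨
            (x (i + 1) ∈ F ∧ T (x i) < x (i + 1) ∧
              ∀ r ∈ F, T (x i) < r → x (i + 1) ≤ r)) ∧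
          1 / 3 ≤ |x n - p₀|) := by
  rintro ⟨k, hk⟩
  -- the grid `i / 23`, `i = 0, …, 23`
  set g : ℕ → ℝ := fun i => (i : ℝ) / 23 with hg
  have ginj : ∀ i j : ℕ, g i = g j → i = j := by
    intro i j h
    simp only [hg] at h
    have : (i : ℝ) = j := by linarith
    exact_mod_cast this
  have glt : ∀ i j : ℕ, g i < g j ↔ i < j := by
    intro i j
    simp only [hg]
    constructor
    · intro h
      have : (i : ℝ) < j := by linarith
      exact_mod_cast this
    · intro h
      have : (i : ℝ) < j := by exact_mod_cast h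
      linarith
  have gle : ∀ i j : ℕ, g i ≤ g j ↔ i ≤ j := by
    intro i j
    rw [← not_lt, ← not_lt, glt]
  set F : Finset ℝ := (Finset.range 24).image g with hF
  have memF : ∀ p, p ∈ F ↔ ∃ i, i < 24 ∧ g i = p := by
    intro p; simp [hF]
  set T : ℝ → ℝ := fun p => g (st ⌊23 * p + 1 / 2⌋₊) with hT
  have Tg : ∀ i : ℕ, T (g i) = g (st i) := by
    intro i
    simp only [hT, hg]
    congr 3
    rw [Nat.floor_eq_iff (by positivity)]
    constructor
    · have : (23 : ℝ) * ((i : ℝ) / 23) = i := by ring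
      rw [this]; linarith
    · have : (23 : ℝ) * ((i : ℝ) / 23) = i := by ring
      rw [this]; linarith
  have c1 : ∀ p ∈ F, 0 ≤ p ∧ p ≤ 1 := by
    intro p hp
    obtain ⟨i, hi, rfl⟩ := (memF p).1 hp
    simp only [hg]
    have : (i : ℝ) ≤ 23 := by
      have : i ≤ 23 := by omega
      exact_mod_cast this
    constructor
    · positivity
    · linarith
  have c2 : (0 : ℝ) ∈ F := (memF 0).2 ⟨0, by norm_num, by simp [hg]⟩
  have c3 : (1 : ℝ) ∈ F := (memF 1).2 ⟨23, by norm_num, by simp [hg]⟩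
  have c4 : ∀ p ∈ F, T p ∈ F ∧ (1 / 23 : ℝ) < |p - T p| := by
    intro p hp
    obtain ⟨i, hi, rfl⟩ := (memF p).1 hp
    rw [Tg]
    have hstd := st_div i
    have hstm := st_mod i
    refine ⟨(memF _).2 ⟨st i, by omega, rfl⟩, ?_⟩
    have hcase : st i + 2 ≤ i ∨ i + 2 ≤ st i := by
      unfold st; split_ifs <;> omega
    simp only [hg]
    rcases hcase with h | h
    · have : (st i : ℝ) + 2 ≤ i := by exact_mod_cast h
      rw [abs_of_nonneg (by linarith)]
      linarith
    · have : (i : ℝ) + 2 ≤ st i := by exact_mod_cast h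
      rw [abs_of_nonpos (by linarith)]
      linarith
  obtain ⟨p₀, hp₀, n, -, x, hx0, hx, hfar⟩ := hk F (1 / 23) T c1 c2 c3 (by norm_num) c4
  obtain ⟨i₀, hi₀, hgi₀⟩ := (memF p₀).1 hp₀
  -- all points reached stay in the block of `i₀`
  have key : ∀ m, m ≤ n → ∃ j, j < 24 ∧ j / 6 = i₀ / 6 ∧ x m = g j := by
    intro m
    induction m with
    | zero => intro _; exact ⟨i₀, hi₀, rfl, by rw [hx0, hgi₀]⟩
    | succ m ih =>
      intro hm
      obtain ⟨j, hj, hjd, hxj⟩ := ih (by omega)
      have hstd := st_div j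
      have hstm := st_mod j
      have hTj : T (x m) = g (st j) := by rw [hxj, Tg]
      have hst24 : st j < 24 := by omega
      rcases hx m (by omega) with h | ⟨h1, h2, h3⟩ | ⟨h1, h2, h3⟩
      · exact ⟨st j, hst24, by omega, by rw [h, hTj]⟩
      · obtain ⟨l, hl, hgl⟩ := (memF _).1 h1
        rw [hTj, ← hgl, glt] at h2
        have h4 := h3 (g (st j - 1)) ((memF _).2 ⟨st j - 1, by omega, rfl⟩)
          (by rw [hTj, glt]; omega)
        rw [← hgl, gle] at h4
        exact ⟨l, hl, by omega, hgl.symm⟩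
      · obtain ⟨l, hl, hgl⟩ := (memF _).1 h1
        rw [hTj, ← hgl, glt] at h2
        have h4 := h3 (g (st j + 1)) ((memF _).2 ⟨st j + 1, by omega, rfl⟩)
          (by rw [hTj, glt]; omega)
        rw [← hgl, gle] at h4
        exact ⟨l, hl, by omega, hgl.symm⟩
  obtain ⟨j, hj, hjd, hxj⟩ := key n le_rfl
  rw [hxj, ← hgi₀] at hfar
  simp only [hg] at hfar
  have h1 : (j : ℝ) ≤ i₀ + 5 := by
    have : j ≤ i₀ + 5 := by omega
    exact_mod_cast this
  have h2 : (i₀ : ℝ) ≤ j + 5 := by
    have : i₀ ≤ j + 5 := by omega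
    exact_mod_cast this
  have h3 : |(j : ℝ) / 23 - (i₀ : ℝ) / 23| ≤ 5 / 23 := by
    rw [abs_le]; constructor <;> linarith
  linarith

end Pool.Agent.S08686
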