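import Pool.Statements.S08825
import Pool.Agent.Q134.PathPair

set_option autoImplicit false
open Pool Pool.MP_5651c1_co

namespace Pool.Agent.S08825

/-- For every t there is c>0 such that every finite path-pairable graph on n≥2 vertices with no K_t minor has a vertex of degree at least c·n. -/
theorem result :
    ∀ t : ℕ, ∃ c : ℝ, 0 < c ∧
      ∀ (V : Type) [Fintype V] (G : SimpleGraph V) [DecidableRel G.Adj],
        2 ≤ Fintype.card V →
        (∀ (k : ℕ) (s r : Fin k → V), Function.Injective (Sum.elim s r) →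
          ∃ p : (i : Fin k) → G.Walk (s i) (r i),
            (∀ i, (p i).IsPath) ∧
            ∀ i j, i ≠ j → ∀ e ∈ (p i).edges, e ∉ (p j).edges) →
        (¬ ∃ f : Fin t → Set V,
            (∀ i, (G.induce (f i)).Connected) ∧
            (∀ i j, i ≠ j → Disjoint (f i) (f j)) ∧
            (∀ i j, i ≠ j → ∃ u ∈ f i, ∃ v ∈ f j, G.Adj u v)) →
        ∃ v : V, c * (Fintype.card V : ℝ) ≤ (G.degree v : ℝ) := by
  intro t
  refine ⟨1 / ((Pool.Agent.Q134.PP.cst t : ℝ) + 1), by positivity, ?_⟩
  intro V _ G _ h2 hG hK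
  obtain ⟨v, hv⟩ := Pool.Agent.Q134.PP.key G t h2 hG hK
  refine ⟨v, ?_⟩
  have h3 : (Fintype.card V : ℝ) ≤ Pool.Agent.Q134.PP.cst t * G.degree v := by exact_mod_cast hv
  rw [div_mul_eq_mul_div, one_mul, div_le_iff₀ (by positivity)]
  have h4 : (0 : ℝ) ≤ G.degree v := by positivity
  nlinarith

end Pool.Agent.S08825
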