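import Pool.Statements.S09181
import Pool.Agent.Q130.RW.Wreath

set_option autoImplicit false
open Classical
open Pool Pool.MP_632be6_co

namespace Pool.Agent.S09181

/-- For all finite simple graphs G (with an edge) and G', if the chromatic index of G equals its maximum degree, then the chromatic index of the wreath product G ρ G' equals its maximum degree. -/
theorem result :
    ∀ (V W : Type) [Fintype V] [Fintype W] (G : SimpleGraph V) (G' : SimpleGraph W)
      (H : SimpleGraph (V × W)),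
      H = SimpleGraph.fromRel (fun p q : V × W =>
            (p.1 = q.1 ∧ G'.Adj p.2 q.2) ∨
            (G.Adj p.1 q.1 ∧ ∃ φ : G' ≃g G', φ p.2 = q.2)) →
      G.edgeSet.Nonempty →
      sInf {k : ℕ | ∃ c : Sym2 V → Fin k, ∀ e ∈ G.edgeSet, ∀ f ∈ G.edgeSet,
              e ≠ f → (∃ v, v ∈ e ∧ v ∈ f) → c e ≠ c f} = G.maxDegree →
      sInf {k : ℕ | ∃ c : Sym2 (V × W) → Fin k, ∀ e ∈ H.edgeSet, ∀ f ∈ H.edgeSet,
              e ≠ f → (∃ v, v ∈ e ∧ v ∈ f) → c e ≠ c f} = H.maxDegree := by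
  intro V W _ _ G G' H hH hne hG
  -- the orbit relation
  let R : W → W → Prop := fun x y => ∃ φ : G' ≃g G', φ x = y
  have hR : Equivalence R := by
    refine ⟨fun x => ⟨SimpleGraph.Iso.refl, rfl⟩, ?_, ?_⟩
    · rintro x y ⟨φ, h⟩
      exact ⟨φ.symm, by rw [← h]; exact φ.symm_apply_apply x⟩
    · rintro x y z ⟨φ, h⟩ ⟨ψ, h'⟩
      exact ⟨φ.trans ψ, by rw [← h', ← h]; rfl⟩
  have hadj : ∀ p q : V × W, H.Adj p q ↔ p ≠ q ∧
      ((p.1 = q.1 ∧ G'.Adj p.2 q.2) ∨ (G.Adj p.1 q.1 ∧ R p.2 q.2)) := by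
    intro p q
    rw [hH, SimpleGraph.fromRel_adj]
    constructor
    · rintro ⟨h1, (h2 | h2) | (h2 | h2)⟩
      · exact ⟨h1, Or.inl h2⟩
      · exact ⟨h1, Or.inr h2⟩
      · exact ⟨h1, Or.inl ⟨h2.1.symm, h2.2.symm⟩⟩
      · exact ⟨h1, Or.inr ⟨h2.1.symm, hR.symm h2.2⟩⟩
    · rintro ⟨h1, h2⟩
      exact ⟨h1, Or.inl h2⟩
  -- a colouring of `G` with `D` colours
  have hVne : Nonempty V := by
    obtain ⟨e, he⟩ := hne
    induction e with
    | h x y => exact ⟨x⟩
  have hDpos : 1 ≤ G.maxDegree := by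
    obtain ⟨e, he⟩ := hne
    induction e with
    | h x y =>
      have h1 : 0 < G.degree x := by
        rw [SimpleGraph.degree_pos_iff_exists_adj]
        exact ⟨y, he⟩
      have h2 := G.degree_le_maxDegree x
      omega
  obtain ⟨D, hD⟩ : ∃ D, D = G.maxDegree := ⟨_, rfl⟩
  rw [← hD] at hG hDpos
  have hmem : D ∈ {k : ℕ | ∃ c : Sym2 V → Fin k, ∀ e ∈ G.edgeSet, ∀ f ∈ G.edgeSet,
              e ≠ f → (∃ v, v ∈ e ∧ v ∈ f) → c e ≠ c f} := by
    rw [← hG]
    apply Nat.sInf_mem
    by_contra hemp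
    rw [Set.not_nonempty_iff_eq_empty] at hemp
    rw [hemp, Nat.sInf_empty] at hG
    omega
  obtain ⟨c0, hc0⟩ := hmem
  obtain ⟨g, hg⟩ := G.exists_maximal_degree_vertex
  have hcardg : Fintype.card (G.neighborSet g) = D := by
    rw [SimpleGraph.card_neighborSet_eq_degree, ← hg, hD]
  let nb : Fin D ≃ G.neighborSet g := (Fintype.equivFinOfCardEq hcardg).symm
  have hk : ∀ u : W, Nat.card {w // G'.Adj u w} + D * Nat.card {w // R u w} ≤ H.maxDegree := by
    intro u
    refine le_trans ?_ (H.degree_le_maxDegree (g, u))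
    rw [← SimpleGraph.card_neighborSet_eq_degree, ← Nat.card_eq_fintype_card]
    let F : {w // G'.Adj u w} ⊕ (Fin D × {w // R u w}) → H.neighborSet (g, u) := fun z =>
      match z with
      | Sum.inl w => ⟨(g, w.1), (hadj _ _).2 ⟨fun h => w.2.ne (Prod.mk.inj h).2,
          Or.inl ⟨rfl, w.2⟩⟩⟩
      | Sum.inr tw => ⟨((nb tw.1).1, tw.2.1), (hadj _ _).2
          ⟨fun h => (SimpleGraph.Adj.ne (nb tw.1).2) (Prod.mk.inj h).1,
            Or.inr ⟨(nb tw.1).2, tw.2.2⟩⟩⟩
    have hF : Function.Injective F := by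
      rintro (w | ⟨t, w⟩) (w' | ⟨t', w'⟩) h
      · have h1 := Prod.mk.inj (Subtype.mk.inj h)
        rw [Subtype.ext h1.2]
      · have h1 := Prod.mk.inj (Subtype.mk.inj h)
        exact absurd h1.1 (SimpleGraph.Adj.ne (nb t').2)
      · have h1 := Prod.mk.inj (Subtype.mk.inj h)
        exact absurd h1.1.symm (SimpleGraph.Adj.ne (nb t).2)
      · have h1 := Prod.mk.inj (Subtype.mk.inj h)
        have h2 : t = t' := nb.injective (Subtype.ext h1.1)
        have h3 : w = w' := Subtype.ext h1.2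
        rw [h2, h3]
    have h1 := Nat.card_le_card_of_injective F hF
    rw [Nat.card_sum, Nat.card_prod, Nat.card_eq_fintype_card (α := Fin D),
      Fintype.card_fin] at h1
    exact h1
  obtain ⟨Col, h1, h2, h3, h4⟩ := Q130.RW.wreath G G' R hR D H.maxDegree hDpos c0 hc0 hk
  have hcol : ∀ p q, H.Adj p q → ∃ a, Col p q a := by
    rintro ⟨g1, x⟩ ⟨g2, y⟩ h
    rcases ((hadj _ _).1 h).2 with ⟨h5, h6⟩ | ⟨h5, h6⟩
    · simp only at h5
      subst h5
      exact h3 g1 x y h6
    · exact h4 g1 g2 x y h5 h6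
  -- upper bound
  have hup : H.maxDegree ∈ {k : ℕ | ∃ c : Sym2 (V × W) → Fin k, ∀ e ∈ H.edgeSet,
      ∀ f ∈ H.edgeSet, e ≠ f → (∃ v, v ∈ e ∧ v ∈ f) → c e ≠ c f} := by
    by_cases hk0 : H.maxDegree = 0
    · -- no vertices
      have hW : IsEmpty W := by
        by_contra hW
        rw [not_isEmpty_iff] at hW
        obtain ⟨w⟩ := hW
        have h5 := hk w
        have h6 : 0 < Nat.card {w' // R w w'} := by
          rw [Nat.card_pos_iff]
          exact ⟨⟨⟨w, hR.refl w⟩⟩, inferInstance⟩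
        have h7 : 0 < D * Nat.card {w' // R w w'} := Nat.mul_pos hDpos h6
        omega
      refine ⟨fun e => False.elim ?_, ?_⟩
      · induction e with
        | h x y => exact hW.elim x.2
      · intro e he
        induction e with
        | h x y => exact hW.elim x.2
    · have hpos : 0 < H.maxDegree := Nat.pos_of_ne_zero hk0
      let c : Sym2 (V × W) → Fin H.maxDegree := fun s =>
        if h : ∃ a, ∃ p q, s = s(p, q) ∧ Col p q a then h.choose else ⟨0, hpos⟩
      have hc : ∀ v q, H.Adj v q → Col v q (c s(v, q)) := by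
        intro v q hvq
        obtain ⟨a, ha⟩ := hcol v q hvq
        have X : ∃ a, ∃ p q', s(v, q) = s(p, q') ∧ Col p q' a := ⟨a, v, q, rfl, ha⟩
        simp only [c]
        rw [dif_pos X]
        obtain ⟨p, q', h5, h6⟩ := X.choose_spec
        rw [Sym2.eq_iff] at h5
        rcases h5 with ⟨h5, h7⟩ | ⟨h5, h7⟩
        · rw [← h5, ← h7] at h6
          exact h6
        · rw [← h5, ← h7] at h6
          exact h1 _ _ _ h6
      refine ⟨c, ?_⟩
      rintro e he f hf hef ⟨v, hve, hvf⟩ hcef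
      obtain ⟨q, rfl⟩ := Sym2.mem_iff_exists.mp hve
      obtain ⟨q', rfl⟩ := Sym2.mem_iff_exists.mp hvf
      have h5 := hc v q he
      have h6 := hc v q' hf
      rw [← hcef] at h6
      have h7 := h2 _ _ _ _ h5 h6
      rw [h7] at hef
      exact hef rfl
  -- lower bound
  apply le_antisymm (Nat.sInf_le hup)
  apply le_csInf ⟨_, hup⟩
  rintro k ⟨c, hc⟩
  by_cases hne' : Nonempty (V × W)
  · obtain ⟨v, hv⟩ := H.exists_maximal_degree_vertex
    rw [hv, ← SimpleGraph.card_neighborSet_eq_degree]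
    have hinj : Function.Injective (fun w : H.neighborSet v => c s(v, w.1)) := by
      intro w w' h
      by_contra hww
      refine hc s(v, w.1) w.2 s(v, w'.1) w'.2 ?_ ⟨v, by simp, by simp⟩ h
      intro h5
      exact hww (Subtype.ext (Sym2.congr_right.mp h5))
    have := Fintype.card_le_of_injective _ hinj
    rwa [Fintype.card_fin] at this
  · rw [not_nonempty_iff] at hne'
    have : H.maxDegree = 0 := by
      apply Nat.le_zero.1
      apply SimpleGraph.maxDegree_le_of_forall_degree_le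
      intro v
      exact hne'.elim v
    omega

end Pool.Agent.S09181
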