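import Pool.Statements.S09469
import Pool.Agent.Q156.CyclicCount
import Pool.Agent.Q156.CyclicExist
import Pool.Agent.Q156.CyclicFamilies
import Pool.Agent.Q156.CyclicFamiliesThree

set_option autoImplicit false
open Pool Pool.MP_72c5f4_co

namespace Pool.Agent.S09469

open Q156.CyclicSTS Q156.Skolem in
lemma aux (M n t : ℕ) (α : ℕ → ℕ) (hg : Good n t α) (ht : 8 ≤ t) (hM : n * M ≤ 2 ^ t) :
      ∃ B : Fin M → Finset (Finset (ZMod n)),
        (∀ i, (∀ b ∈ B i, b.card = 3) ∧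
          (∀ x y : ZMod n, x ≠ y → ∃! b : Finset (ZMod n), b ∈ B i ∧ x ∈ b ∧ y ∈ b) ∧
          (∀ b ∈ B i, b.image (fun x => x + 1) ∈ B i)) ∧
        (∀ i j, i ≠ j → ¬ ∃ σ : Equiv.Perm (ZMod n),
          ∀ b : Finset (ZMod n), b ∈ B i ↔ b.map σ.toEmbedding ∈ B j) := by
  have hn : n ≠ 0 := by
    rcases hg.2.2 with h | ⟨h, -⟩ <;> omega
  haveI : NeZero n := ⟨hn⟩
  have hdf := isDF_of_good (n := n) (by omega) hg
  exact exists_many _ _ hdf M (by simpa using hM)

lemma pow_bound (M t : ℕ) (ht : 36 * M + 36 ≤ t) : (6 * t + 3) * M ≤ 2 ^ t := by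
  have key : ∀ s : ℕ, 4 ≤ s → s * s ≤ 2 ^ s := by
    intro s hs
    induction s, hs using Nat.le_induction with
    | base => norm_num
    | succ k hk ih =>
      have : (k + 1) * (k + 1) ≤ 2 * (k * k) := by nlinarith
      calc (k + 1) * (k + 1) ≤ 2 * (k * k) := this
        _ ≤ 2 * 2 ^ k := by omega
        _ = 2 ^ (k + 1) := by ring
  have h1 := key t (by omega)
  nlinarith

/-- For every M, all sufficiently large n with n ≡ 1 or 3 mod 6 admit at least M pairwise non-isomorphic cyclic Steiner triple systems on Z/nZ, i.e. the number of cyclic STS(n) up to isomorphism tends to infinity. -/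
theorem result :
    ∀ M : ℕ, ∃ N : ℕ, ∀ n : ℕ, N ≤ n → (n % 6 = 1 ∨ n % 6 = 3) →
      ∃ B : Fin M → Finset (Finset (ZMod n)),
        (∀ i, (∀ b ∈ B i, b.card = 3) ∧
          (∀ x y : ZMod n, x ≠ y → ∃! b : Finset (ZMod n), b ∈ B i ∧ x ∈ b ∧ y ∈ b) ∧
          (∀ b ∈ B i, b.image (fun x => x + 1) ∈ B i)) ∧
        (∀ i j, i ≠ j → ¬ ∃ σ : Equiv.Perm (ZMod n),
          ∀ b : Finset (ZMod n), b ∈ B i ↔ b.map σ.toEmbedding ∈ B j) := by
  intro M
  refine ⟨6 * (36 * M + 36) + 6, ?_⟩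
  intro n hn hmod
  have hb := pow_bound M (n / 6) (by omega)
  rcases hmod with h | h
  · have e : n = 6 * (n / 6) + 1 := by omega
    obtain ⟨α, hα⟩ := Q156.Skolem.exists_good_one (n / 6) (by omega)
    rw [← e] at hα
    refine aux M n (n / 6) α hα (by omega) (le_trans ?_ hb)
    exact Nat.mul_le_mul_right M (by omega)
  · have e : n = 6 * (n / 6) + 3 := by omega
    obtain ⟨α, hα⟩ := Q156.Skolem.exists_good_three (n / 6) (by omega)
    rw [← e] at hα
    refine aux M n (n / 6) α hα (by omega) (le_trans ?_ hb)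
    exact Nat.mul_le_mul_right M (by omega)

end Pool.Agent.S09469
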