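import Pool.Statements.S09637
-- import your own Pool.Agent.* helpers here

set_option autoImplicit false
open Pool Pool.MP_7a5332_co

namespace Pool.Agent.S09637

open Finset

variable {V : Type} [Fintype V] [DecidableEq V]

/-- The colouring argument around one edge `ab` of the dense core. -/
lemma edge_core (G : SimpleGraph V) (hnot : ¬ G.Colorable 3)
    (hcrit : ∀ e ∈ G.edgeSet, (G.deleteEdges {e}).Colorable 3) (A B : Finset V)
    (hAind : ∀ x ∈ A, ∀ y ∈ A, ¬ G.Adj x y) (hdis : ∀ x ∈ A, x ∉ B)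
    (hA : ∀ x ∈ A, ∀ y ∈ A, ∀ z ∈ A, ∀ b, ∃ w ∈ B, w ≠ b ∧ G.Adj x w ∧ G.Adj y w ∧ G.Adj z w)
    (hB : ∀ x ∈ B, ∀ y ∈ B, ∀ z ∈ B, ∀ a, ∃ w ∈ A, w ≠ a ∧ G.Adj x w ∧ G.Adj y w ∧ G.Adj z w)
    (a b : V) (ha : a ∈ A) (hb : b ∈ B) (hab : G.Adj a b) :
    ∃ r : V, r ∉ A ∧ r ∉ B ∧ G.Adj a r ∧ ∀ x ∈ A, x ≠ a → G.Adj b x → ¬ G.Adj r x := by
  obtain ⟨φ⟩ := hcrit s(a, b) (by rwa [SimpleGraph.mem_edgeSet])
  have hprop : ∀ x y, G.Adj x y → s(x, y) ≠ s(a, b) → φ x ≠ φ y := by
    intro x y hxy hne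
    apply φ.valid
    rw [SimpleGraph.deleteEdges_adj]
    exact ⟨hxy, hne⟩
  have hne_ab : a ≠ b := hab.ne
  -- the two endpoints get the same colour
  have hc : φ a = φ b := by
    by_contra hne
    apply hnot
    refine ⟨SimpleGraph.Coloring.mk φ ?_⟩
    intro x y hxy
    by_cases he : s(x, y) = s(a, b)
    · rw [Sym2.eq_iff] at he
      rcases he with ⟨h1, h2⟩ | ⟨h1, h2⟩
      · rw [h1, h2]; exact hne
      · rw [h1, h2]; exact Ne.symm hne
    · exact hprop x y hxy he
  have hxA : ∀ x ∈ A, x ≠ a → G.Adj b x → φ x ≠ φ a := by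
    intro x _ hxa hbx
    rw [hc]
    apply hprop x b hbx.symm
    intro h
    rw [Sym2.eq_iff] at h
    rcases h with ⟨h1, _⟩ | ⟨h1, h2⟩
    · exact hxa h1
    · exact hne_ab h2.symm
  have hyB : ∀ y ∈ B, y ≠ b → G.Adj a y → φ y ≠ φ a := by
    intro y _ hyb hay
    apply hprop y a hay.symm
    intro h
    rw [Sym2.eq_iff] at h
    rcases h with ⟨h1, h2⟩ | ⟨h1, _⟩
    · exact hne_ab h2
    · exact hyb h1
  have fin3 : ∀ p q r s : Fin 3, p ≠ q → p ≠ r → q ≠ r → s ≠ p → s ≠ q → s ≠ r → False := by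
    decide
  have hsame : ∀ x ∈ A, x ≠ a → G.Adj b x → ∀ x' ∈ A, x' ≠ a → G.Adj b x' → φ x = φ x' := by
    intro x hx hxa hbx x' hx' hxa' hbx'
    by_contra hne
    obtain ⟨w, hw, hwb, h1, h2, h3⟩ := hA a ha x hx x' hx' b
    have e1 : φ w ≠ φ a := hyB w hw hwb h1
    have e2 : φ w ≠ φ x := by
      apply hprop w x h2.symm
      intro h
      rw [Sym2.eq_iff] at h
      rcases h with ⟨_, h2'⟩ | ⟨h1', _⟩
      · exact hdis x hx (h2' ▸ hb)
      · exact hwb h1'
    have e3 : φ w ≠ φ x' := by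
      apply hprop w x' h3.symm
      intro h
      rw [Sym2.eq_iff] at h
      rcases h with ⟨_, h2'⟩ | ⟨h1', _⟩
      · exact hdis x' hx' (h2' ▸ hb)
      · exact hwb h1'
    exact fin3 (φ a) (φ x) (φ x') (φ w) (hxA x hx hxa hbx).symm (hxA x' hx' hxa' hbx').symm hne
      e1 e2 e3
  have hsameB : ∀ y ∈ B, y ≠ b → G.Adj a y → ∀ y' ∈ B, y' ≠ b → G.Adj a y' → φ y = φ y' := by
    intro y hy hyb hay y' hy' hyb' hay'
    by_contra hne
    obtain ⟨w, hw, hwa, h1, h2, h3⟩ := hB b hb y hy y' hy' a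
    have e1 : φ w ≠ φ a := hxA w hw hwa h1
    have e2 : φ w ≠ φ y := by
      apply hprop w y h2.symm
      intro h
      rw [Sym2.eq_iff] at h
      rcases h with ⟨h1', _⟩ | ⟨h1', _⟩
      · exact hwa h1'
      · exact hdis w hw (h1' ▸ hb)
    have e3 : φ w ≠ φ y' := by
      apply hprop w y' h3.symm
      intro h
      rw [Sym2.eq_iff] at h
      rcases h with ⟨h1', _⟩ | ⟨h1', _⟩
      · exact hwa h1'
      · exact hdis w hw (h1' ▸ hb)
    exact fin3 (φ a) (φ y) (φ y') (φ w) (hyB y hy hyb hay).symm (hyB y' hy' hyb' hay').symm hne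
      e1 e2 e3
  obtain ⟨x₀, hx₀, hx₀a, hbx₀, -, -⟩ := hB b hb b hb b hb a
  obtain ⟨y₀, hy₀, hy₀b, hay₀, hxy₀, -⟩ := hA a ha x₀ hx₀ x₀ hx₀ b
  have hcc : φ y₀ ≠ φ x₀ := by
    apply hprop y₀ x₀ hxy₀.symm
    intro h
    rw [Sym2.eq_iff] at h
    rcases h with ⟨_, h2'⟩ | ⟨h1', _⟩
    · exact hdis x₀ hx₀ (h2' ▸ hb)
    · exact hy₀b h1'
  have hex : ∃ r, G.Adj a r ∧ r ≠ b ∧ φ r = φ x₀ := by
    by_contra hcon
    push Not at hcon
    apply hnot
    refine ⟨SimpleGraph.Coloring.mk (fun z => if z = a then φ x₀ else φ z) ?_⟩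
    have hkey : ∀ y, G.Adj a y → φ x₀ ≠ φ y := by
      intro y hay
      by_cases hyb : y = b
      · rw [hyb, ← hc]
        exact hxA x₀ hx₀ hx₀a hbx₀
      · exact (hcon y hay hyb).symm
    intro x y hxy
    by_cases hxa : x = a
    · subst hxa
      have hya : y ≠ x := hxy.ne'
      rw [if_pos rfl, if_neg hya]
      exact hkey y hxy
    · by_cases hya : y = a
      · subst hya
        rw [if_pos rfl, if_neg hxa]
        exact (hkey x hxy.symm).symm
      · rw [if_neg hxa, if_neg hya]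
        apply hprop x y hxy
        intro h
        rw [Sym2.eq_iff] at h
        rcases h with ⟨h1, _⟩ | ⟨_, h2⟩
        · exact hxa h1
        · exact hya h2
  obtain ⟨r, har, hrb, hr⟩ := hex
  refine ⟨r, fun h => hAind a ha r h har, fun h => ?_, har, ?_⟩
  · have := hsameB r h hrb har y₀ hy₀ hy₀b hay₀
    rw [hr] at this
    exact hcc this.symm
  · intro x hx hxa hbx hrx
    have h1 := hsame x hx hxa hbx x₀ hx₀ hx₀a hbx₀
    apply hprop r x hrx _ (hr.trans h1.symm)
    intro h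
    rw [Sym2.eq_iff] at h
    rcases h with ⟨_, h2⟩ | ⟨h1', _⟩
    · exact hdis x hx (h2 ▸ hb)
    · exact hrb h1'

lemma core_count (G : SimpleGraph V) (hnot : ¬ G.Colorable 3)
    (hcrit : ∀ e ∈ G.edgeSet, (G.deleteEdges {e}).Colorable 3) (A B : Finset V)
    (hAind : ∀ x ∈ A, ∀ y ∈ A, ¬ G.Adj x y) (hdis : ∀ x ∈ A, x ∉ B)
    (hA : ∀ x ∈ A, ∀ y ∈ A, ∀ z ∈ A, ∀ b, ∃ w ∈ B, w ≠ b ∧ G.Adj x w ∧ G.Adj y w ∧ G.Adj z w)
    (hB : ∀ x ∈ B, ∀ y ∈ B, ∀ z ∈ B, ∀ a, ∃ w ∈ A, w ≠ a ∧ G.Adj x w ∧ G.Adj y w ∧ G.Adj z w)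
    (b : V) (hb : b ∈ B) (S : Finset V) (hSA : S ⊆ A) (hS : ∀ a ∈ S, G.Adj a b) :
    S.card ≤ ((univ \ A) \ B).card := by
  have h : ∀ a : V, ∃ r : V, a ∈ S → (r ∉ A ∧ r ∉ B ∧ G.Adj a r ∧
      ∀ x ∈ A, x ≠ a → G.Adj b x → ¬ G.Adj r x) := by
    intro a
    by_cases ha : a ∈ S
    · obtain ⟨r, hr⟩ := edge_core G hnot hcrit A B hAind hdis hA hB a b (hSA ha) hb (hS a ha)
      exact ⟨r, fun _ => hr⟩
    · exact ⟨a, fun h => absurd h ha⟩
  choose f hf using h
  apply Finset.card_le_card_of_injOn f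
  · intro a ha
    have := hf a ha
    simp only [coe_sdiff, Set.mem_sdiff, mem_coe, mem_univ, true_and]
    exact ⟨this.1, this.2.1⟩
  · intro a ha a' ha' heq
    by_contra hne
    have h1 := hf a ha
    have h2 := hf a' ha'
    have h3 := h1.2.2.2 a' (hSA ha') (Ne.symm hne) (hS a' ha').symm
    rw [heq] at h3
    exact h3 h2.2.2.1.symm

/-- There is an edge with large degree sum. -/
lemma exists_edge (G : SimpleGraph V) [DecidableRel G.Adj] (hpos : 0 < ∑ v, G.degree v) :
    ∃ u v, G.Adj u v ∧ 2 * ∑ x, G.degree x ≤ Fintype.card V * (G.degree u + G.degree v) := by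
  by_contra hcon
  push Not at hcon
  set D := ∑ x, G.degree x with hD
  have h1 : ∑ u, ∑ v ∈ G.neighborFinset u, Fintype.card V * (G.degree u + G.degree v) <
      ∑ u, ∑ v ∈ G.neighborFinset u, 2 * D := by
    apply Finset.sum_lt_sum
    · intro u _
      apply Finset.sum_le_sum
      intro v hv
      rw [SimpleGraph.mem_neighborFinset] at hv
      exact (hcon u v hv).le
    · have : ∃ u, G.degree u ≠ 0 := by
        by_contra h
        push Not at h
        rw [hD] at hpos
        simp [h] at hpos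
      obtain ⟨u, hu⟩ := this
      refine ⟨u, mem_univ _, ?_⟩
      apply Finset.sum_lt_sum_of_nonempty
      · rw [← Finset.card_pos, SimpleGraph.card_neighborFinset_eq_degree]
        omega
      · intro v hv
        rw [SimpleGraph.mem_neighborFinset] at hv
        exact hcon u v hv
  have h2 : ∑ u, ∑ v ∈ G.neighborFinset u, 2 * D = D * (2 * D) := by
    simp only [Finset.sum_const, SimpleGraph.card_neighborFinset_eq_degree, smul_eq_mul]
    rw [← Finset.sum_mul]
  have h3 : ∑ u, ∑ v ∈ G.neighborFinset u, G.degree v = ∑ v, G.degree v * G.degree v := by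
    have h4 : ∑ u, ∑ v ∈ G.neighborFinset u, G.degree v =
        ∑ u, ∑ v, if G.Adj u v then G.degree v else 0 := by
      apply Finset.sum_congr rfl
      intro u _
      rw [SimpleGraph.neighborFinset_eq_filter, Finset.sum_filter]
    rw [h4, Finset.sum_comm]
    apply Finset.sum_congr rfl
    intro v _
    rw [← Finset.sum_filter, Finset.sum_const, smul_eq_mul]
    congr 1
    rw [← SimpleGraph.card_neighborFinset_eq_degree, SimpleGraph.neighborFinset_eq_filter]
    congr 1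
    ext u
    simp only [mem_filter, mem_univ, true_and, G.adj_comm]
  have h5 : ∑ u, ∑ v ∈ G.neighborFinset u, Fintype.card V * (G.degree u + G.degree v) =
      Fintype.card V * (2 * ∑ v, G.degree v * G.degree v) := by
    have : ∀ u, ∑ v ∈ G.neighborFinset u, Fintype.card V * (G.degree u + G.degree v) =
        Fintype.card V * (G.degree u * G.degree u + ∑ v ∈ G.neighborFinset u, G.degree v) := by
      intro u
      rw [← Finset.mul_sum, Finset.sum_add_distrib, Finset.sum_const,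
        SimpleGraph.card_neighborFinset_eq_degree, smul_eq_mul]
    rw [Finset.sum_congr rfl (fun u _ => this u), ← Finset.mul_sum, Finset.sum_add_distrib, h3]
    ring
  have h6 : D ^ 2 ≤ Fintype.card V * ∑ v, G.degree v ^ 2 := by
    have := sq_sum_le_card_mul_sum_sq (s := (univ : Finset V)) (f := fun v => G.degree v)
    rw [Finset.card_univ] at this
    exact this
  rw [h2, h5] at h1
  have h7 : ∑ v, G.degree v * G.degree v = ∑ v, G.degree v ^ 2 := by
    apply Finset.sum_congr rfl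
    intro v _
    ring
  rw [h7] at h1
  nlinarith

/-- number of non-neighbours of `x` in `B` -/
def nn (G : SimpleGraph V) [DecidableRel G.Adj] (B : Finset V) (x : V) : ℕ :=
  (B.filter (fun y => ¬ G.Adj x y)).card

lemma bad_count (G : SimpleGraph V) [DecidableRel G.Adj] (A B : Finset V) (q m : ℕ)
    (hq : ((A ×ˢ B).filter (fun p => ¬ G.Adj p.1 p.2)).card ≤ q) :
    m * (A.filter (fun x => ¬ (nn G B x < m))).card ≤ q := by
  refine le_trans ?_ hq
  have h1 : ((A ×ˢ B).filter (fun p => ¬ G.Adj p.1 p.2)).card = ∑ x ∈ A, nn G B x := by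
    rw [Finset.card_filter, Finset.sum_product]
    apply Finset.sum_congr rfl
    intro x _
    unfold nn
    rw [Finset.card_filter]
  rw [h1]
  calc m * (A.filter (fun x => ¬ (nn G B x < m))).card
      = ∑ x ∈ A.filter (fun x => ¬ (nn G B x < m)), m := by
        rw [Finset.sum_const, smul_eq_mul, mul_comm]
    _ ≤ ∑ x ∈ A.filter (fun x => ¬ (nn G B x < m)), nn G B x := by
        apply Finset.sum_le_sum
        intro x hx
        rw [mem_filter] at hx
        exact not_lt.1 hx.2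
    _ ≤ ∑ x ∈ A, nn G B x := Finset.sum_le_sum_of_subset (Finset.filter_subset _ _)

lemma common (G : SimpleGraph V) [DecidableRel G.Adj] (B B₀ : Finset V) (hBB : B ⊆ B₀) (m : ℕ)
    (x y z : V) (hx : nn G B₀ x ≤ m) (hy : nn G B₀ y ≤ m) (hz : nn G B₀ z ≤ m)
    (hB : 3 * m + 1 < B.card) (b : V) :
    ∃ w ∈ B, w ≠ b ∧ G.Adj x w ∧ G.Adj y w ∧ G.Adj z w := by
  by_contra hcon
  push Not at hcon
  have hsub : B ⊆ {b} ∪ (B₀.filter (fun w => ¬ G.Adj x w) ∪ (B₀.filter (fun w => ¬ G.Adj y w) ∪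
      B₀.filter (fun w => ¬ G.Adj z w))) := by
    intro w hw
    simp only [mem_union, mem_singleton, mem_filter]
    by_cases hwb : w = b
    · left; exact hwb
    by_cases h1 : G.Adj x w
    · by_cases h2 : G.Adj y w
      · right; right; right
        exact ⟨hBB hw, hcon w hw hwb h1 h2⟩
      · right; right; left
        exact ⟨hBB hw, h2⟩
    · right; left
      exact ⟨hBB hw, h1⟩
  have h1 := Finset.card_le_card hsub
  have h2 := Finset.card_union_le {b} (B₀.filter (fun w => ¬ G.Adj x w) ∪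
    (B₀.filter (fun w => ¬ G.Adj y w) ∪ B₀.filter (fun w => ¬ G.Adj z w)))
  have h3 := Finset.card_union_le (B₀.filter (fun w => ¬ G.Adj x w))
    (B₀.filter (fun w => ¬ G.Adj y w) ∪ B₀.filter (fun w => ¬ G.Adj z w))
  have h4 := Finset.card_union_le (B₀.filter (fun w => ¬ G.Adj y w))
    (B₀.filter (fun w => ¬ G.Adj z w))
  unfold nn at hx hy hz
  rw [Finset.card_singleton] at h2
  omega

lemma swap_count (A B : Finset V) (P : V → V → Prop) [DecidableRel P]
    (hP : ∀ x y, P x y ↔ P y x) :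
    ((B ×ˢ A).filter (fun p => P p.1 p.2)).card = ((A ×ˢ B).filter (fun p => P p.1 p.2)).card := by
  refine Finset.card_bij' (fun p _ => p.swap) (fun p _ => p.swap) ?_ ?_ ?_ ?_
  · intro p hp
    rw [mem_filter, mem_product] at hp ⊢
    exact ⟨⟨hp.1.2, hp.1.1⟩, (hP _ _).1 hp.2⟩
  · intro p hp
    rw [mem_filter, mem_product] at hp ⊢
    exact ⟨⟨hp.1.2, hp.1.1⟩, (hP _ _).1 hp.2⟩
  · intro p _
    rfl
  · intro p _
    rfl

lemma degree_sum_le (G : SimpleGraph V) [DecidableRel G.Adj] (A B : Finset V)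
    (hA : ∀ x ∈ A, ∀ y ∈ A, ¬ G.Adj x y) (hB : ∀ x ∈ B, ∀ y ∈ B, ¬ G.Adj x y) :
    ∑ x, G.degree x ≤ 2 * ((A ×ˢ B).filter (fun p => G.Adj p.1 p.2)).card +
      2 * ((univ \ (A ∪ B)).card * Fintype.card V) := by
  have h1 : ∑ x, G.degree x =
      ((univ ×ˢ univ : Finset (V × V)).filter (fun p => G.Adj p.1 p.2)).card := by
    rw [Finset.card_filter, Finset.sum_product]
    apply Finset.sum_congr rfl
    intro x _
    rw [← SimpleGraph.card_neighborFinset_eq_degree, SimpleGraph.neighborFinset_eq_filter,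
      Finset.card_filter]
  rw [h1]
  set R := univ \ (A ∪ B) with hR
  have hsub : ((univ ×ˢ univ : Finset (V × V)).filter (fun p => G.Adj p.1 p.2)) ⊆
      ((A ×ˢ B).filter (fun p => G.Adj p.1 p.2) ∪ (B ×ˢ A).filter (fun p => G.Adj p.1 p.2)) ∪
      (R ×ˢ univ ∪ univ ×ˢ R) := by
    intro p hp
    rw [mem_filter] at hp
    have hadj := hp.2
    simp only [mem_union, mem_filter, mem_product, mem_univ, true_and, and_true, hR, mem_sdiff]
    by_cases h1 : p.1 ∈ A
    · by_cases h2 : p.2 ∈ A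
      · exact absurd hadj (hA _ h1 _ h2)
      · by_cases h3 : p.2 ∈ B
        · left; left; exact ⟨⟨h1, h3⟩, hadj⟩
        · right; right
          rintro (h | h)
          · exact h2 h
          · exact h3 h
    · by_cases h1' : p.1 ∈ B
      · by_cases h2 : p.2 ∈ B
        · exact absurd hadj (hB _ h1' _ h2)
        · by_cases h3 : p.2 ∈ A
          · left; right; exact ⟨⟨h1', h3⟩, hadj⟩
          · right; right
            rintro (h | h)
            · exact h3 h
            · exact h2 h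
      · right; left
        rintro (h | h)
        · exact h1 h
        · exact h1' h
  have h2 := Finset.card_le_card hsub
  have h3 := Finset.card_union_le ((A ×ˢ B).filter (fun p => G.Adj p.1 p.2) ∪
    (B ×ˢ A).filter (fun p => G.Adj p.1 p.2)) (R ×ˢ (univ : Finset V) ∪ univ ×ˢ R)
  have h4 := Finset.card_union_le ((A ×ˢ B).filter (fun p => G.Adj p.1 p.2))
    ((B ×ˢ A).filter (fun p => G.Adj p.1 p.2))
  have h5 := Finset.card_union_le (R ×ˢ (univ : Finset V)) (univ ×ˢ R)
  have h6 := swap_count A B G.Adj (fun x y => G.adj_comm x y)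
  have h7 : (R ×ˢ (univ : Finset V)).card = R.card * Fintype.card V := by
    rw [Finset.card_product, Finset.card_univ]
  have h8 : ((univ : Finset V) ×ˢ R).card = R.card * Fintype.card V := by
    rw [Finset.card_product, Finset.card_univ, mul_comm]
  omega

/-- The arithmetic of the sizes. -/
lemma sizes (n a b r P q D : ℝ) (hn : 1000 ≤ n) (hb : 0 ≤ b) (hP : 0 ≤ P)
    (hD : 2 * (499 / 2000 * n ^ 2) < D) (h1 : 2 * D ≤ n * (a + b)) (hr : r = n - a - b)
    (hr0 : 0 ≤ r) (h2 : D ≤ 2 * P + 2 * (r * n)) (hq : q = a * b - P) (ha : 0 ≤ a)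
    (hPab : P ≤ a * b) :
    q ≤ n ^ 2 / 400 ∧ 44 / 100 * n ≤ a ∧ 44 / 100 * n ≤ b ∧ r ≤ n / 500 := by
  have hn0 : 0 < n := by linarith
  have e1 : 998 / 1000 * n ≤ a + b := by
    by_contra hcon
    push Not at hcon
    nlinarith
  have e2 : r ≤ n / 500 := by linarith
  have e3 : 4 * (a * b) ≤ n ^ 2 := by nlinarith [sq_nonneg (a - b)]
  have e4 : r * n ≤ n / 500 * n := mul_le_mul_of_nonneg_right e2 hn0.le
  have e5 : q ≤ n ^ 2 / 400 := by rw [hq]; nlinarith
  have e6 : 495 / 2000 * n ^ 2 < P := by nlinarith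
  have e7 : 495 / 2000 * n ^ 2 < a * b := lt_of_lt_of_le e6 hPab
  have e8 : a ≤ n := by linarith
  have e9 : b ≤ n := by linarith
  refine ⟨e5, ?_, ?_, e2⟩
  · by_contra hcon
    push Not at hcon
    have f1 : a * b ≤ a * (n - a) := mul_le_mul_of_nonneg_left (by linarith) ha
    have f2 : 0 < (44 / 100 * n - a) * (56 / 100 * n - a) :=
      mul_pos (by linarith) (by linarith)
    nlinarith
  · by_contra hcon
    push Not at hcon
    have f1 : a * b ≤ (n - b) * b := mul_le_mul_of_nonneg_right (by linarith) hb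
    have f2 : 0 < (44 / 100 * n - b) * (56 / 100 * n - b) :=
      mul_pos (by linarith) (by linarith)
    nlinarith

lemma bad_size (n k m q : ℝ) (hn : 1000 ≤ n) (hm : n ≤ 10 * m + 9) (hk : 0 ≤ k)
    (hq : q ≤ n ^ 2 / 400) (h : m * k ≤ q) : k ≤ 26 / 1000 * n := by
  have h1 : 99 / 1000 * n ≤ m := by linarith
  have h2 : 99 / 1000 * n * k ≤ m * k := mul_le_mul_of_nonneg_right h1 hk
  have h3 : n * (99 / 1000 * k) ≤ n * (n / 400) := by nlinarith
  have h4 : 99 / 1000 * k ≤ n / 400 := le_of_mul_le_mul_left h3 (by linarith)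
  linarith

/-- There is a constant c < 1/4 such that, for all large n, every triangle-free 4-critical graph on n vertices (chromatic number 4, no isolated vertices, each edge deletion leaves it 3-colorable) has at most c·n² edges. -/
theorem result :
    ∃ c : ℝ, c < 1 / 4 ∧ ∃ N : ℕ, ∀ n : ℕ, N ≤ n → ∀ G : SimpleGraph (Fin n),
      G.CliqueFree 3 → G.chromaticNumber = 4 → (∀ v : Fin n, ∃ w : Fin n, G.Adj v w) →
      (∀ e ∈ G.edgeSet, (G.deleteEdges {e}).Colorable 3) →
      (G.edgeSet.ncard : ℝ) ≤ c * (n : ℝ) ^ 2 := by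
  classical
  refine ⟨499 / 2000, by norm_num, 1000, ?_⟩
  intro n hn G hfree hchi _ hcrit
  by_contra hcon
  push Not at hcon
  have htri : ∀ x y z, G.Adj x y → G.Adj x z → G.Adj y z → False := by
    intro x y z h1 h2 h3
    exact hfree {x, y, z} (SimpleGraph.is3Clique_triple_iff.2 ⟨h1, h2, h3⟩)
  have hnot : ¬ G.Colorable 3 := by
    intro h
    have := h.chromaticNumber_le
    rw [hchi] at this
    exact absurd this (by decide)
  have hnr : (1000 : ℝ) ≤ n := by exact_mod_cast hn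
  have hsum := G.sum_degrees_eq_twice_card_edges
  have hcardE : G.edgeSet.ncard = G.edgeFinset.card := by
    rw [← SimpleGraph.coe_edgeFinset, Set.ncard_coe_finset]
  set D := ∑ x, G.degree x with hD
  have hDr : (D : ℝ) = 2 * (G.edgeSet.ncard : ℝ) := by
    rw [hsum, hcardE]; push_cast; ring
  have hDbig : 2 * (499 / 2000 * (n : ℝ) ^ 2) < D := by
    rw [hDr]; linarith
  have hDpos : 0 < D := by
    have : (0 : ℝ) < D := lt_of_le_of_lt (by positivity) hDbig
    exact_mod_cast this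
  obtain ⟨u, v, huv, hdeg⟩ := exists_edge G hDpos
  rw [← hD, Fintype.card_fin] at hdeg
  set A₀ := G.neighborFinset u with hA₀
  set B₀ := G.neighborFinset v with hB₀
  have hA₀i : ∀ x ∈ A₀, ∀ y ∈ A₀, ¬ G.Adj x y := by
    intro x hx y hy hxy
    rw [hA₀, SimpleGraph.mem_neighborFinset] at hx hy
    exact htri u x y hx hy hxy
  have hB₀i : ∀ x ∈ B₀, ∀ y ∈ B₀, ¬ G.Adj x y := by
    intro x hx y hy hxy
    rw [hB₀, SimpleGraph.mem_neighborFinset] at hx hy
    exact htri v x y hx hy hxy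
  have hdisj : Disjoint A₀ B₀ := by
    rw [Finset.disjoint_left]
    intro x hx hy
    rw [hA₀, SimpleGraph.mem_neighborFinset] at hx
    rw [hB₀, SimpleGraph.mem_neighborFinset] at hy
    exact htri u v x huv hx hy
  have hcA : A₀.card = G.degree u := SimpleGraph.card_neighborFinset_eq_degree _ _
  have hcB : B₀.card = G.degree v := SimpleGraph.card_neighborFinset_eq_degree _ _
  have hds := degree_sum_le G A₀ B₀ hA₀i hB₀i
  rw [← hD, Fintype.card_fin] at hds
  set P := ((A₀ ×ˢ B₀).filter (fun p => G.Adj p.1 p.2)).card with hP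
  set R₀ := univ \ (A₀ ∪ B₀) with hR₀
  have hR₀c : R₀.card + (A₀.card + B₀.card) = n := by
    rw [← Finset.card_union_of_disjoint hdisj, hR₀]
    rw [Finset.card_sdiff_add_card_eq_card (Finset.subset_univ _), Finset.card_univ,
      Fintype.card_fin]
  set q := ((A₀ ×ˢ B₀).filter (fun p => ¬ G.Adj p.1 p.2)).card with hq
  have hPq : P + q = A₀.card * B₀.card := by
    rw [hP, hq, Finset.card_filter_add_card_filter_not, Finset.card_product]
  have hPqr : (P : ℝ) + q = (A₀.card : ℝ) * B₀.card := by exact_mod_cast hPq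
  have hRr : (R₀.card : ℝ) = n - A₀.card - B₀.card := by
    have : (R₀.card : ℝ) + ((A₀.card : ℝ) + B₀.card) = n := by exact_mod_cast hR₀c
    linarith
  have hdegr : 2 * (D : ℝ) ≤ n * ((A₀.card : ℝ) + B₀.card) := by
    rw [hcA, hcB]; exact_mod_cast hdeg
  have hdsr : (D : ℝ) ≤ 2 * P + 2 * ((R₀.card : ℝ) * n) := by exact_mod_cast hds
  obtain ⟨s1, s2, s3, s4⟩ := sizes n A₀.card B₀.card R₀.card P q D hnr (by positivity)
    (by positivity) hDbig hdegr hRr (by positivity) hdsr (by linarith) (by positivity)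
    (by have : (0 : ℝ) ≤ q := by positivity
        linarith)
  set m := n / 10 with hm
  have hm1 : (n : ℝ) ≤ 10 * m + 9 := by
    have : n ≤ 10 * m + 9 := by omega
    exact_mod_cast this
  have hm2 : 10 * (m : ℝ) ≤ n := by
    have : 10 * m ≤ n := by omega
    exact_mod_cast this
  have hbadA := bad_count G A₀ B₀ q m le_rfl
  have hbadB := bad_count G B₀ A₀ q m (le_of_eq (by
    rw [hq]
    exact swap_count A₀ B₀ (fun x y => ¬ G.Adj x y) (fun x y => by rw [G.adj_comm])))
  set A := A₀.filter (fun x => nn G B₀ x < m) with hAdef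
  set B := B₀.filter (fun x => nn G A₀ x < m) with hBdef
  have hbA : (((A₀.filter (fun x => ¬ (nn G B₀ x < m))).card : ℕ) : ℝ) ≤ 26 / 1000 * n :=
    bad_size n _ m q hnr hm1 (by positivity) s1 (by exact_mod_cast hbadA)
  have hbB : (((B₀.filter (fun x => ¬ (nn G A₀ x < m))).card : ℕ) : ℝ) ≤ 26 / 1000 * n :=
    bad_size n _ m q hnr hm1 (by positivity) s1 (by exact_mod_cast hbadB)
  have hAc : (A.card : ℝ) + ((A₀.filter (fun x => ¬ (nn G B₀ x < m))).card : ℕ) = A₀.card := by
    rw [hAdef]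
    exact_mod_cast Finset.card_filter_add_card_filter_not (s := A₀) (fun x => nn G B₀ x < m)
  have hBc : (B.card : ℝ) + ((B₀.filter (fun x => ¬ (nn G A₀ x < m))).card : ℕ) = B₀.card := by
    rw [hBdef]
    exact_mod_cast Finset.card_filter_add_card_filter_not (s := B₀) (fun x => nn G A₀ x < m)
  have hAbig : 414 / 1000 * (n : ℝ) ≤ A.card := by linarith
  have hBbig : 414 / 1000 * (n : ℝ) ≤ B.card := by linarith
  have hAA₀ : A ⊆ A₀ := Finset.filter_subset _ _
  have hBB₀ : B ⊆ B₀ := Finset.filter_subset _ _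
  have hA3 : 3 * m + 1 < A.card := by
    have : (3 : ℝ) * m + 1 < A.card := by linarith
    exact_mod_cast this
  have hB3 : 3 * m + 1 < B.card := by
    have : (3 : ℝ) * m + 1 < B.card := by linarith
    exact_mod_cast this
  have hmemA : ∀ x ∈ A, nn G B₀ x ≤ m := fun x hx => ((Finset.mem_filter.1 hx).2).le
  have hmemB : ∀ x ∈ B, nn G A₀ x ≤ m := fun x hx => ((Finset.mem_filter.1 hx).2).le
  have hcA' : ∀ x ∈ A, ∀ y ∈ A, ∀ z ∈ A, ∀ b, ∃ w ∈ B, w ≠ b ∧ G.Adj x w ∧ G.Adj y w ∧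
      G.Adj z w := fun x hx y hy z hz b =>
    common G B B₀ hBB₀ m x y z (hmemA x hx) (hmemA y hy) (hmemA z hz) hB3 b
  have hcB' : ∀ x ∈ B, ∀ y ∈ B, ∀ z ∈ B, ∀ b, ∃ w ∈ A, w ≠ b ∧ G.Adj x w ∧ G.Adj y w ∧
      G.Adj z w := fun x hx y hy z hz b =>
    common G A A₀ hAA₀ m x y z (hmemB x hx) (hmemB y hy) (hmemB z hz) hA3 b
  have hBne : B.Nonempty := by
    rw [← Finset.card_pos]; omega
  obtain ⟨b, hb⟩ := hBne
  have hcount := core_count G hnot hcrit A B (fun x hx y hy => hA₀i x (hAA₀ hx) y (hAA₀ hy))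
    (fun x hx hxB => Finset.disjoint_left.1 hdisj (hAA₀ hx) (hBB₀ hxB)) hcA' hcB' b hb
    (A.filter (fun a => G.Adj b a)) (Finset.filter_subset _ _)
    (fun a ha => ((Finset.mem_filter.1 ha).2).symm)
  have hS : A.card ≤ (A.filter (fun a => G.Adj b a)).card + m := by
    have h1 := Finset.card_filter_add_card_filter_not (s := A) (fun a => G.Adj b a)
    have h2 : (A.filter (fun a => ¬ G.Adj b a)).card ≤ nn G A₀ b :=
      Finset.card_le_card (Finset.filter_subset_filter _ hAA₀)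
    have h3 := hmemB b hb
    omega
  have hR : ((univ \ A) \ B).card + (A.card + B.card) = n := by
    have hAB : Disjoint A B := Finset.disjoint_of_subset_left hAA₀
      (Finset.disjoint_of_subset_right hBB₀ hdisj)
    rw [← Finset.card_union_of_disjoint hAB, sdiff_sdiff_left]
    have := Finset.card_sdiff_add_card_eq_card (Finset.subset_univ (A ∪ B))
    rw [Finset.card_univ, Fintype.card_fin] at this
    exact this
  have hfin : 2 * A.card + B.card ≤ n + m := by omega
  have hfinr : 2 * (A.card : ℝ) + B.card ≤ n + m := by exact_mod_cast hfin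
  linarith

end Pool.Agent.S09637
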