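import Pool.Statements.S09798
-- import your own Pool.Agent.* helpers here

set_option autoImplicit false
open Pool Pool.MP_82152b_co

namespace Pool.Agent.S09798

/-- Boolean adjacency of `K₄` with one edge subdivided: `0` is the subdivision vertex. -/
def adjB : Fin 5 → Fin 5 → Bool := fun a b =>
  (a, b) ∈ [((0 : Fin 5), (1 : Fin 5)), (1, 0), (0, 2), (2, 0), (1, 3), (3, 1), (1, 4), (4, 1),
    (2, 3), (3, 2), (2, 4), (4, 2), (3, 4), (4, 3)]

/-- `K₄` with one edge subdivided. -/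
def HH : SimpleGraph (Fin 5) where
  Adj a b := adjB a b = true
  symm := ⟨by decide⟩
  loopless := ⟨by decide⟩

instance : DecidableRel HH.Adj := fun a b => inferInstanceAs (Decidable (adjB a b = true))

lemma HH_degenerate : ∀ S : Finset (Fin 5), S.Nonempty →
    ∃ v ∈ S, {w : Fin 5 | w ∈ S ∧ HH.Adj v w}.ncard ≤ 2 := by
  have key : ∀ S : Finset (Fin 5), S.Nonempty →
      ∃ v ∈ S, (Finset.univ.filter (fun w => w ∈ S ∧ HH.Adj v w)).card ≤ 2 := by
    decide +kernel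
  intro S hS
  obtain ⟨v, hv, h⟩ := key S hS
  refine ⟨v, hv, ?_⟩
  rw [Set.ncard_eq_toFinset_card']
  refine le_trans (le_of_eq ?_) h
  congr 1
  ext w
  simp

/-- the flap `{0}` -/
def AA : HH.Subgraph where
  verts := {0, 1, 2}
  Adj a b := HH.Adj a b ∧ (a = 0 ∨ b = 0)
  adj_sub h := h.1
  edge_vert {a b} h := by
    revert a b
    decide
  symm := ⟨by decide⟩

/-- the flap `{3, 4}` -/
def BB : HH.Subgraph where
  verts := {1, 2, 3, 4}
  Adj a b := HH.Adj a b ∧ a ≠ 0 ∧ b ≠ 0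
  adj_sub h := h.1
  edge_vert {a b} h := by
    revert a b
    decide
  symm := ⟨by decide⟩

lemma AB_sup : AA ⊔ BB = ⊤ := by
  apply SimpleGraph.Subgraph.ext
  · ext a
    simp only [SimpleGraph.Subgraph.verts_sup, SimpleGraph.Subgraph.verts_top]
    show (a ∈ ({0, 1, 2} : Set (Fin 5)) ∪ {1, 2, 3, 4}) ↔ a ∈ Set.univ
    revert a
    decide
  · funext a b
    simp only [SimpleGraph.Subgraph.sup_adj, SimpleGraph.Subgraph.top_adj]
    show ((HH.Adj a b ∧ (a = 0 ∨ b = 0)) ∨ (HH.Adj a b ∧ a ≠ 0 ∧ b ≠ 0)) = HH.Adj a b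
    apply propext
    revert a b
    decide

lemma AB_disj : ∀ u v, AA.Adj u v → ¬ BB.Adj u v := by
  show ∀ u v, (HH.Adj u v ∧ (u = 0 ∨ v = 0)) → ¬ (HH.Adj u v ∧ u ≠ 0 ∧ v ≠ 0)
  decide

lemma AB_inter : (AA.verts ∩ BB.verts).ncard ≤ 2 := by
  have h : AA.verts ∩ BB.verts = {1, 2} := by
    show ({0, 1, 2} : Set (Fin 5)) ∩ {1, 2, 3, 4} = {1, 2}
    ext a
    revert a
    decide
  rw [h, Set.ncard_pair (by decide)]

lemma A0 : (0 : Fin 5) ∈ AA.verts := by
  show (0 : Fin 5) ∈ ({0, 1, 2} : Set (Fin 5))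
  decide

lemma A3 : (3 : Fin 5) ∉ AA.verts := by
  show (3 : Fin 5) ∉ ({0, 1, 2} : Set (Fin 5))
  decide

lemma B0 : (0 : Fin 5) ∉ BB.verts := by
  show (0 : Fin 5) ∉ ({1, 2, 3, 4} : Set (Fin 5))
  decide

lemma B3 : (3 : Fin 5) ∈ BB.verts := by
  show (3 : Fin 5) ∈ ({1, 2, 3, 4} : Set (Fin 5))
  decide

/-- Ordered pairs of distinct adjacent common neighbours of `a, b` inside `S`. -/
noncomputable def prs {n : ℕ} (G : SimpleGraph (Fin n)) (S : Finset (Fin n)) (a b : Fin n) :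
    Finset (Fin n × Fin n) := by
  classical
  exact (S ×ˢ S).filter (fun p => G.Adj a p.1 ∧ G.Adj a p.2 ∧ G.Adj b p.1 ∧ G.Adj b p.2 ∧
    G.Adj p.1 p.2)

lemma mem_prs {n : ℕ} {G : SimpleGraph (Fin n)} {S : Finset (Fin n)} {a b : Fin n}
    {p : Fin n × Fin n} : p ∈ prs G S a b ↔ (p.1 ∈ S ∧ p.2 ∈ S) ∧ (G.Adj a p.1 ∧ G.Adj a p.2 ∧
      G.Adj b p.1 ∧ G.Adj b p.2 ∧ G.Adj p.1 p.2) := by
  classical
  unfold prs
  rw [Finset.mem_filter, Finset.mem_product]

/-- `2`-degeneracy -/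
def Deg2 {n : ℕ} (G : SimpleGraph (Fin n)) : Prop :=
  ∀ S : Finset (Fin n), S.Nonempty → ∃ v ∈ S, {w : Fin n | w ∈ S ∧ G.Adj v w}.ncard ≤ 2

/-- neighbourhood inside `S` -/
noncomputable def nb {n : ℕ} (G : SimpleGraph (Fin n)) (S : Finset (Fin n)) (v : Fin n) :
    Finset (Fin n) := by
  classical
  exact S.filter (fun w => G.Adj v w)

lemma mem_nb {n : ℕ} {G : SimpleGraph (Fin n)} {S : Finset (Fin n)} {v w : Fin n} :
    w ∈ nb G S v ↔ w ∈ S ∧ G.Adj v w := by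
  classical
  unfold nb
  rw [Finset.mem_filter]

lemma Deg2.exists_nb {n : ℕ} {G : SimpleGraph (Fin n)} (h : Deg2 G) (S : Finset (Fin n))
    (hS : S.Nonempty) : ∃ v ∈ S, (nb G S v).card ≤ 2 := by
  obtain ⟨v, hv, hc⟩ := h S hS
  refine ⟨v, hv, ?_⟩
  have : {w : Fin n | w ∈ S ∧ G.Adj v w} = (nb G S v : Set (Fin n)) := by
    ext w
    simp [mem_nb]
  rw [this, Set.ncard_coe_finset] at hc
  exact hc

lemma offDiag_le {n : ℕ} (N : Finset (Fin n)) (h : N.card ≤ 2) : N.offDiag.card ≤ 2 := by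
  rw [Finset.offDiag_card]
  interval_cases N.card <;> omega

lemma three_nb {n : ℕ} {G : SimpleGraph (Fin n)} {S : Finset (Fin n)} {v a b c : Fin n}
    (h : (nb G S v).card ≤ 2) (ha : a ∈ S) (hb : b ∈ S) (hc : c ∈ S)
    (h1 : G.Adj v a) (h2 : G.Adj v b) (h3 : G.Adj v c) (hab : a ≠ b) (hac : a ≠ c)
    (hbc : b ≠ c) : False := by
  classical
  have hsub : ({a, b, c} : Finset (Fin n)) ⊆ nb G S v := by
    intro x hx
    simp only [Finset.mem_insert, Finset.mem_singleton] at hx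
    rw [mem_nb]
    rcases hx with rfl | rfl | rfl
    · exact ⟨ha, h1⟩
    · exact ⟨hb, h2⟩
    · exact ⟨hc, h3⟩
  have h4 := Finset.card_le_card hsub
  have h5 : ({a, b, c} : Finset (Fin n)).card = 3 := Finset.card_eq_three.2 ⟨a, b, c, hab, hac, hbc, rfl⟩
  omega

lemma prs_card {n : ℕ} {G : SimpleGraph (Fin n)} (h : Deg2 G) :
    ∀ (m : ℕ) (S : Finset (Fin n)), S.card = m → ∀ a b : Fin n, a ∈ S → b ∈ S → a ≠ b →
      (prs G S a b).card ≤ 2 := by
  classical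
  intro m
  induction m with
  | zero =>
    intro S hS a b ha
    rw [Finset.card_eq_zero] at hS
    simp [hS] at ha
  | succ m ih =>
    intro S hS a b ha hb hab
    obtain ⟨v, hv, hc⟩ := h.exists_nb S ⟨a, ha⟩
    by_cases hva : v = a
    · subst hva
      refine le_trans (Finset.card_le_card ?_) (offDiag_le _ hc)
      intro p hp
      rw [mem_prs] at hp
      rw [Finset.mem_offDiag]
      exact ⟨mem_nb.2 ⟨hp.1.1, hp.2.1⟩, mem_nb.2 ⟨hp.1.2, hp.2.2.1⟩, hp.2.2.2.2.2.ne⟩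
    by_cases hvb : v = b
    · subst hvb
      refine le_trans (Finset.card_le_card ?_) (offDiag_le _ hc)
      intro p hp
      rw [mem_prs] at hp
      rw [Finset.mem_offDiag]
      exact ⟨mem_nb.2 ⟨hp.1.1, hp.2.2.2.1⟩, mem_nb.2 ⟨hp.1.2, hp.2.2.2.2.1⟩, hp.2.2.2.2.2.ne⟩
    have hcard : (S.erase v).card = m := by
      rw [Finset.card_erase_of_mem hv]
      omega
    refine le_trans (Finset.card_le_card ?_) (ih (S.erase v) hcard a b
      (Finset.mem_erase.2 ⟨fun h => hva h.symm, ha⟩)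
      (Finset.mem_erase.2 ⟨fun h => hvb h.symm, hb⟩) hab)
    intro p hp
    rw [mem_prs] at hp ⊢
    obtain ⟨⟨h1, h2⟩, h3, h4, h5, h6, h7⟩ := hp
    refine ⟨⟨Finset.mem_erase.2 ⟨?_, h1⟩, Finset.mem_erase.2 ⟨?_, h2⟩⟩, h3, h4, h5, h6, h7⟩
    · intro h8
      rw [h8] at h3 h5 h7
      exact three_nb hc ha hb h2 h3.symm h5.symm h7 hab h4.ne h6.ne
    · intro h8
      rw [h8] at h4 h6 h7
      exact three_nb hc ha hb h1 h4.symm h6.symm h7.symm hab h3.ne h5.ne

/-- embeddings with image in `S` -/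
noncomputable def embs {n : ℕ} (G : SimpleGraph (Fin n)) (S : Finset (Fin n)) :
    Finset (Fin 5 ↪ Fin n) := by
  classical
  exact Finset.univ.filter (fun φ => (∀ u v, HH.Adj u v → G.Adj (φ u) (φ v)) ∧ ∀ u, φ u ∈ S)

lemma mem_embs {n : ℕ} {G : SimpleGraph (Fin n)} {S : Finset (Fin n)} {φ : Fin 5 ↪ Fin n} :
    φ ∈ embs G S ↔ (∀ u v, HH.Adj u v → G.Adj (φ u) (φ v)) ∧ ∀ u, φ u ∈ S := by
  classical
  unfold embs
  rw [Finset.mem_filter]
  simp

lemma embs_card {n : ℕ} {G : SimpleGraph (Fin n)} (h : Deg2 G) :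
    ∀ (m : ℕ) (S : Finset (Fin n)), S.card = m → (embs G S).card ≤ 4 * m := by
  classical
  intro m
  induction m with
  | zero =>
    intro S hS
    rw [Finset.card_eq_zero] at hS
    have : embs G S = ∅ := by
      rw [Finset.eq_empty_iff_forall_notMem]
      intro φ hφ
      rw [mem_embs] at hφ
      have := hφ.2 0
      simp [hS] at this
    simp [this]
  | succ m ih =>
    intro S hS
    have hne : S.Nonempty := by
      rw [← Finset.card_pos]
      omega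
    obtain ⟨v, hv, hc⟩ := h.exists_nb S hne
    have hcard : (S.erase v).card = m := by
      rw [Finset.card_erase_of_mem hv]
      omega
    have h1 := ih (S.erase v) hcard
    set T : Finset (Σ _ : Fin n × Fin n, Fin n × Fin n) :=
      (nb G S v).offDiag.sigma (fun q => prs G S q.1 q.2) with hT
    have hTc : T.card ≤ 4 := by
      rw [hT, Finset.card_sigma]
      calc ∑ q ∈ (nb G S v).offDiag, (prs G S q.1 q.2).card
          ≤ ∑ q ∈ (nb G S v).offDiag, 2 := by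
            apply Finset.sum_le_sum
            intro q hq
            rw [Finset.mem_offDiag] at hq
            exact prs_card h _ S rfl q.1 q.2 (mem_nb.1 hq.1).1 (mem_nb.1 hq.2.1).1 hq.2.2
        _ ≤ 4 := by
            rw [Finset.sum_const, smul_eq_mul]
            have := offDiag_le _ hc
            omega
    have h2 : ((embs G S) \ (embs G (S.erase v))).card ≤ T.card := by
      have hzero : ∀ φ ∈ (embs G S) \ (embs G (S.erase v)), φ 0 = v := by
        intro φ hφ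
        rw [Finset.mem_sdiff, mem_embs, mem_embs] at hφ
        obtain ⟨⟨hφ1, hφ2⟩, hφ3⟩ := hφ
        have hex : ∃ u, φ u = v := by
          by_contra hcon
          push Not at hcon
          exact hφ3 ⟨hφ1, fun u => Finset.mem_erase.2 ⟨hcon u, hφ2 u⟩⟩
        obtain ⟨u, hu⟩ := hex
        by_contra h0
        have hdeg : ∀ u : Fin 5, u ≠ 0 → ∃ a b c : Fin 5, HH.Adj u a ∧ HH.Adj u b ∧ HH.Adj u c ∧
            a ≠ b ∧ a ≠ c ∧ b ≠ c := by decide
        have hu0 : u ≠ 0 := by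
          rintro rfl
          exact h0 hu
        obtain ⟨a, b, c, ha, hb, hc', hab, hac, hbc⟩ := hdeg u hu0
        have e1 := hφ1 _ _ ha
        have e2 := hφ1 _ _ hb
        have e3 := hφ1 _ _ hc'
        rw [hu] at e1 e2 e3
        exact three_nb hc (hφ2 a) (hφ2 b) (hφ2 c) e1 e2 e3 (fun h => hab (φ.injective h))
          (fun h => hac (φ.injective h)) (fun h => hbc (φ.injective h))
      apply Finset.card_le_card_of_injOn (fun φ => ⟨(φ 1, φ 2), (φ 3, φ 4)⟩)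
      · intro φ hφ
        have h0 := hzero φ (Finset.mem_coe.1 hφ)
        rw [Finset.mem_coe, Finset.mem_sdiff, mem_embs] at hφ
        obtain ⟨⟨hφ1, hφ2⟩, -⟩ := hφ
        rw [Finset.mem_coe, hT, Finset.mem_sigma, Finset.mem_offDiag]
        refine ⟨⟨mem_nb.2 ⟨hφ2 1, ?_⟩, mem_nb.2 ⟨hφ2 2, ?_⟩, ?_⟩, ?_⟩
        · rw [← h0]; exact hφ1 _ _ (by decide)
        · rw [← h0]; exact hφ1 _ _ (by decide)
        · intro h'
          exact absurd (φ.injective h') (by decide)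
        · rw [mem_prs]
          exact ⟨⟨hφ2 3, hφ2 4⟩, hφ1 _ _ (by decide), hφ1 _ _ (by decide), hφ1 _ _ (by decide),
            hφ1 _ _ (by decide), hφ1 _ _ (by decide)⟩
      · intro φ hφ ψ hψ heq
        have h0 := hzero φ (Finset.mem_coe.1 hφ)
        have h0' := hzero ψ (Finset.mem_coe.1 hψ)
        simp only [Sigma.mk.injEq, Prod.mk.injEq, heq_eq_eq] at heq
        obtain ⟨⟨q1, q2⟩, q3, q4⟩ := heq
        ext u
        fin_cases u
        · show ((φ 0 : Fin n) : ℕ) = ψ 0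
          rw [h0, h0']
        · exact congrArg Fin.val q1
        · exact congrArg Fin.val q2
        · exact congrArg Fin.val q3
        · exact congrArg Fin.val q4
    have h3 : (embs G S).card ≤ (embs G (S.erase v)).card +
        ((embs G S) \ (embs G (S.erase v))).card := by
      rw [← Finset.card_union_of_disjoint Finset.disjoint_sdiff]
      apply Finset.card_le_card
      intro φ hφ
      rw [Finset.mem_union, Finset.mem_sdiff]
      by_cases hm : φ ∈ embs G (S.erase v)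
      · exact Or.inl hm
      · exact Or.inr ⟨hφ, hm⟩
    omega

lemma count_le {n : ℕ} {G : SimpleGraph (Fin n)} (h : Deg2 G) :
    {φ : Fin 5 ↪ Fin n | ∀ u v, HH.Adj u v → G.Adj (φ u) (φ v)}.ncard ≤ 4 * n := by
  have h1 := embs_card h n Finset.univ (by simp)
  have h2 : {φ : Fin 5 ↪ Fin n | ∀ u v, HH.Adj u v → G.Adj (φ u) (φ v)} =
      (embs G Finset.univ : Set (Fin 5 ↪ Fin n)) := by
    ext φ
    rw [Finset.mem_coe, mem_embs]
    simp
  rw [h2, Set.ncard_coe_finset]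
  exact h1

/-- The negation of the preceding statement: For every k and every nonempty k-degenerate graph H with flap number f (1 if H has no (≤k)-separation, else the max number of pairwise independent ones), the max number of copies of H in an n-vertex k-degenerate graph is Θ(n^f). -/
theorem result :
    ¬ (∀ (k : ℕ) (V : Type) [Fintype V] [Nonempty V] (H : SimpleGraph V),
    (∀ S : Finset V, S.Nonempty → ∃ v ∈ S, {w : V | w ∈ S ∧ H.Adj v w}.ncard ≤ k) →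
    ∀ f : ℕ,
      (((¬ ∃ A B : H.Subgraph, A ⊔ B = ⊤ ∧ (∀ u v, A.Adj u v → ¬ B.Adj u v) ∧
            (∃ v, v ∈ A.verts ∧ v ∉ B.verts) ∧ (∃ v, v ∈ B.verts ∧ v ∉ A.verts) ∧
            (A.verts ∩ B.verts).ncard ≤ k) ∧ f = 1) ∨
       ((∃ A B : H.Subgraph, A ⊔ B = ⊤ ∧ (∀ u v, A.Adj u v → ¬ B.Adj u v) ∧
            (∃ v, v ∈ A.verts ∧ v ∉ B.verts) ∧ (∃ v, v ∈ B.verts ∧ v ∉ A.verts) ∧
            (A.verts ∩ B.verts).ncard ≤ k) ∧
         IsGreatest {m : ℕ | ∃ A B : Fin m → H.Subgraph,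
            (∀ i, A i ⊔ B i = ⊤ ∧ (∀ u v, (A i).Adj u v → ¬ (B i).Adj u v) ∧
              (∃ v, v ∈ (A i).verts ∧ v ∉ (B i).verts) ∧
              (∃ v, v ∈ (B i).verts ∧ v ∉ (A i).verts) ∧
              ((A i).verts ∩ (B i).verts).ncard ≤ k) ∧
            ∀ i j, i ≠ j →
              (∀ u v, (A i).Adj u v → ¬ (A j).Adj u v) ∧
              ∀ v, v ∈ (A i).verts → v ∉ (B i).verts → ¬ (v ∈ (A j).verts ∧ v ∉ (B j).verts)} f)) →
      ∃ c₁ c₂ : ℝ, 0 < c₁ ∧ 0 < c₂ ∧ ∃ N : ℕ, ∀ n : ℕ, N ≤ n →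
        (∃ G : SimpleGraph (Fin n),
            (∀ S : Finset (Fin n), S.Nonempty → ∃ v ∈ S, {w : Fin n | w ∈ S ∧ G.Adj v w}.ncard ≤ k) ∧
            c₁ * (n : ℝ) ^ f ≤
              (({φ : V ↪ Fin n | ∀ u v, H.Adj u v → G.Adj (φ u) (φ v)}.ncard : ℕ) : ℝ)) ∧
        ∀ G : SimpleGraph (Fin n),
            (∀ S : Finset (Fin n), S.Nonempty → ∃ v ∈ S, {w : Fin n | w ∈ S ∧ G.Adj v w}.ncard ≤ k) →
            (({φ : V ↪ Fin n | ∀ u v, H.Adj u v → G.Adj (φ u) (φ v)}.ncard : ℕ) : ℝ) ≤ c₂ * (n : ℝ) ^ f) := by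
  intro H
  have hex : ∃ A B : HH.Subgraph, A ⊔ B = ⊤ ∧ (∀ u v, A.Adj u v → ¬ B.Adj u v) ∧
            (∃ v, v ∈ A.verts ∧ v ∉ B.verts) ∧ (∃ v, v ∈ B.verts ∧ v ∉ A.verts) ∧
            (A.verts ∩ B.verts).ncard ≤ 2 :=
    ⟨AA, BB, AB_sup, AB_disj, ⟨0, A0, B0⟩, ⟨3, B3, A3⟩, AB_inter⟩
  set M : Set ℕ := {m : ℕ | ∃ A B : Fin m → HH.Subgraph,
            (∀ i, A i ⊔ B i = ⊤ ∧ (∀ u v, (A i).Adj u v → ¬ (B i).Adj u v) ∧
              (∃ v, v ∈ (A i).verts ∧ v ∉ (B i).verts) ∧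
              (∃ v, v ∈ (B i).verts ∧ v ∉ (A i).verts) ∧
              ((A i).verts ∩ (B i).verts).ncard ≤ 2) ∧
            ∀ i j, i ≠ j →
              (∀ u v, (A i).Adj u v → ¬ (A j).Adj u v) ∧
              ∀ v, v ∈ (A i).verts → v ∉ (B i).verts → ¬ (v ∈ (A j).verts ∧ v ∉ (B j).verts)}
    with hM
  have h2 : 2 ∈ M := by
    refine ⟨![AA, BB], ![BB, AA], ?_, ?_⟩
    · intro i
      fin_cases i
      · exact ⟨AB_sup, AB_disj, ⟨0, A0, B0⟩, ⟨3, B3, A3⟩, AB_inter⟩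
      · refine ⟨by rw [← AB_sup]; exact sup_comm _ _, fun u v h h' => AB_disj u v h' h,
          ⟨3, B3, A3⟩, ⟨0, A0, B0⟩, ?_⟩
        have := AB_inter
        rw [Set.inter_comm] at this
        exact this
    · intro i j hij
      fin_cases i <;> fin_cases j
      · exact absurd rfl hij
      · exact ⟨AB_disj, fun v h1 h2 h3 => h3.2 h1⟩
      · exact ⟨fun u v h h' => AB_disj u v h' h, fun v h1 h2 h3 => h3.2 h1⟩
      · exact absurd rfl hij
  have hbdd : BddAbove M := by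
    refine ⟨5, ?_⟩
    rintro m ⟨A, B, h1, h3⟩
    choose g hg using fun i => (h1 i).2.2.1
    have hinj : Function.Injective g := by
      intro i j hij
      by_contra hne
      exact (h3 i j hne).2 (g i) (hg i).1 (hg i).2 (by rw [hij]; exact hg j)
    have := Fintype.card_le_of_injective g hinj
    simpa using this
  have hgr : IsGreatest M (sSup M) :=
    ⟨Nat.sSup_mem ⟨2, h2⟩ hbdd, fun m hm => le_csSup hbdd hm⟩
  have hf2 : 2 ≤ sSup M := le_csSup hbdd h2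
  obtain ⟨c₁, c₂, hc₁, hc₂, N, hN⟩ := H 2 (Fin 5) HH HH_degenerate (sSup M) (Or.inr ⟨hex, hgr⟩)
  obtain ⟨K, hK⟩ := exists_nat_gt (4 / c₁)
  set n := max N (max K 1) with hn
  obtain ⟨⟨G, hG, hlow⟩, -⟩ := hN n (le_max_left _ _)
  have h4 := count_le hG
  have h4' : (({φ : Fin 5 ↪ Fin n | ∀ u v, HH.Adj u v → G.Adj (φ u) (φ v)}.ncard : ℕ) : ℝ)
      ≤ 4 * n := by
    exact_mod_cast h4
  have hn1 : (1 : ℝ) ≤ n := by
    have : 1 ≤ n := le_trans (le_max_right _ _) (le_max_right _ _)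
    exact_mod_cast this
  have hnK : (K : ℝ) ≤ n := by
    have : K ≤ n := le_trans (le_max_left _ _) (le_max_right _ _)
    exact_mod_cast this
  have h5 : (n : ℝ) ^ 2 ≤ (n : ℝ) ^ (sSup M) := pow_le_pow_right₀ hn1 hf2
  have h6 : c₁ * (n : ℝ) ^ 2 ≤ 4 * n :=
    le_trans (mul_le_mul_of_nonneg_left h5 hc₁.le) (le_trans hlow h4')
  have h7 : c₁ * (n : ℝ) ≤ 4 := by
    have : (c₁ * n) * n ≤ 4 * (n : ℝ) := by nlinarith
    exact le_of_mul_le_mul_right this (by linarith)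
  have h8 : 4 / c₁ < n := lt_of_lt_of_le hK hnK
  rw [div_lt_iff₀ hc₁] at h8
  linarith

end Pool.Agent.S09798
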