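import Pool.Statements.S09825
import Pool.Agent.Q113.DegBonf

set_option autoImplicit false
open Classical
open Pool Pool.MP_837616_co

namespace Pool.Agent.S09825

open Q113.Deg

theorem choose_four (m : ℕ) :
    (((m + 4).choose 4 : ℕ) : ℝ) = ((m : ℝ) + 4) * (m + 3) * (m + 2) * (m + 1) / 24 := by
  have h := Nat.descFactorial_eq_factorial_mul_choose (m + 4) 4
  have h2 : (m + 4).descFactorial 4 = (m + 1) * ((m + 2) * ((m + 3) * (m + 4))) := by
    simp [Nat.descFactorial_succ]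
  rw [h2] at h
  have h3 : (Nat.factorial 4) = 24 := rfl
  rw [h3] at h
  have h4 : (((m + 1) * ((m + 2) * ((m + 3) * (m + 4))) : ℕ) : ℝ) =
      ((24 * (m + 4).choose 4 : ℕ) : ℝ) := by exact_mod_cast h
  push_cast at h4
  linarith

theorem poly_low (x : ℝ) (hx2 : x ≤ 3 / 2) :
    1 / 16 ≤ 1 - x + x ^ 2 / 2 - x ^ 3 / 6 := by
  have h : 1 - x + x ^ 2 / 2 - x ^ 3 / 6 - 1 / 16 =
      (3 / 2 - x) * (x ^ 2 / 6 - x / 4 + 5 / 8) := by ring
  have h2 : 0 ≤ x ^ 2 / 6 - x / 4 + 5 / 8 := by nlinarith [sq_nonneg (x - 3 / 4)]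
  have h3 := mul_nonneg (sub_nonneg.2 hx2) h2
  linarith

/-- the numerical facts -/
theorem nums (n : ℕ) (hn : 1000 ≤ n) :
    (((n - 1).choose 4 : ℕ) : ℝ) ≤ (1 + 20 / n) * (((n - 4).choose 4 : ℕ) : ℝ) ∧
    (((n - 2).choose 4 : ℕ) : ℝ) ≤ (1 + 30 / n) * (((n - 6).choose 4 : ℕ) : ℝ) ∧
    (n : ℝ) ^ 4 ≤ 48 * (((n - 5).choose 4 : ℕ) : ℝ) ∧
    (n : ℝ) ^ 4 * 5 ≤ 128 * (((n - 2).choose 4 : ℕ) : ℝ) ∧
    1 ≤ (n - 6).choose 4 ∧ 1 ≤ (n - 5).choose 4 ∧ 1 ≤ (n - 4).choose 4 := by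
  obtain ⟨m, rfl⟩ : ∃ m, n = m + 10 := ⟨n - 10, by omega⟩
  have h1 : m + 10 - 1 = (m + 5) + 4 := by omega
  have h2 : m + 10 - 2 = (m + 4) + 4 := by omega
  have h4 : m + 10 - 4 = (m + 2) + 4 := by omega
  have h5 : m + 10 - 5 = (m + 1) + 4 := by omega
  have h6 : m + 10 - 6 = m + 4 := by omega
  have hm : (990 : ℝ) ≤ m := by
    have : 990 ≤ m := by omega
    exact_mod_cast this
  rw [h1, h2, h4, h5, h6]
  rw [choose_four, choose_four, choose_four, choose_four, choose_four]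
  push_cast
  have hm0 : (0 : ℝ) < m := by linarith
  obtain ⟨x, hx⟩ : ∃ x : ℝ, (m : ℝ) = x + 990 := ⟨m - 990, by ring⟩
  have hx0 : 0 ≤ x := by linarith
  refine ⟨?_, ?_, ?_, ?_, Nat.choose_pos (by omega), Nat.choose_pos (by omega),
    Nat.choose_pos (by omega)⟩
  · have hp : (0 : ℝ) < (m : ℝ) + 10 := by linarith
    rw [← sub_nonneg]
    have e : (1 + 20 / ((m : ℝ) + 10)) * (((m : ℝ) + 2 + 4) * (m + 2 + 3) * (m + 2 + 2) *
        (m + 2 + 1) / 24) - ((m : ℝ) + 5 + 4) * (m + 5 + 3) * (m + 5 + 2) * (m + 5 + 1) / 24 =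
        (m + 6) * ((m + 30) * (((m : ℝ) + 5) * (m + 4) * (m + 3)) -
          (m + 10) * (((m : ℝ) + 9) * (m + 8) * (m + 7))) / (24 * (m + 10)) := by
      field_simp
      ring
    rw [e]
    apply div_nonneg _ (by positivity)
    apply mul_nonneg (by linarith)
    have : (m + 30) * (((m : ℝ) + 5) * (m + 4) * (m + 3)) -
          (m + 10) * (((m : ℝ) + 9) * (m + 8) * (m + 7)) =
        8 * (m : ℝ) ^ 3 - 24 * m ^ 2 - 944 * m - 3240 := by ring
    rw [this, hx]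
    ring_nf
    positivity
  · have hp : (0 : ℝ) < (m : ℝ) + 10 := by linarith
    rw [← sub_nonneg]
    have e : (1 + 30 / ((m : ℝ) + 10)) * (((m : ℝ) + 4) * (m + 3) * (m + 2) *
        (m + 1) / 24) - ((m : ℝ) + 4 + 4) * (m + 4 + 3) * (m + 4 + 2) * (m + 4 + 1) / 24 =
        ((m + 40) * (((m : ℝ) + 4) * (m + 3) * (m + 2) * (m + 1)) -
          (m + 10) * (((m : ℝ) + 8) * (m + 7) * (m + 6) * (m + 5))) / (24 * (m + 10)) := by
      field_simp
      ring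
    rw [e]
    apply div_nonneg _ (by positivity)
    rw [hx]
    ring_nf
    positivity
  · rw [← sub_nonneg, hx]
    ring_nf
    positivity
  · rw [← sub_nonneg, hx]
    ring_nf
    positivity

theorem pc_two : pc 2 = 3 / 8 := by
  have h := pc_succ 1
  rw [pc_one] at h
  norm_num at h
  linarith

theorem aux1 (x : ℝ) (hx : 0 ≤ x) (hx2 : x ≤ 1 / 100000000) :
    2700 * x + 27000 * x ^ 2 ≤ 110 := by nlinarith

theorem aux2 (l : ℝ) (h0 : 0 ≤ l) (h1 : l ≤ 3 / 2) : l ^ 2 ≤ 9 / 4 := by nlinarith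

/-- final estimate -/
theorem final (n : ℕ) (hn : 100000000 ≤ n) :
    (1 / 20 : ℝ) ≤ (((Pk n 5).powerset.filter
      (fun H => Function.Injective (fun v : Fin n => dg H v))).card : ℝ) / 2 ^ (Pk n 5).card := by
  obtain ⟨c1, c2, c3, c4, c5, c6, c7⟩ := nums n (by omega)
  have hn' : (100000000 : ℝ) ≤ n := by exact_mod_cast hn
  have hn0 : (0 : ℝ) < n := by linarith
  have hN6 : (1 : ℝ) ≤ (((n - 6).choose 4 : ℕ) : ℝ) := by exact_mod_cast c5
  have hN5 : (1 : ℝ) ≤ (((n - 5).choose 4 : ℕ) : ℝ) := by exact_mod_cast c6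
  have hN4 : (1 : ℝ) ≤ (((n - 4).choose 4 : ℕ) : ℝ) := by exact_mod_cast c7
  have hx : (20 : ℝ) / n ≤ 1 / 1000 := by
    rw [div_le_iff₀ hn0]; linarith
  have hratio : (((n - 1).choose 4 : ℕ) : ℝ) / (((n - 4).choose 4 : ℕ) : ℝ) ≤ 1 + 20 / n := by
    rw [div_le_iff₀ (by linarith)]; exact c1
  have hb := bonferroni (n := n) 5 (by norm_num) c7 c6 (by
    simp only [Nat.add_one_sub_one]
    linarith)
  simp only [Nat.add_one_sub_one] at hb
  refine le_trans ?_ hb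
  -- abbreviations
  have hle46 : (n - 6).choose 4 ≤ (n - 2).choose 4 := Nat.choose_le_choose _ (by omega)
  have hle42 : (n - 4).choose 4 ≤ (n - 2).choose 4 := Nat.choose_le_choose _ (by omega)
  have hmono := pc_mono hle46
  have hanti := pc_anti hle42
  have hanti2 : pc ((n - 2).choose 4) ^ 2 * (2 * (((n - 2).choose 4 : ℕ) : ℝ) + 1) ≤ 45 / 64 := by
    have h2 : 2 ≤ (n - 2).choose 4 := by
      have : (2 : ℝ) ≤ (((n - 2).choose 4 : ℕ) : ℝ) := by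
        have : (10 : ℝ) ^ 4 ≤ (n : ℝ) ^ 4 := pow_le_pow_left₀ (by norm_num) (by linarith) 4
        linarith
      exact_mod_cast this
    have := pc_anti h2
    rw [pc_two] at this
    norm_num at this
    linarith
  have hM4 : (((n - 4).choose 4 : ℕ) : ℝ) ≤ (((n - 2).choose 4 : ℕ) : ℝ) := by exact_mod_cast hle42
  have hI := inc_card (n := n)
  have hB1 : B1 n 5 ≤ 7 / (n : ℝ) ^ 2 := by
    unfold B1
    simp only [Nat.add_one_sub_one]
    rw [div_le_div_iff₀ (Real.sqrt_pos.2 (by linarith)) (by positivity), one_mul]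
    have h7 : (0 : ℝ) ≤ 7 * Real.sqrt (((n - 5).choose 4 : ℕ) : ℝ) := by positivity
    refine abs_le_of_sq_le_sq' ?_ h7 |>.2
    have e4 : ((n : ℝ) ^ 2) ^ 2 = (n : ℝ) ^ 4 := by ring
    rw [mul_pow, Real.sq_sqrt (by linarith), e4]
    linarith
  have hB10 := B1_nonneg n 5
  have hp2 := pc_pos ((n - 2).choose 4)
  have hp4 := pc_pos ((n - 4).choose 4)
  have hp6 := pc_pos ((n - 6).choose 4)
  generalize (((n - 1).choose 4 : ℕ) : ℝ) / (((n - 4).choose 4 : ℕ) : ℝ) = ρ at *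
  generalize B1 n 5 = b at *
  generalize pc ((n - 2).choose 4) = p2 at *
  generalize pc ((n - 4).choose 4) = p4 at *
  generalize pc ((n - 6).choose 4) = p6 at *
  generalize (((n - 2).choose 4 : ℕ) : ℝ) = M at *
  generalize (((n - 4).choose 4 : ℕ) : ℝ) = N4 at *
  generalize (((n - 6).choose 4 : ℕ) : ℝ) = N6 at *
  generalize hIn : ((Inc n).card : ℝ) = I at *
  have hI0 : 0 ≤ I := by rw [← hIn]; exact Nat.cast_nonneg _
  clear hb c1 c5 c6 c7 hle46 hle42 hN5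
  set x : ℝ := 1 / n with hxdef
  have hx0 : 0 < x := by positivity
  have hxs : x ≤ 1 / 100000000 := by
    rw [hxdef]; exact one_div_le_one_div_of_le (by norm_num) hn'
  have hnx : (n : ℝ) * x = 1 := by rw [hxdef]; field_simp
  have e20 : (20 : ℝ) / n = 20 * x := by rw [hxdef]; ring
  have e30 : (30 : ℝ) / n = 30 * x := by rw [hxdef]; ring
  rw [e20] at hratio
  rw [e30] at c2
  have hMpos : 0 < M := by linarith
  -- p4 ≥ p2
  have k1 : p2 ^ 2 ≤ p4 ^ 2 := by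
    have h1 : p2 ^ 2 * (2 * N4 + 1) ≤ p2 ^ 2 * (2 * M + 1) := by
      apply mul_le_mul_of_nonneg_left _ (by positivity); linarith
    have h2 : p2 ^ 2 * (2 * N4 + 1) ≤ p4 ^ 2 * (2 * N4 + 1) := h1.trans hanti
    exact le_of_mul_le_mul_right h2 (by linarith)
  -- p6 ≤ (1 + 30 x) p2
  have k2 : p6 ≤ (1 + 30 * x) * p2 := by
    have h1 : p6 ^ 2 * N6 ≤ (1 + 30 * x) * p2 ^ 2 * N6 := by
      have : p2 ^ 2 * M ≤ p2 ^ 2 * ((1 + 30 * x) * N6) :=
        mul_le_mul_of_nonneg_left c2 (by positivity)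
      linarith
    have h2 : p6 ^ 2 ≤ (1 + 30 * x) * p2 ^ 2 := le_of_mul_le_mul_right h1 (by linarith)
    have h3 : p6 ^ 2 ≤ ((1 + 30 * x) * p2) ^ 2 := by
      have h4 : (1 + 30 * x) * p2 ^ 2 ≤ ((1 + 30 * x) * p2) ^ 2 := by
        have h5 : ((1 + 30 * x) * p2) ^ 2 - (1 + 30 * x) * p2 ^ 2 =
          (1 + 30 * x) * (30 * x) * p2 ^ 2 := by ring
        have h6 : 0 ≤ (1 + 30 * x) * (30 * x) * p2 ^ 2 := by positivity
        linarith
      exact h2.trans h4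
    exact le_of_sq_le_sq h3 (by positivity)
  -- the mean
  set l := I * p2 with hl
  have hl0 : 0 ≤ l := by positivity
  have hl32 : l ≤ 3 / 2 := by
    have h1 : p2 ^ 2 * M ≤ 45 / 128 := by nlinarith [sq_nonneg p2]
    have h2 : I ≤ (n : ℝ) ^ 2 / 2 := by nlinarith
    have h3 : I ^ 2 ≤ (n : ℝ) ^ 4 / 4 := by
      have := pow_le_pow_left₀ hI0 h2 2
      have e : ((n : ℝ) ^ 2 / 2) ^ 2 = (n : ℝ) ^ 4 / 4 := by ring
      linarith
    have h4 : l ^ 2 ≤ (3 / 2) ^ 2 := by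
      have e : l ^ 2 = I ^ 2 * p2 ^ 2 := by rw [hl]; ring
      rw [e]
      have h5 : I ^ 2 ≤ 32 / 5 * M := by linarith
      have h6 : I ^ 2 * p2 ^ 2 ≤ 32 / 5 * M * p2 ^ 2 :=
        mul_le_mul_of_nonneg_right h5 (by positivity)
      linarith
    exact le_of_sq_le_sq h4 (by norm_num)
  -- second term
  have s2 : l ^ 2 * (1 - 40 * x) ≤ (I ^ 2 - 4 * (n : ℝ) ^ 3) * (p4 ^ 2 * (2 - ρ)) := by
    have h1 : (1 - 20 * x) * I ^ 2 ≤ I ^ 2 - 4 * (n : ℝ) ^ 3 := by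
      have h2 : (4 * (n : ℝ) ^ 3) ≤ 20 * x * I ^ 2 := by
        have h3 : 4 * I ^ 2 = ((n : ℝ) * (n - 1)) ^ 2 := by rw [← hI]; ring
        have h4 : (n : ℝ) ^ 4 * 4 ≤ 5 * ((n : ℝ) * (n - 1)) ^ 2 := by
          have h5 : 4 * (n : ℝ) ^ 2 ≤ 5 * ((n : ℝ) - 1) ^ 2 := by nlinarith
          have h6 := mul_le_mul_of_nonneg_left h5 (show (0 : ℝ) ≤ (n : ℝ) ^ 2 by positivity)
          linarith
        have h7 : (n : ℝ) ^ 4 ≤ 5 * I ^ 2 := by linarith
        have h8 : x * (n : ℝ) ^ 4 ≤ x * (5 * I ^ 2) := mul_le_mul_of_nonneg_left h7 hx0.le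
        have h9 : x * (n : ℝ) ^ 4 = (n : ℝ) ^ 3 := by
          calc x * (n : ℝ) ^ 4 = ((n : ℝ) * x) * (n : ℝ) ^ 3 := by ring
            _ = _ := by rw [hnx, one_mul]
        linarith
      linarith
    have h2 : (1 - 20 * x) * p2 ^ 2 ≤ p4 ^ 2 * (2 - ρ) := by
      have h3 : p2 ^ 2 * (1 - 20 * x) ≤ p4 ^ 2 * (1 - 20 * x) :=
        mul_le_mul_of_nonneg_right k1 (by linarith)
      have h4 : p4 ^ 2 * (1 - 20 * x) ≤ p4 ^ 2 * (2 - ρ) :=
        mul_le_mul_of_nonneg_left (by linarith) (by positivity)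
      linarith
    have h3 : ((1 - 20 * x) * I ^ 2) * ((1 - 20 * x) * p2 ^ 2) ≤
        (I ^ 2 - 4 * (n : ℝ) ^ 3) * (p4 ^ 2 * (2 - ρ)) := by
      apply mul_le_mul h1 h2
      · apply mul_nonneg (by linarith) (by positivity)
      · refine le_trans ?_ h1
        apply mul_nonneg (by linarith) (by positivity)
    refine le_trans ?_ h3
    have e : ((1 - 20 * x) * I ^ 2) * ((1 - 20 * x) * p2 ^ 2) = l ^ 2 * (1 - 20 * x) ^ 2 := by
      rw [hl]; ring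
    rw [e]
    apply mul_le_mul_of_nonneg_left _ (by positivity)
    have e2 : (1 - 20 * x) ^ 2 = 1 - 40 * x + 400 * x ^ 2 := by ring
    rw [e2]
    have e3 : 0 ≤ 400 * x ^ 2 := by positivity
    linarith
  -- third term
  have s3 : I ^ 3 * p6 ^ 3 ≤ l ^ 3 * (1 + 200 * x) := by
    have h1 : p6 ^ 3 ≤ ((1 + 30 * x) * p2) ^ 3 := pow_le_pow_left₀ hp6.le k2 3
    have h2 : I ^ 3 * p6 ^ 3 ≤ I ^ 3 * ((1 + 30 * x) * p2) ^ 3 :=
      mul_le_mul_of_nonneg_left h1 (by positivity)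
    refine h2.trans ?_
    have e : I ^ 3 * ((1 + 30 * x) * p2) ^ 3 = l ^ 3 * (1 + 30 * x) ^ 3 := by rw [hl]; ring
    rw [e]
    apply mul_le_mul_of_nonneg_left _ (by positivity)
    have e2 : (1 + 30 * x) ^ 3 = 1 + 90 * x + x * (2700 * x + 27000 * x ^ 2) := by ring
    rw [e2]
    have h3 : 2700 * x + 27000 * x ^ 2 ≤ 110 := aux1 x hx0.le hxs
    have h4 := mul_le_mul_of_nonneg_left h3 hx0.le
    linarith
  have s4 : 5 ^ 6 * (n : ℝ) ^ 5 * b ^ 3 ≤ 5400000 * x := by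
    have h1 : b ^ 3 ≤ (7 / (n : ℝ) ^ 2) ^ 3 := pow_le_pow_left₀ hB10 hB1 3
    have h2 : 5 ^ 6 * (n : ℝ) ^ 5 * b ^ 3 ≤ 5 ^ 6 * (n : ℝ) ^ 5 * (7 / (n : ℝ) ^ 2) ^ 3 :=
      mul_le_mul_of_nonneg_left h1 (by positivity)
    refine h2.trans ?_
    have e : 5 ^ 6 * (n : ℝ) ^ 5 * (7 / (n : ℝ) ^ 2) ^ 3 = 5359375 * x := by
      rw [hxdef]; field_simp; norm_num
    rw [e]
    linarith
  have s5 : 3 ^ 6 * (n : ℝ) ^ 3 * b ^ 2 ≤ 40000 * x := by
    have h1 : b ^ 2 ≤ (7 / (n : ℝ) ^ 2) ^ 2 := pow_le_pow_left₀ hB10 hB1 2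
    have h2 : 3 ^ 6 * (n : ℝ) ^ 3 * b ^ 2 ≤ 3 ^ 6 * (n : ℝ) ^ 3 * (7 / (n : ℝ) ^ 2) ^ 2 :=
      mul_le_mul_of_nonneg_left h1 (by positivity)
    refine h2.trans ?_
    have e : 3 ^ 6 * (n : ℝ) ^ 3 * (7 / (n : ℝ) ^ 2) ^ 2 = 35721 * x := by
      rw [hxdef]; field_simp; norm_num
    rw [e]
    linarith
  have hpoly := poly_low l hl32
  have hl2 : l ^ 2 ≤ 9 / 4 := aux2 l hl0 hl32
  have hl3 : l ^ 3 ≤ 27 / 8 := by
    have := pow_le_pow_left₀ hl0 hl32 3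
    norm_num at this ⊢
    linarith
  have t1 : l ^ 2 * x ≤ 9 / 4 * x := mul_le_mul_of_nonneg_right hl2 hx0.le
  have t2 : l ^ 3 * x ≤ 27 / 8 * x := mul_le_mul_of_nonneg_right hl3 hx0.le
  clear_value l x
  linarith

/-- There is c > 0 such that for all large n, at least a c fraction of the 5-uniform hypergraphs on n labeled vertices have pairwise distinct vertex degrees. -/
theorem result :
    ∃ c : ℝ, 0 < c ∧ ∃ N : ℕ, ∀ n : ℕ, N ≤ n →
      c ≤ ((((Finset.univ : Finset (Fin n)).powersetCard 5).powerset.filter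
              (fun H => Function.Injective
                (fun v : Fin n => (H.filter (fun e => v ∈ e)).card))).card : ℝ)
            / (2 : ℝ) ^ (n.choose 5) := by
  refine ⟨1 / 20, by norm_num, 100000000, fun n hn => ?_⟩
  have h := final n hn
  have hc : (Pk n 5).card = n.choose 5 := by
    unfold Pk
    rw [Finset.card_powersetCard, Finset.card_univ, Fintype.card_fin]
  rw [hc] at h
  refine h.trans (le_of_eq ?_)
  congr 3

end Pool.Agent.S09825
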