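import Pool.Statements.S09874

/-!
Maximally repeated patterns of a finite set of reals: their number is not linear in the size of
the set.  The set `{0, 1, 2, 3, 5}` has six closed patterns up to translation.  Closed patterns
multiply when one takes the sum of `k` copies of this set dilated by rationally independent
numbers, so that one obtains `5 ^ k` numbers with at least `6 ^ k - 1` maximally repeated patterns.
-/

set_option autoImplicit false
open Pool Pool.MP_85fffe_co

namespace Pool.Agent.S09874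

/-- The basic set. -/
def X0 : Finset ℤ := {0, 1, 2, 3, 5}

/-- The six closed patterns of `X0`. -/
def P : Fin 6 → Finset ℤ := ![X0, {0}, {0, 1}, {0, 2}, {0, 1, 2}, {0, 1, 3}]

lemma P0 : P 0 = X0 := rfl

lemma P_sub (j : Fin 6) : P j ⊆ X0 := by
  revert j; decide

lemma P_zero (j : Fin 6) : (0 : ℤ) ∈ P j := by
  revert j; decide

lemma P_closed_aux : ∀ j : Fin 6, ∀ x ∈ X0,
    (∀ t ∈ X0, (∀ a ∈ P j, a + t ∈ X0) → x + t ∈ X0) → x ∈ P j := by
  decide

lemma P_rep_aux : ∀ j : Fin 6, j ≠ 0 → ∃ t ∈ X0, t ≠ 0 ∧ ∀ a ∈ P j, a + t ∈ X0 := by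
  decide

lemma P_trans_aux : ∀ i j : Fin 6, ∀ t ∈ X0, (∀ a ∈ P i, a + t ∈ P j) →
    (∀ b ∈ P j, b - t ∈ P i) → i = j := by
  decide

lemma exists_emb (k : ℕ) : ∃ φ : (Fin k → ℤ) →+ ℝ, Function.Injective φ := by
  obtain ⟨f, hf⟩ := exists_linearIndependent_of_le_rank (R := ℚ) (M := ℝ) (n := k) (by
    rw [Real.rank_rat_real]
    exact (Cardinal.natCast_lt_aleph0.le.trans Cardinal.aleph0_le_continuum))
  refine ⟨{ toFun := fun z => ∑ i, (z i : ℝ) * f i, map_zero' := by simp, map_add' := ?_ }, ?_⟩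
  · intro x y
    simp [add_mul, Finset.sum_add_distrib]
  · intro x y hxy
    simp only [AddMonoidHom.coe_mk, ZeroHom.coe_mk] at hxy
    rw [Fintype.linearIndependent_iff] at hf
    have h := hf (fun i => ((x i - y i : ℤ) : ℚ)) (by
      have : ∑ i, ((x i - y i : ℤ) : ℚ) • f i = ∑ i, (x i : ℝ) * f i - ∑ i, (y i : ℝ) * f i := by
        rw [← Finset.sum_sub_distrib]
        refine Finset.sum_congr rfl fun i _ => ?_
        rw [Rat.smul_def]
        push_cast
        ring
      rw [this, hxy, sub_self])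
    funext i
    have := h i
    have h2 : x i - y i = 0 := by exact_mod_cast this
    omega

section
variable {k : ℕ} (φ : (Fin k → ℤ) →+ ℝ) (hφ : Function.Injective φ)

/-- the integer pattern in the product -/
def Q (v : Fin k → Fin 6) : Finset (Fin k → ℤ) := Fintype.piFinset fun i => P (v i)

lemma mem_Q {v : Fin k → Fin 6} {x : Fin k → ℤ} : x ∈ Q v ↔ ∀ i, x i ∈ P (v i) := by
  simp [Q]

/-- the real pattern -/
noncomputable def A (v : Fin k → Fin 6) : Finset ℝ := (Q v).image φ

lemma mem_A {v : Fin k → Fin 6} {r : ℝ} : r ∈ A φ v ↔ ∃ x, (∀ i, x i ∈ P (v i)) ∧ φ x = r := by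
  simp [A, mem_Q]

lemma zero_mem_Q (v : Fin k → Fin 6) : (0 : Fin k → ℤ) ∈ Q v := by
  rw [mem_Q]; intro i; exact P_zero _

include hφ

lemma mem_A' {v : Fin k → Fin 6} {x : Fin k → ℤ} : φ x ∈ A φ v ↔ ∀ i, x i ∈ P (v i) := by
  rw [mem_A]
  constructor
  · rintro ⟨y, hy, h⟩
    rw [← hφ h]; exact hy
  · intro h; exact ⟨x, h, rfl⟩

/-- translates of patterns inside patterns come from integer shifts, coordinatewise -/
lemma shift {v w : Fin k → Fin 6} {t : ℝ} (h : (A φ v).image (· + t) ⊆ A φ w) :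
    ∃ s : Fin k → ℤ, t = φ s ∧ ∀ i, ∀ a ∈ P (v i), a + s i ∈ P (w i) := by
  classical
  have h0 : (0 : ℝ) + t ∈ A φ w := by
    apply h
    rw [Finset.mem_image]
    exact ⟨0, by rw [mem_A]; exact ⟨0, fun i => P_zero _, map_zero φ⟩, rfl⟩
  rw [zero_add, mem_A] at h0
  obtain ⟨s, hs, hst⟩ := h0
  refine ⟨s, hst.symm, fun i a ha => ?_⟩
  have h1 : φ (Function.update 0 i a) + t ∈ A φ w := by
    apply h
    rw [Finset.mem_image]
    refine ⟨φ (Function.update 0 i a), ?_, rfl⟩
    rw [mem_A' φ hφ]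
    intro j
    by_cases hj : j = i
    · subst hj; simpa using ha
    · simpa [hj] using P_zero (v j)
  rw [← hst, ← map_add, mem_A' φ hφ] at h1
  simpa using h1 i

lemma shift_conv {v w : Fin k → Fin 6} {s : Fin k → ℤ}
    (h : ∀ i, ∀ a ∈ P (v i), a + s i ∈ P (w i)) : (A φ v).image (· + φ s) ⊆ A φ w := by
  intro r hr
  rw [Finset.mem_image] at hr
  obtain ⟨q, hq, rfl⟩ := hr
  rw [mem_A] at hq
  obtain ⟨x, hx, rfl⟩ := hq
  rw [← map_add, mem_A' φ hφ]
  intro i
  exact h i _ (hx i)

end

theorem main (k : ℕ) : ∃ X : Finset ℝ, ∃ S : Finset (Finset ℝ), X.card = 5 ^ k ∧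
    S.card + 1 = 6 ^ k ∧
      (∀ A ∈ S,
        A.Nonempty ∧ A ⊆ X ∧
        (∃ t : ℝ, t ≠ 0 ∧ A.image (· + t) ⊆ X) ∧
        (∀ B : Finset ℝ, A ⊂ B →
          ¬ (∀ t : ℝ, A.image (· + t) ⊆ X → B.image (· + t) ⊆ X))) ∧
      (∀ A ∈ S, ∀ B ∈ S, ∀ t : ℝ, B = A.image (· + t) → A = B) := by
  classical
  obtain ⟨φ, hφ⟩ := exists_emb k
  have key : ∀ v w : Fin k → Fin 6, ∀ t : ℝ, A φ w = (A φ v).image (· + t) → v = w := by
    intro v w t h
    obtain ⟨s, rfl, hs⟩ := shift φ hφ (t := t) (v := v) (w := w) (by rw [h])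
    have h2 : (A φ w).image (· + φ (-s)) ⊆ A φ v := by
      rw [h, Finset.image_image]
      intro r hr
      rw [Finset.mem_image] at hr
      obtain ⟨q, hq, rfl⟩ := hr
      simpa [map_neg] using hq
    obtain ⟨s', hs', hs2⟩ := shift φ hφ h2
    have := hφ hs'
    subst this
    funext i
    refine P_trans_aux _ _ (s i) ?_ (hs i) ?_
    · have := hs i 0 (P_zero _)
      rw [zero_add] at this
      exact P_sub _ this
    · intro b hb
      have := hs2 i b hb
      simpa [sub_eq_add_neg] using this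
  have hinj : Function.Injective (A φ) := by
    intro v w h
    exact key v w 0 (by rw [← h]; simp)
  refine ⟨A φ (fun _ => 0), (Finset.univ.erase (fun _ => (0 : Fin 6))).image (A φ), ?_, ?_, ?_, ?_⟩
  · rw [A, Finset.card_image_of_injective _ hφ, Q, Fintype.card_piFinset]
    have : (P 0).card = 5 := by decide
    simp [this]
  · rw [Finset.card_image_of_injective _ hinj, Finset.card_erase_of_mem (Finset.mem_univ _)]
    simp only [Finset.card_univ, Fintype.card_fun, Fintype.card_fin]
    have : 0 < 6 ^ k := by positivity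
    omega
  · intro B hB
    rw [Finset.mem_image] at hB
    obtain ⟨v, hv, rfl⟩ := hB
    have hv0 : v ≠ fun _ => 0 := (Finset.mem_erase.1 hv).1
    refine ⟨⟨0, ?_⟩, ?_, ?_, ?_⟩
    · rw [mem_A]; exact ⟨0, fun i => P_zero _, map_zero φ⟩
    · intro r hr
      rw [mem_A] at hr ⊢
      obtain ⟨x, hx, rfl⟩ := hr
      exact ⟨x, fun i => P_sub _ (hx i), rfl⟩
    · obtain ⟨i, hi⟩ : ∃ i, v i ≠ 0 := by
        by_contra hcon
        push Not at hcon
        exact hv0 (funext hcon)
      obtain ⟨t, -, ht0, ht⟩ := P_rep_aux (v i) hi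
      refine ⟨φ (Function.update 0 i t), ?_, ?_⟩
      · intro h
        have h1 := hφ (h.trans (map_zero φ).symm)
        have := congrFun h1 i
        simp at this
        exact ht0 this
      · apply shift_conv φ hφ
        intro j a ha
        by_cases hj : j = i
        · subst hj; simpa [P0] using ht a ha
        · simpa [hj, P0] using P_sub _ ha
    · intro B hAB hcon
      obtain ⟨hsub, hne⟩ := Finset.ssubset_iff_subset_ne.1 hAB
      apply hne
      apply Finset.Subset.antisymm hsub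
      intro b hb
      have hb0 : b ∈ A φ (fun _ => 0) := by
        have := hcon 0 (by
          intro r hr
          simp only [add_zero, Finset.image_id'] at hr
          rw [mem_A] at hr ⊢
          obtain ⟨x, hx, rfl⟩ := hr
          exact ⟨x, fun i => P_sub _ (hx i), rfl⟩)
        apply this
        rw [Finset.mem_image]
        exact ⟨b, hb, add_zero b⟩
      rw [mem_A] at hb0
      obtain ⟨x, hx, rfl⟩ := hb0
      rw [mem_A' φ hφ]
      intro i
      refine P_closed_aux (v i) (x i) (hx i) ?_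
      intro t _ ht
      have h1 := hcon (φ (Function.update 0 i t)) (by
        apply shift_conv φ hφ
        intro j a ha
        by_cases hj : j = i
        · subst hj; simpa [P0] using ht a ha
        · simpa [hj, P0] using P_sub _ ha)
      have h2 : φ x + φ (Function.update 0 i t) ∈ A φ (fun _ => 0) := by
        apply h1
        rw [Finset.mem_image]
        exact ⟨φ x, hb, rfl⟩
      rw [← map_add, mem_A' φ hφ] at h2
      simpa [P0] using h2 i
  · intro B hB C hC t h
    rw [Finset.mem_image] at hB hC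
    obtain ⟨v, -, rfl⟩ := hB
    obtain ⟨w, -, rfl⟩ := hC
    rw [key v w t h]

/-- The negation of the preceding statement: There is a constant C such that for every finite set X of n reals, any family of maximally repeated patterns of X, no two of which are translates of each other, has at most C·n members. -/
theorem result :
    ¬ (∃ C : ℕ, ∀ X : Finset ℝ, ∀ S : Finset (Finset ℝ),
      (∀ A ∈ S,
        A.Nonempty ∧ A ⊆ X ∧
        (∃ t : ℝ, t ≠ 0 ∧ A.image (· + t) ⊆ X) ∧
        (∀ B : Finset ℝ, A ⊂ B →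
          ¬ (∀ t : ℝ, A.image (· + t) ⊆ X → B.image (· + t) ⊆ X))) →
      (∀ A ∈ S, ∀ B ∈ S, ∀ t : ℝ, B = A.image (· + t) → A = B) →
      S.card ≤ C * X.card) := by
  rintro ⟨C, hC⟩
  obtain ⟨k, hk⟩ : ∃ k : ℕ, ((C : ℝ) + 1) < (6 / 5 : ℝ) ^ k :=
    pow_unbounded_of_one_lt _ (by norm_num)
  obtain ⟨X, S, hX, hS, h1, h2⟩ := main k
  have h3 := hC X S h1 h2
  rw [hX] at h3
  have h4 : 6 ^ k ≤ C * 5 ^ k + 1 := by omega
  have h5 : ((6 : ℝ)) ^ k ≤ C * 5 ^ k + 1 := by exact_mod_cast h4
  rw [div_pow, lt_div_iff₀ (by positivity)] at hk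
  have h6 : (1 : ℝ) ≤ 5 ^ k := one_le_pow₀ (by norm_num)
  nlinarith

end Pool.Agent.S09874
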