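import Pool.Statements.S09932

/-!
# Minimum `k`-arc-strong spanning subdigraphs of tournaments: a counterexample

`k = 5`, a tournament `A` on `26` vertices.  The vertex classes are `X` (vertices `0..8`), `P`
(`9, 10, 11`), `h = 12`, `t = 13`, `Q` (`14, 15, 16`), `Y` (`17..25`); `X`, `P`, `Q`, `Y` are
rotational tournaments, `X → P → h → X`, `Y → t → Q → Y`, and all arcs go from
`X ∪ P ∪ {h}` to `{t} ∪ Q ∪ Y` except for `t → h`, two arcs `t → X` and two arcs `Y → h`.

* `A` is `5`-arc-strong: there are five arc disjoint spanning out-trees with root `t` and five arc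
  disjoint spanning in-trees with root `t` (tables `pO`, `pI` with the depths `rO`, `rI`).
* A spanning subdigraph `B` with `135` arcs has all in- and outdegrees at least `5`.
* If `C` is a `5`-arc-strong spanning subdigraph then `C` contains the five arcs from
  `{t} ∪ Q ∪ Y` to `X ∪ P ∪ {h}`, in particular `t → h`.  Count the arcs of `C` which start in
  `P ∪ Q ∪ Y` (at least `5 * 15`) and which end in `X ∪ P ∪ Q` (at least `5 * 15`); at most `15`
  arcs are counted twice and `t → h` is not counted.  So `C` has at least `136` arcs.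
-/

set_option autoImplicit false
open Pool Pool.MP_883534_co

namespace Pool.Agent.S09932

/-- the rows of the adjacency matrix of the tournament, in binary -/
def rowA : List ℕ := [67104286, 67104316, 67104376, 67104496, 67104736, 67104705, 67104643, 67096327, 67096079, 67105792, 67106816, 67105280, 16761343, 119168, 67010560, 67043328, 66994176, 3940352, 7872512, 15736832, 31465472, 62922752, 58859520, 50733056, 34484224, 1978368]

/-- the rows of the adjacency matrix of the subdigraph `B` -/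
def rowB : List ℕ := [2078, 2620, 2680, 2800, 992, 1473, 1411, 1287, 1039, 119808, 120832, 119296, 127, 115072, 29655040, 35454976, 3817472, 3940352, 7872512, 15736832, 31465472, 62922752, 58859520, 50733056, 34476032, 929792]

def adjA (u v : Fin 26) : Bool := (rowA.getD u.1 0).testBit v.1

def adjB (u v : Fin 26) : Bool := (rowB.getD u.1 0).testBit v.1

/-- the parents in five arc disjoint out-trees with root `13` -/
def tO : List (List ℕ) :=
  [[7, 7, 7, 0, 0, 1, 2, 13, 7, 7, 7, 7, 9, 13, 13, 7, 7, 7, 7, 7, 7, 7, 7, 7, 7, 7],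
   [8, 8, 8, 8, 1, 2, 3, 3, 13, 8, 8, 8, 10, 13, 8, 8, 8, 8, 8, 8, 8, 8, 8, 8, 8, 8],
   [12, 12, 12, 12, 12, 3, 4, 12, 12, 0, 0, 0, 13, 13, 12, 12, 12, 12, 12, 12, 12, 12, 12, 12, 0, 0],
   [5, 0, 0, 1, 2, 12, 5, 5, 5, 5, 5, 5, 24, 13, 16, 13, 15, 15, 15, 15, 15, 15, 15, 15, 15, 15],
   [6, 6, 1, 2, 3, 4, 12, 6, 6, 6, 6, 6, 25, 13, 6, 6, 13, 16, 16, 16, 16, 16, 16, 16, 16, 16]]

/-- the depths -/
def dO : List (List ℕ) :=
  [[2, 2, 2, 3, 3, 3, 3, 1, 2, 2, 2, 2, 3, 0, 1, 2, 2, 2, 2, 2, 2, 2, 2, 2, 2, 2],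
   [2, 2, 2, 2, 3, 3, 3, 3, 1, 2, 2, 2, 3, 0, 2, 2, 2, 2, 2, 2, 2, 2, 2, 2, 2, 2],
   [2, 2, 2, 2, 2, 3, 3, 2, 2, 3, 3, 3, 1, 0, 2, 2, 2, 2, 2, 2, 2, 2, 2, 2, 3, 3],
   [5, 6, 6, 7, 7, 4, 5, 5, 5, 5, 5, 5, 3, 0, 3, 1, 2, 2, 2, 2, 2, 2, 2, 2, 2, 2],
   [5, 5, 6, 7, 8, 9, 4, 5, 5, 5, 5, 5, 3, 0, 5, 5, 1, 2, 2, 2, 2, 2, 2, 2, 2, 2]]

/-- the parents in five arc disjoint in-trees with root `13` -/
def tI : List (List ℕ) :=
  [[13, 13, 13, 13, 13, 13, 13, 0, 0, 13, 13, 13, 0, 13, 17, 17, 17, 13, 13, 13, 13, 13, 17, 17, 17, 17],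
   [22, 22, 22, 22, 22, 22, 22, 22, 22, 22, 22, 22, 22, 13, 22, 22, 22, 18, 22, 22, 22, 22, 13, 18, 12, 12],
   [23, 23, 23, 23, 23, 23, 23, 23, 23, 23, 23, 23, 23, 13, 23, 23, 23, 19, 19, 23, 23, 23, 23, 13, 19, 19],
   [24, 24, 24, 24, 24, 24, 24, 24, 24, 24, 24, 24, 1, 13, 24, 24, 24, 20, 20, 20, 24, 24, 24, 24, 13, 20],
   [25, 25, 25, 25, 25, 25, 25, 25, 25, 25, 25, 25, 2, 13, 25, 25, 25, 21, 21, 21, 21, 25, 25, 25, 25, 13]]

/-- the depths -/
def dI : List (List ℕ) :=
  [[1, 1, 1, 1, 1, 1, 1, 2, 2, 1, 1, 1, 2, 0, 2, 2, 2, 1, 1, 1, 1, 1, 2, 2, 2, 2],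
   [2, 2, 2, 2, 2, 2, 2, 2, 2, 2, 2, 2, 2, 0, 2, 2, 2, 3, 2, 2, 2, 2, 1, 3, 3, 3],
   [2, 2, 2, 2, 2, 2, 2, 2, 2, 2, 2, 2, 2, 0, 2, 2, 2, 3, 3, 2, 2, 2, 2, 1, 3, 3],
   [2, 2, 2, 2, 2, 2, 2, 2, 2, 2, 2, 2, 3, 0, 2, 2, 2, 3, 3, 3, 2, 2, 2, 2, 1, 3],
   [2, 2, 2, 2, 2, 2, 2, 2, 2, 2, 2, 2, 3, 0, 2, 2, 2, 3, 3, 3, 3, 2, 2, 2, 2, 1]]

def pO (i : Fin 5) (v : Fin 26) : Fin 26 := Fin.ofNat 26 ((tO.getD i.1 []).getD v.1 0)
def rO (i : Fin 5) (v : Fin 26) : ℕ := (dO.getD i.1 []).getD v.1 0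
def pI (i : Fin 5) (v : Fin 26) : Fin 26 := Fin.ofNat 26 ((tI.getD i.1 []).getD v.1 0)
def rI (i : Fin 5) (v : Fin 26) : ℕ := (dI.getD i.1 []).getD v.1 0

lemma outTree : ∀ (i : Fin 5) (v : Fin 26), v ≠ 13 →
    adjA (pO i v) v = true ∧ rO i (pO i v) < rO i v := by decide +kernel

lemma inTree : ∀ (i : Fin 5) (v : Fin 26), v ≠ 13 →
    adjA v (pI i v) = true ∧ rI i (pI i v) < rI i v := by decide +kernel

lemma outDisj : ∀ (i j : Fin 5) (v : Fin 26), v ≠ 13 → pO i v = pO j v → i = j := by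
  decide +kernel

lemma inDisj : ∀ (i j : Fin 5) (v : Fin 26), v ≠ 13 → pI i v = pI j v → i = j := by
  decide +kernel

/-- the tournament -/
def A : Finset (Fin 26 × Fin 26) := Finset.univ.filter (fun e => adjA e.1 e.2 = true)

/-- the subdigraph with all degrees at least `5` -/
def B : Finset (Fin 26 × Fin 26) := Finset.univ.filter (fun e => adjB e.1 e.2 = true)

/-- tails counted -/
def P : Finset (Fin 26) := {9, 10, 11, 14, 15, 16, 17, 18, 19, 20, 21, 22, 23, 24, 25}

/-- heads counted -/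
def Q : Finset (Fin 26) := {0, 1, 2, 3, 4, 5, 6, 7, 8, 9, 10, 11, 14, 15, 16}

/-- the complement of the tight cut -/
def Z : Finset (Fin 26) := {13, 14, 15, 16, 17, 18, 19, 20, 21, 22, 23, 24, 25}

lemma mem_A {e : Fin 26 × Fin 26} : e ∈ A ↔ adjA e.1 e.2 = true := by
  unfold A; simp

lemma mem_B {e : Fin 26 × Fin 26} : e ∈ B ↔ adjB e.1 e.2 = true := by
  unfold B; simp

lemma irr : ∀ u : Fin 26, adjA u u = false := by decide +kernel

lemma tour : ∀ u v : Fin 26, u ≠ v → (adjA u v = true ↔ ¬ adjA v u = true) := by decide +kernel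

lemma sub : ∀ u v : Fin 26, adjB u v = true → adjA u v = true := by decide +kernel

lemma cardB : B.card = 135 := by decide +kernel

lemma degB : ∀ v : Fin 26, 5 ≤ (B.filter (fun e => e.1 = v)).card ∧
    5 ≤ (B.filter (fun e => e.2 = v)).card := by decide +kernel

lemma cardPQ : (A.filter (fun e => e.1 ∈ P ∧ e.2 ∈ Q)).card = 15 := by decide +kernel

lemma cardZ : (A.filter (fun e => e.1 ∈ Z ∧ e.2 ∉ Z)).card = 5 := by decide +kernel

/-- A vertex outside of `S` of smallest depth. -/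
lemma exists_min {S : Finset (Fin 26)} (hS : S.Nonempty) (r : Fin 26 → ℕ) :
    ∃ v ∈ S, ∀ w ∈ S, r v ≤ r w := Finset.exists_min_image S r hS

/-- The tournament is `5`-arc-strong. -/
lemma strong (S : Finset (Fin 26)) (h1 : S.Nonempty) (h2 : S ≠ Finset.univ) :
    5 ≤ (A.filter (fun e => e.1 ∈ S ∧ e.2 ∉ S)).card := by
  by_cases hr : (13 : Fin 26) ∈ S
  · have hne : (Finset.univ \ S).Nonempty := by
      by_contra hcon
      rw [Finset.not_nonempty_iff_eq_empty, Finset.sdiff_eq_empty_iff_subset] at hcon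
      exact h2 (Finset.eq_univ_of_forall fun v => hcon (Finset.mem_univ v))
    have hch : ∀ i : Fin 5, ∃ v, v ∉ S ∧ pO i v ∈ S := by
      intro i
      obtain ⟨v, hv, hmin⟩ := exists_min hne (rO i)
      have hvS : v ∉ S := (Finset.mem_sdiff.1 hv).2
      refine ⟨v, hvS, ?_⟩
      by_contra hcon
      have hv13 : v ≠ 13 := fun h => hvS (h ▸ hr)
      have := hmin (pO i v) (Finset.mem_sdiff.2 ⟨Finset.mem_univ _, hcon⟩)
      have := (outTree i v hv13).2
      omega
    choose f hf using hch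
    have hf13 : ∀ i, f i ≠ 13 := fun i h => (hf i).1 (h ▸ hr)
    have := Finset.card_le_card_of_injOn (s := (Finset.univ : Finset (Fin 5)))
      (t := A.filter (fun e => e.1 ∈ S ∧ e.2 ∉ S)) (fun i => (pO i (f i), f i))
      (fun i _ => by
        rw [Finset.mem_coe, Finset.mem_filter]
        exact ⟨mem_A.2 (outTree i _ (hf13 i)).1, (hf i).2, (hf i).1⟩)
      (fun i _ j _ hij => by
        have h3 := (Prod.mk.inj hij).2
        have h4 := (Prod.mk.inj hij).1
        rw [← h3] at h4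
        exact outDisj i j _ (hf13 i) h4)
    simpa using this
  · have hch : ∀ i : Fin 5, ∃ v, v ∈ S ∧ pI i v ∉ S := by
      intro i
      obtain ⟨v, hv, hmin⟩ := exists_min h1 (rI i)
      refine ⟨v, hv, ?_⟩
      intro hcon
      have hv13 : v ≠ 13 := fun h => hr (h ▸ hv)
      have := hmin (pI i v) hcon
      have := (inTree i v hv13).2
      omega
    choose f hf using hch
    have hf13 : ∀ i, f i ≠ 13 := fun i h => hr (h ▸ (hf i).1)
    have := Finset.card_le_card_of_injOn (s := (Finset.univ : Finset (Fin 5)))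
      (t := A.filter (fun e => e.1 ∈ S ∧ e.2 ∉ S)) (fun i => (f i, pI i (f i)))
      (fun i _ => by
        rw [Finset.mem_coe, Finset.mem_filter]
        exact ⟨mem_A.2 (inTree i _ (hf13 i)).1, (hf i).1, (hf i).2⟩)
      (fun i _ j _ hij => by
        have h3 := (Prod.mk.inj hij).1
        have h4 := (Prod.mk.inj hij).2
        rw [← h3] at h4
        exact inDisj i j _ (hf13 i) h4)
    simpa using this

/-- The cut condition. -/
def Cuts (C : Finset (Fin 26 × Fin 26)) : Prop :=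
  ∀ S : Finset (Fin 26), S.Nonempty → S ≠ Finset.univ →
    5 ≤ (C.filter (fun e => e.1 ∈ S ∧ e.2 ∉ S)).card

lemma out_ge {C : Finset (Fin 26 × Fin 26)} (hC : Cuts C) (u : Fin 26) :
    5 ≤ (C.filter (fun e => e.1 = u)).card := by
  have hne : ({u} : Finset (Fin 26)) ≠ Finset.univ := by
    intro h
    have := congrArg Finset.card h
    simp at this
  refine (hC {u} (Finset.singleton_nonempty u) hne).trans (Finset.card_le_card ?_)
  intro e he
  rw [Finset.mem_filter] at he ⊢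
  exact ⟨he.1, Finset.mem_singleton.1 he.2.1⟩

lemma in_ge {C : Finset (Fin 26 × Fin 26)} (hC : Cuts C) (u : Fin 26) :
    5 ≤ (C.filter (fun e => e.2 = u)).card := by
  have hne : (Finset.univ \ {u} : Finset (Fin 26)).Nonempty := by
    rw [← Finset.card_pos, Finset.card_sdiff_of_subset (Finset.subset_univ _)]
    simp
  have hne2 : (Finset.univ \ {u} : Finset (Fin 26)) ≠ Finset.univ := by
    intro h
    have : u ∈ (Finset.univ \ {u} : Finset (Fin 26)) := by rw [h]; exact Finset.mem_univ u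
    simp at this
  refine (hC _ hne hne2).trans (Finset.card_le_card ?_)
  intro e he
  rw [Finset.mem_filter] at he ⊢
  refine ⟨he.1, ?_⟩
  by_contra hcon
  exact he.2.2 (Finset.mem_sdiff.2 ⟨Finset.mem_univ _, by simpa using hcon⟩)

lemma out_sum {C : Finset (Fin 26 × Fin 26)} (hC : Cuts C) :
    75 ≤ (C.filter (fun e => e.1 ∈ P)).card := by
  have h1 := Finset.card_eq_sum_card_fiberwise (s := C.filter (fun e => e.1 ∈ P)) (t := P)
    (f := fun e => e.1) (fun e he => (Finset.mem_filter.1 he).2)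
  rw [h1]
  have h2 : ∀ u ∈ P, 5 ≤ ((C.filter (fun e => e.1 ∈ P)).filter (fun e => e.1 = u)).card := by
    intro u hu
    refine (out_ge hC u).trans (Finset.card_le_card ?_)
    intro e he
    rw [Finset.mem_filter] at he
    rw [Finset.mem_filter, Finset.mem_filter]
    exact ⟨⟨he.1, by rw [he.2]; exact hu⟩, he.2⟩
  have h3 := Finset.card_nsmul_le_sum P _ 5 h2
  have h4 : P.card = 15 := by decide +kernel
  rw [h4] at h3
  simpa using h3

lemma in_sum {C : Finset (Fin 26 × Fin 26)} (hC : Cuts C) :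
    75 ≤ (C.filter (fun e => e.2 ∈ Q)).card := by
  have h1 := Finset.card_eq_sum_card_fiberwise (s := C.filter (fun e => e.2 ∈ Q)) (t := Q)
    (f := fun e => e.2) (fun e he => (Finset.mem_filter.1 he).2)
  rw [h1]
  have h2 : ∀ u ∈ Q, 5 ≤ ((C.filter (fun e => e.2 ∈ Q)).filter (fun e => e.2 = u)).card := by
    intro u hu
    refine (in_ge hC u).trans (Finset.card_le_card ?_)
    intro e he
    rw [Finset.mem_filter] at he
    rw [Finset.mem_filter, Finset.mem_filter]
    exact ⟨⟨he.1, by rw [he.2]; exact hu⟩, he.2⟩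
  have h3 := Finset.card_nsmul_le_sum Q _ 5 h2
  have h4 : Q.card = 15 := by decide +kernel
  rw [h4] at h3
  simpa using h3

/-- Every `5`-arc-strong spanning subdigraph has at least `136` arcs. -/
lemma large {C : Finset (Fin 26 × Fin 26)} (hCA : C ⊆ A) (hC : Cuts C) : 136 ≤ C.card := by
  -- the arc from `t` to `h`
  have hth : ((13, 12) : Fin 26 × Fin 26) ∈ C := by
    have h1 := hC Z (by decide +kernel) (by decide +kernel)
    have h2 : C.filter (fun e => e.1 ∈ Z ∧ e.2 ∉ Z) ⊆ A.filter (fun e => e.1 ∈ Z ∧ e.2 ∉ Z) :=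
      Finset.filter_subset_filter _ hCA
    have h3 := Finset.eq_of_subset_of_card_le h2 (by rw [cardZ]; exact h1)
    have h4 : ((13, 12) : Fin 26 × Fin 26) ∈ A.filter (fun e => e.1 ∈ Z ∧ e.2 ∉ Z) := by
      rw [Finset.mem_filter, mem_A]
      decide +kernel
    rw [← h3] at h4
    exact (Finset.mem_filter.1 h4).1
  have h1 := out_sum hC
  have h2 := in_sum hC
  have h3 : ((C.filter (fun e => e.1 ∈ P)) ∩ (C.filter (fun e => e.2 ∈ Q))).card ≤ 15 := by
    rw [← cardPQ]
    refine Finset.card_le_card ?_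
    intro e he
    rw [Finset.mem_inter, Finset.mem_filter, Finset.mem_filter] at he
    rw [Finset.mem_filter]
    exact ⟨hCA he.1.1, he.1.2, he.2.2⟩
  have h4 := Finset.card_union_add_card_inter (C.filter (fun e => e.1 ∈ P))
    (C.filter (fun e => e.2 ∈ Q))
  have h5 : (C.filter (fun e => e.1 ∈ P)) ∪ (C.filter (fun e => e.2 ∈ Q)) ⊆ C.erase (13, 12) := by
    intro e he
    rw [Finset.mem_union, Finset.mem_filter, Finset.mem_filter] at he
    rw [Finset.mem_erase]
    refine ⟨?_, by tauto⟩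
    rintro rfl
    rcases he with he | he
    · exact absurd he.2 (by decide +kernel)
    · exact absurd he.2 (by decide +kernel)
  have h6 := Finset.card_le_card h5
  rw [Finset.card_erase_of_mem hth] at h6
  have h7 : 0 < C.card := Finset.card_pos.2 ⟨_, hth⟩
  omega

/-- The negation of the preceding statement: In any k-arc-strong tournament (k≥1), for every spanning subdigraph with all in- and out-degrees at least k there is a spanning k-arc-strong subdigraph with at most as many arcs; that is, the two minimum arc counts coincide. -/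
theorem result :
    ¬ (∀ (n k : ℕ) (A : Finset (Fin n × Fin n)), 1 ≤ k →
      (∀ u : Fin n, (u, u) ∉ A) →
      (∀ u v : Fin n, u ≠ v → ((u, v) ∈ A ↔ (v, u) ∉ A)) →
      (∀ S : Finset (Fin n), S.Nonempty → S ≠ Finset.univ →
          k ≤ (A.filter (fun e => e.1 ∈ S ∧ e.2 ∉ S)).card) →
      ∀ B ⊆ A,
        (∀ v : Fin n, k ≤ (B.filter (fun e => e.1 = v)).card ∧
                      k ≤ (B.filter (fun e => e.2 = v)).card) →
        ∃ C ⊆ A, C.card ≤ B.card ∧
          ∀ S : Finset (Fin n), S.Nonempty → S ≠ Finset.univ →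
            k ≤ (C.filter (fun e => e.1 ∈ S ∧ e.2 ∉ S)).card) := by
  intro h
  obtain ⟨C, hCA, hcard, hC⟩ := h 26 5 A (by norm_num)
    (fun u hu => by
      rw [mem_A] at hu
      exact absurd hu (by rw [irr u]; simp))
    (fun u v huv => by
      rw [mem_A, mem_A]
      exact tour u v huv)
    strong B (fun e he => mem_A.2 (sub _ _ (mem_B.1 he))) degB
  rw [cardB] at hcard
  have := large hCA hC
  omega

end Pool.Agent.S09932
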