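import Pool.Statements.S09946
import Pool.Agent.Q116.Cyc.Main

set_option autoImplicit false
open Pool Pool.MP_8888ff_co

namespace Pool.Agent.S09946

/-- The negation of the preceding statement: For every graph family whose members all contain a cycle and one is bipartite, some c>0 ensures every graph with min degree δ≥1 and max degree Δ has a spanning F-free subgraph of min degree at least c·ex(K_Δ,F)·δ/Δ². -/
theorem result :
    ¬ (∀ F : Set (Σ k : ℕ, SimpleGraph (Fin k)),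
      (∀ p ∈ F, ¬ p.2.IsAcyclic) →
      (∃ p ∈ F, p.2.Colorable 2) →
      ∃ c : ℝ, 0 < c ∧
        ∀ δ Δ : ℕ, 1 ≤ δ → δ ≤ Δ →
          ∀ n : ℕ, ∀ G : SimpleGraph (Fin n),
            (∀ v, δ ≤ (G.neighborSet v).ncard) →
            (∃ v, (G.neighborSet v).ncard = δ) →
            (∀ v, (G.neighborSet v).ncard ≤ Δ) →
            (∃ v, (G.neighborSet v).ncard = Δ) →
            ∀ T : SimpleGraph (Fin Δ),
              (∀ p ∈ F, ¬ p.2.IsContained T) →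
              ∃ H : SimpleGraph (Fin n), H ≤ G ∧
                (∀ p ∈ F, ¬ p.2.IsContained H) ∧
                ∀ v, c * (T.edgeSet.ncard : ℝ) * (δ : ℝ) / (Δ : ℝ) ^ 2
                  ≤ ((H.neighborSet v).ncard : ℝ)) := by
  intro hall
  obtain ⟨K, h4, hK, hmain⟩ := Q116.Cyc.main
  obtain ⟨c, hc, hF⟩ := hall {p | ∃ ℓ ∈ K, p = ⟨ℓ, SimpleGraph.cycleGraph ℓ⟩} (by
    rintro p ⟨ℓ, hℓ, rfl⟩ hac
    have h1 := (hK ℓ hℓ).2
    rw [SimpleGraph.isAcyclic_iff_free_cycleGraph] at hac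
    exact hac ℓ (by omega) (SimpleGraph.IsContained.refl _)) (by
    refine ⟨_, ⟨4, h4, rfl⟩, ?_⟩
    have h1 := SimpleGraph.chromaticNumber_cycleGraph_of_even 4 (by norm_num) (by decide)
    rw [← SimpleGraph.chromaticNumber_le_iff_colorable, h1]
    norm_num)
  obtain ⟨Δ, -, hΔ, ⟨T, hT, hbig⟩, n, G, hn, hreg, hH⟩ := hmain c hc 0
  obtain ⟨H, hHG, hHf, hdeg⟩ := hF Δ Δ hΔ le_rfl n G (fun v => (hreg v).ge)
    ⟨⟨0, hn⟩, hreg _⟩ (fun v => (hreg v).le) ⟨⟨0, hn⟩, hreg _⟩ T (by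
      rintro p ⟨ℓ, hℓ, rfl⟩
      exact hT ℓ hℓ)
  obtain ⟨v, hv⟩ := hH H hHG (fun ℓ hℓ => hHf ⟨ℓ, SimpleGraph.cycleGraph ℓ⟩ ⟨ℓ, hℓ, rfl⟩)
  have h2 := hdeg v
  have h3 : ((H.neighborSet v).ncard : ℝ) ≤ 1 := by exact_mod_cast hv
  linarith

end Pool.Agent.S09946
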