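import Pool.Statements.S10143
import Pool.Agent.Q117.CP.Hull
import Pool.Agent.H73R3.Hull

set_option autoImplicit false
open Classical
open Pool Pool.MP_913d4e_co

namespace Pool.Agent.S10143

/-- For 0<e_1<…<e_m, take the convex hull of the e_i-clique density vectors (cliques over binom(n,e_i)) of all n-vertex graphs, and intersect over n≥Σe_i. This equals the hull of the all-ones vector and the points (∏_{j<e_i}(1−j/k))_i for k≥1. -/
theorem result :
    ∀ (m : ℕ) (e : Fin m → ℕ), (∀ i, 0 < e i) → StrictMono e →
      (⋂ n : ℕ, convexHull ℝ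
          { x : Fin m → ℝ | ∃ G : SimpleGraph (Fin (n + ∑ i, e i)),
              x = fun i => ((G.cliqueFinset (e i)).card : ℝ) /
                ((Nat.choose (n + ∑ i, e i) (e i) : ℕ) : ℝ) })
        = convexHull ℝ (insert (1 : Fin m → ℝ)
            (Set.range fun k : ℕ => fun i : Fin m =>
              ∏ j ∈ Finset.Ico 1 (e i), (1 - (j : ℝ) / ((k : ℝ) + 1)))) := by
  intro m e he _
  have hk1 : ∀ (k : ℕ) (i : Fin m), (∏ j ∈ Finset.Ico 1 (e i), (1 - (j : ℝ) / ((k : ℝ) + 1))) =
      Q117.CP.S (k + 1) (e i) := by
    intro k i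
    unfold Q117.CP.S
    push_cast
    rfl
  simp only [hk1]
  have hle : ∀ (n : ℕ) (i : Fin m), e i ≤ n + ∑ i, e i := by
    intro n i
    have := Finset.single_le_sum (fun j _ => Nat.zero_le (e j)) (Finset.mem_univ i)
    omega
  apply Set.Subset.antisymm
  · intro x hx
    by_contra hxn
    have hcomp : IsCompact (convexHull ℝ (insert (1 : Fin m → ℝ)
        (Set.range fun k : ℕ => fun i : Fin m => Q117.CP.S (k + 1) (e i)))) := by
      apply Pool.Agent.H73R3.compact_hull
      apply Filter.Tendsto.isCompact_insert_range
      rw [tendsto_pi_nhds]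
      intro i
      have := (Q117.CP.S_tendsto (e i)).comp (Filter.tendsto_add_atTop_nat 1)
      exact this
    obtain ⟨f, u, hfx, hfb⟩ := geometric_hahn_banach_point_closed (convex_convexHull ℝ _)
      hcomp.isClosed hxn
    set c : Fin m → ℝ := fun i => f (Pi.single i 1) with hc
    have hf : ∀ y : Fin m → ℝ, f y = ∑ i, c i * y i := by
      intro y
      have h1 := LinearMap.pi_apply_eq_sum_univ (f : (Fin m → ℝ) →ₗ[ℝ] ℝ) y
      have h2 : (f : (Fin m → ℝ) →ₗ[ℝ] ℝ) y = f y := rfl
      rw [h2] at h1
      rw [h1]
      apply Finset.sum_congr rfl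
      intro i _
      rw [smul_eq_mul, mul_comm]
      congr 1
      rw [hc]
      show f _ = f _
      congr 1
      funext j
      rw [Pi.single_apply]
      simp only [eq_comm]
    have hu : ∀ k : ℕ, 1 ≤ k → u ≤ ∑ i, c i * Q117.CP.S k (e i) := by
      intro k hk
      have h1 := hfb (fun i : Fin m => Q117.CP.S k (e i)) (by
        apply subset_convexHull
        right
        refine ⟨k - 1, ?_⟩
        have : k - 1 + 1 = k := by omega
        simp only [this])
      rw [hf] at h1
      exact h1.le
    set err : ℕ → ℝ := fun N => ∑ i, |c i| * |1 - Q117.CP.S N (e i)| with herr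
    have herr0 : Filter.Tendsto err Filter.atTop (nhds 0) := by
      have h1 : Filter.Tendsto err Filter.atTop (nhds (∑ i, |c i| * |1 - (1 : ℝ)|)) := by
        rw [herr]
        apply tendsto_finsetSum
        intro i _
        exact (((Q117.CP.S_tendsto (e i)).const_sub 1).abs).const_mul _
      simpa using h1
    have hkey : ∀ n : ℕ, u - err (n + 1 + ∑ i, e i) ≤ f x := by
      intro n
      have hxn' := Set.mem_iInter.1 hx (n + 1)
      have hsub : convexHull ℝ
          { x : Fin m → ℝ | ∃ G : SimpleGraph (Fin (n + 1 + ∑ i, e i)),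
              x = fun i => ((G.cliqueFinset (e i)).card : ℝ) /
                ((Nat.choose (n + 1 + ∑ i, e i) (e i) : ℕ) : ℝ) } ⊆
          {y | u - err (n + 1 + ∑ i, e i) ≤ f y} := by
        apply convexHull_min
        · rintro y ⟨G, rfl⟩
          show u - err (n + 1 + ∑ i, e i) ≤ f _
          rw [hf]
          have hb := Q117.CP.bound e (hle (n + 1)) (by omega) c u hu G
          rw [sub_le_iff_le_add]
          exact hb
        · intro y hy z hz a b ha hb hab
          show u - err (n + 1 + ∑ i, e i) ≤ f (a • y + b • z)
          have hy' : u - err (n + 1 + ∑ i, e i) ≤ f y := hy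
          have hz' : u - err (n + 1 + ∑ i, e i) ≤ f z := hz
          rw [map_add, map_smul, map_smul, smul_eq_mul, smul_eq_mul]
          have h1 := mul_le_mul_of_nonneg_left hy' ha
          have h2 := mul_le_mul_of_nonneg_left hz' hb
          have h3 : a * (u - err (n + 1 + ∑ i, e i)) + b * (u - err (n + 1 + ∑ i, e i)) =
              u - err (n + 1 + ∑ i, e i) := by rw [← add_mul, hab, one_mul]
          linarith
      exact hsub hxn'
    have hlim : Filter.Tendsto (fun n : ℕ => u - err (n + 1 + ∑ i, e i)) Filter.atTop
        (nhds (u - 0)) := by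
      apply Filter.Tendsto.const_sub
      have h1 : Filter.Tendsto (fun n : ℕ => n + 1 + ∑ i, e i) Filter.atTop Filter.atTop :=
        Filter.tendsto_atTop_mono (fun n => by show n ≤ _; omega) Filter.tendsto_id
      exact herr0.comp h1
    rw [sub_zero] at hlim
    have := le_of_tendsto' hlim hkey
    linarith
  · apply convexHull_min
    · rintro y (hy | ⟨k, rfl⟩)
      · rw [hy]
        rw [Set.mem_iInter]
        intro n
        apply subset_convexHull
        refine ⟨⊤, ?_⟩
        funext i
        have hch : 0 < Nat.choose (n + ∑ i, e i) (e i) := Nat.choose_pos (hle n i)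
        have hch' : ((Nat.choose (n + ∑ i, e i) (e i) : ℕ) : ℝ) ≠ 0 := by positivity
        rw [Q117.CP.top_count, div_self hch']
        rfl
      · rw [Set.mem_iInter]
        intro n
        set N := n + ∑ i, e i with hN
        have hw : ∑ _φ : Fin N → Fin (k + 1), (1 / ((k + 1 : ℕ) : ℝ) ^ N) = 1 := by
          rw [Finset.sum_const, Finset.card_univ, Fintype.card_fun, Fintype.card_fin,
            Fintype.card_fin, nsmul_eq_mul]
          push_cast
          have : ((k : ℝ) + 1) ^ N ≠ 0 := by positivity
          field_simp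
        have hmem := (convex_convexHull ℝ
          { x : Fin m → ℝ | ∃ G : SimpleGraph (Fin N),
              x = fun i => ((G.cliqueFinset (e i)).card : ℝ) /
                ((Nat.choose N (e i) : ℕ) : ℝ) }).sum_mem
          (t := (Finset.univ : Finset (Fin N → Fin (k + 1))))
          (w := fun _ => 1 / ((k + 1 : ℕ) : ℝ) ^ N)
          (z := fun φ => fun i => (((Q117.CP.MG φ).cliqueFinset (e i)).card : ℝ) /
                ((Nat.choose N (e i) : ℕ) : ℝ))
          (fun _ _ => by positivity) hw
          (fun φ _ => subset_convexHull ℝ _ ⟨Q117.CP.MG φ, rfl⟩)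
        convert hmem using 1
        funext i
        rw [Finset.sum_apply]
        simp only [Pi.smul_apply, smul_eq_mul]
        rw [← Q117.CP.average N (k + 1) (e i) (by omega) (hle n i)]
    · exact convex_iInter (fun n => convex_convexHull ℝ _)

end Pool.Agent.S10143
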