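import Pool.Statements.S10311
import Pool.Agent.H176R2.R5.GV

set_option autoImplicit false
open Pool Pool.MP_98a5df_co

namespace Pool.Agent.S10311

/-- Every finite 5-regular graph in which each set of k≥3 vertices spans at most 3k−6 edges has a placement in R^3 whose rigidity matrix has linearly independent rows. -/
theorem result :
    ∀ (n : ℕ) (G : SimpleGraph (Fin n)) [DecidableRel G.Adj],
      G.IsRegularOfDegree 5 →
      (∀ S : Finset (Fin n), 3 ≤ S.card →
        (Finset.univ.filter (fun e : Fin n × Fin n =>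
          e.1 ∈ S ∧ e.2 ∈ S ∧ e.1 < e.2 ∧ G.Adj e.1 e.2)).card ≤ 3 * S.card - 6) →
      ∃ p : Fin n → Fin 3 → ℝ,
        LinearIndependent ℝ
          (fun e : {e : Fin n × Fin n // e.1 < e.2 ∧ G.Adj e.1 e.2} =>
            (fun (w : Fin n) (i : Fin 3) =>
              if w = e.val.1 then p e.val.1 i - p e.val.2 i
              else if w = e.val.2 then p e.val.2 i - p e.val.1 i
              else 0)) := by
  intro n G _ hreg hsp
  classical
  set I : Set (Fin n × Fin n) := {e | e.1 < e.2 ∧ G.Adj e.1 e.2} with hIdef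
  have hI : ∀ e ∈ I, e.1 < e.2 := fun e he => he.1
  have hgr : H176R2.R5.OR.gr I = G := by
    ext a b
    constructor
    · rintro ⟨-, h | h⟩
      · exact h.2
      · exact h.2.symm
    · intro h
      refine ⟨h.ne, ?_⟩
      rcases lt_or_gt_of_ne h.ne with h1 | h1
      · exact Or.inl ⟨h1, h⟩
      · exact Or.inr ⟨h1, h.symm⟩
  have hS : H176R2.R5.Sparse G := by
    intro X hX
    rw [← hgr, H176R2.R5.OR.i2_gr hI X]
    have h1 : (I ∩ {e : Fin n × Fin n | e.1 ∈ X ∧ e.2 ∈ X ∧ e.1 < e.2}) =
        ((Finset.univ.filter (fun e : Fin n × Fin n =>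
          e.1 ∈ X ∧ e.2 ∈ X ∧ e.1 < e.2 ∧ G.Adj e.1 e.2) : Finset (Fin n × Fin n)) :
            Set (Fin n × Fin n)) := by
      ext e
      simp only [hIdef, Set.mem_inter_iff, Set.mem_setOf_eq, Finset.coe_filter, Finset.mem_univ,
        true_and]
      tauto
    rw [h1, Set.ncard_coe_finset]
    have h2 := hsp X hX
    omega
  obtain ⟨p, hp⟩ := H176R2.R5.exists_gen (V := Fin n)
  refine ⟨p, ?_⟩
  have hmain : H176R2.R5.Ind p (H176R2.R5.OR.gr I) := by
    rw [hgr]
    apply H176R2.R5.main hp hS
    intro a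
    have h3 : H176R2.R5.dg G Finset.univ a = G.degree a := by
      unfold H176R2.R5.dg
      rw [← SimpleGraph.card_neighborFinset_eq_degree]
      congr 1
      ext b
      simp [SimpleGraph.mem_neighborFinset]
    rw [h3, hreg a]
  exact (H176R2.R5.OR.ind_iff hI p _ (fun e v k => rfl)).2 hmain

end Pool.Agent.S10311
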