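import Pool.Statements.S10395
import Pool.Agent.Q160.SK.Step
import Pool.Agent.Q160.SK.Pos
import Pool.Agent.Q160.SK.Red4
import Pool.Agent.Q178.SK.Dim
import Pool.Agent.Q178.SK.StrSym
import Pool.Agent.Q178.SK.Sl2
import Pool.Agent.Q178.SK.Rel
import Pool.Agent.Q178.SK.Sli
import Pool.Agent.Q178.SK.Sta
import Pool.Agent.Q151.SK.FIN
import Pool.Agent.Q151.SK.GFU
import Pool.Agent.Q151.SK.LIM
import Pool.Agent.Q151.SK.PRK
import Pool.Agent.Q151.SK.SPA
import Pool.Agent.Q151.SK.TWI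
import Pool.Agent.Q151.SK.BAS
import Pool.Agent.Q198.SK.NOE
import Pool.Agent.Q198.SK.VAN
import Pool.Agent.Q151.SK.DIA
import Pool.Agent.Q198.SK.GEN

set_option autoImplicit false
open Pool Pool.MP_9c9c2f_co

namespace Pool.Agent.S10395

/-- For every n, with D the divided-difference operators on Z[x1..xn], Schubert polynomial S_u = D_{u^-1 w0} of the staircase monomial, and E the skew operators from the Leibniz rule, every coefficient of E_{w/v}(S_u) is nonnegative. -/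
theorem result :
    ∀ (n : ℕ) (D : Equiv.Perm (Fin n) → MvPolynomial (Fin n) ℤ → MvPolynomial (Fin n) ℤ)
      (E : Equiv.Perm (Fin n) → Equiv.Perm (Fin n) → MvPolynomial (Fin n) ℤ → MvPolynomial (Fin n) ℤ),
      (∀ f, D 1 f = f) →
      (∀ (w : Equiv.Perm (Fin n)) (i j : Fin n), j.val = i.val + 1 →
        (Finset.univ.filter (fun p : Fin n × Fin n =>
            p.1 < p.2 ∧ (Equiv.swap i j * w) p.2 < (Equiv.swap i j * w) p.1)).card
          < (Finset.univ.filter (fun p : Fin n × Fin n => p.1 < p.2 ∧ w p.2 < w p.1)).card →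
        ∀ f, (MvPolynomial.X i - MvPolynomial.X j) * D w f
          = D (Equiv.swap i j * w) f
            - MvPolynomial.rename (⇑(Equiv.swap i j)) (D (Equiv.swap i j * w) f)) →
      (∀ (w : Equiv.Perm (Fin n)) (f g : MvPolynomial (Fin n) ℤ),
        D w (f * g) = ∑ v : Equiv.Perm (Fin n), E w v f * D v g) →
      ∀ (u v w : Equiv.Perm (Fin n)) (m : Fin n →₀ ℕ),
        0 ≤ MvPolynomial.coeff m
          (E w v (D (u⁻¹ * Fin.revPerm)
            (∏ i : Fin n, MvPolynomial.X i ^ (n - 1 - (i : ℕ))))) := by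
  refine Q160.Red.frozen_of_pos (Pool.Agent.Q160.SK.pos_of (Pool.Agent.Q160.SK.t_STEP
    Pool.Agent.Q178.SK.t_REL Pool.Agent.Q178.SK.t_STA (Pool.Agent.Q151.SK.t_SPA Pool.Agent.Q178.SK.t_REL)
    Pool.Agent.Q151.SK.t_FIN (Pool.Agent.Q178.SK.t_SYM Pool.Agent.Q151.SK.t_FIN)
    (Pool.Agent.Q178.SK.t_DIM Pool.Agent.Q151.SK.t_FIN)
    Pool.Agent.Q198.SK.t_GEN
    Pool.Agent.Q198.SK.t_VAN (Pool.Agent.Q151.SK.t_PRK Pool.Agent.Q198.SK.t_NOE)
    Pool.Agent.Q151.SK.t_TWI Pool.Agent.Q151.SK.t_GFU Pool.Agent.Q151.SK.t_LIM)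
    Pool.Agent.Q151.SK.BAS.t_BAS Pool.Agent.Q151.SK.DIA.t_DIA)

end Pool.Agent.S10395
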