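import Pool.Statements.S11006
import Pool.Agent.Q44.Ehr.Trivial

set_option autoImplicit false
open scoped Pointwise
open Pool Pool.MP_b7cbb2_co

namespace Pool.Agent.S11006

open Q44.Ehr

/-- the involution as an invertible matrix -/
def sw : Matrix.GeneralLinearGroup (Fin 4) ℤ := ⟨A, A, A_mul, A_mul⟩

theorem sw_mul : sw * sw = 1 := Units.ext A_mul

/-- the action of the group with two elements -/
def rho : ℤˣ →* Matrix.GeneralLinearGroup (Fin 4) ℤ where
  toFun u := if u = 1 then 1 else sw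
  map_one' := by simp
  map_mul' := by
    intro a b
    rcases Int.units_eq_one_or a with rfl | rfl <;> rcases Int.units_eq_one_or b with rfl | rfl
    · simp
    · simp
    · simp
    · have h : (-1 : ℤˣ) ≠ 1 := by decide
      rw [if_neg h, sw_mul]
      simp

theorem rho_one : (rho 1 : Matrix (Fin 4) (Fin 4) ℤ) = 1 := by
  rw [map_one]; rfl

theorem rho_neg : (rho (-1) : Matrix (Fin 4) (Fin 4) ℤ) = A := by
  have h : (-1 : ℤˣ) ≠ 1 := by decide
  have h2 : rho (-1) = sw := by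
    show (if (-1 : ℤˣ) = 1 then 1 else sw) = sw
    rw [if_neg h]
  rw [h2]; rfl

theorem V_inv (g : ℤˣ) (x : Fin 4 → ℤ) (hx : x ∈ V) :
    Matrix.mulVec (rho g : Matrix (Fin 4) (Fin 4) ℤ) x ∈ V := by
  rcases Int.units_eq_one_or g with rfl | rfl
  · rw [rho_one, Matrix.one_mulVec]; exact hx
  · rw [rho_neg, A_mulVec]
    rw [V, Finset.mem_image] at hx ⊢
    obtain ⟨i, _, rfl⟩ := hx
    fin_cases i
    · exact ⟨3, Finset.mem_univ _, by decide⟩
    · exact ⟨4, Finset.mem_univ _, by decide⟩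
    · exact ⟨5, Finset.mem_univ _, by decide⟩
    · exact ⟨0, Finset.mem_univ _, by decide⟩
    · exact ⟨1, Finset.mem_univ _, by decide⟩
    · exact ⟨2, Finset.mem_univ _, by decide⟩

theorem span_top : vectorSpan ℝ P = ⊤ := by
  have hP : ∀ i, (fun j => ((v i j : ℤ) : ℝ)) ∈ P := fun i => subset_convexHull ℝ _ (v_mem i)
  have h : ∀ i k, (fun j => ((v i j : ℤ) : ℝ)) -ᵥ (fun j => ((v k j : ℤ) : ℝ)) ∈ vectorSpan ℝ P :=
    fun i k => vsub_mem_vectorSpan ℝ (hP i) (hP k)
  rw [eq_top_iff]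
  intro x _
  have e : x = x 0 • ((fun j => ((v 5 j : ℤ) : ℝ)) -ᵥ (fun j => ((v 1 j : ℤ) : ℝ))) +
      (x 1 • ((fun j => ((v 5 j : ℤ) : ℝ)) -ᵥ (fun j => ((v 0 j : ℤ) : ℝ))) +
      (x 2 • ((fun j => ((v 2 j : ℤ) : ℝ)) -ᵥ (fun j => ((v 4 j : ℤ) : ℝ))) +
      x 3 • ((fun j => ((v 2 j : ℤ) : ℝ)) -ᵥ (fun j => ((v 3 j : ℤ) : ℝ))))) := by
    funext j
    fin_cases j <;> simp [v]
  rw [e]
  exact Submodule.add_mem _ (Submodule.smul_mem _ _ (h _ _)) (Submodule.add_mem _
    (Submodule.smul_mem _ _ (h _ _)) (Submodule.add_mem _ (Submodule.smul_mem _ _ (h _ _))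
      (Submodule.smul_mem _ _ (h _ _))))

theorem det_one : Matrix.det (1 - (Polynomial.X : Polynomial ℤ) •
    (1 : Matrix (Fin 4) (Fin 4) ℤ).map Polynomial.C) = (1 - Polynomial.X) ^ 4 := by
  have h : (1 : Matrix (Fin 4) (Fin 4) ℤ).map (Polynomial.C : ℤ →+* Polynomial ℤ) = 1 :=
    Matrix.map_one _ (map_zero _) (map_one _)
  rw [h]
  have e : (1 - (Polynomial.X : Polynomial ℤ) • (1 : Matrix (Fin 4) (Fin 4) (Polynomial ℤ))) =
      (1 - Polynomial.X : Polynomial ℤ) • (1 : Matrix (Fin 4) (Fin 4) (Polynomial ℤ)) := by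
    rw [sub_smul, one_smul]
  rw [e, Matrix.det_smul, Matrix.det_one]
  simp

theorem det_A : Matrix.det (1 - (Polynomial.X : Polynomial ℤ) • A.map Polynomial.C) =
    (1 - Polynomial.X ^ 2) ^ 2 := by
  have e : (1 - (Polynomial.X : Polynomial ℤ) • A.map Polynomial.C) =
      !![1, 0, -Polynomial.X, 0; 0, 1, 0, -Polynomial.X; -Polynomial.X, 0, 1, 0;
        0, -Polynomial.X, 0, 1] := by
    ext i j : 2
    fin_cases i <;> fin_cases j <;> simp [A]
  rw [e]
  simp [Matrix.det_succ_row_zero, Fin.sum_univ_succ, Fin.succAbove]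
  ring

/-- The negation of the preceding statement: For any finite group acting linearly on Z^n and invariant lattice polytope P whose equivariant h*-series is a polynomial, every coefficient with positive h*_i has nonzero sum over the group, i.e. contains the trivial representation. -/
theorem result :
    ¬ (∀ (G : Type) [Group G] [Fintype G] (n : ℕ)
      (ρ : G →* Matrix.GeneralLinearGroup (Fin n) ℤ)
      (V : Finset (Fin n → ℤ)) (P : Set (Fin n → ℝ)),
      V.Nonempty →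
      (∀ g : G, ∀ v ∈ V,
        Matrix.mulVec (ρ g : Matrix (Fin n) (Fin n) ℤ) v ∈ V) →
      P = convexHull ℝ
        ((fun v : Fin n → ℤ => fun j => ((v j : ℤ) : ℝ)) '' (V : Set (Fin n → ℤ))) →
      ∀ (d : ℕ) (ι : (Fin d → ℤ) →ₗ[ℤ] (Fin n → ℤ))
        (σ : G → Matrix (Fin d) (Fin d) ℤ) (Φ : G → PowerSeries ℤ),
      Function.Injective ι →
      (∀ x : Fin n → ℤ,
        (∃ y : Fin d → ℤ, ι y = x) ↔
          (fun j => ((x j : ℤ) : ℝ)) ∈ vectorSpan ℝ P) →
      (∀ (g : G) (y : Fin d → ℤ),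
        ι (Matrix.mulVec (σ g) y) =
          Matrix.mulVec (ρ g : Matrix (Fin n) (Fin n) ℤ) (ι y)) →
      (∀ g : G, Φ g =
        PowerSeries.mk (fun m : ℕ =>
          ((Set.ncard {x : Fin n → ℤ |
              (fun j => ((x j : ℤ) : ℝ)) ∈ (m : ℝ) • P ∧
              Matrix.mulVec (ρ g : Matrix (Fin n) (Fin n) ℤ) x = x} : ℕ) : ℤ))
        * (1 - PowerSeries.X)
        * ((Matrix.det (1 - (Polynomial.X : Polynomial ℤ) •
              (σ g).map Polynomial.C) : Polynomial ℤ) : PowerSeries ℤ)) →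
      (∃ N : ℕ, ∀ g : G, ∀ i : ℕ, N ≤ i →
        PowerSeries.coeff (R := ℤ) i (Φ g) = 0) →
      ∀ i : ℕ, 0 < PowerSeries.coeff (R := ℤ) i (Φ 1) →
        (∑ g : G, PowerSeries.coeff (R := ℤ) i (Φ g)) ≠ 0) := by
  intro H
  set Φ : ℤˣ → PowerSeries ℤ := fun g =>
    PowerSeries.mk (fun m : ℕ =>
          ((Set.ncard {x : Fin 4 → ℤ |
              (fun j => ((x j : ℤ) : ℝ)) ∈ (m : ℝ) • P ∧
              Matrix.mulVec (rho g : Matrix (Fin 4) (Fin 4) ℤ) x = x} : ℕ) : ℤ))
        * (1 - PowerSeries.X)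
        * ((Matrix.det (1 - (Polynomial.X : Polynomial ℤ) •
              (rho g : Matrix (Fin 4) (Fin 4) ℤ).map Polynomial.C) : Polynomial ℤ) :
                PowerSeries ℤ) with hΦ
  have h1 : Φ 1 = 1 + PowerSeries.X + PowerSeries.X ^ 2 := by
    rw [← ser_S]
    simp only [hΦ]
    rw [rho_one, det_one]
    have e : ∀ m : ℕ, {x : Fin 4 → ℤ | (fun j => ((x j : ℤ) : ℝ)) ∈ (m : ℝ) • P ∧
        Matrix.mulVec (1 : Matrix (Fin 4) (Fin 4) ℤ) x = x} = S m := by
      intro m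
      ext x
      simp only [Set.mem_ofPred_eq, Matrix.one_mulVec, and_true, mem_iff, S]
    simp only [e]
    push_cast
    ring
  have h2 : Φ (-1) = 1 - PowerSeries.X + PowerSeries.X ^ 2 := by
    rw [← ser_T]
    simp only [hΦ]
    rw [rho_neg, det_A]
    have e : ∀ m : ℕ, {x : Fin 4 → ℤ | (fun j => ((x j : ℤ) : ℝ)) ∈ (m : ℝ) • P ∧
        Matrix.mulVec A x = x} = T m := by
      intro m
      ext x
      simp only [Set.mem_ofPred_eq, mem_iff, T, S]
    simp only [e]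
    push_cast
    ring
  refine H ℤˣ 4 rho V P ⟨v 0, by simp [V]⟩ V_inv rfl 4 LinearMap.id
    (fun g => (rho g : Matrix (Fin 4) (Fin 4) ℤ)) Φ (fun a b h => h) ?_ (fun g y => rfl)
    (fun g => rfl) ⟨3, ?_⟩ 1 ?_ ?_
  · intro x
    rw [span_top]
    exact ⟨fun _ => Submodule.mem_top, fun _ => ⟨x, rfl⟩⟩
  · intro g i hi
    rcases Int.units_eq_one_or g with rfl | rfl
    · rw [h1]
      simp only [map_add, PowerSeries.coeff_one, PowerSeries.coeff_X, PowerSeries.coeff_X_pow]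
      rw [if_neg (by omega), if_neg (by omega), if_neg (by omega)]
      rfl
    · rw [h2]
      simp only [map_add, map_sub, PowerSeries.coeff_one, PowerSeries.coeff_X,
        PowerSeries.coeff_X_pow]
      rw [if_neg (by omega), if_neg (by omega), if_neg (by omega)]
      rfl
  · rw [h1]
    simp [PowerSeries.coeff_one, PowerSeries.coeff_X, PowerSeries.coeff_X_pow]
  · rw [UnitsInt.univ, Finset.sum_pair (by decide), h1, h2]
    simp [PowerSeries.coeff_one, PowerSeries.coeff_X, PowerSeries.coeff_X_pow]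

end Pool.Agent.S11006
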