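import Pool.Statements.S11127
import Pool.Agent.Q113.DegSecond

set_option autoImplicit false
open Pool Pool.MP_bd7745_co

namespace Pool.Agent.S11127

open Q113.Deg

/-- the numerical condition on the uniformity -/
def Cond (k n : ℕ) : Prop :=
  (((n - 2).choose (k - 1) : ℕ) : ℝ) ≤ (1 + 10 / n) * (((n - 4).choose (k - 1) : ℕ) : ℝ) ∧
  (((n - 2).choose (k - 1) : ℕ) : ℝ) ≤ 2 * (((n - 3).choose (k - 1) : ℕ) : ℝ) ∧
  (((n - 2).choose (k - 1) : ℕ) : ℝ) ≤ (n : ℝ) ^ 3 ∧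
  1 ≤ (n - 4).choose (k - 1) ∧ 1 ≤ (n - 3).choose (k - 1) ∧ 1 ≤ (n - 2).choose (k - 1)

theorem choose_two (m : ℕ) : (((m + 2).choose 2 : ℕ) : ℝ) = ((m : ℝ) + 2) * (m + 1) / 2 := by
  rw [Nat.cast_choose_two]; push_cast; ring

theorem choose_three (m : ℕ) :
    (((m + 3).choose 3 : ℕ) : ℝ) = ((m : ℝ) + 3) * (m + 2) * (m + 1) / 6 := by
  have h := Nat.descFactorial_eq_factorial_mul_choose (m + 3) 3
  have h2 : (m + 3).descFactorial 3 = (m + 1) * ((m + 2) * (m + 3)) := by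
    simp [Nat.descFactorial_succ]
  rw [h2] at h
  have h3 : (Nat.factorial 3) = 6 := rfl
  rw [h3] at h
  have h4 : (((m + 1) * ((m + 2) * (m + 3)) : ℕ) : ℝ) = ((6 * (m + 3).choose 3 : ℕ) : ℝ) := by
    exact_mod_cast h
  push_cast at h4
  linarith

theorem cond3 (n : ℕ) (hn : 100 ≤ n) : Cond 3 n := by
  obtain ⟨m, rfl⟩ : ∃ m, n = m + 6 := ⟨n - 6, by omega⟩
  have h2 : m + 6 - 2 = (m + 2) + 2 := by omega
  have h3 : m + 6 - 3 = (m + 1) + 2 := by omega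
  have h4 : m + 6 - 4 = m + 2 := by omega
  have hm : (94 : ℝ) ≤ m := by
    have : 94 ≤ m := by omega
    exact_mod_cast this
  unfold Cond
  rw [h2, h3, h4]
  simp only [Nat.reduceSub]
  rw [choose_two, choose_two, choose_two]
  push_cast
  refine ⟨?_, ?_, ?_, ?_, ?_, ?_⟩
  · have : (0 : ℝ) < (m : ℝ) + 6 := by linarith
    rw [← sub_nonneg]
    have e : (1 + 10 / ((m : ℝ) + 6)) * (((m : ℝ) + 2) * (m + 1) / 2) -
        ((m : ℝ) + 2 + 2) * (m + 2 + 1) / 2 =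
        ((m + 16) * (((m : ℝ) + 2) * (m + 1)) - (m + 6) * (((m : ℝ) + 2 + 2) * (m + 2 + 1))) /
          (2 * (m + 6)) := by
      field_simp
      ring
    rw [e]
    apply div_nonneg
    · nlinarith
    · positivity
  · nlinarith
  · nlinarith [pow_pos (show (0:ℝ) < m by linarith) 3, pow_pos (show (0:ℝ) < m by linarith) 2]
  · exact Nat.choose_pos (by omega)
  · exact Nat.choose_pos (by omega)
  · exact Nat.choose_pos (by omega)

theorem cond4 (n : ℕ) (hn : 100 ≤ n) : Cond 4 n := by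
  obtain ⟨m, rfl⟩ : ∃ m, n = m + 7 := ⟨n - 7, by omega⟩
  have h2 : m + 7 - 2 = (m + 2) + 3 := by omega
  have h3 : m + 7 - 3 = (m + 1) + 3 := by omega
  have h4 : m + 7 - 4 = m + 3 := by omega
  have hm : (93 : ℝ) ≤ m := by
    have : 93 ≤ m := by omega
    exact_mod_cast this
  unfold Cond
  rw [h2, h3, h4]
  simp only [Nat.reduceSub]
  rw [choose_three, choose_three, choose_three]
  push_cast
  refine ⟨?_, ?_, ?_, ?_, ?_, ?_⟩
  · have : (0 : ℝ) < (m : ℝ) + 7 := by linarith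
    rw [← sub_nonneg]
    have e : (1 + 10 / ((m : ℝ) + 7)) * (((m : ℝ) + 3) * (m + 2) * (m + 1) / 6) -
        ((m : ℝ) + 2 + 3) * (m + 2 + 2) * (m + 2 + 1) / 6 =
        (m + 3) * ((m + 17) * (((m : ℝ) + 2) * (m + 1)) - (m + 7) * (((m : ℝ) + 5) * (m + 4))) /
          (6 * (m + 7)) := by
      field_simp
      ring
    rw [e]
    apply div_nonneg
    · apply mul_nonneg (by linarith)
      nlinarith
    · positivity
  · nlinarith [pow_pos (show (0:ℝ) < m by linarith) 3, pow_pos (show (0:ℝ) < m by linarith) 2]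
  · nlinarith [pow_pos (show (0:ℝ) < m by linarith) 3, pow_pos (show (0:ℝ) < m by linarith) 2]
  · exact Nat.choose_pos (by omega)
  · exact Nat.choose_pos (by omega)
  · exact Nat.choose_pos (by omega)

theorem poly_aux (s : ℝ) (h : 10 ≤ s) : 0 ≤ 196 * s ^ 4 - 44 * s ^ 3 - 400 * s ^ 2 + s + 200 := by
  have h1 : 0 ≤ 196 * s ^ 2 - 44 * s - 400 := by nlinarith
  have h2 : 0 ≤ s ^ 2 * (196 * s ^ 2 - 44 * s - 400) := mul_nonneg (by positivity) h1
  have h3 : s ^ 2 * (196 * s ^ 2 - 44 * s - 400) = 196 * s ^ 4 - 44 * s ^ 3 - 400 * s ^ 2 := by ring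
  linarith

/-- the final estimate -/
theorem lower (k n : ℕ) (hk : 1 ≤ k) (hn : 100 ≤ n) (hc : Cond k n) :
    1 / (1 + 200 / Real.sqrt n) ≤
      (((Pk n k).powerset.filter (fun H => ∃ v w : Fin n, v ≠ w ∧ dg H v = dg H w)).card : ℝ) /
        2 ^ (Pk n k).card := by
  obtain ⟨c1, c2, c3, c4, c5, c6⟩ := hc
  have hs := second_moment (n := n) k hk
  set M := (n - 2).choose (k - 1) with hM
  set N4 := (n - 4).choose (k - 1) with hN4
  set N3 := (n - 3).choose (k - 1) with hN3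
  set F := (((Pk n k).powerset.filter (fun H => ∃ v w : Fin n, v ≠ w ∧ dg H v = dg H w)).card : ℝ) /
        2 ^ (Pk n k).card with hF
  have hF0 : 0 ≤ F := by positivity
  have hp := pc_pos M
  have hp2 : 0 < pc M ^ 2 := by positivity
  have hn' : (100 : ℝ) ≤ n := by exact_mod_cast hn
  have hM' : (1 : ℝ) ≤ M := by exact_mod_cast c6
  have hN4' : (1 : ℝ) ≤ N4 := by exact_mod_cast c4
  have hN3' : (1 : ℝ) ≤ N3 := by exact_mod_cast c5
  set s := Real.sqrt n with hsdef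
  have hs2 : s ^ 2 = n := Real.sq_sqrt (by linarith)
  have hs0 : 0 ≤ s := Real.sqrt_nonneg _
  have hs10 : 10 ≤ s := by
    rw [hsdef]; apply Real.le_sqrt_of_sq_le
    have e : (10 : ℝ) ^ 2 = 100 := by norm_num
    rw [e]; exact hn'
  -- bounds relative to pc M ^ 2
  have hle : N4 ≤ M := Nat.choose_le_choose _ (by omega)
  have b4 : pc N4 ^ 2 ≤ (1 + 10 / n) * pc M ^ 2 := by
    have h1 := pc_mono hle
    have h2 : pc M ^ 2 * M ≤ pc M ^ 2 * ((1 + 10 / n) * N4) := mul_le_mul_of_nonneg_left c1 hp2.le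
    have h3 : pc N4 ^ 2 * N4 ≤ ((1 + 10 / n) * pc M ^ 2) * N4 := by linarith
    exact le_of_mul_le_mul_right h3 (by linarith)
  have b3 : qc N3 ^ 2 ≤ 8 * pc M ^ 2 := by
    have h1 := qc_sq N3
    have h2 := pc_lower M c6
    have h3 : pc M ^ 2 * M ≤ pc M ^ 2 * (2 * N3) := mul_le_mul_of_nonneg_left c2 hp2.le
    have h4 : qc N3 ^ 2 * N3 ≤ (8 * pc M ^ 2) * N3 := by linarith
    exact le_of_mul_le_mul_right h4 (by linarith)
  have b2 : pc M ≤ 2 * s ^ 3 * pc M ^ 2 := by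
    have h2 := pc_lower M c6
    have h3 : pc M ^ 2 * M ≤ pc M ^ 2 * (n : ℝ) ^ 3 := mul_le_mul_of_nonneg_left c3 hp2.le
    have h4 : 1 ≤ (2 * s ^ 3 * pc M) ^ 2 := by
      have : (2 * s ^ 3 * pc M) ^ 2 = 4 * (pc M ^ 2 * (s ^ 2) ^ 3) := by ring
      rw [this, hs2]; linarith
    have h5 : 1 ≤ 2 * s ^ 3 * pc M := by
      have : 0 ≤ 2 * s ^ 3 * pc M := by positivity
      nlinarith
    nlinarith
  -- combine
  have hn0 : (0 : ℝ) < n := by linarith
  have hB : (n : ℝ) ^ 4 * pc N4 ^ 2 + 4 * (n : ℝ) ^ 3 * qc N3 ^ 2 + 2 * (n : ℝ) ^ 2 * pc M ≤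
      pc M ^ 2 * ((n : ℝ) ^ 4 + 10 * n ^ 3 + 32 * n ^ 3 + 4 * n ^ 2 * s ^ 3) := by
    have e1 : (n : ℝ) ^ 4 * pc N4 ^ 2 ≤ (n : ℝ) ^ 4 * ((1 + 10 / n) * pc M ^ 2) :=
      mul_le_mul_of_nonneg_left b4 (by positivity)
    have e2 : 4 * (n : ℝ) ^ 3 * qc N3 ^ 2 ≤ 4 * (n : ℝ) ^ 3 * (8 * pc M ^ 2) :=
      mul_le_mul_of_nonneg_left b3 (by positivity)
    have e3 : 2 * (n : ℝ) ^ 2 * pc M ≤ 2 * (n : ℝ) ^ 2 * (2 * s ^ 3 * pc M ^ 2) :=
      mul_le_mul_of_nonneg_left b2 (by positivity)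
    have e4 : (n : ℝ) ^ 4 * ((1 + 10 / n) * pc M ^ 2) = pc M ^ 2 * ((n : ℝ) ^ 4 + 10 * n ^ 3) := by
      field_simp
    linarith
  have hmain : ((n : ℝ) * (n - 1)) ^ 2 ≤
      F * ((n : ℝ) ^ 4 + 10 * n ^ 3 + 32 * n ^ 3 + 4 * n ^ 2 * s ^ 3) := by
    have h1 := hs.trans (mul_le_mul_of_nonneg_left hB hF0)
    have h2 : ((n : ℝ) * (n - 1) * pc M) ^ 2 = ((n : ℝ) * (n - 1)) ^ 2 * pc M ^ 2 := by ring
    rw [h2] at h1
    have h3 : ((n : ℝ) * (n - 1)) ^ 2 * pc M ^ 2 ≤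
      (F * ((n : ℝ) ^ 4 + 10 * n ^ 3 + 32 * n ^ 3 + 4 * n ^ 2 * s ^ 3)) * pc M ^ 2 := by
      linarith
    exact le_of_mul_le_mul_right h3 hp2
  -- in terms of s
  have hs1 : (0 : ℝ) < s := by linarith
  have e5 : 1 / (1 + 200 / s) = s / (s + 200) := by field_simp
  rw [e5, div_le_iff₀ (by linarith)]
  -- s ≤ F (s + 200)
  have hpos : 0 < (n : ℝ) ^ 4 + 10 * n ^ 3 + 32 * n ^ 3 + 4 * n ^ 2 * s ^ 3 := by positivity
  have h6 : s * ((n : ℝ) ^ 4 + 10 * n ^ 3 + 32 * n ^ 3 + 4 * n ^ 2 * s ^ 3) ≤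
      (s + 200) * ((n : ℝ) * (n - 1)) ^ 2 := by
    rw [← hs2]
    have e6 : (s + 200) * (s ^ 2 * (s ^ 2 - 1)) ^ 2 -
        s * ((s ^ 2) ^ 4 + 10 * (s ^ 2) ^ 3 + 32 * (s ^ 2) ^ 3 + 4 * (s ^ 2) ^ 2 * s ^ 3) =
        s ^ 4 * (196 * s ^ 4 - 44 * s ^ 3 - 400 * s ^ 2 + s + 200) := by ring
    have e7 : 0 ≤ 196 * s ^ 4 - 44 * s ^ 3 - 400 * s ^ 2 + s + 200 := poly_aux s hs10
    have e8 := mul_nonneg (pow_pos hs1 4).le e7
    linarith
  have h200 : 0 ≤ s + 200 := by linarith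
  generalize (n : ℝ) ^ 4 + 10 * n ^ 3 + 32 * n ^ 3 + 4 * n ^ 2 * s ^ 3 = D at hmain hpos h6
  have h7 : (s + 200) * ((n : ℝ) * (n - 1)) ^ 2 ≤ (s + 200) * (F * D) :=
    mul_le_mul_of_nonneg_left hmain h200
  have h8 : s * D ≤ (F * (s + 200)) * D := by
    calc s * D ≤ (s + 200) * ((n : ℝ) * (n - 1)) ^ 2 := h6
      _ ≤ (s + 200) * (F * D) := h7
      _ = (F * (s + 200)) * D := by ring
  exact le_of_mul_le_mul_right h8 hpos

theorem tends : Filter.Tendsto (fun n : ℕ => 1 / (1 + 200 / Real.sqrt n)) Filter.atTop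
    (nhds (1 : ℝ)) := by
  have h1 : Filter.Tendsto (fun n : ℕ => Real.sqrt n) Filter.atTop Filter.atTop :=
    Real.tendsto_sqrt_atTop.comp tendsto_natCast_atTop_atTop
  have h2 : Filter.Tendsto (fun n : ℕ => 200 / Real.sqrt n) Filter.atTop (nhds (0 : ℝ)) :=
    h1.const_div_atTop 200
  have h3 := (h2.const_add (1 : ℝ)).inv₀ (by norm_num)
  simpa using h3

/-- For k = 3 and k = 4: among all k-uniform hypergraphs on n labelled vertices, the fraction having two distinct vertices of equal degree tends to 1 as n → ∞. -/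
theorem result :
    ∀ k : ℕ, (k = 3 ∨ k = 4) →
      Filter.Tendsto
        (fun n : ℕ =>
          ((((Finset.univ : Finset (Fin n)).powersetCard k).powerset.filter
              (fun H => ∃ v w : Fin n, v ≠ w ∧
                (H.filter (fun e => v ∈ e)).card = (H.filter (fun e => w ∈ e)).card)).card : ℝ)
            / ((((Finset.univ : Finset (Fin n)).powersetCard k).powerset.card : ℝ)))
        Filter.atTop (nhds 1) := by
  intro k hk
  have hcond : ∀ n : ℕ, 100 ≤ n → Cond k n := by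
    rcases hk with rfl | rfl
    · exact cond3
    · exact cond4
  have hk1 : 1 ≤ k := by omega
  refine tendsto_of_tendsto_of_tendsto_of_le_of_le' tends tendsto_const_nhds ?_ ?_
  · filter_upwards [Filter.eventually_ge_atTop 100] with n hn
    have h := lower k n hk1 hn (hcond n hn)
    refine h.trans (le_of_eq ?_)
    rw [Finset.card_powerset]
    push_cast
    rfl
  · filter_upwards with n
    apply div_le_one_of_le₀
    · exact_mod_cast Finset.card_filter_le _ _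
    · positivity

end Pool.Agent.S11127
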