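import Pool.Statements.S11238

set_option autoImplicit false
open Pool Pool.MP_c1e4cd_co

namespace Pool.Agent.S11238

open Finset Equiv

/-- permutations with prescribed values at two points -/
def pc {n : ℕ} (i j a b : Fin n) : Finset (Perm (Fin n)) :=
  univ.filter fun σ => σ i = a ∧ σ j = b

lemma exists_perm {n : ℕ} {a b a' b' : Fin n} (h : a ≠ b) (h' : a' ≠ b') :
    ∃ τ : Perm (Fin n), τ a = a' ∧ τ b = b' := by
  refine ⟨Equiv.swap (Equiv.swap a a' b) b' * Equiv.swap a a', ?_, ?_⟩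
  · rw [Perm.mul_apply, swap_apply_left]
    apply swap_apply_of_ne_of_ne
    · intro e
      rw [eq_comm, ← Equiv.eq_symm_apply, symm_swap, swap_apply_right] at e
      exact h e.symm
    · exact h'
  · rw [Perm.mul_apply, swap_apply_left]

lemma pc_card_eq {n : ℕ} (i j : Fin n) {a b a' b' : Fin n} (h : a ≠ b) (h' : a' ≠ b') :
    (pc i j a b).card = (pc i j a' b').card := by
  obtain ⟨τ, h1, h2⟩ := exists_perm h h'
  refine card_bij (fun σ _ => τ * σ) ?_ ?_ ?_
  · intro σ hσ
    simp only [pc, mem_filter, mem_univ, true_and, Perm.mul_apply] at hσ ⊢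
    rw [hσ.1, hσ.2]
    exact ⟨h1, h2⟩
  · intro σ _ σ' _ e
    exact mul_left_cancel e
  · intro σ hσ
    refine ⟨τ⁻¹ * σ, ?_, by simp⟩
    simp only [pc, mem_filter, mem_univ, true_and, Perm.mul_apply] at hσ ⊢
    rw [hσ.1, hσ.2, ← h1, ← h2]
    simp

lemma sum_pc {n : ℕ} (i j : Fin n) (f : Fin n → Fin n → ℝ) :
    ∑ σ : Perm (Fin n), f (σ i) (σ j) = ∑ a, ∑ b, ((pc i j a b).card : ℝ) * f a b := by
  have h1 : ∀ σ : Perm (Fin n), f (σ i) (σ j) =
      ∑ a, ∑ b, (if σ i = a ∧ σ j = b then (1:ℝ) else 0) * f a b := by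
    intro σ
    rw [Finset.sum_eq_single (σ i), Finset.sum_eq_single (σ j)]
    · simp
    · intro b _ hb
      rw [if_neg (by rintro ⟨-, e⟩; exact hb e.symm), zero_mul]
    · simp
    · intro a _ ha
      apply Finset.sum_eq_zero
      intro b _
      rw [if_neg (by rintro ⟨e, -⟩; exact ha e.symm), zero_mul]
    · simp
  rw [Finset.sum_congr rfl (fun σ _ => h1 σ), Finset.sum_comm]
  refine Finset.sum_congr rfl fun a _ => ?_
  rw [Finset.sum_comm]
  refine Finset.sum_congr rfl fun b _ => ?_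
  rw [← Finset.sum_mul, Finset.sum_boole]
  rfl

lemma pc_self {n : ℕ} {i j : Fin n} (hij : i ≠ j) (a : Fin n) : (pc i j a a).card = 0 := by
  rw [card_eq_zero, pc, filter_eq_empty_iff]
  rintro σ - ⟨h1, h2⟩
  exact hij (σ.injective (h1.trans h2.symm))

lemma pc_card {n : ℕ} {i j : Fin n} (hij : i ≠ j) {a b : Fin n} (hab : a ≠ b) :
    ((n : ℝ) * (n - 1)) * ((pc i j a b).card : ℝ) = n.factorial := by
  have h := sum_pc i j (fun _ _ => (1 : ℝ))
  rw [Finset.sum_const, Finset.card_univ, Fintype.card_perm, Fintype.card_fin] at h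
  simp only [nsmul_eq_mul, mul_one] at h
  rw [h]
  have h2 : ∀ a' : Fin n, ∑ b', ((pc i j a' b').card : ℝ) = (n - 1) * ((pc i j a b).card : ℝ) := by
    intro a'
    rw [← Finset.add_sum_erase univ _ (mem_univ a'), pc_self hij, Nat.cast_zero, zero_add]
    rw [Finset.sum_congr rfl (fun b' hb' => by
      rw [pc_card_eq i j (a := a') (b := b') (a' := a) (b' := b) (ne_of_mem_erase hb').symm hab])]
    rw [Finset.sum_const, card_erase_of_mem (mem_univ _), card_univ, Fintype.card_fin, nsmul_eq_mul]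
    rw [Nat.cast_sub (by have := a.pos; omega)]
    simp
  rw [Finset.sum_congr rfl (fun a' _ => h2 a'), Finset.sum_const, card_univ, Fintype.card_fin,
    nsmul_eq_mul]
  ring

/-- expectation of a function of two values of a random permutation -/
lemma sum_formula {n : ℕ} {i j : Fin n} (hij : i ≠ j) (f : Fin n → Fin n → ℝ)
    (hf : ∀ a, f a a = 0) :
    ((n : ℝ) * (n - 1)) * ∑ σ : Perm (Fin n), f (σ i) (σ j) = n.factorial * ∑ a, ∑ b, f a b := by
  rw [sum_pc, Finset.mul_sum, Finset.mul_sum]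
  refine Finset.sum_congr rfl fun a _ => ?_
  rw [Finset.mul_sum, Finset.mul_sum]
  refine Finset.sum_congr rfl fun b _ => ?_
  by_cases hab : a = b
  · subst hab; rw [hf]; ring
  · rw [← pc_card hij hab]; ring

/-- The negation of the preceding statement: Some C₀>0 works for all n≥1: if A⊆S_n, c=∣A∣/(n-1)!, and 1_A is within mean-square εc/n of the span of 1-coset indicators, then 1_A is within C₀εc/n of a union of round(c) distinct 1-cosets, and ∣c−round(c)∣≤C₀ε. -/
theorem result :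
    ¬ (∃ C₀ : ℝ, 0 < C₀ ∧ ∀ n : ℕ, 1 ≤ n → ∀ A : Finset (Equiv.Perm (Fin n)), ∀ ε : ℝ, 0 ≤ ε →
    (∃ a : Fin n → Fin n → ℝ,
      (1 / (n.factorial : ℝ)) * ∑ σ : Equiv.Perm (Fin n),
          ((if σ ∈ A then (1:ℝ) else 0) - ∑ i : Fin n, a i (σ i)) ^ 2
        ≤ ε * ((A.card : ℝ) / ((n - 1).factorial : ℝ)) / n) →
    ∃ S : Finset (Fin n × Fin n),
      (S.card : ℤ) = round ((A.card : ℝ) / ((n - 1).factorial : ℝ)) ∧
      (1 / (n.factorial : ℝ)) * ∑ σ : Equiv.Perm (Fin n),
          ((if σ ∈ A then (1:ℝ) else 0) - (if ∃ p ∈ S, σ p.1 = p.2 then (1:ℝ) else 0)) ^ 2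
        ≤ C₀ * ε * ((A.card : ℝ) / ((n - 1).factorial : ℝ)) / n ∧
      |(A.card : ℝ) / ((n - 1).factorial : ℝ)
          - ((round ((A.card : ℝ) / ((n - 1).factorial : ℝ)) : ℤ) : ℝ)| ≤ C₀ * ε) := by
  rintro ⟨C₀, hC₀, H⟩
  obtain ⟨s, hs⟩ := exists_nat_gt (C₀ + 1)
  have hs1 : (1 : ℝ) < s := by linarith
  have hs0 : (0 : ℝ) < s := by linarith
  have hs2 : 2 ≤ s := by exact_mod_cast hs1
  obtain ⟨n, hn⟩ : ∃ n, n = 2 * s ^ 2 + 1 := ⟨_, rfl⟩
  have hn2 : 2 * s ≤ n := by nlinarith
  have hn4 : 4 ≤ n := by nlinarith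
  let i0 : Fin n := ⟨0, by omega⟩
  let i1 : Fin n := ⟨1, by omega⟩
  have h01 : i0 ≠ i1 := by
    intro h; exact absurd (congrArg Fin.val h) (by simp [i0, i1])
  let J1 : Finset (Fin n) := univ.filter fun x => x.val < s
  let J2 : Finset (Fin n) := univ.filter fun x => s ≤ x.val ∧ x.val < 2 * s
  have hJ1 : J1.card = s := by
    have : J1 = (Finset.range s).attachFin (fun m hm => by have := mem_range.1 hm; omega) := by
      ext x
      simp only [J1, mem_filter, mem_univ, true_and, mem_attachFin, mem_range]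
    rw [this, card_attachFin, card_range]
  have hJ2 : J2.card = s := by
    have : J2 = (Finset.Ico s (2 * s)).attachFin (fun m hm => by have := mem_Ico.1 hm; omega) := by
      ext x
      simp only [J2, mem_filter, mem_univ, true_and, mem_attachFin, mem_Ico]
    rw [this, card_attachFin, Nat.card_Ico]
    omega
  have hdis : ∀ x, x ∈ J1 → x ∉ J2 := by
    intro x h1 h2
    simp only [J1, J2, mem_filter, mem_univ, true_and] at h1 h2
    omega
  have hnR : (n : ℝ) = 2 * s ^ 2 + 1 := by rw [hn]; push_cast; ring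
  have hnpos : (0 : ℝ) < n := by rw [hnR]; positivity
  have hn1 : (0:ℝ) < (n:ℝ) - 1 := by
    rw [hnR]
    have := pow_pos hs0 2
    linarith
  have hfac : (0 : ℝ) < n.factorial := by exact_mod_cast n.factorial_pos
  have hfac1 : (0 : ℝ) < (n - 1).factorial := by exact_mod_cast (n - 1).factorial_pos
  have hfacs : (n.factorial : ℝ) = n * (n - 1).factorial := by
    rw [← Nat.mul_factorial_pred (by omega : n ≠ 0)]; push_cast; ring
  let A : Finset (Perm (Fin n)) := univ.filter fun σ => σ i0 ∈ J1 ∨ σ i1 ∈ J2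
  let u : Fin n → ℝ := fun x => if x ∈ J1 then 1 else 0
  let v : Fin n → ℝ := fun x => if x ∈ J2 then 1 else 0
  have hsu : ∑ x, u x = s := by
    simp only [u]; rw [Finset.sum_boole]
    rw [show (univ.filter fun x => x ∈ J1) = J1 by ext x; simp, hJ1]
  have hsv : ∑ x, v x = s := by
    simp only [v]; rw [Finset.sum_boole]
    rw [show (univ.filter fun x => x ∈ J2) = J2 by ext x; simp, hJ2]
  have huv : ∀ x, u x * v x = 0 := by
    intro x
    simp only [u, v]
    by_cases h1 : x ∈ J1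
    · rw [if_neg (hdis x h1), mul_zero]
    · rw [if_neg h1, zero_mul]
  -- the sums
  have hprod : ∑ σ : Perm (Fin n), u (σ i0) * v (σ i1) = (n - 1).factorial / 2 := by
    have h := sum_formula h01 (fun a b => u a * v b) huv
    have h2 : ∑ a, ∑ b, u a * v b = (s : ℝ) ^ 2 := by
      rw [← Finset.sum_mul_sum, hsu, hsv]; ring
    rw [h2, hfacs] at h
    have h3 : ((n : ℝ) - 1) = 2 * s ^ 2 := by rw [hnR]; ring
    rw [h3] at h
    have h4 : (n : ℝ) * s ^ 2 * (2 * ∑ σ : Perm (Fin n), u (σ i0) * v (σ i1)) =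
        n * s ^ 2 * (n - 1).factorial := by linarith
    have h5 := mul_left_cancel₀ (by positivity : (n : ℝ) * s ^ 2 ≠ 0) h4
    linarith
  have hone : ∀ (i : Fin n) (w : Fin n → ℝ),
      ∑ σ : Perm (Fin n), w (σ i) = (n - 1).factorial * ∑ x, w x := by
    intro i w
    obtain ⟨j, hj⟩ : ∃ j : Fin n, i ≠ j := by
      by_cases h : i = i0
      · exact ⟨i1, by rw [h]; exact h01⟩
      · exact ⟨i0, h⟩
    have h := sum_formula hj (fun a b => if a = b then 0 else w a) (by simp)
    have h2 : ∀ σ : Perm (Fin n), (if σ i = σ j then (0:ℝ) else w (σ i)) = w (σ i) := by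
      intro σ
      rw [if_neg]
      intro e; exact hj (σ.injective e)
    rw [Finset.sum_congr rfl (fun σ _ => h2 σ)] at h
    have h3 : ∀ a, ∑ b, (if a = b then (0:ℝ) else w a) = (n - 1) * w a := by
      intro a
      have : ∀ b, (if a = b then (0:ℝ) else w a) = w a - (if a = b then w a else 0) := by
        intro b; split_ifs <;> simp
      rw [Finset.sum_congr rfl (fun b _ => this b), Finset.sum_sub_distrib]
      simp
      ring
    rw [Finset.sum_congr rfl (fun a _ => h3 a), ← Finset.mul_sum, hfacs] at h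
    have h4 : (n : ℝ) * (n - 1) * ∑ σ : Perm (Fin n), w (σ i) =
      (n * (n - 1)) * ((n - 1).factorial * ∑ x, w x) := by linarith
    exact mul_left_cancel₀ (by positivity) h4
  have hind : ∀ σ : Perm (Fin n), (if σ ∈ A then (1:ℝ) else 0) =
      u (σ i0) + v (σ i1) - u (σ i0) * v (σ i1) := by
    intro σ
    simp only [A, u, v, mem_filter, mem_univ, true_and]
    by_cases h1 : σ i0 ∈ J1 <;> by_cases h2 : σ i1 ∈ J2 <;> simp [h1, h2]
  have hA : (A.card : ℝ) = (2 * s - 1 / 2) * (n - 1).factorial := by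
    have : (A.card : ℝ) = ∑ σ : Perm (Fin n), (if σ ∈ A then (1:ℝ) else 0) := by
      rw [Finset.sum_boole]; congr 2; ext x; simp
    rw [this, Finset.sum_congr rfl (fun σ _ => hind σ), Finset.sum_sub_distrib,
      Finset.sum_add_distrib, hprod, hone i0 u, hone i1 v, hsu, hsv]
    ring
  have hc : (A.card : ℝ) / ((n - 1).factorial : ℝ) = 2 * s - 1 / 2 := by
    rw [hA]; field_simp
  obtain ⟨S, -, -, h3⟩ := H n (by omega) A (1 / (4 * s - 1)) (by
    apply div_nonneg <;> linarith) ⟨fun i x => (if i = i0 then u x else 0) + (if i = i1 then v x else 0), by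
      have h1 : ∀ σ : Perm (Fin n), ((if σ ∈ A then (1:ℝ) else 0) - ∑ i : Fin n,
          ((if i = i0 then u (σ i) else 0) + (if i = i1 then v (σ i) else 0))) ^ 2 =
          u (σ i0) * v (σ i1) := by
        intro σ
        rw [hind, Finset.sum_add_distrib, Finset.sum_ite_eq' univ i0 (fun i => u (σ i)),
          Finset.sum_ite_eq' univ i1 (fun i => v (σ i)), if_pos (mem_univ _), if_pos (mem_univ _)]
        simp only [u, v]
        by_cases h1 : σ i0 ∈ J1 <;> by_cases h2 : σ i1 ∈ J2 <;> simp [h1, h2]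
      rw [Finset.sum_congr rfl (fun σ _ => h1 σ), hprod, hc, hfacs]
      have h4s : (0:ℝ) < 4 * s - 1 := by linarith
      apply le_of_eq
      field_simp
      ring⟩
  rw [hc] at h3
  have hr : round ((2:ℝ) * s - 1 / 2) = 2 * (s : ℤ) := by
    rw [round_eq, Int.floor_eq_iff]
    push_cast
    constructor <;> linarith
  rw [hr] at h3
  push_cast at h3
  rw [show (2:ℝ) * s - 1 / 2 - 2 * s = -(1/2) by ring, abs_neg, abs_of_pos (by norm_num)] at h3
  have h4s : (0:ℝ) < 4 * s - 1 := by linarith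
  rw [mul_one_div, le_div_iff₀ h4s] at h3
  linarith

end Pool.Agent.S11238
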