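import Pool.Statements.S11473
import Pool.Agent.Q32.LMD.Main

set_option autoImplicit false
open Pool Pool.MP_cc29fe_co

namespace Pool.Agent.S11473

/-- Every finite connected graph with n vertices and clique number ω, where n ≥ ω+1 ≥ 4, has a set of at most (ω−2)/(ω−1)·n vertices distinguishing every adjacent pair by distance, i.e. local metric dimension ≤ (ω−2)n/(ω−1). -/
theorem result :
    ∀ (V : Type) [Fintype V] (G : SimpleGraph V), G.Connected →
      ∀ ω : ℕ, (∃ s : Finset V, G.IsNClique ω s) → G.CliqueFree (ω + 1) →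
        4 ≤ ω + 1 → ω + 1 ≤ Fintype.card V →
        ∃ W : Finset V,
          (∀ u v : V, G.Adj u v → ∃ w ∈ W, G.dist u w ≠ G.dist v w) ∧
          (W.card : ℝ) ≤ ((ω : ℝ) - 2) / ((ω : ℝ) - 1) * (Fintype.card V : ℝ) := by
  classical
  intro V _ G hG ω _ hfree h4 hcard
  obtain ⟨k, rfl⟩ : ∃ k, ω = k + 1 := ⟨ω - 1, by omega⟩
  have hk : 2 ≤ k := by omega
  have hconn : Q32.LMD.Conn G (Finset.univ : Finset V) := by
    refine ⟨?_, ?_⟩
    · rw [← Finset.card_pos, Finset.card_univ]; omega
    · intro S _ hSne hScl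
      obtain ⟨x, hx⟩ := hSne
      rw [Finset.eq_univ_iff_forall]
      intro y
      obtain ⟨p⟩ := hG.preconnected x y
      induction p with
      | nil => exact hx
      | cons h p ih =>
        apply ih
        by_contra hno
        exact hScl _ hx _ (Finset.mem_univ _) hno h
  have hnc : Q32.LMD.NoClique G (k + 2) (Finset.univ : Finset V) := fun S _ => hfree S
  have hnot : ¬ G.IsNClique (k + 1) (Finset.univ : Finset V) := by
    intro h
    have := h.2
    rw [Finset.card_univ] at this
    omega
  obtain ⟨X, hX, hXc⟩ := Q32.LMD.main hk _ Finset.univ rfl hconn hnc hnot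
  refine ⟨Finset.univ \ X, ?_, ?_⟩
  · intro u v huv
    by_cases hu : u ∈ X
    · by_cases hv : v ∈ X
      · obtain ⟨w, hw, hs⟩ := hX.2 u hu v hv huv
        have hwX : w ∉ X := by
          rcases hw with hw | hw
          · simp at hw
          · exact hw.2
        refine ⟨w, by simp [hwX], ?_⟩
        rcases hs with ⟨h1, h2⟩ | ⟨h1, h2⟩
        · intro e
          rw [SimpleGraph.dist_eq_one_iff_adj.2 h1.symm] at e
          exact h2 (SimpleGraph.dist_eq_one_iff_adj.1 e.symm).symm
        · intro e
          rw [SimpleGraph.dist_eq_one_iff_adj.2 h2.symm] at e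
          exact h1 (SimpleGraph.dist_eq_one_iff_adj.1 e).symm
      · refine ⟨v, by simp [hv], ?_⟩
        rw [SimpleGraph.dist_eq_one_iff_adj.2 huv, SimpleGraph.dist_self]
        exact one_ne_zero
    · refine ⟨u, by simp [hu], ?_⟩
      rw [SimpleGraph.dist_eq_one_iff_adj.2 huv.symm, SimpleGraph.dist_self]
      exact zero_ne_one
  · rw [Finset.card_sdiff_of_subset (Finset.subset_univ X), Finset.card_univ,
      Nat.cast_sub (by rw [← Finset.card_univ]; exact Finset.card_le_card (Finset.subset_univ X))]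
    rw [Finset.card_univ] at hXc
    have hk0 : (0 : ℝ) < (k : ℝ) := by
      have : (2 : ℝ) ≤ (k : ℝ) := by exact_mod_cast hk
      linarith
    have hXr : (Fintype.card V : ℝ) ≤ (k : ℝ) * (X.card : ℝ) := by exact_mod_cast hXc
    have e1 : ((k + 1 : ℕ) : ℝ) - 2 = (k : ℝ) - 1 := by push_cast; ring
    have e2 : ((k + 1 : ℕ) : ℝ) - 1 = (k : ℝ) := by push_cast; ring
    rw [e1, e2, div_mul_eq_mul_div, le_div_iff₀ hk0]
    nlinarith

end Pool.Agent.S11473
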