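import Pool.Statements.S11608
import Pool.Agent.Q229.UF.Prod

set_option autoImplicit false
open Pool Pool.MP_d1f9c8_co

namespace Pool.Agent.S11608

/-- The negation of the preceding statement: Among subgraph-closed classes of finite graphs, with product = vertex partition into parts in the factors, any two factorizations of a class into irreducible factors (contain K1, not a product of two such classes) agree up to reordering. -/
theorem result :
    ¬ (∀ (m k : ℕ) (Ps : Fin m → (n : ℕ) → SimpleGraph (Fin n) → Prop)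
      (Qs : Fin k → (n : ℕ) → SimpleGraph (Fin n) → Prop),
      (∀ i : Fin m,
        (∀ (a b : ℕ) (G : SimpleGraph (Fin a)) (H : SimpleGraph (Fin b)) (f : H →g G),
          Function.Injective f → Ps i a G → Ps i b H) ∧
        Ps i 1 ⊥ ∧
        ∀ A B : (n : ℕ) → SimpleGraph (Fin n) → Prop,
          (∀ (a b : ℕ) (G : SimpleGraph (Fin a)) (H : SimpleGraph (Fin b)) (f : H →g G),
            Function.Injective f → A a G → A b H) →
          (∀ (a b : ℕ) (G : SimpleGraph (Fin a)) (H : SimpleGraph (Fin b)) (f : H →g G),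
            Function.Injective f → B a G → B b H) →
          A 1 ⊥ → B 1 ⊥ →
          ¬ ∀ (n : ℕ) (G : SimpleGraph (Fin n)),
            (Ps i n G ↔ ∃ S : Set (Fin n),
              (∃ (r : ℕ) (K : SimpleGraph (Fin r)), A r K ∧ Nonempty (G.induce S ≃g K)) ∧
              (∃ (r : ℕ) (K : SimpleGraph (Fin r)), B r K ∧ Nonempty (G.induce Sᶜ ≃g K)))) →
      (∀ j : Fin k,
        (∀ (a b : ℕ) (G : SimpleGraph (Fin a)) (H : SimpleGraph (Fin b)) (f : H →g G),
          Function.Injective f → Qs j a G → Qs j b H) ∧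
        Qs j 1 ⊥ ∧
        ∀ A B : (n : ℕ) → SimpleGraph (Fin n) → Prop,
          (∀ (a b : ℕ) (G : SimpleGraph (Fin a)) (H : SimpleGraph (Fin b)) (f : H →g G),
            Function.Injective f → A a G → A b H) →
          (∀ (a b : ℕ) (G : SimpleGraph (Fin a)) (H : SimpleGraph (Fin b)) (f : H →g G),
            Function.Injective f → B a G → B b H) →
          A 1 ⊥ → B 1 ⊥ →
          ¬ ∀ (n : ℕ) (G : SimpleGraph (Fin n)),
            (Qs j n G ↔ ∃ S : Set (Fin n),
              (∃ (r : ℕ) (K : SimpleGraph (Fin r)), A r K ∧ Nonempty (G.induce S ≃g K)) ∧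
              (∃ (r : ℕ) (K : SimpleGraph (Fin r)), B r K ∧ Nonempty (G.induce Sᶜ ≃g K)))) →
      (∀ (n : ℕ) (G : SimpleGraph (Fin n)),
        (∃ c : Fin n → Fin m, ∀ i : Fin m, ∃ (r : ℕ) (K : SimpleGraph (Fin r)),
            Ps i r K ∧ Nonempty (G.induce {v | c v = i} ≃g K)) ↔
        (∃ c : Fin n → Fin k, ∀ j : Fin k, ∃ (r : ℕ) (K : SimpleGraph (Fin r)),
            Qs j r K ∧ Nonempty (G.induce {v | c v = j} ≃g K))) →
      ∃ σ : Fin m ≃ Fin k, ∀ (i : Fin m) (n : ℕ) (G : SimpleGraph (Fin n)),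
        (Ps i n G ↔ Qs (σ i) n G)) := by
  intro H
  have irrP1 : ∀ A B : (n : ℕ) → SimpleGraph (Fin n) → Prop,
      (∀ (a b : ℕ) (G : SimpleGraph (Fin a)) (H : SimpleGraph (Fin b)) (f : H →g G),
        Function.Injective f → A a G → A b H) →
      (∀ (a b : ℕ) (G : SimpleGraph (Fin a)) (H : SimpleGraph (Fin b)) (f : H →g G),
        Function.Injective f → B a G → B b H) →
      A 1 ⊥ → B 1 ⊥ → ¬ ∀ (n : ℕ) (G : SimpleGraph (Fin n)),
        (Q229.UF.P1 n G ↔ Q229.UF.Mul A B n G) := fun A B hA hB a1 b1 h =>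
    Q229.UF.irr1 A B hA hB a1 b1 h
  have irrP2 : ∀ A B : (n : ℕ) → SimpleGraph (Fin n) → Prop,
      (∀ (a b : ℕ) (G : SimpleGraph (Fin a)) (H : SimpleGraph (Fin b)) (f : H →g G),
        Function.Injective f → A a G → A b H) →
      (∀ (a b : ℕ) (G : SimpleGraph (Fin a)) (H : SimpleGraph (Fin b)) (f : H →g G),
        Function.Injective f → B a G → B b H) →
      A 1 ⊥ → B 1 ⊥ → ¬ ∀ (n : ℕ) (G : SimpleGraph (Fin n)),
        (Q229.UF.P2 n G ↔ Q229.UF.Mul A B n G) := fun A B hA hB a1 b1 h =>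
    Q229.UF.irr2 A B hA hB a1 b1 h
  obtain ⟨σ, -⟩ := H 3 2 (fun _ => Q229.UF.P1) ![Q229.UF.P1, Q229.UF.P2]
    (fun _ => ⟨Q229.UF.her1, Q229.UF.P1_one, irrP1⟩)
    (by
      intro j
      fin_cases j
      · exact ⟨Q229.UF.her1, Q229.UF.P1_one, irrP1⟩
      · exact ⟨Q229.UF.her2, Q229.UF.P2_one, irrP2⟩)
    (fun n G => ⟨Q229.UF.prod_fwd G, Q229.UF.prod_bwd G⟩)
  have := Fintype.card_congr σ
  simp at this

end Pool.Agent.S11608
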