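import Pool.Statements.S11612
import Pool.Agent.Q109.Tree
import Pool.Agent.Q109.ParTree

set_option autoImplicit false
open Pool Pool.MP_d20af1_co

namespace Pool.Agent.S11612

/-! The counterexample: the blow-up `C₅[K₂]` of the five-cycle (vertices `0,…,9`, class `v / 2`)
joined completely to five isolated vertices `10,…,14`.  It is 10-regular, so some bag of every
tree decomposition has at least 11 vertices, while tree-independence number is at most 2 and
tree-chromatic number at most 5. -/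

/-- adjacency as a Boolean function -/
def adjB (u v : Fin 15) : Bool :=
  (u ≠ v) && (
    ((u.val < 10) && (v.val < 10) &&
      ((u.val / 2 = v.val / 2) || ((u.val / 2 + 1) % 5 = v.val / 2) ||
        ((v.val / 2 + 1) % 5 = u.val / 2))) ||
    ((u.val < 10) && (10 ≤ v.val)) || ((v.val < 10) && (10 ≤ u.val)))

/-- the graph -/
def Gr : SimpleGraph (Fin 15) where
  Adj u v := adjB u v = true
  symm := ⟨by decide +kernel⟩
  loopless := ⟨by decide +kernel⟩

instance : DecidableRel Gr.Adj := fun u v => inferInstanceAs (Decidable (adjB u v = true))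

/-- bags of the first decomposition -/
def B1 (i : Fin 5) : Finset (Fin 15) := Finset.univ.filter (fun v => v.val < 10 ∨ v.val = 10 + i.val)

/-- bags of the second decomposition -/
def B2 (i : Fin 3) : Finset (Fin 15) := Finset.univ.filter (fun v =>
  10 ≤ v.val ∨ v.val / 2 = 0 ∨ v.val / 2 = i.val + 1 ∨ v.val / 2 = i.val + 2)

/-- parent function of the path -/
def par2 (i : Fin 3) : Fin 3 := if i = 2 then 1 else 0

/-- colouring of the bags of the second decomposition -/
def col (i : Fin 3) (v : Fin 15) : Fin 5 :=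
  if 10 ≤ v.val then 4 else
    if (v.val / 2 = 1 ∧ i = 0) ∨ (v.val / 2 = 3 ∧ i = 1) ∨ (v.val / 2 = 4 ∧ i = 2) then
      (if v.val % 2 = 0 then 2 else 3) else (if v.val % 2 = 0 then 0 else 1)

lemma indep_aux : ∀ a b c : Fin 15, a ≠ b → a ≠ c → b ≠ c →
    ¬ (adjB a b = true) → ¬ (adjB a c = true) → ¬ (adjB b c = true) →
    ∀ i : Fin 5, a ∈ B1 i → b ∈ B1 i → c ∈ B1 i → False := by
  decide +kernel

lemma edge1 : ∀ u v : Fin 15, adjB u v = true → ∃ i : Fin 5, u ∈ B1 i ∧ v ∈ B1 i := by
  decide +kernel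

lemma edge2 : ∀ u v : Fin 15, adjB u v = true → ∃ i : Fin 3, u ∈ B2 i ∧ v ∈ B2 i := by
  decide +kernel

lemma conn1 : ∀ v : Fin 15, ∃ t : Fin 5, v ∈ B1 t ∧
    ∀ i : Fin 5, v ∈ B1 i → i ≠ t → i ≠ 0 ∧ v ∈ B1 0 := by
  decide +kernel

lemma conn2 : ∀ v : Fin 15, ∃ t : Fin 3, v ∈ B2 t ∧
    ∀ i : Fin 3, v ∈ B2 i → i ≠ t → i ≠ 0 ∧ v ∈ B2 (par2 i) := by
  decide +kernel

lemma col_aux : ∀ i : Fin 3, ∀ u v : Fin 15, u ∈ B2 i → v ∈ B2 i → adjB u v = true →
    col i u ≠ col i v := by
  decide +kernel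

lemma deg_aux : ∀ v : Fin 15,
    (Finset.univ.filter (fun u : Fin 15 => adjB u v = true ∨ u = v)).card = 11 := by
  decide +kernel

/-- The negation of the preceding statement: For every finite graph G and all a, k: if G has a tree decomposition whose bags all have independence number at most a, and one whose bags all induce k-colorable subgraphs, then G has a tree decomposition with all bags of size at most a·k. -/
theorem result :
    ¬ (∀ (V : Type) [Fintype V] (G : SimpleGraph V) (a k : ℕ),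
      (∃ (n : ℕ) (T : SimpleGraph (Fin n)) (B : Fin n → Finset V),
        T.IsTree ∧
        (∀ u v : V, G.Adj u v → ∃ i, u ∈ B i ∧ v ∈ B i) ∧
        (∀ v : V, (T.induce {i : Fin n | v ∈ B i}).Connected) ∧
        (∀ i : Fin n, ∀ S : Finset V, S ⊆ B i → G.IsIndepSet (S : Set V) → S.card ≤ a)) →
      (∃ (n : ℕ) (T : SimpleGraph (Fin n)) (B : Fin n → Finset V),
        T.IsTree ∧
        (∀ u v : V, G.Adj u v → ∃ i, u ∈ B i ∧ v ∈ B i) ∧
        (∀ v : V, (T.induce {i : Fin n | v ∈ B i}).Connected) ∧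
        (∀ i : Fin n, (G.induce (B i : Set V)).Colorable k)) →
      (∃ (n : ℕ) (T : SimpleGraph (Fin n)) (B : Fin n → Finset V),
        T.IsTree ∧
        (∀ u v : V, G.Adj u v → ∃ i, u ∈ B i ∧ v ∈ B i) ∧
        (∀ v : V, (T.induce {i : Fin n | v ∈ B i}).Connected) ∧
        (∀ i : Fin n, (B i).card ≤ a * k))) := by
  intro H
  obtain ⟨n, T, B, hT, hE, hC, hcard⟩ := H (Fin 15) Gr 2 5 (by
    have h0 : ∀ i : Fin (4+1), i ≠ 0 → (fun _ => (0 : Fin (4+1))) i < i := by
      intro i hi
      exact Fin.pos_iff_ne_zero.2 hi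
    refine ⟨4 + 1, Q109.Tree.parGraph 4 (fun _ => 0), B1, Q109.Tree.parGraph_isTree h0,
      fun u v h => edge1 u v h, ?_, ?_⟩
    · intro v
      obtain ⟨t, ht, h1⟩ := conn1 v
      exact Q109.Tree.parGraph_induce_connected h0 _ t ht h1
    · intro i S hS hind
      by_contra hc
      rw [not_le, Finset.two_lt_card] at hc
      obtain ⟨a, ha, b, hb, c, hc, hab, hac, hbc⟩ := hc
      exact indep_aux a b c hab hac hbc (hind (Finset.mem_coe.2 ha) (Finset.mem_coe.2 hb) hab)
        (hind (Finset.mem_coe.2 ha) (Finset.mem_coe.2 hc) hac)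
        (hind (Finset.mem_coe.2 hb) (Finset.mem_coe.2 hc) hbc) i (hS ha) (hS hb) (hS hc)) (by
    have h0 : ∀ i : Fin (2+1), i ≠ 0 → par2 i < i := by decide
    refine ⟨2 + 1, Q109.Tree.parGraph 2 par2, B2, Q109.Tree.parGraph_isTree h0,
      fun u v h => edge2 u v h, ?_, ?_⟩
    · intro v
      obtain ⟨t, ht, h1⟩ := conn2 v
      exact Q109.Tree.parGraph_induce_connected h0 _ t ht h1
    · intro i
      refine ⟨SimpleGraph.Coloring.mk (fun v => col i v.1) ?_⟩
      intro u v huv
      exact col_aux i u.1 v.1 (Finset.mem_coe.1 u.2) (Finset.mem_coe.1 v.2) huv)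
  obtain ⟨R⟩ := Q109.Tree.exists_rtd hT hE hC
  obtain ⟨v, h1, h2⟩ := R.exists_closed_nbhd
  have h3 : (Finset.univ.filter (fun u : Fin 15 => adjB u v = true ∨ u = v)) ⊆ B (R.top v) := by
    intro u hu
    rw [Finset.mem_filter] at hu
    rcases hu.2 with h | h
    · exact h2 u h
    · rw [h]; exact h1
  have h4 := Finset.card_le_card h3
  rw [deg_aux v] at h4
  have h5 := hcard (R.top v)
  omega

end Pool.Agent.S11612
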