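import Pool.Statements.S11654
import Pool.Agent.Q32.PaintRoots

set_option autoImplicit false
open Pool Pool.MP_d32fcc_co

namespace Pool.Agent.S11654

/-!
# A 4-paintable graph that is not `(833, 208)`-paintable

Gadget: seven vertices `x0, ..., x6` with edges `03 04 14 05 15 25 35 06 26 46 56` and token numbers
`f = 3, 2, 2, 2, 2, 4, 3`.  Painter wins the game with one colour per vertex (finite check,
`Pool.Agent.Q32.Paint.gadget_win`).  With `208 f(v) + 1` tokens and demand `208` at every vertex
Lister wins: with suitable vertex weights he presents suitable sets 104 times each, and branches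
according to where the weighted remaining demand is large
(`Pool.Agent.Q32.Paint.gadget_lister`).  Two root vertices are joined to the vertices with
`f(v) ≤ 3` and `f(v) ≤ 2` of many copies of the gadget; one copy for every possible pair of sets of
rounds in which the roots are coloured.
-/

/-- The negation of the preceding statement: For every finite graph that is k-paintable (online k-list-colourable), and all positive a, b with a > k·b, the graph is (a:b)-paintable. This is equivalent to the strong fractional paint number being at most the paint number. -/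
theorem result :
    ¬ (∀ (V : Type) [Fintype V] (G : SimpleGraph V) (k a b : ℕ), 0 < b → k * b < a →
    (∀ W : (V → ℕ) → (V → ℕ) → Prop,
      (∀ t n : V → ℕ, (∀ v, n v ≤ t v) →
        (∀ M : Set V, M.Nonempty → (∀ v ∈ M, 0 < n v) →
          ∃ I ⊆ M, G.IsIndepSet I ∧
            W (t - M.indicator (fun _ => (1 : ℕ))) (n - I.indicator (fun _ => (1 : ℕ)))) →
        W t n) →
      W (fun _ => k) (fun _ => 1)) →
    (∀ W : (V → ℕ) → (V → ℕ) → Prop,
      (∀ t n : V → ℕ, (∀ v, n v ≤ t v) →
        (∀ M : Set V, M.Nonempty → (∀ v ∈ M, 0 < n v) →
          ∃ I ⊆ M, G.IsIndepSet I ∧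
            W (t - M.indicator (fun _ => (1 : ℕ))) (n - I.indicator (fun _ => (1 : ℕ)))) →
        W t n) →
      W (fun _ => a) (fun _ => b))) := by
  intro H
  have h := H Pool.Agent.Q32.Paint.VG Pool.Agent.Q32.Paint.G 4 833 208 (by norm_num) (by norm_num)
    Pool.Agent.Q32.Paint.four_paintable (fun t n => ¬ Pool.Agent.Q32.Paint.LW t n) ?_
  · exact h Pool.Agent.Q32.Paint.lister_wins
  · intro t n hle hM hL
    cases hL with
    | dead _ _ x hx => exact absurd (hle x) (not_le.mpr hx)
    | move _ _ M hne hpos hI =>
      obtain ⟨I, hIM, hind, hW⟩ := hM M hne hpos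
      exact hW (hI I hIM hind)

end Pool.Agent.S11654
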