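import Pool.Statements.S11655
-- import your own Pool.Agent.* helpers here
import Pool.Agent.Q153.CHG.Main

set_option autoImplicit false
open Filter
open Pool Pool.MP_d33b86_co

namespace Pool.Agent.S11655

open Pool.Agent.Q153.CHG in
lemma exponent {g h : ℕ} (hh : 2 ≤ h) (hg : 2 ≤ g) :
    (1 - 1 / (h : ℝ)) * (1 - 1 / (g : ℝ)) * (1 + 1 / ((h : ℝ) * (g : ℝ) - 1)) = 1 - beta h g := by
  have h1 := hg_pos hh hg
  have h2 : (0 : ℝ) < h := by exact_mod_cast (by omega : 0 < h)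
  have h3 : (0 : ℝ) < g := by exact_mod_cast (by omega : 0 < g)
  unfold beta
  field_simp
  ring

open Pool.Agent.Q153.CHG in
lemma growth {g h : ℕ} (hh : 2 ≤ h) (hg : 2 ≤ g) {k₀ : ℕ} {A : Set ℤ}
    (hA : ∀ k, k₀ ≤ k → EE h g k / 4 ≤ ((selB k A).card : ℝ)) {ε : ℝ} (hε : 0 < ε) :
    ∀ᶠ n : ℕ in atTop, (n : ℝ) ^ (1 - beta h g - ε) ≤
      ((A ∩ Set.Icc (1 : ℤ) (n : ℤ)).ncard : ℝ) := by
  have hb := bb_pos (h := h) (g := g)
  set r : ℝ := (2 : ℝ) ^ (-ε) with hr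
  have hr0 : 0 < r := Real.rpow_pos_of_pos (by norm_num) _
  have hr1 : r < 1 := Real.rpow_lt_one_of_one_lt_of_neg (by norm_num) (by linarith)
  have htend := tendsto_pow_const_mul_const_pow_of_abs_lt_one (h * g + 2) (r := r)
    (by rw [abs_of_pos hr0]; exact hr1)
  have hC : 0 < r / (8 * (2 * bb h g)) := by positivity
  obtain ⟨j₀, hj₀⟩ := eventually_atTop.1 (htend.eventually (ge_mem_nhds hC))
  filter_upwards [eventually_ge_atTop (2 ^ (j₀ + k₀ + 2))] with n hn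
  set j := Nat.log 2 (n + 1) with hj
  have hj1 : j₀ + k₀ + 2 ≤ j := by
    apply Nat.le_log_of_pow_le (by norm_num)
    omega
  have hj2 : 2 ^ j ≤ n + 1 := Nat.pow_log_le_self 2 (by omega)
  have hj3 : n + 1 < 2 ^ (j + 1) := Nat.lt_pow_succ_log_self (by norm_num) _
  obtain ⟨i, hi⟩ : ∃ i, j = i + 1 := ⟨j - 1, by omega⟩
  -- the block is inside
  have hsub : ((selB i A : Finset ℤ) : Set ℤ) ⊆ A ∩ Set.Icc (1 : ℤ) (n : ℤ) := by
    intro y hy
    obtain ⟨h1, h2⟩ := mem_selB.1 (Finset.mem_coe.1 hy)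
    simp only [B, Finset.mem_Ico] at h1
    refine ⟨h2, le_trans (one_le_pow₀ (by norm_num)) h1.1, ?_⟩
    have h3 : ((2 ^ (i + 1) : ℕ) : ℤ) ≤ ((n + 1 : ℕ) : ℤ) := by
      rw [← hi]
      exact_mod_cast hj2
    push_cast at h3
    linarith [h1.2]
  have hcard : ((selB i A).card : ℝ) ≤ ((A ∩ Set.Icc (1 : ℤ) (n : ℤ)).ncard : ℝ) := by
    have h1 := Set.ncard_le_ncard hsub ((Set.finite_Icc _ _).inter_of_right _)
    rw [Set.ncard_coe_finset] at h1
    exact_mod_cast h1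
  refine le_trans ?_ hcard
  refine le_trans ?_ (hA i (by omega))
  have hE : EE h g i / 4 = (2 * bb h g) ^ j / (8 * (j : ℝ) ^ (h * g + 2)) := by
    unfold EE PP qq
    rw [hi]
    push_cast
    rw [mul_pow]
    field_simp
    ring
  rw [hE]
  have hn0 : (0 : ℝ) < n := by
    have : 0 < 2 ^ (j₀ + k₀ + 2) := by positivity
    exact_mod_cast (by omega : 0 < n)
  have hjpos : (0 : ℝ) < j := by exact_mod_cast (by omega : 0 < j)
  -- upper bound for the power
  have h1 : (n : ℝ) ^ (1 - beta h g) ≤ (2 * bb h g) ^ (j + 1) := by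
    rw [← pow_two_bb]
    apply Real.rpow_le_rpow hn0.le
    · have : n ≤ 2 ^ (j + 1) := by omega
      exact_mod_cast this
    · linarith [beta_lt_one hh hg]
  have h2 : (n : ℝ) ^ (-ε) ≤ r ^ i := by
    have e : r ^ i = ((2 : ℝ) ^ i) ^ (-ε) := by
      rw [hr, ← Real.rpow_natCast, ← Real.rpow_natCast, ← Real.rpow_mul (by norm_num),
        ← Real.rpow_mul (by norm_num), mul_comm]
    rw [e]
    apply Real.rpow_le_rpow_of_nonpos (by positivity)
    · have h3 : 1 ≤ 2 ^ i := Nat.one_le_two_pow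
      have h4 : 2 ^ i ≤ n := by
        rw [hi, pow_succ] at hj2
        omega
      exact_mod_cast h4
    · linarith
  rw [sub_eq_add_neg, Real.rpow_add hn0]
  have h3 : (j : ℝ) ^ (h * g + 2) * r ^ j ≤ r / (8 * (2 * bb h g)) := hj₀ j (by omega)
  calc (n : ℝ) ^ (1 - beta h g) * (n : ℝ) ^ (-ε) ≤ (2 * bb h g) ^ (j + 1) * r ^ i :=
        mul_le_mul h1 h2 (Real.rpow_nonneg hn0.le _) (by positivity)
    _ = (2 * bb h g) ^ j / (8 * (j : ℝ) ^ (h * g + 2)) *
        (((j : ℝ) ^ (h * g + 2) * r ^ j) * (8 * (2 * bb h g) / r)) := by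
        have e : r ^ j = r ^ i * r := by rw [hi, pow_succ]
        rw [e, pow_succ]
        field_simp
    _ ≤ (2 * bb h g) ^ j / (8 * (j : ℝ) ^ (h * g + 2)) * 1 := by
        apply mul_le_mul_of_nonneg_left _ (by positivity)
        calc ((j : ℝ) ^ (h * g + 2) * r ^ j) * (8 * (2 * bb h g) / r) ≤
            (r / (8 * (2 * bb h g))) * (8 * (2 * bb h g) / r) :=
              mul_le_mul_of_nonneg_right h3 (by positivity)
          _ = 1 := by field_simp
    _ = _ := mul_one _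

/-- For all integers g ≥ h ≥ 2 there is an infinite set A of positive integers containing no g distinct translates of any h-element set, such that for every ε>0, eventually ∣A ∩ [1,n]∣ ≥ n^(α(g,h)−ε). -/
theorem result :
    ∀ g h : ℕ, 2 ≤ h → h ≤ g →
      ∃ A : Set ℤ,
        A ⊆ {n : ℤ | 1 ≤ n} ∧ A.Infinite ∧
        (∀ X : Finset ℤ, X.card = h → ∀ k : Fin g → ℤ, Function.Injective k →
          ¬ (∀ i : Fin g, ∀ x ∈ X, x + k i ∈ A)) ∧
        ∀ ε : ℝ, 0 < ε →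
          ∀ᶠ n : ℕ in atTop,
            (n : ℝ) ^ ((1 - 1 / (h : ℝ)) * (1 - 1 / (g : ℝ)) *
                (1 + 1 / ((h : ℝ) * (g : ℝ) - 1)) - ε)
              ≤ ((A ∩ Set.Icc (1 : ℤ) (n : ℤ)).ncard : ℝ) := by
  intro g h hh hhg
  have hg : 2 ≤ g := hh.trans hhg
  obtain ⟨k₀, A, hA1, hA2, hA3⟩ := Pool.Agent.Q153.CHG.exists_seq hh hg
  refine ⟨A, fun y hy => hA1 y hy, ?_, ?_, ?_⟩
  · apply Set.infinite_of_not_bddAbove
    rintro ⟨M, hM⟩
    have h1 : 0 < ((Pool.Agent.Q153.CHG.selB (k₀ + M.toNat) A).card : ℝ) := by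
      have := Pool.Agent.Q153.CHG.EE_pos (h := h) (g := g) (k₀ + M.toNat)
      have h2 := hA3 (k₀ + M.toNat) (by omega)
      linarith
    obtain ⟨y, hy⟩ := Finset.card_pos.1 (by exact_mod_cast h1)
    obtain ⟨h2, h3⟩ := Pool.Agent.Q153.CHG.mem_selB.1 hy
    simp only [Pool.Agent.Q153.CHG.B, Finset.mem_Ico] at h2
    have h4 := hM h3
    have h5 : k₀ + M.toNat < 2 ^ (k₀ + M.toNat) := Nat.lt_two_pow_self
    have h6 : ((k₀ + M.toNat : ℕ) : ℤ) < ((2 ^ (k₀ + M.toNat) : ℕ) : ℤ) := by exact_mod_cast h5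
    push_cast at h6
    have h7 : M ≤ (M.toNat : ℤ) := Int.self_le_toNat M
    have h8 := h2.1
    have h9 : (0 : ℤ) ≤ (k₀ : ℤ) := by positivity
    linarith
  · intro X hX k hk hcon
    refine hA2 (Pool.Agent.Q153.CHG.Ys (fun i => X.orderEmbOfFin hX i) k)
      ⟨fun i => X.orderEmbOfFin hX i, k, (X.orderEmbOfFin hX).injective, hk, rfl⟩ ?_
    intro y hy
    obtain ⟨p, -, rfl⟩ := Finset.mem_image.1 (Finset.mem_coe.1 hy)
    exact hcon p.2 _ (Finset.orderEmbOfFin_mem X hX p.1)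
  · intro ε hε
    rw [exponent hh hg]
    exact growth hh hg hA3 hε

end Pool.Agent.S11655
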