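import Pool.Statements.S11698
import Pool.Agent.Q213.OW.Main

set_option autoImplicit false
open Pool Pool.MP_d5cc4e_co

namespace Pool.Agent.S11698

/-- The negation of the preceding statement: There is a colouring of the rationals with two colours such that for every infinite set X of rationals, the sums x+y with x, y in X (x = y allowed) do not all receive the same colour. -/
theorem result :
    ¬ (∃ c : ℚ → Fin 2, ∀ X : Set ℚ, X.Infinite →
      ¬ ∃ i : Fin 2, ∀ x ∈ X, ∀ y ∈ X, c (x + y) = i) := by
  exact Pool.Agent.Q213.OW.main

end Pool.Agent.S11698
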