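import Pool.Statements.S11816
-- import your own Pool.Agent.* helpers here

set_option autoImplicit false
open Pool Pool.MP_daf6f7_co

namespace Pool.Agent.S11816


/-- The six hyperedges: the vertex stars of the wheel with five spokes, as subsets of its ten edges
(rim edge `i` joins `i` and `i+1`, spoke `5+i` joins `i` to the hub). -/
def W (i : Fin 6) : Finset (Fin 10) :=
  if i = 0 then {0, 4, 5} else if i = 1 then {0, 1, 6} else if i = 2 then {1, 2, 7}
  else if i = 3 then {2, 3, 8} else if i = 4 then {3, 4, 9} else {5, 6, 7, 8, 9}

set_option maxRecDepth 100000 in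
theorem W_matching : ∀ S : Finset (Fin 6), ∃ M ⊆ S,
    (∀ i ∈ M, ∀ j ∈ M, i ≠ j → Disjoint (W i) (W j)) ∧
    S.card ≤ M.card *
      (Finset.univ.sup (fun v : Fin 10 => (S.filter (fun i => v ∈ W i)).card) + 1) := by
  decide +kernel

theorem W_sup : Finset.univ.sup
    (fun v : Fin 10 => (Finset.univ.filter (fun i : Fin 6 => v ∈ W i)).card) + 1 = 3 := by
  decide +kernel

theorem W_color : ∀ c : Fin 6 → Fin 3, ¬ ∀ i j, i ≠ j → c i = c j → Disjoint (W i) (W j) := by
  decide +kernel

/-- The negation of the preceding statement: For any finite hypergraph (edges may repeat) in which every subfamily of edges has a matching of size at least its edge count divided by its max degree plus one, the edges can be colored with max degree plus one colors so same-colored edges are disjoint. -/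
theorem result :
    ¬ (∀ (V : Type) [Fintype V] [DecidableEq V] (m : ℕ) (e : Fin m → Finset V),
    (∀ i, (e i).Nonempty) →
    (∀ S : Finset (Fin m), ∃ M ⊆ S,
        (∀ i ∈ M, ∀ j ∈ M, i ≠ j → Disjoint (e i) (e j)) ∧
        S.card ≤ M.card *
          (Finset.univ.sup (fun v : V => (S.filter (fun i => v ∈ e i)).card) + 1)) →
    ∃ c : Fin m → Fin (Finset.univ.sup
        (fun v : V => (Finset.univ.filter (fun i : Fin m => v ∈ e i)).card) + 1),
      ∀ i j, i ≠ j → c i = c j → Disjoint (e i) (e j)) := by
  intro h
  obtain ⟨c, hc⟩ := h (Fin 10) 6 W (by decide) W_matching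
  refine W_color (fun i => Fin.cast W_sup (c i)) fun i j hij h' => hc i j hij ?_
  exact Fin.cast_injective W_sup h'

end Pool.Agent.S11816
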