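import Pool.Statements.S11885
import Pool.Agent.Q166.EvenTriple

set_option autoImplicit false
open Classical
open Pool Pool.MP_dd5ef2_co

namespace Pool.Agent.S11885

/-- For every ε>0 and all large n, summing over all graphs on n vertices the product over pairs i<j of the fraction of other vertices k with an even number of edges in triangle ijk gives at most 2^(εn²). -/
theorem result :
    ∀ ε : ℝ, 0 < ε → ∃ N : ℕ, ∀ n : ℕ, N ≤ n →
      (∑ G : SimpleGraph (Fin n),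
        ∏ i : Fin n, ∏ j : Fin n,
          (if i < j then
            (((Finset.univ.filter (fun k : Fin n => k ≠ i ∧ k ≠ j ∧
                Even ((if G.Adj i j then 1 else 0) + (if G.Adj i k then 1 else 0)
                  + (if G.Adj j k then 1 else 0) : ℕ))).card : ℝ) / ((n : ℝ) - 2))
          else 1)) ≤ (2 : ℝ) ^ (ε * (n : ℝ) ^ 2) := by
  intro ε hε
  set δ : ℝ := ε / 16 with hδ
  have hδ0 : 0 < δ := by positivity
  obtain ⟨m, hm⟩ := exists_nat_gt (1 / δ ^ 3)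
  have hm0 : (0:ℝ) < m := lt_trans (by positivity) hm
  have hm1 : 0 < m := by exact_mod_cast hm0
  obtain ⟨N, hN⟩ := exists_nat_gt (max (2 / δ + 2) (m / δ))
  refine ⟨max N 3, fun n hn => ?_⟩
  have hn3 : 3 ≤ n := le_trans (le_max_right _ _) hn
  have hnN : (N:ℝ) ≤ n := by exact_mod_cast le_trans (le_max_left _ _) hn
  have hn3' : (3:ℝ) ≤ n := by exact_mod_cast hn3
  have h1 : 2 / δ + 2 < n := lt_of_lt_of_le (lt_of_le_of_lt (le_max_left _ _) hN) hnN
  have h2 : m / δ < n := lt_of_lt_of_le (lt_of_le_of_lt (le_max_right _ _) hN) hnN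
  refine (Q166.EvenTriple.bound hn3 hm1 hδ0).trans ?_
  rw [Real.rpow_def_of_pos (by norm_num : (0:ℝ) < 2)]
  apply Real.exp_le_exp.mpr
  have hpos : (0:ℝ) < (n:ℝ) - 2 := by linarith
  have e1 : 2 / ((n:ℝ) - 2) ≤ δ := by
    rw [div_le_iff₀ hpos]
    have : 2 / δ < (n:ℝ) - 2 := by linarith
    rw [div_lt_iff₀ hδ0] at this
    linarith
  have e2 : 1 / (4 * m * δ ^ 2) ≤ δ := by
    rw [div_le_iff₀ (by positivity)]
    rw [div_lt_iff₀ (by positivity)] at hm
    nlinarith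
  have e3 : (m:ℝ) ≤ δ * n := by
    rw [div_lt_iff₀ hδ0] at h2
    linarith
  have hlog : (1:ℝ) / 2 < Real.log 2 := by
    have := Real.log_two_gt_d9
    linarith
  have hn2 : 0 ≤ (n:ℝ) ^ 2 := by positivity
  have f1 : (n:ℝ) ^ 2 / 2 * (2 / ((n:ℝ) - 2) + 1 / (4 * m * δ ^ 2) + 2 * δ) ≤
      (n:ℝ) ^ 2 / 2 * (4 * δ) := by
    apply mul_le_mul_of_nonneg_left _ (by positivity)
    linarith
  have f2 : 2 * ((n:ℝ) * m) ≤ 2 * δ * (n:ℝ) ^ 2 := by
    have : (n:ℝ) * m ≤ n * (δ * n) := mul_le_mul_of_nonneg_left e3 (by positivity)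
    nlinarith
  have f3 : 4 * δ * (n:ℝ) ^ 2 ≤ Real.log 2 * (ε * (n:ℝ) ^ 2) := by
    have : 4 * δ ≤ Real.log 2 * ε := by rw [hδ]; nlinarith
    nlinarith
  linarith

end Pool.Agent.S11885
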