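import Pool.Statements.S12030
import Pool.Agent.Q285.SnEdge

set_option autoImplicit false
open Pool Pool.MP_e2957e_co

namespace Pool.Agent.S12030

/-- The negation of the preceding statement: There is an absolute C₁>0 such that any A⊂S_n of size c(n−1)! whose transposition-graph edge boundary is at most ∣A∣(n!−∣A∣)/(n−1)!+δn∣A∣ lies within symmetric difference C₁cδ(n−1)! of a union of c distinct 1-cosets {σ: σ(i)=j}. -/
theorem result :
    ¬ (∃ C₁ : ℝ, 0 < C₁ ∧
      ∀ (n : ℕ), 1 ≤ n →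
      ∀ (c : ℕ) (δ : ℝ), 0 ≤ δ →
      ∀ A : Finset (Equiv.Perm (Fin n)),
        A.card = c * Nat.factorial (n - 1) →
        ((((A ×ˢ (Finset.univ.filter (fun p : Fin n × Fin n => p.1 < p.2))).filter
            (fun x => x.1 * Equiv.swap x.2.1 x.2.2 ∉ A)).card : ℕ) : ℝ)
          ≤ (A.card : ℝ) * ((Nat.factorial n : ℝ) - (A.card : ℝ)) / (Nat.factorial (n - 1) : ℝ)
            + δ * (n : ℝ) * (A.card : ℝ) →
        ∃ P : Finset (Fin n × Fin n), P.card = c ∧
          ((symmDiff A (Finset.univ.filter (fun σ : Equiv.Perm (Fin n) => ∃ p ∈ P, σ p.1 = p.2))).card : ℝ)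
            ≤ C₁ * (c : ℝ) * δ * (Nat.factorial (n - 1) : ℝ)) := by
  rintro ⟨C, hC, H⟩
  obtain ⟨K, hK⟩ := exists_nat_ge (2 * C + 1)
  set m : ℕ := K ^ 2 + 2 * K + 1 with hm
  have hf3 : (m + 3).factorial = (m + 3) * ((m + 2) * (m + 1).factorial) := by
    rw [Nat.factorial_succ (m + 2), Nat.factorial_succ (m + 1)]
  have hf2 : (m + 2).factorial = (m + 2) * (m + 1).factorial := Nat.factorial_succ _
  have hpos : (0 : ℝ) < ((m + 1).factorial : ℝ) := by exact_mod_cast Nat.factorial_pos _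
  have hcard : ((Q285.SnEdge.D m)ᶜ).card = (m + 1) * (m + 2).factorial := by
    rw [Finset.card_compl, Q285.SnEdge.card_D, Fintype.card_perm, Fintype.card_fin, hf3, hf2]
    have : (m + 3) * ((m + 2) * (m + 1).factorial)
        = (m + 1) * ((m + 2) * (m + 1).factorial) + 2 * ((m + 2) * (m + 1).factorial) := by ring
    omega
  have hn1 : m + 3 - 1 = m + 2 := rfl
  obtain ⟨P, hP, hP'⟩ := H (m + 3) (by omega) (m + 1) (2 / ((m + 3) * (m + 2))) (by positivity)
    (Q285.SnEdge.D m)ᶜ (by rw [hcard, hn1]) (by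
      have h1 := Q285.SnEdge.boundary_le m
      have h2 : ((((((Q285.SnEdge.D m)ᶜ ×ˢ (Finset.univ.filter
          (fun p : Fin (m + 3) × Fin (m + 3) => p.1 < p.2))).filter
          (fun x => x.1 * Equiv.swap x.2.1 x.2.2 ∉ (Q285.SnEdge.D m)ᶜ)).card : ℕ)) : ℝ)
          ≤ ((2 * (m + 1) * (m + 1).factorial + 2 * (m + 1) * (m + 2).factorial : ℕ) : ℝ) := by
        exact_mod_cast h1
      refine le_trans h2 (le_of_eq ?_)
      rw [hcard, hn1, hf3, hf2]
      push_cast
      field_simp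
      ring)
  have h3 := Q285.SnEdge.far m K le_rfl P hP
  have h4 : (K : ℝ) * ((m + 1).factorial : ℝ)
      ≤ ((symmDiff (Q285.SnEdge.D m)ᶜ (Q285.SnEdge.B m P)).card : ℝ) + ((m + 1).factorial : ℝ) := by
    exact_mod_cast h3
  have h5 : C * ((m + 1 : ℕ) : ℝ) * (2 / ((m + 3) * (m + 2))) * ((m + 3 - 1).factorial : ℝ)
      < 2 * C * ((m + 1).factorial : ℝ) := by
    rw [hn1, hf2]
    push_cast
    have h6 : C * ((m : ℝ) + 1) * (2 / (((m : ℝ) + 3) * ((m : ℝ) + 2)))
        * (((m : ℝ) + 2) * ((m + 1).factorial : ℝ))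
        = 2 * C * ((m + 1).factorial : ℝ) * (((m : ℝ) + 1) / ((m : ℝ) + 3)) := by
      field_simp
    rw [h6]
    have h7 : ((m : ℝ) + 1) / ((m : ℝ) + 3) < 1 := by
      rw [div_lt_one (by positivity)]; linarith
    have h8 : 0 < 2 * C * ((m + 1).factorial : ℝ) := by positivity
    nlinarith
  have h9 := lt_of_le_of_lt hP' h5
  have h10 : (2 * C + 1) * ((m + 1).factorial : ℝ) ≤ K * ((m + 1).factorial : ℝ) :=
    mul_le_mul_of_nonneg_right hK hpos.le
  have h11 : ((symmDiff (Q285.SnEdge.D m)ᶜ (Q285.SnEdge.B m P)).card : ℝ)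
      < 2 * C * ((m + 1).factorial : ℝ) := h9
  linarith

end Pool.Agent.S12030
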