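import Pool.Statements.S12433
import Pool.Agent.HH39TZ.Final

set_option autoImplicit false
open scoped Classical
open Pool Pool.MP_f5b555_co

namespace Pool.Agent.S12433

open Finset Pool.Agent.HH39TZ in
lemma coe_sum (n k : ℕ) (F : (Fin (k + 1) → ℕ) → ℚ) :
    ∑ μ ∈ Finset.univ.filter (fun μ : Fin (k+1) → Fin (n+1) => VV n k (fun i => (μ i : ℕ))),
      F (fun i => (μ i : ℕ)) = ∑ ν ∈ XX n k, F ν := by
  refine sum_bij (fun μ _ => fun i => (μ i : ℕ)) ?_ ?_ ?_ ?_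
  · intro μ hμ
    rw [mem_filter] at hμ
    exact mem_XX.mpr hμ.2
  · intro μ _ ν _ hμν
    funext i
    exact Fin.ext (congrFun hμν i)
  · intro ν hν
    rw [mem_XX] at hν
    have hlt : ∀ i, ν i < n + 1 := fun i => by have := hν.1 i; omega
    refine ⟨fun i => ⟨ν i, hlt i⟩, ?_, rfl⟩
    rw [mem_filter]
    exact ⟨mem_univ _, hν⟩
  · intro μ _
    rfl


/-- For n ≥ 1, 2k < n and λ=(n,n−2,…,n−2k), the strict partitions inside λ have average down-degree equal to that of a random element of a random maximal chain (CDE), and this average is ∣λ∣/(n+1). -/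
theorem result :
  ∀ (n k : ℕ), 1 ≤ n → 2 * k < n →
  ∀ (V : (Fin (k+1) → ℕ) → Prop),
    (∀ μ, V μ ↔ ((∀ i : Fin (k+1), μ i ≤ n - 2 * (i : ℕ)) ∧
        ∀ i j : Fin (k+1), i < j → μ j = 0 ∨ μ j < μ i)) →
  ∀ (D : (Fin (k+1) → ℕ) → ℕ),
    (∀ μ, D μ = (Finset.univ.filter
        (fun i : Fin (k+1) => 0 < μ i ∧ V (Function.update μ i (μ i - 1)))).card) →
  ∀ (N : ℕ), N = ∑ i : Fin (k+1), (n - 2 * (i : ℕ)) →
  ∀ (S : (Fin N → Fin (k+1)) → ℕ → Fin (k+1) → ℕ),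
    (∀ w j i, S w j i = (Finset.univ.filter
        (fun t : Fin N => (t : ℕ) < j ∧ w t = i)).card) →
  ((∑ μ ∈ Finset.univ.filter (fun μ : Fin (k+1) → Fin (n+1) => V (fun i => (μ i : ℕ))),
        (D (fun i => (μ i : ℕ)) : ℚ)) /
      ((Finset.univ.filter (fun μ : Fin (k+1) → Fin (n+1) => V (fun i => (μ i : ℕ)))).card : ℚ)
    =
    (∑ w ∈ Finset.univ.filter (fun w : Fin N → Fin (k+1) =>
          (∀ j : ℕ, j ≤ N → V (S w j)) ∧ ∀ i : Fin (k+1), S w N i = n - 2 * (i : ℕ)),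
        ∑ j ∈ Finset.range (N+1), (D (S w j) : ℚ)) /
      (((Finset.univ.filter (fun w : Fin N → Fin (k+1) =>
          (∀ j : ℕ, j ≤ N → V (S w j)) ∧ ∀ i : Fin (k+1), S w N i = n - 2 * (i : ℕ))).card : ℚ)
        * ((N : ℚ) + 1))
  ∧
  (∑ μ ∈ Finset.univ.filter (fun μ : Fin (k+1) → Fin (n+1) => V (fun i => (μ i : ℕ))),
        (D (fun i => (μ i : ℕ)) : ℚ)) /
      ((Finset.univ.filter (fun μ : Fin (k+1) → Fin (n+1) => V (fun i => (μ i : ℕ)))).card : ℚ)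
    = (N : ℚ) / ((n : ℚ) + 1)) := by
  intro n k _ hk V hV D hD N hN S hS
  have hVV : V = Pool.Agent.HH39TZ.VV n k := by
    funext μ
    exact propext (hV μ)
  subst hVV
  have hN' : N = ∑ i, Pool.Agent.HH39TZ.lam n k i := hN
  have hDR : ∀ μ, D μ = (Pool.Agent.HH39TZ.Rset (Pool.Agent.HH39TZ.XX n k) μ).card := by
    intro μ
    rw [hD]
    congr 1
    ext i
    rw [Finset.mem_filter, Pool.Agent.HH39TZ.mem_Rset, Pool.Agent.HH39TZ.mem_XX]
    simp only [Finset.mem_univ, true_and]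
    rfl
  have hSc : ∀ w j, S w j = Pool.Agent.HH39TZ.cnt w j := by
    intro w j
    funext i
    rw [hS]
    rfl
  have hu : (∑ μ ∈ Finset.univ.filter
        (fun μ : Fin (k+1) → Fin (n+1) => Pool.Agent.HH39TZ.VV n k (fun i => (μ i : ℕ))),
        (D (fun i => (μ i : ℕ)) : ℚ)) /
      ((Finset.univ.filter
        (fun μ : Fin (k+1) → Fin (n+1) => Pool.Agent.HH39TZ.VV n k (fun i => (μ i : ℕ)))).card : ℚ)
    = (N : ℚ) / ((n : ℚ) + 1) := by
    have h1 := coe_sum n k (fun μ => (D μ : ℚ))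
    have h2 := coe_sum n k (fun _ => 1)
    simp only [Finset.sum_const, nsmul_eq_mul, mul_one] at h2
    rw [h1, h2, hN', ← Pool.Agent.HH39TZ.unif_avg hk]
    congr 1
    exact Finset.sum_congr rfl fun μ _ => by rw [hDR]
  refine ⟨?_, hu⟩
  rw [hu]
  have hgood : ∀ w : Fin N → Fin (k + 1),
      ((∀ j : ℕ, j ≤ N → Pool.Agent.HH39TZ.VV n k (S w j)) ∧ ∀ i : Fin (k+1), S w N i = n - 2 * (i : ℕ)) ↔
      Pool.Agent.HH39TZ.Good (Pool.Agent.HH39TZ.VV n k) (Pool.Agent.HH39TZ.lam n k) N 0 w := by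
    intro w
    unfold Pool.Agent.HH39TZ.Good
    simp only [hSc, Pi.zero_apply, zero_add]
    rfl
  have hc1 : ∑ w ∈ Finset.univ.filter (fun w : Fin N → Fin (k+1) =>
          (∀ j : ℕ, j ≤ N → Pool.Agent.HH39TZ.VV n k (S w j)) ∧ ∀ i : Fin (k+1), S w N i = n - 2 * (i : ℕ)),
        ∑ j ∈ Finset.range (N+1), (D (S w j) : ℚ) =
      Pool.Agent.HH39TZ.PS (Pool.Agent.HH39TZ.VV n k) (Pool.Agent.HH39TZ.lam n k)
        (fun μ => ((Pool.Agent.HH39TZ.Rset (Pool.Agent.HH39TZ.XX n k) μ).card : ℚ)) N 0 := by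
    unfold Pool.Agent.HH39TZ.PS
    rw [Finset.sum_filter]
    refine Finset.sum_congr rfl fun w _ => ?_
    by_cases hw : Pool.Agent.HH39TZ.Good (Pool.Agent.HH39TZ.VV n k) (Pool.Agent.HH39TZ.lam n k) N 0 w
    · rw [if_pos hw, if_pos ((hgood w).mpr hw)]
      refine Finset.sum_congr rfl fun j _ => ?_
      rw [hDR, hSc]
      simp only [Pi.zero_apply, zero_add]
    · rw [if_neg hw, if_neg (fun h => hw ((hgood w).mp h))]
  have hc2 : ((Finset.univ.filter (fun w : Fin N → Fin (k+1) =>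
          (∀ j : ℕ, j ≤ N → Pool.Agent.HH39TZ.VV n k (S w j)) ∧
            ∀ i : Fin (k+1), S w N i = n - 2 * (i : ℕ))).card : ℚ) =
      Pool.Agent.HH39TZ.CT (Pool.Agent.HH39TZ.VV n k) (Pool.Agent.HH39TZ.lam n k) N 0 := by
    unfold Pool.Agent.HH39TZ.CT
    rw [Finset.card_eq_sum_ones, Nat.cast_sum, Finset.sum_filter]
    refine Finset.sum_congr rfl fun w _ => ?_
    by_cases hw : Pool.Agent.HH39TZ.Good (Pool.Agent.HH39TZ.VV n k) (Pool.Agent.HH39TZ.lam n k) N 0 w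
    · rw [if_pos hw, if_pos ((hgood w).mpr hw)]
      simp
    · rw [if_neg hw, if_neg (fun h => hw ((hgood w).mp h))]
  rw [hc1, hc2, hN', Pool.Agent.HH39TZ.chain_avg hk]

end Pool.Agent.S12433
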