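import Pool.Statements.S12964
import Pool.Agent.Q188.Half.Cover

set_option autoImplicit false
open Matrix
open Pool Pool.MP_2ee781_gt

namespace Pool.Agent.S12964

open Pool.Agent.Q188.Half in
theorem convex_C : Convex ℝ C := by
  rintro x ⟨hx0, hx1⟩ y ⟨hy0, hy1⟩ a b ha hb hab
  have hx2 : 0 < x 2 := pos2 ⟨hx0, hx1⟩
  have hy2 : 0 < y 2 := pos2 ⟨hy0, hy1⟩
  have h1 : 0 ≤ x 0 * y 2 + y 0 * x 2 - 2 * (x 1 * y 1) := by
    have h2 : 0 ≤ (x 0 * y 0) * (x 0 * y 2 + y 0 * x 2 - 2 * (x 1 * y 1)) := by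
      have h3 : x 0 ^ 2 * (y 1 ^ 2) ≤ x 0 ^ 2 * (y 0 * y 2) :=
        mul_le_mul_of_nonneg_left hy1.le (sq_nonneg _)
      have h4 : y 0 ^ 2 * (x 1 ^ 2) ≤ y 0 ^ 2 * (x 0 * x 2) :=
        mul_le_mul_of_nonneg_left hx1.le (sq_nonneg _)
      nlinarith [sq_nonneg (x 0 * y 1 - y 0 * x 1)]
    exact nonneg_of_mul_nonneg_right h2 (by positivity)
  rcases eq_or_lt_of_le ha with h | h
  · have hb1 : b = 1 := by linarith
    rw [← h, hb1, zero_smul, zero_add, one_smul]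
    exact ⟨hy0, hy1⟩
  · refine ⟨?_, ?_⟩
    · show 0 < a * x 0 + b * y 0
      have : 0 < a * x 0 := by positivity
      have : 0 ≤ b * y 0 := by positivity
      linarith
    · show (a * x 1 + b * y 1) ^ 2 < (a * x 0 + b * y 0) * (a * x 2 + b * y 2)
      have h5 : a ^ 2 * (x 1 ^ 2) < a ^ 2 * (x 0 * x 2) :=
        mul_lt_mul_of_pos_left hx1 (by positivity)
      have h6 : b ^ 2 * (y 1 ^ 2) ≤ b ^ 2 * (y 0 * y 2) :=
        mul_le_mul_of_nonneg_left hy1.le (sq_nonneg _)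
      have h7 : 0 ≤ a * b * (x 0 * y 2 + y 0 * x 2 - 2 * (x 1 * y 1)) := by positivity
      nlinarith

open Pool.Agent.Q188.Half in
theorem open_C : IsOpen C := by
  apply IsOpen.inter
  · exact isOpen_lt continuous_const (continuous_apply 0)
  · exact isOpen_lt ((continuous_apply 1).pow 2) ((continuous_apply 0).mul (continuous_apply 2))

open Pool.Agent.Q188.Half in
theorem salient (x v : Fin 3 → ℝ) (hv : v ≠ 0) : ∃ t : ℝ, x + t • v ∉ closure C := by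
  by_contra hcon
  push Not at hcon
  have h0 : ∀ t : ℝ, 0 ≤ x 0 + t * v 0 := fun t => (closure_C_sub (hcon t)).1
  have h2 : ∀ t : ℝ, 0 ≤ x 2 + t * v 2 := fun t => (closure_C_sub (hcon t)).2.1
  have h1 : ∀ t : ℝ, (x 1 + t * v 1) ^ 2 ≤ (x 0 + t * v 0) * (x 2 + t * v 2) :=
    fun t => (closure_C_sub (hcon t)).2.2
  have lin : ∀ p q : ℝ, (∀ t : ℝ, 0 ≤ p + t * q) → q = 0 := by
    intro p q h
    by_contra hq
    have h3 := h (-(p + 1) / q)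
    rw [div_mul_cancel₀ _ hq] at h3
    linarith
  have hv0 := lin _ _ h0
  have hv2 := lin _ _ h2
  have hv1 : v 1 = 0 := by
    by_contra hv1
    have h3 := h1 ((x 0 * x 2 + 1 - x 1) / v 1)
    rw [hv0, hv2, mul_zero, add_zero, add_zero, div_mul_cancel₀ _ hv1] at h3
    nlinarith [sq_nonneg (x 0 * x 2 + 1 / 2)]
  apply hv
  ext i
  fin_cases i
  · exact hv0
  · exact hv1
  · exact hv2


/-- The negation of the preceding statement: If a faithful det ±1 linear image of a Coxeter group is discrete, preserves a properly convex open cone, and has a finite-Hilbert-volume quotient, then each generator is a reflection and the group is the reflection group of a Coxeter polytope with facets indexed by the generators. -/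
theorem result :
    ¬ (∀ (n : ℕ), 1 ≤ n →
  ∀ (B W : Type) [Group W] (M : CoxeterMatrix B) (cs : CoxeterSystem M W)
    (ρ : W →* (Matrix (Fin (n+1)) (Fin (n+1)) ℝ)ˣ),
    Function.Injective ρ →
    (∀ w, (ρ w).val.det = 1 ∨ (ρ w).val.det = -1) →
  ∀ (C : Set (Fin (n+1) → ℝ)),
    IsOpen C → Convex ℝ C → C.Nonempty →
    (∀ x ∈ C, ∀ t : ℝ, 0 < t → t • x ∈ C) →
    (∀ x v : Fin (n+1) → ℝ, v ≠ 0 → ∃ t : ℝ, x + t • v ∉ closure C) →
    (∀ (w : W) (x : Fin (n+1) → ℝ), x ∈ C → (ρ w).val *ᵥ x ∈ C) →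
    (∃ ε : ℝ, 0 < ε ∧ ∀ w : W,
      (∀ i j, |(ρ w).val i j - (1 : Matrix (Fin (n+1)) (Fin (n+1)) ℝ) i j| < ε) → ρ w = 1) →
  ∀ (d : (Fin (n+1) → ℝ) → (Fin (n+1) → ℝ) → ℝ),
    (∀ x y, d x y = (1/2) * Real.log (sInf {t : ℝ | t • y - x ∈ closure C}
                                        * sInf {t : ℝ | t • x - y ∈ closure C})) →
  ∀ (diam : Set (Fin (n+1) → ℝ) → ENNReal),
    (∀ U, diam U = ⨆ x ∈ U, ⨆ y ∈ U, ENNReal.ofReal (d x y)) →
  ∀ (H : Set (Fin (n+1) → ℝ) → ENNReal),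
    (∀ F, H F = ⨆ (r : ℝ) (_ : 0 < r), ⨅ (U : ℕ → Set (Fin (n+1) → ℝ))
        (_ : F ⊆ ⋃ i, U i) (_ : ∀ i, U i ⊆ C ∧ diam (U i) ≤ ENNReal.ofReal r),
        ∑' i, diam (U i) ^ n) →
    (∃ F ⊆ C, (∀ x ∈ C, ∃ w : W, (ρ w).val *ᵥ x ∈ F) ∧ H F < ⊤) →
  (∀ b : B, ∃ α v : Fin (n+1) → ℝ, α ⬝ᵥ v = 2 ∧
      (ρ (cs.simple b)).val = 1 - Matrix.vecMulVec v α) ∧
  (Finite B ∧ ∃ α v : B → Fin (n+1) → ℝ,
     (∀ b, α b ⬝ᵥ v b = 2 ∧ (ρ (cs.simple b)).val = 1 - Matrix.vecMulVec (v b) (α b)) ∧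
     (∃ x : Fin (n+1) → ℝ, ∀ b, α b ⬝ᵥ x < 0) ∧
     (∀ b, ∃ x : Fin (n+1) → ℝ, α b ⬝ᵥ x = 0 ∧ ∀ c, c ≠ b → α c ⬝ᵥ x < 0) ∧
     (∀ w : W, ρ w ≠ 1 → ∀ x : Fin (n+1) → ℝ, (∀ b, α b ⬝ᵥ x < 0) →
        ¬ ∀ b, α b ⬝ᵥ ((ρ w).val *ᵥ x) < 0))) := by
  intro hmain
  have h := hmain 2 (by norm_num) (Fin 3) Q188.Half.W Q188.Half.M Q188.Half.cs Q188.Half.ρ
    Q188.Half.ρ_injective (fun w => Or.inl (Q188.Half.ρ_det w)) Q188.Half.C open_C convex_C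
    ⟨Q188.Half.x0, Q188.Half.x0_mem⟩ (by
      rintro x ⟨h0, h1⟩ t ht
      refine ⟨mul_pos ht h0, ?_⟩
      show (t * x 1) ^ 2 < (t * x 0) * (t * x 2)
      have : 0 < t ^ 2 := by positivity
      nlinarith)
    salient (fun w x hx => Q188.Half.ρ_mem w hx)
    ⟨1, one_pos, fun w hw => Q188.Half.discrete w hw⟩
    Q188.Half.hd (fun _ _ => rfl) Q188.Half.dm (fun _ => rfl) Q188.Half.Hm (fun _ => rfl)
    ⟨Q188.Half.F, fun x hx => hx.1, fun x hx => Q188.Half.covers hx, Q188.Half.Hm_F⟩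
  obtain ⟨α, v, hα, hρ⟩ := h.1 0
  have h1 := congrArg Matrix.trace hρ
  rw [Q188.Half.ρ_simple, Matrix.trace_sub, Matrix.trace_one, Matrix.trace_vecMulVec,
    dotProduct_comm, hα] at h1
  simp [Q188.Half.A, Matrix.trace_fin_three] at h1
  norm_num at h1

end Pool.Agent.S12964
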