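import Pool.Statements.S13092
import Pool.Agent.Q182.HZPrep

set_option autoImplicit false
open LaurentPolynomial
open scoped Matrix
open Pool Pool.MP_436001_gt

namespace Pool.Agent.S13092

open Q182.HZ in
/-- The negation of the preceding statement: Suppose a nondegenerate Hermitian Laurent-polynomial form L has boundary linking form isometric to that of H2^g, L at t=1 equals Q plus 2g zeros, and L plus n H2's ≅ Q plus (g+n) H2's. Then L ≅ Q ⊕ H2^g. -/
theorem result :
    ¬ (∀ (σ : LaurentPolynomial ℤ →+* LaurentPolynomial ℤ) (ε : LaurentPolynomial ℤ →+* ℤ),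
      σ (T 1) = T (-1) → ε (T 1) = 1 →
      ∀ (H2 : Matrix (Fin 2) (Fin 2) (LaurentPolynomial ℤ)),
        H2 = !![0, T 1 - 1; T (-1) - 1, 0] →
      ∀ (k : ℕ) (Q : Matrix (Fin k) (Fin k) ℤ), Qᵀ = Q → IsUnit Q.det →
      ∀ (g r : ℕ) (L : Matrix (Fin r) (Fin r) (LaurentPolynomial ℤ)),
        (L.map σ)ᵀ = L → L.det ≠ 0 →
        (∃ (P Q1 : Matrix (Fin 2 × Fin g) (Fin r) (LaurentPolynomial ℤ))
            (P' Q2 : Matrix (Fin r) (Fin 2 × Fin g) (LaurentPolynomial ℤ))
            (S1 M : Matrix (Fin r) (Fin r) (LaurentPolynomial ℤ))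
            (S2 : Matrix (Fin 2 × Fin g) (Fin 2 × Fin g) (LaurentPolynomial ℤ)),
            P * L = Matrix.blockDiagonal (fun _ : Fin g => H2) * Q1 ∧
            P' * Matrix.blockDiagonal (fun _ : Fin g => H2) = L * Q2 ∧
            P' * P = 1 + L * S1 ∧
            P * P' = 1 + Matrix.blockDiagonal (fun _ : Fin g => H2) * S2 ∧
            (L.map (algebraMap (LaurentPolynomial ℤ) (FractionRing (LaurentPolynomial ℤ))))⁻¹
              - ((P.map σ)ᵀ).map (algebraMap (LaurentPolynomial ℤ) (FractionRing (LaurentPolynomial ℤ)))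
                * ((Matrix.blockDiagonal (fun _ : Fin g => H2)).map
                    (algebraMap (LaurentPolynomial ℤ) (FractionRing (LaurentPolynomial ℤ))))⁻¹
                * P.map (algebraMap (LaurentPolynomial ℤ) (FractionRing (LaurentPolynomial ℤ)))
              = M.map (algebraMap (LaurentPolynomial ℤ) (FractionRing (LaurentPolynomial ℤ)))) →
        (∃ (P : Matrix (Fin r) (Fin k ⊕ Fin 2 × Fin g) ℤ)
            (P' : Matrix (Fin k ⊕ Fin 2 × Fin g) (Fin r) ℤ),
            P * P' = 1 ∧ P' * P = 1 ∧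
            Pᵀ * L.map ε * P = Matrix.fromBlocks Q 0 0 0) →
        (∃ (n : ℕ) (P : Matrix (Fin r ⊕ Fin 2 × Fin n) (Fin k ⊕ Fin 2 × Fin (g + n)) (LaurentPolynomial ℤ))
            (P' : Matrix (Fin k ⊕ Fin 2 × Fin (g + n)) (Fin r ⊕ Fin 2 × Fin n) (LaurentPolynomial ℤ)),
            P * P' = 1 ∧ P' * P = 1 ∧
            (P.map σ)ᵀ * Matrix.fromBlocks L 0 0 (Matrix.blockDiagonal (fun _ : Fin n => H2)) * P
              = Matrix.fromBlocks (Q.map (Int.castRingHom (LaurentPolynomial ℤ))) 0 0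
                  (Matrix.blockDiagonal (fun _ : Fin (g + n) => H2))) →
        ∃ (P : Matrix (Fin r) (Fin k ⊕ Fin 2 × Fin g) (LaurentPolynomial ℤ))
          (P' : Matrix (Fin k ⊕ Fin 2 × Fin g) (Fin r) (LaurentPolynomial ℤ)),
          P * P' = 1 ∧ P' * P = 1 ∧
          (P.map σ)ᵀ * L * P
            = Matrix.fromBlocks (Q.map (Int.castRingHom (LaurentPolynomial ℤ))) 0 0
                (Matrix.blockDiagonal (fun _ : Fin g => H2))) := by
  intro H
  have hσ : (invert : LaurentPolynomial ℤ ≃ₐ[ℤ] LaurentPolynomial ℤ).toRingEquiv.toRingHom (T 1) =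
      T (-1) := LaurentPolynomial.invert_T 1
  have hε : (LaurentPolynomial.eval₂ (RingHom.id ℤ) (1 : ℤˣ)) (T 1) = 1 := by
    rw [LaurentPolynomial.eval₂_T]
    simp
  have hu := isUnit_det_LL hσ
  obtain ⟨P, P', hP1, hP2, hP3⟩ := H _ _ hσ hε HH rfl 9 1 (Matrix.transpose_one) (by simp) 0 9 LL
    (LL_herm hσ) hu.ne_zero (cond_one hu) (cond_two hε)
    ⟨1, toM mP, toM mU, PU, UP, by
      have h := stable hσ
      rw [toM_mLH, toM_mM] at h
      exact h⟩
  set σ := (invert : LaurentPolynomial ℤ ≃ₐ[ℤ] LaurentPolynomial ℤ).toRingEquiv.toRingHom with hσd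
  refine not_standard (Matrix.of fun i j => eta (P i (Sum.inl j))) ?_
  ext i j
  have h1 := congrFun (congrFun hP3 (Sum.inl i)) (Sum.inl j)
  have h2 := congrArg eta h1
  rw [Matrix.fromBlocks_apply₁₁, Matrix.map_apply, Matrix.one_apply, Matrix.mul_apply, map_sum] at h2
  rw [Matrix.mul_apply, Matrix.one_apply]
  have h3 : ∀ k, ((Matrix.of fun i j => eta (P i (Sum.inl j)))ᵀ * G) i k *
      (Matrix.of fun i j => eta (P i (Sum.inl j))) k j =
      eta (((P.map σ)ᵀ * LL) (Sum.inl i) k * P k (Sum.inl j)) := by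
    intro k
    rw [map_mul, Matrix.mul_apply, Matrix.mul_apply, map_sum]
    congr 1
    refine Finset.sum_congr rfl fun l _ => ?_
    rw [map_mul, ← eta_LL]
    show eta (P l (Sum.inl i)) * eta (LL l k) = eta (σ (P l (Sum.inl i))) * eta (LL l k)
    rw [eta_sigma hσ]
  rw [Finset.sum_congr rfl fun k _ => h3 k, h2]
  split_ifs <;> simp

end Pool.Agent.S13092
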