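import Pool.Statements.S13210
import Pool.Agent.Q188.Iso.Final

set_option autoImplicit false
open MeasureTheory
open scoped Pointwise
open Pool Pool.MP_598757_gt

namespace Pool.Agent.S13210

/-- The negation of the preceding statement: For every convex body K in 3-space and real c: if every orthogonal plane projection has isoperimetric ratio π·area/V₁² at least c, then 9π·vol(K)²/(2·V₂(K)³) is at least c (V₁, V₂ given via Steiner-formula limits). -/
theorem result :
    ¬ (∀ (K : Set (EuclideanSpace ℝ (Fin 3))) (c : ℝ),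
    IsCompact K → Convex ℝ K → (interior K).Nonempty →
    (∀ u ∈ Metric.sphere (0 : EuclideanSpace ℝ (Fin 3)) 1, ∀ L : ℝ,
      Filter.Tendsto (fun t : ℝ =>
        ((volume ((fun x : EuclideanSpace ℝ (Fin 3) => x - (inner ℝ u x) • u) '' K
              + Metric.closedBall (0 : EuclideanSpace ℝ (Fin 3)) t)).toReal
          - 2 * t * ((volume (K + segment ℝ (0 : EuclideanSpace ℝ (Fin 3)) u)).toReal
              - (volume K).toReal)) / (Real.pi * t ^ 2))
        (nhdsWithin 0 (Set.Ioi 0)) (nhds L) →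
      c ≤ Real.pi * ((volume (K + segment ℝ (0 : EuclideanSpace ℝ (Fin 3)) u)).toReal
              - (volume K).toReal) / L ^ 2) →
    ∀ S : ℝ,
      Filter.Tendsto (fun t : ℝ =>
        ((volume (K + Metric.closedBall (0 : EuclideanSpace ℝ (Fin 3)) t)).toReal
          - (volume K).toReal) / (2 * t))
        (nhdsWithin 0 (Set.Ioi 0)) (nhds S) →
      c ≤ 9 * Real.pi * (volume K).toReal ^ 2 / (2 * S ^ 3)) := by
  intro h
  have hpi := Real.pi_pos
  have hpi3 := Real.pi_gt_three
  have e0 : Q188.Iso.pl 0 = 1 := rfl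
  have e1 : Q188.Iso.pl 1 = 1 := rfl
  have e2 : Q188.Iso.pl 2 = 1 / 1000 := rfl
  have h1 := h (Q188.Iso.Bx Q188.Iso.pl) (Real.pi ^ 3 / 192000) (Q188.Iso.isCompact_Bx _)
    (Q188.Iso.convex_Bx _) (Q188.Iso.interior_Bx _ Q188.Iso.pl_pos) (by
      intro u hu L hL
      rw [mem_sphere_zero_iff_norm] at hu
      rw [Q188.Iso.vol_seg hu Q188.Iso.pl_pos] at hL ⊢
      obtain ⟨hL0, hL1⟩ := Q188.Iso.L_bounds hu hL
      have a0 := abs_nonneg (u 0)
      have a1 := abs_nonneg (u 1)
      have a2 := abs_nonneg (u 2)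
      have hs1 := Q188.Iso.one_le_sum hu
      have hsq := Q188.Iso.norm_sq3 u
      rw [hu] at hsq
      set σ := |u 0| + |u 1| + |u 2| with hσ
      have hs3 : σ ^ 2 ≤ 3 := by
        have q0 := sq_abs (u 0)
        have q1 := sq_abs (u 1)
        have q2 := sq_abs (u 2)
        nlinarith [sq_nonneg (|u 0| - |u 1|), sq_nonneg (|u 0| - |u 2|),
          sq_nonneg (|u 1| - |u 2|)]
      have har : σ / 1000 ≤ Q188.Iso.ar u Q188.Iso.pl := by
        simp only [Q188.Iso.ar, e0, e1, e2]
        linarith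
      rw [le_div_iff₀ (by positivity)]
      have hLpi : L * Real.pi ≤ 16 * σ := by
        rw [le_div_iff₀ hpi] at hL1
        exact hL1
      have hL2 : (L * Real.pi) ^ 2 ≤ (16 * σ) ^ 2 := by
        apply pow_le_pow_left₀ (by positivity) hLpi
      calc Real.pi ^ 3 / 192000 * L ^ 2 = Real.pi * (L * Real.pi) ^ 2 / 192000 := by ring
        _ ≤ Real.pi * (16 * σ) ^ 2 / 192000 := by gcongr
        _ = Real.pi * (256 * σ ^ 2) / 192000 := by ring
        _ ≤ Real.pi * (256 * 3) / 192000 := by gcongr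
        _ = Real.pi * (4 * (1 / 1000)) := by ring
        _ ≤ Real.pi * (4 * Q188.Iso.ar u Q188.Iso.pl) := by
          gcongr
          linarith)
    (4 + 8 / 1000) Q188.Iso.S_lim
  rw [Q188.Iso.vol_Bx Q188.Iso.pl (fun i => (Q188.Iso.pl_pos i).le), e0, e1, e2] at h1
  have h2 : 9 * Real.pi * (8 * (1 * 1 * (1 / 1000))) ^ 2 / (2 * (4 + 8 / 1000) ^ 3) ≤
      Real.pi * (9 / 2000000) := by
    rw [div_le_iff₀ (by norm_num)]
    nlinarith
  have h3 : Real.pi ^ 3 = Real.pi * (Real.pi * Real.pi) := by ring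
  rw [h3] at h1
  nlinarith [mul_pos hpi hpi]

end Pool.Agent.S13210
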