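import Pool.Statements.S13589
import Pool.Agent.Q187.SteinerTwo.Final

set_option autoImplicit false
open Pool Pool.MP_93ef73_gt

namespace Pool.Agent.S13589

open Q187.SteinerTwo

/-- There exist d, a nonempty compact totally disconnected A in R^d with two distinct Steiner trees S, T, no terminal interior to segments in both, and nonempty compact M (∣M∣=∣A∣ if A finite) and r>0 with S an r-minimizer for M. -/
theorem result :
  ∃ (d : ℕ) (A S T M : Set (EuclideanSpace ℝ (Fin d))) (r : ℝ),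
    IsCompact A ∧ A.Nonempty ∧ IsTotallyDisconnected A ∧
    (IsCompact S ∧ IsConnected S ∧ A ⊆ S ∧
      MeasureTheory.Measure.hausdorffMeasure 1 S < ⊤ ∧
      ∀ S' : Set (EuclideanSpace ℝ (Fin d)), IsCompact S' → IsConnected S' → A ⊆ S' →
        MeasureTheory.Measure.hausdorffMeasure 1 S ≤ MeasureTheory.Measure.hausdorffMeasure 1 S') ∧
    (IsCompact T ∧ IsConnected T ∧ A ⊆ T ∧
      MeasureTheory.Measure.hausdorffMeasure 1 T < ⊤ ∧
      ∀ S' : Set (EuclideanSpace ℝ (Fin d)), IsCompact S' → IsConnected S' → A ⊆ S' →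
        MeasureTheory.Measure.hausdorffMeasure 1 T ≤ MeasureTheory.Measure.hausdorffMeasure 1 S') ∧
    S ≠ T ∧
    IsCompact M ∧ M.Nonempty ∧ 0 < r ∧
    (A.Finite → M.Finite ∧ M.ncard = A.ncard) ∧
    (¬ ∃ a ∈ A,
        (∃ x y : EuclideanSpace ℝ (Fin d), x ≠ y ∧ segment ℝ x y ⊆ S ∧ a ∈ openSegment ℝ x y) ∧
        (∃ x y : EuclideanSpace ℝ (Fin d), x ≠ y ∧ segment ℝ x y ⊆ T ∧ a ∈ openSegment ℝ x y)) ∧
    (∀ y ∈ M, Metric.infDist y S ≤ r) ∧
    ∀ W : Set (EuclideanSpace ℝ (Fin d)), IsCompact W → IsConnected W →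
      (∀ y ∈ M, Metric.infDist y W ≤ r) →
        MeasureTheory.Measure.hausdorffMeasure 1 S ≤ MeasureTheory.Measure.hausdorffMeasure 1 W := by
  have hAfin : setA.Finite := Set.finite_range _
  have hMfin : setM.Finite := Set.finite_range _
  have hAS : setA ⊆ treeS := by
    rintro _ ⟨i | i, rfl⟩
    · exact Or.inl (Set.mem_iUnion.2 ⟨i, left_mem_segment _ _ _⟩)
    · exact Or.inl (Set.mem_iUnion.2 ⟨i, pa_mem_segment i⟩)
  have hAT : setA ⊆ treeT := by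
    rintro _ ⟨i | i, rfl⟩
    · exact Or.inl (Set.mem_iUnion.2 ⟨i, Or.inl (left_mem_segment _ _ _)⟩)
    · exact Or.inl (Set.mem_iUnion.2 ⟨i, Or.inl (right_mem_segment _ _ _)⟩)
  -- every set containing the terminals covers `M`
  have hcover : ∀ W : Set (EuclideanSpace ℝ (Fin 2)), setA ⊆ W → ∀ y ∈ setM,
      Metric.infDist y W ≤ rr := by
    rintro W hW _ ⟨i | i, rfl⟩
    · exact (Metric.infDist_le_dist_of_mem (hW ⟨Sum.inl i, rfl⟩)).trans (dist_cb i).le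
    · exact (Metric.infDist_le_dist_of_mem (hW ⟨Sum.inr i, rfl⟩)).trans (dist_ca i).le
  -- the lower bound
  have hlow : ∀ W : Set (EuclideanSpace ℝ (Fin 2)), IsCompact W → IsConnected W →
      (∀ y ∈ setM, Metric.infDist y W ≤ rr) →
      ENNReal.ofReal (2 + 2 * √3 + 4 * ll) ≤ MeasureTheory.Measure.hausdorffMeasure 1 W := by
    intro W h1 h2 h3
    refine lower_M h1 h2 fun j => ?_
    fin_cases j
    · exact h3 _ ⟨Sum.inl 0, rfl⟩
    · exact h3 _ ⟨Sum.inl 1, rfl⟩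
    · exact h3 _ ⟨Sum.inl 2, rfl⟩
    · exact h3 _ ⟨Sum.inl 3, rfl⟩
    · exact h3 _ ⟨Sum.inr 0, rfl⟩
    · exact h3 _ ⟨Sum.inr 1, rfl⟩
    · exact h3 _ ⟨Sum.inr 2, rfl⟩
    · exact h3 _ ⟨Sum.inr 3, rfl⟩
  refine ⟨2, setA, treeS, treeT, setM, rr, hAfin.isCompact, ⟨_, ⟨Sum.inl 0, rfl⟩⟩,
    hAfin.countable.isTotallyDisconnected,
    ⟨isCompact_treeS, isConnected_treeS, hAS, measure_treeS.trans_lt ENNReal.ofReal_lt_top,
      fun S' h1 h2 h3 => measure_treeS.trans (hlow S' h1 h2 (hcover S' h3))⟩,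
    ⟨isCompact_treeT, isConnected_treeT, hAT, measure_treeT.trans_lt ENNReal.ofReal_lt_top,
      fun S' h1 h2 h3 => measure_treeT.trans (hlow S' h1 h2 (hcover S' h3))⟩,
    treeS_ne_treeT, hMfin.isCompact, ⟨_, ⟨Sum.inl 0, rfl⟩⟩, rr_pos,
    fun _ => ⟨hMfin, by rw [ncard_setA, ncard_setM]⟩, ?_, hcover treeS hAS,
    fun W h1 h2 h3 => measure_treeS.trans (hlow W h1 h2 h3)⟩
  rintro ⟨_, ⟨i | i, rfl⟩, ⟨x, y, h1, h2, h3⟩, ⟨x', y', h1', h2', h3'⟩⟩
  · exact no_segment_pb i x y h1 h2 h3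
  · exact no_segment_pa i x' y' h1' h2' h3'

end Pool.Agent.S13589
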