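import Pool.Statements.S13596
import Pool.Agent.Q172.UnifPaths2

set_option autoImplicit false
open Pool Pool.MP_94b191_gt

namespace Pool.Agent.S13596

/-- The negation of the preceding statement: Every continuum in which any two points are joined by a uniform family of paths covering the space has, for any two points, a uniform family of arcs between them covering the union of all arcs joining them. -/
theorem result :
    ¬ (∀ (X : Type) [MetricSpace X] [CompactSpace X] [ConnectedSpace X],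
      (∀ a b : X, ∃ P : Set (Path a b),
          (∀ ε : ℝ, ε > 0 → ∃ n : ℕ, ∀ p ∈ P, ∃ t : Fin (n + 1) → unitInterval,
              t 0 = 0 ∧ t (Fin.last n) = 1 ∧ StrictMono t ∧
              ∀ i : Fin n, Metric.diam (⇑p '' Set.Icc (t i.castSucc) (t i.succ)) ≤ ε) ∧
          (⋃ p ∈ P, Set.range ⇑p) = Set.univ) →
      (∀ a b : X, ∃ P : Set (Path a b),
          (∀ p ∈ P, Function.Injective ⇑p) ∧
          (∀ ε : ℝ, ε > 0 → ∃ n : ℕ, ∀ p ∈ P, ∃ t : Fin (n + 1) → unitInterval,
              t 0 = 0 ∧ t (Fin.last n) = 1 ∧ StrictMono t ∧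
              ∀ i : Fin n, Metric.diam (⇑p '' Set.Icc (t i.castSucc) (t i.succ)) ≤ ε) ∧
          (⋃ p ∈ P, Set.range ⇑p) =
            ⋃ (q : Path a b) (_ : Function.Injective ⇑q), Set.range ⇑q)) := by
  intro H
  obtain ⟨P, hinj, hunif, hU⟩ := H Q172.UnifPaths.Z (by
    intro a b
    refine ⟨{p | LipschitzWith 48 p}, ?_, ?_⟩
    · intro ε hε
      obtain ⟨n, hn⟩ := Q172.UnifPaths.lip_uniform 48 (u := a) (v := b) hε
      exact ⟨n, fun p hp => hn p hp⟩
    · apply Set.eq_univ_of_forall
      intro z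
      obtain ⟨p, hp, hz⟩ := Q172.UnifPaths.exists_lip2 a b z
      exact Set.mem_biUnion hp hz) Q172.UnifPaths.c Q172.UnifPaths.b
  obtain ⟨M, hM⟩ := hunif (1 / 2) (by norm_num)
  obtain ⟨q, hq, hx⟩ := Q172.UnifPaths.exists_arc (M + 1)
  have hx' := Set.mem_biUnion (s := {q : Path Q172.UnifPaths.c Q172.UnifPaths.b |
    Function.Injective ⇑q}) (t := fun q => Set.range ⇑q) hq hx
  have hx2 := hU.symm.subset hx'
  simp only [Set.mem_iUnion] at hx2
  obtain ⟨p, hp, hxp⟩ := hx2
  obtain ⟨t, h0, h1, hm, hd⟩ := hM p hp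
  have := Q172.UnifPaths.many (hinj p hp) hxp h0 h1 hm hd
  omega

end Pool.Agent.S13596
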