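import Pool.Statements.S13710
import Pool.Agent.Q172.RP2Wedge

set_option autoImplicit false
open Pool Pool.MP_a6a8af_gt

namespace Pool.Agent.S13710

/-- The negation of the preceding statement: If X is a locally connected metric continuum that is a union of two subcontinua with disconnected intersection, and f is a local homeomorphism of X onto a metric space Y, then Y is also such a union. -/
theorem result :
    ¬ (∀ (X Y : Type) [MetricSpace X] [CompactSpace X] [ConnectedSpace X]
      [LocallyConnectedSpace X] [MetricSpace Y] (f : X → Y),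
      IsLocalHomeomorph f → Function.Surjective f →
      (∃ A B : Set X, IsClosed A ∧ IsClosed B ∧ IsConnected A ∧ IsConnected B ∧
          A ∪ B = Set.univ ∧ ¬ IsConnected (A ∩ B)) →
      (∃ A B : Set Y, IsClosed A ∧ IsClosed B ∧ IsConnected A ∧ IsConnected B ∧
          A ∪ B = Set.univ ∧ ¬ IsConnected (A ∩ B))) := by
  intro H
  obtain ⟨A, B, hA, hB, hAc, hBc, hAB, hn⟩ := H Q172.RP2Wedge.X Q172.RP2Wedge.Y Q172.RP2Wedge.f
    Q172.RP2Wedge.f_local Q172.RP2Wedge.f_surj
    ⟨Q172.RP2Wedge.A, Q172.RP2Wedge.B, Q172.RP2Wedge.A_closed, Q172.RP2Wedge.B_closed,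
      Q172.RP2Wedge.A_connected, Q172.RP2Wedge.B_connected, Q172.RP2Wedge.A_union_B,
      Q172.RP2Wedge.inter_not⟩
  have hY : ConnectedSpace Q172.RP2Wedge.Y :=
    Q172.RP2Wedge.f_surj.connectedSpace Q172.RP2Wedge.f_cont
  apply hn
  refine ⟨?_, Q172.Unicoh.unicoherent Q172.RP2Wedge.lift_Y hA hB hAc.isPreconnected
    hBc.isPreconnected hAB⟩
  have h1 := isPreconnected_closed_iff.1 (isPreconnected_univ (α := Q172.RP2Wedge.Y)) A B hA hB
    (by rw [hAB]) (by rw [Set.univ_inter]; exact hAc.nonempty)
    (by rw [Set.univ_inter]; exact hBc.nonempty)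
  rwa [Set.univ_inter] at h1

end Pool.Agent.S13710
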