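import Pool.Statements.S13772
import Pool.Agent.Helper531.Sine

set_option autoImplicit false
open Pool Pool.MP_b1ea19_gt

namespace Pool.Agent.S13772

open Pool.Agent.Helper531

/-- Components inside a set are preserved by embeddings. -/
theorem image_cc {α β : Type*} [TopologicalSpace α] [TopologicalSpace β] {f : α → β}
    (hf : Topology.IsEmbedding f) (F : Set α) {p : α} (hp : p ∈ F) :
    f '' connectedComponentIn F p = connectedComponentIn (f '' F) (f p) := by
  apply Set.Subset.antisymm
  · apply IsPreconnected.subset_connectedComponentIn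
    · exact isPreconnected_connectedComponentIn.image f hf.continuous.continuousOn
    · exact ⟨p, mem_connectedComponentIn hp, rfl⟩
    · exact Set.image_mono (connectedComponentIn_subset F p)
  · have h1 : connectedComponentIn (f '' F) (f p) ⊆ Set.range f :=
      (connectedComponentIn_subset _ _).trans (Set.image_subset_range f F)
    have h2 : f '' (f ⁻¹' connectedComponentIn (f '' F) (f p)) =
        connectedComponentIn (f '' F) (f p) := Set.image_preimage_eq_of_subset h1
    have h3 : IsPreconnected (f ⁻¹' connectedComponentIn (f '' F) (f p)) := by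
      rw [← hf.isInducing.isPreconnected_image, h2]
      exact isPreconnected_connectedComponentIn
    have h4 : f ⁻¹' connectedComponentIn (f '' F) (f p) ⊆ connectedComponentIn F p := by
      apply h3.subset_connectedComponentIn
      · exact mem_connectedComponentIn ⟨p, hp, rfl⟩
      · intro q hq
        obtain ⟨q', hq', he⟩ := connectedComponentIn_subset _ _ hq
        rwa [← hf.injective he]
    rw [← h2]
    exact Set.image_mono h4

theorem image_L {X : Set (ℝ × ℝ)} (C : Set X) :
    (Subtype.val '' {p : X | p ∈ C ∧ ∃ V : Set X, IsOpen V ∧ p ∈ V ∧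
          ¬ IsPreconnected (connectedComponentIn (V ∩ C) p \ {p})}) =
      LocalSeparatingPoints (Subtype.val '' C) := by
  have hemb : Topology.IsEmbedding (Subtype.val : X → ℝ × ℝ) := Topology.IsEmbedding.subtypeVal
  have key : ∀ (U : Set (ℝ × ℝ)) (p : X), p ∈ C → p.1 ∈ U →
      (IsPreconnected (connectedComponentIn (Subtype.val ⁻¹' U ∩ C) p \ {p}) ↔
        IsPreconnected (connectedComponentIn (Subtype.val '' C ∩ U) p.1 \ {p.1})) := by
    intro U p hp hpU
    have hmem : p ∈ Subtype.val ⁻¹' U ∩ C := ⟨hpU, hp⟩
    rw [← hemb.isInducing.isPreconnected_image, Set.image_sdiff hemb.injective,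
      Set.image_singleton, image_cc hemb _ hmem]
    have : (Subtype.val '' (Subtype.val ⁻¹' U ∩ C) : Set (ℝ × ℝ)) = Subtype.val '' C ∩ U := by
      rw [Set.inter_comm, Set.image_inter_preimage]
    rw [this]
  ext q
  constructor
  · rintro ⟨p, ⟨hpC, V, hV, hpV, hns⟩, rfl⟩
    obtain ⟨U, hU, rfl⟩ := isOpen_induced_iff.mp hV
    refine ⟨⟨p, hpC, rfl⟩, U, hU, hpV, ?_⟩
    rwa [← key U p hpC hpV]
  · rintro ⟨⟨p, hpC, rfl⟩, U, hU, hpU, hns⟩
    refine ⟨p, ⟨hpC, Subtype.val ⁻¹' U, hU.preimage continuous_subtype_val, hpU, ?_⟩, rfl⟩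
    rwa [key U p hpC hpU]

/-- The negation of the preceding statement: If X is a continuum in which every subcontinuum C has a connected set of local separating points, then any two distinct points of any connected subset of X are joined by an arc lying inside that subset. -/
theorem result :
    ¬ (∀ (X : Type) [MetricSpace X] [CompactSpace X] [ConnectedSpace X],
      (∀ C : Set X, IsCompact C → IsConnected C →
        IsPreconnected {p : X | p ∈ C ∧ ∃ V : Set X, IsOpen V ∧ p ∈ V ∧
          ¬ IsPreconnected (connectedComponentIn (V ∩ C) p \ {p})}) →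
      ∀ A : Set X, IsConnected A → ∀ x ∈ A, ∀ y ∈ A, x ≠ y →
        ∃ f : unitInterval → X, Continuous f ∧ Function.Injective f ∧
          f 0 = x ∧ f 1 = y ∧ Set.range f ⊆ A) := by
  intro H
  have : CompactSpace Sine.X := isCompact_iff_compactSpace.mp Sine.X_compact
  have : ConnectedSpace Sine.X := isConnected_iff_connectedSpace.mp Sine.X_connected
  apply Sine.not_arcwise
  intro x hx y hy hxy
  have hemb : Topology.IsEmbedding (Subtype.val : Sine.X → ℝ × ℝ) :=
    Topology.IsEmbedding.subtypeVal
  obtain ⟨f, hf, hinj, h0, h1, -⟩ := H Sine.X (by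
    intro C hC hCc
    rw [← hemb.isInducing.isPreconnected_image, image_L]
    refine Sine.L_preconnected ?_ (hC.image continuous_subtype_val)
      (hCc.isPreconnected.image _ continuous_subtype_val.continuousOn)
    rintro _ ⟨p, _, rfl⟩
    exact p.2) Set.univ isConnected_univ ⟨x, hx⟩ trivial ⟨y, hy⟩ trivial
    (fun h => hxy (congrArg Subtype.val h))
  refine ⟨fun t => (f t).1, continuous_subtype_val.comp hf,
    Subtype.val_injective.comp hinj, by simp [h0], by simp [h1], ?_⟩
  rintro _ ⟨t, rfl⟩
  exact (f t).2

end Pool.Agent.S13772
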