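import Pool.Statements.S13885
-- import your own Pool.Agent.* helpers here

set_option autoImplicit false
open Pool Pool.MP_c36963_gt

namespace Pool.Agent.S13885

/-- There exists r : ℂ → ℂ mapping the closed unit disk into the unit circle, fixing the circle, with connected fibers in the disk, such that only finitely many circle points y fail: for all circle sequences s_n → y, every point of the Kuratowski lim sup of the fibers r⁻¹(s_n) lies in r⁻¹(y). -/
theorem result :
    ∃ r : ℂ → ℂ,
      (∀ z ∈ Metric.closedBall (0:ℂ) 1, r z ∈ Metric.sphere (0:ℂ) 1) ∧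
      (∀ y ∈ Metric.sphere (0:ℂ) 1, r y = y) ∧
      (∀ y ∈ Metric.sphere (0:ℂ) 1,
        IsConnected {z : ℂ | z ∈ Metric.closedBall (0:ℂ) 1 ∧ r z = y}) ∧
      Set.Finite {y : ℂ | y ∈ Metric.sphere (0:ℂ) 1 ∧
        ¬ (∀ s : ℕ → ℂ, (∀ n, s n ∈ Metric.sphere (0:ℂ) 1) →
            Filter.Tendsto s Filter.atTop (nhds y) →
            ∀ x : ℂ, (∀ ε : ℝ, ε > 0 → ∀ N : ℕ, ∃ n : ℕ, n ≥ N ∧
                ∃ z : ℂ, z ∈ Metric.closedBall (0:ℂ) 1 ∧ r z = s n ∧ dist z x < ε) →
              r x = y)} := by
  classical
  refine ⟨fun z => if z ∈ Metric.sphere (0:ℂ) 1 then z else 1, ?_, ?_, ?_, ?_⟩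
  · intro z _
    by_cases h : z ∈ Metric.sphere (0:ℂ) 1
    · simp only [h, if_true]
    · simp only [h, if_false]
      simp
  · intro y hy
    simp only [hy, if_true]
  · intro y hy
    by_cases h1 : y = 1
    · subst h1
      refine IsConnected.subset_closure (s := Metric.ball (0:ℂ) 1) ?_ ?_ ?_
      · exact ⟨⟨0, by simp⟩, (convex_ball (0:ℂ) 1).isPreconnected⟩
      · intro z hz
        refine ⟨Metric.ball_subset_closedBall hz, ?_⟩
        have : z ∉ Metric.sphere (0:ℂ) 1 := by
          intro h
          rw [Metric.mem_ball] at hz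
          rw [Metric.mem_sphere] at h
          linarith
        simp only [this, if_false]
      · intro z hz
        rw [closure_ball (0:ℂ) one_ne_zero]
        exact hz.1
    · have : {z : ℂ | z ∈ Metric.closedBall (0:ℂ) 1 ∧
          (if z ∈ Metric.sphere (0:ℂ) 1 then z else 1) = y} = {y} := by
        ext z
        constructor
        · rintro ⟨_, h⟩
          by_cases h2 : z ∈ Metric.sphere (0:ℂ) 1
          · simp only [h2, if_true] at h
            exact h
          · simp only [h2, if_false] at h
            exact absurd h.symm h1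
        · intro h
          rw [Set.mem_singleton_iff] at h
          subst h
          exact ⟨Metric.sphere_subset_closedBall hy, by simp only [hy, if_true]⟩
      rw [this]
      exact isConnected_singleton
  · refine (Set.finite_singleton (1:ℂ)).subset ?_
    rintro y ⟨hy, hbad⟩
    by_contra hne
    rw [Set.mem_singleton_iff] at hne
    apply hbad
    intro s hs hlim x hx
    have hxy : x = y := by
      rw [← dist_le_zero]
      refine le_of_forall_pos_le_add ?_
      intro ε hε
      have h1 : ∀ᶠ n in Filter.atTop, s n ≠ 1 := hlim.eventually_ne hne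
      have h2 : ∀ᶠ n in Filter.atTop, dist (s n) y < ε / 2 :=
        (Metric.tendsto_nhds.1 hlim) (ε / 2) (by linarith)
      obtain ⟨N, hN⟩ := Filter.eventually_atTop.1 (h1.and h2)
      obtain ⟨n, hn, z, _, hzs, hzx⟩ := hx (ε / 2) (by linarith) N
      obtain ⟨h3, h4⟩ := hN n hn
      by_cases h5 : z ∈ Metric.sphere (0:ℂ) 1
      · simp only [h5, if_true] at hzs
        rw [hzs] at hzx
        have := dist_triangle x (s n) y
        rw [dist_comm x (s n)] at this
        linarith
      · simp only [h5, if_false] at hzs
        exact absurd hzs.symm h3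
    subst hxy
    simp only [hy, if_true]

end Pool.Agent.S13885
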