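import Pool.Statements.S14047
import Pool.Agent.Helper639.AL

set_option autoImplicit false
open Pool Pool.MP_d985ac_gt

namespace Pool.Agent.S14047

open Set Filter Topology
open Pool.Agent.Helper639.Ebl (C0 al sq_le_one sq_continuous sq_inj)
open Pool.Agent.Helper639

/-- Every sequence in a countably compact set has a cluster point in it. -/
theorem exists_cluster {Y : Type} [TopologicalSpace Y] {K : Set Y}
    (hK : ∀ U : ℕ → Set Y, (∀ n, IsOpen (U n)) → K ⊆ ⋃ n, U n →
      ∃ N : ℕ, K ⊆ ⋃ n ∈ Finset.range N, U n)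
    (s : ℕ → Y) (hs : ∀ n, s n ∈ K) : ∃ f ∈ K, MapClusterPt f atTop s := by
  by_contra hcon
  push Not at hcon
  let U : ℕ → Set Y := fun n => (closure (s '' Ici n))ᶜ
  have hU : ∀ n, IsOpen (U n) := fun n => isClosed_closure.isOpen_compl
  have hcov : K ⊆ ⋃ n, U n := by
    intro f hf
    have h1 := hcon f hf
    rw [mapClusterPt_iff_frequently] at h1
    push Not at h1
    obtain ⟨V, hV, hnf⟩ := h1
    obtain ⟨n, hn⟩ := eventually_atTop.1 hnf
    refine mem_iUnion.2 ⟨n, fun hcl => ?_⟩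
    obtain ⟨_, hz, ⟨m, hm, rfl⟩⟩ := mem_closure_iff_nhds.1 hcl V hV
    exact hn m hm hz
  obtain ⟨N, hN⟩ := hK U hU hcov
  obtain ⟨n, hn, h2⟩ := mem_iUnion₂.1 (hN (hs N))
  exact h2 (subset_closure ⟨N, (Finset.mem_range.1 hn).le, rfl⟩)

/-- A sequence in a bounded set has an image with a cluster point under maps to metrizable
spaces. -/
theorem exists_cluster_of_bounded {X M : Type} [TopologicalSpace X] [MetricSpace M] {A : Set X}
    (hA : ∀ f : X → ℝ, Continuous f → ∃ C : ℝ, ∀ x ∈ A, |f x| ≤ C) {Φ : X → M}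
    (hΦ : Continuous Φ) (x : ℕ → X) (hx : ∀ n, x n ∈ A) :
    ∃ y : X, MapClusterPt (Φ y) atTop (fun n => Φ (x n)) := by
  by_contra hcon
  push Not at hcon
  let g : X → ℕ → ℝ := fun y i => max (dist (Φ y) (Φ (x i))) (1 / ((i : ℝ) + 1))
  let u : X → ℝ := fun y => ⨅ i, g y i
  have hg0 : ∀ y i, 0 ≤ g y i := fun y i => le_max_of_le_left dist_nonneg
  have hbdd : ∀ y, BddBelow (range (g y)) := fun y => ⟨0, by
    rintro _ ⟨i, rfl⟩
    exact hg0 y i⟩
  have hupos : ∀ y, 0 < u y := by
    intro y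
    have h1 := hcon y
    rw [mapClusterPt_iff_frequently] at h1
    push Not at h1
    obtain ⟨V, hV, hnf⟩ := h1
    obtain ⟨n, hn⟩ := eventually_atTop.1 hnf
    obtain ⟨r, hr, hrV⟩ := Metric.mem_nhds_iff.1 hV
    have h2 : min r (1 / ((n : ℝ) + 1)) ≤ u y := by
      refine le_ciInf fun i => ?_
      rcases le_or_gt n i with hi | hi
      · refine (min_le_left _ _).trans (le_max_of_le_left ?_)
        by_contra hlt
        exact hn i hi (hrV (by rw [Metric.mem_ball, dist_comm]; exact not_le.1 hlt))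
      · refine (min_le_right _ _).trans (le_max_of_le_right ?_)
        apply one_div_le_one_div_of_le (by positivity)
        have : (i : ℝ) < n := by exact_mod_cast hi
        linarith
    exact (lt_min hr (by positivity)).trans_le h2
  have hlip : ∀ y z, u y ≤ u z + dist (Φ y) (Φ z) := by
    intro y z
    rw [← sub_le_iff_le_add]
    refine le_ciInf fun i => ?_
    rw [sub_le_iff_le_add]
    refine (ciInf_le (hbdd y) i).trans ?_
    refine max_le ?_ ?_
    · have h1 := dist_triangle (Φ y) (Φ z) (Φ (x i))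
      have h2 : dist (Φ z) (Φ (x i)) ≤ g z i := le_max_left _ _
      linarith
    · have h2 : 1 / ((i : ℝ) + 1) ≤ g z i := le_max_right _ _
      have h3 : 0 ≤ dist (Φ y) (Φ z) := dist_nonneg
      linarith
  have hu : Continuous u := by
    rw [continuous_iff_continuousAt]
    intro y
    rw [Metric.continuousAt_iff']
    intro ε hε
    have h1 : ∀ᶠ z in 𝓝 y, dist (Φ z) (Φ y) < ε :=
      hΦ.continuousAt.eventually (Metric.ball_mem_nhds _ hε)
    filter_upwards [h1] with z hz
    rw [Real.dist_eq, abs_lt]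
    have h2 := hlip y z
    have h3 := hlip z y
    rw [dist_comm (Φ y) (Φ z)] at h2
    constructor <;> linarith
  obtain ⟨C, hC⟩ := hA (fun y => (u y)⁻¹) (hu.inv₀ fun y => (hupos y).ne')
  obtain ⟨N, hN⟩ := exists_nat_gt C
  have h1 := hC (x N) (hx N)
  have h2 : u (x N) ≤ 1 / ((N : ℝ) + 1) := by
    refine (ciInf_le (hbdd _) N).trans ?_
    show max (dist (Φ (x N)) (Φ (x N))) (1 / ((N : ℝ) + 1)) ≤ _
    rw [dist_self]
    exact max_le (by positivity) le_rfl
  rw [abs_of_pos (inv_pos.2 (hupos _))] at h1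
  have h3 : (1 / ((N : ℝ) + 1))⁻¹ ≤ (u (x N))⁻¹ := inv_anti₀ (hupos _) h2
  rw [one_div, inv_inv] at h3
  linarith

section Main

variable {X : Type} {K : Set (X → ℝ)}

/-- The compact set of the restrictions. -/
def Kn (K : Set (X → ℝ)) (A : Set X) : Set (A → ℝ) := closure ((fun f (x : A) => f x) '' K)

/-- The evaluations on the compact set of restrictions. -/
noncomputable def ev (K : Set (X → ℝ)) (A : Set X) (x : A) : Kn K A → ℝ := fun k => Ebl.sq (k.1 x)

/-- The closure of the set of the evaluations. -/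
def Bn (K : Set (X → ℝ)) (A : Set X) : Set (Kn K A → ℝ) := closure (range (ev K A))

theorem compact_Bn (A : Set X) : CompactSpace (Bn K A) := by
  rw [← isCompact_iff_compactSpace]
  refine IsCompact.of_isClosed_subset (isCompact_univ_pi fun _ => isCompact_Icc (a := (-1 : ℝ))
    (b := 1)) isClosed_closure (closure_minimal ?_ (isClosed_set_pi fun _ _ => isClosed_Icc))
  rintro _ ⟨x, rfl⟩ k _
  exact abs_le.1 (sq_le_one _)

theorem compact_Kn (hK : ∀ U : ℕ → Set (X → ℝ), (∀ n, IsOpen (U n)) → K ⊆ ⋃ n, U n →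
      ∃ N : ℕ, K ⊆ ⋃ n ∈ Finset.range N, U n) (A : Set X) : CompactSpace (Kn K A) := by
  have h1 : ∀ x : X, ∃ C : ℝ, ∀ f ∈ K, |f x| ≤ C := by
    intro x
    obtain ⟨N, hN⟩ := hK (fun n => {f | |f x| < n})
      (fun n => isOpen_lt ((continuous_apply x).abs) continuous_const) (by
        intro f _
        obtain ⟨n, hn⟩ := exists_nat_gt |f x|
        exact mem_iUnion.2 ⟨n, hn⟩)
    refine ⟨N, fun f hf => ?_⟩
    obtain ⟨n, hn, h⟩ := mem_iUnion₂.1 (hN hf)
    have h2 : |f x| < n := h
    have h3 : (n : ℝ) < N := by exact_mod_cast Finset.mem_range.1 hn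
    exact (h2.trans h3).le
  choose C hC using h1
  rw [← isCompact_iff_compactSpace]
  refine IsCompact.of_isClosed_subset (isCompact_univ_pi fun x : A => isCompact_Icc (a := -C x)
    (b := C x)) isClosed_closure (closure_minimal ?_ (isClosed_set_pi fun _ _ => isClosed_Icc))
  rintro _ ⟨f, hf, rfl⟩ x _
  exact abs_le.1 (hC x f hf)

/-- Every limit of evaluations is continuous. -/
theorem continuous_of_mem_Bn [TopologicalSpace X] (hKc : ∀ f ∈ K, Continuous f)
    (hK : ∀ U : ℕ → Set (X → ℝ), (∀ n, IsOpen (U n)) → K ⊆ ⋃ n, U n →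
      ∃ N : ℕ, K ⊆ ⋃ n ∈ Finset.range N, U n) {A : Set X}
    (hA : ∀ f : X → ℝ, Continuous f → ∃ C : ℝ, ∀ x ∈ A, |f x| ≤ C)
    (b : Bn K A) : Continuous b.1 := by
  classical
  -- the restriction of a member of `K`
  let ρ : K → Kn K A := fun f => ⟨fun x => f.1 x, subset_closure ⟨f.1, f.2, rfl⟩⟩
  -- it suffices to control the values at restrictions
  have hsuff : ∀ k₀ : Kn K A, ∀ ε : ℝ, 0 < ε → ∃ W : Set (Kn K A), IsOpen W ∧ k₀ ∈ W ∧
      ∀ f : K, ρ f ∈ W → |b.1 (ρ f) - b.1 k₀| ≤ ε := by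
    intro k₀ ε hε
    by_contra hcon
    push Not at hcon
    -- one step: choose a point of `A`
    have hstepx : ∀ (T : Finset (Kn K A)) (n : ℕ), ∃ x : A, ∀ k ∈ T,
        |Ebl.sq (k.1 x) - b.1 k| < 1 / ((n : ℝ) + 1) := by
      intro T n
      have h1 : (⋂ k ∈ T, {c : Kn K A → ℝ | |c k - b.1 k| < 1 / ((n : ℝ) + 1)}) ∈ 𝓝 b.1 := by
        refine (biInter_finset_mem T).2 fun k _ => ?_
        refine (isOpen_lt (((continuous_apply k).sub continuous_const).abs)
          continuous_const).mem_nhds ?_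
        show |b.1 k - b.1 k| < _
        rw [sub_self, abs_zero]
        positivity
      obtain ⟨_, hz, ⟨x, rfl⟩⟩ := mem_closure_iff_nhds.1 b.2 _ h1
      exact ⟨x, fun k hk => mem_iInter₂.1 hz k hk⟩
    -- one step: choose a member of `K`
    have hstepf : ∀ (T : Finset A) (n : ℕ), ∃ f : K, (∀ x ∈ T,
        |f.1 x - k₀.1 x| < 1 / ((n : ℝ) + 1)) ∧ ε < |b.1 (ρ f) - b.1 k₀| := by
      intro T n
      have h1 : IsOpen (⋂ x ∈ T, {k : Kn K A | |k.1 x - k₀.1 x| < 1 / ((n : ℝ) + 1)}) := by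
        refine isOpen_biInter_finset fun x _ => ?_
        exact isOpen_lt ((((continuous_apply x).comp continuous_subtype_val).sub
          continuous_const).abs) continuous_const
      obtain ⟨f, hf, hlt⟩ := hcon _ h1 (by
        simp only [mem_iInter]
        intro x _
        show |k₀.1 x - k₀.1 x| < _
        rw [sub_self, abs_zero]
        positivity)
      exact ⟨f, fun x hx => mem_iInter₂.1 hf x hx, hlt⟩
    choose px hpx using hstepx
    choose pf hpf1 hpf2 using hstepf
    -- the recursion on pairs of finite sets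
    let nx : Finset A × Finset K → ℕ → A := fun S n => px (insert k₀ (S.2.image ρ)) n
    let step : ℕ → Finset A × Finset K → Finset A × Finset K := fun n S =>
      (insert (nx S n) S.1, insert (pf (insert (nx S n) S.1) n) S.2)
    let S : ℕ → Finset A × Finset K := fun n => Nat.rec (∅, ∅) step n
    let x : ℕ → A := fun n => nx (S n) n
    let f : ℕ → K := fun n => pf (insert (x n) (S n).1) n
    have hS : ∀ n, S (n + 1) = (insert (x n) (S n).1, insert (f n) (S n).2) := fun n => rfl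
    have hSmono : ∀ m n, m ≤ n → (S m).1 ⊆ (S n).1 ∧ (S m).2 ⊆ (S n).2 := by
      intro m n hmn
      induction n, hmn using Nat.le_induction with
      | base => exact ⟨Finset.Subset.refl _, Finset.Subset.refl _⟩
      | succ n _ ih =>
          rw [hS]
          exact ⟨ih.1.trans (Finset.subset_insert _ _), ih.2.trans (Finset.subset_insert _ _)⟩
    have hxmem : ∀ i j, i ≤ j → x i ∈ insert (x j) (S j).1 := by
      intro i j hij
      rcases hij.eq_or_lt with rfl | h
      · exact Finset.mem_insert_self _ _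
      · refine Finset.mem_insert_of_mem ((hSmono (i + 1) j h).1 ?_)
        rw [hS]
        exact Finset.mem_insert_self _ _
    have hfmem : ∀ i j, i < j → f i ∈ (S j).2 := by
      intro i j h
      refine (hSmono (i + 1) j h).2 ?_
      rw [hS]
      exact Finset.mem_insert_self _ _
    have h1 : ∀ i j, i ≤ j → |(f j).1 (x i) - k₀.1 (x i)| < 1 / ((j : ℝ) + 1) := fun i j hij =>
      hpf1 _ j (x i) (hxmem i j hij)
    have h2 : ∀ j, ε < |b.1 (ρ (f j)) - b.1 k₀| := fun j => hpf2 _ j
    have h3 : ∀ i j, i < j → |Ebl.sq ((f i).1 (x j)) - b.1 (ρ (f i))| < 1 / ((j : ℝ) + 1) := by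
      intro i j hij
      exact hpx _ j (ρ (f i)) (Finset.mem_insert_of_mem (Finset.mem_image_of_mem ρ
        (hfmem i j hij)))
    have h4 : ∀ j, |Ebl.sq (k₀.1 (x j)) - b.1 k₀| < 1 / ((j : ℝ) + 1) := fun j =>
      hpx _ j k₀ (Finset.mem_insert_self _ _)
    -- limits
    have hz : Tendsto (fun j : ℕ => 1 / ((j : ℝ) + 1)) atTop (𝓝 0) :=
      tendsto_one_div_add_atTop_nhds_zero_nat
    have l1 : ∀ i, Tendsto (fun j => (f j).1 (x i)) atTop (𝓝 (k₀.1 (x i))) := by
      intro i
      rw [tendsto_iff_dist_tendsto_zero]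
      refine squeeze_zero' (Eventually.of_forall fun _ => dist_nonneg) ?_ hz
      filter_upwards [eventually_ge_atTop i] with j hj
      exact (h1 i j hj).le
    have l3 : ∀ i, Tendsto (fun j => Ebl.sq ((f i).1 (x j))) atTop (𝓝 (b.1 (ρ (f i)))) := by
      intro i
      rw [tendsto_iff_dist_tendsto_zero]
      refine squeeze_zero' (Eventually.of_forall fun _ => dist_nonneg) ?_ hz
      filter_upwards [eventually_gt_atTop i] with j hj
      exact (h3 i j hj).le
    have l4 : Tendsto (fun j => Ebl.sq (k₀.1 (x j))) atTop (𝓝 (b.1 k₀)) := by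
      rw [tendsto_iff_dist_tendsto_zero]
      exact squeeze_zero (fun _ => dist_nonneg) (fun j => (h4 j).le) hz
    -- a cluster point of the functions
    obtain ⟨g, hgK, hg⟩ := exists_cluster hK (fun j => (f j).1) fun j => (f j).2
    have hgeval : ∀ y : X, MapClusterPt (g y) atTop fun j => (f j).1 y := fun y =>
      hg.continuousAt_comp (continuous_apply y).continuousAt
    have hgx : ∀ i, g (x i) = k₀.1 (x i) := by
      intro i
      obtain ⟨φ, hφ, hlim⟩ := MapClusterPt.tendsto_subseq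
        (hgeval (x i))
      exact tendsto_nhds_unique hlim ((l1 i).comp hφ.tendsto_atTop)
    -- a common limit of the points
    let Φ : X → ℕ → ℝ := fun y n => Nat.rec (g y) (fun m _ => (f m).1 y) n
    have hΦ : Continuous Φ := by
      refine continuous_pi fun n => ?_
      cases n with
      | zero => exact hKc g hgK
      | succ m => exact hKc _ (f m).2
    let _ := TopologicalSpace.metrizableSpaceMetric (ℕ → ℝ)
    obtain ⟨y, hy⟩ := exists_cluster_of_bounded hA hΦ (fun n => (x n : X)) fun n => (x n).2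
    obtain ⟨φ, hφ, hlim⟩ := MapClusterPt.tendsto_subseq hy
    have hlim' : ∀ n, Tendsto (fun k => Φ (x (φ k)) n) atTop (𝓝 (Φ y n)) := fun n =>
      (tendsto_pi_nhds.1 hlim) n
    have e1 : ∀ i, Ebl.sq ((f i).1 y) = b.1 (ρ (f i)) := by
      intro i
      have h5 : Tendsto (fun k => Ebl.sq ((f i).1 (x (φ k)))) atTop (𝓝 (Ebl.sq ((f i).1 y))) :=
        (sq_continuous.tendsto _).comp (hlim' (i + 1))
      exact tendsto_nhds_unique h5 ((l3 i).comp hφ.tendsto_atTop)
    have e2 : Ebl.sq (g y) = b.1 k₀ := by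
      have h5 : Tendsto (fun k => Ebl.sq (g (x (φ k)))) atTop (𝓝 (Ebl.sq (g y))) :=
        (sq_continuous.tendsto _).comp (hlim' 0)
      simp_rw [hgx] at h5
      exact tendsto_nhds_unique h5 (l4.comp hφ.tendsto_atTop)
    -- contradiction
    obtain ⟨ψ, hψ, hlim2⟩ := MapClusterPt.tendsto_subseq (hgeval y)
    have h6 : Tendsto (fun k => |b.1 (ρ (f (ψ k))) - b.1 k₀|) atTop (𝓝 0) := by
      have h7 : Tendsto (fun k => Ebl.sq ((f (ψ k)).1 y)) atTop (𝓝 (Ebl.sq (g y))) :=
        (sq_continuous.tendsto _).comp hlim2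
      simp_rw [e1] at h7
      rw [e2] at h7
      have h8 := (h7.sub_const (b.1 k₀)).abs
      simpa using h8
    obtain ⟨k, hk⟩ := (h6.eventually (gt_mem_nhds hε)).exists
    exact absurd hk (not_lt.2 (h2 _).le)
  -- continuity
  rw [continuous_iff_continuousAt]
  intro k₀
  rw [Metric.continuousAt_iff']
  intro ε hε
  obtain ⟨W, hW, hk₀, hWb⟩ := hsuff k₀ (ε / 4) (by positivity)
  filter_upwards [hW.mem_nhds hk₀] with k hk
  obtain ⟨V, hV, hkV, hVb⟩ := hsuff k (ε / 4) (by positivity)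
  -- a restriction in both neighbourhoods
  obtain ⟨O, hO, hOW⟩ := isOpen_induced_iff.1 (hW.inter hV)
  have h9 : k.1 ∈ O := by
    have : k ∈ Subtype.val ⁻¹' O := by
      rw [hOW]
      exact ⟨hk, hkV⟩
    exact this
  obtain ⟨_, h10, ⟨f, hf, rfl⟩⟩ := mem_closure_iff.1 k.2 O hO h9
  have h11 : ρ ⟨f, hf⟩ ∈ W ∩ V := by
    rw [← hOW]
    exact h10
  have h12 := hWb ⟨f, hf⟩ h11.1
  have h13 := hVb ⟨f, hf⟩ h11.2
  rw [Real.dist_eq]
  rw [abs_le] at h12 h13
  rw [abs_lt]
  constructor <;> linarith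

end Main

/-- Limits of families of elements of `c₀` that lie in `c₀` are limits of sequences. -/
theorem exists_seq {Γ : Type} {S : Set (Γ → ℝ)}
    (hS : ∀ v ∈ S, ∀ ε : ℝ, 0 < ε → {γ | ε ≤ |v γ|}.Finite) {q : Γ → ℝ}
    (hq : ∀ ε : ℝ, 0 < ε → {γ | ε ≤ |q γ|}.Finite) (hcl : q ∈ closure S) :
    ∃ s : ℕ → S, Tendsto (fun n => (s n).1) atTop (𝓝 q) := by
  classical
  have hp : ∀ n : ℕ, (0 : ℝ) < 1 / ((n : ℝ) + 1) := fun n => by positivity
  have hstep : ∀ (T : Finset Γ) (n : ℕ), ∃ v : S, ∀ γ ∈ T, |v.1 γ - q γ| < 1 / ((n : ℝ) + 1) := by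
    intro T n
    have h1 : (⋂ γ ∈ T, {c : Γ → ℝ | |c γ - q γ| < 1 / ((n : ℝ) + 1)}) ∈ 𝓝 q := by
      refine (biInter_finset_mem T).2 fun γ _ => ?_
      refine (isOpen_lt (((continuous_apply γ).sub continuous_const).abs)
        continuous_const).mem_nhds ?_
      show |q γ - q γ| < _
      rw [sub_self, abs_zero]
      exact hp n
    obtain ⟨v, hv, hvS⟩ := mem_closure_iff_nhds.1 hcl _ h1
    exact ⟨⟨v, hvS⟩, fun γ hγ => mem_iInter₂.1 hv γ hγ⟩
  choose pick hpick using hstep
  let Q : ℕ → Finset Γ := fun n => (hq _ (hp n)).toFinset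
  let B : S → ℕ → Finset Γ := fun v n => (hS v.1 v.2 _ (hp n)).toFinset
  let T : ℕ → Finset S → Finset Γ := fun n F => Q n ∪ F.biUnion fun v => B v n
  let F : ℕ → Finset S := fun n => Nat.rec ∅ (fun n F => insert (pick (T n F) n) F) n
  let s : ℕ → S := fun n => pick (T n (F n)) n
  have hF : ∀ n, F (n + 1) = insert (s n) (F n) := fun n => rfl
  have hmono : Monotone F := monotone_nat_of_le_succ fun n => by
    rw [hF]
    exact Finset.subset_insert _ _
  have hmem : ∀ i n, i < n → s i ∈ F n := by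
    intro i n h
    refine hmono (Nat.succ_le_of_lt h) ?_
    rw [Nat.succ_eq_add_one, hF]
    exact Finset.mem_insert_self _ _
  have hs : ∀ n, ∀ γ ∈ T n (F n), |(s n).1 γ - q γ| < 1 / ((n : ℝ) + 1) := fun n =>
    hpick (T n (F n)) n
  refine ⟨s, tendsto_pi_nhds.2 fun γ => ?_⟩
  have hz : Tendsto (fun j : ℕ => 1 / ((j : ℝ) + 1)) atTop (𝓝 0) :=
    tendsto_one_div_add_atTop_nhds_zero_nat
  have hev : (∀ᶠ n in atTop, γ ∈ T n (F n)) → Tendsto (fun n => (s n).1 γ) atTop (𝓝 (q γ)) := by
    intro h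
    rw [tendsto_iff_dist_tendsto_zero]
    refine squeeze_zero' (Eventually.of_forall fun _ => dist_nonneg) ?_ hz
    filter_upwards [h] with n hn
    exact (hs n γ hn).le
  have hsmall : ∀ t : ℝ, t ≠ 0 → ∀ᶠ n : ℕ in atTop, 1 / ((n : ℝ) + 1) ≤ |t| := by
    intro t ht
    filter_upwards [hz.eventually (gt_mem_nhds (abs_pos.2 ht))] with n hn
    exact hn.le
  by_cases hqγ : q γ = 0
  · by_cases hex : ∃ i, (s i).1 γ ≠ 0
    · obtain ⟨i, hi⟩ := hex
      apply hev
      filter_upwards [hsmall _ hi, eventually_gt_atTop i] with n hn hin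
      refine Finset.mem_union_right _ (Finset.mem_biUnion.2 ⟨s i, hmem i n hin, ?_⟩)
      exact (Finite.mem_toFinset _).2 hn
    · push Not at hex
      rw [hqγ]
      simp_rw [hex]
      exact tendsto_const_nhds
  · apply hev
    filter_upwards [hsmall _ hqγ] with n hn
    exact Finset.mem_union_left _ ((Finite.mem_toFinset _).2 hn)

/-- For a Tychonoff space X with a dense countable union of bounded sets, every countably compact set of continuous functions in C_p(X) is compact and embeds into c_0(Γ) with the pointwise topology, i.e. is Eberlein compact. -/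
theorem result :
    ∀ (X : Type) [TopologicalSpace X] [T35Space X],
      (∃ A : ℕ → Set X,
          (∀ n, ∀ f : X → ℝ, Continuous f → ∃ C : ℝ, ∀ x ∈ A n, |f x| ≤ C) ∧
          Dense (⋃ n, A n)) →
      ∀ K : Set (X → ℝ), (∀ f ∈ K, Continuous f) →
        (∀ U : ℕ → Set (X → ℝ), (∀ n, IsOpen (U n)) → K ⊆ ⋃ n, U n →
            ∃ N : ℕ, K ⊆ ⋃ n ∈ Finset.range N, U n) →
        IsCompact K ∧
          ∃ (Γ : Type) (e : K → (Γ → ℝ)), Topology.IsEmbedding e ∧
            ∀ k : K, ∀ ε : ℝ, 0 < ε → {γ : Γ | ε ≤ |e k γ|}.Finite := by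
  classical
  intro X _ _ hX K hKc hK
  obtain ⟨A, hA, hdense⟩ := hX
  have hcK : ∀ n, CompactSpace (Kn K (A n)) := fun n => compact_Kn hK (A n)
  have hcB : ∀ n, CompactSpace (Bn K (A n)) := fun n => compact_Bn (A n)
  have h1 : ∀ n, ∃ (Γ : Type) (h : Kn K (A n) → Γ → ℝ), C0 h ∧ Function.Injective h := by
    intro n
    refine al (fun (k : Kn K (A n)) (b : Bn K (A n)) => b.1 k)
      (fun b => continuous_of_mem_Bn hKc hK (hA n) b)
      (fun k => (continuous_apply k).comp continuous_subtype_val) ?_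
    intro k k' hkk
    apply Subtype.ext
    funext x
    exact sq_inj (hkk ⟨ev K (A n) x, subset_closure ⟨x, rfl⟩⟩)
  choose Γ h hC0 hinj using h1
  let G : (∀ n, Kn K (A n)) → (Σ n, Γ n) → ℝ := fun p s => h s.1 (p s.1) s.2 / ((s.1 : ℝ) + 1)
  have hG : C0 G := by
    refine C0.sigma (v := fun n (p : ∀ n, Kn K (A n)) γ => h n (p n) γ) fun n =>
      ⟨fun γ => ((hC0 n).cont γ).comp (continuous_apply n), fun p γ => (hC0 n).bd _ _,
        fun p ε hε => (hC0 n).fin _ ε hε⟩
  have hGc : Continuous G := continuous_pi fun s => hG.cont s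
  have hGinj : Function.Injective G := by
    intro p p' hpp
    funext n
    apply hinj n
    funext γ
    have h2 := congrFun hpp ⟨n, γ⟩
    have h3 : ((n : ℝ) + 1) ≠ 0 := by positivity
    exact (div_left_inj' h3).1 h2
  let R : K → ∀ n, Kn K (A n) := fun f n => ⟨fun x => f.1 x, subset_closure ⟨f.1, f.2, rfl⟩⟩
  have hR : Continuous R := by
    refine continuous_pi fun n => Continuous.subtype_mk (continuous_pi fun x => ?_) _
    exact (continuous_apply (x : X)).comp continuous_subtype_val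
  have hRinj : Function.Injective R := by
    intro f g hfg
    apply Subtype.ext
    refine Continuous.ext_on hdense (hKc _ f.2) (hKc _ g.2) ?_
    intro x hx
    obtain ⟨n, hn⟩ := mem_iUnion.1 hx
    have h2 := congrFun (congrArg Subtype.val (congrFun hfg n)) ⟨x, hn⟩
    exact h2
  let w : K → (Σ n, Γ n) → ℝ := fun f => G (R f)
  have hw : Continuous w := hGc.comp hR
  have hwinj : Function.Injective w := hGinj.comp hRinj
  have hwclosed : IsClosedMap w := by
    intro C hC
    rw [← closure_subset_iff_isClosed]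
    intro q hq
    have hqG : q ∈ range G := by
      have h2 : closure (w '' C) ⊆ range G := by
        refine closure_minimal ?_ (isCompact_range hGc).isClosed
        rintro _ ⟨f, _, rfl⟩
        exact ⟨R f, rfl⟩
      exact h2 hq
    obtain ⟨p, rfl⟩ := hqG
    obtain ⟨s, hs⟩ := exists_seq (S := w '' C) (by
      rintro _ ⟨f, _, rfl⟩ ε hε
      exact hG.fin _ ε hε) (hG.fin p) hq
    choose f hfC hfs using fun n => (s n).2
    obtain ⟨g, hgK, hg⟩ := exists_cluster hK (fun n => (f n).1) fun n => (f n).2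
    have hg' : MapClusterPt (⟨g, hgK⟩ : K) atTop f := by
      rw [mapClusterPt_iff_frequently] at hg ⊢
      intro V hV
      obtain ⟨O, hO, hOV⟩ := mem_nhds_subtype _ _ _ |>.1 hV
      exact (hg O hO).mono fun n hn => hOV hn
    have hgC : (⟨g, hgK⟩ : K) ∈ C := by
        exact hC.mem_of_mapClusterPt hg' (Eventually.of_forall hfC)
    refine ⟨⟨g, hgK⟩, hgC, ?_⟩
    have h3 : MapClusterPt (w ⟨g, hgK⟩) atTop (fun n => w (f n)) :=
      hg'.continuousAt_comp hw.continuousAt
    have h4 : Tendsto (fun n => w (f n)) atTop (𝓝 (G p)) := by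
      simp_rw [hfs]
      exact hs
    have h5 : ClusterPt (w ⟨g, hgK⟩) (𝓝 (G p)) := ClusterPt.mono h3 h4
    exact eq_of_nhds_neBot (by rwa [ClusterPt] at h5)
  have hemb : Topology.IsClosedEmbedding w :=
    Topology.IsClosedEmbedding.of_continuous_injective_isClosedMap hw hwinj hwclosed
  refine ⟨?_, _, w, hemb.isEmbedding, fun k ε hε => hG.fin _ ε hε⟩
  rw [isCompact_iff_isCompact_univ, hemb.isCompact_iff, image_univ]
  refine IsCompact.of_isClosed_subset (isCompact_range hGc) hemb.isClosed_range ?_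
  rintro _ ⟨f, rfl⟩
  exact ⟨R f, rfl⟩

end Pool.Agent.S14047
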