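import Pool.Statements.S14257
import Pool.Agent.Q184.Cong.Main

set_option autoImplicit false
open Pool Pool.MP_f7c3cd_gt

namespace Pool.Agent.S14257

/-- Every proper system of at most continuum many congruences among at most continuum many (nonempty index set) sets has a solution: a partition of the hyperbolic plane where each congruence holds via some hyperbolic isometry. -/
theorem result :
    ∀ (I M : Type) (L R : M → Set I),
      Nonempty I →
      Cardinal.mk I ≤ Cardinal.continuum →
      Cardinal.mk M ≤ Cardinal.continuum →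
      (∀ i, (L i).Nonempty ∧ L i ≠ Set.univ ∧ (R i).Nonempty ∧ R i ≠ Set.univ) →
      ∃ A : I → Set UpperHalfPlane,
        Pairwise (fun j k => Disjoint (A j) (A k)) ∧
        (⋃ j, A j) = Set.univ ∧
        ∀ i, ∃ g : IsometryEquiv UpperHalfPlane UpperHalfPlane,
          g '' (⋃ j ∈ L i, A j) = ⋃ j ∈ R i, A j := by
  intro I M L R hI _ hM hLR
  obtain ⟨i₀⟩ := hI
  obtain ⟨c, g, hc⟩ := Q184.Cong.exists_coloring I M L R i₀ hM hLR
  refine ⟨fun j => {x | c x = j}, ?_, ?_, ?_⟩
  · intro j k hjk
    rw [Set.disjoint_left]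
    intro x hx hx'
    exact hjk (hx.symm.trans hx')
  · refine Set.eq_univ_of_forall fun x => ?_
    exact Set.mem_iUnion.mpr ⟨c x, rfl⟩
  · intro i
    refine ⟨Q184.Cong.isomOf (g i), ?_⟩
    have hU : ∀ S : Set I, (⋃ j ∈ S, {x | c x = j}) = {x | c x ∈ S} := by
      intro S
      ext x
      simp
    rw [hU, hU]
    ext y
    constructor
    · rintro ⟨x, hx, rfl⟩
      exact (hc i x).mp hx
    · intro hy
      refine ⟨(g i)⁻¹ • y, ?_, ?_⟩
      · refine (hc i _).mpr ?_
        rw [smul_inv_smul]
        exact hy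
      · rw [Q184.Cong.isomOf_apply, smul_inv_smul]

end Pool.Agent.S14257
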