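import Pool.Statements.S14345
import Pool.Agent.Q202.EE.Borel
-- import your own Pool.Agent.* helpers here

set_option autoImplicit false
open Pool Pool.MP_094aee_lc

namespace Pool.Agent.S14345

/-- Every analytic quasi-order on a Polish space is Borel bireducible with first-order elementary embeddability on some isomorphism-invariant Borel set of countable structures on ℕ in a countable relational language (i.e. some Mod_φ, φ in L_ω1ω). -/
theorem result :
  ∀ (X : Type) [TopologicalSpace X] [PolishSpace X] [MeasurableSpace X] [BorelSpace X]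
    (R : X → X → Prop),
    (∀ x, R x x) → (∀ x y z, R x y → R y z → R x z) →
    MeasureTheory.AnalyticSet {p : X × X | R p.1 p.2} →
    ∃ (a : ℕ → ℕ) (B : Set (∀ i : ℕ, (Fin (a i) → ℕ) → Bool)),
      MeasurableSet B ∧
      (∀ (σ : Equiv.Perm ℕ) (u : ∀ i : ℕ, (Fin (a i) → ℕ) → Bool),
        u ∈ B ↔ (fun i v => u i (σ ∘ v)) ∈ B) ∧
      (∃ f : X → (∀ i : ℕ, (Fin (a i) → ℕ) → Bool), Measurable f ∧ (∀ x, f x ∈ B) ∧
        ∀ x y, R x y ↔
          Nonempty (@FirstOrder.Language.ElementaryEmbedding
            (FirstOrder.Language.mk (fun _ => PEmpty.{1}) (fun n => {i : ℕ // a i = n})) ℕ ℕ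
            (@FirstOrder.Language.Structure.mk
              (FirstOrder.Language.mk (fun _ => PEmpty.{1}) (fun n => {i : ℕ // a i = n})) ℕ
              (fun f _ => PEmpty.elim f)
              (fun r xs => f x (Subtype.val r) (xs ∘ Fin.cast (Subtype.property r)) = true))
            (@FirstOrder.Language.Structure.mk
              (FirstOrder.Language.mk (fun _ => PEmpty.{1}) (fun n => {i : ℕ // a i = n})) ℕ
              (fun f _ => PEmpty.elim f)
              (fun r xs => f y (Subtype.val r) (xs ∘ Fin.cast (Subtype.property r)) = true)))) ∧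
      (∃ g : B → X, Measurable g ∧
        ∀ u v : B,
          Nonempty (@FirstOrder.Language.ElementaryEmbedding
            (FirstOrder.Language.mk (fun _ => PEmpty.{1}) (fun n => {i : ℕ // a i = n})) ℕ ℕ
            (@FirstOrder.Language.Structure.mk
              (FirstOrder.Language.mk (fun _ => PEmpty.{1}) (fun n => {i : ℕ // a i = n})) ℕ
              (fun f _ => PEmpty.elim f)
              (fun r xs => u.1 (Subtype.val r) (xs ∘ Fin.cast (Subtype.property r)) = true))
            (@FirstOrder.Language.Structure.mk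
              (FirstOrder.Language.mk (fun _ => PEmpty.{1}) (fun n => {i : ℕ // a i = n})) ℕ
              (fun f _ => PEmpty.elim f)
              (fun r xs => v.1 (Subtype.val r) (xs ∘ Fin.cast (Subtype.property r)) = true)))
          ↔ R (g u) (g v)) := by
  intro X _ _ _ _ R hrefl htrans hR
  rcases isEmpty_or_nonempty X with hX | hX
  · exact ⟨fun _ => 2, ∅, MeasurableSet.empty, fun σ u => ⟨fun h => h.elim, fun h => h.elim⟩,
      ⟨fun x => isEmptyElim x, measurable_of_empty _, fun x => isEmptyElim x,
        fun x => isEmptyElim x⟩,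
      ⟨fun u => u.2.elim, measurable_of_empty _, fun u => u.2.elim⟩⟩
  · -- a Borel injection to the Cantor space
    let ι : X → ℕ → Bool := MeasurableSpace.mapNatBool X
    have hm : Measurable ι := MeasurableSpace.measurable_mapNatBool X
    have hi : Function.Injective ι := MeasurableSpace.injective_mapNatBool X
    obtain ⟨f, hf, hfr⟩ : ∃ f : (ℕ → ℕ) → (ℕ → Bool) × (ℕ → Bool), Continuous f ∧
        ∀ x y, (x, y) ∈ Set.range f ↔ ∃ a b, R a b ∧ ι a = x ∧ ι b = y := by
      rw [MeasureTheory.AnalyticSet] at hR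
      rcases hR with h | ⟨g, hg, hgr⟩
      · obtain ⟨x⟩ := hX
        have : (x, x) ∈ {p : X × X | R p.1 p.2} := hrefl x
        rw [h] at this
        exact this.elim
      · have h1 : Measurable (fun w => (ι (g w).1, ι (g w).2)) := by
          have := hg.measurable
          exact (hm.comp (measurable_fst.comp this)).prodMk (hm.comp (measurable_snd.comp this))
        have h2 := MeasurableSet.univ.analyticSet_image h1
        rw [MeasureTheory.AnalyticSet] at h2
        rcases h2 with h2 | ⟨f, hf, hfr⟩
        · have : (fun w => (ι (g w).1, ι (g w).2)) 0 ∈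
              (fun w => (ι (g w).1, ι (g w).2)) '' Set.univ := ⟨0, trivial, rfl⟩
          rw [h2] at this
          exact this.elim
        · refine ⟨f, hf, fun x y => ?_⟩
          rw [hfr]
          constructor
          · rintro ⟨w, _, hw⟩
            rw [Prod.mk.injEq] at hw
            have : g w ∈ {p : X × X | R p.1 p.2} := hgr ▸ ⟨w, rfl⟩
            exact ⟨_, _, this, hw⟩
          · rintro ⟨a, b, hab, rfl, rfl⟩
            have : (a, b) ∈ Set.range g := hgr ▸ hab
            obtain ⟨w, hw⟩ := this
            exact ⟨w, trivial, by simp only [hw]⟩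
    have htr : ∀ x y z, (x, y) ∈ Set.range f → (y, z) ∈ Set.range f → (x, z) ∈ Set.range f := by
      intro x y z h1 h2
      obtain ⟨a, b, hab, rfl, rfl⟩ := (hfr _ _).1 h1
      obtain ⟨b', c, hbc, h3, rfl⟩ := (hfr _ _).1 h2
      rw [hi h3] at hbc
      exact (hfr _ _).2 ⟨a, c, htrans _ _ _ hab hbc, rfl, rfl⟩
    have hRiff : ∀ x y, Q202.EE.Emb (Q202.EE.code f (ι x)) (Q202.EE.code f (ι y)) ↔ R x y := by
      intro x y
      rw [Q202.EE.emb_code_iff hf htr, hfr]
      constructor
      · rintro (h | ⟨a, b, hab, h1, h2⟩)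
        · rw [hi h]; exact hrefl y
        · rw [← hi h1, ← hi h2]; exact hab
      · intro h
        exact Or.inr ⟨x, y, h, rfl, rfl⟩
    have hemb := Q202.EE.measurableEmbedding_Phi f hm hi
    let Φ : Q202.EE.Z X → (∀ _ : ℕ, (Fin 2 → ℕ) → Bool) := fun p => Q202.EE.Phi f ι p.1
    let x₀ : X → Q202.EE.Z X := fun x => ⟨(id, id, x), fun _ => rfl, fun _ => rfl⟩
    have hx₀ : ∀ x, Φ (x₀ x) = Q202.EE.code f (ι x) := fun x => rfl
    have hinv : ∀ (σ : Equiv.Perm ℕ) (u : ∀ _ : ℕ, (Fin 2 → ℕ) → Bool),
        u ∈ Set.range Φ → (fun i v => u i (σ ∘ v)) ∈ Set.range Φ := by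
      rintro σ _ ⟨⟨⟨g, g', x⟩, hg, hg'⟩, rfl⟩
      exact ⟨⟨(g ∘ σ, σ.symm ∘ g', x), fun n => by
          change g (σ (σ.symm (g' n))) = n
          rw [σ.apply_symm_apply]; exact hg n, fun n => by
          change σ.symm (g' (g (σ n))) = n
          have : g' (g (σ n)) = σ n := hg' (σ n)
          rw [this, σ.symm_apply_apply]⟩, rfl⟩
    refine ⟨fun _ => 2, Set.range Φ, hemb.measurableSet_range, ?_, ?_, ?_⟩
    · intro σ u
      refine ⟨hinv σ u, fun h => ?_⟩
      have h1 := hinv σ.symm _ h
      have h2 : (fun (i : ℕ) (v : Fin 2 → ℕ) => u i (σ ∘ σ.symm ∘ v)) = u := by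
        funext i v
        congr 1
        funext j
        exact σ.apply_symm_apply _
      have h3 : (fun (i : ℕ) (v : Fin 2 → ℕ) => u i (σ ∘ σ.symm ∘ v)) ∈ Set.range Φ := h1
      rw [h2] at h3
      exact h3
    · refine ⟨fun x => Q202.EE.code f (ι x), ?_, fun x => ⟨x₀ x, hx₀ x⟩, fun x y => ?_⟩
      · exact measurable_pi_lambda _ fun i => measurable_pi_lambda _ fun v =>
          (Q202.EE.measurable_code f i v).comp hm
      · exact (hRiff x y).symm
    · refine ⟨fun u => (Set.rangeSplitting Φ u).1.2.2, ?_, fun u v => ?_⟩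
      · exact (measurable_snd.comp measurable_snd).comp
          (measurable_subtype_coe.comp hemb.measurable_rangeSplitting)
      · have key : ∀ u : Set.range Φ, u.1 = Φ (Set.rangeSplitting Φ u) := fun u =>
          (Set.apply_rangeSplitting Φ u).symm
        have h4 : Q202.EE.Emb u.1 v.1 ↔ R (Set.rangeSplitting Φ u).1.2.2
            (Set.rangeSplitting Φ v).1.2.2 := by
          rw [← hRiff, ← Q202.EE.emb_Phi_iff f (Set.rangeSplitting Φ u) (Set.rangeSplitting Φ v)]
          have h5 : Q202.EE.Phi f ι (Set.rangeSplitting Φ u).1 = u.1 := (key u).symm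
          have h6 : Q202.EE.Phi f ι (Set.rangeSplitting Φ v).1 = v.1 := (key v).symm
          rw [h5, h6]
        exact h4

end Pool.Agent.S14345
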