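import Pool.Statements.S14568
-- import your own Pool.Agent.* helpers here
import Pool.Agent.Q205.HighlyRec

set_option autoImplicit false
open Classical
open Pool Pool.MP_354b3e_lc

namespace Pool.Agent.S14568

theorem le_encodeList (l : List ℕ) : ∀ y ∈ l, y ≤ Encodable.encode l := by
  induction l with
  | nil => intro y hy; simp at hy
  | cons a l ih =>
    intro y hy
    rw [Encodable.encode_list_cons]
    rcases List.mem_cons.1 hy with rfl | h
    · have := Nat.left_le_pair (Encodable.encode y) (Encodable.encode l)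
      have h2 : Encodable.encode y = y := rfl
      omega
    · have := Nat.right_le_pair (Encodable.encode a) (Encodable.encode l)
      have h2 := ih y h
      omega

theorem le_encode (s : Finset ℕ) : ∀ y ∈ s, y ≤ Encodable.encode s := by
  intro y hy
  have h0 : Encodable.encode s = Encodable.encode s.val := rfl
  have h1 : (fun l : List ℕ => (l : Multiset ℕ)) <$>
      Encodable.decode (α := List ℕ) (Encodable.encode s.val) = some s.val :=
    Encodable.encodek s.val
  rw [h0]
  obtain ⟨l, h2, h3⟩ := Option.map_eq_some_iff.1 h1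
  have h4 : Encodable.encode l = Encodable.encode s.val := by
    have h5 := Denumerable.decode_eq_ofNat (List ℕ) (Encodable.encode s.val)
    rw [h5] at h2
    rw [← Option.some.inj h2, Denumerable.encode_ofNat]
  rw [← h4]
  apply le_encodeList
  rw [← Multiset.mem_coe, h3]
  exact hy

/-- The negation of the preceding statement: For every noncomputable A Turing-below the halting set there is a computable, locally finite, planar graph on ℕ whose neighbour lists are A-computable, with chromatic number 2, but with no computable proper colouring using finitely many colours. -/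
theorem result :
    ¬ (∀ A : Set ℕ,
      ¬ ComputablePred (fun n : ℕ => n ∈ A) →
      TuringReducible (fun n : ℕ => Part.some (if n ∈ A then (1 : ℕ) else 0))
        (fun n : ℕ => Part.some
          (if ((Denumerable.ofNat Nat.Partrec.Code n).eval n).Dom then (1 : ℕ) else 0)) →
      ∃ G : SimpleGraph ℕ,
        ComputablePred (fun p : ℕ × ℕ => G.Adj p.1 p.2) ∧
        (∃ N : ℕ → Finset ℕ, (∀ x y : ℕ, G.Adj x y ↔ y ∈ N x) ∧
          TuringReducible (fun x : ℕ => Part.some (Encodable.encode (N x)))
            (fun n : ℕ => Part.some (if n ∈ A then (1 : ℕ) else 0))) ∧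
        (∃ f : ℕ → EuclideanSpace ℝ (Fin 2), Function.Injective f ∧
          ∃ γ : ∀ u v : ℕ, Path (f u) (f v),
            (∀ u v : ℕ, G.Adj u v → Function.Injective (fun t : unitInterval => γ u v t)) ∧
            (∀ u v w : ℕ, G.Adj u v → ∀ t : unitInterval, γ u v t = f w → w = u ∨ w = v) ∧
            (∀ u v u' v' : ℕ, G.Adj u v → G.Adj u' v' →
              Sym2.mk (u, v) ≠ Sym2.mk (u', v') →
              ∀ t t' : unitInterval, γ u v t = γ u' v' t' →
                ∃ w : ℕ, (w = u ∨ w = v) ∧ (w = u' ∨ w = v') ∧ γ u v t = f w)) ∧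
        G.chromaticNumber = 2 ∧
        ∀ k : ℕ, ∀ c : ℕ → ℕ, Computable c → (∀ x, c x < k) →
          ∃ x y : ℕ, G.Adj x y ∧ c x = c y) := by
  intro h
  have e1 : ∀ A : Set ℕ, (fun n : ℕ => Part.some (if n ∈ A then (1 : ℕ) else 0)) =
      Pool.Agent.Helper446.Defs.chi A := fun A => rfl
  have e2 : (fun n : ℕ => Part.some
      (if ((Denumerable.ofNat Nat.Partrec.Code n).eval n).Dom then (1 : ℕ) else 0)) =
      Pool.Agent.Helper446.Defs.chi Pool.Agent.Q205.Gen1.Kset := rfl
  obtain ⟨G, hG, ⟨N, hN, hR⟩, -, hchi, hno⟩ := h Pool.Agent.Q205.Gen1.G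
    Pool.Agent.Q205.Gen1.G_not_comp (by
      rw [e1, e2]
      exact Pool.Agent.Helper446.Oracle.turingReducible_iff.2 Pool.Agent.Q205.Gen1.G_le)
  rw [e1] at hR
  have hR' := Pool.Agent.Helper446.Oracle.turingReducible_fun_iff.1 hR
  have hcol : G.Colorable 2 := by
    rw [← SimpleGraph.chromaticNumber_le_iff_colorable, hchi]
    exact le_rfl
  obtain ⟨c, hc, hc4, hcp⟩ := Pool.Agent.Q205.HighlyRec.main G hG Pool.Agent.Q205.Gen1.G
    (fun B h1 h2 => Pool.Agent.Q205.Gen1.re_compl h1 h2) N hN hR' le_encode hcol
  obtain ⟨x, y, hxy, heq⟩ := hno 4 c hc hc4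
  exact hcp x y hxy heq

end Pool.Agent.S14568
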