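import Pool.Statements.S14780
import Pool.Agent.TH54.BU.Iter
import Pool.Agent.TH54.BU.Inf

set_option autoImplicit false
open Pool Pool.MP_604f1e_lc

namespace Pool.Agent.S14780

open Pool.Agent.TH54.BU

/-- the congruence `θ_{1,m}` -/
abbrev Th (A : Type) (m : ℕ) : FreeMonoid A → FreeMonoid A → Prop :=
  fun a b => conGen (fun a b : FreeMonoid A => ∃ x : FreeMonoid A, a = x ^ 1 ∧ b = x ^ (1 + m)) a b

section cong
variable {A : Type} {m : ℕ}

theorem Th.refl (a : FreeMonoid A) : Th A m a a := (conGen _).refl a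
theorem Th.symm {a b : FreeMonoid A} (h : Th A m a b) : Th A m b a := (conGen _).symm h
theorem Th.trans {a b c : FreeMonoid A} (h : Th A m a b) (k : Th A m b c) : Th A m a c :=
  (conGen _).trans h k
theorem Th.mul {a b c d : FreeMonoid A} (h : Th A m a b) (k : Th A m c d) :
    Th A m (a * c) (b * d) := (conGen _).mul h k

theorem Th.pow (x : FreeMonoid A) : Th A m x (x ^ (1 + m)) :=
  ConGen.Rel.of _ _ ⟨x, by simp, rfl⟩

/-- `r` is a multiple (on both sides) of `s` modulo the congruence -/
def Le (m : ℕ) (r s : FreeMonoid A) : Prop := ∃ x y, Th A m r (x * s * y)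

theorem Le.trans {r s t : FreeMonoid A} (h : Le m r s) (k : Le m s t) : Le m r t := by
  obtain ⟨x, y, h⟩ := h
  obtain ⟨u, v, k⟩ := k
  refine ⟨x * u, v * y, h.trans ?_⟩
  have := ((Th.refl x).mul k).mul (Th.refl y)
  simpa [mul_assoc] using this

theorem Le.of_mul (x s y : FreeMonoid A) : Le m (x * s * y) s := ⟨x, y, Th.refl _⟩

/-- `x ≤ x ^ 2` -/
theorem le_sq (hm : 0 < m) (x : FreeMonoid A) : Le m x (x * x) := by
  obtain ⟨k, rfl⟩ : ∃ k, m = k + 1 := ⟨m - 1, by omega⟩
  refine ⟨1, x ^ k, ?_⟩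
  have h := Th.pow (m := k + 1) x
  have e : x ^ (1 + (k + 1)) = 1 * (x * x) * x ^ k := by
    rw [one_mul, show 1 + (k + 1) = 2 + k by omega, pow_add, pow_two]
  rwa [e] at h

/-- `t q ≤ q t` -/
theorem le_swap (hm : 0 < m) (s t : FreeMonoid A) : Le m (s * t) (t * s) := by
  refine (le_sq hm (s * t)).trans ?_
  have : s * t * (s * t) = s * (t * s) * t := by simp [mul_assoc]
  rw [this]
  exact Le.of_mul _ _ _

/-- if `r ≤ s` and `r ≤ t` then `r ≤ s t` -/
theorem le_mul (hm : 0 < m) {r s t : FreeMonoid A} (hs : Le m r s) (ht : Le m r t) :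
    Le m r (s * t) := by
  obtain ⟨x, y, hs⟩ := hs
  obtain ⟨z, v, ht⟩ := ht
  have h1 : Le m r (r * r) := le_sq hm r
  have h2 : Le m (r * r) (t * ((v * x) * s)) :=
    ⟨z, y, by simpa [mul_assoc] using ht.mul hs⟩
  have h3 : Le m (t * ((v * x) * s)) (((v * x) * s) * t) := le_swap hm _ _
  have h4 : Le m (((v * x) * s) * t) (s * t) := ⟨v * x, 1, by simpa [mul_assoc] using Th.refl _⟩
  exact h1.trans (h2.trans (h3.trans h4))

end cong

/-- the word `a b` -/
def ab : FreeMonoid (Fin 2) := FreeMonoid.of 0 * FreeMonoid.of 1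

theorem ab_le {m : ℕ} (hm : 0 < m) (u : FreeMonoid (Fin 2)) : Le m ab u := by
  induction u using FreeMonoid.inductionOn' with
  | one => exact ⟨ab, 1, by simpa using Th.refl _⟩
  | of_mul c u ih =>
    refine le_mul hm ?_ ih
    have : c = 0 ∨ c = 1 := by fin_cases c <;> simp
    rcases this with rfl | rfl
    · exact ⟨1, FreeMonoid.of 1, by simpa [ab] using Th.refl _⟩
    · exact ⟨FreeMonoid.of 0, 1, by simpa [ab] using Th.refl _⟩

/-- the free Burnside group of rank two -/
abbrev Bu (p : ℕ) : Type := FreeGroup (Fin 2) ⧸ powSub (FreeGroup (Fin 2)) p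

theorem bu_pow (p : ℕ) (g : Bu p) : g ^ p = 1 := by
  obtain ⟨x, rfl⟩ := QuotientGroup.mk_surjective g
  rw [← QuotientGroup.mk_pow, QuotientGroup.eq_one_iff]
  exact Subgroup.subset_normalClosure ⟨x, rfl⟩

/-- the word map -/
def val (p : ℕ) : FreeMonoid (Fin 2) →* Bu p :=
  FreeMonoid.lift fun i => ((FreeGroup.of i : FreeGroup (Fin 2)) : Bu p)

theorem val_th {p : ℕ} {a b : FreeMonoid (Fin 2)} (h : Th (Fin 2) p a b) : val p a = val p b := by
  have : conGen (fun a b : FreeMonoid (Fin 2) =>
      ∃ x : FreeMonoid (Fin 2), a = x ^ 1 ∧ b = x ^ (1 + p)) ≤ Con.ker (val p) := by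
    rw [Con.conGen_le]
    rintro a b ⟨x, rfl, rfl⟩
    show val p _ = val p _
    simp [map_pow, pow_add, bu_pow]
  exact this h

theorem val_surj {p : ℕ} (hp : 0 < p) : Function.Surjective (val p) := by
  intro g
  obtain ⟨x, rfl⟩ := QuotientGroup.mk_surjective g
  induction x using FreeGroup.induction_on with
  | C1 => exact ⟨1, by simp⟩
  | of i => exact ⟨FreeMonoid.of i, by simp [val]⟩
  | inv_of i _ =>
    refine ⟨FreeMonoid.of i ^ (p - 1), ?_⟩
    rw [map_pow]
    have h1 := bu_pow p ((FreeGroup.of i : FreeGroup (Fin 2)) : Bu p)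
    have h2 : ((FreeGroup.of i : FreeGroup (Fin 2)) : Bu p) ^ (p - 1) *
        ((FreeGroup.of i : FreeGroup (Fin 2)) : Bu p) = 1 := by
      rw [← pow_succ, Nat.sub_add_cancel hp, h1]
    have h3 := eq_inv_of_mul_eq_one_left h2
    simpa [val] using h3
  | mul x y hx hy =>
    obtain ⟨u, hu⟩ := hx
    obtain ⟨v, hv⟩ := hy
    exact ⟨u * v, by rw [map_mul, hu, hv]; rfl⟩

theorem not_regular {p : ℕ} (hp : 0 < p) (hinf : Infinite (Bu p)) :
    ¬ ∃ (σ : Type) (_ : Fintype σ) (M : DFA (Fin 2) σ),
          M.accepts = {v : List (Fin 2) | Th (Fin 2) p (FreeMonoid.ofList v) ab} := by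
  rintro ⟨σ, _, M, hM⟩
  -- words with pairwise different values
  choose w hw using val_surj (p := p) hp
  -- two of them act in the same way on the states
  have hfin : Finite (σ → σ) := inferInstance
  obtain ⟨g, h, hgh, he⟩ := Finite.exists_ne_map_eq_of_infinite
    (fun g : Bu p => fun s : σ => M.evalFrom s (FreeMonoid.toList (w g)))
  apply hgh
  obtain ⟨x, y, hxy⟩ := ab_le hp (w g)
  have h1 : FreeMonoid.toList (x * w g * y) ∈ M.accepts := by
    rw [hM]
    exact hxy.symm
  have h2 : FreeMonoid.toList (x * w h * y) ∈ M.accepts := by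
    rw [DFA.mem_accepts] at h1 ⊢
    have e1 : ∀ z : FreeMonoid (Fin 2), M.eval (FreeMonoid.toList (x * z * y)) =
        M.evalFrom (M.evalFrom (M.evalFrom M.start (FreeMonoid.toList x))
          (FreeMonoid.toList z)) (FreeMonoid.toList y) := by
      intro z
      simp [DFA.eval, FreeMonoid.toList_mul, DFA.evalFrom_of_append]
    rw [e1] at h1 ⊢
    have := congrFun he (M.evalFrom M.start (FreeMonoid.toList x))
    rw [← this]
    exact h1
  rw [hM] at h2
  have h3 : Th (Fin 2) p (x * w h * y) ab := h2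
  have h4 := val_th (h3.trans hxy)
  simp only [map_mul] at h4
  have h5 := mul_right_cancel h4
  have h6 := mul_left_cancel h5
  rw [hw, hw] at h6
  exact h6.symm

/-- The negation of the preceding statement: For every finite alphabet, all positive n and m, and every word w, the set of words congruent to w under the monoid congruence generated by x^n ~ x^(n+m) is accepted by some finite automaton. -/
theorem result :
    ¬ (∀ (A : Type) [Fintype A] (n m : ℕ), 0 < n → 0 < m →
      ∀ w : FreeMonoid A,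
        ∃ (σ : Type) (_ : Fintype σ) (M : DFA A σ),
          M.accepts =
            {v : List A |
              conGen (fun a b : FreeMonoid A => ∃ x : FreeMonoid A, a = x ^ n ∧ b = x ^ (n + m))
                (FreeMonoid.ofList v) w}) := by
  intro H
  obtain ⟨p0, hp0⟩ := burnside
  obtain ⟨p, hp, hpp⟩ := Nat.exists_infinite_primes p0
  have hb := hp0 p hpp hp
  exact not_regular hpp.pos (Burn.infinite hpp hb) (H (Fin 2) 1 p Nat.one_pos hpp.pos ab)

end Pool.Agent.S14780
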