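import Pool.Statements.S14895

set_option autoImplicit false
open Pool Pool.MP_735cdd_lc

namespace Pool.Agent.S14895

open FirstOrder FirstOrder.Language

/-- The word `y₀ (y₁ (… (y_{n-1} g²)² …)²)²`. -/
def w {G : Type} [Mul G] : ℕ → (ℕ → G) → G → G
  | 0, _, g => g
  | n + 1, y, g => w n y (y n * (g * g))

abbrev Lg : FirstOrder.Language := FirstOrder.Language.mk (fun _ => Unit) (fun _ => Empty)

/-- The same word, as a term. -/
def W {α : Type} (y : ℕ → Lg.Term α) : ℕ → Lg.Term α → Lg.Term α
  | 0, t => t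
  | n + 1, t => W y n
      (Functions.apply₂ (L := Lg) () (y n) (Functions.apply₂ (L := Lg) () t t))

/-- `∃ z, v = w_n(y_0, …, y_{n-1}, z)`. -/
def psi (n : ℕ) : Lg.Formula (Unit ⊕ ℕ) :=
  BoundedFormula.ex (Term.bdEqual (Term.var (Sum.inl (Sum.inl ())))
    (W (fun i => Term.var (Sum.inl (Sum.inr i))) n (Term.var (Sum.inr 0))))

section

variable {G : Type} [Group G] [S : Lg.Structure G]
  (hS : ∀ (n : ℕ) (f : Lg.Functions n) (xs : Fin n → G),
    FirstOrder.Language.Structure.funMap f xs = (List.ofFn xs).prod)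

include hS

theorem realize_mul {α : Type} (v : α → G) (s t : Lg.Term α) :
    (Functions.apply₂ (L := Lg) () s t).realize v = s.realize v * t.realize v := by
  rw [Term.realize_functions_apply₂, hS]
  simp [List.ofFn_succ]

theorem realize_W {α : Type} (v : α → G) (y : ℕ → Lg.Term α) (n : ℕ) (t : Lg.Term α) :
    (W y n t).realize v = w n (fun i => (y i).realize v) (t.realize v) := by
  induction n generalizing t with
  | zero => rfl
  | succ n ih => rw [W, ih, w, realize_mul hS, realize_mul hS]

theorem realize_psi (n : ℕ) (c : G) (a : ℕ → G) :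
    (psi n).Realize (Sum.elim (fun _ => c) a) ↔ ∃ z : G, c = w n a z := by
  unfold psi Formula.Realize
  rw [BoundedFormula.realize_ex]
  refine exists_congr fun z => ?_
  rw [BoundedFormula.realize_bdEqual, realize_W hS]
  rfl

end

theorem realize_iso_nat {G : Type} [Group G] [Lg.Structure G]
    (hS : ∀ (n : ℕ) (f : Lg.Functions n) (xs : Fin n → G),
      FirstOrder.Language.Structure.funMap f xs = (List.ofFn xs).prod)
    (φ : Lg.Formula ℕ) (a b : ℕ → G)
    (h : ∀ n : ℕ, ∃ α : G ≃* G, ∀ i < n, α (a i) = b i) :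
    φ.Realize a ↔ φ.Realize b := by
  classical
  obtain ⟨n, hn⟩ : ∃ n : ℕ, ∀ i ∈ φ.freeVarFinset, i < n :=
    ⟨φ.freeVarFinset.sup id + 1, fun i hi => Nat.lt_succ_of_le (Finset.le_sup (f := id) hi)⟩
  obtain ⟨α, hα⟩ := h n
  let e : G ≃[Lg] G :=
    { toEquiv := α.toEquiv
      map_fun' := by
        intro n f xs
        rw [hS, hS]
        show α _ = _
        rw [map_list_prod, List.map_ofFn]
        rfl
      map_rel' := fun r => r.elim }
  have h1 : φ.Realize (e ∘ a) ↔ φ.Realize a := StrongHomClass.realize_formula e φ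
  rw [← h1]
  have key : ∀ v : ℕ → G, φ.Realize v ↔
      (BoundedFormula.restrictFreeVar φ (id : φ.freeVarFinset → φ.freeVarFinset)).Realize
        (fun i => v i) default := by
    intro v
    exact (BoundedFormula.realize_restrictFreeVar (L := Lg) (φ := φ)
      (f := (id : φ.freeVarFinset → φ.freeVarFinset)) (v := fun i => v i) v (fun _ => rfl)).symm
  rw [key, key]
  have h2 : (fun i : φ.freeVarFinset => (e ∘ a) i) = (fun i : φ.freeVarFinset => b i) := by
    funext i
    exact hα i (hn i i.2)
  rw [h2]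

theorem exists_aut {G : Type} [Group G] (X : Set G) (hcl : Subgroup.closure X = ⊤)
    (hext : ∀ f : X → G, ∃ φ : G →* G, ∀ x : X, φ x = f x) (e : ℕ → G) (he : ∀ i, e i ∈ X)
    (hinj : Function.Injective e) (n : ℕ) :
    ∃ α : G ≃* G, (∀ i < n, α (e i) = e i * ((e (i + 1)) * (e (i + 1)))⁻¹) ∧
      ∀ x ∈ X, (∀ i < n, x ≠ e i) → α x = x := by
  classical
  have huniq : ∀ f g : G →* G, (∀ x ∈ X, f x = g x) → f = g := by
    intro f g h
    exact MonoidHom.eq_of_eqOn_dense hcl h
  induction n with
  | zero => exact ⟨MulEquiv.refl G, by simp, fun x _ _ => rfl⟩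
  | succ n ih =>
    obtain ⟨α, h1, h2⟩ := ih
    obtain ⟨γ, hγ⟩ := hext (fun x => if (x : G) = e n then e n * (e (n + 1) * e (n + 1))⁻¹ else x)
    obtain ⟨δ, hδ⟩ := hext (fun x => if (x : G) = e n then e n * (e (n + 1) * e (n + 1)) else x)
    have hγ1 : γ (e n) = e n * (e (n + 1) * e (n + 1))⁻¹ := by
      have := hγ ⟨e n, he n⟩
      simpa using this
    have hγ2 : ∀ x ∈ X, x ≠ e n → γ x = x := by
      intro x hx hne
      have := hγ ⟨x, hx⟩
      simpa [hne] using this
    have hδ1 : δ (e n) = e n * (e (n + 1) * e (n + 1)) := by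
      have := hδ ⟨e n, he n⟩
      simpa using this
    have hδ2 : ∀ x ∈ X, x ≠ e n → δ x = x := by
      intro x hx hne
      have := hδ ⟨x, hx⟩
      simpa [hne] using this
    have hne : e (n + 1) ≠ e n := fun h => absurd (hinj h) (by omega)
    have hγ3 := hγ2 _ (he (n + 1)) hne
    have hδ3 := hδ2 _ (he (n + 1)) hne
    have e1 : γ.comp δ = MonoidHom.id G := by
      refine huniq _ _ fun x hx => ?_
      by_cases h : x = e n
      · subst h
        simp only [MonoidHom.comp_apply, MonoidHom.id_apply, hδ1, map_mul, hγ1, hγ3]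
        group
      · simp only [MonoidHom.comp_apply, MonoidHom.id_apply, hδ2 x hx h, hγ2 x hx h]
    have e2 : δ.comp γ = MonoidHom.id G := by
      refine huniq _ _ fun x hx => ?_
      by_cases h : x = e n
      · subst h
        simp only [MonoidHom.comp_apply, MonoidHom.id_apply, hγ1, map_mul, map_inv, hδ1, hδ3]
        group
      · simp only [MonoidHom.comp_apply, MonoidHom.id_apply, hδ2 x hx h, hγ2 x hx h]
    let Γ : G ≃* G := MonoidHom.toMulEquiv γ δ e2 e1
    refine ⟨Γ.trans α, ?_, ?_⟩
    · intro i hi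
      show α (γ (e i)) = _
      rcases Nat.lt_succ_iff_lt_or_eq.1 hi with hlt | rfl
      · rw [hγ2 _ (he i) (fun h => absurd (hinj h) (by omega)), h1 i hlt]
      · rw [hγ1, map_mul, map_inv, map_mul,
          h2 _ (he i) (fun j hj h => absurd (hinj h) (by omega)),
          h2 _ (he (i + 1)) (fun j hj h => absurd (hinj h) (by omega))]
    · intro x hx hxn
      show α (γ x) = _
      rw [hγ2 x hx (hxn n (by omega)), h2 x hx (fun i hi => hxn i (by omega))]

theorem w_map {G : Type} [Group G] (ε : G →* G) (n : ℕ) (y : ℕ → G) (g : G) :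
    ε (w n y g) = w n (fun i => ε (y i)) (ε g) := by
  induction n generalizing g with
  | zero => rfl
  | succ n ih => rw [w, ih, w, map_mul, map_mul]

theorem w_one {G : Type} [Group G] (n : ℕ) (y : ℕ → G) (hy : ∀ i < n, y i = 1) (g : G) :
    w n y g = g ^ (2 ^ n) := by
  induction n generalizing g with
  | zero => simp [w]
  | succ n ih =>
    rw [w, ih (fun i hi => hy i (by omega)), hy n (by omega), one_mul, ← pow_two, ← pow_mul]
    congr 1
    ring

theorem w_self {G : Type} [Group G] (e : ℕ → G) (n : ℕ) :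
    w n (fun i => e i * (e (i + 1) * e (i + 1))⁻¹) (e n) = e 0 := by
  induction n with
  | zero => rfl
  | succ n ih => rw [w, inv_mul_cancel_right, ih]

/-- Every torsion-free group that is free in its own variety on an infinite basis fails ℵ1-homogeneity: some countable tuples a, b share a type, yet some element c has no d making (c,a) and (d,b) share a type. -/
theorem result :
  ∀ (G : Type) [Group G],
    (∀ g : G, ∀ n : ℕ, 0 < n → g ^ n = 1 → g = 1) →
    (∃ X : Set G, X.Infinite ∧ Subgroup.closure X = ⊤ ∧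
      ∀ f : X → G, ∃ φ : G →* G, ∀ x : X, φ x = f x) →
    ∀ [S : (FirstOrder.Language.mk (fun _ => Unit) (fun _ => Empty)).Structure G],
      (∀ (n : ℕ) (f : (FirstOrder.Language.mk (fun _ => Unit) (fun _ => Empty)).Functions n)
          (xs : Fin n → G),
        FirstOrder.Language.Structure.funMap f xs = (List.ofFn xs).prod) →
      ¬ ∀ a b : ℕ → G,
        (∀ φ : (FirstOrder.Language.mk (fun _ => Unit) (fun _ => Empty)).Formula ℕ,
          φ.Realize a ↔ φ.Realize b) →
        ∀ c : G, ∃ d : G,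
          ∀ ψ : (FirstOrder.Language.mk (fun _ => Unit) (fun _ => Empty)).Formula (Unit ⊕ ℕ),
            ψ.Realize (Sum.elim (fun _ => c) a) ↔ ψ.Realize (Sum.elim (fun _ => d) b) := by
  intro G _ htf ⟨X, hX, hcl, hext⟩ S hS H
  classical
  let ι : ℕ ↪ X := hX.natEmbedding
  let e : ℕ → G := fun i => (ι i : G)
  have he : ∀ i, e i ∈ X := fun i => (ι i).2
  have hinj : Function.Injective e := fun i j h => ι.injective (Subtype.ext h)
  -- the two tuples have the same type
  have htype : ∀ φ : Lg.Formula ℕ, φ.Realize e ↔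
      φ.Realize (fun i => e i * (e (i + 1) * e (i + 1))⁻¹) := by
    intro φ
    refine realize_iso_nat hS φ _ _ fun n => ?_
    obtain ⟨α, h1, -⟩ := exists_aut X hcl hext e he hinj n
    exact ⟨α, h1⟩
  obtain ⟨d, hd⟩ := H _ e (fun φ => (htype φ).symm) (e 0)
  have hz : ∀ n, ∃ z, d = w n e z := by
    intro n
    have h1 := (realize_psi hS n (e 0) (fun i => e i * (e (i + 1) * e (i + 1))⁻¹)).2
      ⟨e n, (w_self e n).symm⟩
    exact (realize_psi hS n d e).1 ((hd (psi n)).1 h1)
  -- the endomorphisms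
  have hε : ∀ k : ℕ, ∃ ε : G →* G, ∀ x ∈ X, ε x = if x = e k then e k else 1 := by
    intro k
    obtain ⟨ε, h⟩ := hext (fun x => if (x : G) = e k then e k else 1)
    exact ⟨ε, fun x hx => h ⟨x, hx⟩⟩
  choose ε hε using hε
  have hfin : ∀ g : G, ∃ N, ∀ k ≥ N, ε k g = 1 := by
    intro g
    have hg : g ∈ Subgroup.closure X := by rw [hcl]; trivial
    induction hg using Subgroup.closure_induction with
    | mem x hx =>
      by_cases h : ∃ j, x = e j
      · obtain ⟨j, rfl⟩ := h
        refine ⟨j + 1, fun k hk => ?_⟩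
        rw [hε k _ hx, if_neg]
        intro h
        have := hinj h
        omega
      · refine ⟨0, fun k _ => ?_⟩
        rw [hε k _ hx, if_neg]
        intro h'
        exact h ⟨k, h'⟩
    | one => exact ⟨0, fun k _ => map_one _⟩
    | mul x y _ _ hx hy =>
      obtain ⟨N, hN⟩ := hx
      obtain ⟨M, hM⟩ := hy
      refine ⟨max N M, fun k hk => ?_⟩
      rw [map_mul, hN k (le_trans (le_max_left _ _) hk), hM k (le_trans (le_max_right _ _) hk),
        one_mul]
    | inv x _ hx =>
      obtain ⟨N, hN⟩ := hx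
      exact ⟨N, fun k hk => by rw [map_inv, hN k hk, inv_one]⟩
  have hrange : ∀ (k : ℕ) (g : G), ∃ m : ℤ, ε k g = e k ^ m := by
    intro k g
    have hg : g ∈ Subgroup.closure X := by rw [hcl]; trivial
    induction hg using Subgroup.closure_induction with
    | mem x hx =>
      rw [hε k x hx]
      split_ifs
      · exact ⟨1, by simp⟩
      · exact ⟨0, by simp⟩
    | one => exact ⟨0, by simp⟩
    | mul x y _ _ hx hy =>
      obtain ⟨m, hm⟩ := hx
      obtain ⟨l, hl⟩ := hy
      exact ⟨m + l, by rw [map_mul, hm, hl, zpow_add]⟩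
    | inv x _ hx =>
      obtain ⟨m, hm⟩ := hx
      exact ⟨-m, by rw [map_inv, hm, zpow_neg]⟩
  have hne1 : ∀ k, e k ≠ 1 := by
    intro k hk
    obtain ⟨φ, hφ⟩ := hext (fun _ => e (k + 1))
    have h1 := hφ ⟨e k, he k⟩
    have h2 : e (k + 1) = 1 := by
      rw [← h1]
      show φ (e k) = 1
      rw [hk, map_one]
    exact absurd (hinj (hk.trans h2.symm)) (by omega)
  obtain ⟨k, hk⟩ := hfin d
  have hdk := hk k le_rfl
  obtain ⟨z, hz⟩ := hz (k + 1)
  obtain ⟨m, hm⟩ := hrange k z
  rw [hz, w_map, w, w_one, hm, hε k _ (he k), if_pos rfl] at hdk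
  · have h1 : e k * (e k ^ m * e k ^ m) = 1 :=
      htf _ (2 ^ k) (by positivity) hdk
    have h2 : e k ^ (1 + 2 * m) = 1 := by
      rw [← h1, zpow_add, zpow_one, two_mul, zpow_add]
    have h3 : (e k) ^ (1 + 2 * m).natAbs = 1 := by
      rcases Int.natAbs_eq (1 + 2 * m) with h | h
      · rw [← zpow_natCast, ← h, h2]
      · have : ((1 + 2 * m).natAbs : ℤ) = -(1 + 2 * m) := by omega
        rw [← zpow_natCast, this, zpow_neg, h2, inv_one]
    exact hne1 k (htf _ _ (by omega) h3)
  · intro i hi
    rw [hε k _ (he i), if_neg]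
    intro h
    have := hinj h
    omega

end Pool.Agent.S14895
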