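import Pool.Statements.S14999
import Pool.Agent.Q220.QuadDegB

set_option autoImplicit false
open Pool Pool.MP_8565d5_lc

namespace Pool.Agent.S14999

/-- For every k there is a prime t and a proper subset D of the weight-at-most-2 exponents below 2^t, closed under doubling mod 2^t−1 and under binary shadows, such that the F_2-valued functions on F_{2^t} spanned by x^d, d in D, admit no characterization by k-point constraints. -/
theorem result :
    ∀ k : ℕ, ∃ t : ℕ, t.Prime ∧ ∃ D : Finset ℕ,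
      (∀ d ∈ D, d < 2 ^ t ∧ (Nat.digits 2 d).sum ≤ 2) ∧
      (∃ d : ℕ, d < 2 ^ t ∧ (Nat.digits 2 d).sum ≤ 2 ∧ d ∉ D) ∧
      (∀ d ∈ D, d ≠ 0 → (2 * d - 1) % (2 ^ t - 1) + 1 ∈ D) ∧
      (∀ d ∈ D, ∀ e : ℕ, (∀ i : ℕ, e.testBit i = true → d.testBit i = true) → e ∈ D) ∧
      ¬ ∃ C : Set ((Fin k → GaloisField 2 t) × Set (Fin k → ZMod 2)),
          ∀ f : GaloisField 2 t → ZMod 2,
            ((∃ c : ℕ → GaloisField 2 t, ∀ x : GaloisField 2 t,
                algebraMap (ZMod 2) (GaloisField 2 t) (f x) = ∑ d ∈ D, c d * x ^ d) ↔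
              ∀ p ∈ C, (fun i => f (p.1 i)) ∈ p.2) := by
  intro k
  obtain ⟨t, htk, htp⟩ := Nat.exists_infinite_primes (k + 5)
  have hodd : Odd t := htp.odd_of_ne_two (by omega)
  refine ⟨t, htp, Q220.QuadDeg.D t, fun d hd => Q220.QuadDeg.weight_le (by omega) hd,
    ⟨3, ?_, ?_, Q220.QuadDeg.three_notMem (by omega)⟩,
    fun d hd h0 => Q220.QuadDeg.double_mem (by omega) hd h0,
    fun d hd e h => Q220.QuadDeg.shadow_mem (by omega) hd h, ?_⟩
  · have : 2 ^ 2 ≤ 2 ^ t := Nat.pow_le_pow_right (by norm_num) (by omega)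
    omega
  · norm_num
  · exact Q220.QuadDeg.main (by omega) hodd (GaloisField.card 2 t (by omega))
      (GaloisField.finrank 2 (by omega)) (by omega)

end Pool.Agent.S14999
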