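import Pool.Statements.S15144
import Pool.Agent.Q201.IntAlg

set_option autoImplicit false
open Pool Pool.MP_a2ec29_lc

namespace Pool.Agent.S15144

open Q201.IA Q201.Comp

/-- the algebra of finite and cofinite sets -/
def FCA : BooleanSubalgebra (Option ℕ → Bool) where
  carrier := {h | FC h}
  supClosed' := by
    intro a ha b hb
    rcases ha with ha | ha
    · rcases hb with hb | hb
      · left
        refine (ha.union hb).subset fun x hx => ?_
        have hx' : (a x || b x) = true := hx
        rcases Bool.or_eq_true_iff.1 hx' with h | h
        · exact Or.inl h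
        · exact Or.inr h
      · right
        refine hb.subset fun x hx => ?_
        have hx' : (a x || b x) = false := hx
        exact (Bool.or_eq_false_iff.1 hx').2
    · right
      refine ha.subset fun x hx => ?_
      have hx' : (a x || b x) = false := hx
      exact (Bool.or_eq_false_iff.1 hx').1
  infClosed' := by
    intro a ha b hb
    rcases ha with ha | ha
    · left
      refine ha.subset fun x hx => ?_
      have hx' : (a x && b x) = true := hx
      exact ((Bool.and_eq_true _ _).mp hx').1
    · rcases hb with hb | hb
      · left
        refine hb.subset fun x hx => ?_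
        have hx' : (a x && b x) = true := hx
        exact ((Bool.and_eq_true _ _).mp hx').2
      · right
        refine (ha.union hb).subset fun x hx => ?_
        have hx' : (a x && b x) = false := hx
        rcases (Bool.and_eq_false_iff).1 hx' with h | h
        · exact Or.inl h
        · exact Or.inr h
  compl_mem' := by
    intro a ha
    rcases ha with ha | ha
    · right
      refine ha.subset fun x hx => ?_
      have hx' : (!(a x)) = false := hx
      simpa using hx'
    · left
      refine ha.subset fun x hx => ?_
      have hx' : (!(a x)) = true := hx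
      simpa using hx'
  bot_mem' := by
    left
    refine Set.finite_empty.subset fun x hx => ?_
    have hx' : false = true := hx
    exact absurd hx' (by simp)

theorem xor_iff (p q : Prop) : Xor' p q ↔ ¬ (p ↔ q) := by
  change ((p ∧ ¬ q) ∨ (q ∧ ¬ p)) ↔ _
  tauto

/-- the interval algebra of the natural numbers consists of the finite and cofinite sets -/
theorem intal_iff (X : Set ℕ) :
    (∃ S : Finset ℕ, ∃ b : Bool,
      X = {x : ℕ | Xor' (b = true) (Odd (S.filter (fun s => s ≤ x)).card)}) ↔
    (X.Finite ∨ Xᶜ.Finite) := by
  classical
  constructor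
  · rintro ⟨S, b, rfl⟩
    have hconst : ∀ x, S.sup id ≤ x → S.filter (fun s => s ≤ x) = S := by
      intro x hx
      apply Finset.filter_true_of_mem
      intro s hs
      exact (Finset.le_sup (f := id) hs).trans hx
    by_cases h : Xor' (b = true) (Odd S.card)
    · right
      refine (Set.finite_Iio (S.sup id)).subset fun x hx => ?_
      by_contra hcon
      apply hx
      have hle : S.sup id ≤ x := by
        by_contra h2
        exact hcon (Set.mem_Iio.2 (by omega))
      change Xor' _ _
      rw [hconst x hle]
      exact h
    · left
      refine (Set.finite_Iio (S.sup id)).subset fun x hx => ?_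
      by_contra hcon
      have hle : S.sup id ≤ x := by
        by_contra h2
        exact hcon (Set.mem_Iio.2 (by omega))
      have hx' : Xor' (b = true) (Odd (S.filter (fun s => s ≤ x)).card) := hx
      rw [hconst x hle] at hx'
      exact h hx'
  · intro hX
    obtain ⟨N, hN⟩ : ∃ N, ∀ x, N ≤ x → (x + 1 ∈ X ↔ x ∈ X) := by
      rcases hX with hX | hX
      · obtain ⟨B, hB⟩ := hX.bddAbove
        refine ⟨B + 1, fun x hx => ?_⟩
        have h1 : x ∉ X := fun h => by have := hB h; omega
        have h2 : x + 1 ∉ X := fun h => by have := hB h; omega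
        simp [h1, h2]
      · obtain ⟨B, hB⟩ := hX.bddAbove
        refine ⟨B + 1, fun x hx => ?_⟩
        have h1 : x ∈ X := by
          by_contra h
          have := hB h; omega
        have h2 : x + 1 ∈ X := by
          by_contra h
          have := hB h; omega
        simp [h1, h2]
    refine ⟨(Finset.range (N + 1)).filter (fun i => 1 ≤ i ∧ ¬ (i ∈ X ↔ i - 1 ∈ X)),
      decide (0 ∈ X), ?_⟩
    ext x
    change x ∈ X ↔ Xor' _ _
    induction x with
    | zero =>
      have h1 : (((Finset.range (N + 1)).filter (fun i => 1 ≤ i ∧ ¬ (i ∈ X ↔ i - 1 ∈ X))).filter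
          (fun s => s ≤ 0)) = ∅ := by
        ext i
        simp only [Finset.mem_filter, Finset.notMem_empty, iff_false]
        rintro ⟨⟨_, h, _⟩, h2⟩
        omega
      rw [h1, xor_iff]
      simp
    | succ x ih =>
      set S := (Finset.range (N + 1)).filter (fun i => 1 ≤ i ∧ ¬ (i ∈ X ↔ i - 1 ∈ X)) with hS
      by_cases hmem : x + 1 ∈ S
      · have h1 : S.filter (fun s => s ≤ x + 1) = insert (x + 1) (S.filter (fun s => s ≤ x)) := by
          ext i
          simp only [Finset.mem_filter, Finset.mem_insert]
          constructor
          · rintro ⟨h2, h3⟩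
            by_cases h4 : i = x + 1
            · exact Or.inl h4
            · exact Or.inr ⟨h2, by omega⟩
          · rintro (rfl | ⟨h2, h3⟩)
            · exact ⟨hmem, le_rfl⟩
            · exact ⟨h2, by omega⟩
        rw [h1, Finset.card_insert_of_notMem (by simp)]
        have h5 : ¬ (x + 1 ∈ X ↔ x ∈ X) := by
          have := (Finset.mem_filter.1 hmem).2.2
          simpa using this
        have h6 : Odd ((S.filter (fun s => s ≤ x)).card + 1) ↔
            ¬ Odd (S.filter (fun s => s ≤ x)).card := Nat.odd_add_one
        rw [h6, xor_iff]
        rw [xor_iff] at ih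
        tauto
      · have h1 : S.filter (fun s => s ≤ x + 1) = S.filter (fun s => s ≤ x) := by
          ext i
          simp only [Finset.mem_filter]
          constructor
          · rintro ⟨h2, h3⟩
            refine ⟨h2, ?_⟩
            by_contra h4
            have : i = x + 1 := by omega
            exact hmem (this ▸ h2)
          · rintro ⟨h2, h3⟩
            exact ⟨h2, by omega⟩
        rw [h1]
        have h5 : (x + 1 ∈ X ↔ x ∈ X) := by
          by_cases hx : N ≤ x
          · exact hN x hx
          · by_contra h7
            apply hmem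
            rw [hS, Finset.mem_filter]
            refine ⟨Finset.mem_range.2 (by omega), by omega, ?_⟩
            simpa using h7
        rw [h5]
        exact ih

/-- The negation of the preceding statement: Take any computable infinite linear order L and computable Boolean algebra B isomorphic to the algebra of finite unions of half-open intervals of L. Then some computable copy of L makes B computably isomorphic to that copy's interval algebra. -/
theorem result :
    ¬ (∀ (β : Type) [LinearOrder β] (l : ℕ ≃ β),
      ComputablePred (fun p : ℕ × ℕ => l p.1 ≤ l p.2) →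
      ∀ (α : Type) [BooleanAlgebra α] (e : ℕ ≃ α),
        Computable₂ (fun m n : ℕ => e.symm (e m ⊔ e n)) →
        Computable₂ (fun m n : ℕ => e.symm (e m ⊓ e n)) →
        Computable (fun n : ℕ => e.symm (e n)ᶜ) →
        (∃ φ : α → Set β, Function.Injective φ ∧
            (∀ a b, φ (a ⊔ b) = φ a ∪ φ b) ∧
            (∀ a, φ aᶜ = (φ a)ᶜ) ∧
            Set.range φ = {X : Set β | ∃ S : Finset β, ∃ b : Bool,
              X = {x : β | Xor' (b = true) (Odd (S.filter (fun s => s ≤ x)).card)}}) →
        ∃ l' : ℕ ≃ β, ComputablePred (fun p : ℕ × ℕ => l' p.1 ≤ l' p.2) ∧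
          ∃ ψ : α → Set β, Function.Injective ψ ∧
            (∀ a b, ψ (a ⊔ b) = ψ a ∪ ψ b) ∧
            (∀ a, ψ aᶜ = (ψ a)ᶜ) ∧
            Set.range ψ = {X : Set β | ∃ S : Finset β, ∃ b : Bool,
              X = {x : β | Xor' (b = true) (Odd (S.filter (fun s => s ≤ x)).card)}} ∧
            ∃ c : ℕ → List ℕ × Bool, Computable c ∧
              ∀ n : ℕ, ψ (e n) = {x : β | Xor' ((c n).2 = true)
                (Odd ((c n).1.filter (fun s => decide (l' s ≤ x))).length)}) := by
  classical
  intro H
  obtain ⟨g, hgc, hg, hgr⟩ := exists_injective_noncomputable_range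
  let v : ℕ → FCA := fun n => ⟨val g n, val_FC hg n⟩
  have hvb : Function.Bijective v := by
    constructor
    · intro m n h
      exact val_injective (congrArg Subtype.val h)
    · rintro ⟨h, hh⟩
      obtain ⟨n, hn⟩ := exists_val hg h hh
      exact ⟨n, Subtype.ext hn⟩
  let e : ℕ ≃ FCA := Equiv.ofBijective v hvb
  have he : ∀ n, (e n).1 = val g n := fun n => rfl
  have hes : ∀ a : FCA, val g (e.symm a) = a.1 := by
    intro a
    rw [← he, e.apply_symm_apply]
  let ε : ℕ ≃ Option ℕ := (Denumerable.eqv (Option ℕ)).symm
  let φ : FCA → Set ℕ := fun a => {x | a.1 (ε x) = true}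
  have hleN : ComputablePred (fun p : ℕ × ℕ => (Equiv.refl ℕ) p.1 ≤ (Equiv.refl ℕ) p.2) :=
    ⟨inferInstance, (le2 Computable.fst Computable.snd).of_eq fun p => by
      apply decide_eq_decide.2; rfl⟩
  obtain ⟨l', -, ψ, hψi, hψu, hψc, hψr, c, hc, hψc'⟩ := H ℕ (Equiv.refl ℕ) hleN FCA e
    (comp_op hgc (fun a b => a || b) _ (fun m n x => by
      rw [hes]; rfl))
    (comp_op hgc (fun a b => a && b) _ (fun m n x => by
      rw [hes]; rfl))
    (by
      have h1 : Computable₂ (fun m _n : ℕ => e.symm (e m)ᶜ) :=
        comp_op hgc (fun a _ => !a) (fun m _n => e.symm (e m)ᶜ) (fun m n x => by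
          rw [hes]; rfl)
      exact h1.comp Computable.id (Computable.const 0))
    ⟨φ, by
      intro a b hab
      apply Subtype.ext
      funext x
      have h1 : ε.symm x ∈ φ a ↔ ε.symm x ∈ φ b := by rw [hab]
      have h2 : a.1 x = true ↔ b.1 x = true := by
        simpa [φ] using h1
      exact Bool.eq_iff_iff.2 h2, by
      intro a b
      ext x
      have h1 : (a ⊔ b).1 (ε x) = (a.1 (ε x) || b.1 (ε x)) := rfl
      change (a ⊔ b).1 (ε x) = true ↔ (a.1 (ε x) = true ∨ b.1 (ε x) = true)
      rw [h1, Bool.or_eq_true], by
      intro a
      ext x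
      have h1 : (aᶜ).1 (ε x) = !(a.1 (ε x)) := rfl
      change (aᶜ).1 (ε x) = true ↔ ¬ (a.1 (ε x) = true)
      rw [h1]
      simp, by
      ext X
      change X ∈ Set.range φ ↔ (∃ S : Finset ℕ, ∃ b : Bool,
        X = {x : ℕ | Xor' (b = true) (Odd (S.filter (fun s => s ≤ x)).card)})
      rw [intal_iff]
      constructor
      · rintro ⟨a, rfl⟩
        rcases a.2 with ha | ha
        · left
          exact ha.preimage ε.injective.injOn
        · right
          refine (ha.preimage (f := ε) ε.injective.injOn).subset fun x hx => ?_
          have hx' : ¬ (a.1 (ε x) = true) := hx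
          simpa using hx'
      · intro hX
        refine ⟨⟨fun x => decide (ε.symm x ∈ X), ?_⟩, ?_⟩
        · rcases hX with hX | hX
          · left
            refine (hX.image ε).subset fun x hx => ?_
            have hx' : decide (ε.symm x ∈ X) = true := hx
            exact ⟨ε.symm x, by simpa using hx', by simp⟩
          · right
            refine (hX.image ε).subset fun x hx => ?_
            have hx' : decide (ε.symm x ∈ X) = false := hx
            exact ⟨ε.symm x, by simpa using hx', by simp⟩
        · ext x
          change decide (ε.symm (ε x) ∈ X) = true ↔ x ∈ X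
          simp⟩
  have hψr' : ∀ X : Set ℕ, X ∈ Set.range ψ ↔ (X.Finite ∨ Xᶜ.Finite) := by
    intro X
    rw [← intal_iff, hψr]
    rfl
  have hmono : ∀ a b : FCA, a ≤ b ↔ ψ a ⊆ ψ b := by
    intro a b
    rw [← Set.union_eq_right, ← hψu, hψi.eq_iff, sup_eq_right]
  -- finiteness is preserved
  have hfin : ∀ a : FCA, (ψ a).Finite ↔ {x | a.1 x = true}.Finite := by
    intro a
    constructor
    · intro h1
      by_contra h2
      have h3 : {b : FCA | b ≤ a}.Finite := by
        refine Set.Finite.of_finite_image (f := ψ) ?_ hψi.injOn
        refine h1.finite_subsets.subset ?_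
        rintro _ ⟨b, hb, rfl⟩
        exact (hmono b a).1 hb
      -- singletons
      let σ : Option ℕ → FCA := fun x => ⟨fun y => decide (y = x), by
        left
        refine (Set.finite_singleton x).subset fun y hy => ?_
        have : decide (y = x) = true := hy
        simpa using this⟩
      have hσ : Function.Injective σ := by
        intro x y hxy
        have h4 := congrFun (congrArg Subtype.val hxy) x
        have h5 : decide (x = x) = decide (x = y) := h4
        simpa using h5
      apply h2
      refine Set.Finite.of_finite_image (f := σ) (h3.subset ?_) hσ.injOn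
      rintro _ ⟨x, hx, rfl⟩
      change (σ x).1 ≤ a.1
      intro y
      by_cases hyx : y = x
      · subst hyx
        have hx' : a.1 y = true := hx
        rw [hx']
        exact Bool.le_true _
      · have : (σ x).1 y = false := by
          change decide (y = x) = false
          simp [hyx]
        rw [this]
        exact Bool.false_le _
    · intro h1
      have h3 : {b : FCA | b ≤ a}.Finite := by
        refine Set.Finite.of_finite_image (f := fun b : FCA => {x | b.1 x = true}) ?_ ?_
        · refine h1.finite_subsets.subset ?_
          rintro _ ⟨b, hb, rfl⟩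
          intro x hx
          have hbx : b.1 x = true := hx
          have hb' : b.1 x ≤ a.1 x := hb x
          rw [hbx] at hb'
          exact Bool.eq_true_of_true_le hb'
        · intro b _ b' _ hbb
          apply Subtype.ext
          funext x
          have : x ∈ {x | b.1 x = true} ↔ x ∈ {x | b'.1 x = true} := by
            have hbb' : {x | b.1 x = true} = {x | b'.1 x = true} := hbb
            rw [hbb']
          exact Bool.eq_iff_iff.2 this
      have h4 : ∀ x : ℕ, ∃ b : FCA, ψ b = {x} := by
        intro x
        exact (hψr' {x}).2 (Or.inl (Set.finite_singleton x))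
      choose τ hτ using h4
      have hτi : Function.Injective τ := by
        intro x y hxy
        have : ({x} : Set ℕ) = {y} := by rw [← hτ, ← hτ, hxy]
        simpa using this
      refine Set.Finite.of_finite_image (f := τ) (h3.subset ?_) hτi.injOn
      rintro _ ⟨x, hx, rfl⟩
      change τ x ≤ a
      rw [hmono, hτ]
      simpa using hx
  -- the codes of the initial segments
  have hTr : ∀ s, ({x | (e (2 ^ (s + 1))).1 x = true}.Finite ↔ ¬ Tr g s) := by
    intro s
    rw [he]
    constructor
    · intro h1 hs
      refine Set.infinite_univ (α := ℕ) ?_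
      have h2 : Function.Injective (fun y : ℕ => (some (s + y) : Option ℕ)) := by
        intro a b hab
        simpa using hab
      refine Set.Finite.of_finite_image (f := fun y : ℕ => (some (s + y) : Option ℕ))
        (h1.subset ?_) h2.injOn
      rintro _ ⟨y, -, rfl⟩
      change val g (2 ^ (s + 1)) (some (s + y)) = true
      rw [(val_pow s).2]
      rcases Nat.eq_zero_or_pos y with h | h
      · subst h; exact Or.inl rfl
      · exact Or.inr (le_of_true hs (by omega))
    · intro hs
      obtain ⟨N, hN⟩ := exists_lt_of_false hg hs
      refine ((Set.finite_Iio N).image some).subset fun x hx => ?_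
      have hx' : val g (2 ^ (s + 1)) x = true := hx
      cases x with
      | none =>
        rw [(val_pow s).1] at hx'
        exact absurd hx' (by simp)
      | some y =>
        refine ⟨y, ?_, rfl⟩
        by_contra hcon
        have hle : N ≤ y := by
          by_contra h2
          exact hcon (Set.mem_Iio.2 (by omega))
        exact (not_le g).2 (hN y hle) (((val_pow s).2 y).1 hx')
  -- finiteness can be read off the codes
  let D : ℕ → Bool := fun s => xor ((c (2 ^ (s + 1))).2)
    (decide ((c (2 ^ (s + 1))).1.length % 2 = 1))
  have hDc : Computable D := by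
    have h1 : Computable (fun s : ℕ => c (2 ^ (s + 1))) :=
      hc.comp (pow2 (Computable.const 2) (succ1 Computable.id))
    refine xor2 (Computable.snd.comp h1) ?_
    exact eq2 (mod2 (Computable.list_length.comp (Computable.fst.comp h1)) (Computable.const 2))
      (Computable.const 1)
  have hD : ∀ s, D s = true ↔ Tr g s := by
    intro s
    have h1 : (ψ (e (2 ^ (s + 1)))).Finite ↔ ¬ Tr g s := by rw [hfin, hTr]
    set n := 2 ^ (s + 1) with hn
    have h2 : ∃ N, ∀ x, N ≤ x → (c n).1.filter (fun s => decide (l' s ≤ x)) = (c n).1 := by
      have h3 : ∃ N, ∀ s ∈ (c n).1, l' s ≤ N := by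
        refine ⟨((c n).1.map l').sum, fun s hs => ?_⟩
        exact List.le_sum_of_mem (List.mem_map_of_mem hs)
      obtain ⟨N, hN⟩ := h3
      refine ⟨N, fun x hx => ?_⟩
      apply List.filter_eq_self.2
      intro s hs
      have := hN s hs
      simp only [decide_eq_true_eq]
      omega
    obtain ⟨N, hN⟩ := h2
    have h4 : D s = true ↔ Xor' ((c n).2 = true) (Odd (c n).1.length) := by
      have h5 : ∀ a b : Bool, (xor a b = true) ↔ Xor' (a = true) (b = true) := by
        intro a b
        rw [xor_iff]
        cases a <;> cases b <;> simp
      simp only [D]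
      rw [h5]
      simp only [decide_eq_true_eq, Nat.odd_iff, hn]
    rw [h4]
    have h6 : ∀ x, N ≤ x → (x ∈ ψ (e n) ↔ Xor' ((c n).2 = true) (Odd (c n).1.length)) := by
      intro x hx
      rw [hψc' n]
      change Xor' _ _ ↔ _
      rw [hN x hx]
    constructor
    · intro h7
      by_contra h8
      have h9 := h1.2 h8
      have h10 : (Set.Ici N).Finite := h9.subset fun x hx => (h6 x hx).2 h7
      exact Set.Ici_infinite N h10
    · intro h7
      by_contra h8
      apply (h1.1 ?_) h7
      refine (Set.finite_Iio N).subset fun x hx => ?_
      by_contra hcon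
      have hle : N ≤ x := by
        by_contra h2
        exact hcon (Set.mem_Iio.2 (by omega))
      exact h8 ((h6 x hle).1 hx)
  -- so the range of `g` is computable
  have hex : ∀ x : ℕ, ∃ n, (fun (x n : ℕ) => D n && decide (x < g n)) x n = true := by
    intro x
    have h1 : {k | g k ≤ x}.Finite := (Set.finite_Iic x).preimage hg.injOn
    obtain ⟨B, hB⟩ := h1.bddAbove
    obtain ⟨n, hn, hnt⟩ := exists_true hg (B + 1)
    refine ⟨n, ?_⟩
    simp only [Bool.and_eq_true, decide_eq_true_eq]
    refine ⟨(hD n).2 hnt, ?_⟩
    by_contra hcon
    have := hB (show n ∈ {k | g k ≤ x} from by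
      change g n ≤ x
      omega)
    omega
  obtain ⟨Nf, hNf, hNf'⟩ := search_ex (P := fun (x n : ℕ) => D n && decide (x < g n))
    (and2 (hDc.comp Computable.snd) (lt2 Computable.fst (hgc.comp Computable.snd))) hex
  apply hgr
  have h1 : Computable (fun x : ℕ => decide (∃ j < Nf x + 1, (fun (x j : ℕ) =>
      decide (g j = x)) x j = true)) :=
    bex (P := fun (x j : ℕ) => decide (g j = x))
      (eq2 (hgc.comp Computable.snd) Computable.fst) (succ1 hNf)
  refine ⟨fun x => Classical.propDecidable _, h1.of_eq fun x => ?_⟩
  apply decide_eq_decide.2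
  constructor
  · rintro ⟨j, -, hj⟩
    exact ⟨j, by simpa using hj⟩
  · rintro ⟨j, hj⟩
    have h2 := hNf' x
    simp only [Bool.and_eq_true, decide_eq_true_eq] at h2
    refine ⟨j, ?_, by simpa using hj⟩
    by_contra hcon
    have h3 := (hD _).1 h2.1 j (by omega)
    omega

end Pool.Agent.S15144
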