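import Pool.Statements.S15430
import Pool.Agent.Q203.TD.Ramsey

set_option autoImplicit false
open Pool Pool.MP_d5b253_lc

namespace Pool.Agent.S15430

/-- The negation of the preceding statement: For every countable Borel equivalence relation E on the space of infinite subsets of ℕ, there is a Borel set B whose complement is Ramsey null such that E restricted to B is an increasing union of Borel equivalence relations with finite classes. -/
theorem result :
    ¬ (∀ E : {x : ℕ → Bool // {n | x n = true}.Infinite} →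
        {x : ℕ → Bool // {n | x n = true}.Infinite} → Prop,
    Equivalence E →
    MeasurableSet {p : {x : ℕ → Bool // {n | x n = true}.Infinite} ×
                      {x : ℕ → Bool // {n | x n = true}.Infinite} | E p.1 p.2} →
    (∀ x : {x : ℕ → Bool // {n | x n = true}.Infinite},
        {y : {x : ℕ → Bool // {n | x n = true}.Infinite} | E x y}.Countable) →
    ∃ B : Set {x : ℕ → Bool // {n | x n = true}.Infinite},
      MeasurableSet B ∧
      (∀ s : Finset ℕ, ∀ A : Set ℕ, A.Infinite → (∀ a ∈ A, ∀ m ∈ s, m < a) →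
        ∃ A' : Set ℕ, A' ⊆ A ∧ A'.Infinite ∧
          ∀ x : {x : ℕ → Bool // {n | x n = true}.Infinite},
            ((↑s : Set ℕ) ⊆ {n | x.1 n = true} ∧ {n | x.1 n = true} ⊆ (↑s : Set ℕ) ∪ A') →
              x ∈ B) ∧
      ∃ F : ℕ → {x : ℕ → Bool // {n | x n = true}.Infinite} →
              {x : ℕ → Bool // {n | x n = true}.Infinite} → Prop,
        (∀ n, Equivalence (F n)) ∧
        (∀ n, MeasurableSet {p : {x : ℕ → Bool // {n | x n = true}.Infinite} ×
                                 {x : ℕ → Bool // {n | x n = true}.Infinite} | F n p.1 p.2}) ∧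
        (∀ n, ∀ x : {x : ℕ → Bool // {n | x n = true}.Infinite},
            {y : {x : ℕ → Bool // {n | x n = true}.Infinite} | F n x y}.Finite) ∧
        (∀ n, ∀ x y : {x : ℕ → Bool // {n | x n = true}.Infinite}, F n x y → F (n + 1) x y) ∧
        (∀ x ∈ B, ∀ y ∈ B, (E x y ↔ ∃ n, F n x y))) := by
  intro h
  obtain ⟨B, hB, hco, F, h1, h2, h3, h4, h5⟩ := h Q203.TD.EE Q203.TD.EE_equivalence
    Q203.TD.EE_measurable Q203.TD.EE_countable
  refine Q203.TD.not_hyperfinite hB (fun A hA => ?_) h1 h2 h3 h4 h5
  obtain ⟨A', hA1, hA2, hA3⟩ := hco ∅ A hA (fun a _ m hm => absurd hm (Finset.notMem_empty m))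
  exact ⟨A', hA1, hA2, fun x hx => hA3 x ⟨by simp, by simpa using hx⟩⟩

end Pool.Agent.S15430
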