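import Pool.Statements.S15550

set_option autoImplicit false
open Pool Pool.MP_e6ce3e_lc

namespace Pool.Agent.S15550

open Set

/-- A subset of a linear order without uncountable well-ordered subsets has a countable
cofinal subset. -/
theorem exists_cofinal {L : Type} [LinearOrder L]
    (h : ∀ S : Set L, S.WellFoundedOn (· < ·) → S.Countable) (C : Set L) :
    ∃ D : Set L, D.Countable ∧ D ⊆ C ∧ ∀ x ∈ C, ∃ d ∈ D, x ≤ d := by
  classical
  let r : C → C → Prop := WellOrderingRel
  have hr : IsWellOrder C r := WellOrderingRel.isWellOrder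
  have hcof := isCofinal_setOfPred_imp_lt (α := C) r
  set S : Set C := {a | ∀ b, r b a → b < a} with hS
  refine ⟨Subtype.val '' S, ?_, ?_, ?_⟩
  · apply h
    rw [Set.wellFoundedOn_image]
    rw [Set.wellFoundedOn_iff]
    refine Subrelation.wf (r := r) ?_ hr.wf
    rintro a b ⟨hab, ha, hb⟩
    rcases trichotomous_of r a b with h1 | h1 | h1
    · exact h1
    · subst h1
      exact absurd hab (lt_irrefl _)
    · exact absurd (ha _ h1) (not_lt_of_gt hab)
  · rintro _ ⟨a, _, rfl⟩
    exact a.2
  · intro x hx
    obtain ⟨d, hd, hd'⟩ := hcof ⟨x, hx⟩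
    exact ⟨d.1, ⟨d, hd, rfl⟩, hd'⟩

theorem exists_coinitial {L : Type} [LinearOrder L]
    (h : ∀ S : Set L, S.WellFoundedOn (· > ·) → S.Countable) (C : Set L) :
    ∃ D : Set L, D.Countable ∧ D ⊆ C ∧ ∀ x ∈ C, ∃ d ∈ D, d ≤ x :=
  exists_cofinal (L := Lᵒᵈ) h C

/-- Points at countable distance. -/
def near {L : Type} [LinearOrder L] (x y : L) : Prop := (Set.uIcc x y).Countable

theorem near_refl {L : Type} [LinearOrder L] (x : L) : near x x := by
  simp [near]

theorem near_symm {L : Type} [LinearOrder L] {x y : L} (h : near x y) : near y x := by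
  unfold near at *
  rwa [Set.uIcc_comm]

theorem near_trans {L : Type} [LinearOrder L] {x y z : L} (h : near x y) (h' : near y z) :
    near x z := by
  unfold near at *
  exact (h.union h').mono (Set.uIcc_subset_uIcc_union_uIcc)

/-- The condensation. -/
def nearSetoid (L : Type) [LinearOrder L] : Setoid L :=
  ⟨near, near_refl, near_symm, near_trans⟩

/-- The classes are countable in a short order. -/
theorem class_countable {L : Type} [LinearOrder L]
    (h1 : ∀ S : Set L, S.WellFoundedOn (· < ·) → S.Countable)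
    (h2 : ∀ S : Set L, S.WellFoundedOn (· > ·) → S.Countable) (x : L) :
    {y | near x y}.Countable := by
  obtain ⟨D, hD, hDC, hD'⟩ := exists_cofinal h1 {y | near x y}
  obtain ⟨E, hE, hEC, hE'⟩ := exists_coinitial h2 {y | near x y}
  have : {y | near x y} ⊆ ⋃ e ∈ E, ⋃ d ∈ D, Set.uIcc e d := by
    intro y hy
    obtain ⟨d, hd, hyd⟩ := hD' y hy
    obtain ⟨e, he, hye⟩ := hE' y hy
    simp only [Set.mem_iUnion]
    exact ⟨e, he, d, hd, Set.mem_uIcc_of_le hye hyd⟩
  refine Set.Countable.mono this ?_
  refine hE.biUnion fun e he => hD.biUnion fun d hd => ?_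
  exact near_trans (near_symm (hEC he)) (hDC hd)

/-- Every uncountable short order contains a copy of the rationals such that the intervals between
its points are uncountable. -/
theorem exists_embedding {L : Type} [LinearOrder L]
    (h1 : ∀ S : Set L, S.WellFoundedOn (· < ·) → S.Countable)
    (h2 : ∀ S : Set L, S.WellFoundedOn (· > ·) → S.Countable)
    (h3 : ¬ (Set.univ : Set L).Countable) (α : Type) [LinearOrder α] [Countable α] :
    ∃ e : α → L, StrictMono e ∧ ∀ a b, a < b → ¬ (Set.Icc (e a) (e b)).Countable := by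
  classical
  let s := nearSetoid L
  let S : Set L := Set.range (fun q : Quotient s => q.out)
  have key : ∀ x : L, ∃ y ∈ S, near x y := by
    intro x
    refine ⟨(Quotient.mk s x).out, ⟨_, rfl⟩, ?_⟩
    exact near_symm (Quotient.mk_out (s := s) x)
  have inj : ∀ x ∈ S, ∀ y ∈ S, near x y → x = y := by
    rintro _ ⟨p, rfl⟩ _ ⟨q, rfl⟩ h
    have : p = q := by
      rw [← Quotient.out_eq p, ← Quotient.out_eq q]
      exact Quotient.sound h
    rw [this]
  have hS : ¬ S.Countable := by
    intro hc
    apply h3
    refine Set.Countable.mono (?_ : _ ⊆ ⋃ y ∈ S, {x | near y x}) ?_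
    · intro x _
      obtain ⟨y, hy, hxy⟩ := key x
      simp only [Set.mem_iUnion]
      exact ⟨y, hy, near_symm hxy⟩
    · exact hc.biUnion fun y _ => class_countable h1 h2 y
  have hdense : ∀ x ∈ S, ∀ y ∈ S, x < y → ¬ (Set.Icc x y).Countable := by
    intro x hx y hy hxy hc
    apply hxy.ne
    apply inj x hx y hy
    unfold near
    rwa [Set.uIcc_of_le hxy.le]
  have : Nontrivial S := by
    by_contra hn
    rw [not_nontrivial_iff_subsingleton] at hn
    exact hS (Set.subsingleton_coe S |>.1 hn).countable
  have : DenselyOrdered S := by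
    constructor
    rintro ⟨x, hx⟩ ⟨y, hy⟩ hxy
    have hxy' : x < y := hxy
    have h := hdense x hx y hy hxy'
    have : ∃ z ∈ Set.Icc x y, ¬ near x z ∧ ¬ near y z := by
      by_contra hcon
      push Not at hcon
      apply h
      refine Set.Countable.mono (?_ : _ ⊆ {z | near x z} ∪ {z | near y z})
        ((class_countable h1 h2 x).union (class_countable h1 h2 y))
      intro z hz
      by_cases hz' : near x z
      · exact Or.inl hz'
      · exact Or.inr (hcon z hz hz')
    obtain ⟨z, hz, hxz, hyz⟩ := this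
    obtain ⟨w, hw, hzw⟩ := key z
    refine ⟨⟨w, hw⟩, ?_, ?_⟩
    · show x < w
      by_contra hle
      push Not at hle
      apply hxz
      apply near_symm
      unfold near at *
      refine Set.Countable.mono ?_ hzw
      apply Set.uIcc_subset_uIcc_left
      rw [Set.mem_uIcc]
      right
      exact ⟨hle, hz.1⟩
    · show w < y
      by_contra hle
      push Not at hle
      apply hyz
      apply near_symm
      unfold near at *
      refine Set.Countable.mono ?_ hzw
      apply Set.uIcc_subset_uIcc_left
      rw [Set.mem_uIcc]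
      left
      exact ⟨hz.2, hle⟩
  obtain ⟨e⟩ := Order.embedding_from_countable_to_dense (α := α) (β := S)
  refine ⟨fun a => (e a).1, fun a b hab => e.strictMono hab, fun a b hab => ?_⟩
  exact hdense _ (e a).2 _ (e b).2 (e.strictMono hab)

/-- The negation of the preceding statement: There is a linear order L with no uncountable well-ordered or reverse-well-ordered subset, of size at least aleph_1, mapping monotonically onto every size-aleph_1 linear order embeddable in it, but with no monotone surjection onto the rationals. -/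
theorem result :
    ¬ (∃ (L : Type) (_ : LinearOrder L),
      (∀ S : Set L, S.WellFoundedOn (· < ·) → S.Countable) ∧
      (∀ S : Set L, S.WellFoundedOn (· > ·) → S.Countable) ∧
      Cardinal.aleph 1 ≤ Cardinal.mk L ∧
      (∀ (K : Type) [LinearOrder K], Cardinal.mk K = Cardinal.aleph 1 →
          Nonempty (K ↪o L) → ∃ f : L → K, Monotone f ∧ Function.Surjective f) ∧
      ¬ ∃ f : L → ℚ, Monotone f ∧ Function.Surjective f) := by
  rintro ⟨L, _, h1, h2, h3, h4, h5⟩
  classical
  have h3' : ¬ (Set.univ : Set L).Countable := by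
    intro hc
    have h := Cardinal.le_aleph0_iff_set_countable.2 hc
    rw [Cardinal.mk_univ] at h
    exact absurd (h3.trans h) (not_le_of_gt Cardinal.aleph0_lt_aleph_one)
  have : Countable (ℚ ×ₗ Bool) := inferInstanceAs (Countable (ℚ × Bool))
  obtain ⟨e, he, hunc⟩ := exists_embedding h1 h2 h3' (ℚ ×ₗ Bool)
  let lo : ℚ → L := fun q => e (toLex (q, false))
  let hi : ℚ → L := fun q => e (toLex (q, true))
  have hlohi : ∀ q, lo q < hi q := fun q => he (by
    rw [Prod.Lex.toLex_lt_toLex]
    right
    exact ⟨rfl, Bool.false_lt_true⟩)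
  have hhilo : ∀ p q, p < q → hi p < lo q := fun p q hpq => he (by
    rw [Prod.Lex.toLex_lt_toLex]
    left
    exact hpq)
  have hunc0 : Cardinal.aleph 1 ≤ Cardinal.mk (Set.Icc (lo 0) (hi 0)) := by
    have hlt : toLex ((0 : ℚ), false) < toLex ((0 : ℚ), true) := by
      rw [Prod.Lex.toLex_lt_toLex]
      right
      exact ⟨rfl, Bool.false_lt_true⟩
    have h := hunc _ _ hlt
    rw [← Cardinal.le_aleph0_iff_set_countable] at h
    push Not at h
    rw [← Cardinal.succ_aleph0]
    exact Order.succ_le_of_lt h
  obtain ⟨T, hT, hTc⟩ := Cardinal.le_mk_iff_exists_subset.1 hunc0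
  let K : Set L := T ∪ Set.range lo
  have hKc : Cardinal.mk K = Cardinal.aleph 1 := by
    apply le_antisymm
    · refine (Cardinal.mk_union_le _ _).trans ?_
      rw [hTc]
      refine Cardinal.add_le_of_le (Cardinal.aleph0_le_aleph 1) le_rfl ?_
      have : (Set.range lo).Countable := Set.countable_range lo
      exact (Cardinal.le_aleph0_iff_set_countable.2 this).trans (Cardinal.aleph0_le_aleph 1)
    · rw [← hTc]
      exact Cardinal.mk_le_mk_of_subset Set.subset_union_left
  obtain ⟨f, hf, hfs⟩ := h4 K hKc ⟨OrderEmbedding.subtype _⟩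
  apply h5
  have hg : ∀ k : K, ∃ q : ℚ, k.1 ∈ Set.Icc (lo q) (hi q) := by
    rintro ⟨k, hk | ⟨q, rfl⟩⟩
    · exact ⟨0, hT hk⟩
    · exact ⟨q, le_rfl, (hlohi q).le⟩
  choose g hg using hg
  refine ⟨fun x => g (f x), ?_, ?_⟩
  · have hgm : Monotone g := by
      intro x y hxy
      by_contra hlt
      push Not at hlt
      have h1 := hhilo _ _ hlt
      have hxy' : x.1 ≤ y.1 := hxy
      exact absurd (((hg x).1.trans hxy').trans (hg y).2) (not_le_of_gt h1)
    exact fun x y hxy => hgm (hf hxy)
  · intro q
    have hmem : lo q ∈ K := Or.inr ⟨q, rfl⟩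
    obtain ⟨x, hx⟩ := hfs ⟨lo q, hmem⟩
    refine ⟨x, ?_⟩
    show g (f x) = q
    rw [hx]
    have h := hg ⟨lo q, hmem⟩
    set p := g ⟨lo q, hmem⟩ with hp
    rcases lt_trichotomy p q with hpq | hpq | hpq
    · exact absurd h.2 (not_le_of_gt (hhilo _ _ hpq))
    · exact hpq
    · exact absurd h.1 (not_le_of_gt ((hlohi q).trans (hhilo _ _ hpq)))

end Pool.Agent.S15550
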