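import Pool.Statements.S15828
import Pool.Agent.Q234.FCFin

set_option autoImplicit false
open Pool Pool.MP_f387d3_mp

namespace Pool.Agent.S15828

/-- The negation of the preceding statement: In the basic Feynman checkers model, with P(x,t) the squared norm of the checker-path amplitude at time t=n+1, there is a constant C such that every maximiser x of P(·,t) is within C of t/√2, for all t. -/
theorem result :
    ¬ (∃ C : ℝ, ∀ n : ℕ, ∀ x : ℤ,
      (∀ y : ℤ,
        (2:ℝ) ^ (-(n:ℤ)) *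
          ‖∑ s ∈ Finset.univ.filter
              (fun s : Fin (n+1) → Bool =>
                s 0 = true ∧ ∑ i, (if s i then (1:ℤ) else -1) = y),
            (-Complex.I) ^ ((Finset.univ.filter
              (fun i : Fin n => s i.castSucc ≠ s i.succ)).card)‖ ^ 2
        ≤
        (2:ℝ) ^ (-(n:ℤ)) *
          ‖∑ s ∈ Finset.univ.filter
              (fun s : Fin (n+1) → Bool =>
                s 0 = true ∧ ∑ i, (if s i then (1:ℤ) else -1) = x),
            (-Complex.I) ^ ((Finset.univ.filter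
              (fun i : Fin n => s i.castSucc ≠ s i.succ)).card)‖ ^ 2) →
      |(x:ℝ) - ((n:ℝ) + 1) / Real.sqrt 2| ≤ C) := by
  rintro ⟨C, hC⟩
  obtain ⟨D, hD⟩ := exists_nat_ge (4 * |C| + 1)
  obtain ⟨w, hw⟩ : ∃ w : ℕ, w = 1000 * (D + 6) ^ 2 := ⟨_, rfl⟩
  set r : ℝ := Real.sqrt 2 with hrdef
  have hr : r ^ 2 = 2 := Real.sq_sqrt (by norm_num)
  have hr0 : 0 < r := Real.sqrt_pos.2 (by norm_num)
  have hr1 : 1.4 < r := by
    rw [hrdef]
    apply Real.lt_sqrt_of_sq_lt
    norm_num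
  have hr2 : r < 1.42 := by
    rw [hrdef, Real.sqrt_lt' (by norm_num)]
    norm_num
  obtain ⟨m, hm, hmax⟩ := Finset.exists_max_image (Finset.range (w ^ 2 + 1))
    (fun m => Q234.FC.R (w ^ 2) m) ⟨0, Finset.mem_range.2 (by omega)⟩
  have hm' : m ≤ w ^ 2 := by
    have := Finset.mem_range.1 hm
    omega
  have hD0 : (0 : ℝ) ≤ D := Nat.cast_nonneg D
  have h := hC (w ^ 2) (((w ^ 2 : ℕ) : ℤ) + 1 - 2 * m) (by
    intro y
    rw [Q234.FC.total_eq, Q234.FC.total_eq]
    apply mul_le_mul_of_nonneg_left _ (by positivity)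
    rw [Q234.FC.total_norm _ _ hm']
    by_cases hy : ∃ m' : ℕ, m' ≤ w ^ 2 ∧ y = ((w ^ 2 : ℕ) : ℤ) + 1 - 2 * m'
    · obtain ⟨m', hm1, rfl⟩ := hy
      rw [Q234.FC.total_norm _ _ hm1]
      exact hmax m' (Finset.mem_range.2 (by omega))
    · push Not at hy
      rw [Q234.FC.total_norm_zero _ _ hy]
      positivity)
  have hC0 : |((4 + 2 * r) * (m : ℝ)) - ((w : ℝ) ^ 2 + 1)| ≤ (2 + r) * |C| := by
    have e : ((4 + 2 * r) * (m : ℝ)) - ((w : ℝ) ^ 2 + 1) =
        -((2 + r) * (((((w ^ 2 : ℕ) : ℤ) + 1 - 2 * m : ℤ) : ℝ) -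
          (((w ^ 2 : ℕ) : ℝ) + 1) / r)) := by
      have h2 : (((w ^ 2 : ℕ) : ℝ) + 1) / r = (((w ^ 2 : ℕ) : ℝ) + 1) * r / 2 := by
        rw [div_eq_div_iff hr0.ne' two_ne_zero]
        push_cast
        linear_combination (-((w : ℝ) ^ 2 + 1)) * hr
      rw [h2]
      push_cast
      linear_combination (-((w : ℝ) ^ 2 + 1) / 2) * hr
    rw [e, abs_neg, abs_mul, abs_of_pos (by linarith : (0 : ℝ) < 2 + r)]
    exact mul_le_mul_of_nonneg_left (le_trans h (le_abs_self C)) (by linarith)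
  have hC1 : (2 + r) * |C| ≤ 4 * |C| := mul_le_mul_of_nonneg_right (by linarith) (abs_nonneg C)
  have hC2 := abs_le.1 (le_trans hC0 hC1)
  have hw1 : (1000 : ℝ) * ((D : ℝ) + 6) ^ 2 = w := by rw [hw]; push_cast; ring
  have hww : (D : ℝ) + 6 ≤ (w : ℝ) ^ 2 := by
    have h1 : (D : ℝ) + 6 ≤ w := by rw [← hw1]; nlinarith
    nlinarith
  rcases m with _ | k
  · have := hC2.1
    simp only [Nat.cast_zero, mul_zero] at this
    linarith
  · push_cast at hC2
    obtain ⟨h1, h2⟩ := Q234.FC.R_lt w D k hw.ge r hr hr1 hr2 (by linarith [hC2.2])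
      (by linarith [hC2.1])
    have := hmax (k + 2) (Finset.mem_range.2 (by omega))
    linarith

end Pool.Agent.S15828
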