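import Pool.Statements.S16186
import Pool.Agent.Q281.USB.Dat

set_option autoImplicit false
open Pool Pool.MP_19fd7d_nt

namespace Pool.Agent.S16186

open Pool.Agent.Q281.USB in
open Pool.Agent.H58P (Qb) in
lemma gal (ℓ q : ℕ → ℕ) [hq : ∀ n, Fact (q n).Prime] :
    IsGalois (⊥ : IntermediateField ℚ Qb)
      (IntermediateField.extendScalars (bot_le : (⊥ : IntermediateField ℚ Qb) ≤ FF ℓ q)) := by
  have hsep : Algebra.IsSeparable (⊥ : IntermediateField ℚ Qb)
      (IntermediateField.extendScalars (bot_le : (⊥ : IntermediateField ℚ Qb) ≤ FF ℓ q)) :=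
    inferInstance
  have hnorm : Normal (⊥ : IntermediateField ℚ Qb)
      (IntermediateField.extendScalars (bot_le : (⊥ : IntermediateField ℚ Qb) ≤ FF ℓ q)) := by
    rw [IntermediateField.normal_iff_forall_map_le']
    intro σ x hx
    rw [IntermediateField.mem_map] at hx
    obtain ⟨y, hy, rfl⟩ := hx
    rw [IntermediateField.mem_extendScalars] at hy ⊢
    exact FF_stable ℓ q (σ : Qb →+* Qb) y hy
  exact ⟨⟩

/-- The negation of the preceding statement: If F in Q̄ is Galois over a number field K and has (USB) (for each rational map of degree at least 2, some c>0 leaves only finitely many points of F with canonical height below c), then F/K has finite local degree at infinitely many finite primes of K. -/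
theorem result :
    ¬ (∀ h : AlgebraicClosure ℚ → ℝ,
      (∀ β : AlgebraicClosure ℚ, h β =
        Real.log (((sInf {n : ℕ | 0 < n ∧ ∀ i : ℕ, ((n : ℚ) * (minpoly ℚ β).coeff i).den = 1} : ℕ) : ℝ) *
          (Polynomial.map (algebraMap ℚ ℂ) (minpoly ℚ β)).mahlerMeasure) /
          ((minpoly ℚ β).natDegree : ℝ)) →
    ∀ Φ : RatFunc (AlgebraicClosure ℚ) → AlgebraicClosure ℚ × AlgebraicClosure ℚ →
        AlgebraicClosure ℚ × AlgebraicClosure ℚ,
      (∀ (f : RatFunc (AlgebraicClosure ℚ)) (z : AlgebraicClosure ℚ × AlgebraicClosure ℚ),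
        Φ f z =
          (∑ i ∈ Finset.range (max f.num.natDegree f.denom.natDegree + 1),
              f.num.coeff i * z.1 ^ i * z.2 ^ (max f.num.natDegree f.denom.natDegree - i),
           ∑ i ∈ Finset.range (max f.num.natDegree f.denom.natDegree + 1),
              f.denom.coeff i * z.1 ^ i * z.2 ^ (max f.num.natDegree f.denom.natDegree - i))) →
    ∀ (K : IntermediateField ℚ (AlgebraicClosure ℚ)) [NumberField K]
      (F : IntermediateField K (AlgebraicClosure ℚ)),
      IsGalois K F →
      (∀ f : RatFunc (AlgebraicClosure ℚ),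
        2 ≤ max f.num.natDegree f.denom.natDegree →
        ∃ c : ℝ, 0 < c ∧
          Set.Finite {α : AlgebraicClosure ℚ | α ∈ F ∧ ∃ L : ℝ,
            Filter.Tendsto
              (fun n : ℕ => h (((Φ f)^[n] (α, 1)).1 / ((Φ f)^[n] (α, 1)).2) /
                ((max f.num.natDegree f.denom.natDegree : ℕ) : ℝ) ^ n)
              Filter.atTop (nhds L) ∧ L < c}) →
      Set.Infinite {v : IsDedekindDomain.HeightOneSpectrum (NumberField.RingOfIntegers K) |
        ∀ ι : AlgebraicClosure ℚ →ₐ[K] AlgebraicClosure (v.adicCompletion K),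
          FiniteDimensional (v.adicCompletion K)
            (IntermediateField.adjoin (v.adicCompletion K)
              (ι '' (F : Set (AlgebraicClosure ℚ))))}) := by
  intro H
  obtain ⟨ℓ, q, p, hℓ, hqp, hinj, hpq, hpw, hB, hp⟩ := Pool.Agent.Q281.USB.exists_data
  have hq : ∀ n, Fact (q n).Prime := fun n => ⟨hqp n⟩
  have hnf : NumberField (⊥ : IntermediateField ℚ (AlgebraicClosure ℚ)) := ⟨⟩
  set F : IntermediateField (⊥ : IntermediateField ℚ (AlgebraicClosure ℚ)) (AlgebraicClosure ℚ) :=
    IntermediateField.extendScalars (bot_le :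
      (⊥ : IntermediateField ℚ (AlgebraicClosure ℚ)) ≤ Pool.Agent.Q281.USB.FF ℓ q) with hF
  have hmem : ∀ x, x ∈ F ↔ x ∈ Pool.Agent.Q281.USB.FF ℓ q := fun x => by
    rw [hF, IntermediateField.mem_extendScalars]
  have h1 := H Pool.Agent.H58W.hM (fun β => rfl)
    (fun f z => Pool.Agent.H58W.lift f.num f.denom (max f.num.natDegree f.denom.natDegree) z)
    (fun f z => rfl) ⊥ F (gal ℓ q) ?_
  · obtain ⟨v, hv⟩ := h1.nonempty
    have halg : Algebra.IsAlgebraic (⊥ : IntermediateField ℚ (AlgebraicClosure ℚ))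
      (AlgebraicClosure ℚ) := inferInstance
    let ι : AlgebraicClosure ℚ →ₐ[(⊥ : IntermediateField ℚ (AlgebraicClosure ℚ))]
      AlgebraicClosure (v.adicCompletion (⊥ : IntermediateField ℚ (AlgebraicClosure ℚ))) :=
      IsAlgClosed.lift
    refine Pool.Agent.Q281.USB.not_finite ⊥ v ι F ℓ q p hℓ ?_ hpq hpw hp (hv ι)
    intro n a
    rw [SetLike.mem_coe, hmem]
    exact IntermediateField.subset_adjoin _ _ ⟨n, a, rfl⟩
  · intro f hf
    refine ⟨1, one_pos, ?_⟩
    have h2 := Pool.Agent.Q281.USB.usb_of_northcott f.num f.denom _ rfl hf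
      (RatFunc.isCoprime_num_denom f) (Pool.Agent.Q281.USB.FF ℓ q : Set (AlgebraicClosure ℚ))
      (Pool.Agent.Q281.USB.northcott_FF ℓ q hinj (fun n => (hℓ n).pos) hB)
    refine h2.subset ?_
    rintro α ⟨hα, hL⟩
    exact ⟨(hmem α).mp hα, hL⟩

end Pool.Agent.S16186
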