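import Pool.Statements.S16808
import Pool.Agent.Q237.EP.D6

set_option autoImplicit false
open Pool Pool.MP_493793_nt

namespace Pool.Agent.S16808

/-- The negation of the preceding statement: For each ε>0 and constants c_j,C_j>0 there is K: if 2≤N≤N'≤2N, F≥N, f smooth on [N,2N] with c_j F/N^j ≤ ∣f^(j)∣ ≤ C_j F/N^j for all j≥0, then ∣Σ_{N≤n≤N'} e(f(n))∣ ≤ K N^{1/2} F^ε. -/
theorem result :
    ¬ (∀ ε : ℝ, 0 < ε → ∀ c C : ℕ → ℝ, (∀ j, 0 < c j) → (∀ j, 0 < C j) →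
      ∃ K : ℝ, ∀ N N' F : ℝ, ∀ f : ℝ → ℝ,
        2 ≤ N → N ≤ N' → N' ≤ 2 * N → N ≤ F →
        ContDiffOn ℝ (⊤ : ℕ∞) f (Set.Icc N (2 * N)) →
        (∀ j : ℕ, ∀ x ∈ Set.Icc N (2 * N),
            c j * F / N ^ j ≤ |iteratedDerivWithin j f (Set.Icc N (2 * N)) x| ∧
            |iteratedDerivWithin j f (Set.Icc N (2 * N)) x| ≤ C j * F / N ^ j) →
        ‖∑ n ∈ Finset.Icc ⌈N⌉₊ ⌊N'⌋₊,
            Complex.exp (2 * (Real.pi : ℂ) * Complex.I * ((f (n : ℝ) : ℝ) : ℂ))‖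
          ≤ K * N ^ (1 / 2 : ℝ) * F ^ ε) := by
  intro h
  obtain ⟨K, hK⟩ := h (2 / 15) (by norm_num) Q237.EP.cc Q237.EP.CC Q237.EP.cc_pos Q237.EP.CC_pos
  obtain ⟨a, b, ha, hab, hb, hlt⟩ := Q237.EP.main K
  have ha0 : (0 : ℝ) < a := by exact_mod_cast (by omega : 0 < a)
  have ha1 : (1 : ℝ) ≤ a := by exact_mod_cast (by omega : 1 ≤ a)
  have h1 := hK (a : ℝ) (b : ℝ) ((a : ℝ) ^ (3 / 2 : ℝ)) Q237.EP.ff (by exact_mod_cast ha) (by exact_mod_cast hab)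
    (by exact_mod_cast hb) (by
      calc (a : ℝ) = (a : ℝ) ^ (1 : ℝ) := (Real.rpow_one _).symm
        _ ≤ (a : ℝ) ^ (3 / 2 : ℝ) := Real.rpow_le_rpow_of_exponent_le ha1 (by norm_num))
    (Q237.EP.contDiffOn_ff ha0) (fun j x hx => Q237.EP.bounds_ff ha0 hx j)
  rw [Nat.ceil_natCast, Nat.floor_natCast] at h1
  have h2 : ∑ n ∈ Finset.Icc a b, Complex.exp (2 * (Real.pi : ℂ) * Complex.I * ((Q237.EP.ff (n : ℝ) : ℝ) : ℂ)) =
      ∑ n ∈ Finset.Icc a b, H469R2.NK.e (Q237.EP.ff n) := by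
    refine Finset.sum_congr rfl fun n _ => ?_
    unfold H469R2.NK.e
    congr 1
    push_cast
    ring
  rw [h2] at h1
  exact absurd h1 (not_le.mpr hlt)

end Pool.Agent.S16808
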