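import Pool.Statements.S16915
import Pool.Agent.H383R3.MulClose2

set_option autoImplicit false
open MeasureTheory
open Pool Pool.MP_4fa6ed_nt

namespace Pool.Agent.S16915

/-- Among `K + 1` sets of measure `μ A`, where `(K + 1) μ A > 1`, two have an intersection of positive
measure. -/
lemma pigeonhole (X : Type) [MeasurableSpace X] (μ : Measure X) [IsProbabilityMeasure μ] (m : ENNReal)
    (K : ℕ) (hK : 1 < (K + 1 : ℕ) * m) (B : ℕ → Set X) (hB : ∀ i, i ≤ K → MeasurableSet (B i))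
    (hm : ∀ i, i ≤ K → μ (B i) = m) : ∃ i j, i < j ∧ j ≤ K ∧ 0 < μ (B i ∩ B j) := by
  by_contra hcon
  push Not at hcon
  have h1 : μ (⋃ i ∈ Finset.range (K + 1), B i) = ∑ i ∈ Finset.range (K + 1), μ (B i) := by
    apply measure_biUnion_finset₀
    · intro i hi j hj hij
      rw [Finset.mem_coe, Finset.mem_range] at hi hj
      rcases lt_or_gt_of_ne hij with h | h
      · have := hcon i j h (by omega)
        exact nonpos_iff_eq_zero.1 this
      · have := hcon j i h (by omega)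
        have h2 : μ (B i ∩ B j) = 0 := by
          rw [Set.inter_comm]
          exact nonpos_iff_eq_zero.1 this
        exact h2
    · intro i hi
      rw [Finset.mem_range] at hi
      exact (hB i (by omega)).nullMeasurableSet
  have h2 : ∑ i ∈ Finset.range (K + 1), μ (B i) = (K + 1 : ℕ) * m := by
    rw [Finset.sum_congr rfl (fun i hi => hm i (by rw [Finset.mem_range] at hi; omega)),
      Finset.sum_const, Finset.card_range, nsmul_eq_mul]
  have h3 : μ (⋃ i ∈ Finset.range (K + 1), B i) ≤ 1 := prob_le_one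
  rw [h1, h2] at h3
  exact absurd hK (not_lt.2 h3)

/-- The recurrence along a sequence of integers. -/
lemma rec_aux (X : Type) [MeasurableSpace X] (μ : Measure X) [IsProbabilityMeasure μ]
    (T : ℚ → X → X) (hmul : ∀ q r : ℚ, 0 < q → 0 < r → T (q * r) = T q ∘ T r)
    (hmp : ∀ q : ℚ, 0 < q → MeasurePreserving (T q) μ μ) (A : Set X) (hA : MeasurableSet A)
    (s t : ℚ) (hs : 0 < s) (ht : 0 < t)
    (h : 0 < μ (T s ⁻¹' A ∩ T t ⁻¹' A)) : 0 < μ (A ∩ T (t / s) ⁻¹' A) := by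
  have hr : 0 < t / s := by positivity
  have h1 : T t = T (t / s) ∘ T s := by
    rw [← hmul _ _ hr hs, div_mul_cancel₀ _ hs.ne']
  have h2 : T s ⁻¹' A ∩ T t ⁻¹' A = T s ⁻¹' (A ∩ T (t / s) ⁻¹' A) := by
    rw [h1, Set.preimage_comp, Set.preimage_inter]
  rw [h2, (hmp s hs).measure_preimage] at h
  · exact h
  · exact (hA.inter ((hmp _ hr).measurable hA)).nullMeasurableSet

/-- If a≥1, gcd(a,b,d)=1, and b=d or a divides bd, then for every measure-preserving action of the positive rationals under multiplication and every positive-measure set A, some ratio (an+b)/(an+d) with n≥1 and both terms positive returns A to itself in positive measure. -/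
theorem result :
    ∀ (a : ℕ) (b d : ℤ), 0 < a →
      (∀ k : ℤ, k ∣ (a : ℤ) → k ∣ b → k ∣ d → IsUnit k) →
      (b = d ∨ (a : ℤ) ∣ b * d) →
      ∀ (X : Type) [MeasurableSpace X] (μ : Measure X) [IsProbabilityMeasure μ]
        (T : ℚ → X → X),
        T 1 = id →
        (∀ q r : ℚ, 0 < q → 0 < r → T (q * r) = T q ∘ T r) →
        (∀ q : ℚ, 0 < q → MeasurePreserving (T q) μ μ) →
        ∀ A : Set X, MeasurableSet A → 0 < μ A →
          ∃ n : ℕ, 0 < n ∧ 0 < (a : ℤ) * n + b ∧ 0 < (a : ℤ) * n + d ∧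
            0 < μ (A ∩ T (((a : ℚ) * n + b) / ((a : ℚ) * n + d)) ⁻¹' A) := by
  intro a b d ha hk hor X _ μ _ T h1 hmul hmp A hA hμ
  have ha' : (0 : ℤ) < a := by exact_mod_cast ha
  -- enough sets
  obtain ⟨K, hK⟩ : ∃ K : ℕ, 1 < ((K + 1 : ℕ) : ENNReal) * μ A := by
    obtain ⟨K, hK⟩ := ENNReal.exists_nat_mul_gt hμ.ne' ENNReal.one_ne_top
    refine ⟨K, lt_of_lt_of_le hK ?_⟩
    gcongr
    omega
  have hcop : ∀ b' d' : ℤ, (∀ k : ℤ, k ∣ (a : ℤ) → k ∣ b' → k ∣ d' → IsUnit k) →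
      IsCoprime (gcd (a : ℤ) b') d' := by
    intro b' d' hk'
    rw [← Int.coe_gcd, Int.isCoprime_iff_gcd_eq_one]
    have h2 : IsUnit ((Int.gcd ((Int.gcd (a : ℤ) b' : ℕ) : ℤ) d' : ℕ) : ℤ) := by
      apply hk'
      · exact (Int.gcd_dvd_left ..).trans (Int.gcd_dvd_left ..)
      · exact (Int.gcd_dvd_left ..).trans (Int.gcd_dvd_right ..)
      · exact Int.gcd_dvd_right ..
    rw [Int.isUnit_iff_natAbs_eq, Int.natAbs_natCast] at h2
    exact h2
  -- the construction for `d < b`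
  have main : ∀ b' d' : ℤ, d' < b' → IsCoprime (gcd (a : ℤ) b') d' → (a : ℤ) ∣ b' * d' →
      ∃ n : ℕ, 0 < n ∧ 0 < (a : ℤ) * n + b' ∧ 0 < (a : ℤ) * n + d' ∧ ∃ s t : ℚ, 0 < s ∧ 0 < t ∧
        t / s = ((a : ℚ) * n + b') / ((a : ℚ) * n + d') ∧ 0 < μ (T s ⁻¹' A ∩ T t ⁻¹' A) := by
    intro b' d' hbd hg hdvd
    obtain ⟨Y, hY1, hY2⟩ := Pool.Agent.H383R3.MulClose.seq a b' d' ha' hbd hg hdvd 1 K
    obtain ⟨i, j, hij, hj, hpos⟩ := pigeonhole X μ (μ A) K hK (fun i => T (Y i : ℚ) ⁻¹' A)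
      (fun i hi => (hmp _ (by exact_mod_cast hY1 i hi)).measurable hA)
      (fun i hi => (hmp _ (by exact_mod_cast hY1 i hi)).measure_preimage hA.nullMeasurableSet)
    obtain ⟨hlt, n, hn, e1, e2⟩ := hY2 i j hij hj
    have hYi := hY1 i (by omega)
    have hYj := hY1 j hj
    have hn0 : 0 ≤ n := by omega
    lift n to ℕ using hn0
    have hh : 0 < b' - d' := by omega
    have hposd : 0 < (a : ℤ) * n + d' := by
      have : 0 < (Y j - Y i) * ((a : ℤ) * n + d') := by rw [← e1]; positivity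
      exact (mul_pos_iff_of_pos_left hlt).mp this
    have hposb : 0 < (a : ℤ) * n + b' := by omega
    refine ⟨n, by omega, hposb, hposd, Y i, Y j, by exact_mod_cast hYi, by exact_mod_cast hYj, ?_, hpos⟩
    have hYi' : (0 : ℚ) < Y i := by exact_mod_cast hYi
    have hposd' : (0 : ℚ) < (a : ℚ) * n + d' := by exact_mod_cast hposd
    have hlt' : (0 : ℚ) < (Y j : ℚ) - Y i := by exact_mod_cast hlt
    have hh' : (0 : ℚ) < (b' : ℚ) - d' := by exact_mod_cast hh
    have e1' : ((b' : ℚ) - d') * Y i = (Y j - Y i) * ((a : ℚ) * n + d') := by exact_mod_cast e1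
    have e2' : ((b' : ℚ) - d') * Y j = (Y j - Y i) * ((a : ℚ) * n + b') := by exact_mod_cast e2
    rw [div_eq_div_iff hYi'.ne' hposd'.ne']
    apply mul_left_cancel₀ hh'.ne'
    linear_combination ((a : ℚ) * n + d') * e2' - ((a : ℚ) * n + b') * e1'
  rcases lt_trichotomy d b with hbd | hbd | hbd
  · have hdvd : (a : ℤ) ∣ b * d := by
      rcases hor with h | h
      · omega
      · exact h
    obtain ⟨n, hn, hb, hd, s, t, hs, ht, hst, hpos⟩ := main b d hbd (hcop b d hk) hdvd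
    refine ⟨n, hn, hb, hd, ?_⟩
    rw [← hst]
    exact rec_aux X μ T hmul hmp A hA s t hs ht hpos
  · subst hbd
    obtain ⟨n, hn, h3⟩ : ∃ n : ℕ, 0 < n ∧ (0 : ℤ) < (a : ℤ) * n + d := by
      refine ⟨d.natAbs + 1, by omega, ?_⟩
      push_cast
      nlinarith [neg_abs_le d, abs_nonneg d]
    refine ⟨n, hn, h3, h3, ?_⟩
    have h4 : (0 : ℚ) < (a : ℚ) * n + d := by exact_mod_cast h3
    rw [div_self h4.ne', h1, Set.preimage_id, Set.inter_self]
    exact hμ
  · have hdvd : (a : ℤ) ∣ d * b := by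
      rcases hor with h | h
      · omega
      · rwa [mul_comm]
    obtain ⟨n, hn, hd, hb, s, t, hs, ht, hst, hpos⟩ := main d b hbd
      (hcop d b (fun k h1 h2 h3 => hk k h1 h3 h2)) hdvd
    refine ⟨n, hn, hb, hd, ?_⟩
    have h2 : ((a : ℚ) * n + b) / ((a : ℚ) * n + d) = s / t := by
      rw [← inv_div, ← hst, inv_div]
    rw [h2]
    rw [Set.inter_comm] at hpos
    exact rec_aux X μ T hmul hmp A hA t s ht hs hpos

end Pool.Agent.S16915
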