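import Pool.Statements.S16940
import Pool.Agent.Q239.CentralLogDeriv

set_option autoImplicit false
open Complex DirichletCharacter
open Pool Pool.MP_50d0fc_nt

namespace Pool.Agent.S16940

/-- The negation of the preceding statement: There are A>0, D>1/2 such that for prime q→∞, uniformly in θ in [0,2π], the max over non-principal χ mod q with L(1/2,χ)≠0 of Re(e^{-iθ}L'/L(1/2,χ)) is asymptotic to A·√(log q)·(log log q)^D. -/
theorem result :
    ¬ (∃ A D : ℝ, 0 < A ∧ 1 / 2 < D ∧
      ∀ ε : ℝ, 0 < ε → ∃ Q : ℕ, ∀ (q : ℕ) [NeZero q], q.Prime → Q ≤ q →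
        ∀ θ : ℝ, θ ∈ Set.Icc (0 : ℝ) (2 * Real.pi) →
          (∀ χ : DirichletCharacter ℂ q, χ ≠ 1 → LFunction χ (1 / 2) ≠ 0 →
            (Complex.exp (-(θ : ℂ) * Complex.I) *
                (deriv (LFunction χ) (1 / 2) / LFunction χ (1 / 2))).re ≤
              (1 + ε) * A * Real.sqrt (Real.log q) * (Real.log (Real.log q)) ^ D) ∧
          (∃ χ : DirichletCharacter ℂ q, χ ≠ 1 ∧ LFunction χ (1 / 2) ≠ 0 ∧
            (1 - ε) * A * Real.sqrt (Real.log q) * (Real.log (Real.log q)) ^ D ≤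
              (Complex.exp (-(θ : ℂ) * Complex.I) *
                (deriv (LFunction χ) (1 / 2) / LFunction χ (1 / 2))).re)) := by
  rintro ⟨A, D, hA, -, h⟩
  obtain ⟨Q, hQ⟩ := h (1 / 2) (by norm_num)
  -- a large prime
  obtain ⟨N, hN⟩ : ∃ N : ℕ, Real.exp (2 * Q239.Central.C0) < N := exists_nat_gt _
  obtain ⟨q, hq, hqp⟩ := Nat.exists_infinite_primes (max (max Q N) 16)
  have hqQ : Q ≤ q := (le_max_left _ _).trans ((le_max_left _ _).trans hq)
  have hqN : N ≤ q := (le_max_right _ _).trans ((le_max_left _ _).trans hq)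
  have hq16 : 16 ≤ q := (le_max_right _ _).trans hq
  haveI : NeZero q := ⟨hqp.pos.ne'⟩
  have hlog : 2 * Q239.Central.C0 < Real.log q := by
    rw [Real.lt_log_iff_exp_lt (by exact_mod_cast hqp.pos)]
    exact hN.trans_le (by exact_mod_cast hqN)
  have hlog1 : 1 < Real.log q := by
    rw [Real.lt_log_iff_exp_lt (by exact_mod_cast hqp.pos)]
    have h1 := Real.exp_one_lt_d9
    have h2 : (16 : ℝ) ≤ q := by exact_mod_cast hq16
    linarith
  obtain ⟨-, χ, hχ1, hL, hle⟩ := hQ q hqp hqQ 0 ⟨le_refl _, by positivity⟩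
  have hneg := Q239.Central.re_logDeriv_neg hqp hlog χ hχ1 hL
  have hll : 0 < Real.log (Real.log q) := Real.log_pos hlog1
  have hpos : 0 ≤ (1 - 1 / 2) * A * Real.sqrt (Real.log q) * (Real.log (Real.log q)) ^ D := by
    have := Real.rpow_nonneg hll.le D
    have := Real.sqrt_nonneg (Real.log q)
    positivity
  rw [Complex.ofReal_zero, neg_zero, zero_mul, Complex.exp_zero, one_mul] at hle
  linarith

end Pool.Agent.S16940
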