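import Pool.Statements.S17091
import Pool.Agent.Q267.MW.C3Inert8

set_option autoImplicit false
open Pool Pool.MP_5bfa61_nt

namespace Pool.Agent.S17091

open Finset Pool.Agent.Q267.CDE Pool.Agent.Q267.MW

/-- from the residue ring to rational numbers -/
theorem conv (p : ℕ) [hp : Fact p.Prime] (hp2 : p ≠ 2) (c : ℤ) (w4 : R p) (hw4 : 8 * w4 = 1)
    (h : ∑ k ∈ range p, (k.centralBinom : R p) * ((u3 k : ℕ) : R p) * w4 ^ k = (c : R p)) :
    (p : ℤ) ^ 2 ∣ ((∑ k ∈ range p,
      ((Nat.choose (2 * k) k : ℚ) ^ 2 * (Nat.choose (3 * k) k : ℚ)) / (8 : ℚ) ^ k) - (c : ℚ)).num := by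
  set N : ℤ := ∑ k ∈ range p, ((Nat.choose (2 * k) k : ℤ) ^ 2 * (Nat.choose (3 * k) k : ℤ)) *
    8 ^ (p - 1 - k) with hN
  have h1 : ((N - 8 ^ (p - 1) * c : ℤ) : R p) = 0 := by
    push_cast
    rw [← h, hN, Int.cast_sum, mul_sum, ← sum_sub_distrib]
    refine sum_eq_zero fun k hk => ?_
    have hk' := mem_range.mp hk
    have e1 : (8 : R p) ^ (p - 1) * w4 ^ k = 8 ^ (p - 1 - k) := by
      have : p - 1 = (p - 1 - k) + k := by omega
      conv_lhs => rw [this]
      rw [pow_add, mul_assoc, ← mul_pow, hw4, one_pow, mul_one]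
    have e2 : ((u3 k : ℕ) : R p) = (Nat.choose (2 * k) k : R p) * (Nat.choose (3 * k) k : R p) := by
      unfold u3
      push_cast
      rfl
    rw [e2, Nat.centralBinom]
    push_cast
    linear_combination (-((Nat.choose (2 * k) k : R p) * ((Nat.choose (2 * k) k : R p) *
      (Nat.choose (3 * k) k : R p)))) * e1
  rw [ZMod.intCast_zmod_eq_zero_iff_dvd] at h1
  obtain ⟨m, hm⟩ := h1
  set q : ℚ := (∑ k ∈ range p,
      ((Nat.choose (2 * k) k : ℚ) ^ 2 * (Nat.choose (3 * k) k : ℚ)) / (8 : ℚ) ^ k) - (c : ℚ) with hq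
  have hm' := congrArg (Int.cast : ℤ → ℚ) hm
  push_cast at hm'
  have e3 : (∑ k ∈ range p,
      ((Nat.choose (2 * k) k : ℚ) ^ 2 * (Nat.choose (3 * k) k : ℚ)) / (8 : ℚ) ^ k) *
      8 ^ (p - 1) = (N : ℚ) := by
    rw [hN, Int.cast_sum, sum_mul]
    refine sum_congr rfl fun k hk => ?_
    have hk' := mem_range.mp hk
    have e4 : (8 : ℚ) ^ (p - 1) = 8 ^ (p - 1 - k) * 8 ^ k := by
      rw [← pow_add]; congr 1; omega
    push_cast
    rw [e4]
    have : (8 : ℚ) ^ k ≠ 0 := pow_ne_zero _ (by norm_num)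
    field_simp
  have e5 : q * 8 ^ (p - 1) = (p : ℚ) ^ 2 * m := by
    rw [hq, sub_mul, e3]
    linear_combination hm'
  have hden : (q.den : ℚ) ≠ 0 := by exact_mod_cast q.den_ne_zero
  have e6 : (q.num : ℚ) * 8 ^ (p - 1) = (p : ℚ) ^ 2 * (m * q.den) := by
    have e7 : (q.num : ℚ) = q * q.den := (Rat.mul_den_eq_num q).symm
    rw [e7]
    linear_combination (q.den : ℚ) * e5
  have e8 : q.num * 8 ^ (p - 1) = (p : ℤ) ^ 2 * (m * q.den) := by exact_mod_cast e6
  have hcop : IsCoprime ((p : ℤ) ^ 2) (8 ^ (p - 1)) := by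
    apply IsCoprime.pow_left
    apply IsCoprime.pow_right
    have : (8 : ℤ) = 2 ^ 3 := by norm_num
    rw [this]
    apply IsCoprime.pow_right
    have h2 : Nat.Coprime p 2 := (Nat.coprime_primes hp.out Nat.prime_two).mpr hp2
    exact_mod_cast (Nat.isCoprime_iff_coprime.mpr h2)
  exact hcop.dvd_of_dvd_mul_right ⟨_, e8⟩

theorem exists_w4 (p : ℕ) [hp : Fact p.Prime] (hp2 : p ≠ 2) : ∃ w4 : R p, 8 * w4 = 1 := by
  have h : IsUnit (8 : R p) := by
    apply isUnit_of_red
    rw [map_ofNat]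
    have : (8 : ZMod p) = 2 ^ 3 := by norm_num
    rw [this]
    exact pow_ne_zero 3 (two_z p hp2)
  exact h.exists_right_inv

theorem neg_two_three : ((-2 : ℤ) : ZMod 3) = 1 := by decide

/-- For every odd prime p, with S = sum over k<p of C(2k,k)^2 C(3k,k)/8^k: if (-2/p)=1 and p=x^2+2y^2, p^2 divides the numerator of S-(4x^2-2p); if (-2/p)=-1, p^2 divides the numerator of S. -/
theorem result :
    ∀ (p : ℕ) [Fact p.Prime], p ≠ 2 →
      ((legendreSym p (-2) = 1 →
          ∀ x y : ℤ, (p : ℤ) = x ^ 2 + 2 * y ^ 2 →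
            (p : ℤ) ^ 2 ∣
              ((∑ k ∈ Finset.range p,
                  ((Nat.choose (2 * k) k : ℚ) ^ 2 * (Nat.choose (3 * k) k : ℚ)) / (8 : ℚ) ^ k)
                - (((4 * x ^ 2 - 2 * (p : ℤ)) : ℤ) : ℚ)).num) ∧
       (legendreSym p (-2) = -1 →
            (p : ℤ) ^ 2 ∣
              (∑ k ∈ Finset.range p,
                  ((Nat.choose (2 * k) k : ℚ) ^ 2 * (Nat.choose (3 * k) k : ℚ)) / (8 : ℚ) ^ k).num)) := by
  intro p hp hp2
  constructor
  · intro _ x y hxy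
    obtain ⟨w4, hw4, h⟩ : ∃ w4 : R p, 8 * w4 = 1 ∧
        ∑ k ∈ range p, (k.centralBinom : R p) * ((u3 k : ℕ) : R p) * w4 ^ k =
          ((4 * x ^ 2 - 2 * (p : ℤ) : ℤ) : R p) := by
      by_cases hp3 : p = 3
      · subst hp3
        have h12 : x ^ 2 + 2 * y ^ 2 = 3 := by
          push_cast at hxy
          linarith
        have hx : x ^ 2 = 1 := by
          have hy1 : y ≤ 1 := by nlinarith [sq_nonneg x]
          have hy2 : -1 ≤ y := by nlinarith [sq_nonneg x]
          have hx1 : x ≤ 3 := by nlinarith [sq_nonneg y]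
          have hx2 : -3 ≤ x := by nlinarith [sq_nonneg y]
          interval_cases y <;> interval_cases x <;> simp_all
        refine ⟨8, by decide, ?_⟩
        rw [hx]
        decide
      · obtain ⟨w4, hw4⟩ := exists_w4 p hp2
        refine ⟨w4, hw4, ?_⟩
        rw [split8 p hp2 hp3 w4 hw4 x y hxy]
        push_cast
        ring
    exact conv p hp2 _ w4 hw4 h
  · intro hj
    have hp3 : p ≠ 3 := by
      rintro rfl
      rw [legendreSym.eq_neg_one_iff] at hj
      exact hj ⟨1, by rw [mul_one]; exact neg_two_three⟩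
    obtain ⟨w4, hw4⟩ := exists_w4 p hp2
    have hno : ∀ w : ZMod p, w ^ 2 + 2 ≠ 0 := by
      intro w hw
      rw [legendreSym.eq_neg_one_iff] at hj
      apply hj
      refine ⟨w, ?_⟩
      push_cast
      linear_combination (-1 : ZMod p) * hw
    have h := inert8 p hp2 hp3 w4 hw4 hno
    have := conv p hp2 0 w4 hw4 (by rw [h, Int.cast_zero])
    simpa using this

end Pool.Agent.S17091
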