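import Pool.Statements.S17468
import Pool.Agent.Q18.KZ.All

set_option autoImplicit false
open Filter Topology
open Pool Pool.MP_768c9c_nt

namespace Pool.Agent.S17468

/-- The negation: there is a completely multiplicative function `f` (with real values) whose series
converges to `0` and whose partial sums are `O(N^(-1/2-c))` for some `c > 0`. The function is built
in the folders `Pool/Agent/Q18/KZ` (plan and statements `S1`, `S2`, `S3`, `S4`, assembly `Asm1`,
`Asm2`, `All`) and `Pool/Agent/Q278/KT` (short intervals with few primes). -/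
theorem result :
    ¬ (∀ f : ℕ → ℂ,
      f 1 = 1 →
      (∀ m n : ℕ, 0 < m → 0 < n → f (m * n) = f m * f n) →
      Tendsto (fun N : ℕ => ∑ n ∈ Finset.range N, f (n + 1)) atTop (𝓝 0) →
      ∃ c : ℝ, 0 < c ∧ ∀ M : ℕ, ∃ N : ℕ, M ≤ N ∧ 0 < N ∧
        c / Real.sqrt (N : ℝ) ≤ ‖∑ n ∈ Finset.Icc 1 N, f n‖) :=
  Pool.Agent.Q18.KZ.a_END' Pool.Agent.Q18.KZ.a_ENV Pool.Agent.Q278.KT.mainp_half
    Pool.Agent.Q278.KT.mainp_043 Pool.Agent.Q278.KT.mainp_1316

end Pool.Agent.S17468
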