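import Pool.Statements.S17475
import Pool.Agent.Q254.AGP.Main
import Pool.Agent.Q225.AGP.PG
import Pool.Agent.Q186.AGP.Ph
import Pool.Agent.Q186.AGP.Zs
import Pool.Agent.Q110.AGP.Cnt
import Pool.Agent.Q110.AGP.Pr

set_option autoImplicit false
open Pool Pool.MP_773b62_nt

namespace Pool.Agent.S17475

/-- For every ε>0 there are arbitrarily large composite n such that the number of residues a mod n with a^(n-1) ≡ 1 mod n exceeds (1-ε)n, i.e. the limsup over composites of F(n)/n equals 1. -/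
theorem result :
    ∀ ε : ℝ, 0 < ε → ∀ N : ℕ, ∃ n : ℕ, N < n ∧ 1 < n ∧ ¬ Nat.Prime n ∧
      (1 - ε) * (n : ℝ) <
        (((Finset.range n).filter (fun a => a ^ (n - 1) ≡ 1 [MOD n])).card : ℝ) := by
  intro ε hε N
  obtain ⟨n, h1, h2, h3, h4⟩ := Pool.Agent.Q254.AGP.main_of Pool.Agent.Q225.AGP.pg
    Q186.AGP.ph Q186.AGP.triv Q186.AGP.zs
    (Pool.Agent.Q110.AGP.pr Q186.AGP.ph) Pool.Agent.Q110.AGP.cnt
    Pool.Agent.Q110.AGP.exp_ ε hε N
  exact ⟨n, h1, h2, h3, by convert h4⟩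

end Pool.Agent.S17475
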