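import Pool.Statements.S17771
import Pool.Agent.Q272.Erd.Main
import Pool.Agent.Q272.Erd.Finite

set_option autoImplicit false
open Pool Pool.MP_91e459_nt

namespace Pool.Agent.S17771

open Finset

/-- A sum over `Icc 1 m` as a sum over `range m`. -/
theorem sum_Icc_eq (m n : ℕ) : ∑ i ∈ Icc 1 m, i ^ n = ∑ i ∈ range m, (i + 1) ^ n := by
  induction m with
  | zero => simp
  | succ m ih => rw [sum_Icc_succ_top (by omega), ih, sum_range_succ]

theorem list_sum (m n : ℕ) :
    ((List.range m).map (fun i => (i + 1) ^ n)).sum = ∑ i ∈ range m, (i + 1) ^ n := by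
  induction m with
  | zero => simp
  | succ m ih => rw [List.range_succ, List.map_append, List.sum_append, ih, sum_range_succ]; simp

/-- The first inequality. -/
theorem first {K n : ℕ} (h : 2 * (K - 1) ^ n < K ^ n) :
    ∑ i ∈ Icc 1 (K - 1), i ^ n < K ^ n := by
  have hK : 1 ≤ K := by
    rcases Nat.eq_zero_or_pos K with h0 | h0
    · subst h0
      rcases Nat.eq_zero_or_pos n with h1 | h1
      · subst h1; simp at h
      · rw [zero_pow (by omega)] at h; omega
    · exact h0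
  have key : ∀ k, k + 1 ≤ K → 2 * k ^ n < (k + 1) ^ n := by
    intro k hk
    have h1 : k * K ≤ (K - 1) * (k + 1) := by
      obtain ⟨d, rfl⟩ := Nat.exists_eq_add_of_le hk
      have e : k + 1 + d - 1 = k + d := by omega
      rw [e]; nlinarith
    have h2 : k ^ n * K ^ n ≤ (K - 1) ^ n * (k + 1) ^ n := by
      rw [← mul_pow, ← mul_pow]; exact Nat.pow_le_pow_left h1 n
    have hKn : 0 < K ^ n := by positivity
    have hk1 : 0 < (k + 1) ^ n := by positivity
    have h3 : (2 * k ^ n) * K ^ n < (k + 1) ^ n * K ^ n := by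
      calc (2 * k ^ n) * K ^ n = 2 * (k ^ n * K ^ n) := by ring
        _ ≤ 2 * ((K - 1) ^ n * (k + 1) ^ n) := by omega
        _ = (2 * (K - 1) ^ n) * (k + 1) ^ n := by ring
        _ < K ^ n * (k + 1) ^ n := Nat.mul_lt_mul_of_pos_right h hk1
        _ = (k + 1) ^ n * K ^ n := by ring
    exact lt_of_mul_lt_mul_right h3 (Nat.zero_le _)
  have main : ∀ k, k + 1 ≤ K → ∑ i ∈ Icc 1 k, i ^ n < (k + 1) ^ n := by
    intro k
    induction k with
    | zero => intro _; simp
    | succ k ih =>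
      intro hk
      rw [sum_Icc_succ_top (by omega)]
      have h1 := ih (by omega)
      have h2 := key (k + 1) hk
      omega
  have := main (K - 1) (by omega)
  rwa [Nat.sub_add_cancel hK] at this

/-- The second inequality, `m ≥ 240`. -/
theorem second_large {m n : ℕ} (hm : 240 ≤ m) (h : (1 - 1 / (m : ℝ)) ^ n > 1 / 2) :
    (m + 1) ^ n < ∑ i ∈ Icc 1 m, i ^ n := by
  have h1 := Q272.Erd.real_ineq m n hm h
  have hmpos : (0 : ℝ) < m := by
    have : (240 : ℝ) ≤ m := by exact_mod_cast hm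
    linarith
  have h2 : ((m : ℝ) + 1) ^ n < ∑ i ∈ range m, ((m : ℝ) - i) ^ n := by
    have h3 := mul_lt_mul_of_pos_right h1 (pow_pos hmpos n)
    rw [← mul_pow, sum_mul] at h3
    have e1 : (1 + 1 / (m : ℝ)) * m = m + 1 := by field_simp
    rw [e1] at h3
    refine lt_of_lt_of_eq h3 (sum_congr rfl fun i _ => ?_)
    rw [← mul_pow]
    congr 1
    field_simp
  rw [sum_Icc_eq]
  have h4 : ∑ i ∈ range m, ((m : ℝ) - i) ^ n = ∑ i ∈ range m, ((i : ℝ) + 1) ^ n := by
    rw [← sum_range_reflect]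
    refine sum_congr rfl fun i hi => ?_
    rw [mem_range] at hi
    congr 1
    have : m - 1 - i = m - (1 + i) := by omega
    rw [this, Nat.cast_sub (by omega)]
    push_cast
    ring
  rw [h4] at h2
  exact_mod_cast h2

/-- The second inequality, `m < 240`. -/
theorem second_small {m n : ℕ} (hm : m < 240) (hm2 : 2 ≤ m) (h1 : m ^ n < 2 * (m - 1) ^ n)
    (h2 : 2 * (m - 2) ^ n < (m - 1) ^ n) : (m + 1) ^ n < ∑ i ∈ Icc 1 m, i ^ n := by
  have hn : n < m := by
    by_contra hcon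
    rw [not_lt] at hcon
    have h3 : 2 * (m - 1) ^ n ≤ m ^ n := by
      obtain ⟨k, rfl⟩ := Nat.exists_eq_add_of_le hm2
      have e : 2 + k - 1 = k + 1 := by omega
      rw [e]
      have hk : (0 : ℝ) < (k : ℝ) + 1 := by positivity
      have h4 : (1 : ℝ) + n * (1 / ((k : ℝ) + 1)) ≤ (1 + 1 / ((k : ℝ) + 1)) ^ n :=
        one_add_mul_le_pow (by have : 0 ≤ 1 / ((k : ℝ) + 1) := by positivity
                               linarith) n
      have h5 : (2 : ℝ) ≤ (1 + 1 / ((k : ℝ) + 1)) ^ n := by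
        have h6 : (1 : ℝ) ≤ n * (1 / ((k : ℝ) + 1)) := by
          rw [mul_one_div, one_le_div hk]
          have : ((2 + k : ℕ) : ℝ) ≤ n := by exact_mod_cast hcon
          push_cast at this
          linarith
        linarith
      have h7 : (2 : ℝ) * ((k : ℝ) + 1) ^ n ≤ (2 + (k : ℝ)) ^ n := by
        calc (2 : ℝ) * ((k : ℝ) + 1) ^ n ≤ (1 + 1 / ((k : ℝ) + 1)) ^ n * ((k : ℝ) + 1) ^ n :=
              mul_le_mul_of_nonneg_right h5 (by positivity)
          _ = (2 + (k : ℝ)) ^ n := by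
              rw [← mul_pow]; congr 1; field_simp; ring
      exact_mod_cast h7
    omega
  have h := Q272.Erd.ok_of_lt hm hn
  unfold Q272.Erd.ok at h
  simp only [Bool.or_eq_true, Bool.not_eq_true', Bool.and_eq_false_iff, decide_eq_false_iff_not,
    decide_eq_true_eq] at h
  rcases h with (h | h) | h
  · exact absurd h1 h
  · exact absurd h2 h
  · rw [sum_Icc_eq]
    rwa [list_sum] at h

/-- For all n ≥ 1, m ≥ 2 with (1−1/m)^n > 1/2 and (1−1/(m−1))^n < 1/2: (m−1)^n exceeds 1^n+…+(m−2)^n and (m+1)^n is less than 1^n+…+m^n. -/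
theorem result :
    ∀ m n : ℕ, 1 ≤ n → 2 ≤ m →
      (1 - 1 / (m : ℝ)) ^ n > 1 / 2 →
      (1 - 1 / ((m : ℝ) - 1)) ^ n < 1 / 2 →
      (m - 1) ^ n > ∑ i ∈ Finset.Icc 1 (m - 2), i ^ n ∧
      (m + 1) ^ n < ∑ i ∈ Finset.Icc 1 m, i ^ n := by
  intro m n hn hm h1 h2
  obtain ⟨k, rfl⟩ := Nat.exists_eq_add_of_le hm
  have hk1 : (0 : ℝ) < (k : ℝ) + 1 := by positivity
  have hk2 : (0 : ℝ) < (k : ℝ) + 2 := by positivity
  have c1 : (2 + k) ^ n < 2 * (k + 1) ^ n := by
    have e : (1 - 1 / ((2 + k : ℕ) : ℝ)) = ((k : ℝ) + 1) / ((k : ℝ) + 2) := by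
      push_cast; field_simp; ring
    rw [e, div_pow, gt_iff_lt, lt_div_iff₀ (pow_pos hk2 n)] at h1
    have h3 : ((k : ℝ) + 2) ^ n < 2 * ((k : ℝ) + 1) ^ n := by linarith
    have h4 : ((2 + k : ℕ) : ℝ) ^ n < 2 * ((k + 1 : ℕ) : ℝ) ^ n := by
      push_cast
      rw [add_comm (2 : ℝ)]
      exact h3
    exact_mod_cast h4
  have c2 : 2 * k ^ n < (k + 1) ^ n := by
    have e : (1 - 1 / (((2 + k : ℕ) : ℝ) - 1)) = (k : ℝ) / ((k : ℝ) + 1) := by
      push_cast
      have : (2 + (k : ℝ) - 1) = k + 1 := by ring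
      rw [this]; field_simp; ring
    rw [e, div_pow, div_lt_iff₀ (pow_pos hk1 n)] at h2
    have h4 : 2 * (k : ℝ) ^ n < ((k + 1 : ℕ) : ℝ) ^ n := by push_cast; linarith
    exact_mod_cast h4
  have e1 : 2 + k - 1 = k + 1 := by omega
  have e2 : 2 + k - 2 = k := by omega
  rw [e1, e2]
  constructor
  · have := first (K := k + 1) (n := n) (by simpa using c2)
    simpa using this
  · by_cases hlt : 2 + k < 240
    · exact second_small hlt (by omega) (by rwa [e1]) (by rwa [e1, e2])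
    · exact second_large (by omega) h1

end Pool.Agent.S17771
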