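import Pool.Statements.S17873
import Pool.Agent.Q103.FS.Main
import Pool.Agent.Q103.FS.Orb

set_option autoImplicit false
open Pool Pool.MP_9b502d_nt

namespace Pool.Agent.S17873

/-- For K a function field of a curve over k, and any d≥2, D≥1, there is B with: every degree-d map of P^1 over K-bar, not conjugate to one over k-bar, defined over a degree-≤D extension, has at most B preperiodic points of degree ≤D over K. -/
theorem result :
  ∀ (k K : Type) [Field k] [Field K] [Algebra k K],
    (⊤ : IntermediateField k K).FG →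
    (∃ x : K, Transcendental k x ∧
      Algebra.IsAlgebraic (IntermediateField.adjoin k {x}) K) →
    ∀ d : ℕ, 2 ≤ d → ∀ D : ℕ, 1 ≤ D → ∃ B : ℕ,
    ∀ (F G : MvPolynomial (Fin 2) (AlgebraicClosure K)),
      F.IsHomogeneous d → G.IsHomogeneous d →
      (∀ v : Fin 2 → AlgebraicClosure K,
        MvPolynomial.eval v F = 0 → MvPolynomial.eval v G = 0 → v = 0) →
      (¬ ∃ (A : Matrix (Fin 2) (Fin 2) (AlgebraicClosure K))
          (F' G' : MvPolynomial (Fin 2) (AlgebraicClosure K)),
          A.det ≠ 0 ∧ F'.IsHomogeneous d ∧ G'.IsHomogeneous d ∧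
          (∀ m, IsAlgebraic k (F'.coeff m) ∧ IsAlgebraic k (G'.coeff m)) ∧
          ∀ v : Fin 2 → AlgebraicClosure K, v ≠ 0 →
            ∃ c : AlgebraicClosure K, c ≠ 0 ∧
              ![MvPolynomial.eval (A.mulVec v) F, MvPolynomial.eval (A.mulVec v) G] =
                c • A.mulVec ![MvPolynomial.eval v F', MvPolynomial.eval v G']) →
      ∀ L : IntermediateField K (AlgebraicClosure K),
        FiniteDimensional K L → Module.finrank K L ≤ D →
        (∀ m, F.coeff m ∈ L ∧ G.coeff m ∈ L) →
        {p : Projectivization (AlgebraicClosure K) (Fin 2 → AlgebraicClosure K) |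
            (∃ m n : ℕ, m < n ∧ ∃ c : AlgebraicClosure K, c ≠ 0 ∧
              (fun v : Fin 2 → AlgebraicClosure K =>
                  ![MvPolynomial.eval v F, MvPolynomial.eval v G])^[n] p.rep =
                c • (fun v : Fin 2 → AlgebraicClosure K =>
                  ![MvPolynomial.eval v F, MvPolynomial.eval v G])^[m] p.rep) ∧
            ∃ L' : IntermediateField K (AlgebraicClosure K),
              FiniteDimensional K L' ∧ Module.finrank K L' ≤ D ∧
              ∃ c : AlgebraicClosure K, c ≠ 0 ∧ ∀ i, c * p.rep i ∈ L'}.encard ≤ B := by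
  exact Pool.Agent.Q103.FS.main.{0, 0} Pool.Agent.Q103.FS.orbP.{0}

end Pool.Agent.S17873
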