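import Pool.Statements.S17899
import Pool.Agent.Q236.TotientWindow

set_option autoImplicit false
open Filter Topology
open Pool Pool.MP_9d1108_nt

namespace Pool.Agent.S17899

open Finset in
/-- auxiliary: thresholds -/
theorem exists_thresholds : ∃ X : ℕ → ℕ, (∀ k, k ^ 2 ≤ X k) ∧ ∀ k : ℕ, 1 ≤ k → ∀ x : ℕ, X k ≤ x →
    ((Set.ncard {n : ℕ | (x : ℝ) < (n : ℝ) + (Nat.totient n : ℝ) ∧
      (n : ℝ) + (Nat.totient n : ℝ) < (x : ℝ) + x / k} : ℕ) : ℝ) ≤ 4 * (x / k) := by
  have h : ∀ k : ℕ, ∃ X : ℕ, 1 ≤ k → ∀ x : ℕ, X ≤ x →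
    ((Set.ncard {n : ℕ | (x : ℝ) < (n : ℝ) + (Nat.totient n : ℝ) ∧
      (n : ℝ) + (Nat.totient n : ℝ) < (x : ℝ) + x / k} : ℕ) : ℝ) ≤ 4 * (x / k) := by
    intro k
    by_cases hk : 1 ≤ k
    · obtain ⟨X, hX⟩ := Q236.TotientWindow.window k hk
      exact ⟨X, fun _ => hX⟩
    · exact ⟨0, fun h => absurd h hk⟩
  choose X hX using h
  refine ⟨fun k => k ^ 2 + X k, fun k => by simp, fun k hk x hx => hX k hk x ?_⟩
  have : k ^ 2 + X k ≤ x := hx
  omega

/-- There is F with F(x)→∞ and F(n)/φ(n)→0 along a density-one set, such that for some C only finitely many x have more than C·F(x) integers n with n+φ(n) in the open interval (x, x+F(x)). -/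
theorem result :
    ∃ F : ℕ → ℝ, Tendsto F atTop atTop ∧
      (∃ A : Set ℕ,
        Tendsto (fun N : ℕ => ((A ∩ Set.Iio N).ncard : ℝ) / (N : ℝ)) atTop (𝓝 1) ∧
        Tendsto (fun n : ℕ => F n / (Nat.totient n : ℝ)) (atTop ⊓ 𝓟 A) (𝓝 0)) ∧
      ¬ (∀ C : ℝ, Set.Infinite {x : ℕ |
          ((Set.ncard {n : ℕ | (x : ℝ) < (n : ℝ) + (Nat.totient n : ℝ) ∧
              (n : ℝ) + (Nat.totient n : ℝ) < (x : ℝ) + F x} : ℕ) : ℝ) > C * F x}) := by
  classical
  obtain ⟨X, hXsq, hX⟩ := exists_thresholds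
  -- slowly growing function
  set ψ : ℕ → ℕ := fun x => Nat.findGreatest (fun k => X k ≤ x) x with hψ
  have hψspec : ∀ x, X 1 ≤ x → 1 ≤ x → 1 ≤ ψ x ∧ X (ψ x) ≤ x := by
    intro x hx hx1
    have h1 : 1 ≤ ψ x := Nat.le_findGreatest hx1 hx
    refine ⟨h1, ?_⟩
    have := Nat.findGreatest_spec (P := fun k => X k ≤ x) hx1 hx
    exact this
  have hψtop : Tendsto (fun x => (ψ x : ℝ)) atTop atTop := by
    apply tendsto_natCast_atTop_atTop.comp
    rw [tendsto_atTop]
    intro K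
    filter_upwards [eventually_ge_atTop (max (X K) K)] with x hx
    exact Nat.le_findGreatest (le_trans (le_max_right _ _) hx) (le_trans (le_max_left _ _) hx)
  set F : ℕ → ℝ := fun x => (x : ℝ) / (ψ x : ℝ) with hF
  set A : Set ℕ := {n : ℕ | n ≠ 0 ∧ Real.exp (2 * Q236.TotientWindow.R 1 n) ≤ Real.sqrt (ψ n)} with hA
  refine ⟨F, ?_, ⟨A, ?_, ?_⟩, ?_⟩
  · -- F → ∞
    have h1 : Tendsto (fun x : ℕ => Real.sqrt (x : ℝ)) atTop atTop :=
      Real.tendsto_sqrt_atTop.comp tendsto_natCast_atTop_atTop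
    apply tendsto_atTop_mono' _ _ h1
    filter_upwards [eventually_ge_atTop (max (X 1) 1)] with x hx
    obtain ⟨h2, h3⟩ := hψspec x (le_trans (le_max_left _ _) hx) (le_trans (le_max_right _ _) hx)
    have h4 : (ψ x) ^ 2 ≤ x := (hXsq _).trans h3
    have h5 : (0 : ℝ) < ψ x := by exact_mod_cast h2
    have h6 : (ψ x : ℝ) ≤ Real.sqrt x := by
      apply Real.le_sqrt_of_sq_le
      exact_mod_cast h4
    have hx0 : (0 : ℝ) ≤ x := Nat.cast_nonneg x
    rw [hF]
    simp only
    rw [le_div_iff₀ h5]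
    calc Real.sqrt x * ψ x ≤ Real.sqrt x * Real.sqrt x :=
          mul_le_mul_of_nonneg_left h6 (Real.sqrt_nonneg _)
      _ = x := Real.mul_self_sqrt hx0
  · -- density one
    rw [Metric.tendsto_atTop]
    intro ε hε
    -- choose M with log ψ large
    have hlog : Tendsto (fun x => Real.log (Real.sqrt (ψ x)) / 2) atTop atTop := by
      apply Tendsto.atTop_div_const (by norm_num)
      exact Real.tendsto_log_atTop.comp (Real.tendsto_sqrt_atTop.comp hψtop)
    have hev := (hlog.eventually_ge_atTop (4 / ε)).and (hψtop.eventually_ge_atTop 1)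
    rw [eventually_atTop] at hev
    obtain ⟨M, hM⟩ := hev
    obtain ⟨N0, hN0⟩ := exists_nat_gt (4 * (M + 1 : ℝ) / ε)
    refine ⟨N0 + 1, fun N hN => ?_⟩
    have hNpos : (0 : ℝ) < N := by exact_mod_cast (by omega : 0 < N)
    have hNbig : (4 * (M + 1 : ℝ) / ε) < N := by
      have : (N0 : ℝ) ≤ N := by exact_mod_cast (by omega : N0 ≤ N)
      linarith
    -- complement bound
    have hc : (((Set.Iio N : Set ℕ) \ A).ncard : ℝ) ≤ (M + 1) + (N : ℝ) * (ε / 4) := by
      have hsub : ((Set.Iio N : Set ℕ) \ A) ⊆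
          ((Finset.range (M + 1) ∪ (Finset.Icc 1 N).filter (fun n => 4 / ε < Q236.TotientWindow.R 1 n) : Finset ℕ) : Set ℕ) := by
        intro n hn
        rw [Set.mem_sdiff, Set.mem_Iio] at hn
        obtain ⟨hn1, hn2⟩ := hn
        rw [Finset.mem_coe, Finset.mem_union, Finset.mem_range, Finset.mem_filter, Finset.mem_Icc]
        by_cases hnM : n < M + 1
        · left; exact hnM
        · right
          have hn0 : n ≠ 0 := by omega
          refine ⟨⟨by omega, by omega⟩, ?_⟩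
          have hMn := hM n (by omega)
          by_contra hcon
          push Not at hcon
          apply hn2
          refine ⟨hn0, ?_⟩
          have h1 : 2 * Q236.TotientWindow.R 1 n ≤ Real.log (Real.sqrt (ψ n)) := by linarith [hMn.1]
          have h2 : 0 < Real.sqrt (ψ n) := Real.sqrt_pos.mpr (by linarith [hMn.2])
          calc Real.exp (2 * Q236.TotientWindow.R 1 n) ≤ Real.exp (Real.log (Real.sqrt (ψ n))) :=
                Real.exp_le_exp.mpr h1
            _ = Real.sqrt (ψ n) := Real.exp_log h2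
      have h1 := Set.ncard_le_ncard hsub (Finset.finite_toSet _)
      rw [Set.ncard_coe_finset] at h1
      have h2 := h1.trans (Finset.card_union_le _ _)
      rw [Finset.card_range] at h2
      have h3 := Q236.TotientWindow.card_R_gt 1 N (by norm_num) (4 / ε) (by positivity)
      have h4 : (((Set.Iio N : Set ℕ) \ A).ncard : ℝ) ≤ (M + 1 : ℕ) +
          (((Finset.Icc 1 N).filter (fun n => 4 / ε < Q236.TotientWindow.R 1 n)).card : ℝ) := by
        exact_mod_cast h2
      have h5 : (N : ℝ) / (((1 : ℕ) : ℝ) * (4 / ε)) = N * (ε / 4) := by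
        push_cast; field_simp
      rw [h5] at h3
      push_cast at h4
      linarith
    have hpart : ((A ∩ Set.Iio N).ncard : ℝ) + (((Set.Iio N : Set ℕ) \ A).ncard : ℝ) = N := by
      have h1 := Set.ncard_inter_add_ncard_sdiff_eq_ncard (Set.Iio N : Set ℕ) A (Set.finite_Iio N)
      have h2 : (Set.Iio N : Set ℕ).ncard = N := by
        rw [← Finset.coe_range, Set.ncard_coe_finset, Finset.card_range]
      rw [h2, Set.inter_comm] at h1
      exact_mod_cast h1
    have hle : ((A ∩ Set.Iio N).ncard : ℝ) / N ≤ 1 := by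
      rw [div_le_one hNpos]
      have : (0 : ℝ) ≤ (((Set.Iio N : Set ℕ) \ A).ncard : ℝ) := Nat.cast_nonneg _
      linarith
    have hge : 1 - ε < ((A ∩ Set.Iio N).ncard : ℝ) / N := by
      rw [lt_div_iff₀ hNpos]
      rw [div_lt_iff₀ hε] at hNbig
      nlinarith
    rw [Real.dist_eq, abs_lt]
    constructor <;> linarith
  · -- F n / φ(n) → 0 along A
    have hsq : Tendsto (fun n : ℕ => (Real.sqrt (ψ n))⁻¹) atTop (𝓝 0) :=
      tendsto_inv_atTop_zero.comp (Real.tendsto_sqrt_atTop.comp hψtop)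
    have hsq' : Tendsto (fun n : ℕ => (Real.sqrt (ψ n))⁻¹) (atTop ⊓ 𝓟 A) (𝓝 0) :=
      hsq.mono_left inf_le_left
    have hev : ∀ᶠ n in (atTop ⊓ 𝓟 A), n ∈ A ∧ 1 ≤ (ψ n : ℝ) := by
      have h1 : ∀ᶠ n in (atTop ⊓ 𝓟 A), n ∈ A := eventually_inf_principal.mpr (by simp)
      have h2 : ∀ᶠ n in (atTop ⊓ 𝓟 A), 1 ≤ (ψ n : ℝ) :=
        (hψtop.eventually_ge_atTop 1).filter_mono inf_le_left
      exact h1.and h2
    apply squeeze_zero' _ _ hsq'
    · filter_upwards with n
      rw [hF]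
      positivity
    · filter_upwards [hev] with n hn
      obtain ⟨⟨hn0, hn1⟩, hn2⟩ := hn
      rw [hF]
      simp only
      have hψ0 : (0 : ℝ) < ψ n := by linarith
      have hφ : (0 : ℝ) < n.totient := by
        exact_mod_cast Nat.totient_pos.mpr (Nat.pos_of_ne_zero hn0)
      have hs : 0 < Real.sqrt (ψ n) := Real.sqrt_pos.mpr hψ0
      have h1 := Q236.TotientWindow.ratio_le_exp n hn0
      have h2 : (n : ℝ) ≤ n.totient * Real.sqrt (ψ n) :=
        h1.trans (mul_le_mul_of_nonneg_left hn1 hφ.le)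
      rw [div_div, div_le_iff₀ (by positivity)]
      calc (n : ℝ) ≤ n.totient * Real.sqrt (ψ n) := h2
        _ = (Real.sqrt (ψ n))⁻¹ * (Real.sqrt (ψ n) * Real.sqrt (ψ n) * n.totient) := by
            field_simp
        _ = (Real.sqrt (ψ n))⁻¹ * (ψ n * n.totient) := by
            rw [Real.mul_self_sqrt hψ0.le]
  · -- bounded
    intro hall
    apply hall 4
    apply (Set.finite_Iio (max (X 1) 1)).subset
    intro x hx
    rw [Set.mem_Iio]
    by_contra hcon
    push Not at hcon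
    obtain ⟨h1, h2⟩ := hψspec x (le_trans (le_max_left _ _) hcon) (le_trans (le_max_right _ _) hcon)
    have h3 := hX (ψ x) h1 x h2
    have h4 : ¬ (((Set.ncard {n : ℕ | (x : ℝ) < (n : ℝ) + (Nat.totient n : ℝ) ∧
              (n : ℝ) + (Nat.totient n : ℝ) < (x : ℝ) + F x} : ℕ) : ℝ) > 4 * F x) := by
      rw [hF]
      simp only
      exact not_lt.mpr h3
    exact h4 hx

end Pool.Agent.S17899
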