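import Pool.Statements.S18419

set_option autoImplicit false
open Pool Pool.MP_c520af_nt

namespace Pool.Agent.S18419

/-- For every number field K there are maps (x,y) to (y, F_d(y) − δ_d x), with deg F_d = d and δ_d ≠ 0, for each d ≥ 2, whose number of K-rational periodic points eventually exceeds C·d for every constant C. -/
theorem result :
    ∀ (K : Type) [Field K] [NumberField K],
      ∃ (F : ℕ → Polynomial K) (δ : ℕ → K),
        (∀ d : ℕ, 2 ≤ d → (F d).natDegree = d ∧ δ d ≠ 0) ∧
        ∀ C : ℕ, ∃ D : ℕ, ∀ d : ℕ, 2 ≤ d → D ≤ d →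
          (((C * d : ℕ) : ℕ∞) <
            {P : K × K | ∃ n : ℕ, 1 ≤ n ∧
              (fun p : K × K => (p.2, (F d).eval p.2 - δ d * p.1))^[n] P = P}.encard) := by
  classical
  intro K _ _
  refine ⟨fun d => ∏ s ∈ Finset.range d, (Polynomial.X - Polynomial.C (s : K)), fun _ => -1,
    fun d _ => ⟨?_, by simp⟩, fun C => ⟨C + 1, fun d _ hd => ?_⟩⟩
  · rw [Polynomial.natDegree_prod_of_monic _ _ (fun s _ => Polynomial.monic_X_sub_C _)]
    simp only [Polynomial.natDegree_X_sub_C, Finset.sum_const, Finset.card_range, smul_eq_mul,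
      mul_one]
  · -- the grid of points with coordinates in `0, ..., d - 1` consists of points of period at most 2
    have hF : ∀ b < d, (∏ s ∈ Finset.range d,
        (Polynomial.X - Polynomial.C (s : K))).eval (b : K) = 0 := by
      intro b hb
      rw [Polynomial.eval_prod]
      exact Finset.prod_eq_zero (Finset.mem_range.mpr hb) (by simp)
    have hinj : Function.Injective (fun p : ℕ × ℕ => ((p.1 : K), (p.2 : K))) := by
      rintro ⟨a, b⟩ ⟨a', b'⟩ h
      simp only [Prod.mk.injEq, Nat.cast_inj] at h
      exact Prod.ext h.1 h.2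
    have hsub : (((Finset.range d ×ˢ Finset.range d).image
        (fun p : ℕ × ℕ => ((p.1 : K), (p.2 : K))) : Finset (K × K)) : Set (K × K)) ⊆
        {P : K × K | ∃ n : ℕ, 1 ≤ n ∧
              (fun p : K × K => (p.2, (∏ s ∈ Finset.range d,
                (Polynomial.X - Polynomial.C (s : K))).eval p.2 - (-1) * p.1))^[n] P = P} := by
      intro P hP
      simp only [Finset.coe_image, Set.mem_image, Finset.mem_coe, Finset.mem_product,
        Finset.mem_range] at hP
      obtain ⟨⟨a, b⟩, ⟨ha, hb⟩, rfl⟩ := hP
      refine ⟨2, by norm_num, ?_⟩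
      simp only [Function.iterate_succ, Function.iterate_zero, Function.comp_apply, id_eq]
      rw [hF b hb]
      have : (0 : K) - -1 * (a : K) = a := by ring
      rw [this, hF a ha]
      simp
    have hle := Set.encard_le_encard hsub
    rw [Set.encard_coe_eq_coe_finsetCard, Finset.card_image_of_injective _ hinj,
      Finset.card_product, Finset.card_range] at hle
    refine lt_of_lt_of_le ?_ hle
    have : C * d < d * d := Nat.mul_lt_mul_of_pos_right (by omega) (by omega)
    exact_mod_cast this

end Pool.Agent.S18419
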