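import Pool.Statements.S18649
import Pool.Agent.Q267.MW.C3Inert

set_option autoImplicit false
open Pool Pool.MP_d8ed36_nt

namespace Pool.Agent.S18649

open Finset Pool.Agent.Q267.CDE Pool.Agent.Q267.MW

/-- `(-11 / p) = (p / 11)`. -/
theorem jac_neg_eleven (p : ℕ) (hp : Odd p) : jacobiSym (-11) p = jacobiSym (p : ℤ) 11 := by
  have h11 : jacobiSym (-11) p = jacobiSym (-1) p * jacobiSym ((11 : ℕ) : ℤ) p := by
    rw [← jacobiSym.mul_left]; norm_num
  have h4 : p % 4 = 1 ∨ p % 4 = 3 := by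
    obtain ⟨k, rfl⟩ := hp
    omega
  rw [h11]
  rcases h4 with h | h
  · rw [jacobiSym.at_neg_one hp, ZMod.χ₄_nat_one_mod_four h, one_mul]
    exact (jacobiSym.quadratic_reciprocity_one_mod_four h (by decide)).symm
  · rw [jacobiSym.at_neg_one hp, ZMod.χ₄_nat_three_mod_four h]
    rw [jacobiSym.quadratic_reciprocity_three_mod_four (a := 11) (b := p) (by norm_num) h]
    ring

theorem no_root (p : ℕ) [hp : Fact p.Prime] (h2 : p ≠ 2)
    (h : jacobiSym (p : ℤ) 11 = -1) (w : ZMod p) : w ^ 2 - w + 3 ≠ 0 := by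
  intro hw
  have hodd : Odd p := hp.out.odd_of_ne_two h2
  have h1 : legendreSym p (-11) = -1 := by
    rw [jacobiSym.legendreSym.to_jacobiSym, jac_neg_eleven p hodd, h]
  rw [legendreSym.eq_neg_one_iff] at h1
  apply h1
  refine ⟨2 * w - 1, ?_⟩
  push_cast
  linear_combination (-4) * hw

/-- from the residue ring to rational numbers -/
theorem conv (p : ℕ) [hp : Fact p.Prime] (hp2 : p ≠ 2) (c : ℤ) (w4 : R p) (hw4 : 64 * w4 = 1)
    (h : ∑ k ∈ range p, (k.centralBinom : R p) * ((u3 k : ℕ) : R p) * w4 ^ k = (c : R p)) :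
    ∃ r : ℚ, (∑ k ∈ range p,
      ((Nat.choose (2 * k) k : ℚ) ^ 2 * (Nat.choose (3 * k) k : ℚ)) / (64 : ℚ) ^ k) - (c : ℚ) =
        (p : ℚ) ^ 2 * r ∧ Nat.Coprime r.den p := by
  set N : ℤ := ∑ k ∈ range p, ((Nat.choose (2 * k) k : ℤ) ^ 2 * (Nat.choose (3 * k) k : ℤ)) *
    64 ^ (p - 1 - k) with hN
  have h1 : ((N - 64 ^ (p - 1) * c : ℤ) : R p) = 0 := by
    push_cast
    rw [← h, hN, Int.cast_sum, mul_sum, ← sum_sub_distrib]
    refine sum_eq_zero fun k hk => ?_
    have hk' := mem_range.mp hk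
    have e1 : (64 : R p) ^ (p - 1) * w4 ^ k = 64 ^ (p - 1 - k) := by
      have : p - 1 = (p - 1 - k) + k := by omega
      conv_lhs => rw [this]
      rw [pow_add, mul_assoc, ← mul_pow, hw4, one_pow, mul_one]
    have e2 : ((u3 k : ℕ) : R p) = (Nat.choose (2 * k) k : R p) * (Nat.choose (3 * k) k : R p) := by
      unfold u3
      push_cast
      rfl
    rw [e2, Nat.centralBinom]
    push_cast
    linear_combination (-((Nat.choose (2 * k) k : R p) * ((Nat.choose (2 * k) k : R p) *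
      (Nat.choose (3 * k) k : R p)))) * e1
  rw [ZMod.intCast_zmod_eq_zero_iff_dvd] at h1
  obtain ⟨m, hm⟩ := h1
  have h64 : ((64 : ℚ)) ^ (p - 1) ≠ 0 := pow_ne_zero _ (by norm_num)
  refine ⟨(m : ℚ) / (64 ^ (p - 1) : ℕ), ?_, ?_⟩
  · have hm' := congrArg (Int.cast : ℤ → ℚ) hm
    push_cast at hm' ⊢
    have e3 : (∑ k ∈ range p,
        ((Nat.choose (2 * k) k : ℚ) ^ 2 * (Nat.choose (3 * k) k : ℚ)) / (64 : ℚ) ^ k) *
        64 ^ (p - 1) = (N : ℚ) := by
      rw [hN, Int.cast_sum, sum_mul]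
      refine sum_congr rfl fun k hk => ?_
      have hk' := mem_range.mp hk
      have e4 : (64 : ℚ) ^ (p - 1) = 64 ^ (p - 1 - k) * 64 ^ k := by
        rw [← pow_add]; congr 1; omega
      push_cast
      rw [e4]
      have : (64 : ℚ) ^ k ≠ 0 := pow_ne_zero _ (by norm_num)
      field_simp
    rw [mul_div_assoc', eq_div_iff h64, sub_mul, e3]
    linear_combination hm'
  · have hd : ((m : ℚ) / (64 ^ (p - 1) : ℕ)).den ∣ 64 ^ (p - 1) := by
      have := Rat.den_dvd m ((64 ^ (p - 1) : ℕ) : ℤ)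
      rw [Rat.divInt_eq_div] at this
      exact_mod_cast this
    refine Nat.Coprime.coprime_dvd_left hd ?_
    apply Nat.Coprime.pow_left
    have : (64 : ℕ) = 2 ^ 6 := by norm_num
    rw [this]
    apply Nat.Coprime.pow_left
    rw [Nat.coprime_primes Nat.prime_two hp.out]
    exact hp2.symm

theorem exists_w4 (p : ℕ) [hp : Fact p.Prime] (hp2 : p ≠ 2) : ∃ w4 : R p, 64 * w4 = 1 := by
  have h : IsUnit (64 : R p) := by
    apply isUnit_of_red
    rw [map_ofNat]
    intro h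
    have : ((64 : ℕ) : ZMod p) = 0 := by exact_mod_cast h
    rw [ZMod.natCast_eq_zero_iff] at this
    have h2 : p ∣ 2 ^ 6 := by norm_num; exact this
    exact hp2 ((Nat.prime_dvd_prime_iff_eq hp.out Nat.prime_two).mp (hp.out.dvd_of_dvd_pow h2))
  exact h.exists_right_inv

/-- For every odd prime p≠11, the sum over k<p of C(2k,k)^2 C(3k,k)/64^k is congruent mod p^2 (p-integral sense) to x^2−2p when (p/11)=1 and 4p=x^2+11y^2, and to 0 when (p/11)=−1. -/
theorem result :
    ∀ p : ℕ, p.Prime → p ≠ 2 → p ≠ 11 →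
      (jacobiSym (p : ℤ) 11 = 1 →
        ∀ x y : ℤ, 4 * (p : ℤ) = x ^ 2 + 11 * y ^ 2 →
          ∃ r : ℚ,
            (∑ k ∈ Finset.range p,
                ((Nat.choose (2 * k) k : ℚ) ^ 2 * (Nat.choose (3 * k) k : ℚ)) / (64 : ℚ) ^ k)
              - ((x : ℚ) ^ 2 - 2 * (p : ℚ)) = (p : ℚ) ^ 2 * r
            ∧ Nat.Coprime r.den p) ∧
      (jacobiSym (p : ℤ) 11 = -1 →
          ∃ r : ℚ,
            (∑ k ∈ Finset.range p,
                ((Nat.choose (2 * k) k : ℚ) ^ 2 * (Nat.choose (3 * k) k : ℚ)) / (64 : ℚ) ^ k)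
              = (p : ℚ) ^ 2 * r
            ∧ Nat.Coprime r.den p) := by
  intro p hp hp2 hp11
  have : Fact p.Prime := ⟨hp⟩
  constructor
  · intro _ x y hxy
    obtain ⟨w4, hw4, h⟩ : ∃ w4 : R p, 64 * w4 = 1 ∧
        ∑ k ∈ range p, (k.centralBinom : R p) * ((u3 k : ℕ) : R p) * w4 ^ k =
          ((x ^ 2 - 2 * p : ℤ) : R p) := by
      by_cases hp3 : p = 3
      · subst hp3
        have h12 : x ^ 2 + 11 * y ^ 2 = 12 := by
          push_cast at hxy
          linarith
        have hx : x ^ 2 = 1 := by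
          have hy1 : y ≤ 1 := by nlinarith [sq_nonneg x]
          have hy2 : -1 ≤ y := by nlinarith [sq_nonneg x]
          have hx1 : x ≤ 3 := by nlinarith [sq_nonneg y]
          have hx2 : -3 ≤ x := by nlinarith [sq_nonneg y]
          interval_cases y <;> interval_cases x <;> simp_all
        refine ⟨1, by decide, ?_⟩
        rw [hx]
        decide
      · obtain ⟨w4, hw4⟩ := exists_w4 p hp2
        refine ⟨w4, hw4, ?_⟩
        rw [split11 p hp2 hp3 hp11 w4 hw4 x y hxy]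
        push_cast
        rfl
    have := conv p hp2 _ w4 hw4 h
    push_cast at this
    exact this
  · intro hj
    have hp3 : p ≠ 3 := by
      rintro rfl
      norm_num at hj
    obtain ⟨w4, hw4⟩ := exists_w4 p hp2
    have h := inert11 p hp2 hp3 hp11 w4 hw4 (no_root p hp2 hj)
    have := conv p hp2 0 w4 hw4 (by rw [h, Int.cast_zero])
    simpa using this

end Pool.Agent.S18649
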