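import Pool.Statements.S18875
import Pool.Agent.Q247.SY.Asm
import Pool.Agent.Q238.SY.SN
import Pool.Agent.Q119.SY.CONJ
import Pool.Agent.Q119.SY.NECF
import Pool.Agent.Q119.SY.NECA
import Pool.Agent.Q148.SY.RouLoc
import Pool.Agent.Q119.SY.RAT
import Pool.Agent.Q65.SY.ABS
import Pool.Agent.Q66.SY.Round
import Pool.Agent.Q119.SY.PUSH
import Pool.Agent.Q166.SY.POLY
import Pool.Agent.Q166.SY.PERT
import Pool.Agent.Q238.SY.APX
import Pool.Agent.Q212.SY.VAR
import Pool.Agent.Q212.SY.TH1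
import Pool.Agent.Q212.SY.THM
import Pool.Agent.Q238.SY.SPAN
import Pool.Agent.Q65.SY.FIB
import Pool.Agent.Q166.SY.MASS
import Pool.Agent.Q65.SY.GAU
import Pool.Agent.Q166.SY.PAR
import Pool.Agent.Q166.SY.FBALL

set_option autoImplicit false
open scoped NumberField
open Pool Pool.MP_ed3ef1_nt

namespace Pool.Agent.S18875

/-- For every number field K and tuple a in O_K^n: some nonzero K-conjugates α_i (repeats allowed) satisfy Σ a_i α_i = 0 iff the strong archimedean and nonarchimedean absolute value criteria hold, or Σ a_i ω_i = 0 for some roots of unity ω_i. -/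
theorem result :
  ∀ (K : Type) [Field K] [NumberField K] (n : ℕ) (a : Fin n → 𝓞 K),
    (∃ α : Fin n → AlgebraicClosure K,
        (∀ i, α i ≠ 0) ∧ (∀ i j, minpoly K (α i) = minpoly K (α j)) ∧
        ∑ i, algebraMap K (AlgebraicClosure K) (a i : K) * α i = 0) ↔
    (((∀ v : NumberField.InfinitePlace K, ∀ i : Fin n,
          v (a i : K) < ∑ j ∈ Finset.univ.erase i, v (a j : K)) ∧
      (∀ v : IsDedekindDomain.HeightOneSpectrum (𝓞 K), ∀ i : Fin n,
          ∃ j : Fin n, j ≠ i ∧ v.valuation K (a i : K) ≤ v.valuation K (a j : K))) ∨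
     ∃ ω : Fin n → AlgebraicClosure K,
        (∀ i, ∃ m : ℕ, 0 < m ∧ ω i ^ m = 1) ∧
        ∑ i, algebraMap K (AlgebraicClosure K) (a i : K) * ω i = 0) := by
  intro K _ _ n a
  exact Q247.SY.final Pool.Agent.Q238.SY.t_SN Pool.Agent.Q119.SY.t_CONJ Pool.Agent.Q119.SY.t_NECF
    Pool.Agent.Q119.SY.t_NECA Pool.Agent.Q148.SY.t_ROU Pool.Agent.Q148.SY.t_LOC
    Pool.Agent.Q119.SY.t_RAT Q65.SY.t_ABS Q66.SY.t_ROUND Pool.Agent.Q119.SY.t_PUSH Q166.SY.t_POLY
    Q166.SY.t_PERT Pool.Agent.Q238.SY.t_APX Q212.SY.t_VAR Q212.SY.t_TH1 Q212.SY.t_THM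
    Pool.Agent.Q238.SY.t_INDEP Pool.Agent.Q238.SY.t_SPAN Q65.SY.t_FIB Q166.SY.t_MASS Q65.SY.t_GAU
    Q166.SY.t_PAR Q166.SY.t_FBALL K n a

end Pool.Agent.S18875
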