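import Pool.Statements.S19444
import Pool.Agent.Q287.DR.Ex

set_option autoImplicit false
open Filter Topology
open Pool Pool.MP_85987b_pr

namespace Pool.Agent.S19444

/-- The negation of the preceding statement: For integer m≥2 and any law of X_0 on ℕ with P(X_0=0)>0 and (m−1)E(X_0 m^X_0)=E(m^X_0)<∞, where X_{n+1} is (sum of m iid copies of X_n minus 1)^+: for all s in (0,m), s≠1, (E s^X_n − 1) divided by 4m/(m−1)²·(s−1)/(m−s)/n² tends to 1. -/
theorem result :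
    ¬ (∀ (m : ℕ), 2 ≤ m → ∀ p : ℕ → ℕ → ℝ,
      (∀ k, 0 ≤ p 0 k) → HasSum (p 0) 1 →
      (∀ n k, p (n + 1) k =
          (∑ x : Fin m → Fin (k + 2),
              if (∑ i, (x i : ℕ)) = k + 1 then ∏ i, p n (x i) else 0)
          + (if k = 0 then p n 0 ^ m else 0)) →
      Summable (fun k : ℕ => p 0 k * (m : ℝ) ^ k) →
      Summable (fun k : ℕ => (k : ℝ) * p 0 k * (m : ℝ) ^ k) →
      ((m : ℝ) - 1) * (∑' k : ℕ, (k : ℝ) * p 0 k * (m : ℝ) ^ k)
          = ∑' k : ℕ, p 0 k * (m : ℝ) ^ k →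
      0 < p 0 0 →
      ∀ s : ℝ, 0 < s → s < (m : ℝ) → s ≠ 1 →
        Tendsto
          (fun n : ℕ =>
            ((∑' k : ℕ, p n k * s ^ k) - 1) /
              (4 * (m : ℝ) / (((m : ℝ) - 1) ^ 2) * ((s - 1) / ((m : ℝ) - s)) / ((n : ℝ) ^ 2)))
          atTop (𝓝 1)) := by
  intro hmain
  have hlim := hmain 2 le_rfl Q287.DR.pp Q287.DR.p0_nonneg Q287.DR.hasSum_p0
    (fun n k => by
      rw [Q287.DR.sum_fin_two]
      rfl)
    (by
      have := Q287.DR.crit0.sum.summable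
      exact this)
    (by
      have := Q287.DR.crit0.msum.summable
      refine this.congr fun k => ?_
      unfold Q287.DR.wt
      push_cast
      show (k : ℝ) * (Q287.DR.p0 k * 2 ^ k) = (k : ℝ) * Q287.DR.pp 0 k * 2 ^ k
      rw [mul_assoc]
      rfl)
    (by
      have h1 := Q287.DR.crit0.sum.tsum_eq
      have h2 := Q287.DR.crit0.msum.tsum_eq
      have h3 : ∑' k : ℕ, (k : ℝ) * Q287.DR.pp 0 k * ((2 : ℕ) : ℝ) ^ k =
          ∑' k : ℕ, (k : ℝ) * Q287.DR.wt Q287.DR.p0 k := by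
        refine tsum_congr fun k => ?_
        unfold Q287.DR.wt
        push_cast
        rw [mul_assoc]
        rfl
      have h4 : ∑' k : ℕ, Q287.DR.pp 0 k * ((2 : ℕ) : ℝ) ^ k = ∑' k : ℕ, Q287.DR.wt Q287.DR.p0 k := by
        refine tsum_congr fun k => ?_
        unfold Q287.DR.wt
        push_cast
        rfl
      rw [h3, h4, h1, h2]
      push_cast
      ring)
    (by
      show 0 < Q287.DR.w0 0 / Q287.DR.Wt
      have : Q287.DR.w0 0 = 1 / 4 := by simp [Q287.DR.w0, Q287.DR.r]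
      rw [this]
      have := Q287.DR.Wt_pos
      positivity)
    (1 / 10) (by norm_num) (by norm_num) (by norm_num)
  have h1 := hlim.eventually (eventually_gt_nhds (show (9 / 10 : ℝ) < 1 by norm_num))
  obtain ⟨N, hN⟩ := eventually_atTop.1 h1
  refine Q287.DR.contra (fun n => (Q287.DR.pp_prob n).1) (fun n => (Q287.DR.pp_prob n).2)
    Q287.DR.sys (c := 1 / (2 * Q287.DR.Wt)) (by have := Q287.DR.Wt_pos; positivity) Q287.DR.tail0
    (N := N + 1) ?_
  intro n hn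
  have hn0 : (0 : ℝ) < n := by
    have : 0 < n := by omega
    exact_mod_cast this
  have h2 := hN n (by omega)
  have h3 : Q287.DR.pp n 0 ≤ ∑' k : ℕ, Q287.DR.pp n k * (1 / 10 : ℝ) ^ k := by
    have hs : Summable (fun k : ℕ => Q287.DR.pp n k * (1 / 10 : ℝ) ^ k) := by
      refine Summable.of_nonneg_of_le (fun k => mul_nonneg ((Q287.DR.pp_prob n).1 k) (by positivity))
        (fun k => ?_) (Q287.DR.pp_prob n).2.summable
      have h4 : (1 / 10 : ℝ) ^ k ≤ 1 := pow_le_one₀ (by norm_num) (by norm_num)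
      have h5 := (Q287.DR.pp_prob n).1 k
      nlinarith
    have := sum_le_hasSum {0} (fun i _ => mul_nonneg ((Q287.DR.pp_prob n).1 i)
      (by positivity : (0 : ℝ) ≤ (1 / 10) ^ i)) hs.hasSum
    simpa using this
  obtain ⟨G, hG⟩ : ∃ G, G = ∑' k : ℕ, Q287.DR.pp n k * (1 / 10 : ℝ) ^ k := ⟨_, rfl⟩
  rw [← hG] at h2 h3
  have h4 : (4 * ((2 : ℕ) : ℝ) / ((((2 : ℕ) : ℝ) - 1) ^ 2) * ((1 / 10 - 1) / (((2 : ℕ) : ℝ) - 1 / 10)) /
      ((n : ℝ) ^ 2)) = -(72 / 19 * (1 / (n : ℝ) ^ 2)) := by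
    push_cast
    ring
  rw [h4, div_neg, lt_neg] at h2
  have h5 : (0 : ℝ) < 72 / 19 * (1 / (n : ℝ) ^ 2) := by positivity
  rw [div_lt_iff₀ h5] at h2
  have h6 : 34 / 10 / (n : ℝ) ^ 2 = 34 / 10 * (1 / (n : ℝ) ^ 2) := by ring
  rw [h6]
  have h7 : (0 : ℝ) < 1 / (n : ℝ) ^ 2 := by positivity
  linarith

end Pool.Agent.S19444
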