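import Pool.Statements.S19611
import Pool.Agent.Q42.UIC.All

set_option autoImplicit false
open MeasureTheory ProbabilityTheory
open Pool Pool.MP_bedcbf_pr

namespace Pool.Agent.S19611

/-- For an ergodic stationary Markov chain (kernel Q, law ν) and f in L² with mean 0, if the sums of squared L² norms of Q^k f and Q*^k f over k≥1 are finite, then n^{-1/2}·Σ_{i<n} f(X_i) converges in law to a centered normal. -/
theorem result :
  ∀ (S : Type) [mS : MeasurableSpace S] (Q : Kernel S S) [IsMarkovKernel Q]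
    (ν : Measure S) [IsProbabilityMeasure ν] (f : S → ℝ),
    ν.bind Q = ν →
    (∀ A : Set S, MeasurableSet A →
      (∀ᵐ x ∂ν, Q x A = A.indicator (fun _ => (1 : ENNReal)) x) → ν A = 0 ∨ ν A = 1) →
    Measurable f → MemLp f 2 ν → ∫ x, f x ∂ν = 0 →
    Summable (fun k : ℕ =>
      ∫ x, ((fun (h : S → ℝ) => fun y => ∫ z, h z ∂(Q y))^[k+1] f x) ^ 2 ∂ν) →
    (∃ c : ℕ → ℝ, Summable c ∧ ∀ k : ℕ, ∀ g : S → ℝ, Measurable g →
        (∃ C : ℝ, ∀ x, |g x| ≤ C) → ∫ x, g x ^ 2 ∂ν ≤ 1 →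
        (∫ x, f x * (fun (h : S → ℝ) => fun y => ∫ z, h z ∂(Q y))^[k+1] g x ∂ν) ^ 2 ≤ c k) →
    ∀ (Ω : Type) [mΩ : MeasurableSpace Ω] (μ : Measure Ω) [IsProbabilityMeasure μ]
      (X : ℕ → Ω → S),
      (∀ i, Measurable (X i)) → μ.map (X 0) = ν →
      (∀ n : ℕ, ∀ A : Set S, MeasurableSet A →
        condExp (⨆ i ≤ n, MeasurableSpace.comap (X i) mS) μ
          ((X (n+1) ⁻¹' A).indicator (fun _ => (1 : ℝ)))
          =ᵐ[μ] fun ω => (Q (X n ω) A).toReal) →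
      ∃ v : NNReal, ∀ g : ℝ → ℝ, Continuous g → (∃ C : ℝ, ∀ x, |g x| ≤ C) →
        Filter.Tendsto
          (fun n : ℕ => ∫ ω, g ((Real.sqrt n)⁻¹ * ∑ i ∈ Finset.range n, f (X i ω)) ∂μ)
          Filter.atTop (nhds (∫ x, g x ∂(gaussianReal 0 v))) := by
  intro S _ Q _ ν _ f hν herg hf hf2 _ hF hB Ω _ μ _ X hX h0 hM
  exact Pool.Agent.Q42.UIC.final Pool.Agent.Q42.UIC.mem_blk Pool.Agent.Q42.UIC.a_lev_eq_blk
    Pool.Agent.Q42.UIC.a_sq_conc Pool.Agent.Q42.UIC.a_ui Pool.Agent.Q42.UIC.a_var_tendsto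
    Pool.Agent.Q42.UIC.a_clt_core Pool.Agent.Q42.UIC.proc_law @Pool.Agent.Q42.UIC.hardy
    Pool.Agent.Q42.UIC.fwd_drift Pool.Agent.Q42.UIC.bwd_drift
    S Q ν f hν herg hf hf2 hF hB Ω μ X hX h0 hM

end Pool.Agent.S19611
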