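import Pool.Statements.S19735
import Pool.Agent.W890.SF.All

set_option autoImplicit false
open Pool Pool.MP_f10e5d_pr

namespace Pool.Agent.S19735

/-- For all n and all p_i in (0,1), independent X_i equal to 0 with probability p_i and to 1/(1-p_i) otherwise satisfy P(X_1+...+X_n < n+1) ≥ 1/e, with the probability written as a finite sum over the set of nonzero X_i. -/
theorem result :
    ∀ n : ℕ, ∀ p : Fin n → ℝ, (∀ i, 0 < p i ∧ p i < 1) →
      Real.exp (-1) ≤
        ∑ S ∈ (Finset.univ : Finset (Finset (Fin n))).filter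
            (fun S => ∑ i ∈ S, 1 / (1 - p i) < (n : ℝ) + 1),
          (∏ i ∈ S, (1 - p i)) * ∏ i ∈ Sᶜ, p i := by
  intro n p hp
  rcases Nat.eq_zero_or_pos n with h0 | hn
  · subst h0
    have h1 : (Finset.univ : Finset (Finset (Fin 0))).filter
            (fun S => ∑ i ∈ S, 1 / (1 - p i) < ((0 : ℕ) : ℝ) + 1) = {∅} := by
      ext S
      have hS : S = ∅ := Finset.eq_empty_of_isEmpty S
      subst hS
      simp only [Finset.mem_filter, Finset.mem_univ, true_and, Finset.sum_empty, Finset.mem_singleton,
        iff_true]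
      norm_num
    rw [h1]
    simp
  · have hn1 : (0 : ℝ) < n := by exact_mod_cast hn
    have hx0 : (0 : ℝ) < 1 / ((n : ℝ) + 1) := by positivity
    have hx1 : 1 / ((n : ℝ) + 1) < 1 := by
      rw [div_lt_one (by positivity)]
      linarith
    have hrx : (n : ℝ) * (1 / ((n : ℝ) + 1)) < 1 := by
      rw [mul_one_div, div_lt_one (by positivity)]
      linarith
    have key := Pool.Agent.W890.SF.t_T2G n hn (1 / ((n : ℝ) + 1)) hx0 hx1 hrx
      (fun _ => 0) (fun i => 1 / (1 - p i) / ((n : ℝ) + 1)) (fun i => 1 - p i)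
      { a0 := fun i => le_refl _
        b0 := fun i => by
          have := (hp i).2
          have h2 : 0 < 1 - p i := by linarith
          positivity
        q0 := fun i => by have := (hp i).2; linarith
        q1 := fun i => by have := (hp i).1; linarith
        mean := fun i => by
          have := (hp i).2
          have h2 : 1 - p i ≠ 0 := by linarith
          field_simp
          ring }
    have hPP : Pool.Agent.W890.SF.PP (fun _ => 0) (fun i => 1 / (1 - p i) / ((n : ℝ) + 1))
        (fun i => 1 - p i) = ∑ S ∈ (Finset.univ : Finset (Finset (Fin n))).filter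
            (fun S => ∑ i ∈ S, 1 / (1 - p i) < (n : ℝ) + 1),
          (∏ i ∈ S, (1 - p i)) * ∏ i ∈ Sᶜ, p i := by
      unfold Pool.Agent.W890.SF.PP Pool.Agent.W890.SF.PU Pool.Agent.W890.SF.Wt
      rw [Finset.sum_filter, Finset.powerset_univ]
      refine Finset.sum_congr rfl fun S _ => ?_
      have e1 : ∑ i ∈ S, 1 / (1 - p i) / ((n : ℝ) + 1) =
          (∑ i ∈ S, 1 / (1 - p i)) / ((n : ℝ) + 1) := by
        rw [Finset.sum_div]
      have e2 : (∑ i ∈ S, 1 / (1 - p i) / ((n : ℝ) + 1) < 1 - ∑ i : Fin n, (0 : ℝ)) ↔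
          (∑ i ∈ S, 1 / (1 - p i) < (n : ℝ) + 1) := by
        rw [e1, Finset.sum_const_zero, sub_zero, div_lt_one (by positivity)]
      have e3 : Finset.univ \ S = Sᶜ := by
        ext i; simp
      simp only [e2, e3, sub_sub_cancel]
    rw [hPP] at key
    refine le_trans (le_min ?_ ?_) key
    · have h1 : (1 - 1 / ((n : ℝ) + 1)) = (1 + 1 / (n : ℝ))⁻¹ := by
        field_simp
        ring
      rw [h1, inv_pow, Real.exp_neg]
      apply inv_anti₀ (by positivity)
      have h2 : 1 + 1 / (n : ℝ) ≤ Real.exp (1 / (n : ℝ)) := by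
        have := Real.add_one_le_exp (1 / (n : ℝ))
        linarith
      calc (1 + 1 / (n : ℝ)) ^ n ≤ (Real.exp (1 / (n : ℝ))) ^ n :=
            pow_le_pow_left₀ (by positivity) h2 n
        _ = Real.exp 1 := by
            rw [← Real.exp_nat_mul]
            congr 1
            field_simp
    · have h1 : (1 - (n : ℝ) * (1 / ((n : ℝ) + 1))) / (1 - ((n : ℝ) - 1) * (1 / ((n : ℝ) + 1))) =
          1 / 2 := by
        have : (n : ℝ) + 1 ≠ 0 := by positivity
        have h3 : (1 - ((n : ℝ) - 1) * (1 / ((n : ℝ) + 1))) = 2 / ((n : ℝ) + 1) := by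
          field_simp
          ring
        have h4 : (1 - (n : ℝ) * (1 / ((n : ℝ) + 1))) = 1 / ((n : ℝ) + 1) := by
          field_simp
          ring
        rw [h3, h4]
        field_simp
      rw [h1]
      have := Real.exp_neg_one_lt_d9
      linarith

end Pool.Agent.S19735
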